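import Pool.Agent.LibEin99.Defs

/-!
TASK A_Box. Box geometry and unit steps.
`Bx r z = Finset.Icc (z - r) (z + r)` coordinatewise, so `y ∈ Bx r z ↔ ∀ i, |y i - z i| ≤ r`.
-/

open MeasureTheory ProbabilityTheory Filter Topology

namespace Ein99

variable {d : ℕ}

theorem mem_Bx {r : ℕ} {z y : V d} : y ∈ Bx r z ↔ ∀ i, |y i - z i| ≤ (r : ℤ) := by
  unfold Bx
  rw [Finset.mem_Icc]
  constructor
  · rintro ⟨h1, h2⟩ i
    have a := h1 i
    have b := h2 i
    simp only at a b
    rw [abs_le]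
    constructor <;> linarith
  · intro h
    refine ⟨fun i => ?_, fun i => ?_⟩
    · have := abs_le.mp (h i)
      simp only
      linarith [this.1]
    · have := abs_le.mp (h i)
      simp only
      linarith [this.2]

theorem self_mem_Bx (r : ℕ) (z : V d) : z ∈ Bx r z := by
  rw [mem_Bx]; intro i; simp

theorem card_Bx (r : ℕ) (z : V d) : (Bx r z).card = (2 * r + 1) ^ d := by
  unfold Bx
  rw [Pi.card_Icc]
  have h : ∀ i : Fin d, (Finset.Icc (z i - (r : ℤ)) (z i + r)).card = 2 * r + 1 := by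
    intro i
    rw [Int.card_Icc]
    have : z i + (r : ℤ) + 1 - (z i - r) = ((2 * r + 1 : ℕ) : ℤ) := by push_cast; ring
    rw [this, Int.toNat_natCast]
  rw [Finset.prod_congr rfl (fun i _ => h i)]
  simp

theorem Bx_trans {r s : ℕ} {x y z : V d} (h1 : y ∈ Bx r x) (h2 : z ∈ Bx s y) : z ∈ Bx (r + s) x := by
  rw [mem_Bx] at *
  intro i
  have a := abs_le.mp (h1 i)
  have b := abs_le.mp (h2 i)
  rw [abs_le]; push_cast
  constructor <;> linarith [a.1, a.2, b.1, b.2]

theorem Bx_comm {r : ℕ} {x y : V d} : y ∈ Bx r x ↔ x ∈ Bx r y := by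
  rw [mem_Bx, mem_Bx]
  constructor <;> intro h i <;> rw [abs_sub_comm] <;> exact h i

theorem Bx_mono {r s : ℕ} (h : r ≤ s) (z : V d) : Bx r z ⊆ Bx s z := by
  intro y hy
  rw [mem_Bx] at *
  intro i
  exact (hy i).trans (by exact_mod_cast h)

theorem Bx_subset {r s : ℕ} {y z : V d} (h : y ∈ Bx s z) : Bx r y ⊆ Bx (r + s) z := by
  intro x hx
  have := Bx_trans h hx
  rwa [add_comm] at this

theorem add_st_mem_Bx (x : V d) (δ : Dir d) : x + st δ ∈ Bx 1 x := by
  rw [mem_Bx]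
  intro i
  simp only [Pi.add_apply, add_sub_cancel_left, st]
  by_cases hi : i = δ.1
  · subst hi
    rw [Pi.single_eq_same]
    split_ifs <;> simp
  · rw [Pi.single_eq_of_ne hi]; simp

theorem dot_add (l : Fin d → ℝ) (x y : V d) : dot l (x + y) = dot l x + dot l y := by
  unfold dot
  rw [← Finset.sum_add_distrib]
  apply Finset.sum_congr rfl
  intro i _
  simp only [Pi.add_apply]; push_cast; ring

theorem dot_st (l : Fin d → ℝ) (δ : Dir d) : dot l (st δ) = dt l δ := by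
  unfold dot dt st
  rw [Finset.sum_eq_single δ.1]
  · rw [Pi.single_eq_same]
    split_ifs <;> simp
  · intro i _ hi
    rw [Pi.single_eq_of_ne hi]; simp
  · intro h; exact absurd (Finset.mem_univ _) h

theorem dt_rv (l : Fin d → ℝ) (δ : Dir d) : dt l (rv δ) = - dt l δ := by
  obtain ⟨i, b⟩ := δ
  unfold dt rv
  cases b <;> simp

theorem st_rv (δ : Dir d) : st (rv δ) = - st δ := by
  obtain ⟨i, b⟩ := δ
  unfold st rv
  funext j
  by_cases hj : j = i
  · subst hj
    cases b <;> simp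
  · cases b <;> simp [Pi.single_eq_of_ne hj]

theorem rv_rv (δ : Dir d) : rv (rv δ) = δ := by
  obtain ⟨i, b⟩ := δ
  unfold rv
  cases b <;> simp

theorem opn_rv (ω : Om d) (x : V d) (δ : Dir d) : opn ω (x + st δ) (rv δ) ↔ opn ω x δ := by
  have h : ed (x + st δ) (rv δ) = ed x δ := by
    have h2 : x + st δ + st (rv δ) = x := by rw [st_rv]; abel
    obtain ⟨i, b⟩ := δ
    unfold ed
    cases b
    · simp [rv]
    · have : (rv (i, true) : Dir d).2 = false := rfl
      rw [if_neg (by rw [this]; simp), if_pos rfl, h2]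
      rfl
  unfold opn
  rw [h]

theorem abs_dt_le (l : Fin d → ℝ) (hl : ∑ i, l i ^ 2 = 1) (δ : Dir d) : |dt l δ| ≤ 1 := by
  have h1 : l δ.1 ^ 2 ≤ 1 := by
    rw [← hl]
    exact Finset.single_le_sum (f := fun i => l i ^ 2) (fun i _ => sq_nonneg _) (Finset.mem_univ δ.1)
  have h2 : |l δ.1| ≤ 1 := abs_le_one_iff_mul_self_le_one.mpr (by nlinarith)
  unfold dt
  split_ifs
  · exact h2
  · rw [abs_neg]; exact h2

/-- Cauchy-Schwarz and `|y i - x i| ≤ r`. -/
theorem abs_dot_sub_le (l : Fin d → ℝ) (hl : ∑ i, l i ^ 2 = 1) {r : ℕ} {x y : V d}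
    (h : y ∈ Bx r x) : |dot l y - dot l x| ≤ Real.sqrt d * r := by
  have e : dot l y - dot l x = ∑ i, ((y i - x i : ℤ) : ℝ) * l i := by
    unfold dot
    rw [← Finset.sum_sub_distrib]
    apply Finset.sum_congr rfl
    intro i _
    push_cast; ring
  have cs := Finset.sum_mul_sq_le_sq_mul_sq Finset.univ (fun i => ((y i - x i : ℤ) : ℝ)) l
  rw [hl, mul_one] at cs
  have b : ∑ i : Fin d, ((y i - x i : ℤ) : ℝ) ^ 2 ≤ (d : ℝ) * (r : ℝ) ^ 2 := by
    have : ∀ i ∈ (Finset.univ : Finset (Fin d)), ((y i - x i : ℤ) : ℝ) ^ 2 ≤ (r : ℝ) ^ 2 := by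
      intro i _
      have hi := (mem_Bx.mp h) i
      have hi' : |((y i - x i : ℤ) : ℝ)| ≤ (r : ℝ) := by
        rw [← Int.cast_abs]; exact_mod_cast hi
      rw [← sq_abs]
      exact pow_le_pow_left₀ (abs_nonneg _) hi' 2
    have s := Finset.sum_le_sum this
    rw [Finset.sum_const, Finset.card_univ, Fintype.card_fin, nsmul_eq_mul] at s
    exact s
  rw [e]
  apply abs_le_of_sq_le_sq
  · rw [mul_pow, Real.sq_sqrt (Nat.cast_nonneg d)]
    exact cs.trans b
  · positivity

end Ein99
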