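import Pool.Agent.LibEin99.A_Occ

/-!
TASK A_Edge. Sums over undirected edges, and the discrete divergence theorem for the current of the
walk.

`esum ω R x0 f` sums `f x i` over the open edges `(x, x + e_i)` with `x` in the box of radius `R`.

`edge_sum`: split `δ = (i, true)` and `δ = (i, false)`; in the second part substitute
`x = x' + e_i` (`opn ω (x' + e_i) (i,false) ↔ opn ω x' (i,true)`, see `opn_rv`); terms outside
`Bx n x0` vanish.

`flux`: apply `edge_sum` to `f x δ = Fo x * exp(lam dt δ) * (g x - g (x + st δ))` and use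
`Occ_mul_gen`, `Occ_sbp`.
-/

open MeasureTheory ProbabilityTheory Filter Topology

namespace Ein99

variable {d : ℕ}

/-- The sum over the open undirected edges `(x, i)` with `x` in the box of radius `R`. -/
noncomputable def esum (ω : Om d) (R : ℕ) (x0 : V d) (f : V d → Fin d → ℝ) : ℝ :=
  ∑ x ∈ Bx R x0, ∑ i, if opn ω x (i, true) then f x i else 0

theorem esum_mono (ω : Om d) (R : ℕ) (x0 : V d) {f g : V d → Fin d → ℝ}
    (h : ∀ x i, opn ω x (i, true) → f x i ≤ g x i) : esum ω R x0 f ≤ esum ω R x0 g := by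
  unfold esum
  apply Finset.sum_le_sum
  intro x _
  apply Finset.sum_le_sum
  intro i _
  split_ifs with hi
  · exact h x i hi
  · exact le_rfl

theorem esum_add (ω : Om d) (R : ℕ) (x0 : V d) (f g : V d → Fin d → ℝ) :
    esum ω R x0 (fun x i => f x i + g x i) = esum ω R x0 f + esum ω R x0 g := by
  unfold esum
  rw [← Finset.sum_add_distrib]
  apply Finset.sum_congr rfl
  intro x _
  rw [← Finset.sum_add_distrib]
  apply Finset.sum_congr rfl
  intro i _
  split_ifs
  · rfl
  · rw [add_zero]

theorem esum_const_mul (ω : Om d) (R : ℕ) (x0 : V d) (c : ℝ) (f : V d → Fin d → ℝ) :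
    esum ω R x0 (fun x i => c * f x i) = c * esum ω R x0 f := by
  unfold esum
  rw [Finset.mul_sum]
  apply Finset.sum_congr rfl
  intro x _
  rw [Finset.mul_sum]
  apply Finset.sum_congr rfl
  intro i _
  split_ifs
  · rfl
  · rw [mul_zero]

theorem esum_const_le (ω : Om d) (R : ℕ) (x0 : V d) (c : ℝ) (hc : 0 ≤ c) :
    esum ω R x0 (fun _ _ => c) ≤ d * (2 * R + 1) ^ d * c := by
  unfold esum
  have h1 : ∀ x ∈ Bx R x0, (∑ i : Fin d, if opn ω x (i, true) then c else 0) ≤ d * c := by
    intro x _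
    have h2 : ∀ i ∈ (Finset.univ : Finset (Fin d)), (if opn ω x (i, true) then c else 0) ≤ c := by
      intro i _
      split_ifs
      · exact le_rfl
      · exact hc
    refine (Finset.sum_le_card_nsmul _ _ _ h2).trans (le_of_eq ?_)
    rw [nsmul_eq_mul, Finset.card_univ, Fintype.card_fin]
  refine (Finset.sum_le_card_nsmul _ _ _ h1).trans (le_of_eq ?_)
  rw [nsmul_eq_mul, card_Bx]
  push_cast
  ring

theorem abs_esum_le (ω : Om d) (R : ℕ) (x0 : V d) (f : V d → Fin d → ℝ) :
    |esum ω R x0 f| ≤ esum ω R x0 (fun x i => |f x i|) := by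
  unfold esum
  refine (Finset.abs_sum_le_sum_abs _ _).trans ?_
  apply Finset.sum_le_sum
  intro x _
  refine (Finset.abs_sum_le_sum_abs _ _).trans ?_
  apply Finset.sum_le_sum
  intro i _
  split_ifs
  · exact le_rfl
  · rw [abs_zero]

theorem A_Edge_esum_eq (ω : Om d) (R : ℕ) (x0 : V d) (f : V d → Fin d → ℝ) :
    esum ω R x0 f = ∑ p ∈ (Bx R x0 ×ˢ (Finset.univ : Finset (Fin d))).filter
      (fun p => opn ω p.1 (p.2, true)), f p.1 p.2 := by
  unfold esum
  rw [Finset.sum_filter, Finset.sum_product]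

/-- Cauchy-Schwarz: `(∑ a b)² ≤ (∑ a²/t)(∑ t b²)` for positive weights `t`. -/
theorem esum_cs (ω : Om d) (R : ℕ) (x0 : V d) (a b t : V d → Fin d → ℝ)
    (ht : ∀ x i, 0 < t x i) :
    (esum ω R x0 (fun x i => a x i * b x i)) ^ 2
      ≤ esum ω R x0 (fun x i => a x i ^ 2 / t x i) * esum ω R x0 (fun x i => t x i * b x i ^ 2) := by
  rw [A_Edge_esum_eq, A_Edge_esum_eq, A_Edge_esum_eq]
  apply Finset.sum_sq_le_sum_mul_sum_of_sq_le_mul
  · intro p _
    exact div_nonneg (sq_nonneg _) (ht p.1 p.2).le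
  · intro p _
    exact mul_nonneg (ht p.1 p.2).le (sq_nonneg _)
  · intro p _
    have := (ht p.1 p.2).ne'
    apply le_of_eq
    field_simp

theorem A_Edge_shift (n R : ℕ) (hR : n + 1 ≤ R) (x0 : V d) (δ : Dir d) (F : V d → ℝ)
    (hF : ∀ x, x ∉ Bx n x0 → F x = 0) :
    ∑ x ∈ Bx n x0, F x = ∑ x ∈ Bx R x0, F (x + st δ) := by
  have h1 : ∑ x ∈ Bx R x0, F (x + st δ) =
      ∑ x ∈ (Bx R x0).map (addRightEmbedding (st δ)), F x := by
    rw [Finset.sum_map]
    rfl
  rw [h1]
  apply Finset.sum_subset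
  · intro x hx
    rw [Finset.mem_map]
    refine ⟨x - st δ, ?_, ?_⟩
    · have h2 : x - st δ ∈ Bx 1 x := by
        have h3 := add_st_mem_Bx x (rv δ)
        rw [st_rv, ← sub_eq_add_neg] at h3
        exact h3
      exact Bx_mono hR x0 (Bx_trans hx h2)
    · show x - st δ + st δ = x
      rw [sub_add_cancel]
  · intro x _ hx
    exact hF x hx

theorem edge_sum (ω : Om d) (n R : ℕ) (hR : n + 1 ≤ R) (x0 : V d) (f : V d → Dir d → ℝ)
    (hf : ∀ x, x ∉ Bx n x0 → ∀ δ, f x δ = 0) :
    ∑ x ∈ Bx n x0, ∑ δ, (if opn ω x δ then f x δ else 0)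
      = esum ω R x0 (fun x i => f x (i, true) + f (x + st (i, true)) (i, false)) := by
  have h1 : ∑ x ∈ Bx n x0, ∑ δ, (if opn ω x δ then f x δ else 0) =
      (∑ x ∈ Bx n x0, ∑ i : Fin d, if opn ω x (i, true) then f x (i, true) else 0) +
      ∑ x ∈ Bx n x0, ∑ i : Fin d, if opn ω x (i, false) then f x (i, false) else 0 := by
    rw [← Finset.sum_add_distrib]
    apply Finset.sum_congr rfl
    intro x _
    rw [← Finset.sum_add_distrib, Fintype.sum_prod_type]
    apply Finset.sum_congr rfl
    intro i _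
    rw [Fintype.sum_bool]
  have h2 : (∑ x ∈ Bx n x0, ∑ i : Fin d, if opn ω x (i, true) then f x (i, true) else 0) =
      ∑ x ∈ Bx R x0, ∑ i : Fin d, if opn ω x (i, true) then f x (i, true) else 0 := by
    apply Finset.sum_subset (Bx_mono (by omega) x0)
    intro x _ hx
    apply Finset.sum_eq_zero
    intro i _
    rw [hf x hx, ite_self]
  have h3 : (∑ x ∈ Bx n x0, ∑ i : Fin d, if opn ω x (i, false) then f x (i, false) else 0) =
      ∑ x ∈ Bx R x0, ∑ i : Fin d,
        if opn ω x (i, true) then f (x + st (i, true)) (i, false) else 0 := by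
    rw [Finset.sum_comm, Finset.sum_comm (s := Bx R x0)]
    apply Finset.sum_congr rfl
    intro i _
    rw [A_Edge_shift n R hR x0 (i, true)
      (fun x => if opn ω x (i, false) then f x (i, false) else 0)
      (fun x hx => by simp only [hf x hx, ite_self])]
    apply Finset.sum_congr rfl
    intro x _
    have h4 : opn ω (x + st (i, true)) (i, false) ↔ opn ω x (i, true) := opn_rv ω x (i, true)
    by_cases h5 : opn ω x (i, true)
    · rw [if_pos h5, if_pos (h4.2 h5)]
    · rw [if_neg h5, if_neg (fun h => h5 (h4.1 h))]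
  rw [h1, h2, h3]
  exact (esum_add ω R x0 (fun x i => f x (i, true))
    (fun x i => f (x + st (i, true)) (i, false))).symm

theorem flux (lam : ℝ) (l : Fin d → ℝ) (ω : Om d) (n R : ℕ) (hR : n + 1 ≤ R) (x0 : V d)
    (g : V d → ℝ) :
    esum ω R x0 (fun x i =>
        (Fo lam l ω n x0 x * Real.exp (lam * l i)
          - Fo lam l ω n x0 (x + st (i, true)) * Real.exp (-(lam * l i)))
        * (g x - g (x + st (i, true))))
      = g x0 - Pn lam l ω n g x0 := by
  have h1 := edge_sum ω n R hR x0
    (fun x δ => Fo lam l ω n x0 x * Real.exp (lam * dt l δ) * (g x - g (x + st δ))) (by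
      intro x hx δ
      have h2 : Fo lam l ω n x0 x = 0 := by
        unfold Fo
        rw [Occ_eq_zero lam l ω n x0 x hx, zero_div]
      rw [h2, zero_mul, zero_mul])
  have h2 : (fun (x : V d) (i : Fin d) =>
      (Fo lam l ω n x0 x * Real.exp (lam * l i)
        - Fo lam l ω n x0 (x + st (i, true)) * Real.exp (-(lam * l i)))
        * (g x - g (x + st (i, true)))) =
      fun x i => Fo lam l ω n x0 x * Real.exp (lam * dt l (i, true)) *
        (g x - g (x + st (i, true))) +
        Fo lam l ω n x0 (x + st (i, true)) * Real.exp (lam * dt l (i, false)) *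
        (g (x + st (i, true)) - g (x + st (i, true) + st (i, false))) := by
    funext x i
    have e1 : dt l (i, true) = l i := rfl
    have e2 : dt l (i, false) = -l i := rfl
    have e3 : x + st (i, true) + st (i, false) = x := by
      have h4 : (st (i, false) : V d) = -st (i, true) := st_rv (i, true)
      rw [h4, add_neg_cancel_right]
    rw [e1, e2, e3, mul_neg]
    ring
  rw [h2, ← h1, ← Occ_sbp lam l ω n x0 g]
  apply Finset.sum_congr rfl
  intro x _
  rw [Occ_mul_gen, Finset.mul_sum]
  apply Finset.sum_congr rfl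
  intro δ _
  unfold wt
  split_ifs
  · ring
  · ring

end Ein99
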