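import Mathlib

/-!
TASK A_LogIneq. Two elementary inequalities for `u, w > 0`:
`2 (u-w)²/(u+w) ≤ (u-w) (log u - log w)`  (i.e. `log t ≥ 2 (t-1)/(t+1)` for `t ≥ 1`),
`4 (√u - √w)² ≤ (u-w) (log u - log w)`   (i.e. `log t ≥ 4 (√t-1)/(√t+1)`... equivalently with
`t = s²`: `2 log s ≥ 4 (s-1)/(s+1)`, the same inequality for `s`; indeed
`(u-w)(log u - log w) = (√u-√w)(√u+√w) · 2 (log √u - log √w) ≥ 2(√u+√w)·2(√u-√w)²/(√u+√w)`).
Mathlib may have `Real.one_sub_inv_le_log_of_pos`, `Real.le_log_of_..`; otherwise monotonicity of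
`log t - 2(t-1)/(t+1)` (derivative `(t-1)²/(t(t+1)²) ≥ 0`).
-/

namespace Ein99

theorem A_LogIneq_aux {t : ℝ} (ht : 1 ≤ t) : 2 * (t - 1) / (t + 1) ≤ Real.log t := by
  have hmono : MonotoneOn (fun t : ℝ => Real.log t - 2 * (t - 1) / (t + 1)) (Set.Ici 1) := by
    apply monotoneOn_of_deriv_nonneg (convex_Ici 1)
    · apply ContinuousOn.sub
      · exact Real.continuousOn_log.mono (fun x hx => by
          have : (1 : ℝ) ≤ x := hx
          simp only [Set.mem_compl_iff, Set.mem_singleton_iff]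
          linarith)
      · apply ContinuousOn.div (by fun_prop) (by fun_prop)
        intro x hx
        have : (1 : ℝ) ≤ x := hx
        linarith
    · intro x hx
      rw [interior_Ici] at hx
      have hx1 : (1 : ℝ) < x := hx
      have h1 : HasDerivAt (fun t : ℝ => 2 * (t - 1) / (t + 1))
          ((2 * 1 * (x + 1) - 2 * (x - 1) * 1) / (x + 1) ^ 2) x :=
        (((hasDerivAt_id x).sub_const 1).const_mul 2).div ((hasDerivAt_id x).add_const 1)
          (show x + 1 ≠ 0 by linarith)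
      exact ((Real.hasDerivAt_log (by linarith)).sub h1).differentiableAt.differentiableWithinAt
    · intro x hx
      rw [interior_Ici] at hx
      have hx1 : (1 : ℝ) < x := hx
      have h1 : HasDerivAt (fun t : ℝ => 2 * (t - 1) / (t + 1))
          ((2 * 1 * (x + 1) - 2 * (x - 1) * 1) / (x + 1) ^ 2) x :=
        (((hasDerivAt_id x).sub_const 1).const_mul 2).div ((hasDerivAt_id x).add_const 1)
          (show x + 1 ≠ 0 by linarith)
      have h2 := ((Real.hasDerivAt_log (by linarith : x ≠ 0)).sub h1).deriv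
      have h3 : deriv (fun t : ℝ => Real.log t - 2 * (t - 1) / (t + 1)) x =
          x⁻¹ - (2 * 1 * (x + 1) - 2 * (x - 1) * 1) / (x + 1) ^ 2 := h2
      rw [h3]
      have hx0 : 0 < x := by linarith
      have h4 : x⁻¹ - (2 * 1 * (x + 1) - 2 * (x - 1) * 1) / (x + 1) ^ 2 =
          (x - 1) ^ 2 / (x * (x + 1) ^ 2) := by
        field_simp
        ring
      rw [h4]
      positivity
  have := hmono (Set.mem_Ici.2 le_rfl) (Set.mem_Ici.2 ht) ht
  simp only [Real.log_one, sub_self, mul_zero, zero_div] at this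
  linarith

theorem A_LogIneq_aux2 {u w : ℝ} (hw : 0 < w) (huw : w ≤ u) :
    2 * (u - w) ^ 2 / (u + w) ≤ (u - w) * (Real.log u - Real.log w) := by
  have hu : 0 < u := by linarith
  have h1 := A_LogIneq_aux ((one_le_div hw).2 huw)
  rw [Real.log_div hu.ne' hw.ne'] at h1
  have h2 : 2 * (u / w - 1) / (u / w + 1) = 2 * (u - w) / (u + w) := by
    field_simp
  rw [h2] at h1
  calc 2 * (u - w) ^ 2 / (u + w) = (u - w) * (2 * (u - w) / (u + w)) := by ring
    _ ≤ _ := mul_le_mul_of_nonneg_left h1 (by linarith)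

theorem log_ineq (u w : ℝ) (hu : 0 < u) (hw : 0 < w) :
    2 * (u - w) ^ 2 / (u + w) ≤ (u - w) * (Real.log u - Real.log w) := by
  rcases le_total w u with h | h
  · exact A_LogIneq_aux2 hw h
  · have := A_LogIneq_aux2 hu h
    calc 2 * (u - w) ^ 2 / (u + w) = 2 * (w - u) ^ 2 / (w + u) := by
          rw [add_comm w u]
          ring
      _ ≤ (w - u) * (Real.log w - Real.log u) := this
      _ = _ := by ring

theorem log_ineq_sqrt (u w : ℝ) (hu : 0 < u) (hw : 0 < w) :
    4 * (Real.sqrt u - Real.sqrt w) ^ 2 ≤ (u - w) * (Real.log u - Real.log w) := by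
  have hsu := Real.sqrt_pos.2 hu
  have hsw := Real.sqrt_pos.2 hw
  have h1 := log_ineq (Real.sqrt u) (Real.sqrt w) hsu hsw
  have e1 : Real.log (Real.sqrt u) = Real.log u / 2 := Real.log_sqrt hu.le
  have e2 : Real.log (Real.sqrt w) = Real.log w / 2 := Real.log_sqrt hw.le
  rw [e1, e2, div_le_iff₀ (by positivity)] at h1
  have e3 : u - w = (Real.sqrt u - Real.sqrt w) * (Real.sqrt u + Real.sqrt w) := by
    have a1 := Real.mul_self_sqrt hu.le
    have a2 := Real.mul_self_sqrt hw.le
    nlinarith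
  rw [e3]
  nlinarith

end Ein99
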