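import Pool.Agent.LibEin99.A_Edge
import Pool.Agent.LibEin99.A_LogIneq

/-!
TASK A_Energy. The dissipation inequality.

Notation: `F = Fo`, `F' = Fp = F + eps`, `eps = (n+2)^{-2d}`; for an edge `(x,i)`, `y = x + e_i`,
`s = lam * l i`, `u = F'(x) e^s`, `w = F'(y) e^{-s}`, `jp = u - w`, `tp = u + w`, and
`j = F(x) e^s - F(y) e^{-s} = jp - 2 eps sinh s`.

`(u-w)(log u - log w) = jp (log F'(x) - log F'(y)) + 2 s jp`. Summing over the region `R = 2n+1`:
* `∑ j (log F'(x) - log F'(y)) = log F'(x0) - Pn n (log F') x0` by `flux`;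
* `∑ j · l i = DD` by `flux` with `g = - dot l` (`g x - g y = l i`);
* the `eps` terms: `|jp - j| ≤ 4 eps` (`|s| ≤ 1`), `|log F'| ≤ C log (n+2)` everywhere
  (`eps ≤ F' ≤ 4 n + 1`: by `Fo_le`, `Occ ≤ n`), and there are at most `d (4n+3)^d` edges,
  `d (4n+3)^d eps ≤ d 4^d`.
So `∑ (u-w)(log u - log w) ≤ 2 lam DD + C log(n+2)`  (this is `energy_log`).
Then `energy_D` follows from `log_ineq`.
-/

open MeasureTheory ProbabilityTheory Filter Topology

namespace Ein99

variable {d : ℕ} (lam : ℝ) (l : Fin d → ℝ) (ω : Om d)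

/-- a small mass -/
noncomputable def eps (d n : ℕ) : ℝ := 1 / ((n : ℝ) + 2) ^ (2 * d)

/-- `F' = F + eps` -/
noncomputable def Fp (n : ℕ) (x0 x : V d) : ℝ := Fo lam l ω n x0 x + eps d n

/-- the antisymmetric part (current) on the edge `(x, i)` -/
noncomputable def jp (n : ℕ) (x0 x : V d) (i : Fin d) : ℝ :=
  Fp lam l ω n x0 x * Real.exp (lam * l i)
    - Fp lam l ω n x0 (x + st (i, true)) * Real.exp (-(lam * l i))

/-- the symmetric part (traffic) on the edge `(x, i)` -/
noncomputable def tp (n : ℕ) (x0 x : V d) (i : Fin d) : ℝ :=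
  Fp lam l ω n x0 x * Real.exp (lam * l i)
    + Fp lam l ω n x0 (x + st (i, true)) * Real.exp (-(lam * l i))

/-- the expected displacement in direction `l` -/
noncomputable def DD (n : ℕ) (x0 : V d) : ℝ := Pn lam l ω n (dot l) x0 - dot l x0

theorem eps_pos (d n : ℕ) : 0 < eps d n := by
  unfold eps
  positivity

theorem Fp_pos (n : ℕ) (x0 x : V d) : 0 < Fp lam l ω n x0 x := by
  unfold Fp
  have h1 := Fo_nonneg lam l ω n x0 x
  have h2 := eps_pos d n
  linarith

theorem tp_pos (n : ℕ) (x0 x : V d) (i : Fin d) : 0 < tp lam l ω n x0 x i := by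
  unfold tp
  have h1 := Fp_pos lam l ω n x0 x
  have h2 := Fp_pos lam l ω n x0 (x + st (i, true))
  positivity

/-- there are few edges compared with `1/eps` -/
theorem region_eps (d : ℕ) (n : ℕ) : (d : ℝ) * (2 * (2 * n + 1 : ℕ) + 1) ^ d * eps d n ≤ d * 4 ^ d := by
  unfold eps
  have h0 : (0 : ℝ) < (n : ℝ) + 2 := by positivity
  have h1 : (2 * ((2 * n + 1 : ℕ) : ℝ) + 1) ≤ 4 * ((n : ℝ) + 2) ^ 2 := by
    push_cast
    have hn : (0 : ℝ) ≤ n := Nat.cast_nonneg n
    nlinarith
  have h2 : (2 * ((2 * n + 1 : ℕ) : ℝ) + 1) ^ d ≤ 4 ^ d * ((n : ℝ) + 2) ^ (2 * d) := by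
    calc (2 * ((2 * n + 1 : ℕ) : ℝ) + 1) ^ d ≤ (4 * ((n : ℝ) + 2) ^ 2) ^ d :=
          pow_le_pow_left₀ (by positivity) h1 d
      _ = 4 ^ d * ((n : ℝ) + 2) ^ (2 * d) := by rw [mul_pow, ← pow_mul]
  rw [mul_assoc, mul_one_div]
  refine mul_le_mul_of_nonneg_left ?_ (Nat.cast_nonneg d)
  rw [div_le_iff₀ (by positivity)]
  exact h2

theorem energy_Occ_le (n : ℕ) (x0 x : V d) : Occ lam l ω n x0 x ≤ n := by
  unfold Occ
  calc ∑ k ∈ Finset.range n, Pn lam l ω k (Set.indicator {x} (fun _ => (1 : ℝ))) x0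
      ≤ ∑ k ∈ Finset.range n, (1 : ℝ) := by
        refine Finset.sum_le_sum fun k _ => ?_
        have h := Pn_mono lam l ω k (g := Set.indicator {x} (fun _ => (1 : ℝ)))
          (h := fun _ => (1 : ℝ)) (fun y => Set.indicator_le_self' (by intros; norm_num) y) x0
        rw [Pn_const] at h
        exact h
    _ = n := by simp

theorem energy_log3 {n : ℕ} (hn : 1 ≤ n) : 1 ≤ Real.log ((n : ℝ) + 2) := by
  have h1 : (3 : ℝ) ≤ (n : ℝ) + 2 := by
    have : (1 : ℝ) ≤ n := by exact_mod_cast hn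
    linarith
  have h2 : Real.exp 1 ≤ 3 := by
    have := Real.exp_one_lt_d9
    linarith
  rw [Real.le_log_iff_exp_le (by positivity)]
  linarith

theorem energy_absl {l : Fin d → ℝ} (hl : ∑ i, l i ^ 2 = 1) (i : Fin d) : |l i| ≤ 1 := by
  have h := abs_dt_le l hl (i, true)
  simpa [dt] using h

theorem energy_abs_logF {lam : ℝ} {l : Fin d → ℝ} (hl0 : 0 ≤ lam) (hl1 : lam ≤ 1)
    (hl : ∑ i, l i ^ 2 = 1) (ω : Om d) {n : ℕ} (hn : 1 ≤ n) (x0 x : V d) :
    |Real.log (Fp lam l ω n x0 x)| ≤ (2 * d + 2) * Real.log ((n : ℝ) + 2) := by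
  have hL := energy_log3 hn
  have hn1 : (1 : ℝ) ≤ n := by exact_mod_cast hn
  have h0 : (0 : ℝ) < (n : ℝ) + 2 := by positivity
  have hFpos := Fp_pos lam l ω n x0 x
  have hF0 := Fo_nonneg lam l ω n x0 x
  have he0 := eps_pos d n
  have he1 : eps d n ≤ 1 := by
    unfold eps
    rw [div_le_one (by positivity)]
    exact one_le_pow₀ (by linarith)
  rw [abs_le]
  constructor
  · have h1 : Real.log (eps d n) ≤ Real.log (Fp lam l ω n x0 x) := by
      refine Real.log_le_log he0 ?_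
      unfold Fp
      linarith
    have h2 : Real.log (eps d n) = -(2 * d * Real.log ((n : ℝ) + 2)) := by
      unfold eps
      rw [one_div, Real.log_inv, Real.log_pow]
      push_cast
      ring
    rw [h2] at h1
    nlinarith
  · have hexp : Real.exp |lam| ≤ 3 := by
      rw [abs_of_nonneg hl0]
      have := Real.exp_one_lt_d9
      have h3 := Real.exp_le_exp.2 hl1
      linarith
    have h1 : Fo lam l ω n x0 x ≤ 3 * n := by
      refine (Fo_le lam l ω hl n x0 x).trans ?_
      have h4 := Occ_nonneg lam l ω n x0 x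
      have h5 := energy_Occ_le lam l ω n x0 x
      exact mul_le_mul hexp h5 h4 (by norm_num)
    have h2 : Fp lam l ω n x0 x ≤ 3 * ((n : ℝ) + 2) := by
      unfold Fp
      linarith
    have h3 : Real.log (Fp lam l ω n x0 x) ≤ Real.log 3 + Real.log ((n : ℝ) + 2) := by
      rw [← Real.log_mul (by norm_num) h0.ne']
      exact Real.log_le_log hFpos h2
    have h4 : Real.log 3 ≤ Real.log ((n : ℝ) + 2) :=
      Real.log_le_log (by norm_num) (by linarith)
    have h5 : (0 : ℝ) ≤ 2 * d * Real.log ((n : ℝ) + 2) := by positivity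
    nlinarith

theorem energy_log (d : ℕ) : ∃ C : ℝ, 0 < C ∧ ∀ (lam : ℝ) (l : Fin d → ℝ) (ω : Om d) (n : ℕ)
    (x0 : V d), 0 ≤ lam → lam ≤ 1 → ∑ i, l i ^ 2 = 1 → 1 ≤ n →
    esum ω (2 * n + 1) x0 (fun x i => jp lam l ω n x0 x i *
        (Real.log (Fp lam l ω n x0 x * Real.exp (lam * l i))
          - Real.log (Fp lam l ω n x0 (x + st (i, true)) * Real.exp (-(lam * l i)))))
      ≤ 2 * lam * DD lam l ω n x0 + C * Real.log (n + 2) := by
  refine ⟨2 * (2 * d + 2) + 3 * (d * 4 ^ d) * (4 * d + 6), by positivity, ?_⟩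
  intro lam l ω n x0 h0 h1 hl hn
  have hL := energy_log3 hn
  set L := Real.log ((n : ℝ) + 2) with hLdef
  set g : V d → ℝ := fun x => Real.log (Fp lam l ω n x0 x) with hg
  have hgb : ∀ x, |g x| ≤ (2 * d + 2) * L := fun x => energy_abs_logF h0 h1 hl ω hn x0 x
  set J : V d → Fin d → ℝ := fun x i => Fo lam l ω n x0 x * Real.exp (lam * l i)
          - Fo lam l ω n x0 (x + st (i, true)) * Real.exp (-(lam * l i)) with hJ
  set E : V d → Fin d → ℝ := fun x i => eps d n * (Real.exp (lam * l i) - Real.exp (-(lam * l i)))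
      * (g x - g (x + st (i, true)) + 2 * (lam * l i)) with hE
  have hdec : ∀ x i, jp lam l ω n x0 x i *
        (Real.log (Fp lam l ω n x0 x * Real.exp (lam * l i))
          - Real.log (Fp lam l ω n x0 (x + st (i, true)) * Real.exp (-(lam * l i))))
      = (J x i * (g x - g (x + st (i, true))) + 2 * lam * (J x i * l i)) + E x i := by
    intro x i
    rw [Real.log_mul (Fp_pos lam l ω n x0 x).ne' (Real.exp_ne_zero _),
      Real.log_mul (Fp_pos lam l ω n x0 _).ne' (Real.exp_ne_zero _), Real.log_exp, Real.log_exp]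
    simp only [hJ, hE, hg, jp, Fp]
    ring
  have hsum : esum ω (2 * n + 1) x0 (fun x i => jp lam l ω n x0 x i *
        (Real.log (Fp lam l ω n x0 x * Real.exp (lam * l i))
          - Real.log (Fp lam l ω n x0 (x + st (i, true)) * Real.exp (-(lam * l i)))))
      = esum ω (2 * n + 1) x0 (fun x i => J x i * (g x - g (x + st (i, true))))
        + 2 * lam * esum ω (2 * n + 1) x0 (fun x i => J x i * l i)
        + esum ω (2 * n + 1) x0 E := by
    rw [← esum_const_mul, ← esum_add, ← esum_add]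
    congr 1
    funext x i
    exact hdec x i
  rw [hsum]
  have hf1 : esum ω (2 * n + 1) x0 (fun x i => J x i * (g x - g (x + st (i, true))))
      = g x0 - Pn lam l ω n g x0 := flux lam l ω n (2 * n + 1) (by omega) x0 g
  have hf2 : esum ω (2 * n + 1) x0 (fun x i => J x i * l i) = DD lam l ω n x0 := by
    have h := flux lam l ω n (2 * n + 1) (by omega) x0 ((-1 : ℝ) • dot l)
    rw [Pn_smul] at h
    have e : (fun (x : V d) (i : Fin d) => J x i * l i) = fun x i =>
        (Fo lam l ω n x0 x * Real.exp (lam * l i)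
          - Fo lam l ω n x0 (x + st (i, true)) * Real.exp (-(lam * l i)))
        * (((-1 : ℝ) • dot l) x - ((-1 : ℝ) • dot l) (x + st (i, true))) := by
      funext x i
      have e1 : ((-1 : ℝ) • dot l) x - ((-1 : ℝ) • dot l) (x + st (i, true)) = l i := by
        simp only [Pi.smul_apply, smul_eq_mul, dot_add, dot_st]
        simp [dt]
      rw [e1]
    rw [e, h]
    simp only [Pi.smul_apply, smul_eq_mul, DD]
    ring
  have hb1 : g x0 - Pn lam l ω n g x0 ≤ 2 * (2 * d + 2) * L := by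
    have h2 := Pn_abs_le_of_box lam l ω n g x0 ((2 * d + 2) * L) (fun y _ => hgb y)
    have h3 := (abs_le.1 h2).1
    have h4 := (abs_le.1 (hgb x0)).2
    linarith
  have hE1 : ∀ x i, |E x i| ≤ eps d n * (3 * ((4 * d + 6) * L)) := by
    intro x i
    have hli := energy_absl hl i
    have hs : |lam * l i| ≤ 1 := by
      rw [abs_mul, abs_of_nonneg h0]
      nlinarith [abs_nonneg (l i)]
    obtain ⟨hs1, hs2⟩ := abs_le.1 hs
    have he3 : Real.exp 1 ≤ 3 := by
      have := Real.exp_one_lt_d9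
      linarith
    have ha : Real.exp (lam * l i) ≤ 3 := (Real.exp_le_exp.2 hs2).trans he3
    have hb : Real.exp (-(lam * l i)) ≤ 3 := (Real.exp_le_exp.2 (by linarith)).trans he3
    have ha0 := Real.exp_pos (lam * l i)
    have hb0 := Real.exp_pos (-(lam * l i))
    have hab : |Real.exp (lam * l i) - Real.exp (-(lam * l i))| ≤ 3 := by
      rw [abs_le]
      constructor <;> linarith
    have hc : |g x - g (x + st (i, true)) + 2 * (lam * l i)| ≤ (4 * d + 6) * L := by
      have h5 := abs_le.1 (hgb x)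
      have h6 := abs_le.1 (hgb (x + st (i, true)))
      rw [abs_le]
      constructor <;> nlinarith [h5.1, h5.2, h6.1, h6.2]
    simp only [hE]
    rw [abs_mul, abs_mul, abs_of_pos (eps_pos d n), mul_assoc]
    refine mul_le_mul_of_nonneg_left ?_ (eps_pos d n).le
    exact mul_le_mul hab hc (abs_nonneg _) (by norm_num)
  have hL0 : 0 ≤ L := by linarith
  have hE2 : esum ω (2 * n + 1) x0 E ≤ 3 * (d * 4 ^ d) * (4 * d + 6) * L := by
    calc esum ω (2 * n + 1) x0 E ≤ |esum ω (2 * n + 1) x0 E| := le_abs_self _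
      _ ≤ esum ω (2 * n + 1) x0 (fun x i => |E x i|) := abs_esum_le _ _ _ _
      _ ≤ esum ω (2 * n + 1) x0 (fun _ _ => eps d n * (3 * ((4 * d + 6) * L))) :=
          esum_mono _ _ _ fun x i _ => hE1 x i
      _ ≤ d * (2 * (2 * n + 1 : ℕ) + 1) ^ d * (eps d n * (3 * ((4 * d + 6) * L))) :=
          esum_const_le _ _ _ _ (by have := (eps_pos d n).le; positivity)
      _ = (d * (2 * (2 * n + 1 : ℕ) + 1) ^ d * eps d n) * (3 * ((4 * d + 6) * L)) := by ring
      _ ≤ (d * 4 ^ d) * (3 * ((4 * d + 6) * L)) :=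
          mul_le_mul_of_nonneg_right (region_eps d n) (by positivity)
      _ = 3 * (d * 4 ^ d) * (4 * d + 6) * L := by ring
  rw [hf1, hf2]
  have hfin : (2 * (2 * (d : ℝ) + 2) + 3 * (d * 4 ^ d) * (4 * d + 6)) * L
      = 2 * (2 * d + 2) * L + 3 * (d * 4 ^ d) * (4 * d + 6) * L := by ring
  rw [hfin]
  linarith

theorem energy_D (d : ℕ) : ∃ C : ℝ, 0 < C ∧ ∀ (lam : ℝ) (l : Fin d → ℝ) (ω : Om d) (n : ℕ)
    (x0 : V d), 0 ≤ lam → lam ≤ 1 → ∑ i, l i ^ 2 = 1 → 1 ≤ n →
    esum ω (2 * n + 1) x0 (fun x i => jp lam l ω n x0 x i ^ 2 / tp lam l ω n x0 x i)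
      ≤ lam * DD lam l ω n x0 + C * Real.log (n + 2) := by
  obtain ⟨C, hC, H⟩ := energy_log d
  refine ⟨C / 2, by positivity, ?_⟩
  intro lam l ω n x0 h0 h1 hl hn
  have h := H lam l ω n x0 h0 h1 hl hn
  have h2 : esum ω (2 * n + 1) x0 (fun x i => 2 * (jp lam l ω n x0 x i ^ 2 / tp lam l ω n x0 x i))
      ≤ esum ω (2 * n + 1) x0 (fun x i => jp lam l ω n x0 x i *
        (Real.log (Fp lam l ω n x0 x * Real.exp (lam * l i))
          - Real.log (Fp lam l ω n x0 (x + st (i, true)) * Real.exp (-(lam * l i))))) := by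
    refine esum_mono _ _ _ fun x i _ => ?_
    have h3 := log_ineq (Fp lam l ω n x0 x * Real.exp (lam * l i))
      (Fp lam l ω n x0 (x + st (i, true)) * Real.exp (-(lam * l i)))
      (mul_pos (Fp_pos lam l ω n x0 x) (Real.exp_pos _))
      (mul_pos (Fp_pos lam l ω n x0 _) (Real.exp_pos _))
    rw [← mul_div_assoc]
    exact h3
  rw [esum_const_mul] at h2
  linarith

end Ein99
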