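import Pool.Agent.LibEin99.A_U

/-!
TASK A_H. The square root of the occupation density varies little.

With `u = F'(x) e^s`, `w = F'(y) e^{-s}` (`s = lam * l i`, `|s| ≤ lam ≤ 1`):
`√F'(x) - √F'(y) = √u e^{-s/2} - √w e^{s/2} = (√u - √w) e^{-s/2} - √w (e^{s/2} - e^{-s/2})`, hence
`(√F'(x) - √F'(y))² ≤ 2 e (√u - √w)² + 8 lam² w`. Sum: `∑ 4(√u - √w)² ≤ energy_log` by
`log_ineq_sqrt`, `∑ w ≤ ∑ tp ≤ ∑_x Fo x ∑_δ wt + C ≤ n + C` (as in `A_U`, with the square replaced
by `1`: `∑ t = ∑_x Fo x Zw x = ∑ Occ = n`). Then insert `DD_le`.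
-/

open MeasureTheory ProbabilityTheory Filter Topology

namespace Ein99

/-- Occupation sums of edge functions as sums over undirected edges. -/
theorem aH_occ_edge {d : ℕ} (lam : ℝ) (l : Fin d → ℝ) (ω : Om d) (n : ℕ) (x0 : V d)
    (f : V d → Dir d → ℝ) (hf : ∀ x δ, ¬ opn ω x δ → f x δ = 0) :
    ∑ k ∈ Finset.range n, Pn lam l ω k
        (fun x => (∑ δ, f x δ * Real.exp (lam * dt l δ)) / Zw lam l ω x) x0
      = esum ω (2 * n + 1) x0 (fun x i =>
        Fo lam l ω n x0 x * Real.exp (lam * l i) * f x (i, true)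
          + Fo lam l ω n x0 (x + st (i, true)) * Real.exp (-(lam * l i))
            * f (x + st (i, true)) (i, false)) := by
  rw [← sum_Occ_mul]
  have h := edge_sum ω n (2 * n + 1) (by omega) x0
    (fun x δ => Fo lam l ω n x0 x * Real.exp (lam * dt l δ) * f x δ) (by
      intro x hx δ
      have : Fo lam l ω n x0 x = 0 := by
        unfold Fo
        rw [Occ_eq_zero lam l ω n x0 x hx, zero_div]
      rw [this]; ring)
  have e1 : ∑ x ∈ Bx n x0, Occ lam l ω n x0 x *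
        ((∑ δ, f x δ * Real.exp (lam * dt l δ)) / Zw lam l ω x)
      = ∑ x ∈ Bx n x0, ∑ δ, (if opn ω x δ then
          Fo lam l ω n x0 x * Real.exp (lam * dt l δ) * f x δ else 0) := by
    refine Finset.sum_congr rfl fun x _ => ?_
    rw [mul_div_left_comm, ← Fo, Finset.sum_mul]
    refine Finset.sum_congr rfl fun δ _ => ?_
    by_cases ho : opn ω x δ
    · rw [if_pos ho]; ring
    · rw [if_neg ho, hf x δ ho]; ring
  rw [e1, h]
  congr 1
  funext x i
  have d1 : dt l (i, true) = l i := by simp [dt]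
  have d2 : dt l (i, false) = - l i := by simp [dt]
  rw [d1, d2, mul_neg]

theorem aH_abs_le {d : ℕ} (lam : ℝ) (l : Fin d → ℝ) (h0 : 0 ≤ lam)
    (hl : ∑ i, l i ^ 2 = 1) (i : Fin d) : |lam * l i| ≤ lam := by
  have hli : |l i| ≤ 1 := by
    have := abs_dt_le l hl (i, true)
    simpa [dt] using this
  rw [abs_mul, abs_of_nonneg h0]
  nlinarith [abs_nonneg (l i)]

theorem aH_exp_le {s : ℝ} (hs : |s| ≤ 1) : Real.exp s ≤ 3 := by
  have h3 : Real.exp 1 ≤ 3 := by linarith [Real.exp_one_lt_d9]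
  exact (Real.exp_le_exp.mpr ((le_abs_self s).trans hs)).trans h3

theorem sum_tp_le (d : ℕ) : ∃ C : ℝ, 0 < C ∧ ∀ (lam : ℝ) (l : Fin d → ℝ) (ω : Om d) (n : ℕ)
    (x0 : V d), 0 ≤ lam → lam ≤ 1 → ∑ i, l i ^ 2 = 1 → 1 ≤ n →
    esum ω (2 * n + 1) x0 (fun x i => tp lam l ω n x0 x i) ≤ n + C := by
  refine ⟨6 * (d * 4 ^ d) + 1, by positivity, ?_⟩
  intro lam l ω n x0 h0 h1 hl hn
  have heps := eps_pos d n
  have hreg := region_eps d n
  have hexp : ∀ i, Real.exp (lam * l i) ≤ 3 ∧ Real.exp (-(lam * l i)) ≤ 3 := by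
    intro i
    have h := (aH_abs_le lam l h0 hl i).trans h1
    exact ⟨aH_exp_le h, aH_exp_le (by rwa [abs_neg])⟩
  set f : V d → Dir d → ℝ := fun x δ => if opn ω x δ then 1 else 0 with hf
  have hocc := aH_occ_edge lam l ω n x0 f (by
    intro x δ ho
    simp [hf, ho])
  have hle1 : ∑ k ∈ Finset.range n, Pn lam l ω k
        (fun x => (∑ δ, f x δ * Real.exp (lam * dt l δ)) / Zw lam l ω x) x0 ≤ n := by
    have hx : ∀ x, (∑ δ, f x δ * Real.exp (lam * dt l δ)) / Zw lam l ω x ≤ 1 := by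
      intro x
      have e : ∑ δ, f x δ * Real.exp (lam * dt l δ) = Zw lam l ω x := by
        unfold Zw
        refine Finset.sum_congr rfl fun δ _ => ?_
        simp only [hf, wt]
        split_ifs <;> simp
      rw [e]
      exact div_self_le_one _
    have hsum : ∑ k ∈ Finset.range n, Pn lam l ω k
        (fun x => (∑ δ, f x δ * Real.exp (lam * dt l δ)) / Zw lam l ω x) x0
        ≤ ∑ k ∈ Finset.range n, (1 : ℝ) := by
      refine Finset.sum_le_sum fun k _ => ?_
      have := Pn_mono lam l ω k hx x0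
      rwa [Pn_const] at this
    simpa using hsum
  have hsplit : esum ω (2 * n + 1) x0 (fun x i => tp lam l ω n x0 x i)
      ≤ esum ω (2 * n + 1) x0 (fun x i =>
        Fo lam l ω n x0 x * Real.exp (lam * l i) * f x (i, true)
          + Fo lam l ω n x0 (x + st (i, true)) * Real.exp (-(lam * l i))
            * f (x + st (i, true)) (i, false))
        + esum ω (2 * n + 1) x0 (fun _ _ => 6 * eps d n) := by
    rw [← esum_add]
    apply esum_mono
    intro x i ho
    have f1 : f x (i, true) = 1 := by simp [hf, ho]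
    have f2 : f (x + st (i, true)) (i, false) = 1 := by
      have h := (opn_rv ω x (i, true)).mpr ho
      simp only [rv, Bool.not_true] at h
      simp [hf, h]
    rw [f1, f2]
    unfold tp Fp
    have := hexp i
    nlinarith
  have hc := esum_const_le ω (2 * n + 1) x0 (6 * eps d n) (by positivity)
  have hc2 : (d : ℝ) * (2 * (2 * n + 1 : ℕ) + 1) ^ d * (6 * eps d n) ≤ 6 * (d * 4 ^ d) := by
    nlinarith
  rw [← hocc] at hsplit
  linarith

/-- The elementary inequality for one edge. -/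
theorem aH_edge (a b s lam : ℝ) (ha : 0 < a) (hb : 0 < b) (hs : |s| ≤ lam) (h1 : lam ≤ 1) :
    (Real.sqrt a - Real.sqrt b) ^ 2
      ≤ 3 / 2 * ((a * Real.exp s - b * Real.exp (-s)) *
          (Real.log (a * Real.exp s) - Real.log (b * Real.exp (-s))))
        + 8 * lam ^ 2 * (b * Real.exp (-s)) := by
  set u := a * Real.exp s with hu
  set w := b * Real.exp (-s) with hw
  have hu0 : 0 < u := by positivity
  have hw0 : 0 < w := by positivity
  have hlog := log_ineq_sqrt u w hu0 hw0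
  have hs1 : |s| ≤ 1 := hs.trans h1
  have ea : a = u * Real.exp (-s) := by
    rw [hu, mul_assoc, ← Real.exp_add]; simp
  have eb : b = w * Real.exp s := by
    rw [hw, mul_assoc, ← Real.exp_add]; simp
  have sa : Real.sqrt a = Real.sqrt u * Real.exp (-s / 2) := by
    rw [ea, Real.sqrt_mul hu0.le]
    congr 1
    rw [Real.sqrt_eq_iff_mul_self_eq (Real.exp_pos _).le (Real.exp_pos _).le, ← Real.exp_add]
    congr 1; ring
  have sb : Real.sqrt b = Real.sqrt w * Real.exp (s / 2) := by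
    rw [eb, Real.sqrt_mul hw0.le]
    congr 1
    rw [Real.sqrt_eq_iff_mul_self_eq (Real.exp_pos _).le (Real.exp_pos _).le, ← Real.exp_add]
    congr 1; ring
  have hE : Real.exp (-s / 2) ^ 2 ≤ 3 := by
    rw [← Real.exp_nat_mul]
    have : ((2 : ℕ) : ℝ) * (-s / 2) = -s := by push_cast; ring
    rw [this]
    exact aH_exp_le (by rwa [abs_neg])
  have hsh : (Real.exp (s / 2) - Real.exp (-s / 2)) ^ 2 ≤ 4 * lam ^ 2 := by
    have h2 : |Real.exp (s / 2) - Real.exp (-s / 2)| ≤ 2 * |s| := by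
      have b1 := Real.abs_exp_sub_one_le (x := s / 2) (by
        rw [abs_div, abs_two]; linarith)
      have b2 := Real.abs_exp_sub_one_le (x := -s / 2) (by
        rw [abs_div, abs_two, abs_neg]; linarith)
      rw [abs_div, abs_two] at b1 b2
      rw [abs_neg] at b2
      calc |Real.exp (s / 2) - Real.exp (-s / 2)|
          = |(Real.exp (s / 2) - 1) - (Real.exp (-s / 2) - 1)| := by congr 1; ring
        _ ≤ |Real.exp (s / 2) - 1| + |Real.exp (-s / 2) - 1| := abs_sub _ _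
        _ ≤ 2 * |s| := by linarith
    have h3 : |Real.exp (s / 2) - Real.exp (-s / 2)| ≤ 2 * lam := h2.trans (by linarith)
    calc (Real.exp (s / 2) - Real.exp (-s / 2)) ^ 2
        = |Real.exp (s / 2) - Real.exp (-s / 2)| ^ 2 := (sq_abs _).symm
      _ ≤ (2 * lam) ^ 2 := pow_le_pow_left₀ (abs_nonneg _) h3 2
      _ = 4 * lam ^ 2 := by ring
  rw [sa, sb]
  have hsw : Real.sqrt w ^ 2 = w := Real.sq_sqrt hw0.le
  have key : (Real.sqrt u * Real.exp (-s / 2) - Real.sqrt w * Real.exp (s / 2)) ^ 2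
      ≤ 2 * ((Real.sqrt u - Real.sqrt w) ^ 2 * Real.exp (-s / 2) ^ 2)
        + 2 * (Real.sqrt w ^ 2 * (Real.exp (s / 2) - Real.exp (-s / 2)) ^ 2) := by
    nlinarith [sq_nonneg ((Real.sqrt u - Real.sqrt w) * Real.exp (-s / 2)
      + Real.sqrt w * (Real.exp (s / 2) - Real.exp (-s / 2)))]
  have k1 : (Real.sqrt u - Real.sqrt w) ^ 2 * Real.exp (-s / 2) ^ 2
      ≤ (Real.sqrt u - Real.sqrt w) ^ 2 * 3 := mul_le_mul_of_nonneg_left hE (sq_nonneg _)
  have k2 : Real.sqrt w ^ 2 * (Real.exp (s / 2) - Real.exp (-s / 2)) ^ 2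
      ≤ w * (4 * lam ^ 2) := by
    rw [hsw]
    exact mul_le_mul_of_nonneg_left hsh hw0.le
  linarith

theorem energy_H (d : ℕ) : ∃ C : ℝ, 0 < C ∧ ∀ (lam : ℝ) (l : Fin d → ℝ) (ω : Om d) (n : ℕ)
    (x0 : V d), 0 ≤ lam → lam ≤ 1 → ∑ i, l i ^ 2 = 1 → 1 ≤ n →
    esum ω (2 * n + 1) x0 (fun x i => (Real.sqrt (Fp lam l ω n x0 x)
        - Real.sqrt (Fp lam l ω n x0 (x + st (i, true)))) ^ 2)
      ≤ C * (lam ^ 2 * n + lam * Real.sqrt (n * Real.log (n + 2)) + Real.log (n + 2)) := by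
  obtain ⟨C1, hC1, hE⟩ := energy_log d
  obtain ⟨C2, hC2, hT⟩ := sum_tp_le d
  obtain ⟨C3, hC3, hDD⟩ := DD_le d
  refine ⟨11 + 3 * C3 + 3 / 2 * C1 + 8 * C2, by positivity, ?_⟩
  intro lam l ω n x0 h0 h1 hl hn
  have hE' := hE lam l ω n x0 h0 h1 hl hn
  have hT' := hT lam l ω n x0 h0 h1 hl hn
  have hD' := (hDD lam l ω n x0 h0 h1 hl hn).1
  have hmain : esum ω (2 * n + 1) x0 (fun x i => (Real.sqrt (Fp lam l ω n x0 x)
        - Real.sqrt (Fp lam l ω n x0 (x + st (i, true)))) ^ 2)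
      ≤ 3 / 2 * esum ω (2 * n + 1) x0 (fun x i => jp lam l ω n x0 x i *
        (Real.log (Fp lam l ω n x0 x * Real.exp (lam * l i))
          - Real.log (Fp lam l ω n x0 (x + st (i, true)) * Real.exp (-(lam * l i)))))
        + 8 * lam ^ 2 * esum ω (2 * n + 1) x0 (fun x i => tp lam l ω n x0 x i) := by
    rw [← esum_const_mul, ← esum_const_mul, ← esum_add]
    apply esum_mono
    intro x i _
    have h := aH_edge (Fp lam l ω n x0 x) (Fp lam l ω n x0 (x + st (i, true))) (lam * l i) lam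
      (Fp_pos _ _ _ _ _ _) (Fp_pos _ _ _ _ _ _) (aH_abs_le lam l h0 hl i) h1
    refine h.trans ?_
    have hp : 0 ≤ Fp lam l ω n x0 x * Real.exp (lam * l i) :=
      mul_nonneg (Fp_pos _ _ _ _ _ _).le (Real.exp_pos _).le
    have h8 : 0 ≤ 8 * lam ^ 2 := by positivity
    have : 8 * lam ^ 2 * (Fp lam l ω n x0 (x + st (i, true)) * Real.exp (-(lam * l i)))
        ≤ 8 * lam ^ 2 * tp lam l ω n x0 x i := by
      apply mul_le_mul_of_nonneg_left _ h8
      unfold tp
      linarith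
    unfold jp at *
    linarith
  refine hmain.trans ?_
  set L := Real.log ((n : ℝ) + 2) with hL
  have hL1 : 1 ≤ L := by
    rw [hL, Real.le_log_iff_exp_le (by positivity)]
    have : (1 : ℝ) ≤ n := by exact_mod_cast hn
    linarith [Real.exp_one_lt_d9]
  set S := Real.sqrt (n * L) with hS
  have hS0 : 0 ≤ S := Real.sqrt_nonneg _
  have hn0 : (0 : ℝ) ≤ n := Nat.cast_nonneg n
  have hA : 3 / 2 * (2 * lam * DD lam l ω n x0 + C1 * L)
      ≤ 3 * (lam ^ 2 * n) + 3 * C3 * (lam * S) + 3 / 2 * C1 * L := by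
    have := mul_le_mul_of_nonneg_left hD' h0
    nlinarith
  have hB : 8 * lam ^ 2 * esum ω (2 * n + 1) x0 (fun x i => tp lam l ω n x0 x i)
      ≤ 8 * (lam ^ 2 * n) + 8 * C2 * L := by
    have h8 : 0 ≤ 8 * lam ^ 2 := by positivity
    have a1 := mul_le_mul_of_nonneg_left hT' h8
    have a2 : lam ^ 2 ≤ 1 := by nlinarith
    have a3 : lam ^ 2 * C2 ≤ C2 * L := by nlinarith
    nlinarith
  have hx1 : 0 ≤ lam ^ 2 * (n : ℝ) := by positivity
  have hx2 : 0 ≤ lam * S := by positivity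
  have hx3 : 0 ≤ L := by linarith
  have q1 : 0 ≤ (3 * C3 + 3 / 2 * C1 + 8 * C2) * (lam ^ 2 * (n : ℝ)) := by positivity
  have q2 : 0 ≤ (11 + 3 / 2 * C1 + 8 * C2) * (lam * S) := by positivity
  have q3 : 0 ≤ (11 + 3 * C3) * L := by positivity
  have hE2 := mul_le_mul_of_nonneg_left hE' (by norm_num : (0 : ℝ) ≤ 3 / 2)
  nlinarith

end Ein99
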