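import Pool.Agent.LibEin99.A_Energy

/-!
TASK A_L. Test flows (lower bounds for the speed).

Let `i` be antisymmetric, zero on closed edges, `|i| ≤ K`. By `edge_sum` with
`f x δ = Fo x * exp(lam dt δ) * i x δ`:
`∑_x Fo x ∑_δ i x δ exp(lam dt δ) = ∑_edges (Fo x e^s - Fo y e^{-s}) i x (i,true) = ∑ j i`
(using antisymmetry), `j = jp - 2 eps sinh s`, and `|∑ 2 eps sinh s · i| ≤ C K` (`region_eps`).
`(∑ jp i)² ≤ (∑ jp²/tp)(∑ tp i²)` (`esum_cs`), `energy_D`, and
`∑ tp i² = ∑_x Fo x ∑_δ (i x δ)² exp(lam dt δ) + eps part (≤ C K²)`.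
Finally `∑_x Fo x h x = ∑_x Occ x (h x / Zw x) = ∑_{k<n} Pn k (h/Zw) x0` (`sum_Occ_mul`).
-/

open MeasureTheory ProbabilityTheory Filter Topology

namespace Ein99

/-- Occupation sums of edge functions as sums over undirected edges. -/
theorem aL_occ_edge {d : ℕ} (lam : ℝ) (l : Fin d → ℝ) (ω : Om d) (n : ℕ) (x0 : V d)
    (f : V d → Dir d → ℝ) (hf : ∀ x δ, ¬ opn ω x δ → f x δ = 0) :
    ∑ k ∈ Finset.range n, Pn lam l ω k
        (fun x => (∑ δ, f x δ * Real.exp (lam * dt l δ)) / Zw lam l ω x) x0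
      = esum ω (2 * n + 1) x0 (fun x i =>
        Fo lam l ω n x0 x * Real.exp (lam * l i) * f x (i, true)
          + Fo lam l ω n x0 (x + st (i, true)) * Real.exp (-(lam * l i))
            * f (x + st (i, true)) (i, false)) := by
  rw [← sum_Occ_mul]
  have h := edge_sum ω n (2 * n + 1) (by omega) x0
    (fun x δ => Fo lam l ω n x0 x * Real.exp (lam * dt l δ) * f x δ) (by
      intro x hx δ
      have : Fo lam l ω n x0 x = 0 := by
        unfold Fo
        rw [Occ_eq_zero lam l ω n x0 x hx, zero_div]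
      rw [this]; ring)
  have e1 : ∑ x ∈ Bx n x0, Occ lam l ω n x0 x *
        ((∑ δ, f x δ * Real.exp (lam * dt l δ)) / Zw lam l ω x)
      = ∑ x ∈ Bx n x0, ∑ δ, (if opn ω x δ then
          Fo lam l ω n x0 x * Real.exp (lam * dt l δ) * f x δ else 0) := by
    refine Finset.sum_congr rfl fun x _ => ?_
    rw [mul_div_left_comm, ← Fo, Finset.sum_mul]
    refine Finset.sum_congr rfl fun δ _ => ?_
    by_cases ho : opn ω x δ
    · rw [if_pos ho]; ring
    · rw [if_neg ho, hf x δ ho]; ring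
  rw [e1, h]
  congr 1
  funext x i
  have d1 : dt l (i, true) = l i := by simp [dt]
  have d2 : dt l (i, false) = - l i := by simp [dt]
  rw [d1, d2, mul_neg]

theorem test_flow (d : ℕ) : ∃ C : ℝ, 0 < C ∧ ∀ (lam : ℝ) (l : Fin d → ℝ) (ω : Om d) (n : ℕ)
    (x0 : V d), 0 ≤ lam → lam ≤ 1 → ∑ i, l i ^ 2 = 1 → 1 ≤ n →
    ∀ (I : V d → Dir d → ℝ) (K : ℝ), 0 ≤ K → (∀ x δ, |I x δ| ≤ K) →
    (∀ x δ, I (x + st δ) (rv δ) = - I x δ) → (∀ x δ, ¬ opn ω x δ → I x δ = 0) →
    |∑ k ∈ Finset.range n, Pn lam l ω k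
        (fun x => (∑ δ, I x δ * Real.exp (lam * dt l δ)) / Zw lam l ω x) x0|
      ≤ C * K + Real.sqrt
      ((lam * DD lam l ω n x0 + C * Real.log (n + 2)) *
        (∑ k ∈ Finset.range n, Pn lam l ω k
          (fun x => (∑ δ, I x δ ^ 2 * Real.exp (lam * dt l δ)) / Zw lam l ω x) x0
          + C * K ^ 2)) := by
  obtain ⟨C1, hC1, hD⟩ := energy_D d
  have hd4 : (0 : ℝ) ≤ d * 4 ^ d := by positivity
  refine ⟨C1 + 6 * (d * 4 ^ d), by positivity, ?_⟩
  intro lam l ω n x0 h0 h1 hl hn I K hK hI hanti hsupp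
  have hD' := hD lam l ω n x0 h0 h1 hl hn
  set R := 2 * n + 1 with hR
  have heps := eps_pos d n
  have hreg := region_eps d n
  -- `|lam * l i| ≤ 1`
  have hs : ∀ i, |lam * l i| ≤ 1 := by
    intro i
    have hli : |l i| ≤ 1 := by
      have := abs_dt_le l hl (i, true)
      simpa [dt] using this
    rw [abs_mul, abs_of_nonneg h0]
    nlinarith [abs_nonneg (l i)]
  have hexp : ∀ i, Real.exp (lam * l i) ≤ 3 ∧ Real.exp (-(lam * l i)) ≤ 3 := by
    intro i
    have h3 : Real.exp 1 ≤ 3 := by linarith [Real.exp_one_lt_d9]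
    have := abs_le.mp (hs i)
    constructor
    · exact (Real.exp_le_exp.mpr this.2).trans h3
    · exact (Real.exp_le_exp.mpr (by linarith)).trans h3
  have hI2 : ∀ x i, I x (i, true) ^ 2 ≤ K ^ 2 := by
    intro x i
    rw [← sq_abs]
    exact pow_le_pow_left₀ (abs_nonneg _) (hI x (i, true)) 2
  have hrv : ∀ x i, I (x + st (i, true)) (i, false) = - I x (i, true) := by
    intro x i
    have := hanti x (i, true)
    simpa [rv] using this
  -- first sum
  have hS1 := aL_occ_edge lam l ω n x0 I hsupp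
  have hS2 := aL_occ_edge lam l ω n x0 (fun x δ => I x δ ^ 2) (by
    intro x δ ho
    simp [hsupp x δ ho])
  simp only [hrv] at hS1 hS2
  rw [← hR] at hS1 hS2
  have hA1 : esum ω R x0 (fun x i =>
        Fo lam l ω n x0 x * Real.exp (lam * l i) * I x (i, true)
          + Fo lam l ω n x0 (x + st (i, true)) * Real.exp (-(lam * l i)) * (- I x (i, true)))
      = esum ω R x0 (fun x i => jp lam l ω n x0 x i * I x (i, true))
        + esum ω R x0 (fun x i => (-1) * (eps d n * (Real.exp (lam * l i)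
          - Real.exp (-(lam * l i))) * I x (i, true))) := by
    rw [← esum_add]
    congr 1
    funext x i
    unfold jp Fp
    ring
  have hA2 : esum ω R x0 (fun x i => tp lam l ω n x0 x i * I x (i, true) ^ 2)
      = esum ω R x0 (fun x i =>
        Fo lam l ω n x0 x * Real.exp (lam * l i) * I x (i, true) ^ 2
          + Fo lam l ω n x0 (x + st (i, true)) * Real.exp (-(lam * l i)) * (- I x (i, true)) ^ 2)
        + esum ω R x0 (fun x i => (eps d n * (Real.exp (lam * l i)
          + Real.exp (-(lam * l i))) * I x (i, true) ^ 2)) := by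
    rw [← esum_add]
    congr 1
    funext x i
    unfold tp Fp
    ring
  have hB1 : |esum ω R x0 (fun x i => (-1) * (eps d n * (Real.exp (lam * l i)
          - Real.exp (-(lam * l i))) * I x (i, true)))| ≤ 6 * (d * 4 ^ d) * K := by
    refine (abs_esum_le _ _ _ _).trans ?_
    refine (esum_mono (g := fun _ _ => 6 * eps d n * K) ω R x0 ?_).trans ?_
    · intro x i _
      have e1 := (hexp i).1
      have e2 := (hexp i).2
      have e3 := Real.exp_pos (lam * l i)
      have e4 := Real.exp_pos (-(lam * l i))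
      rw [abs_mul, abs_mul, abs_mul, abs_neg, abs_one, one_mul, abs_of_pos heps]
      have h6 : |Real.exp (lam * l i) - Real.exp (-(lam * l i))| ≤ 6 := by
        rw [abs_le]; constructor <;> linarith
      calc eps d n * |Real.exp (lam * l i) - Real.exp (-(lam * l i))| * |I x (i, true)|
          ≤ eps d n * 6 * K := by
            apply mul_le_mul _ (hI _ _) (abs_nonneg _) (by positivity)
            exact mul_le_mul_of_nonneg_left h6 heps.le
        _ = 6 * eps d n * K := by ring
    · refine (esum_const_le ω R x0 _ (by positivity)).trans ?_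
      calc (d : ℝ) * (2 * R + 1) ^ d * (6 * eps d n * K)
          = ((d : ℝ) * (2 * (2 * n + 1 : ℕ) + 1) ^ d * eps d n) * (6 * K) := by
            rw [hR]; ring
        _ ≤ (d * 4 ^ d) * (6 * K) := mul_le_mul_of_nonneg_right hreg (by positivity)
        _ = 6 * (d * 4 ^ d) * K := by ring
  have hB2 : esum ω R x0 (fun x i => (eps d n * (Real.exp (lam * l i)
          + Real.exp (-(lam * l i))) * I x (i, true) ^ 2)) ≤ 6 * (d * 4 ^ d) * K ^ 2 := by
    refine (esum_mono (g := fun _ _ => 6 * eps d n * K ^ 2) ω R x0 ?_).trans ?_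
    · intro x i _
      have e1 := (hexp i).1
      have e2 := (hexp i).2
      calc eps d n * (Real.exp (lam * l i) + Real.exp (-(lam * l i))) * I x (i, true) ^ 2
          ≤ eps d n * 6 * K ^ 2 := by
            apply mul_le_mul _ (hI2 _ _) (sq_nonneg _) (by positivity)
            exact mul_le_mul_of_nonneg_left (by linarith) heps.le
        _ = 6 * eps d n * K ^ 2 := by ring
    · refine (esum_const_le ω R x0 _ (by positivity)).trans ?_
      calc (d : ℝ) * (2 * R + 1) ^ d * (6 * eps d n * K ^ 2)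
          = ((d : ℝ) * (2 * (2 * n + 1 : ℕ) + 1) ^ d * eps d n) * (6 * K ^ 2) := by
            rw [hR]; ring
        _ ≤ (d * 4 ^ d) * (6 * K ^ 2) := mul_le_mul_of_nonneg_right hreg (by positivity)
        _ = 6 * (d * 4 ^ d) * K ^ 2 := by ring
  have hcs := esum_cs ω R x0 (fun x i => jp lam l ω n x0 x i) (fun x i => I x (i, true))
    (fun x i => tp lam l ω n x0 x i) (fun x i => tp_pos lam l ω n x0 x i)
  have hlog : 0 ≤ Real.log ((n : ℝ) + 2) := Real.log_nonneg (by
    have : (0 : ℝ) ≤ n := Nat.cast_nonneg n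
    linarith)
  have hnn1 : 0 ≤ esum ω R x0 (fun x i => jp lam l ω n x0 x i ^ 2 / tp lam l ω n x0 x i) := by
    unfold esum
    refine Finset.sum_nonneg fun x _ => Finset.sum_nonneg fun i _ => ?_
    split_ifs
    · exact div_nonneg (sq_nonneg _) (tp_pos lam l ω n x0 x i).le
    · exact le_rfl
  have hnn2 : 0 ≤ esum ω R x0 (fun x i => tp lam l ω n x0 x i * I x (i, true) ^ 2) := by
    unfold esum
    refine Finset.sum_nonneg fun x _ => Finset.sum_nonneg fun i _ => ?_
    split_ifs
    · exact mul_nonneg (tp_pos lam l ω n x0 x i).le (sq_nonneg _)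
    · exact le_rfl
  have hX : esum ω R x0 (fun x i => jp lam l ω n x0 x i ^ 2 / tp lam l ω n x0 x i)
      ≤ lam * DD lam l ω n x0 + (C1 + 6 * (d * 4 ^ d)) * Real.log (n + 2) := by
    refine hD'.trans ?_
    have : 0 ≤ 6 * ((d : ℝ) * 4 ^ d) * Real.log (n + 2) := by positivity
    linarith
  have hY : esum ω R x0 (fun x i => tp lam l ω n x0 x i * I x (i, true) ^ 2)
      ≤ ∑ k ∈ Finset.range n, Pn lam l ω k
          (fun x => (∑ δ, I x δ ^ 2 * Real.exp (lam * dt l δ)) / Zw lam l ω x) x0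
          + (C1 + 6 * (d * 4 ^ d)) * K ^ 2 := by
    rw [hA2, hS2]
    have : 0 ≤ C1 * K ^ 2 := by positivity
    linarith
  have hsq : |esum ω R x0 (fun x i => jp lam l ω n x0 x i * I x (i, true))| ≤ Real.sqrt
      ((lam * DD lam l ω n x0 + (C1 + 6 * (d * 4 ^ d)) * Real.log (n + 2)) *
        (∑ k ∈ Finset.range n, Pn lam l ω k
          (fun x => (∑ δ, I x δ ^ 2 * Real.exp (lam * dt l δ)) / Zw lam l ω x) x0
          + (C1 + 6 * (d * 4 ^ d)) * K ^ 2)) := by
    apply Real.abs_le_sqrt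
    exact hcs.trans (mul_le_mul hX hY hnn2 (hnn1.trans hX))
  rw [hS1, hA1]
  refine (abs_add_le _ _).trans ?_
  have : 0 ≤ C1 * K := by positivity
  linarith

end Ein99
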