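import Pool.Agent.LibEin99.A_PnRange

/-!
TASK A_Occ. Expected numbers of visits and the summation by parts identity.

`Occ n x0 x = ∑_{k<n} P_{x0}(X_k = x)`.
`sum_Occ_mul` : `∑_x Occ x * g x = ∑_{k<n} E_{x0} g(X_k)` (from `Pn_eq_sum`, with `Bx k x0 ⊆ Bx n x0`
and `Pn k 1_y x0 = 0` for `y ∉ Bx k x0`).
`Occ_sbp`: apply it to `g - Pop g`; `Pn k (g - Pop g) = Pn k g - Pn (k+1) g` telescopes.
-/

open MeasureTheory ProbabilityTheory Filter Topology

namespace Ein99

variable {d : ℕ} (lam : ℝ) (l : Fin d → ℝ) (ω : Om d)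

/-- The expected number of visits to `x` before time `n`, starting from `x0`. -/
noncomputable def Occ (n : ℕ) (x0 x : V d) : ℝ :=
  ∑ k ∈ Finset.range n, Pn lam l ω k (Set.indicator {x} (fun _ => (1 : ℝ))) x0

/-- Visits divided by the normalisation of the jump probabilities. -/
noncomputable def Fo (n : ℕ) (x0 x : V d) : ℝ := Occ lam l ω n x0 x / Zw lam l ω x

theorem Occ_nonneg (n : ℕ) (x0 x : V d) : 0 ≤ Occ lam l ω n x0 x := by
  unfold Occ
  exact Finset.sum_nonneg fun k _ => Pn_nonneg lam l ω k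
    (fun y => Set.indicator_nonneg (fun _ _ => zero_le_one) y) x0

theorem Fo_nonneg (n : ℕ) (x0 x : V d) : 0 ≤ Fo lam l ω n x0 x := by
  unfold Fo
  exact div_nonneg (Occ_nonneg lam l ω n x0 x) (Zw_nonneg lam l ω x)

theorem A_Occ_zero (k : ℕ) {x0 x : V d} (hx : x ∉ Bx k x0) :
    Pn lam l ω k (Set.indicator {x} (fun _ => (1 : ℝ))) x0 = 0 := by
  have h1 : Pn lam l ω k (Set.indicator {x} (fun _ => (1 : ℝ))) x0 =
      Pn lam l ω k (fun _ => 0) x0 := by
    apply Pn_congr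
    intro y hy
    rw [Set.indicator_of_notMem]
    intro hyx
    rw [Set.mem_singleton_iff] at hyx
    exact hx (hyx ▸ hy)
  rw [h1, Pn_const]

theorem Occ_eq_zero (n : ℕ) (x0 x : V d) (h : x ∉ Bx n x0) : Occ lam l ω n x0 x = 0 := by
  unfold Occ
  apply Finset.sum_eq_zero
  intro k hk
  have hk' : k ≤ n := (Finset.mem_range.1 hk).le
  exact A_Occ_zero lam l ω k (fun hx => h (Bx_mono hk' x0 hx))

theorem conn_of_Occ (n : ℕ) (x0 x : V d) (h : Occ lam l ω n x0 x ≠ 0) : Conn ω x0 x := by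
  unfold Occ at h
  obtain ⟨k, _, hk⟩ := Finset.exists_ne_zero_of_sum_ne_zero h
  exact conn_of_Pn_pos lam l ω k x0 x hk

theorem sum_Occ_mul (n : ℕ) (x0 : V d) (g : V d → ℝ) :
    ∑ x ∈ Bx n x0, Occ lam l ω n x0 x * g x = ∑ k ∈ Finset.range n, Pn lam l ω k g x0 := by
  unfold Occ
  simp_rw [Finset.sum_mul]
  rw [Finset.sum_comm]
  apply Finset.sum_congr rfl
  intro k hk
  have hk' : k ≤ n := (Finset.mem_range.1 hk).le
  rw [Pn_eq_sum lam l ω k g x0]
  symm
  apply Finset.sum_subset (Bx_mono hk' x0)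
  intro x _ hx
  rw [A_Occ_zero lam l ω k hx, zero_mul]

theorem sum_Occ (n : ℕ) (x0 : V d) : ∑ x ∈ Bx n x0, Occ lam l ω n x0 x = n := by
  have h := sum_Occ_mul lam l ω n x0 (fun _ => 1)
  simp only [mul_one] at h
  rw [h]
  have h1 : ∀ k ∈ Finset.range n, Pn lam l ω k (fun _ => (1 : ℝ)) x0 = 1 := by
    intro k _
    rw [Pn_const]
  rw [Finset.sum_congr rfl h1]
  simp

theorem Occ_sbp (n : ℕ) (x0 : V d) (g : V d → ℝ) :
    ∑ x ∈ Bx n x0, Occ lam l ω n x0 x * (g x - Pop lam l ω g x) = g x0 - Pn lam l ω n g x0 := by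
  rw [sum_Occ_mul lam l ω n x0 (fun x => g x - Pop lam l ω g x)]
  have h1 : ∀ k ∈ Finset.range n, Pn lam l ω k (fun x => g x - Pop lam l ω g x) x0 =
      Pn lam l ω k g x0 - Pn lam l ω (k + 1) g x0 := by
    intro k _
    have h2 := Pn_sub lam l ω k g (Pop lam l ω g)
    have h3 := congrFun h2 x0
    rw [Pn_succ']
    exact h3
  rw [Finset.sum_congr rfl h1, Finset.sum_range_sub', Pn_zero]

/-- `Occ x * (g x - Pop g x) = Fo x * ∑_δ wt x δ (g x - g (x + st δ))` (both sides vanish when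
`Zw = 0`). -/
theorem Occ_mul_gen (n : ℕ) (x0 x : V d) (g : V d → ℝ) :
    Occ lam l ω n x0 x * (g x - Pop lam l ω g x)
      = Fo lam l ω n x0 x * ∑ δ, wt lam l ω x δ * (g x - g (x + st δ)) := by
  unfold Fo Pop
  by_cases hZ : Zw lam l ω x = 0
  · rw [if_pos hZ, hZ, sub_self, mul_zero, div_zero, zero_mul]
  · rw [if_neg hZ]
    have h1 : ∑ δ, wt lam l ω x δ * (g x - g (x + st δ)) =
        Zw lam l ω x * g x - ∑ δ, wt lam l ω x δ * g (x + st δ) := by
      unfold Zw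
      rw [Finset.sum_mul, ← Finset.sum_sub_distrib]
      apply Finset.sum_congr rfl
      intro δ _
      ring
    rw [h1]
    field_simp

/-- If `x` is not isolated then `Zw x ≥ exp(-|lam|)`. -/
theorem Zw_ge (hl : ∑ i, l i ^ 2 = 1) (x : V d) (h : Zw lam l ω x ≠ 0) :
    Real.exp (-|lam|) ≤ Zw lam l ω x := by
  rw [Ne, Zw_eq_zero_iff] at h
  push Not at h
  obtain ⟨δ, hδ⟩ := h
  have h1 : wt lam l ω x δ ≤ Zw lam l ω x := by
    unfold Zw
    exact Finset.single_le_sum (fun δ _ => wt_nonneg lam l ω x δ) (Finset.mem_univ δ)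
  refine le_trans ?_ h1
  unfold wt
  rw [if_pos hδ]
  apply Real.exp_le_exp.2
  have h2 := abs_dt_le l hl δ
  have h3 : |lam * dt l δ| ≤ |lam| := by
    rw [abs_mul]
    exact mul_le_of_le_one_right (abs_nonneg _) h2
  exact (abs_le.1 h3).1

theorem Zw_le (hl : ∑ i, l i ^ 2 = 1) (x : V d) :
    Zw lam l ω x ≤ 2 * d * Real.exp |lam| := by
  unfold Zw
  have h1 : ∀ δ ∈ (Finset.univ : Finset (Dir d)), wt lam l ω x δ ≤ Real.exp |lam| := by
    intro δ _
    unfold wt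
    split_ifs
    · apply Real.exp_le_exp.2
      have h2 := abs_dt_le l hl δ
      have h3 : |lam * dt l δ| ≤ |lam| := by
        rw [abs_mul]
        exact mul_le_of_le_one_right (abs_nonneg _) h2
      exact (abs_le.1 h3).2
    · exact (Real.exp_pos _).le
  refine (Finset.sum_le_card_nsmul _ _ _ h1).trans (le_of_eq ?_)
  rw [nsmul_eq_mul, Finset.card_univ, Fintype.card_prod, Fintype.card_fin, Fintype.card_bool]
  push_cast
  ring

theorem Fo_le (hl : ∑ i, l i ^ 2 = 1) (n : ℕ) (x0 x : V d) :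
    Fo lam l ω n x0 x ≤ Real.exp |lam| * Occ lam l ω n x0 x := by
  unfold Fo
  by_cases hZ : Zw lam l ω x = 0
  · rw [hZ, div_zero]
    exact mul_nonneg (Real.exp_pos _).le (Occ_nonneg lam l ω n x0 x)
  · have h1 := Zw_ge lam l ω hl x hZ
    have h2 : 0 < Zw lam l ω x := lt_of_lt_of_le (Real.exp_pos _) h1
    rw [div_le_iff₀ h2]
    have h3 := Occ_nonneg lam l ω n x0 x
    calc Occ lam l ω n x0 x = Real.exp |lam| * Occ lam l ω n x0 x * Real.exp (-|lam|) := by
          rw [Real.exp_neg]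
          have := Real.exp_pos |lam|
          field_simp
      _ ≤ _ := mul_le_mul_of_nonneg_left h1 (mul_nonneg (Real.exp_pos _).le h3)

theorem sum_Fo_le (hl : ∑ i, l i ^ 2 = 1) (n : ℕ) (x0 : V d) :
    ∑ x ∈ Bx n x0, Fo lam l ω n x0 x ≤ Real.exp |lam| * n := by
  calc ∑ x ∈ Bx n x0, Fo lam l ω n x0 x
      ≤ ∑ x ∈ Bx n x0, Real.exp |lam| * Occ lam l ω n x0 x :=
        Finset.sum_le_sum fun x _ => Fo_le lam l ω hl n x0 x
    _ = Real.exp |lam| * n := by rw [← Finset.mul_sum, sum_Occ]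

end Ein99
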