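import Pool.Agent.LibEin99.Defs

/-!
TASK A_PnBasic. Elementary algebra of the transition operator `Pop` and its iterates `Pn`.
All by unfolding; `Zw lam l ω x` is a sum of nonnegative terms `wt` (`wt = exp(..) > 0` on an open
edge, `0` on a closed one), so `Zw ≥ 0`, and `Zw = 0` iff all edges at `x` are closed.
`Pn (n+1) g = Pop (Pn n g)` is `Function.iterate_succ_apply'`.
-/

open MeasureTheory ProbabilityTheory Filter Topology

namespace Ein99

variable {d : ℕ} (lam : ℝ) (l : Fin d → ℝ) (ω : Om d)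

theorem wt_nonneg (x : V d) (δ : Dir d) : 0 ≤ wt lam l ω x δ := by
  unfold wt
  split_ifs
  · exact (Real.exp_pos _).le
  · exact le_refl _

theorem Zw_nonneg (x : V d) : 0 ≤ Zw lam l ω x :=
  Finset.sum_nonneg (fun δ _ => wt_nonneg lam l ω x δ)

theorem Zw_eq_zero_iff (x : V d) : Zw lam l ω x = 0 ↔ ∀ δ, ¬ opn ω x δ := by
  unfold Zw
  rw [Finset.sum_eq_zero_iff_of_nonneg (fun δ _ => wt_nonneg lam l ω x δ)]
  constructor
  · intro h δ ho
    have := h δ (Finset.mem_univ δ)
    unfold wt at this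
    rw [if_pos ho] at this
    exact (Real.exp_pos _).ne' this
  · intro h δ _
    unfold wt
    rw [if_neg (h δ)]

theorem Pop_const (c : ℝ) : Pop lam l ω (fun _ => c) = fun _ => c := by
  funext x
  unfold Pop
  split_ifs with h
  · rfl
  · rw [← Finset.sum_mul]
    change Zw lam l ω x * c / Zw lam l ω x = c
    field_simp

theorem Pop_add (g h : V d → ℝ) : Pop lam l ω (g + h) = Pop lam l ω g + Pop lam l ω h := by
  funext x
  simp only [Pop, Pi.add_apply]
  split_ifs with h0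
  · rfl
  · rw [← add_div, ← Finset.sum_add_distrib]
    congr 1
    exact Finset.sum_congr rfl (fun δ _ => by ring)

theorem Pop_smul (c : ℝ) (g : V d → ℝ) : Pop lam l ω (c • g) = c • Pop lam l ω g := by
  funext x
  simp only [Pop, Pi.smul_apply, smul_eq_mul]
  split_ifs with h0
  · rfl
  · rw [← mul_div_assoc, Finset.mul_sum]
    congr 1
    exact Finset.sum_congr rfl (fun δ _ => by ring)

theorem Pop_mono {g h : V d → ℝ} (hgh : ∀ x, g x ≤ h x) (x : V d) :
    Pop lam l ω g x ≤ Pop lam l ω h x := by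
  unfold Pop
  split_ifs with h0
  · exact hgh x
  · exact div_le_div_of_nonneg_right
      (Finset.sum_le_sum (fun δ _ => mul_le_mul_of_nonneg_left (hgh _) (wt_nonneg lam l ω x δ)))
      (Zw_nonneg lam l ω x)

/-- Jensen (Cauchy-Schwarz with the probability weights `wt / Zw`). -/
theorem Pop_sq_le (g : V d → ℝ) (x : V d) :
    (Pop lam l ω g x) ^ 2 ≤ Pop lam l ω (fun y => g y ^ 2) x := by
  unfold Pop
  split_ifs with h0
  · exact le_refl _
  · have hZ : 0 < Zw lam l ω x := lt_of_le_of_ne (Zw_nonneg lam l ω x) (Ne.symm h0)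
    rw [div_pow, div_le_div_iff₀ (by positivity) hZ]
    have hCS := Finset.sum_mul_sq_le_sq_mul_sq Finset.univ
      (fun δ => Real.sqrt (wt lam l ω x δ)) (fun δ => Real.sqrt (wt lam l ω x δ) * g (x + st δ))
    have e1 : ∀ δ, Real.sqrt (wt lam l ω x δ) * (Real.sqrt (wt lam l ω x δ) * g (x + st δ))
        = wt lam l ω x δ * g (x + st δ) := by
      intro δ
      rw [← mul_assoc, Real.mul_self_sqrt (wt_nonneg lam l ω x δ)]
    have e2 : ∀ δ, Real.sqrt (wt lam l ω x δ) ^ 2 = wt lam l ω x δ :=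
      fun δ => Real.sq_sqrt (wt_nonneg lam l ω x δ)
    have e3 : ∀ δ, (Real.sqrt (wt lam l ω x δ) * g (x + st δ)) ^ 2
        = wt lam l ω x δ * g (x + st δ) ^ 2 := by
      intro δ
      rw [mul_pow, e2]
    simp only [e1, e2, e3] at hCS
    have hCS' : (∑ δ, wt lam l ω x δ * g (x + st δ)) ^ 2
        ≤ Zw lam l ω x * ∑ δ, wt lam l ω x δ * g (x + st δ) ^ 2 := hCS
    calc (∑ δ, wt lam l ω x δ * g (x + st δ)) ^ 2 * Zw lam l ω x
        ≤ (Zw lam l ω x * ∑ δ, wt lam l ω x δ * g (x + st δ) ^ 2) * Zw lam l ω x :=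
          mul_le_mul_of_nonneg_right hCS' hZ.le
      _ = (∑ δ, wt lam l ω x δ * g (x + st δ) ^ 2) * Zw lam l ω x ^ 2 := by ring

theorem Pn_zero (g : V d → ℝ) : Pn lam l ω 0 g = g := rfl

theorem Pn_succ (n : ℕ) (g : V d → ℝ) : Pn lam l ω (n + 1) g = Pop lam l ω (Pn lam l ω n g) :=
  Function.iterate_succ_apply' _ _ _

theorem Pn_succ' (n : ℕ) (g : V d → ℝ) : Pn lam l ω (n + 1) g = Pn lam l ω n (Pop lam l ω g) :=
  Function.iterate_succ_apply _ _ _

theorem Pn_add_time (m n : ℕ) (g : V d → ℝ) :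
    Pn lam l ω (m + n) g = Pn lam l ω m (Pn lam l ω n g) :=
  Function.iterate_add_apply _ _ _ _

theorem Pn_const (n : ℕ) (c : ℝ) : Pn lam l ω n (fun _ => c) = fun _ => c := by
  induction n with
  | zero => rfl
  | succ n ih => rw [Pn_succ, ih, Pop_const]

theorem Pn_add (n : ℕ) (g h : V d → ℝ) : Pn lam l ω n (g + h) = Pn lam l ω n g + Pn lam l ω n h := by
  induction n with
  | zero => rfl
  | succ n ih => rw [Pn_succ, ih, Pop_add, Pn_succ, Pn_succ]

theorem Pn_smul (n : ℕ) (c : ℝ) (g : V d → ℝ) : Pn lam l ω n (c • g) = c • Pn lam l ω n g := by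
  induction n with
  | zero => rfl
  | succ n ih => rw [Pn_succ, ih, Pop_smul, Pn_succ]

theorem Pn_sub (n : ℕ) (g h : V d → ℝ) : Pn lam l ω n (g - h) = Pn lam l ω n g - Pn lam l ω n h := by
  have e : g - h = g + (-1 : ℝ) • h := by
    rw [neg_one_smul, sub_eq_add_neg]
  rw [e, Pn_add, Pn_smul, neg_one_smul, ← sub_eq_add_neg]

theorem Pn_sum {ι : Type*} (s : Finset ι) (n : ℕ) (g : ι → V d → ℝ) :
    Pn lam l ω n (∑ i ∈ s, g i) = ∑ i ∈ s, Pn lam l ω n (g i) := by
  classical
  induction s using Finset.induction_on with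
  | empty =>
    rw [Finset.sum_empty, Finset.sum_empty]
    exact Pn_const lam l ω n 0
  | insert a s ha ih =>
    rw [Finset.sum_insert ha, Finset.sum_insert ha, Pn_add, ih]

theorem Pn_mono (n : ℕ) {g h : V d → ℝ} (hgh : ∀ x, g x ≤ h x) (x : V d) :
    Pn lam l ω n g x ≤ Pn lam l ω n h x := by
  induction n generalizing x with
  | zero => exact hgh x
  | succ n ih =>
    rw [Pn_succ, Pn_succ]
    exact Pop_mono lam l ω ih x

theorem Pn_nonneg (n : ℕ) {g : V d → ℝ} (hg : ∀ x, 0 ≤ g x) (x : V d) :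
    0 ≤ Pn lam l ω n g x := by
  have h := Pn_mono lam l ω n (g := fun _ => (0 : ℝ)) (h := g) hg x
  rw [Pn_const] at h
  exact h

theorem Pn_abs_le (n : ℕ) (g : V d → ℝ) (x : V d) :
    |Pn lam l ω n g x| ≤ Pn lam l ω n (fun y => |g y|) x := by
  rw [abs_le]
  constructor
  · have h := Pn_mono lam l ω n (g := (-1 : ℝ) • (fun y => |g y|)) (h := g)
      (fun y => by
        simp only [Pi.smul_apply, smul_eq_mul, neg_mul, one_mul]
        exact neg_abs_le (g y)) x
    rw [Pn_smul] at h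
    simp only [Pi.smul_apply, smul_eq_mul, neg_mul, one_mul] at h
    exact h
  · exact Pn_mono lam l ω n (fun y => le_abs_self (g y)) x

theorem Pn_sq_le (n : ℕ) (g : V d → ℝ) (x : V d) :
    (Pn lam l ω n g x) ^ 2 ≤ Pn lam l ω n (fun y => g y ^ 2) x := by
  induction n generalizing x with
  | zero => exact le_refl _
  | succ n ih =>
    rw [Pn_succ, Pn_succ]
    exact (Pop_sq_le lam l ω _ x).trans (Pop_mono lam l ω ih x)

end Ein99
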