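import Pool.Agent.LibEin99.A_PnBasic
import Pool.Agent.LibEin99.A_Box

/-!
TASK A_PnRange. Finite range of the `n`-step operator.
`Pn_congr`: induction on `n` (for all `x`), since `st δ` has coordinates in `{-1,0,1}`.
`Pn_eq_sum`: `g` and `∑ y ∈ Bx n x, g y • 1_{y}` agree on `Bx n x`; use `Pn_congr`, `Pn_sum`,
`Pn_smul`.
-/

open MeasureTheory ProbabilityTheory Filter Topology

namespace Ein99

variable {d : ℕ}

variable (lam : ℝ) (l : Fin d → ℝ) (ω : Om d)

theorem Pop_congr {g h : V d → ℝ} {x : V d} (hgh : ∀ y ∈ Bx 1 x, g y = h y) :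
    Pop lam l ω g x = Pop lam l ω h x := by
  unfold Pop
  rw [hgh x (self_mem_Bx 1 x)]
  have : ∑ δ, wt lam l ω x δ * g (x + st δ) = ∑ δ, wt lam l ω x δ * h (x + st δ) :=
    Finset.sum_congr rfl (fun δ _ => by rw [hgh _ (add_st_mem_Bx x δ)])
  rw [this]

theorem Pn_congr (n : ℕ) {g h : V d → ℝ} {x : V d} (hgh : ∀ y ∈ Bx n x, g y = h y) :
    Pn lam l ω n g x = Pn lam l ω n h x := by
  induction n generalizing x with
  | zero =>
    rw [Pn_zero, Pn_zero]
    exact hgh x (self_mem_Bx 0 x)
  | succ n ih =>
    rw [Pn_succ, Pn_succ]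
    apply Pop_congr
    intro y hy
    apply ih
    intro z hz
    apply hgh
    have := Bx_trans hy hz
    rwa [add_comm] at this

theorem Pn_eq_sum (n : ℕ) (g : V d → ℝ) (x : V d) :
    Pn lam l ω n g x
      = ∑ y ∈ Bx n x, Pn lam l ω n (Set.indicator {y} (fun _ => (1 : ℝ))) x * g y := by
  classical
  have h1 : Pn lam l ω n g x = Pn lam l ω n
      (∑ y ∈ Bx n x, g y • (Set.indicator {y} (fun _ => (1 : ℝ)) : V d → ℝ)) x := by
    apply Pn_congr
    intro z hz
    rw [Finset.sum_apply, Finset.sum_eq_single z]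
    · simp
    · intro y _ hyz
      simp only [Pi.smul_apply, smul_eq_mul]
      rw [Set.indicator_of_notMem (by simpa using hyz.symm), mul_zero]
    · intro h; exact absurd hz h
  rw [h1, Pn_sum, Finset.sum_apply]
  apply Finset.sum_congr rfl
  intro y _
  rw [Pn_smul]
  simp only [Pi.smul_apply, smul_eq_mul]
  ring

/-- bound by the supremum over the box -/
theorem Pn_abs_le_of_box (n : ℕ) (g : V d → ℝ) (x : V d) (C : ℝ) (h : ∀ y ∈ Bx n x, |g y| ≤ C) :
    |Pn lam l ω n g x| ≤ C := by
  classical
  have hC : 0 ≤ C := (abs_nonneg _).trans (h x (self_mem_Bx n x))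
  have e : Pn lam l ω n g x
      = Pn lam l ω n (Set.indicator (Bx n x : Set (V d)) g) x := by
    apply Pn_congr
    intro y hy
    rw [Set.indicator_of_mem (by exact_mod_cast hy)]
  rw [e]
  refine (Pn_abs_le lam l ω n _ x).trans ?_
  have m := Pn_mono lam l ω n (g := fun y => |Set.indicator (Bx n x : Set (V d)) g y|)
    (h := fun _ => C) (fun y => by
      by_cases hy : y ∈ (Bx n x : Set (V d))
      · rw [Set.indicator_of_mem hy]
        exact h y (by exact_mod_cast hy)
      · rw [Set.indicator_of_notMem hy, abs_zero]; exact hC) x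
  rw [Pn_const] at m
  exact m

/-- `(x_n - x_0)·l` changes by at most one in each step. -/
theorem abs_Pn_dot_le (hl : ∑ i, l i ^ 2 = 1) (n : ℕ) (x : V d) :
    |Pn lam l ω n (dot l) x - dot l x| ≤ n := by
  have step : ∀ y, |Pop lam l ω (dot l) y - dot l y| ≤ 1 := by
    intro y
    have key : Pop lam l ω (dot l) y - dot l y
        = Pop lam l ω (dot l + (fun _ => - dot l y)) y := by
      rw [Pop_add, Pop_const]
      simp only [Pi.add_apply]
      ring
    rw [key]
    unfold Pop
    split_ifs with hZ
    · simp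
    · have hZp : 0 < Zw lam l ω y := lt_of_le_of_ne (Zw_nonneg lam l ω y) (Ne.symm hZ)
      rw [abs_div, abs_of_pos hZp, div_le_one hZp]
      calc |∑ δ, wt lam l ω y δ * (dot l + (fun _ => - dot l y : V d → ℝ)) (y + st δ)|
          ≤ ∑ δ, |wt lam l ω y δ * (dot l + (fun _ => - dot l y : V d → ℝ)) (y + st δ)| :=
            Finset.abs_sum_le_sum_abs _ _
        _ ≤ ∑ δ, wt lam l ω y δ := by
            apply Finset.sum_le_sum
            intro δ _
            rw [abs_mul, abs_of_nonneg (wt_nonneg lam l ω y δ)]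
            have : (dot l + (fun _ => - dot l y : V d → ℝ)) (y + st δ) = dt l δ := by
              simp only [Pi.add_apply]
              rw [dot_add, dot_st]; ring
            rw [this]
            exact mul_le_of_le_one_right (wt_nonneg lam l ω y δ) (abs_dt_le l hl δ)
        _ = Zw lam l ω y := rfl
  induction n with
  | zero => rw [Pn_zero]; simp
  | succ n ih =>
    rw [Pn_succ']
    have e : Pop lam l ω (dot l) = dot l + (Pop lam l ω (dot l) - dot l) := by abel
    rw [e, Pn_add]
    simp only [Pi.add_apply]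
    have h2 : |Pn lam l ω n (Pop lam l ω (dot l) - dot l) x| ≤ 1 :=
      Pn_abs_le_of_box lam l ω n _ x 1 (fun y _ => step y)
    have h3 : Pn lam l ω n (dot l) x + Pn lam l ω n (Pop lam l ω (dot l) - dot l) x - dot l x
        = (Pn lam l ω n (dot l) x - dot l x) + Pn lam l ω n (Pop lam l ω (dot l) - dot l) x := by
      ring
    rw [h3]
    push_cast
    exact (abs_add_le _ _).trans (add_le_add ih h2)

/-- A vertex reached with positive probability is connected to the starting point. -/
theorem conn_of_Pn_pos (n : ℕ) (x y : V d)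
    (h : Pn lam l ω n (Set.indicator {y} (fun _ => (1 : ℝ))) x ≠ 0) : Conn ω x y := by
  classical
  induction n generalizing x with
  | zero =>
    rw [Pn_zero] at h
    have : x = y := by
      by_contra hne
      exact h (Set.indicator_of_notMem (by simpa using hne) _)
    subst this
    exact Relation.ReflTransGen.refl
  | succ n ih =>
    rw [Pn_succ] at h
    unfold Pop at h
    split_ifs at h with hZ
    · exact ih x h
    · have hs : ∑ δ, wt lam l ω x δ *
          Pn lam l ω n (Set.indicator {y} (fun _ => (1 : ℝ))) (x + st δ) ≠ 0 := by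
        intro h0
        exact h (by rw [h0, zero_div])
      obtain ⟨δ, _, hδ⟩ := Finset.exists_ne_zero_of_sum_ne_zero hs
      have hw : wt lam l ω x δ ≠ 0 := left_ne_zero_of_mul hδ
      have hP := right_ne_zero_of_mul hδ
      have ho : opn ω x δ := by
        by_contra ho
        exact hw (by unfold wt; rw [if_neg ho])
      exact Relation.ReflTransGen.head ⟨δ, ho, rfl⟩ (ih (x + st δ) hP)

end Ein99
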