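import Pool.Agent.LibEin99.A_Energy

/-!
TASK A_U. Test potentials (upper bounds for the speed).

`Pn n Θ x0 - Θ x0 = - ∑ j (Θ x - Θ y)` (`flux`), `j = jp - 2 eps sinh(lam l i)`; the `eps` part is
at most `4 eps K * #edges ≤ C K` (`region_eps`); Cauchy-Schwarz `esum_cs` with weights `tp` and
`energy_D`; finally `∑ tp (Θ x - Θ y)² = ∑ t (Θ x - Θ y)² + eps part`, where (by `edge_sum` with
`f x δ = Fo x exp(lam dt δ) (Θ(x+st δ) - Θ x)²`)
`∑ t (Θ x - Θ y)² = ∑_x Fo x ∑_δ wt x δ (Θ(x + st δ) - Θ x)² = ∑_x Occ x * Γ(x)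
 = ∑_{k<n} Pn k Γ x0`, `Γ x = Pop (fun y => (Θ y - Θ x)²) x` (`sum_Occ_mul`).
-/

open MeasureTheory ProbabilityTheory Filter Topology

namespace Ein99

variable {d : ℕ}

theorem au_esum_nonneg (ω : Om d) (R : ℕ) (x0 : V d) (f : V d → Fin d → ℝ)
    (h : ∀ x i, opn ω x (i, true) → 0 ≤ f x i) : 0 ≤ esum ω R x0 f := by
  unfold esum
  refine Finset.sum_nonneg fun x _ => Finset.sum_nonneg fun i _ => ?_
  split_ifs with ho
  · exact h x i ho
  · exact le_rfl

theorem au_exp3 {lam : ℝ} {l : Fin d → ℝ} (h0 : 0 ≤ lam) (h1 : lam ≤ 1)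
    (hl : ∑ i, l i ^ 2 = 1) (i : Fin d) :
    Real.exp (lam * l i) ≤ 3 ∧ Real.exp (-(lam * l i)) ≤ 3 := by
  have hli := energy_absl hl i
  have hs : |lam * l i| ≤ 1 := by
    rw [abs_mul, abs_of_nonneg h0]
    nlinarith [abs_nonneg (l i)]
  obtain ⟨hs1, hs2⟩ := abs_le.1 hs
  have he3 : Real.exp 1 ≤ 3 := by
    have := Real.exp_one_lt_d9
    linarith
  exact ⟨(Real.exp_le_exp.2 hs2).trans he3, (Real.exp_le_exp.2 (by linarith)).trans he3⟩

/-- the traffic part without the small mass -/
theorem au_traffic (lam : ℝ) (l : Fin d → ℝ) (ω : Om d) (n : ℕ) (x0 : V d) (Θ : V d → ℝ) :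
    esum ω (2 * n + 1) x0 (fun x i => (Fo lam l ω n x0 x * Real.exp (lam * l i)
        + Fo lam l ω n x0 (x + st (i, true)) * Real.exp (-(lam * l i)))
          * (Θ x - Θ (x + st (i, true))) ^ 2)
      = ∑ k ∈ Finset.range n,
          Pn lam l ω k (fun x => Pop lam l ω (fun y => (Θ y - Θ x) ^ 2) x) x0 := by
  rw [← sum_Occ_mul]
  have h := edge_sum ω n (2 * n + 1) (by omega) x0
    (fun x δ => Fo lam l ω n x0 x * Real.exp (lam * dt l δ) * (Θ (x + st δ) - Θ x) ^ 2) (by
      intro x hx δ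
      have h0 : Fo lam l ω n x0 x = 0 := by
        unfold Fo
        rw [Occ_eq_zero lam l ω n x0 x hx, zero_div]
      simp only [h0, zero_mul])
  have e1 : (fun (x : V d) (i : Fin d) => (Fo lam l ω n x0 x * Real.exp (lam * l i)
        + Fo lam l ω n x0 (x + st (i, true)) * Real.exp (-(lam * l i)))
          * (Θ x - Θ (x + st (i, true))) ^ 2) = fun x i =>
      (fun x δ => Fo lam l ω n x0 x * Real.exp (lam * dt l δ) * (Θ (x + st δ) - Θ x) ^ 2)
        x (i, true) +
      (fun x δ => Fo lam l ω n x0 x * Real.exp (lam * dt l δ) * (Θ (x + st δ) - Θ x) ^ 2)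
        (x + st (i, true)) (i, false) := by
    funext x i
    have hst : st (i, false) = - st ((i, true) : Dir d) := by
      have := st_rv ((i, true) : Dir d)
      simpa [rv] using this
    have h2 : x + st (i, true) + st (i, false) = x := by
      rw [hst, add_neg_cancel_right]
    have h3 : dt l (i, true) = l i := by simp [dt]
    have h4 : dt l (i, false) = - l i := by simp [dt]
    simp only [h2, h3, h4, mul_neg]
    ring
  rw [e1, ← h]
  refine Finset.sum_congr rfl fun x _ => ?_
  have e2 : ∑ δ, (if opn ω x δ then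
      (fun x δ => Fo lam l ω n x0 x * Real.exp (lam * dt l δ) * (Θ (x + st δ) - Θ x) ^ 2) x δ
        else 0) = Fo lam l ω n x0 x * ∑ δ, wt lam l ω x δ * (Θ (x + st δ) - Θ x) ^ 2 := by
    rw [Finset.mul_sum]
    refine Finset.sum_congr rfl fun δ _ => ?_
    unfold wt
    split_ifs with ho
    · ring
    · ring
  rw [e2]
  unfold Fo Pop
  split_ifs with hz
  · rw [hz]
    simp
  · rw [div_mul_eq_mul_div, mul_div_assoc]

theorem test_potential (d : ℕ) : ∃ C : ℝ, 0 < C ∧ ∀ (lam : ℝ) (l : Fin d → ℝ) (ω : Om d) (n : ℕ)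
    (x0 : V d), 0 ≤ lam → lam ≤ 1 → ∑ i, l i ^ 2 = 1 → 1 ≤ n →
    ∀ (Θ : V d → ℝ) (K : ℝ), 0 ≤ K → (∀ x δ, opn ω x δ → |Θ (x + st δ) - Θ x| ≤ K) →
    |Pn lam l ω n Θ x0 - Θ x0| ≤ C * K + Real.sqrt
      ((lam * DD lam l ω n x0 + C * Real.log (n + 2)) *
        (∑ k ∈ Finset.range n,
          Pn lam l ω k (fun x => Pop lam l ω (fun y => (Θ y - Θ x) ^ 2) x) x0 + C * K ^ 2)) := by
  obtain ⟨C1, hC1, H⟩ := energy_D d
  refine ⟨C1 + 6 * (d * 4 ^ d), by positivity, ?_⟩
  intro lam l ω n x0 h0 h1 hl hn Θ K hK hΘ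
  have hL := energy_log3 hn
  set L := Real.log ((n : ℝ) + 2) with hLdef
  set S := ∑ k ∈ Finset.range n,
          Pn lam l ω k (fun x => Pop lam l ω (fun y => (Θ y - Θ x) ^ 2) x) x0 with hS
  set D : V d → Fin d → ℝ := fun x i => Θ x - Θ (x + st (i, true)) with hD
  have hDK : ∀ x i, opn ω x (i, true) → |D x i| ≤ K := by
    intro x i ho
    have := hΘ x (i, true) ho
    rw [abs_sub_comm]
    exact this
  have hd4 : (0 : ℝ) ≤ d * 4 ^ d := by positivity
  -- the energy factor
  set A := esum ω (2 * n + 1) x0 (fun x i => jp lam l ω n x0 x i ^ 2 / tp lam l ω n x0 x i)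
    with hA
  have hA0 : 0 ≤ A := au_esum_nonneg _ _ _ _ fun x i _ =>
    div_nonneg (sq_nonneg _) (tp_pos lam l ω n x0 x i).le
  have hA1 : A ≤ lam * DD lam l ω n x0 + (C1 + 6 * (d * 4 ^ d)) * L := by
    have h := H lam l ω n x0 h0 h1 hl hn
    have h2 : (0 : ℝ) ≤ 6 * (d * 4 ^ d) * L := by positivity
    have h3 : (C1 + 6 * (d * 4 ^ d)) * L = C1 * L + 6 * (d * 4 ^ d) * L := by ring
    rw [h3]
    linarith
  -- the traffic factor
  set B := esum ω (2 * n + 1) x0 (fun x i => tp lam l ω n x0 x i * D x i ^ 2) with hB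
  have hB0 : 0 ≤ B := au_esum_nonneg _ _ _ _ fun x i _ =>
    mul_nonneg (tp_pos lam l ω n x0 x i).le (sq_nonneg _)
  have hB1 : B ≤ S + (C1 + 6 * (d * 4 ^ d)) * K ^ 2 := by
    have e : B = S + esum ω (2 * n + 1) x0 (fun x i => eps d n *
        (Real.exp (lam * l i) + Real.exp (-(lam * l i))) * D x i ^ 2) := by
      rw [hS, ← au_traffic, ← esum_add, hB]
      congr 1
      funext x i
      simp only [tp, Fp, hD]
      ring
    rw [e]
    have h2 : esum ω (2 * n + 1) x0 (fun x i => eps d n *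
        (Real.exp (lam * l i) + Real.exp (-(lam * l i))) * D x i ^ 2)
        ≤ esum ω (2 * n + 1) x0 (fun _ _ => eps d n * (6 * K ^ 2)) := by
      refine esum_mono _ _ _ fun x i ho => ?_
      obtain ⟨ha, hb⟩ := au_exp3 h0 h1 hl i
      have hd2 : D x i ^ 2 ≤ K ^ 2 := by
        rw [← sq_abs]
        exact pow_le_pow_left₀ (abs_nonneg _) (hDK x i ho) 2
      rw [mul_assoc]
      refine mul_le_mul_of_nonneg_left ?_ (eps_pos d n).le
      exact mul_le_mul (by linarith) hd2 (sq_nonneg _) (by norm_num)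
    have h3 := esum_const_le ω (2 * n + 1) x0 (eps d n * (6 * K ^ 2))
      (by have := (eps_pos d n).le; positivity)
    have h4 : (d : ℝ) * (2 * (2 * n + 1 : ℕ) + 1) ^ d * (eps d n * (6 * K ^ 2))
        ≤ d * 4 ^ d * (6 * K ^ 2) := by
      rw [← mul_assoc]
      exact mul_le_mul_of_nonneg_right (region_eps d n) (by positivity)
    have h5 : (0 : ℝ) ≤ C1 * K ^ 2 := by positivity
    have h6 : (C1 + 6 * (d * 4 ^ d)) * K ^ 2 = C1 * K ^ 2 + d * 4 ^ d * (6 * K ^ 2) := by ring
    rw [h6]
    linarith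
  -- Cauchy-Schwarz
  have hcs := esum_cs ω (2 * n + 1) x0 (fun x i => jp lam l ω n x0 x i) D
    (fun x i => tp lam l ω n x0 x i) (fun x i => tp_pos lam l ω n x0 x i)
  have hX : |esum ω (2 * n + 1) x0 (fun x i => jp lam l ω n x0 x i * D x i)|
      ≤ Real.sqrt ((lam * DD lam l ω n x0 + (C1 + 6 * (d * 4 ^ d)) * L) *
        (S + (C1 + 6 * (d * 4 ^ d)) * K ^ 2)) := by
    refine Real.abs_le_sqrt (hcs.trans ?_)
    exact mul_le_mul hA1 hB1 hB0 (hA0.trans hA1)
  -- the small mass part
  have hY : |esum ω (2 * n + 1) x0 (fun x i => eps d n *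
      (Real.exp (lam * l i) - Real.exp (-(lam * l i))) * D x i)|
      ≤ (C1 + 6 * (d * 4 ^ d)) * K := by
    refine (abs_esum_le _ _ _ _).trans ?_
    have h2 : esum ω (2 * n + 1) x0 (fun x i => |eps d n *
        (Real.exp (lam * l i) - Real.exp (-(lam * l i))) * D x i|)
        ≤ esum ω (2 * n + 1) x0 (fun _ _ => eps d n * (3 * K)) := by
      refine esum_mono _ _ _ fun x i ho => ?_
      obtain ⟨ha, hb⟩ := au_exp3 h0 h1 hl i
      have ha0 := Real.exp_pos (lam * l i)
      have hb0 := Real.exp_pos (-(lam * l i))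
      have hab : |Real.exp (lam * l i) - Real.exp (-(lam * l i))| ≤ 3 := by
        rw [abs_le]
        constructor <;> linarith
      rw [abs_mul, abs_mul, abs_of_pos (eps_pos d n), mul_assoc]
      refine mul_le_mul_of_nonneg_left ?_ (eps_pos d n).le
      exact mul_le_mul hab (hDK x i ho) (abs_nonneg _) (by norm_num)
    have h3 := esum_const_le ω (2 * n + 1) x0 (eps d n * (3 * K))
      (by have := (eps_pos d n).le; positivity)
    have h4 : (d : ℝ) * (2 * (2 * n + 1 : ℕ) + 1) ^ d * (eps d n * (3 * K))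
        ≤ d * 4 ^ d * (3 * K) := by
      rw [← mul_assoc]
      exact mul_le_mul_of_nonneg_right (region_eps d n) (by positivity)
    have h5 : (0 : ℝ) ≤ C1 * K := by positivity
    have h6 : (C1 + 6 * (d * 4 ^ d)) * K = C1 * K + d * 4 ^ d * (3 * K) + d * 4 ^ d * (3 * K) := by
      ring
    have h7 : (0 : ℝ) ≤ d * 4 ^ d * (3 * K) := by positivity
    rw [h6]
    linarith
  have hflux := flux lam l ω n (2 * n + 1) (by omega) x0 Θ
  have hsplit : esum ω (2 * n + 1) x0 (fun x i => jp lam l ω n x0 x i * D x i)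
      = (Θ x0 - Pn lam l ω n Θ x0) + esum ω (2 * n + 1) x0 (fun x i => eps d n *
      (Real.exp (lam * l i) - Real.exp (-(lam * l i))) * D x i) := by
    rw [← hflux, ← esum_add]
    congr 1
    funext x i
    simp only [jp, Fp, hD]
    ring
  have hX' := abs_le.1 hX
  have hY' := abs_le.1 hY
  rw [hsplit] at hX'
  rw [abs_le]
  constructor
  · linarith [hX'.1, hX'.2, hY'.1, hY'.2]
  · linarith [hX'.1, hX'.2, hY'.1, hY'.2]

theorem au_Pop_sq_le {l : Fin d → ℝ} (hl : ∑ i, l i ^ 2 = 1) (lam : ℝ) (ω : Om d) (x : V d) :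
    Pop lam l ω (fun y => (dot l y - dot l x) ^ 2) x ≤ 1 := by
  unfold Pop
  split_ifs with hz
  · simp
  · have hz0 : 0 < Zw lam l ω x := lt_of_le_of_ne (Zw_nonneg lam l ω x) (Ne.symm hz)
    rw [div_le_one hz0]
    unfold Zw
    refine Finset.sum_le_sum fun δ _ => ?_
    have h1 : dot l (x + st δ) - dot l x = dt l δ := by
      rw [dot_add, dot_st]
      ring
    have h2 : dt l δ ^ 2 ≤ 1 := by
      have := abs_dt_le l hl δ
      rw [← sq_abs]
      nlinarith [abs_nonneg (dt l δ)]
    simp only [h1]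
    have h3 := wt_nonneg lam l ω x δ
    nlinarith

/-- take `Θ = dot l`, `K = 1` and solve the quadratic inequality. -/
theorem DD_le (d : ℕ) : ∃ C : ℝ, 0 < C ∧ ∀ (lam : ℝ) (l : Fin d → ℝ) (ω : Om d) (n : ℕ)
    (x0 : V d), 0 ≤ lam → lam ≤ 1 → ∑ i, l i ^ 2 = 1 → 1 ≤ n →
    DD lam l ω n x0 ≤ lam * n + C * Real.sqrt (n * Real.log (n + 2)) ∧
    0 ≤ lam * DD lam l ω n x0 + C * Real.log (n + 2) := by
  obtain ⟨C2, hC2, H2⟩ := energy_D d
  obtain ⟨C, hC, H⟩ := test_potential d
  refine ⟨4 * C + 2 + C2, by positivity, ?_⟩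
  intro lam l ω n x0 h0 h1 hl hn
  have hL := energy_log3 hn
  set L := Real.log ((n : ℝ) + 2) with hLdef
  have hL0 : 0 ≤ L := by linarith
  have hn1 : (1 : ℝ) ≤ n := by exact_mod_cast hn
  set X := DD lam l ω n x0 with hX
  have hsecond : 0 ≤ lam * X + C2 * L := by
    refine le_trans ?_ (H2 lam l ω n x0 h0 h1 hl hn)
    exact au_esum_nonneg _ _ _ _ fun x i _ =>
      div_nonneg (sq_nonneg _) (tp_pos lam l ω n x0 x i).le
  constructor
  · have h := H lam l ω n x0 h0 h1 hl hn (dot l) 1 zero_le_one (by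
      intro x δ _
      rw [dot_add, dot_st, add_sub_cancel_left]
      exact abs_dt_le l hl δ)
    have hS : ∑ k ∈ Finset.range n,
          Pn lam l ω k (fun x => Pop lam l ω (fun y => (dot l y - dot l x) ^ 2) x) x0 ≤ n := by
      calc ∑ k ∈ Finset.range n,
          Pn lam l ω k (fun x => Pop lam l ω (fun y => (dot l y - dot l x) ^ 2) x) x0
          ≤ ∑ k ∈ Finset.range n, (1 : ℝ) := by
            refine Finset.sum_le_sum fun k _ => ?_
            have h2 := Pn_mono lam l ω k
              (g := fun x => Pop lam l ω (fun y => (dot l y - dot l x) ^ 2) x)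
              (h := fun _ => (1 : ℝ)) (fun x => au_Pop_sq_le hl lam ω x) x0
            rw [Pn_const] at h2
            exact h2
        _ = n := by simp
    have hXle : X ≤ C + Real.sqrt ((lam * X + C * L) * (n + C)) := by
      have h3 := (le_abs_self _).trans h
      have h4 : Pn lam l ω n (dot l) x0 - dot l x0 = X := rfl
      rw [h4] at h3
      refine h3.trans ?_
      rw [mul_one]
      refine add_le_add le_rfl ?_
      by_cases hneg : lam * X + C * L ≤ 0
      · have hS0 : 0 ≤ ∑ k ∈ Finset.range n,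
            Pn lam l ω k (fun x => Pop lam l ω (fun y => (dot l y - dot l x) ^ 2) x) x0 := by
          refine Finset.sum_nonneg fun k _ => Pn_nonneg lam l ω k (fun x => ?_) x0
          unfold Pop
          split_ifs with hz
          · positivity
          · exact div_nonneg (Finset.sum_nonneg fun δ _ =>
              mul_nonneg (wt_nonneg lam l ω x δ) (sq_nonneg _)) (Zw_nonneg lam l ω x)
        rw [Real.sqrt_eq_zero_of_nonpos (mul_nonpos_of_nonpos_of_nonneg hneg (by positivity))]
        exact Real.sqrt_nonneg _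
      · push Not at hneg
        refine Real.sqrt_le_sqrt ?_
        refine mul_le_mul_of_nonneg_left ?_ hneg.le
        linarith
    -- solve the quadratic inequality
    set m : ℝ := n + C with hm
    have hm0 : 0 < m := by positivity
    set b : ℝ := (lam * C + C * L) * m with hb
    have hb0 : 0 ≤ b := by positivity
    have hY : X - C ≤ lam * m + Real.sqrt b := by
      by_cases hYpos : X - C ≤ 0
      · have : 0 ≤ lam * m + Real.sqrt b := by positivity
        linarith
      · push Not at hYpos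
        have h5 : X - C ≤ Real.sqrt ((lam * X + C * L) * m) := by linarith
        have h6 : (X - C) ^ 2 ≤ (lam * X + C * L) * m := by
          have h7 : 0 ≤ (lam * X + C * L) * m := by
            by_contra hcon
            push Not at hcon
            rw [Real.sqrt_eq_zero_of_nonpos hcon.le] at h5
            linarith
          calc (X - C) ^ 2 ≤ (Real.sqrt ((lam * X + C * L) * m)) ^ 2 :=
                pow_le_pow_left₀ hYpos.le h5 2
            _ = (lam * X + C * L) * m := Real.sq_sqrt h7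
        by_contra hcon
        push Not at hcon
        have hs := Real.sq_sqrt hb0
        have hs0 := Real.sqrt_nonneg b
        have h8 : (lam * X + C * L) * m = lam * m * (X - C) + b := by
          rw [hb]; ring
        rw [h8] at h6
        have ham : 0 ≤ lam * m := by positivity
        nlinarith [mul_nonneg ham hs0]
    have hbs : Real.sqrt b ≤ 2 * (1 + C) * Real.sqrt (n * L) := by
      rw [show 2 * (1 + C) * Real.sqrt (n * L) = Real.sqrt ((2 * (1 + C)) ^ 2 * (n * L)) by
        rw [Real.sqrt_mul (sq_nonneg (2 * (1 + C))) (n * L), Real.sqrt_sq (by positivity)]]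
      refine Real.sqrt_le_sqrt ?_
      rw [hb, hm]
      have h9 : lam * C + C * L ≤ 2 * C * L := by nlinarith
      have h10 : (n : ℝ) + C ≤ (1 + C) * n := by nlinarith
      calc (lam * C + C * L) * (n + C) ≤ (2 * C * L) * ((1 + C) * n) :=
            mul_le_mul h9 h10 (by positivity) (by positivity)
        _ ≤ (2 * (1 + C)) ^ 2 * (n * L) := by
          have h11 : (0 : ℝ) ≤ n * L := by positivity
          nlinarith [mul_nonneg h11 hC.le, mul_nonneg h11 (mul_nonneg hC.le hC.le)]
    have hsq1 : 1 ≤ Real.sqrt (n * L) := by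
      rw [Real.one_le_sqrt]
      nlinarith
    have hlamC : lam * C ≤ C := by nlinarith
    have hfin : X ≤ lam * n + (4 * C + 2) * Real.sqrt (n * L) := by
      have e : lam * m = lam * n + lam * C := by rw [hm]; ring
      rw [e] at hY
      nlinarith
    have hC2s : 0 ≤ C2 * Real.sqrt (n * L) := by positivity
    nlinarith
  · have h5 : 0 ≤ (4 * C + 2) * L := by positivity
    have h6 : (4 * C + 2 + C2) * L = (4 * C + 2) * L + C2 * L := by ring
    rw [h6]
    linarith

end Ein99
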