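import Pool.Agent.LibEin99.C_Loc

/-!
TASK C_Loc2. The local objects: edge sets of boxes, connection events, local uniqueness events.
`EB r z` = edges with both endpoints in `Bx r z`. `Loc_JoinIn`: if `ω, ω'` agree on `EB r z` then the
relations `a ∈ Bx ∧ b ∈ Bx ∧ Adj ω a b` coincide (`ed_mem_EB`).
-/

open MeasureTheory ProbabilityTheory Filter Topology

namespace Ein99

variable {d : ℕ}

theorem mem_EB {r : ℕ} {z : V d} {e : Ed d} :
    e ∈ EB r z ↔ e.1 ∈ Bx r z ∧ e.1 + st (e.2, true) ∈ Bx r z := by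
  have h : (st (e.2, true) : V d) = Pi.single e.2 1 := by simp [st]
  rw [h]
  simp [EB]

/-- `ed x δ ∈ EB r z` iff both endpoints `x`, `x + st δ` are in the box. -/
theorem ed_mem_EB {r : ℕ} {z x : V d} {δ : Dir d} :
    ed x δ ∈ EB r z ↔ x ∈ Bx r z ∧ x + st δ ∈ Bx r z := by
  rw [mem_EB]
  obtain ⟨i, b⟩ := δ
  cases b with
  | true => simp [ed]
  | false =>
    have h : (st (i, true) : V d) = - st (i, false) := by
      have := st_rv (d := d) (i, false)
      simpa [rv] using this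
    simp only [ed, Bool.false_eq_true, if_false]
    rw [h, add_neg_cancel_right]
    exact and_comm

theorem EB_mono {r s : ℕ} (h : r ≤ s) (z : V d) : EB r z ⊆ EB s z := by
  intro e he
  rw [mem_EB] at he ⊢
  exact ⟨Bx_mono h z he.1, Bx_mono h z he.2⟩

theorem EB_subset {r s : ℕ} {y z : V d} (h : y ∈ Bx s z) : EB r y ⊆ EB (r + s) z := by
  intro e he
  rw [mem_EB] at he ⊢
  exact ⟨Bx_subset h he.1, Bx_subset h he.2⟩

theorem card_EB_le (r : ℕ) (z : V d) : ((EB r z).card : ℝ) ≤ d * (2 * r + 1) ^ d := by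
  have h1 : (EB r z).card ≤ (2 * r + 1) ^ d * d := by
    unfold EB
    refine (Finset.card_filter_le _ _).trans ?_
    rw [Finset.card_product, card_Bx, Finset.card_univ, Fintype.card_fin]
  have h2 : ((EB r z).card : ℝ) ≤ (((2 * r + 1) ^ d * d : ℕ) : ℝ) := by exact_mod_cast h1
  push_cast at h2
  linarith

theorem Loc_opn (x : V d) (δ : Dir d) (S : Set (Ed d)) (h : ed x δ ∈ S) :
    Loc S (fun ω : Om d => opn ω x δ) := by
  intro ω ω' hω
  simp only [opn, hω _ h]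

theorem rel_congr (r : ℕ) (z : V d) (ω ω' : Om d) (h : ∀ e ∈ (EB r z : Set (Ed d)), ω e = ω' e)
    (a b : V d) : (a ∈ (Bx r z : Set (V d)) ∧ b ∈ (Bx r z : Set (V d)) ∧ Adj ω a b) →
      (a ∈ (Bx r z : Set (V d)) ∧ b ∈ (Bx r z : Set (V d)) ∧ Adj ω' a b) := by
  rintro ⟨ha, hb, δ, h1, rfl⟩
  refine ⟨ha, hb, δ, ?_, rfl⟩
  have he : ed a δ ∈ (EB r z : Set (Ed d)) := by
    rw [Finset.mem_coe, ed_mem_EB]
    exact ⟨ha, hb⟩
  unfold opn at h1 ⊢
  rw [← h _ he]
  exact h1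

theorem JoinIn_congr (r : ℕ) (z : V d) (ω ω' : Om d)
    (h : ∀ e ∈ (EB r z : Set (Ed d)), ω e = ω' e) {x y : V d}
    (hj : JoinIn ω (Bx r z : Set (V d)) x y) : JoinIn ω' (Bx r z : Set (V d)) x y := by
  induction hj with
  | refl => exact Relation.ReflTransGen.refl
  | tail _ hbc ih => exact Relation.ReflTransGen.tail ih (rel_congr r z ω ω' h _ _ hbc)

theorem Loc_JoinIn (r : ℕ) (z x y : V d) :
    Loc (EB r z : Set (Ed d)) (fun ω : Om d => JoinIn ω (Bx r z : Set (V d)) x y) := by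
  intro ω ω' h
  exact propext ⟨JoinIn_congr r z ω ω' h, JoinIn_congr r z ω' ω (fun e he => (h e he).symm)⟩

theorem Loc_ToBd (r : ℕ) (z x : V d) :
    Loc (EB r z : Set (Ed d)) (fun ω : Om d => ToBd ω r z x) := by
  intro ω ω' h
  have h1 : ∀ y, JoinIn ω (Bx r z : Set (V d)) x y = JoinIn ω' (Bx r z : Set (V d)) x y :=
    fun y => Loc_JoinIn r z x y ω ω' h
  simp only [ToBd, h1]

theorem Loc_LG (K m : ℕ) (hK : 1 ≤ K) (z : V d) :
    Loc (EB (2 * K * m) z : Set (Ed d)) (fun ω : Om d => LG K ω m z) := by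
  intro ω ω' h
  have h' : ∀ e ∈ (EB (K * m) z : Set (Ed d)), ω e = ω' e := fun e he =>
    h e (EB_mono (by nlinarith [Nat.zero_le (K * m)]) z he)
  have h1 : ∀ x, ToBd ω (2 * K * m) z x = ToBd ω' (2 * K * m) z x :=
    fun x => Loc_ToBd (2 * K * m) z x ω ω' h
  have h2 : ∀ x, ToBd ω (K * m) z x = ToBd ω' (K * m) z x :=
    fun x => Loc_ToBd (K * m) z x ω ω' h'
  have h3 : ∀ x y, JoinIn ω (Bx (K * m) z : Set (V d)) x y
      = JoinIn ω' (Bx (K * m) z : Set (V d)) x y :=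
    fun x y => Loc_JoinIn (K * m) z x y ω ω' h'
  simp only [LG, h1, h2, h3]

theorem Loc_Zw (lam : ℝ) (l : Fin d → ℝ) (x : V d) :
    Loc (EB 1 x : Set (Ed d)) (fun ω : Om d => Zw lam l ω x) := by
  intro ω ω' h
  have h1 : ∀ δ : Dir d, ω (ed x δ) = ω' (ed x δ) := fun δ => by
    apply h
    rw [Finset.mem_coe, ed_mem_EB]
    exact ⟨self_mem_Bx 1 x, add_st_mem_Bx x δ⟩
  simp only [Zw, wt, opn, h1]

/-- translation of a local function -/
theorem Loc_sh {α : Type*} (r : ℕ) (c z : V d) {g : Om d → α}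
    (hg : Loc (EB r c : Set (Ed d)) g) :
    Loc (EB r (c + z) : Set (Ed d)) (fun ω : Om d => g (sh z ω)) := by
  intro ω ω' h
  apply hg
  intro e he
  unfold sh
  apply h
  rw [Finset.mem_coe, mem_EB] at he ⊢
  obtain ⟨h1, h2⟩ := he
  rw [mem_Bx] at h1 h2 ⊢
  rw [mem_Bx]
  constructor
  · intro i
    have := h1 i
    simpa using this
  · intro i
    have := h2 i
    have e1 : (e.1 + z + st (e.2, true)) i - (c + z) i = (e.1 + st (e.2, true)) i - c i := by
      simp only [Pi.add_apply]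
      ring
    rw [e1]
    exact this

end Ein99
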