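import Pool.Agent.LibEin99.F_Ip
import Pool.Agent.LibEin99.C_Loc2

/-!
TASK F_Adm. Admissible flows form a vector space and are orthogonal to gradients of bounded functions.

`AdmJ.mono`: monotone in `A` (for `ρ ≥ 1`, `A ρ^A ≤ A' ρ^{A'}`, `exp(-ρ/A) ≤ exp(-ρ/A')`).
`Adm.add`: with `A = max A1 A2` take `4 A`; `(a+b)² ≤ 2a²+2b²`. `Adm.smul`: take
`A' ≥ A * (1 + c²)`, `A' ≥ A * (1+|c|)` (for `c = 0` trivial too).
`adm_orth`: for the approximation `J` at `ρ`: `∑_δ oo J(ω,δ) (χ(sh (st δ) ω) - χ ω)` has integral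
`-2 ∫ χ ∑_δ J d(nu)` (`rev_int` with `F ω δ = J ω δ * χ (sh (st δ) ω)`, `Anti J`, `Supp J`), bounded by
`4 d B A ρ^A · P(∑ J ≠ 0) → 0`; and `|ip (J - I) (gr χ)| ≤ √(A e^{-ρ/A}) √(ip (gr χ)(gr χ)) → 0`.
-/

open MeasureTheory ProbabilityTheory Filter Topology

namespace Ein99

variable {d : ℕ} {p : unitInterval}

private theorem fa_oo (ω : Om d) (δ : Dir d) : 0 ≤ oo ω δ ∧ oo ω δ ≤ 1 := by
  unfold oo
  split <;> norm_num

private theorem fa_fin (p : unitInterval) : IsFiniteMeasure (nu d p) := by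
  unfold nu
  infer_instance

private theorem fa_pow {A A' ρ : ℕ} (h : A ≤ A') (hρ : 1 ≤ ρ) : A * ρ ^ A ≤ A' * ρ ^ A' :=
  Nat.mul_le_mul h (Nat.pow_le_pow_right hρ h)

private theorem fa_pow' {A A' ρ : ℕ} (h : A ≤ A') (hρ : 1 ≤ ρ) :
    (A : ℝ) * (ρ : ℝ) ^ A ≤ A' * (ρ : ℝ) ^ A' := by
  exact_mod_cast fa_pow h hρ

private theorem fa_exp {A A' : ℕ} (hA : 1 ≤ A) (h : A ≤ A') (ρ : ℕ) :
    Real.exp (-(ρ : ℝ) / A) ≤ Real.exp (-(ρ : ℝ) / A') := by
  have h1 : (1 : ℝ) ≤ A := by exact_mod_cast hA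
  have h2 : (A : ℝ) ≤ A' := by exact_mod_cast h
  refine Real.exp_le_exp.2 ?_
  rw [neg_div, neg_div, neg_le_neg_iff]
  exact div_le_div_of_nonneg_left (Nat.cast_nonneg ρ) (by linarith) h2

theorem AdmJ.mono {A A' : ℕ} (hA : 1 ≤ A) (h : A ≤ A') {I : Fld d} (hI : AdmJ p A I) :
    AdmJ p A' I := by
  have h2 : (A : ℝ) ≤ A' := by exact_mod_cast h
  refine ⟨hI.1, hI.2.1, fun ρ hρ => ?_⟩
  obtain ⟨J, h1, h3, h4, h5, h6, h7⟩ := hI.2.2 ρ hρ
  refine ⟨J, fun δ => ?_, fun ω δ => (h3 ω δ).trans (fa_pow' h hρ), h4, h5, h6.trans ?_,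
    h7.trans ?_⟩
  · refine (h1 δ).mono ?_
    exact_mod_cast EB_mono (fa_pow h hρ) (0 : V d)
  · exact mul_le_mul h2 (fa_exp hA h ρ) (Real.exp_pos _).le (Nat.cast_nonneg _)
  · exact mul_le_mul h2 (fa_exp hA h ρ) (Real.exp_pos _).le (Nat.cast_nonneg _)

theorem Adm.sqI {I : Fld d} (hI : Adm p I) : SqI p I := by
  obtain ⟨A, -, hA⟩ := hI
  exact ⟨hA.1, hA.2.1⟩

private theorem fa_sq {J : Fld d} {r : ℕ} (h : ∀ δ, Loc (EB r (0 : V d) : Set (Ed d)) (fun ω => J ω δ))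
    {B : ℝ} (hB : ∀ ω δ, |J ω δ| ≤ B) : SqI p J :=
  SqI.of_bounded (fun δ => (h δ).measurable) B hB

theorem Adm.add {I J : Fld d} (hI : Adm p I) (hJ : Adm p J) :
    Adm p (fun ω δ => I ω δ + J ω δ) := by
  have hIs := hI.sqI
  have hJs := hJ.sqI
  obtain ⟨A1, hA1, hI⟩ := hI
  obtain ⟨A2, hA2, hJ⟩ := hJ
  set A := max A1 A2 with hA
  have hA1' : 1 ≤ A := hA1.trans (le_max_left _ _)
  have hI' := hI.mono hA1 (le_max_left A1 A2)
  have hJ' := hJ.mono hA2 (le_max_right A1 A2)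
  rw [← hA] at hI' hJ'
  have hle : A ≤ 4 * A := by omega
  have hAr : (1 : ℝ) ≤ A := by exact_mod_cast hA1'
  refine ⟨4 * A, by omega, (hIs.add hJs).1, (hIs.add hJs).2, fun ρ hρ => ?_⟩
  obtain ⟨J1, a1, a2, a3, a4, a5, a6⟩ := hI'.2.2 ρ hρ
  obtain ⟨J2, b1, b2, b3, b4, b5, b6⟩ := hJ'.2.2 ρ hρ
  have hJ1 : SqI p J1 := fa_sq a1 a2
  have hJ2 : SqI p J2 := fa_sq b1 b2
  have hexp := fa_exp hA1' hle ρ
  have hexp0 : 0 < Real.exp (-(ρ : ℝ) / A) := Real.exp_pos _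
  push_cast at hexp
  refine ⟨fun ω δ => J1 ω δ + J2 ω δ, fun δ => ?_, fun ω δ => ?_, fun ω δ h => ?_, fun ω δ h => ?_,
    ?_, ?_⟩
  · refine ((a1 δ).comp2 (fun x y => x + y) (b1 δ)).mono ?_
    exact_mod_cast EB_mono (fa_pow hle hρ) (0 : V d)
  · have h1 : |J1 ω δ + J2 ω δ| ≤ A * (ρ : ℝ) ^ A + A * (ρ : ℝ) ^ A :=
      (abs_add_le _ _).trans (add_le_add (a2 ω δ) (b2 ω δ))
    refine h1.trans ?_
    have h2 : (1 : ℝ) ≤ ρ := by exact_mod_cast hρ
    have h3 : (ρ : ℝ) ^ A ≤ (ρ : ℝ) ^ (4 * A) := pow_le_pow_right₀ h2 hle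
    have h4 : (0 : ℝ) ≤ (ρ : ℝ) ^ A := by positivity
    push_cast
    nlinarith
  · change J1 (sh (st δ) ω) (rv δ) + J2 (sh (st δ) ω) (rv δ) = -(J1 ω δ + J2 ω δ)
    rw [a3 ω δ h, b3 ω δ h]
    ring
  · change J1 ω δ + J2 ω δ = 0
    rw [a4 ω δ h, b4 ω δ h, add_zero]
  · have h1 : {ω : Om d | ∑ δ, (J1 ω δ + J2 ω δ) ≠ 0} ⊆
        {ω | ∑ δ, J1 ω δ ≠ 0} ∪ {ω | ∑ δ, J2 ω δ ≠ 0} := by
      intro ω hω
      by_contra h2
      rw [Set.mem_union, not_or] at h2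
      obtain ⟨h3, h4⟩ := h2
      have h3' : ∑ δ, J1 ω δ = 0 := not_not.1 h3
      have h4' : ∑ δ, J2 ω δ = 0 := not_not.1 h4
      apply hω
      rw [Finset.sum_add_distrib, h3', h4', add_zero]
    have h2 : (Pr d p).real {ω : Om d | ∑ δ, (J1 ω δ + J2 ω δ) ≠ 0} ≤
        A * Real.exp (-(ρ : ℝ) / A) + A * Real.exp (-(ρ : ℝ) / A) :=
      (measureReal_mono h1).trans ((measureReal_union_le _ _).trans (add_le_add a5 b5))
    refine h2.trans ?_
    push_cast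
    nlinarith
  · have e1 : SqI p (fun ω δ => J1 ω δ - I ω δ) := hJ1.sub hIs
    have e2 : SqI p (fun ω δ => J2 ω δ - J ω δ) := hJ2.sub hJs
    have e3 : SqI p (fun ω δ => (J1 ω δ - I ω δ) + (J2 ω δ - J ω δ)) := e1.add e2
    have h2 : ∫ ω, ∑ δ, oo ω δ * ((J1 ω δ + J2 ω δ) - (I ω δ + J ω δ)) ^ 2 ∂(nu d p) ≤
        ∫ ω, (2 * (∑ δ, oo ω δ * (J1 ω δ - I ω δ) ^ 2) +
          2 * (∑ δ, oo ω δ * (J2 ω δ - J ω δ) ^ 2)) ∂(nu d p) := by
      refine integral_mono_of_nonneg (Filter.Eventually.of_forall fun ω => ?_)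
        ((e1.2.const_mul 2).add (e2.2.const_mul 2)) (Filter.Eventually.of_forall fun ω => ?_)
      · exact Finset.sum_nonneg fun δ _ => mul_nonneg (fa_oo ω δ).1 (sq_nonneg _)
      · change ∑ δ, oo ω δ * ((J1 ω δ + J2 ω δ) - (I ω δ + J ω δ)) ^ 2 ≤
          2 * (∑ δ, oo ω δ * (J1 ω δ - I ω δ) ^ 2) + 2 * (∑ δ, oo ω δ * (J2 ω δ - J ω δ) ^ 2)
        rw [Finset.mul_sum, Finset.mul_sum, ← Finset.sum_add_distrib]
        refine Finset.sum_le_sum fun δ _ => ?_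
        have h3 := (fa_oo ω δ).1
        nlinarith [mul_nonneg h3 (sq_nonneg ((J1 ω δ - I ω δ) - (J2 ω δ - J ω δ)))]
    refine h2.trans ?_
    rw [integral_add (e1.2.const_mul 2) (e2.2.const_mul 2), integral_const_mul, integral_const_mul]
    push_cast
    nlinarith

theorem Adm.smul {I : Fld d} (hI : Adm p I) (c : ℝ) : Adm p (fun ω δ => c * I ω δ) := by
  have hIs := hI.sqI
  obtain ⟨A, hA, hI⟩ := hI
  obtain ⟨m, hm⟩ := exists_nat_ge ((1 + |c|) ^ 2)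
  have hc0 : 0 ≤ |c| := abs_nonneg c
  have hm1 : (1 : ℝ) ≤ m := by nlinarith
  have hmc : |c| ≤ m := by nlinarith
  have hmc2 : c ^ 2 ≤ m := by
    have : c ^ 2 = |c| ^ 2 := (sq_abs c).symm
    nlinarith
  have hm1' : 1 ≤ m := by exact_mod_cast hm1
  have hle : A ≤ A * m := Nat.le_mul_of_pos_right A hm1'
  have hAr : (1 : ℝ) ≤ A := by exact_mod_cast hA
  refine ⟨A * m, Nat.mul_pos hA hm1', (hIs.smul c).1, (hIs.smul c).2, fun ρ hρ => ?_⟩
  obtain ⟨J, a1, a2, a3, a4, a5, a6⟩ := hI.2.2 ρ hρ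
  have hexp := fa_exp hA hle ρ
  have hexp0 : 0 < Real.exp (-(ρ : ℝ) / A) := Real.exp_pos _
  refine ⟨fun ω δ => c * J ω δ, fun δ => ?_, fun ω δ => ?_, fun ω δ h => ?_, fun ω δ h => ?_,
    ?_, ?_⟩
  · refine ((a1 δ).comp2 (fun x _ => c * x) (a1 δ)).mono ?_
    exact_mod_cast EB_mono (fa_pow hle hρ) (0 : V d)
  · rw [abs_mul]
    have h2 : (1 : ℝ) ≤ ρ := by exact_mod_cast hρ
    have h3 : (ρ : ℝ) ^ A ≤ (ρ : ℝ) ^ (A * m) := pow_le_pow_right₀ h2 hle
    have h4 : (0 : ℝ) ≤ (ρ : ℝ) ^ A := by positivity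
    calc |c| * |J ω δ| ≤ m * (A * (ρ : ℝ) ^ A) :=
          mul_le_mul hmc (a2 ω δ) (abs_nonneg _) (by linarith)
      _ = (A * m) * (ρ : ℝ) ^ A := by ring
      _ ≤ (A * m) * (ρ : ℝ) ^ (A * m) := mul_le_mul_of_nonneg_left h3 (by positivity)
      _ = _ := by push_cast; rfl
  · change c * J (sh (st δ) ω) (rv δ) = -(c * J ω δ)
    rw [a3 ω δ h]
    ring
  · change c * J ω δ = 0
    rw [a4 ω δ h, mul_zero]
  · have h1 : {ω : Om d | ∑ δ, c * J ω δ ≠ 0} ⊆ {ω | ∑ δ, J ω δ ≠ 0} := by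
      intro ω hω h2
      apply hω
      rw [← Finset.mul_sum, h2, mul_zero]
    refine (measureReal_mono h1).trans (a5.trans ?_)
    push_cast at hexp ⊢
    refine mul_le_mul ?_ hexp hexp0.le (by positivity)
    nlinarith
  · have h2 : ∫ ω, ∑ δ, oo ω δ * (c * J ω δ - c * I ω δ) ^ 2 ∂(nu d p) =
        c ^ 2 * ∫ ω, ∑ δ, oo ω δ * (J ω δ - I ω δ) ^ 2 ∂(nu d p) := by
      rw [← integral_const_mul]
      refine integral_congr_ae (Filter.Eventually.of_forall fun ω => ?_)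
      change ∑ δ, oo ω δ * (c * J ω δ - c * I ω δ) ^ 2 =
        c ^ 2 * ∑ δ, oo ω δ * (J ω δ - I ω δ) ^ 2
      rw [Finset.mul_sum]
      exact Finset.sum_congr rfl fun δ _ => by ring
    rw [h2]
    have h0 : 0 ≤ ∫ ω, ∑ δ, oo ω δ * (J ω δ - I ω δ) ^ 2 ∂(nu d p) :=
      integral_nonneg fun ω => Finset.sum_nonneg fun δ _ => mul_nonneg (fa_oo ω δ).1 (sq_nonneg _)
    push_cast at hexp ⊢
    calc c ^ 2 * ∫ ω, ∑ δ, oo ω δ * (J ω δ - I ω δ) ^ 2 ∂(nu d p)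
        ≤ m * (A * Real.exp (-(ρ : ℝ) / A)) := mul_le_mul hmc2 a6 h0 (by linarith)
      _ = (A * m) * Real.exp (-(ρ : ℝ) / A) := by ring
      _ ≤ _ := mul_le_mul_of_nonneg_left hexp (by positivity)

theorem adm_orth {I : Fld d} (hI : Adm p I) (χ : Om d → ℝ) (hm : Measurable χ)
    (hb : ∃ B, ∀ ω, |χ ω| ≤ B) : ip p I (gr χ) = 0 := by
  have := fa_fin (d := d) p
  obtain ⟨B, hB⟩ := hb
  have hB0 : 0 ≤ B := (abs_nonneg _).trans (hB (fun _ => true))
  have hIs := hI.sqI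
  obtain ⟨A, hA, hI⟩ := hI
  have hAr : (1 : ℝ) ≤ A := by exact_mod_cast hA
  have hgr : SqI p (gr χ) := by
    refine SqI.of_bounded (fun δ => (hm.comp (measurable_sh (st δ))).sub hm) (2 * B) fun ω δ => ?_
    change |χ (sh (st δ) ω) - χ ω| ≤ _
    have h1 := abs_le.1 (hB (sh (st δ) ω))
    have h2 := abs_le.1 (hB ω)
    rw [abs_le]
    constructor <;> linarith
  set G := Real.sqrt (ip p (gr χ) (gr χ)) with hG
  have key : ∀ ρ : ℕ, 1 ≤ ρ → |ip p I (gr χ)| ≤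
      Real.sqrt (A * Real.exp (-(ρ : ℝ) / A)) * G +
      2 * (B * ((∑ _δ : Dir d, A * (ρ : ℝ) ^ A) * (A * Real.exp (-(ρ : ℝ) / A)))) := by
    intro ρ hρ
    obtain ⟨J, a1, a2, a3, a4, a5, a6⟩ := hI.2.2 ρ hρ
    have hJ : SqI p J := fa_sq a1 a2
    have hJm : ∀ δ, Measurable (fun ω => J ω δ) := fun δ => (a1 δ).measurable
    -- first term
    have h1 : |ip p (fun ω δ => J ω δ - I ω δ) (gr χ)| ≤ Real.sqrt (A * Real.exp (-(ρ : ℝ) / A)) * G := by
      refine (ip_cs (hJ.sub hIs) hgr).trans ?_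
      refine mul_le_mul_of_nonneg_right (Real.sqrt_le_sqrt ?_) (Real.sqrt_nonneg _)
      refine le_trans (le_of_eq ?_) a6
      unfold ip
      simp only [pow_two]
    -- the identity for the approximation
    have hJχ : SqI p (fun ω δ => J ω δ * χ (sh (st δ) ω)) := by
      refine SqI.of_bounded (fun δ => (hJm δ).mul (hm.comp (measurable_sh (st δ))))
        (A * (ρ : ℝ) ^ A * B) fun ω δ => ?_
      rw [abs_mul]
      exact mul_le_mul (a2 ω δ) (hB _) (abs_nonneg _) ((abs_nonneg _).trans (a2 ω δ))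
    have hint1 : Integrable (fun ω => ∑ δ, oo ω δ * |J ω δ * χ (sh (st δ) ω)|) (nu d p) := by
      have h2 : SqI p (fun ω δ => |J ω δ * χ (sh (st δ) ω)|) := by
        refine SqI.of_bounded (fun δ => ?_) (A * (ρ : ℝ) ^ A * B) fun ω δ => ?_
        · exact ((hJm δ).mul (hm.comp (measurable_sh (st δ)))).abs
        · rw [abs_abs, abs_mul]
          exact mul_le_mul (a2 ω δ) (hB _) (abs_nonneg _) ((abs_nonneg _).trans (a2 ω δ))
      have h3 : SqI p (fun (_ : Om d) (_ : Dir d) => (1 : ℝ)) :=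
        SqI.of_bounded (fun δ => measurable_const) 1 fun ω δ => by norm_num
      have h4 := h2.integrable_mul h3
      simpa only [mul_one] using h4
    have hrev := rev_int p (fun ω δ => J ω δ * χ (sh (st δ) ω))
      (fun δ => (hJm δ).mul (hm.comp (measurable_sh (st δ)))) hint1
    have hpt : ∀ ω : Om d, (∑ δ, oo ω δ * (J (sh (st δ) ω) (rv δ) *
        χ (sh (st (rv δ)) (sh (st δ) ω)))) = -(χ ω * ∑ δ, J ω δ) := by
      intro ω
      rw [Finset.mul_sum, ← Finset.sum_neg_distrib]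
      refine Finset.sum_congr rfl fun δ _ => ?_
      by_cases ho : opn ω 0 δ
      · rw [a3 ω δ ho, sh_sh, st_rv, neg_add_cancel, sh_zero]
        have : oo ω δ = 1 := by unfold oo; rw [if_pos ho]
        rw [this]
        ring
      · have h2 : oo ω δ = 0 := by unfold oo; rw [if_neg ho]
        rw [h2, a4 ω δ ho]
        ring
    have hpt2 : ∀ ω : Om d, (∑ δ, oo ω δ * (J ω δ * χ ω)) = χ ω * ∑ δ, J ω δ := by
      intro ω
      rw [Finset.mul_sum]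
      refine Finset.sum_congr rfl fun δ _ => ?_
      by_cases ho : opn ω 0 δ
      · have : oo ω δ = 1 := by unfold oo; rw [if_pos ho]
        rw [this]
        ring
      · have h2 : oo ω δ = 0 := by unfold oo; rw [if_neg ho]
        rw [h2, a4 ω δ ho]
        ring
    have hone : SqI p (fun (_ : Om d) (_ : Dir d) => (1 : ℝ)) :=
      SqI.of_bounded (fun δ => measurable_const) 1 fun ω δ => by norm_num
    have hJc : SqI p (fun ω δ => J ω δ * χ ω) := by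
      refine SqI.of_bounded (fun δ => (hJm δ).mul hm) (A * (ρ : ℝ) ^ A * B) fun ω δ => ?_
      rw [abs_mul]
      exact mul_le_mul (a2 ω δ) (hB _) (abs_nonneg _) ((abs_nonneg _).trans (a2 ω δ))
    have e1 : ip p J (gr χ) = (∫ ω, ∑ δ, oo ω δ * (J ω δ * χ (sh (st δ) ω)) ∂(nu d p)) -
        ∫ ω, ∑ δ, oo ω δ * (J ω δ * χ ω) ∂(nu d p) := by
      have i1 : Integrable (fun ω => ∑ δ, oo ω δ * (J ω δ * χ (sh (st δ) ω))) (nu d p) := by
        have := hJχ.integrable_mul hone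
        simpa only [mul_one] using this
      have i2 : Integrable (fun ω => ∑ δ, oo ω δ * (J ω δ * χ ω)) (nu d p) := by
        have := hJc.integrable_mul hone
        simpa only [mul_one] using this
      rw [← integral_sub i1 i2]
      unfold ip
      refine integral_congr_ae (Filter.Eventually.of_forall fun ω => ?_)
      change ∑ δ, oo ω δ * (J ω δ * (χ (sh (st δ) ω) - χ ω)) =
        (∑ δ, oo ω δ * (J ω δ * χ (sh (st δ) ω))) - ∑ δ, oo ω δ * (J ω δ * χ ω)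
      rw [← Finset.sum_sub_distrib]
      exact Finset.sum_congr rfl fun δ _ => by ring
    rw [hrev] at e1
    simp only [hpt, hpt2] at e1
    rw [integral_neg] at e1
    have e2 : ip p J (gr χ) = -(2 * ∫ ω, χ ω * ∑ δ, J ω δ ∂(nu d p)) := by
      rw [e1]; ring
    -- bound
    have hbd : |∫ ω, χ ω * ∑ δ, J ω δ ∂(nu d p)| ≤
        B * ((∑ _δ : Dir d, A * (ρ : ℝ) ^ A) * (A * Real.exp (-(ρ : ℝ) / A))) := by
      set E : Set (Om d) := {ω | ∑ δ, J ω δ ≠ 0} with hE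
      have hEm : MeasurableSet E := by
        have : Measurable (fun ω => ∑ δ, J ω δ) := Finset.measurable_sum _ fun δ _ => hJm δ
        exact (this (measurableSet_singleton 0)).compl
      have h3 : |∫ ω, χ ω * ∑ δ, J ω δ ∂(nu d p)| ≤
          ∫ ω, E.indicator (fun _ => B * ∑ _δ : Dir d, A * (ρ : ℝ) ^ A) ω ∂(nu d p) := by
        rw [← Real.norm_eq_abs]
        refine norm_integral_le_of_norm_le ?_ (Filter.Eventually.of_forall fun ω => ?_)
        · exact (integrable_const _).indicator hEm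
        · by_cases hω : ω ∈ E
          · rw [Set.indicator_of_mem hω, norm_mul, Real.norm_eq_abs, Real.norm_eq_abs]
            refine mul_le_mul (hB ω) ?_ (abs_nonneg _) hB0
            exact (Finset.abs_sum_le_sum_abs _ _).trans (Finset.sum_le_sum fun δ _ => a2 ω δ)
          · have h4 : ∑ δ, J ω δ = 0 := not_not.1 hω
            rw [Set.indicator_of_notMem hω, h4, mul_zero, norm_zero]
      refine h3.trans ?_
      rw [integral_indicator_const _ hEm, smul_eq_mul]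
      have h5 : (nu d p).real E ≤ (Pr d p).real E := by
        unfold nu
        refine ENNReal.toReal_mono (measure_ne_top _ _) (Measure.restrict_le_self _)
      have h6 : (nu d p).real E ≤ A * Real.exp (-(ρ : ℝ) / A) := h5.trans a5
      have h7 : 0 ≤ ∑ _δ : Dir d, A * (ρ : ℝ) ^ A := Finset.sum_nonneg fun δ _ => by positivity
      calc (nu d p).real E * (B * ∑ _δ : Dir d, A * (ρ : ℝ) ^ A)
          ≤ (A * Real.exp (-(ρ : ℝ) / A)) * (B * ∑ _δ : Dir d, A * (ρ : ℝ) ^ A) :=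
            mul_le_mul_of_nonneg_right h6 (mul_nonneg hB0 h7)
        _ = _ := by ring
    have e3 : ip p I (gr χ) = ip p J (gr χ) - ip p (fun ω δ => J ω δ - I ω δ) (gr χ) := by
      rw [ip_sub_left hJ hIs hgr]
      ring
    rw [e3]
    have h8 := abs_sub (ip p J (gr χ)) (ip p (fun ω δ => J ω δ - I ω δ) (gr χ))
    have h9 : |ip p J (gr χ)| = 2 * |∫ ω, χ ω * ∑ δ, J ω δ ∂(nu d p)| := by
      rw [e2, abs_neg, abs_mul, abs_two]
    linarith
  -- the limit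
  have hr : |Real.exp (-(1 : ℝ) / A)| < 1 := by
    rw [abs_of_pos (Real.exp_pos _)]
    have h1 : 0 < (1 : ℝ) / A := by positivity
    have h2 : -(1 : ℝ) / A < 0 := by
      rw [neg_div]
      linarith
    have h3 := Real.exp_lt_exp.2 h2
    rwa [Real.exp_zero] at h3
  have hexp : ∀ ρ : ℕ, Real.exp (-(ρ : ℝ) / A) = (Real.exp (-(1 : ℝ) / A)) ^ ρ := by
    intro ρ
    rw [← Real.exp_nat_mul]
    congr 1
    ring
  have hl1 : Tendsto (fun ρ : ℕ => Real.exp (-(ρ : ℝ) / A)) atTop (𝓝 0) := by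
    simp only [hexp]
    exact tendsto_pow_atTop_nhds_zero_of_abs_lt_one hr
  have hl2 : Tendsto (fun ρ : ℕ => (ρ : ℝ) ^ A * Real.exp (-(ρ : ℝ) / A)) atTop (𝓝 0) := by
    simp only [hexp]
    exact tendsto_pow_const_mul_const_pow_of_abs_lt_one A hr
  have hlim : Tendsto (fun ρ : ℕ => Real.sqrt (A * Real.exp (-(ρ : ℝ) / A)) * G +
      2 * (B * ((∑ _δ : Dir d, A * (ρ : ℝ) ^ A) * (A * Real.exp (-(ρ : ℝ) / A))))) atTop (𝓝 0) := by
    have h1 : Tendsto (fun ρ : ℕ => Real.sqrt (A * Real.exp (-(ρ : ℝ) / A)) * G) atTop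
        (𝓝 (Real.sqrt (A * 0) * G)) :=
      ((hl1.const_mul (A : ℝ)).sqrt).mul_const G
    have h2 : Tendsto (fun ρ : ℕ => 2 * (B * ((Fintype.card (Dir d) : ℝ) * A * A)) *
        ((ρ : ℝ) ^ A * Real.exp (-(ρ : ℝ) / A))) atTop
        (𝓝 (2 * (B * ((Fintype.card (Dir d) : ℝ) * A * A)) * 0)) := hl2.const_mul _
    have h3 := h1.add h2
    simp only [mul_zero, Real.sqrt_zero, zero_mul, add_zero] at h3
    refine h3.congr fun ρ => ?_
    rw [Finset.sum_const, nsmul_eq_mul, Finset.card_univ]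
    ring
  have h4 : |ip p I (gr χ)| ≤ 0 := by
    refine ge_of_tendsto hlim ?_
    filter_upwards [Filter.eventually_ge_atTop 1] with ρ hρ using key ρ hρ
  exact abs_eq_zero.1 (le_antisymm h4 (abs_nonneg _))

end Ein99
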