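import Pool.Agent.LibEin99.B_Upper
import Pool.Agent.LibEin99.F_Adm
import Pool.Agent.LibEin99.A_L

open MeasureTheory ProbabilityTheory Filter Topology

namespace Ein99

variable {d : ℕ} {p : unitInterval} {K : ℕ} {C c : ℝ}

/-! ### the annealed average -/

/-- the quenched occupation sum -/
noncomputable def blS (lam : ℝ) (l : Fin d → ℝ) (n : ℕ) (g : Om d → ℝ) (ω : Om d) : ℝ :=
  ∑ k ∈ Finset.range n, Pn lam l ω k (fun x => g (sh x ω)) 0

theorem bl_S_meas (lam : ℝ) (l : Fin d → ℝ) (n : ℕ) {g : Om d → ℝ} (hg : Measurable g) :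
    Measurable (blS lam l n g) := by
  refine Finset.measurable_sum _ fun j _ => ?_
  exact measurable_Pn lam l j (fun ω x => g (sh x ω)) (fun y => hg.comp (measurable_sh y)) 0

theorem bl_S_mono (lam : ℝ) (l : Fin d → ℝ) (n : ℕ) {g h : Om d → ℝ} (hgh : ∀ ω, g ω ≤ h ω)
    (ω : Om d) : blS lam l n g ω ≤ blS lam l n h ω :=
  Finset.sum_le_sum fun j _ => Pn_mono lam l ω j (fun x => hgh (sh x ω)) 0

theorem bl_S_const (lam : ℝ) (l : Fin d → ℝ) (n : ℕ) (c : ℝ) (ω : Om d) :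
    blS lam l n (fun _ => c) ω = n * c := by
  unfold blS
  simp only [Pn_const]
  rw [Finset.sum_const, Finset.card_range, nsmul_eq_mul]

theorem bl_S_add (lam : ℝ) (l : Fin d → ℝ) (n : ℕ) (g h : Om d → ℝ) (ω : Om d) :
    blS lam l n (fun ω => g ω + h ω) ω = blS lam l n g ω + blS lam l n h ω := by
  unfold blS
  rw [← Finset.sum_add_distrib]
  refine Finset.sum_congr rfl fun j _ => ?_
  have := Pn_add lam l ω j (fun x => g (sh x ω)) (fun x => h (sh x ω))
  have h2 := congrFun this 0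
  exact h2

theorem bl_S_smul (lam : ℝ) (l : Fin d → ℝ) (n : ℕ) (c : ℝ) (g : Om d → ℝ) (ω : Om d) :
    blS lam l n (fun ω => c * g ω) ω = c * blS lam l n g ω := by
  unfold blS
  rw [Finset.mul_sum]
  refine Finset.sum_congr rfl fun j _ => ?_
  have := Pn_smul lam l ω j c (fun x => g (sh x ω))
  have h2 := congrFun this 0
  exact h2

theorem bl_S_bound (lam : ℝ) (l : Fin d → ℝ) (n : ℕ) {g : Om d → ℝ} {M : ℝ} (hM : ∀ ω, |g ω| ≤ M)
    (ω : Om d) : |blS lam l n g ω| ≤ n * M := by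
  rw [abs_le]
  constructor
  · have := bl_S_mono lam l n (g := fun _ => -M) (h := g) (fun ω => (abs_le.mp (hM ω)).1) ω
    rw [bl_S_const] at this
    linarith
  · have := bl_S_mono lam l n (g := g) (h := fun _ => M) (fun ω => (abs_le.mp (hM ω)).2) ω
    rw [bl_S_const] at this
    exact this

theorem bl_S_int (lam : ℝ) (l : Fin d → ℝ) (n : ℕ) {g : Om d → ℝ} (hg : Measurable g) {M : ℝ}
    (hM : ∀ ω, |g ω| ≤ M) : Integrable (blS lam l n g) (nu d p) :=
  BSpeed_int (bl_S_meas lam l n hg) _ (bl_S_bound lam l n hM)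

theorem bl_Ann (lam : ℝ) (l : Fin d → ℝ) (n : ℕ) (g : Om d → ℝ) :
    Ann p lam l n g = (1 / (n : ℝ)) * ∫ ω, blS lam l n g ω ∂(nu d p) := rfl

theorem bl_Ann_mono (lam : ℝ) (l : Fin d → ℝ) (n : ℕ) {g h : Om d → ℝ} (hg : Measurable g)
    (hh : Measurable h) {M N : ℝ} (hM : ∀ ω, |g ω| ≤ M) (hN : ∀ ω, |h ω| ≤ N)
    (hgh : ∀ ω, g ω ≤ h ω) : Ann p lam l n g ≤ Ann p lam l n h := by
  rw [bl_Ann, bl_Ann]
  apply mul_le_mul_of_nonneg_left _ (by positivity)
  exact integral_mono (bl_S_int lam l n hg hM) (bl_S_int lam l n hh hN)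
    (bl_S_mono lam l n hgh)

theorem bl_Ann_add (lam : ℝ) (l : Fin d → ℝ) (n : ℕ) {g h : Om d → ℝ} (hg : Measurable g)
    (hh : Measurable h) {M N : ℝ} (hM : ∀ ω, |g ω| ≤ M) (hN : ∀ ω, |h ω| ≤ N) :
    Ann p lam l n (fun ω => g ω + h ω) = Ann p lam l n g + Ann p lam l n h := by
  rw [bl_Ann, bl_Ann, bl_Ann, ← mul_add, ← integral_add (bl_S_int lam l n hg hM)
    (bl_S_int lam l n hh hN)]
  simp only [bl_S_add]

theorem bl_Ann_smul (lam : ℝ) (l : Fin d → ℝ) (n : ℕ) (c : ℝ) (g : Om d → ℝ) :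
    Ann p lam l n (fun ω => c * g ω) = c * Ann p lam l n g := by
  rw [bl_Ann, bl_Ann]
  simp only [bl_S_smul]
  rw [integral_const_mul]
  ring

theorem bl_Ann_const (lam : ℝ) (l : Fin d → ℝ) (n : ℕ) (hn : 1 ≤ n) (c : ℝ) :
    Ann p lam l n (fun _ => c) = tha d p * c := by
  have := BSpeed_fin (d := d) (p := p)
  have hnp : (0 : ℝ) < n := by exact_mod_cast hn
  rw [bl_Ann]
  simp only [bl_S_const]
  rw [integral_const, smul_eq_mul]
  unfold tha
  field_simp

/-! ### the flow functions -/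

/-- the flow average -/
noncomputable def blh (lam : ℝ) (l : Fin d → ℝ) (J : Fld d) (ω : Om d) : ℝ :=
  (∑ δ, J ω δ * Real.exp (lam * dt l δ)) / Zw lam l ω 0

/-- the squared flow average -/
noncomputable def blh2 (lam : ℝ) (l : Fin d → ℝ) (J : Fld d) (ω : Om d) : ℝ :=
  (∑ δ, J ω δ ^ 2 * Real.exp (lam * dt l δ)) / Zw lam l ω 0

/-- the first order term -/
noncomputable def blh1 (lam : ℝ) (l : Fin d → ℝ) (J : Fld d) (ω : Om d) : ℝ :=
  (∑ δ, J ω δ * dt l δ) / Zw lam l ω 0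

theorem bl_supp (lam : ℝ) (l : Fin d → ℝ) {J : Fld d} (hS : Supp J) {ω : Om d}
    (h : Zw lam l ω 0 = 0) (δ : Dir d) : J ω δ = 0 :=
  hS ω δ ((Zw_eq_zero_iff lam l ω 0).1 h δ)

theorem bl_exp3 {x : ℝ} (h : |x| ≤ 1) : 1 / 3 ≤ Real.exp x ∧ Real.exp x ≤ 3 := by
  have h1 := (abs_le.mp h).1
  have h2 := (abs_le.mp h).2
  have e1 : Real.exp 1 ≤ 3 := by
    have := Real.exp_one_lt_d9
    linarith
  constructor
  · have h3 : Real.exp (-1) ≤ Real.exp x := Real.exp_le_exp.2 h1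
    have h4 : Real.exp (-1) = (Real.exp 1)⁻¹ := Real.exp_neg 1
    have h5 : (3 : ℝ)⁻¹ ≤ (Real.exp 1)⁻¹ := inv_anti₀ (Real.exp_pos 1) e1
    rw [h4] at h3
    linarith [h5]
  · exact (Real.exp_le_exp.2 h2).trans e1

theorem bl_Zw_lower (lam : ℝ) (h0 : 0 ≤ lam) (_ : lam ≤ 1) (l : Fin d → ℝ)
    (hl : ∑ i, l i ^ 2 = 1) {ω : Om d} (h : Zw lam l ω 0 ≠ 0) : 1 / 3 ≤ Zw lam l ω 0 := by
  have h2 : ¬ ∀ δ, ¬ opn ω 0 δ := fun h' => h ((Zw_eq_zero_iff lam l ω 0).2 h')
  push Not at h2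
  obtain ⟨δ, hδ⟩ := h2
  have h3 : wt lam l ω 0 δ ≤ Zw lam l ω 0 :=
    Finset.single_le_sum (f := fun δ => wt lam l ω 0 δ) (fun δ _ => wt_nonneg lam l ω 0 δ)
      (Finset.mem_univ δ)
  refine le_trans ?_ h3
  unfold wt
  rw [if_pos hδ]
  refine (bl_exp3 ?_).1
  rw [abs_mul, abs_of_nonneg h0]
  have := abs_dt_le l hl δ
  have h5 := abs_nonneg (dt l δ)
  nlinarith

theorem bl_div_le {a b M : ℝ} (hb : 1 / 3 ≤ b) (ha : |a| ≤ M) : |a / b| ≤ 3 * M := by
  have hb0 : 0 < b := by linarith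
  have hM : 0 ≤ M := (abs_nonneg a).trans ha
  rw [abs_div, abs_of_pos hb0, div_le_iff₀ hb0]
  nlinarith

theorem bl_lamdt {lam : ℝ} (h0 : 0 ≤ lam) (h1 : lam ≤ 1) (l : Fin d → ℝ)
    (hl : ∑ i, l i ^ 2 = 1) (δ : Dir d) : |lam * dt l δ| ≤ lam := by
  rw [abs_mul, abs_of_nonneg h0]
  exact mul_le_of_le_one_right h0 (abs_dt_le l hl δ)

/-- pointwise expansion -/
theorem bl_expand (lam : ℝ) (h0 : 0 ≤ lam) (h1 : lam ≤ 1) (l : Fin d → ℝ)
    (hl : ∑ i, l i ^ 2 = 1) {J : Fld d} (hS : Supp J) {M : ℝ} (hM : ∀ ω δ, |J ω δ| ≤ M)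
    (ω : Om d) : |blh lam l J ω - lam * blh1 lam l J ω| ≤
      6 * d * M * (Set.indicator {ω : Om d | ∑ δ, J ω δ ≠ 0} (fun _ => (1 : ℝ)) ω) +
      6 * d * M * lam ^ 2 := by
  have hM0 : 0 ≤ 6 * (d : ℝ) * M := by
    rcases Nat.eq_zero_or_pos d with h | h
    · subst h; simp
    · have : 0 ≤ M := (abs_nonneg _).trans (hM ω (⟨0, h⟩, true))
      positivity
  have hind : 0 ≤ Set.indicator {ω : Om d | ∑ δ, J ω δ ≠ 0} (fun _ => (1 : ℝ)) ω :=
    Set.indicator_nonneg (fun _ _ => zero_le_one) _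
  by_cases hz : Zw lam l ω 0 = 0
  · unfold blh blh1
    rw [hz, div_zero, div_zero, mul_zero, sub_zero, abs_zero]
    positivity
  have hZ := bl_Zw_lower lam h0 h1 l hl hz
  have e : blh lam l J ω - lam * blh1 lam l J ω =
      (∑ δ, J ω δ) / Zw lam l ω 0 +
      (∑ δ, J ω δ * (Real.exp (lam * dt l δ) - 1 - lam * dt l δ)) / Zw lam l ω 0 := by
    unfold blh blh1
    rw [← add_div, mul_div_assoc', ← sub_div]
    congr 1
    rw [Finset.mul_sum, ← Finset.sum_sub_distrib, ← Finset.sum_add_distrib]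
    exact Finset.sum_congr rfl fun δ _ => by ring
  rw [e]
  refine (abs_add_le _ _).trans (add_le_add ?_ ?_)
  · by_cases hJ : ∑ δ, J ω δ = 0
    · rw [hJ, zero_div, abs_zero]
      positivity
    · rw [Set.indicator_of_mem (by exact hJ), mul_one]
      have h3 : |∑ δ, J ω δ| ≤ 2 * d * M := by
        refine (Finset.abs_sum_le_sum_abs _ _).trans ?_
        calc ∑ δ, |J ω δ| ≤ ∑ _δ : Dir d, M := Finset.sum_le_sum fun δ _ => hM ω δ
          _ = 2 * d * M := by
            rw [Finset.sum_const, bu_card, nsmul_eq_mul]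
            push_cast
            ring
      refine (bl_div_le hZ h3).trans (le_of_eq ?_)
      ring
  · have h3 : |∑ δ, J ω δ * (Real.exp (lam * dt l δ) - 1 - lam * dt l δ)| ≤ 2 * d * M * lam ^ 2 := by
      refine (Finset.abs_sum_le_sum_abs _ _).trans ?_
      calc ∑ δ, |J ω δ * (Real.exp (lam * dt l δ) - 1 - lam * dt l δ)|
          ≤ ∑ _δ : Dir d, M * lam ^ 2 := by
            apply Finset.sum_le_sum
            intro δ _
            rw [abs_mul]
            have h4 := bl_lamdt h0 h1 l hl δ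
            have h5 := Real.abs_exp_sub_one_sub_id_le (h4.trans h1)
            have h6 : (lam * dt l δ) ^ 2 ≤ lam ^ 2 := by
              rw [← sq_abs]
              exact pow_le_pow_left₀ (abs_nonneg _) h4 2
            exact mul_le_mul (hM ω δ) (h5.trans h6) (abs_nonneg _)
              ((abs_nonneg _).trans (hM ω δ))
        _ = 2 * d * M * lam ^ 2 := by
            rw [Finset.sum_const, bu_card, nsmul_eq_mul]
            push_cast
            ring
    refine (bl_div_le hZ h3).trans (le_of_eq ?_)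
    ring

theorem bl_Zw_J (lam : ℝ) (l : Fin d → ℝ) (ω : Om d) :
    ∀ J : Fld d, Supp J → ∀ f : Dir d → ℝ, (∀ δ, J ω δ = 0 → f δ = 0) →
    ∑ δ, f δ * Real.exp (lam * dt l δ) = ∑ δ, wt lam l ω 0 δ * f δ := by
  intro J hS f hf
  refine Finset.sum_congr rfl fun δ _ => ?_
  unfold wt
  split_ifs with h
  · ring
  · rw [hf δ (hS ω δ h)]
    ring

theorem bl_h2_nonneg (lam : ℝ) (l : Fin d → ℝ) (J : Fld d) (ω : Om d) : 0 ≤ blh2 lam l J ω :=
  div_nonneg (Finset.sum_nonneg fun δ _ => by positivity) (Zw_nonneg lam l ω 0)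

theorem bl_h2_le (lam : ℝ) (l : Fin d → ℝ) {J : Fld d} (hS : Supp J) {M : ℝ}
    (hM : ∀ ω δ, |J ω δ| ≤ M) (ω : Om d) : blh2 lam l J ω ≤ M ^ 2 := by
  unfold blh2
  by_cases hz : Zw lam l ω 0 = 0
  · rw [hz, div_zero]
    positivity
  have hz0 : 0 < Zw lam l ω 0 := lt_of_le_of_ne (Zw_nonneg lam l ω 0) (Ne.symm hz)
  rw [div_le_iff₀ hz0, bl_Zw_J lam l ω J hS (fun δ => J ω δ ^ 2) (fun δ h => by rw [h]; ring)]
  unfold Zw
  rw [Finset.mul_sum]
  apply Finset.sum_le_sum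
  intro δ _
  rw [mul_comm]
  apply mul_le_mul_of_nonneg_right _ (wt_nonneg lam l ω 0 δ)
  rw [← sq_abs]
  exact pow_le_pow_left₀ (abs_nonneg _) (hM ω δ) 2

theorem bl_h_le (lam : ℝ) (l : Fin d → ℝ) {J : Fld d} (hS : Supp J) {M : ℝ} (hM0 : 0 ≤ M)
    (hM : ∀ ω δ, |J ω δ| ≤ M) (ω : Om d) : |blh lam l J ω| ≤ M := by
  unfold blh
  by_cases hz : Zw lam l ω 0 = 0
  · rw [hz, div_zero, abs_zero]
    exact hM0
  have hz0 : 0 < Zw lam l ω 0 := lt_of_le_of_ne (Zw_nonneg lam l ω 0) (Ne.symm hz)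
  rw [abs_div, abs_of_pos hz0, div_le_iff₀ hz0,
    bl_Zw_J lam l ω J hS (fun δ => J ω δ) (fun δ h => h)]
  refine (Finset.abs_sum_le_sum_abs _ _).trans ?_
  unfold Zw
  rw [Finset.mul_sum]
  apply Finset.sum_le_sum
  intro δ _
  rw [abs_mul, abs_of_nonneg (wt_nonneg lam l ω 0 δ), mul_comm]
  exact mul_le_mul_of_nonneg_right (hM ω δ) (wt_nonneg lam l ω 0 δ)

theorem bl_h1_le (lam : ℝ) (h0 : 0 ≤ lam) (h1 : lam ≤ 1) (l : Fin d → ℝ)
    (hl : ∑ i, l i ^ 2 = 1) {J : Fld d} {M : ℝ} (hM0 : 0 ≤ M)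
    (hM : ∀ ω δ, |J ω δ| ≤ M) (ω : Om d) : |blh1 lam l J ω| ≤ 6 * d * M := by
  unfold blh1
  by_cases hz : Zw lam l ω 0 = 0
  · rw [hz, div_zero, abs_zero]
    positivity
  have hZ := bl_Zw_lower lam h0 h1 l hl hz
  have h3 : |∑ δ, J ω δ * dt l δ| ≤ 2 * d * M := by
    refine (Finset.abs_sum_le_sum_abs _ _).trans ?_
    calc ∑ δ, |J ω δ * dt l δ| ≤ ∑ _δ : Dir d, M := by
          apply Finset.sum_le_sum
          intro δ _
          rw [abs_mul]
          calc |J ω δ| * |dt l δ| ≤ M * 1 :=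
                mul_le_mul (hM ω δ) (abs_dt_le l hl δ) (abs_nonneg _) hM0
            _ = M := mul_one M
      _ = 2 * d * M := by
        rw [Finset.sum_const, bu_card, nsmul_eq_mul]
        push_cast
        ring
  refine (bl_div_le hZ h3).trans (le_of_eq ?_)
  ring

theorem bl_loc_gen (lam : ℝ) (l : Fin d → ℝ) {J : Fld d} {r : ℕ}
    (hL : ∀ δ, Loc (EB r (0 : V d) : Set (Ed d)) (fun ω => J ω δ)) (F : (Dir d → ℝ) → ℝ) :
    Loc (EB (r + 1) (0 : V d) : Set (Ed d)) (fun ω => F (J ω) / Zw lam l ω 0) := by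
  intro ω ω' h
  have h1 : J ω = J ω' := by
    funext δ
    exact hL δ ω ω' (fun e he => h e (EB_mono (by omega) 0 he))
  have h2 : Zw lam l ω 0 = Zw lam l ω' 0 :=
    Loc_Zw lam l 0 ω ω' (fun e he => h e (EB_mono (by omega) 0 he))
  simp only [h1, h2]

theorem bl_loc_h (lam : ℝ) (l : Fin d → ℝ) {J : Fld d} {r : ℕ}
    (hL : ∀ δ, Loc (EB r (0 : V d) : Set (Ed d)) (fun ω => J ω δ)) :
    Loc (EB (r + 1) (0 : V d) : Set (Ed d)) (blh lam l J) :=
  bl_loc_gen lam l hL (fun u => ∑ δ, u δ * Real.exp (lam * dt l δ))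

theorem bl_loc_h1 (lam : ℝ) (l : Fin d → ℝ) {J : Fld d} {r : ℕ}
    (hL : ∀ δ, Loc (EB r (0 : V d) : Set (Ed d)) (fun ω => J ω δ)) :
    Loc (EB (r + 1) (0 : V d) : Set (Ed d)) (blh1 lam l J) :=
  bl_loc_gen lam l hL (fun u => ∑ δ, u δ * dt l δ)

theorem bl_loc_h2 (lam : ℝ) (l : Fin d → ℝ) {J : Fld d} {r : ℕ}
    (hL : ∀ δ, Loc (EB r (0 : V d) : Set (Ed d)) (fun ω => J ω δ)) :
    Loc (EB (r + 1) (0 : V d) : Set (Ed d)) (blh2 lam l J) :=
  bl_loc_gen lam l hL (fun u => ∑ δ, u δ ^ 2 * Real.exp (lam * dt l δ))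

/-- the pointwise inequality -/
theorem low_point (d : ℕ) : ∃ C : ℝ, 0 < C ∧ ∀ (lam : ℝ) (l : Fin d → ℝ) (ω : Om d) (n : ℕ)
    (J : Fld d) (M a : ℝ),
    0 < lam → lam ≤ 1 → ∑ i, l i ^ 2 = 1 → 1 ≤ n → 0 ≤ M → (∀ ω δ, |J ω δ| ≤ M) → Anti J →
    Supp J → 0 < a →
    |blS lam l n (blh lam l J) ω| ≤ C * M +
      (a * (lam * DD lam l ω n 0 + C * Real.log (n + 2)) +
        (blS lam l n (blh2 lam l J) ω + C * M ^ 2) / a) / 2 := by
  obtain ⟨C1, hC1, H1⟩ := test_flow d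
  obtain ⟨C2, hC2, H2⟩ := DD_le d
  refine ⟨C1 + C2, by positivity, ?_⟩
  intro lam l ω n J M a h0 h1 hl hn hM0 hM hA hS ha
  have hlog : 0 ≤ Real.log ((n : ℝ) + 2) := by
    apply Real.log_nonneg
    have : (0 : ℝ) ≤ n := Nat.cast_nonneg n
    linarith
  have hT := H1 lam l ω n 0 h0.le h1 hl hn (fun x δ => J (sh x ω) δ) M hM0
    (fun x δ => hM _ _) (by
      intro x δ
      have e : sh (x + st δ) ω = sh (st δ) (sh x ω) := by rw [sh_sh, add_comm]
      rw [e]
      by_cases ho : opn (sh x ω) 0 δ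
      · exact hA _ _ ho
      · rw [hS _ _ ho, neg_zero]
        apply hS
        rw [opn_sh, zero_add]
        have h3 := opn_rv (sh x ω) 0 δ
        rw [zero_add] at h3
        exact fun h4 => ho (h3.1 h4)) (by
      intro x δ ho
      apply hS
      rw [opn_sh, zero_add]
      exact ho)
  have hX2 := (H2 lam l ω n 0 h0.le h1 hl hn).2
  have e1 : (fun x : V d => (∑ δ, J (sh x ω) δ * Real.exp (lam * dt l δ)) / Zw lam l ω x) =
      fun x => blh lam l J (sh x ω) := by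
    funext x
    unfold blh
    rw [Zw_sh, zero_add]
  have e2 : (fun x : V d => (∑ δ, J (sh x ω) δ ^ 2 * Real.exp (lam * dt l δ)) / Zw lam l ω x) =
      fun x => blh2 lam l J (sh x ω) := by
    funext x
    unfold blh2
    rw [Zw_sh, zero_add]
  simp only [e1, e2] at hT
  change |blS lam l n (blh lam l J) ω| ≤ C1 * M + Real.sqrt
    ((lam * DD lam l ω n 0 + C1 * Real.log (n + 2)) *
      (blS lam l n (blh2 lam l J) ω + C1 * M ^ 2)) at hT
  set L := Real.log ((n : ℝ) + 2) with hL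
  have hS0 : 0 ≤ blS lam l n (blh2 lam l J) ω :=
    Finset.sum_nonneg fun j _ => Pn_nonneg lam l ω j (fun x => bl_h2_nonneg lam l J (sh x ω)) 0
  set X := lam * DD lam l ω n 0 + (C1 + C2) * L with hX
  set Y := blS lam l n (blh2 lam l J) ω + (C1 + C2) * M ^ 2 with hY
  have hX0 : 0 ≤ X := by
    have : 0 ≤ C1 * L := by positivity
    rw [hX]
    linarith
  have hY0 : 0 ≤ Y := by rw [hY]; positivity
  have hsq : Real.sqrt ((lam * DD lam l ω n 0 + C1 * L) *
      (blS lam l n (blh2 lam l J) ω + C1 * M ^ 2)) ≤ (a * X + Y / a) / 2 := by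
    have hb : 0 ≤ (a * X + Y / a) / 2 := by positivity
    have hle : (lam * DD lam l ω n 0 + C1 * L) *
        (blS lam l n (blh2 lam l J) ω + C1 * M ^ 2) ≤ X * Y := by
      apply mul_le_mul
      · have : 0 ≤ C2 * L := by positivity
        rw [hX]
        linarith
      · have : (0 : ℝ) ≤ C2 * M ^ 2 := by positivity
        rw [hY]
        linarith
      · positivity
      · exact hX0
    rw [Real.sqrt_le_left hb]
    refine hle.trans ?_
    have e : X * Y = (a * X) * (Y / a) := by field_simp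
    rw [e]
    nlinarith [sq_nonneg (a * X - Y / a)]
  have h5 : (0 : ℝ) ≤ C2 * M := by positivity
  linarith

theorem bl_int3 (c0 α β : ℝ) {f g : Om d → ℝ} (hf : Integrable f (nu d p))
    (hg : Integrable g (nu d p)) : ∫ ω, (c0 + α * f ω + β * g ω) ∂(nu d p) =
      tha d p * c0 + α * ∫ ω, f ω ∂(nu d p) + β * ∫ ω, g ω ∂(nu d p) := by
  have := BSpeed_fin (d := d) (p := p)
  have e1 : Integrable (fun ω => c0 + α * f ω) (nu d p) :=
    (integrable_const c0).add (hf.const_mul α)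
  rw [integral_add e1 (hg.const_mul β), integral_add (integrable_const c0) (hf.const_mul α),
    integral_const, integral_const_mul, integral_const_mul, smul_eq_mul]
  rfl

/-- the limit in `n` -/
theorem bl_limit (l : Fin d → ℝ) (hl : ∑ i, l i ^ 2 = 1) (lam : ℝ) (h0 : 0 < lam)
    (h1 : lam ≤ 1) (v : ℝ) (hv : IsSpeed d p lam l v) {J : Fld d} {r : ℕ} {M : ℝ}
    (hL : ∀ δ, Loc (EB r (0 : V d) : Set (Ed d)) (fun ω => J ω δ)) (hM0 : 0 ≤ M)
    (hM : ∀ ω δ, |J ω δ| ≤ M) (hA : Anti J) (hS : Supp J) (A0 B : ℝ)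
    (hB : ∃ n0 : ℕ, ∀ n : ℕ, n0 ≤ n →
      A0 ≤ |Ann p lam l n (blh lam l J)| ∧ Ann p lam l n (blh2 lam l J) ≤ B) (a : ℝ) (ha : 0 < a) :
    2 * A0 ≤ a * (lam * (tha d p * v)) + B / a := by
  have := BSpeed_fin (d := d) (p := p)
  obtain ⟨C, hC, hpt⟩ := low_point d
  obtain ⟨n0, hn0⟩ := hB
  have hlim := speed_lim lam l hl v hv
  set c1 : ℝ := tha d p * (2 * (C * M) + C * M ^ 2 / a) with hc1
  have hlim2 : Tendsto (fun n : ℕ => c1 * (1 / (n : ℝ)) +
      (a * tha d p * C) * (Real.log ((n : ℝ) + 2) / n) +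
      (a * lam * ((1 / (n : ℝ)) * ∫ ω, DD lam l ω n 0 ∂(nu d p)) + B / a)) atTop
      (𝓝 (a * lam * (tha d p * v) + B / a)) := by
    have a1 : Tendsto (fun n : ℕ => c1 * (1 / (n : ℝ))) atTop (𝓝 0) := by
      have := tendsto_one_div_atTop_nhds_zero_nat.const_mul c1
      rwa [mul_zero] at this
    have a2 : Tendsto (fun n : ℕ => (a * tha d p * C) * (Real.log ((n : ℝ) + 2) / n)) atTop
        (𝓝 0) := by
      have := BSpeed_log_div.const_mul (a * tha d p * C)
      rwa [mul_zero] at this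
    have a3 := (hlim.const_mul (a * lam)).add_const (B / a)
    have := (a1.add a2).add a3
    rwa [zero_add, zero_add] at this
  have hkey : 2 * A0 ≤ a * lam * (tha d p * v) + B / a := by
    apply ge_of_tendsto hlim2
    filter_upwards [eventually_ge_atTop (max n0 1)] with n hn
    have hn0' : n0 ≤ n := (le_max_left _ _).trans hn
    have hn1 : 1 ≤ n := (le_max_right _ _).trans hn
    have hnp : (0 : ℝ) < n := by exact_mod_cast hn1
    obtain ⟨g1, g2⟩ := hn0 n hn0'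
    have hi1 : Integrable (fun ω : Om d => DD lam l ω n 0) (nu d p) :=
      BSpeed_int (measurable_DD lam l n 0) n (fun ω => abs_DD_le lam l hl ω n 0)
    have m1 : Measurable (blh lam l J) := Loc.measurable _ (bl_loc_h lam l hL)
    have m2 : Measurable (blh2 lam l J) := Loc.measurable _ (bl_loc_h2 lam l hL)
    have i1 : Integrable (blS lam l n (blh lam l J)) (nu d p) :=
      bl_S_int lam l n m1 (bl_h_le lam l hS hM0 hM)
    have i2 : Integrable (blS lam l n (blh2 lam l J)) (nu d p) :=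
      bl_S_int lam l n m2 (M := M ^ 2) (fun ω => by
        rw [abs_of_nonneg (bl_h2_nonneg lam l J ω)]
        exact bl_h2_le lam l hS hM ω)
    have h4 : |∫ ω, blS lam l n (blh lam l J) ω ∂(nu d p)| ≤
        ∫ ω, (C * M + (a * C * Real.log (n + 2)) / 2 + C * M ^ 2 / (2 * a)
          + (a * lam / 2) * DD lam l ω n 0 + (1 / (2 * a)) * blS lam l n (blh2 lam l J) ω)
          ∂(nu d p) := by
      refine (abs_integral_le_integral_abs).trans ?_
      apply integral_mono i1.abs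
        (((integrable_const _).add (hi1.const_mul _)).add (i2.const_mul _))
      intro ω
      refine (hpt lam l ω n J M a h0 h1 hl hn1 hM0 hM hA hS ha).trans (le_of_eq ?_)
      simp only [Pi.add_apply]
      field_simp
      ring
    have h5 : ∫ ω, (C * M + (a * C * Real.log (n + 2)) / 2 + C * M ^ 2 / (2 * a)
          + (a * lam / 2) * DD lam l ω n 0 + (1 / (2 * a)) * blS lam l n (blh2 lam l J) ω)
          ∂(nu d p) =
        tha d p * (C * M + (a * C * Real.log (n + 2)) / 2 + C * M ^ 2 / (2 * a)) +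
        (a * lam / 2) * ∫ ω, DD lam l ω n 0 ∂(nu d p) +
        (1 / (2 * a)) * ∫ ω, blS lam l n (blh2 lam l J) ω ∂(nu d p) := by
      exact bl_int3 _ _ _ hi1 i2
    rw [h5] at h4
    have h6 : |Ann p lam l n (blh lam l J)| =
        (1 / (n : ℝ)) * |∫ ω, blS lam l n (blh lam l J) ω ∂(nu d p)| := by
      rw [bl_Ann, abs_mul, abs_of_nonneg (by positivity : (0 : ℝ) ≤ 1 / n)]
    rw [h6] at g1
    rw [bl_Ann] at g2
    have h7 := mul_le_mul_of_nonneg_left h4 (by positivity : (0 : ℝ) ≤ 1 / n)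
    have h8 := g1.trans h7
    have h9 : (1 / (n : ℝ)) * (tha d p * (C * M + (a * C * Real.log (n + 2)) / 2
        + C * M ^ 2 / (2 * a)) +
        (a * lam / 2) * ∫ ω, DD lam l ω n 0 ∂(nu d p) +
        (1 / (2 * a)) * ∫ ω, blS lam l n (blh2 lam l J) ω ∂(nu d p)) =
        (c1 * (1 / (n : ℝ)) + (a * tha d p * C) * (Real.log ((n : ℝ) + 2) / n) +
        a * lam * ((1 / (n : ℝ)) * ∫ ω, DD lam l ω n 0 ∂(nu d p)) +
        ((1 / (n : ℝ)) * ∫ ω, blS lam l n (blh2 lam l J) ω ∂(nu d p)) / a) / 2 := by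
      rw [hc1]
      field_simp
      ring
    rw [h9] at h8
    have h10 : ((1 / (n : ℝ)) * ∫ ω, blS lam l n (blh2 lam l J) ω ∂(nu d p)) / a ≤ B / a :=
      div_le_div_of_nonneg_right g2 ha.le
    linarith
  calc 2 * A0 ≤ a * lam * (tha d p * v) + B / a := hkey
    _ = _ := by ring

/-- optimisation of the parameter -/
theorem bl_opt {A0 X B : ℝ} (hA : 0 ≤ A0) (hX : 0 ≤ X) (h : ∀ a : ℝ, 0 < a → 2 * A0 ≤ a * X + B / a) :
    A0 ^ 2 ≤ X * B := by
  rcases hA.eq_or_lt with h0 | h0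
  · -- `A0 = 0`
    rw [← h0]
    have hB : 0 ≤ B := by
      by_contra hB
      push Not at hB
      rcases hX.eq_or_lt with hX0 | hX0
      · have := h 1 one_pos
        rw [← hX0, ← h0] at this
        linarith
      · -- choose a with a * X < -B / a
        have h2 := h (Real.sqrt (-B / (2 * X))) (Real.sqrt_pos.2 (by
          apply div_pos <;> linarith))
        set s := Real.sqrt (-B / (2 * X)) with hs
        have hs2 : s ^ 2 = -B / (2 * X) := Real.sq_sqrt (by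
          apply div_nonneg <;> linarith)
        have hs0 : 0 < s := Real.sqrt_pos.2 (by apply div_pos <;> linarith)
        have h3 : 0 ≤ s * (s * X + B / s) := by
          apply mul_nonneg hs0.le
          linarith
        have h4 : s * (s * X + B / s) = s ^ 2 * X + B := by field_simp
        rw [h4, hs2] at h3
        have h5 : -B / (2 * X) * X = -B / 2 := by field_simp
        rw [h5] at h3
        linarith
    have := mul_nonneg hX hB
    simpa using this
  · rcases hX.eq_or_lt with hX0 | hX0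
    · exfalso
      have hB0 : 0 ≤ |B| := abs_nonneg B
      have h2 := h ((|B| + 1) / A0) (by positivity)
      rw [← hX0, mul_zero, zero_add, div_div_eq_mul_div, le_div_iff₀ (by positivity)] at h2
      have h3 : B ≤ |B| := le_abs_self B
      nlinarith
    · have h2 := h (A0 / X) (by positivity)
      have h3 : A0 / X * X = A0 := by field_simp
      have h4 : B / (A0 / X) = B * X / A0 := by field_simp
      rw [h3, h4] at h2
      have h5 : A0 ≤ B * X / A0 := by linarith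
      rw [le_div_iff₀ h0] at h5
      nlinarith

end Ein99
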