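import Pool.Agent.LibEin99.B_Low1

open MeasureTheory ProbabilityTheory Filter Topology

namespace Ein99

variable {d : ℕ} {p : unitInterval} {K : ℕ} {C c : ℝ}

/-! ### choice of the scale -/

/-- the exponent of the scale -/
def blN (d A : ℕ) : ℕ := 80 * (A + 1) * (d + 1)

/-- the real scale -/
noncomputable def blt (d A : ℕ) (lam : ℝ) : ℝ := lam ^ (-(1 / (blN d A : ℝ)))

/-- the integer scale -/
noncomputable def blr (d A : ℕ) (lam : ℝ) : ℕ := ⌊blt d A lam⌋₊ + 1

theorem blN_pos (d A : ℕ) : (0 : ℝ) < blN d A := by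
  have : 0 < blN d A := by unfold blN; positivity
  exact_mod_cast this

theorem blt_tendsto (d A : ℕ) : Tendsto (blt d A) (𝓝[>] 0) atTop := by
  have h := blN_pos d A
  have h2 : -(1 / (blN d A : ℝ)) < 0 := by
    have : 0 < 1 / (blN d A : ℝ) := by positivity
    linarith
  exact tendsto_rpow_neg_nhdsGT_zero h2

theorem blt_pow (d A : ℕ) {lam : ℝ} (h0 : 0 < lam) : blt d A lam ^ (blN d A) = lam⁻¹ := by
  have h := blN_pos d A
  unfold blt
  rw [← Real.rpow_natCast, ← Real.rpow_mul h0.le, ← Real.rpow_neg_one]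
  congr 1
  field_simp

theorem blt_aexp (d A : ℕ) {lam : ℝ} (h0 : 0 < lam) :
    lam ^ (-aexp d) = blt d A lam ^ (4 * (A + 1)) := by
  unfold blt
  rw [← Real.rpow_natCast, ← Real.rpow_mul h0.le]
  congr 1
  unfold aexp blN
  push_cast
  field_simp
  ring

theorem blr_tendsto (d A : ℕ) : Tendsto (blr d A) (𝓝[>] 0) atTop := by
  unfold blr
  exact tendsto_atTop_mono (fun x => Nat.le_succ _)
    (tendsto_nat_floor_atTop.comp (blt_tendsto d A))

theorem bl_expo (m A : ℕ) (hA : 1 ≤ A) (c2 : ℝ) :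
    Tendsto (fun t : ℝ => c2 * (t ^ m * Real.exp (-(t / (2 * A))))) atTop (𝓝 0) := by
  have hA' : (0 : ℝ) < A := by exact_mod_cast hA
  have h1 := Real.tendsto_pow_mul_exp_neg_atTop_nhds_zero m
  have h2 : Tendsto (fun t : ℝ => t / (2 * A)) atTop atTop :=
    tendsto_id.atTop_div_const (by positivity)
  have h3 := (h1.comp h2).const_mul (c2 * (2 * (A : ℝ)) ^ m)
  rw [mul_zero] at h3
  refine h3.congr fun t => ?_
  simp only [Function.comp]
  rw [div_pow]
  field_simp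

theorem bl_small (d A : ℕ) (hA : 1 ≤ A) (A' ε1 : ℝ) (hA' : 0 < A') (hε : 0 < ε1) :
    ∀ᶠ lam : ℝ in 𝓝[>] 0,
      ((A * blr d A lam ^ A + 1 : ℕ) : ℝ) ≤ lam ^ (-aexp d) ∧
      6 * ((d : ℝ) + 1) * ((A : ℝ) * (blr d A lam : ℝ) ^ A) ^ 2 + 1 ≤ lam ^ (-aexp d) ∧
      6 * (d : ℝ) * ((A : ℝ) * (blr d A lam : ℝ) ^ A) * lam ≤ ε1 ∧
      6 * (d : ℝ) * ((A : ℝ) * (blr d A lam : ℝ) ^ A) *
        (A' * (((A * blr d A lam ^ A : ℕ) : ℝ) + 1) ^ d / lam ^ (d + 1) *
          Real.sqrt (A * Real.exp (-(blr d A lam : ℝ) / A))) ≤ ε1 * lam := by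
  have hAr : (1 : ℝ) ≤ A := by exact_mod_cast hA
  have hd0 : (0 : ℝ) ≤ d := Nat.cast_nonneg d
  set c1 : ℝ := A * 2 ^ A with hc1
  have hc1p : 0 < c1 := by rw [hc1]; positivity
  set c2 : ℝ := 6 * d * c1 * (A' * (c1 + 1) ^ d * Real.sqrt A) with hc2
  set m : ℕ := A + A * d + blN d A * (d + 2) with hm
  have hE : ∀ᶠ t : ℝ in atTop, c2 * (t ^ m * Real.exp (-(t / (2 * A)))) ≤ ε1 :=
    (bl_expo m A hA c2).eventually (eventually_le_nhds hε)
  have hT : ∀ᶠ t : ℝ in atTop, 6 * ((d : ℝ) + 1) * c1 ^ 2 + c1 + 1 + 6 * d * c1 / ε1 ≤ t :=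
    eventually_ge_atTop _
  have hev := (blt_tendsto d A).eventually (hE.and hT)
  have hpos : ∀ᶠ lam : ℝ in 𝓝[>] 0, 0 < lam := eventually_mem_nhdsWithin
  filter_upwards [hev, hpos] with lam hlam h0
  obtain ⟨b1, b2⟩ := hlam
  set t := blt d A lam with ht
  have hq : 0 ≤ 6 * d * c1 / ε1 := by positivity
  have hq2 : 0 ≤ 6 * ((d : ℝ) + 1) * c1 ^ 2 := by positivity
  have ht1 : 1 ≤ t := by linarith
  have ht0 : 0 < t := by linarith
  have hr1 : t ≤ (blr d A lam : ℝ) := by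
    unfold blr
    push_cast
    exact (Nat.lt_floor_add_one _).le
  have hr2 : (blr d A lam : ℝ) ≤ 2 * t := by
    unfold blr
    push_cast
    have := Nat.floor_le ht0.le
    linarith
  set r : ℝ := (blr d A lam : ℝ) with hr
  have hr0 : 0 < r := by linarith
  set M : ℝ := A * r ^ A with hM
  have hM0 : 0 ≤ M := by positivity
  have hMle : M ≤ c1 * t ^ A := by
    calc M ≤ A * (2 * t) ^ A := by
          apply mul_le_mul_of_nonneg_left _ (by positivity)
          exact pow_le_pow_left₀ hr0.le hr2 A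
      _ = c1 * t ^ A := by rw [hc1, mul_pow]; ring
  have htA : 1 ≤ t ^ A := one_le_pow₀ ht1
  have hM1 : M + 1 ≤ (c1 + 1) * t ^ A := by nlinarith
  have hcast : ((A * blr d A lam ^ A : ℕ) : ℝ) = M := by
    push_cast
    rfl
  have hinv : t ^ (blN d A) = lam⁻¹ := blt_pow d A h0
  have haexp : lam ^ (-aexp d) = t ^ (4 * (A + 1)) := blt_aexp d A h0
  refine ⟨?_, ?_, ?_, ?_⟩
  · rw [haexp]
    have e : ((A * blr d A lam ^ A + 1 : ℕ) : ℝ) = M + 1 := by
      push_cast
      rfl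
    rw [e]
    calc M + 1 ≤ (c1 + 1) * t ^ A := hM1
      _ ≤ t * t ^ A := by
        apply mul_le_mul_of_nonneg_right _ (by positivity)
        linarith
      _ = t ^ (A + 1) := by ring
      _ ≤ t ^ (4 * (A + 1)) := pow_le_pow_right₀ ht1 (by omega)
  · rw [haexp]
    have e1 : M ^ 2 ≤ c1 ^ 2 * t ^ (2 * A) := by
      calc M ^ 2 ≤ (c1 * t ^ A) ^ 2 := pow_le_pow_left₀ hM0 hMle 2
        _ = c1 ^ 2 * t ^ (2 * A) := by rw [mul_pow, ← pow_mul]; ring_nf
    have h2A : 1 ≤ t ^ (2 * A) := one_le_pow₀ ht1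
    calc 6 * ((d : ℝ) + 1) * M ^ 2 + 1 ≤ 6 * ((d : ℝ) + 1) * (c1 ^ 2 * t ^ (2 * A)) + t ^ (2 * A) := by
          apply add_le_add _ h2A
          exact mul_le_mul_of_nonneg_left e1 (by positivity)
      _ = (6 * ((d : ℝ) + 1) * c1 ^ 2 + 1) * t ^ (2 * A) := by ring
      _ ≤ t * t ^ (2 * A) := by
        apply mul_le_mul_of_nonneg_right _ (by positivity)
        linarith
      _ = t ^ (2 * A + 1) := by ring
      _ ≤ t ^ (4 * (A + 1)) := pow_le_pow_right₀ ht1 (by omega)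
  · have e1 : lam = 1 / t ^ (blN d A) := by
      rw [hinv, one_div, inv_inv]
    have e2 : t ^ A * lam ≤ 1 / t := by
      rw [e1, mul_one_div, div_le_div_iff₀ (by positivity) ht0, ← pow_succ, one_mul]
      apply pow_le_pow_right₀ ht1
      unfold blN
      nlinarith
    calc 6 * (d : ℝ) * M * lam ≤ 6 * (d : ℝ) * (c1 * t ^ A) * lam := by
          apply mul_le_mul_of_nonneg_right _ h0.le
          exact mul_le_mul_of_nonneg_left hMle (by positivity)
      _ = 6 * (d : ℝ) * c1 * (t ^ A * lam) := by ring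
      _ ≤ 6 * (d : ℝ) * c1 * (1 / t) := mul_le_mul_of_nonneg_left e2 (by positivity)
      _ = 6 * (d : ℝ) * c1 / t := by ring
      _ ≤ ε1 := by
        rw [div_le_iff₀ ht0]
        have h3 : 6 * d * c1 / ε1 ≤ t := by linarith
        rw [div_le_iff₀ hε] at h3
        linarith
  · rw [hcast]
    have e1 : Real.sqrt (A * Real.exp (-r / A)) ≤ Real.sqrt A * Real.exp (-(t / (2 * A))) := by
      rw [Real.sqrt_mul (by positivity)]
      apply mul_le_mul_of_nonneg_left _ (Real.sqrt_nonneg _)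
      have e3 : Real.exp (-(t / (2 * A))) = Real.sqrt (Real.exp (-(t / A))) := by
        rw [← Real.exp_half]
        congr 1
        field_simp
      rw [e3]
      apply Real.sqrt_le_sqrt
      apply Real.exp_le_exp.2
      rw [neg_div, neg_le_neg_iff]
      exact div_le_div_of_nonneg_right hr1 (by positivity)
    have e2 : (M + 1) ^ d ≤ (c1 + 1) ^ d * t ^ (A * d) := by
      calc (M + 1) ^ d ≤ ((c1 + 1) * t ^ A) ^ d := pow_le_pow_left₀ (by positivity) hM1 d
        _ = (c1 + 1) ^ d * t ^ (A * d) := by rw [mul_pow, ← pow_mul]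
    have e3 : (1 : ℝ) / lam ^ (d + 1) = t ^ (blN d A * (d + 1)) := by
      rw [pow_mul, hinv, inv_pow, one_div]
    have e4 : t ^ (blN d A) * lam = 1 := by
      rw [hinv, inv_mul_cancel₀ h0.ne']
    calc 6 * (d : ℝ) * M * (A' * (M + 1) ^ d / lam ^ (d + 1) * Real.sqrt (A * Real.exp (-r / A)))
        = (6 * (d : ℝ) * A') * M * (M + 1) ^ d * (1 / lam ^ (d + 1)) *
          Real.sqrt (A * Real.exp (-r / A)) := by ring
      _ ≤ (6 * (d : ℝ) * A') * (c1 * t ^ A) * ((c1 + 1) ^ d * t ^ (A * d)) *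
          t ^ (blN d A * (d + 1)) * (Real.sqrt A * Real.exp (-(t / (2 * A)))) := by
        rw [e3]
        gcongr
      _ = (c2 * (t ^ m * Real.exp (-(t / (2 * A))))) * lam := by
        have e5 : t ^ m = t ^ A * t ^ (A * d) * t ^ (blN d A * (d + 1)) * t ^ (blN d A) := by
          rw [hm, ← pow_add, ← pow_add, ← pow_add]
          congr 1
          ring
        rw [e5, hc2]
        have e6 : 6 * (d : ℝ) * c1 * (A' * (c1 + 1) ^ d * Real.sqrt A) *
          (t ^ A * t ^ (A * d) * t ^ (blN d A * (d + 1)) * t ^ (blN d A) *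
            Real.exp (-(t / (2 * A)))) * lam =
          6 * (d : ℝ) * c1 * (A' * (c1 + 1) ^ d * Real.sqrt A) *
          (t ^ A * t ^ (A * d) * t ^ (blN d A * (d + 1)) *
            Real.exp (-(t / (2 * A)))) * (t ^ (blN d A) * lam) := by ring
        rw [e6, e4]
        ring
      _ ≤ ε1 * lam := mul_le_mul_of_nonneg_right b1 h0.le

end Ein99
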