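import Pool.Agent.LibEin99.B_Low2

/-!
TASK B_Lower. Lower bound for the speed.

Let `AdmJ p A I`. For small `lam` let `ρ = blr d A lam`, and let `J` be the approximation at `ρ`.
`test_flow` gives, in the limit of many steps (`bl_limit`, `bl_opt`), a quadratic inequality between the
annealed averages of the flow functions, and `equidistribution` together with `rare` identifies the
averages.
-/

open MeasureTheory ProbabilityTheory Filter Topology

namespace Ein99

variable {d : ℕ} {p : unitInterval} {K : ℕ} {C c : ℝ}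

theorem bl_Ann_abs (lam : ℝ) (l : Fin d → ℝ) (n : ℕ) {g h : Om d → ℝ} (hg : Measurable g)
    (hh : Measurable h) {M N : ℝ} (hM : ∀ ω, |g ω| ≤ M) (hN : ∀ ω, |h ω| ≤ N)
    (hgh : ∀ ω, |g ω| ≤ h ω) : |Ann p lam l n g| ≤ Ann p lam l n h := by
  rw [abs_le]
  constructor
  · have h1 := bl_Ann_mono (p := p) lam l n (g := fun ω => (-1) * h ω) (h := g)
      (hh.const_mul (-1)) hg (M := N) (N := M) (fun ω => by rw [abs_mul]; simpa using hN ω) hM
      (fun ω => by have := (abs_le.mp (hgh ω)).1; linarith)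
    rw [bl_Ann_smul] at h1
    linarith
  · exact bl_Ann_mono lam l n hg hh hM hN (fun ω => (abs_le.mp (hgh ω)).2)

theorem bl_ind_abs (B : Set (Om d)) (ω : Om d) :
    |Set.indicator B (fun _ => (1 : ℝ)) ω| ≤ 1 := by
  by_cases h : ω ∈ B
  · rw [Set.indicator_of_mem h, abs_one]
  · rw [Set.indicator_of_notMem h, abs_zero]
    exact zero_le_one

/-- the set where the flow is not divergence free -/
def blB (J : Fld d) : Set (Om d) := {ω | ∑ δ, J ω δ ≠ 0}

theorem bl_loc_B {J : Fld d} {r : ℕ}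
    (hL : ∀ δ, Loc (EB r (0 : V d) : Set (Ed d)) (fun ω => J ω δ)) :
    Loc (EB r (0 : V d) : Set (Ed d)) (fun ω => ω ∈ blB J) := by
  intro ω ω' h
  have h1 : J ω = J ω' := by
    funext δ
    exact hL δ ω ω' h
  simp only [blB, Set.mem_ofPred_eq, h1]

/-- the inequality at a fixed bias -/
theorem bl_fixed (l : Fin d → ℝ) (hl : ∑ i, l i ^ 2 = 1) (ht : 0 < tha d p) (lam : ℝ)
    (h0 : 0 < lam)
    (h1 : lam ≤ 1) (v : ℝ) (hv : IsSpeed d p lam l v) {J : Fld d} {r : ℕ} {M : ℝ}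
    (hL : ∀ δ, Loc (EB r (0 : V d) : Set (Ed d)) (fun ω => J ω δ)) (hM0 : 0 ≤ M)
    (hM : ∀ ω δ, |J ω δ| ≤ M) (hA : Anti J) (hS : Supp J) (m1 m2 η R : ℝ)
    (hE : ∃ n0 : ℕ, ∀ n : ℕ, n0 ≤ n →
      |Ann p lam l n (blh1 lam l J) - tha d p * m1| ≤ tha d p * (η / 3) ∧
      |Ann p lam l n (blh2 lam l J) - tha d p * m2| ≤ tha d p * (η / 3))
    (hR : ∀ n : ℕ, 1 ≤ n → Ann p lam l n (Set.indicator (blB J) (fun _ => (1 : ℝ))) ≤ R)
    (hη : 0 ≤ η)
    (h3 : 6 * d * M * lam ≤ tha d p * (η / 3)) (h4 : 6 * d * M * R ≤ tha d p * (η / 3) * lam) :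
    (max 0 (|m1| - η)) ^ 2 ≤ (v / lam) * (m2 + η) := by
  obtain ⟨n0, hn0⟩ := hE
  have ht1 : tha d p ≤ 1 := bu_tha_le
  have hv0 := (speed_le lam h0 h1 l hl ht v hv).1
  have mh : Measurable (blh lam l J) := Loc.measurable _ (bl_loc_h lam l hL)
  have mh1 : Measurable (blh1 lam l J) := Loc.measurable _ (bl_loc_h1 lam l hL)
  have mB : MeasurableSet (blB J) := Loc.measurableSet _ (bl_loc_B hL)
  have mi : Measurable (Set.indicator (blB J) (fun _ => (1 : ℝ))) :=
    measurable_const.indicator mB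
  have hkey : ∀ a : ℝ, 0 < a → 2 * (lam * tha d p * max 0 (|m1| - η)) ≤
      a * (lam * (tha d p * v)) + (tha d p * (m2 + η)) / a := by
    intro a ha
    apply bl_limit l hl lam h0 h1 v hv hL hM0 hM hA hS _ _ _ a ha
    refine ⟨max n0 1, fun n hn => ?_⟩
    obtain ⟨g1, g2⟩ := hn0 n ((le_max_left _ _).trans hn)
    have hn1 : 1 ≤ n := (le_max_right _ _).trans hn
    constructor
    · have e1 : Ann p lam l n (blh lam l J) - lam * Ann p lam l n (blh1 lam l J) =
          Ann p lam l n (fun ω => blh lam l J ω + (-lam) * blh1 lam l J ω) := by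
        rw [bl_Ann_add lam l n mh (mh1.const_mul (-lam)) (bl_h_le lam l hS hM0 hM)
          (N := lam * (6 * d * M)) (fun ω => by
            rw [abs_mul, abs_neg, abs_of_pos h0]
            exact mul_le_mul_of_nonneg_left (bl_h1_le lam h0.le h1 l hl hM0 hM ω) h0.le),
          bl_Ann_smul]
        ring
      have e2 : |Ann p lam l n (fun ω => blh lam l J ω + (-lam) * blh1 lam l J ω)| ≤
          Ann p lam l n (fun ω => 6 * d * M * (Set.indicator (blB J) (fun _ => (1 : ℝ)) ω) +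
            6 * d * M * lam ^ 2) := by
        apply bl_Ann_abs lam l n (mh.add (mh1.const_mul (-lam)))
          ((mi.const_mul _).add measurable_const)
          (M := 6 * d * M * 1 + 6 * d * M * lam ^ 2) (N := 6 * d * M * 1 + 6 * d * M * lam ^ 2)
        · intro ω
          have h5 := bl_expand lam h0.le h1 l hl hS hM ω
          have h6 : blh lam l J ω + (-lam) * blh1 lam l J ω =
            blh lam l J ω - lam * blh1 lam l J ω := by ring
          change |blh lam l J ω + (-lam) * blh1 lam l J ω| ≤ _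
          rw [h6]
          refine h5.trans ?_
          have h7 := (abs_le.mp (bl_ind_abs (blB J) ω)).2
          have h8 : 6 * (d : ℝ) * M * Set.indicator {ω : Om d | ∑ δ, J ω δ ≠ 0}
            (fun _ => (1 : ℝ)) ω ≤ 6 * d * M * 1 := by
            exact mul_le_mul_of_nonneg_left h7 (by positivity)
          linarith
        · intro ω
          have h7 := (abs_le.mp (bl_ind_abs (blB J) ω)).2
          have h9 : 0 ≤ Set.indicator (blB J) (fun _ => (1 : ℝ)) ω :=
            Set.indicator_nonneg (fun _ _ => zero_le_one) _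
          change |6 * d * M * Set.indicator (blB J) (fun _ => (1 : ℝ)) ω +
            6 * d * M * lam ^ 2| ≤ _
          rw [abs_of_nonneg (by positivity)]
          have h8 : 6 * (d : ℝ) * M * Set.indicator (blB J) (fun _ => (1 : ℝ)) ω ≤
            6 * d * M * 1 := mul_le_mul_of_nonneg_left h7 (by positivity)
          linarith
        · intro ω
          have h5 := bl_expand lam h0.le h1 l hl hS hM ω
          have h6 : blh lam l J ω + (-lam) * blh1 lam l J ω =
            blh lam l J ω - lam * blh1 lam l J ω := by ring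
          change |blh lam l J ω + (-lam) * blh1 lam l J ω| ≤ _
          rw [h6]
          exact h5
      have e3 : Ann p lam l n (fun ω => 6 * d * M * (Set.indicator (blB J) (fun _ => (1 : ℝ)) ω) +
            6 * d * M * lam ^ 2) =
          6 * d * M * Ann p lam l n (Set.indicator (blB J) (fun _ => (1 : ℝ))) +
            tha d p * (6 * d * M * lam ^ 2) := by
        rw [bl_Ann_add lam l n (g := fun ω => 6 * d * M * (Set.indicator (blB J)
          (fun _ => (1 : ℝ)) ω)) (h := fun _ => 6 * d * M * lam ^ 2)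
          (mi.const_mul _) measurable_const (M := 6 * d * M * 1)
          (N := 6 * d * M * lam ^ 2) (fun ω => by
            rw [abs_mul, abs_of_nonneg (by positivity : (0 : ℝ) ≤ 6 * d * M)]
            exact mul_le_mul_of_nonneg_left (bl_ind_abs _ ω) (by positivity))
          (fun ω => by rw [abs_of_nonneg (by positivity)]), bl_Ann_smul, bl_Ann_const lam l n hn1]
      rw [e3] at e2
      rw [← e1] at e2
      have e4 : 6 * d * M * Ann p lam l n (Set.indicator (blB J) (fun _ => (1 : ℝ))) ≤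
          tha d p * (η / 3) * lam :=
        (mul_le_mul_of_nonneg_left (hR n hn1) (by positivity)).trans h4
      have e5 : tha d p * (6 * d * M * lam ^ 2) ≤ tha d p * (η / 3) * lam := by
        calc tha d p * (6 * d * M * lam ^ 2) ≤ 1 * (6 * d * M * lam ^ 2) :=
              mul_le_mul_of_nonneg_right ht1 (by positivity)
          _ = (6 * d * M * lam) * lam := by ring
          _ ≤ tha d p * (η / 3) * lam := mul_le_mul_of_nonneg_right h3 h0.le
      have e6 : tha d p * |m1| - tha d p * (η / 3) ≤ |Ann p lam l n (blh1 lam l J)| := by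
        have h5 : |tha d p * m1| = tha d p * |m1| := by rw [abs_mul, abs_of_pos ht]
        have h6 := abs_sub_abs_le_abs_sub (tha d p * m1) (Ann p lam l n (blh1 lam l J))
        rw [abs_sub_comm] at h6
        rw [h5] at h6
        linarith
      have e7 : |lam * Ann p lam l n (blh1 lam l J)| - |Ann p lam l n (blh lam l J)| ≤
          |Ann p lam l n (blh lam l J) - lam * Ann p lam l n (blh1 lam l J)| := by
        rw [abs_sub_comm]
        exact abs_sub_abs_le_abs_sub _ _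
      rw [abs_mul, abs_of_pos h0] at e7
      have e8 : lam * tha d p * (|m1| - η) ≤ |Ann p lam l n (blh lam l J)| := by
        have h5 := mul_le_mul_of_nonneg_left e6 h0.le
        have h6 : lam * tha d p * (|m1| - η) = lam * (tha d p * |m1| - tha d p * (η / 3))
          - (tha d p * (η / 3) * lam + tha d p * (η / 3) * lam) := by ring
        rw [h6]
        linarith
      rcases le_total 0 (|m1| - η) with h5 | h5
      · rw [max_eq_right h5]
        exact e8
      · rw [max_eq_left h5, mul_zero]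
        exact abs_nonneg _
    · have h5 := (abs_le.mp g2).2
      have h6 : tha d p * (η / 3) ≤ tha d p * η := by
        apply mul_le_mul_of_nonneg_left _ ht.le
        linarith
      linarith
  have h5 := bl_opt (by positivity) (by positivity) hkey
  have h6 : (lam * tha d p * max 0 (|m1| - η)) ^ 2 =
      (lam ^ 2 * tha d p ^ 2) * (max 0 (|m1| - η)) ^ 2 := by ring
  have h7 : lam * (tha d p * v) * (tha d p * (m2 + η)) =
      (lam ^ 2 * tha d p ^ 2) * ((v / lam) * (m2 + η)) := by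
    field_simp
  rw [h6, h7] at h5
  exact le_of_mul_le_mul_left h5 (by positivity)

/-! ### identification of the averages -/

theorem bl_oo_J {J : Fld d} (hS : Supp J) (ω : Om d) (δ : Dir d) : oo ω δ * J ω δ = J ω δ := by
  unfold oo
  split_ifs with h
  · rw [one_mul]
  · rw [hS ω δ h, mul_zero]

theorem bl_num1 (lam : ℝ) (l : Fin d → ℝ) {J : Fld d} (hS : Supp J) :
    ∫ ω, Zw lam l ω 0 * blh1 lam l J ω ∂(nu d p) = ip p (Dl l) J := by
  unfold ip
  refine integral_congr_ae (Filter.Eventually.of_forall fun ω => ?_)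
  change Zw lam l ω 0 * blh1 lam l J ω = ∑ δ, oo ω δ * (dt l δ * J ω δ)
  have e : ∑ δ, oo ω δ * (dt l δ * J ω δ) = ∑ δ, J ω δ * dt l δ := by
    refine Finset.sum_congr rfl fun δ _ => ?_
    have := bl_oo_J hS ω δ
    calc oo ω δ * (dt l δ * J ω δ) = (oo ω δ * J ω δ) * dt l δ := by ring
      _ = J ω δ * dt l δ := by rw [this]
  rw [e]
  unfold blh1
  by_cases hz : Zw lam l ω 0 = 0
  · rw [hz, zero_mul]
    symm
    exact Finset.sum_eq_zero fun δ _ => by rw [bl_supp lam l hS hz δ, zero_mul]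
  · rw [mul_div_cancel₀ _ hz]

theorem bl_num2 (lam : ℝ) (h0 : 0 < lam) (h1 : lam ≤ 1) (l : Fin d → ℝ)
    (hl : ∑ i, l i ^ 2 = 1) {J : Fld d} (hJ : SqI p J) (hS : Supp J) {M : ℝ}
    (hM : ∀ ω δ, |J ω δ| ≤ M) :
    |∫ ω, Zw lam l ω 0 * blh2 lam l J ω ∂(nu d p) - ip p J J| ≤ 2 * lam * ip p J J := by
  have hfin := BSpeed_fin (d := d) (p := p)
  have e1 : ∀ ω : Om d, Zw lam l ω 0 * blh2 lam l J ω = ∑ δ, J ω δ ^ 2 * Real.exp (lam * dt l δ) := by
    intro ω
    unfold blh2
    by_cases hz : Zw lam l ω 0 = 0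
    · rw [hz, zero_mul]
      symm
      exact Finset.sum_eq_zero fun δ _ => by
        rw [bl_supp lam l hS hz δ]
        ring
    · rw [mul_div_cancel₀ _ hz]
  have e2 : ip p J J = ∫ ω, ∑ δ, J ω δ ^ 2 ∂(nu d p) := by
    unfold ip
    refine integral_congr_ae (Filter.Eventually.of_forall fun ω => ?_)
    refine Finset.sum_congr rfl fun δ _ => ?_
    have := bl_oo_J hS ω δ
    calc oo ω δ * (J ω δ * J ω δ) = (oo ω δ * J ω δ) * J ω δ := by ring
      _ = J ω δ ^ 2 := by rw [this, sq]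
  have b1 : ∀ ω : Om d, ∀ δ, J ω δ ^ 2 ≤ M ^ 2 := by
    intro ω δ
    rw [← sq_abs]
    exact pow_le_pow_left₀ (abs_nonneg _) (hM ω δ) 2
  have m1 : Measurable (fun ω : Om d => ∑ δ, J ω δ ^ 2 * Real.exp (lam * dt l δ)) :=
    Finset.measurable_sum _ fun δ _ => ((hJ.1 δ).pow_const 2).mul_const _
  have m2 : Measurable (fun ω : Om d => ∑ δ, J ω δ ^ 2) :=
    Finset.measurable_sum _ fun δ _ => (hJ.1 δ).pow_const 2
  have i1 : Integrable (fun ω : Om d => ∑ δ, J ω δ ^ 2 * Real.exp (lam * dt l δ)) (nu d p) := by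
    apply BSpeed_int m1 (∑ _δ : Dir d, M ^ 2 * 3)
    intro ω
    rw [abs_of_nonneg (Finset.sum_nonneg fun δ _ => by positivity)]
    apply Finset.sum_le_sum
    intro δ _
    apply mul_le_mul (b1 ω δ) _ (Real.exp_pos _).le (by positivity)
    exact (bl_exp3 ((bl_lamdt h0.le h1 l hl δ).trans h1)).2
  have i2 : Integrable (fun ω : Om d => ∑ δ, J ω δ ^ 2) (nu d p) := by
    apply BSpeed_int m2 (∑ _δ : Dir d, M ^ 2)
    intro ω
    rw [abs_of_nonneg (Finset.sum_nonneg fun δ _ => by positivity)]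
    exact Finset.sum_le_sum fun δ _ => b1 ω δ
  simp only [e1]
  rw [e2, ← integral_sub i1 i2, ← integral_const_mul]
  refine (abs_integral_le_integral_abs).trans ?_
  apply integral_mono (i1.sub i2).abs (i2.const_mul _)
  intro ω
  change |∑ δ, J ω δ ^ 2 * Real.exp (lam * dt l δ) - ∑ δ, J ω δ ^ 2| ≤
    2 * lam * ∑ δ, J ω δ ^ 2
  rw [← Finset.sum_sub_distrib, Finset.mul_sum]
  refine (Finset.abs_sum_le_sum_abs _ _).trans ?_
  apply Finset.sum_le_sum
  intro δ _
  have h5 : J ω δ ^ 2 * Real.exp (lam * dt l δ) - J ω δ ^ 2 =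
    J ω δ ^ 2 * (Real.exp (lam * dt l δ) - 1) := by ring
  rw [h5, abs_mul, abs_of_nonneg (sq_nonneg _), mul_comm]
  apply mul_le_mul_of_nonneg_right _ (sq_nonneg _)
  have h6 := bu_exp_sub lam (by rw [abs_of_pos h0]; exact h1) l hl δ
  rwa [abs_of_pos h0] at h6

/-! ### the limit of the approximations -/

theorem bl_expk (A : ℕ) (hA : 1 ≤ A) :
    Tendsto (fun k : ℕ => (A : ℝ) * Real.exp (-((k + 1 : ℕ) : ℝ) / A)) atTop (𝓝 0) := by
  have hA' : (0 : ℝ) < A := by exact_mod_cast hA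
  have h1 : Tendsto (fun k : ℕ => ((k + 1 : ℕ) : ℝ)) atTop atTop :=
    tendsto_natCast_atTop_atTop.comp (tendsto_add_atTop_nat 1)
  have h2 : Tendsto (fun k : ℕ => ((k + 1 : ℕ) : ℝ) / A) atTop atTop :=
    h1.atTop_div_const hA'
  have h3 := (Real.tendsto_exp_neg_atTop_nhds_zero.comp h2).const_mul (A : ℝ)
  rw [mul_zero] at h3
  refine h3.congr fun k => ?_
  simp only [Function.comp, neg_div]

theorem bl_lims {A : ℕ} (hA : 1 ≤ A) {I : Fld d} (hI : SqI p I) (l : Fin d → ℝ)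
    (J : ℕ → Fld d) (hJ : ∀ k, SqI p (J k))
    (hJI : ∀ k, ∫ ω, ∑ δ, oo ω δ * (J k ω δ - I ω δ) ^ 2 ∂(nu d p) ≤
      A * Real.exp (-((k + 1 : ℕ) : ℝ) / A)) :
    Tendsto (fun k => ip p (Dl l) (J k)) atTop (𝓝 (ip p (Dl l) I)) ∧
    Tendsto (fun k => ip p (J k) (J k)) atTop (𝓝 (ip p I I)) := by
  set D : ℕ → Fld d := fun k ω δ => J k ω δ - I ω δ with hD
  have hDs : ∀ k, SqI p (D k) := fun k => (hJ k).sub hI
  have hDD : ∀ k, ip p (D k) (D k) ≤ A * Real.exp (-((k + 1 : ℕ) : ℝ) / A) := by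
    intro k
    refine le_trans (le_of_eq ?_) (hJI k)
    unfold ip
    simp only [hD, sq]
  have hlimD : Tendsto (fun k => ip p (D k) (D k)) atTop (𝓝 0) :=
    squeeze_zero (fun k => ip_self_nonneg (D k)) hDD (bl_expk A hA)
  have hlimS : Tendsto (fun k => Real.sqrt (ip p (D k) (D k))) atTop (𝓝 0) := by
    have := (Real.continuous_sqrt.tendsto 0).comp hlimD
    rw [Real.sqrt_zero] at this
    exact this
  have hDl : SqI p (Dl l : Fld d) := SqI.Dl l
  have gen : ∀ (G : Fld d), SqI p G → Tendsto (fun k => ip p G (D k)) atTop (𝓝 0) := by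
    intro G hG
    have h1 : Tendsto (fun k => Real.sqrt (ip p G G) * Real.sqrt (ip p (D k) (D k))) atTop
        (𝓝 0) := by
      have := hlimS.const_mul (Real.sqrt (ip p G G))
      rwa [mul_zero] at this
    exact squeeze_zero_norm (fun k => by
      rw [Real.norm_eq_abs]
      exact ip_cs hG (hDs k)) h1
  constructor
  · have h1 := (gen (Dl l) hDl).add_const (ip p (Dl l) I)
    rw [zero_add] at h1
    refine h1.congr fun k => ?_
    have : ip p (D k) (Dl l) = ip p (J k) (Dl l) - ip p I (Dl l) := ip_sub_left (hJ k) hI hDl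
    rw [ip_comm (Dl l) (D k), this, ip_comm (J k), ip_comm I]
    ring
  · have h1 := (((gen I hI).const_mul 2).add hlimD).add_const (ip p I I)
    rw [mul_zero, zero_add, zero_add] at h1
    refine h1.congr fun k => ?_
    have e1 : ip p (D k) I = ip p (J k) I - ip p I I := ip_sub_left (hJ k) hI hI
    have e2 : ip p (D k) (D k) = ip p (J k) (D k) - ip p I (D k) :=
      ip_sub_left (hJ k) hI (hDs k)
    have e3 : ip p (D k) (J k) = ip p (J k) (J k) - ip p I (J k) := ip_sub_left (hJ k) hI (hJ k)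
    have e4 : ip p (J k) (D k) = ip p (D k) (J k) := ip_comm _ _
    have e5 : ip p I (D k) = ip p (D k) I := ip_comm _ _
    have e6 : ip p I (J k) = ip p (J k) I := ip_comm _ _
    rw [e2, e4, e3, e5, e1, e6]
    ring

theorem lower (hd : 1 ≤ d) (hH : HypH d p K C c) (l : Fin d → ℝ) (hl : ∑ i, l i ^ 2 = 1)
    (I : Fld d) (hI : Adm p I) (ε : ℝ) (hε : 0 < ε) :
    ∃ lam1 : ℝ, 0 < lam1 ∧ ∀ lam : ℝ, 0 < lam → lam ≤ lam1 → ∀ v : ℝ, IsSpeed d p lam l v →
      (ip p (Dl l) I / kap d p) ^ 2 ≤ v / lam * (ip p I I / kap d p) + ε := by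
  have ht : 0 < tha d p := theta_pos hH
  have hk : 0 < kap d p := kap_pos hH
  have hIs := hI.sqI
  obtain ⟨A, hA, hAdm⟩ := hI
  choose J hJ1 hJ2 hJ3 hJ4 hJ5 hJ6 using hAdm.2.2
  set J' : ℕ → Fld d := fun k => J (k + 1) (by omega) with hJ'
  set κ := kap d p with hκ
  set M0 := ip p (Dl l) I / κ with hM0
  set Q0 := ip p I I / κ with hQ0
  have hQ00 : 0 ≤ Q0 := div_nonneg (ip_self_nonneg I) hk.le
  set η : ℝ := ε / (4 * |M0| + 2) with hη
  have hηp : 0 < η := by positivity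
  obtain ⟨A', lamR, hA', hR0, hR1, hRare⟩ := rare hH hd l hl
  obtain ⟨lamE, hE0, hE1, hE⟩ := equidistribution hd hH l hl (tha d p * (η / 3)) (by positivity)
  have hJs : ∀ k, SqI p (J' k) := fun k =>
    SqI.of_bounded (fun δ => (hJ1 (k + 1) (by omega) δ).measurable) _ (hJ2 (k + 1) (by omega))
  obtain ⟨lim1, lim2⟩ := bl_lims hA hIs l J' hJs (fun k => hJ6 (k + 1) (by omega))
  -- the index
  set kk : ℝ → ℕ := fun lam => ⌊blt d A lam⌋₊ with hkk
  have hkk1 : ∀ lam, blr d A lam = kk lam + 1 := fun lam => rfl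
  have hkt : Tendsto kk (𝓝[>] 0) atTop := tendsto_nat_floor_atTop.comp (blt_tendsto d A)
  have hZ : Tendsto (fun lam : ℝ => ∫ ω, Zw lam l ω 0 ∂(nu d p)) (𝓝[>] 0) (𝓝 κ) :=
    (Zw_lim hH l hl).mono_left nhdsWithin_le_nhds
  -- convergence of the averages
  set m1 : ℝ → ℝ := fun lam => (∫ ω, Zw lam l ω 0 * blh1 lam l (J' (kk lam)) ω ∂(nu d p)) /
      (∫ ω, Zw lam l ω 0 ∂(nu d p)) with hm1
  set m2 : ℝ → ℝ := fun lam => (∫ ω, Zw lam l ω 0 * blh2 lam l (J' (kk lam)) ω ∂(nu d p)) /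
      (∫ ω, Zw lam l ω 0 ∂(nu d p)) with hm2
  have hlim1 : Tendsto m1 (𝓝[>] 0) (𝓝 M0) := by
    have h1 := (lim1.comp hkt).div hZ hk.ne'
    refine h1.congr fun lam => ?_
    simp only [hm1, Function.comp, bl_num1 lam l (hJ4 (kk lam + 1) (by omega)), hJ', Pi.div_apply]
  have hpos : ∀ᶠ lam : ℝ in 𝓝[>] 0, 0 < lam := eventually_mem_nhdsWithin
  have hle1 : ∀ᶠ lam : ℝ in 𝓝[>] 0, lam ≤ 1 :=
    nhdsWithin_le_nhds (eventually_le_nhds one_pos)
  have hlim2 : Tendsto m2 (𝓝[>] 0) (𝓝 Q0) := by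
    have h0 : Tendsto (fun lam : ℝ => lam) (𝓝[>] 0) (𝓝 0) := tendsto_id.mono_left nhdsWithin_le_nhds
    have h1 : Tendsto (fun lam => ip p (J' (kk lam)) (J' (kk lam))) (𝓝[>] 0) (𝓝 (ip p I I)) :=
      lim2.comp hkt
    have h2 : Tendsto (fun lam => 2 * lam * ip p (J' (kk lam)) (J' (kk lam))) (𝓝[>] 0) (𝓝 0) := by
      have := (h0.const_mul 2).mul h1
      rwa [mul_zero, zero_mul] at this
    have h3 : Tendsto (fun lam => ∫ ω, Zw lam l ω 0 * blh2 lam l (J' (kk lam)) ω ∂(nu d p)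
        - ip p (J' (kk lam)) (J' (kk lam))) (𝓝[>] 0) (𝓝 0) := by
      apply squeeze_zero_norm' _ h2
      filter_upwards [hpos, hle1] with lam g0 g1
      rw [Real.norm_eq_abs]
      exact bl_num2 lam g0 g1 l hl (hJs (kk lam)) (hJ4 (kk lam + 1) (by omega))
        (hJ2 (kk lam + 1) (by omega))
    have h4 := h3.add h1
    rw [zero_add] at h4
    have h5 := h4.div hZ hk.ne'
    refine h5.congr fun lam => ?_
    simp only [hm2, Pi.div_apply, sub_add_cancel]
  have ev1 : ∀ᶠ lam : ℝ in 𝓝[>] 0, |m1 lam - M0| < η := by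
    have := Metric.tendsto_nhds.1 hlim1 η hηp
    simpa [Real.dist_eq] using this
  have ev2 : ∀ᶠ lam : ℝ in 𝓝[>] 0, m2 lam < Q0 + η :=
    hlim2.eventually (gt_mem_nhds (by linarith))
  have ev3 := bl_small d A hA A' (tha d p * (η / 3)) hA' (by positivity)
  have ev4 : ∀ᶠ lam : ℝ in 𝓝[>] 0, lam ≤ lamE := nhdsWithin_le_nhds (eventually_le_nhds hE0)
  have ev5 : ∀ᶠ lam : ℝ in 𝓝[>] 0, lam ≤ lamR := nhdsWithin_le_nhds (eventually_le_nhds hR0)
  have hall := ev1.and (ev2.and (ev3.and (ev4.and ev5)))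
  obtain ⟨lam1, hlam1, hsub⟩ := mem_nhdsGT_iff_exists_Ioc_subset.1 hall
  refine ⟨lam1, hlam1, ?_⟩
  intro lam h0 hle v hv
  obtain ⟨b1, b2, ⟨b3, b4, b5, b6⟩, b7, b8⟩ := hsub ⟨h0, hle⟩
  have h1 : lam ≤ 1 := b7.trans hE1
  rw [hkk1 lam] at b3 b4 b5 b6
  set k := kk lam with hk'
  set M : ℝ := (A : ℝ) * ((k + 1 : ℕ) : ℝ) ^ A with hM
  have hMp : 0 ≤ M := by positivity
  have hL := hJ1 (k + 1) (by omega)
  have hBd : ∀ ω δ, |J' k ω δ| ≤ M := hJ2 (k + 1) (by omega)
  have hAn : Anti (J' k) := hJ3 (k + 1) (by omega)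
  have hSu : Supp (J' k) := hJ4 (k + 1) (by omega)
  have hd0 : (1 : ℝ) ≤ d := by exact_mod_cast hd
  have hM1 : 1 ≤ M := by
    have a1 : (1 : ℝ) ≤ A := by exact_mod_cast hA
    have a2 : (1 : ℝ) ≤ ((k + 1 : ℕ) : ℝ) := by
      push_cast
      have : (0 : ℝ) ≤ k := Nat.cast_nonneg k
      linarith
    have a3 : 1 ≤ ((k + 1 : ℕ) : ℝ) ^ A := one_le_pow₀ a2
    rw [hM]
    nlinarith
  have hfix := bl_fixed l hl ht lam h0 h1 v hv (J := J' k) (r := A * (k + 1) ^ A) (M := M)
    hL hMp hBd hAn hSu (m1 lam) (m2 lam) η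
    (A' * (((A * (k + 1) ^ A : ℕ) : ℝ) + 1) ^ d / lam ^ (d + 1) *
      Real.sqrt (A * Real.exp (-((k + 1 : ℕ) : ℝ) / A)))
    (by
      obtain ⟨n0, hn0⟩ := hE lam h0 b7
      refine ⟨n0, fun n hn => ⟨?_, ?_⟩⟩
      · refine hn0 n hn (A * (k + 1) ^ A + 1) (6 * ((d : ℝ) + 1) * M ^ 2 + 1) _ b3 ?_ b4
          (bl_loc_h1 lam l hL) ?_
        · have : 0 ≤ 6 * ((d : ℝ) + 1) * M ^ 2 := by positivity
          linarith
        · intro ω
          refine (bl_h1_le lam h0.le h1 l hl hMp hBd ω).trans ?_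
          have g1 : M ≤ M ^ 2 := by nlinarith
          have g2 : 6 * (d : ℝ) * M ≤ 6 * d * M ^ 2 := mul_le_mul_of_nonneg_left g1 (by positivity)
          have g3 : 6 * (d : ℝ) * M ^ 2 ≤ 6 * ((d : ℝ) + 1) * M ^ 2 :=
            mul_le_mul_of_nonneg_right (by linarith) (by positivity)
          linarith
      · refine hn0 n hn (A * (k + 1) ^ A + 1) (6 * ((d : ℝ) + 1) * M ^ 2 + 1) _ b3 ?_ b4
          (bl_loc_h2 lam l hL) ?_
        · have : 0 ≤ 6 * ((d : ℝ) + 1) * M ^ 2 := by positivity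
          linarith
        · intro ω
          rw [abs_of_nonneg (bl_h2_nonneg lam l (J' k) ω)]
          refine (bl_h2_le lam l hSu hBd ω).trans ?_
          nlinarith [sq_nonneg M])
    (by
      intro n hn
      refine (hRare lam h0 b8 n hn (A * (k + 1) ^ A) (blB (J' k)) (bl_loc_B hL)).trans ?_
      apply mul_le_mul_of_nonneg_left _ (by positivity)
      apply Real.sqrt_le_sqrt
      exact hJ5 (k + 1) (by omega))
    hηp.le b5 b6
  -- conclusion
  have hv0 := speed_le lam h0 h1 l hl ht v hv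
  have hr0 : 0 ≤ v / lam := div_nonneg hv0.1 h0.le
  have hr1 : v / lam ≤ 1 := by rw [div_le_one h0]; exact hv0.2
  have c1 : |M0| - 2 * η ≤ max 0 (|m1 lam| - η) := by
    refine le_trans ?_ (le_max_right _ _)
    have h5 := abs_sub_abs_le_abs_sub M0 (m1 lam)
    rw [abs_sub_comm] at h5
    linarith
  have c2 : 0 ≤ max 0 (|m1 lam| - η) := le_max_left _ _
  have c3 : M0 ^ 2 ≤ (max 0 (|m1 lam| - η)) ^ 2 + 4 * η * |M0| := by
    rw [← sq_abs M0]
    set x := |M0| with hx
    have hx0 : 0 ≤ x := abs_nonneg _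
    set y := max 0 (|m1 lam| - η) with hy
    rcases le_total x (2 * η) with h5 | h5
    · nlinarith [sq_nonneg y]
    · have h6 : (x - 2 * η) ^ 2 ≤ y ^ 2 := pow_le_pow_left₀ (by linarith) c1 2
      nlinarith [sq_nonneg η]
  have c4 : v / lam * (m2 lam + η) ≤ v / lam * Q0 + 2 * η := by
    have h5 : v / lam * (m2 lam + η) ≤ v / lam * (Q0 + 2 * η) :=
      mul_le_mul_of_nonneg_left (by linarith) hr0
    have h6 : v / lam * (2 * η) ≤ 1 * (2 * η) := mul_le_mul_of_nonneg_right hr1 (by positivity)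
    linarith
  have c5 : 4 * η * |M0| + 2 * η = ε := by
    rw [hη]
    field_simp
  calc M0 ^ 2 ≤ (max 0 (|m1 lam| - η)) ^ 2 + 4 * η * |M0| := c3
    _ ≤ v / lam * (m2 lam + η) + 4 * η * |M0| := by linarith
    _ ≤ v / lam * Q0 + 2 * η + 4 * η * |M0| := by linarith
    _ = v / lam * Q0 + ε := by rw [← c5]; ring

end Ein99
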