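import Pool.Agent.LibEin99.A_PnRange

/-!
TASK C_Meas. Measurability in `ω`.

`Om d = Ed d → Bool` has the product σ-algebra; `{ω | opn ω x δ}` is the preimage of `{true}` under
a coordinate. For the connection events: `V d` is countable; `Relation.ReflTransGen r x y` holds iff
for some `n` it holds in `n` steps (define `n`-step reachability recursively, or use
`Relation.ReflTransGen` through finite lists/chains); each `n`-step event is a countable union of
finite intersections. `InfC ω x`: the set `{y | Conn ω x y}` is infinite iff for every `r` it
contains a point outside `Bx r x`.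
`measurable_Pn`: induction on `n` (for all `g`), `Pop` is a finite sum and an `ite` over a
measurable set.
-/

open MeasureTheory ProbabilityTheory Filter Topology

namespace Ein99

variable {d : ℕ}

/-- `n`-step reachability. -/
def rn (R : V d → V d → Prop) : ℕ → V d → V d → Prop
  | 0, x, y => x = y
  | n + 1, x, y => ∃ z, rn R n x z ∧ R z y

theorem rtg_iff (R : V d → V d → Prop) (x y : V d) :
    Relation.ReflTransGen R x y ↔ ∃ n, rn R n x y := by
  constructor
  · intro h
    induction h with
    | refl => exact ⟨0, rfl⟩
    | tail _ hbc ih =>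
      obtain ⟨n, hn⟩ := ih
      exact ⟨n + 1, _, hn, hbc⟩
  · rintro ⟨n, hn⟩
    induction n generalizing y with
    | zero =>
      have h : x = y := hn
      subst h
      exact Relation.ReflTransGen.refl
    | succ n ih =>
      obtain ⟨z, h1, h2⟩ := hn
      exact (ih z h1).tail h2

theorem measurableSet_rn (R : Om d → V d → V d → Prop)
    (hR : ∀ a b, MeasurableSet {ω | R ω a b}) (n : ℕ) (x y : V d) :
    MeasurableSet {ω | rn (R ω) n x y} := by
  induction n generalizing y with
  | zero =>
    simp only [rn]
    exact MeasurableSet.const _
  | succ n ih =>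
    simp only [rn, Set.ofPred_exists, Set.ofPred_and]
    exact MeasurableSet.iUnion fun z => (ih z).inter (hR z y)

theorem measurableSet_rtg (R : Om d → V d → V d → Prop)
    (hR : ∀ a b, MeasurableSet {ω | R ω a b}) (x y : V d) :
    MeasurableSet {ω | Relation.ReflTransGen (R ω) x y} := by
  simp only [rtg_iff, Set.ofPred_exists]
  exact MeasurableSet.iUnion fun n => measurableSet_rn R hR n x y

theorem measurableSet_opn (x : V d) (δ : Dir d) : MeasurableSet {ω : Om d | opn ω x δ} := by
  have h : Measurable (fun ω : Om d => ω (ed x δ)) := measurable_pi_apply _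
  exact h (measurableSet_singleton true)

theorem measurableSet_Adj (x y : V d) : MeasurableSet {ω : Om d | Adj ω x y} := by
  simp only [Adj, Set.ofPred_exists, Set.ofPred_and]
  exact MeasurableSet.iUnion fun δ => (measurableSet_opn x δ).inter (MeasurableSet.const _)

theorem measurableSet_JoinIn (S : Set (V d)) (x y : V d) :
    MeasurableSet {ω : Om d | JoinIn ω S x y} := by
  refine measurableSet_rtg (fun ω a b => a ∈ S ∧ b ∈ S ∧ Adj ω a b) (fun a b => ?_) x y
  exact (MeasurableSet.const _).inter ((MeasurableSet.const _).inter (measurableSet_Adj a b))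

theorem measurableSet_Conn (x y : V d) : MeasurableSet {ω : Om d | Conn ω x y} :=
  measurableSet_rtg (fun ω a b => Adj ω a b) measurableSet_Adj x y

theorem measurableSet_InfC (x : V d) : MeasurableSet {ω : Om d | InfC ω x} := by
  have h : {ω : Om d | InfC ω x}ᶜ
      = ⋃ F : Finset (V d), ⋂ y : V d, ({ω : Om d | Conn ω x y}ᶜ ∪ {_ω : Om d | y ∈ F}) := by
    ext ω
    simp only [InfC, Set.mem_compl_iff, Set.mem_ofPred_eq, Set.not_infinite, Set.mem_iUnion,
      Set.mem_iInter, Set.mem_union]
    constructor
    · intro hf
      refine ⟨hf.toFinset, fun y => ?_⟩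
      by_cases hy : Conn ω x y
      · right
        simpa using hy
      · left
        exact hy
    · rintro ⟨F, hF⟩
      refine F.finite_toSet.subset fun y hy => ?_
      rcases hF y with h | h
      · exact absurd hy h
      · exact h
  rw [← MeasurableSet.compl_iff, h]
  exact MeasurableSet.iUnion fun F => MeasurableSet.iInter fun y =>
    (measurableSet_Conn x y).compl.union (MeasurableSet.const _)

theorem measurableSet_ToBd (r : ℕ) (z x : V d) : MeasurableSet {ω : Om d | ToBd ω r z x} := by
  simp only [ToBd, Set.ofPred_exists, Set.ofPred_and]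
  exact MeasurableSet.iUnion fun y => (MeasurableSet.const _).inter (measurableSet_JoinIn _ x y)

theorem measurableSet_LG (K m : ℕ) (z : V d) : MeasurableSet {ω : Om d | LG K ω m z} := by
  rw [measurableSet_setOfPred]
  unfold LG
  refine Measurable.and ?_ ?_
  · refine Measurable.exists fun x => measurable_const.and ?_
    exact measurableSet_setOfPred.1 (measurableSet_ToBd _ z x)
  · refine Measurable.forall fun x => measurable_const.imp ?_
    refine Measurable.forall fun y => measurable_const.imp ?_
    refine Measurable.imp (measurableSet_setOfPred.1 (measurableSet_ToBd _ z x)) ?_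
    refine Measurable.imp (measurableSet_setOfPred.1 (measurableSet_ToBd _ z y)) ?_
    exact measurableSet_setOfPred.1 (measurableSet_JoinIn _ x y)

theorem measurable_wt (lam : ℝ) (l : Fin d → ℝ) (x : V d) (δ : Dir d) :
    Measurable (fun ω : Om d => wt lam l ω x δ) := by
  unfold wt
  exact Measurable.ite (measurableSet_opn x δ) measurable_const measurable_const

theorem measurable_Zw (lam : ℝ) (l : Fin d → ℝ) (x : V d) :
    Measurable (fun ω : Om d => Zw lam l ω x) := by
  unfold Zw
  exact Finset.measurable_sum _ fun δ _ => measurable_wt lam l x δ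

theorem measurable_Pop (lam : ℝ) (l : Fin d → ℝ) (g : Om d → V d → ℝ)
    (hg : ∀ y, Measurable (fun ω => g ω y)) (x : V d) :
    Measurable (fun ω => Pop lam l ω (g ω) x) := by
  unfold Pop
  refine Measurable.ite ?_ (hg x) ?_
  · exact measurable_Zw lam l x (measurableSet_singleton 0)
  · exact (Finset.measurable_sum _ fun δ _ => (measurable_wt lam l x δ).mul (hg _)).div
      (measurable_Zw lam l x)

theorem measurable_Pn (lam : ℝ) (l : Fin d → ℝ) (n : ℕ) (g : Om d → V d → ℝ)
    (hg : ∀ y, Measurable (fun ω => g ω y)) (x : V d) :
    Measurable (fun ω => Pn lam l ω n (g ω) x) := by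
  induction n generalizing g with
  | zero => simpa [Pn] using hg x
  | succ n ih =>
    have h := ih (fun ω => Pop lam l ω (g ω)) (fun y => measurable_Pop lam l g hg y)
    simpa only [Pn, Function.iterate_succ_apply] using h

end Ein99
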