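import Pool.Agent.LibEin99.Defs

/-!
# Further definitions: annealed averages, the lazy walk, fields and admissible flows
-/

open MeasureTheory ProbabilityTheory Filter Topology

namespace Ein99

variable {d : ℕ}

/-- The annealed occupation average: `(1/n) E[1{0 ∈ C_∞} ∑_{k<n} g(environment seen from X_k)]`. -/
noncomputable def Ann (p : unitInterval) (lam : ℝ) (l : Fin d → ℝ) (n : ℕ) (g : Om d → ℝ) : ℝ :=
  (1 / (n : ℝ)) *
    ∫ ω, ∑ k ∈ Finset.range n, Pn lam l ω k (fun x => g (sh x ω)) 0 ∂(nu d p)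

/-- `1` if the edge at the origin in direction `δ` is open, else `0`. -/
noncomputable def oo (ω : Om d) (δ : Dir d) : ℝ := if opn ω 0 δ then 1 else 0

/-- The number of open edges at the origin. -/
noncomputable def dg (ω : Om d) : ℝ := ∑ δ, oo ω δ

/-- `κ = E[1{0 ∈ C_∞} deg(0)]`. -/
noncomputable def kap (d : ℕ) (p : unitInterval) : ℝ := ∫ ω, dg ω ∂(nu d p)

/-- `θ = P(0 ∈ C_∞)`. -/
noncomputable def tha (d : ℕ) (p : unitInterval) : ℝ := (nu d p).real Set.univ

/-- One step of the lazy unbiased walk. -/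
noncomputable def Lz (ω : Om d) (g : V d → ℝ) (x : V d) : ℝ := (g x + Pop 0 0 ω g x) / 2

/-- `n` steps of the lazy unbiased walk: `Ln ω n g x = E_x[g(Y_n)]`. -/
noncomputable def Ln (ω : Om d) (n : ℕ) (g : V d → ℝ) : V d → ℝ := (Lz ω)^[n] g

/-- The lazy operator on functions of the environment seen from the walk. -/
noncomputable def Ae (f : Om d → ℝ) (ω : Om d) : ℝ := Lz ω (fun x => f (sh x ω)) 0

/-- Vector fields: a number for each direction at the origin; the value at the edge from `x` in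
direction `δ` is `I (sh x ω) δ`. -/
abbrev Fld (d : ℕ) := Om d → Dir d → ℝ

/-- The inner product of fields on the open edges of the infinite cluster. -/
noncomputable def ip (p : unitInterval) (I J : Fld d) : ℝ :=
  ∫ ω, ∑ δ, oo ω δ * (I ω δ * J ω δ) ∂(nu d p)

/-- The gradient of the coordinate in direction `l`. -/
noncomputable def Dl (l : Fin d → ℝ) : Fld d := fun _ δ => dt l δ

/-- The gradient of a function of the environment. -/
noncomputable def gr (f : Om d → ℝ) : Fld d := fun ω δ => f (sh (st δ) ω) - f ω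

/-- `E_0[Y_n · l]` for the lazy walk. -/
noncomputable def chi (l : Fin d → ℝ) (n : ℕ) (ω : Om d) : ℝ := Ln ω n (dot l) 0

/-- The gradient of `x ↦ E_x[Y_n · l]`. -/
noncomputable def GPsi (l : Fin d → ℝ) (n : ℕ) : Fld d := fun ω δ => dt l δ + gr (chi l n) ω δ

/-- `E_0[(Y_n · l)^2]` for the lazy walk. -/
noncomputable def U2 (l : Fin d → ℝ) (n : ℕ) (ω : Om d) : ℝ := Ln ω n (fun x => dot l x ^ 2) 0

/-- `u_n = E_Q[(Y_n · l)^2]`, `dQ = deg(0) d(nu)`. -/
noncomputable def uu (p : unitInterval) (l : Fin d → ℝ) (n : ℕ) : ℝ :=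
  ∫ ω, dg ω * U2 l n ω ∂(nu d p)

/-- The drift of the lazy walk at the origin. -/
noncomputable def drf (l : Fin d → ℝ) (ω : Om d) : ℝ := chi l 1 ω

/-- Antisymmetric fields. -/
def Anti (I : Fld d) : Prop := ∀ ω δ, opn ω 0 δ → I (sh (st δ) ω) (rv δ) = - I ω δ

/-- Fields vanishing on closed edges. -/
def Supp (I : Fld d) : Prop := ∀ ω δ, ¬ opn ω 0 δ → I ω δ = 0

/-- Admissible flows: fields with local, bounded, antisymmetric approximations which are divergence
free up to an exponentially small probability. -/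
def AdmJ (p : unitInterval) (A : ℕ) (I : Fld d) : Prop :=
  (∀ δ, Measurable (fun ω => I ω δ)) ∧ Integrable (fun ω => ∑ δ, oo ω δ * I ω δ ^ 2) (nu d p) ∧
  ∀ ρ : ℕ, 1 ≤ ρ → ∃ J : Fld d,
    (∀ δ, Loc (EB (A * ρ ^ A) (0 : V d) : Set (Ed d)) (fun ω => J ω δ)) ∧
    (∀ ω δ, |J ω δ| ≤ A * ρ ^ A) ∧ Anti J ∧ Supp J ∧
    (Pr d p).real {ω | ∑ δ, J ω δ ≠ 0} ≤ A * Real.exp (-(ρ : ℝ) / A) ∧
    ∫ ω, ∑ δ, oo ω δ * (J ω δ - I ω δ) ^ 2 ∂(nu d p) ≤ A * Real.exp (-(ρ : ℝ) / A)

/-- `I` is admissible. -/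
def Adm (p : unitInterval) (I : Fld d) : Prop := ∃ A : ℕ, 1 ≤ A ∧ AdmJ p A I

end Ein99
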