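import Pool.Agent.LibEin99.A_U
import Pool.Agent.LibEin99.C_Meas
import Pool.Agent.LibEin99.Defs2

/-!
TASK B_Speed. The speed is the limit of the normalised mean displacement.

`DD lam l ω n 0 = Pn n (dot l) 0` and `|dot l y| ≤ √d n` on `Bx n 0` (`abs_dot_sub_le`), so for `ε > 0`
`|DD/n - v| ≤ ε + (√d + |v|) Pn n (1{ε ≤ |dot l y/n - v|}) 0`. Integrate over `nu` and use `IsSpeed`.
`speed_le`: `v ≤ lam`, `0 ≤ v` from `DD_le` (in the limit; `tha > 0`).
-/

open MeasureTheory ProbabilityTheory Filter Topology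

namespace Ein99

variable {d : ℕ} {p : unitInterval}

theorem BSpeed_fin : IsFiniteMeasure (nu d p) := by
  unfold nu
  infer_instance

theorem BSpeed_int {f : Om d → ℝ} (hf : Measurable f) (C : ℝ) (h : ∀ ω, |f ω| ≤ C) :
    Integrable f (nu d p) := by
  haveI := BSpeed_fin (d := d) (p := p)
  exact Integrable.of_bound hf.aestronglyMeasurable C
    (Filter.Eventually.of_forall fun ω => by rw [Real.norm_eq_abs]; exact h ω)

theorem measurable_DD (lam : ℝ) (l : Fin d → ℝ) (n : ℕ) (x : V d) :
    Measurable (fun ω : Om d => DD lam l ω n x) := by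
  unfold DD
  exact (measurable_Pn lam l n (fun _ => dot l) (fun _ => measurable_const) x).sub
    measurable_const

theorem abs_DD_le (lam : ℝ) (l : Fin d → ℝ) (hl : ∑ i, l i ^ 2 = 1) (ω : Om d) (n : ℕ) (x : V d) :
    |DD lam l ω n x| ≤ n := by
  unfold DD
  exact abs_Pn_dot_le lam l ω hl n x

theorem BSpeed_dot_zero (l : Fin d → ℝ) : dot l 0 = 0 := by
  unfold dot
  simp

/-- The pointwise estimate. -/
theorem BSpeed_point (lam : ℝ) (l : Fin d → ℝ) (hl : ∑ i, l i ^ 2 = 1) (v ε : ℝ) (hε : 0 < ε)
    (ω : Om d) (n : ℕ) (hn : 1 ≤ n) :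
    |DD lam l ω n 0 / n - v| ≤ ε + (Real.sqrt d + |v|) * Pn lam l ω n
      (Set.indicator {y : V d | ε ≤ |dot l y / n - v|} (fun _ => (1 : ℝ))) 0 := by
  have hn0 : (0 : ℝ) < n := by exact_mod_cast hn
  set K : ℝ := Real.sqrt d + |v| with hK
  have hK0 : 0 ≤ K := by positivity
  -- rewrite the displacement
  have h1 : DD lam l ω n 0 / n - v = Pn lam l ω n (fun y => dot l y / n - v) 0 := by
    have e1 : (fun y : V d => dot l y / n - v) = ((1 / (n : ℝ)) • (dot l)) - (fun _ => v) := by
      funext y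
      simp only [Pi.sub_apply, Pi.smul_apply, smul_eq_mul]
      ring
    rw [e1, Pn_sub, Pn_smul, Pn_const]
    unfold DD
    rw [BSpeed_dot_zero]
    simp only [Pi.sub_apply, Pi.smul_apply, smul_eq_mul]
    ring
  rw [h1]
  refine (Pn_abs_le lam l ω n _ 0).trans ?_
  -- truncated comparison function
  have h2 : Pn lam l ω n (fun y => |dot l y / n - v|) 0 ≤
      Pn lam l ω n ((fun _ => ε) + K • (Set.indicator {y : V d | ε ≤ |dot l y / n - v|}
        (fun _ => (1 : ℝ)))) 0 := by
    classical
    have e1 : Pn lam l ω n (fun y => |dot l y / n - v|) 0 =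
        Pn lam l ω n (fun y => if y ∈ Bx n 0 then |dot l y / n - v| else 0) 0 := by
      apply Pn_congr
      intro y hy
      rw [if_pos hy]
    rw [e1]
    apply Pn_mono
    intro y
    simp only [Pi.add_apply, Pi.smul_apply, smul_eq_mul]
    by_cases hy : y ∈ Bx n (0 : V d)
    · rw [if_pos hy]
      by_cases hy2 : ε ≤ |dot l y / n - v|
      · rw [Set.indicator_of_mem (by exact hy2), mul_one]
        have h3 := abs_dot_sub_le l hl hy
        rw [BSpeed_dot_zero, sub_zero] at h3
        have h4 : |dot l y / n| ≤ Real.sqrt d := by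
          rw [abs_div, abs_of_pos hn0, div_le_iff₀ hn0]
          exact h3
        have h5 : |dot l y / n - v| ≤ |dot l y / n| + |v| := abs_sub _ _
        linarith
      · rw [Set.indicator_of_notMem (by exact hy2), mul_zero, add_zero]
        push Not at hy2
        exact hy2.le
    · rw [if_neg hy]
      have : 0 ≤ (Set.indicator {y : V d | ε ≤ |dot l y / n - v|} (fun _ => (1 : ℝ))) y :=
        Set.indicator_nonneg (fun _ _ => zero_le_one) _
      positivity
  refine h2.trans (le_of_eq ?_)
  rw [Pn_add, Pn_smul, Pn_const]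
  simp only [Pi.add_apply, Pi.smul_apply, smul_eq_mul]

theorem BSpeed_meas (lam : ℝ) (l : Fin d → ℝ) (n : ℕ) (S : Set (V d)) :
    Measurable (fun ω : Om d => Pn lam l ω n (Set.indicator S (fun _ => (1 : ℝ))) 0) :=
  measurable_Pn lam l n (fun _ => Set.indicator S (fun _ => (1 : ℝ))) (fun _ => measurable_const) 0

theorem BSpeed_ind_le (lam : ℝ) (l : Fin d → ℝ) (n : ℕ) (S : Set (V d)) (ω : Om d) :
    |Pn lam l ω n (Set.indicator S (fun _ => (1 : ℝ))) 0| ≤ 1 := by
  apply Pn_abs_le_of_box
  intro y _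
  by_cases hy : y ∈ S
  · rw [Set.indicator_of_mem hy]
    norm_num
  · rw [Set.indicator_of_notMem hy]
    norm_num

theorem speed_lim (lam : ℝ) (l : Fin d → ℝ) (hl : ∑ i, l i ^ 2 = 1) (v : ℝ)
    (hv : IsSpeed d p lam l v) :
    Tendsto (fun n : ℕ => (1 / (n : ℝ)) * ∫ ω, DD lam l ω n 0 ∂(nu d p)) atTop
      (𝓝 (tha d p * v)) := by
  haveI := BSpeed_fin (d := d) (p := p)
  have ht0 : 0 ≤ tha d p := by
    unfold tha
    exact measureReal_nonneg
  rw [Metric.tendsto_atTop]
  intro η hη
  set K : ℝ := Real.sqrt d + |v| with hK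
  have hK0 : 0 ≤ K := by positivity
  set ε : ℝ := η / (2 * (tha d p + 1)) with hε
  have hεpos : 0 < ε := by positivity
  have h1 := hv ε hεpos
  rw [Metric.tendsto_atTop] at h1
  obtain ⟨N, hN⟩ := h1 (η / (2 * (K + 1))) (by positivity)
  refine ⟨max N 1, ?_⟩
  intro n hn
  have hnN : N ≤ n := (le_max_left _ _).trans hn
  have hn1 : 1 ≤ n := (le_max_right _ _).trans hn
  have hn0 : (0 : ℝ) < n := by exact_mod_cast hn1
  have h2 := hN n hnN
  rw [Real.dist_eq, sub_zero] at h2
  set J : ℝ := ∫ ω, Pn lam l ω n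
    (Set.indicator {y : V d | ε ≤ |dot l y / n - v|} (fun _ => (1 : ℝ))) 0 ∂(nu d p) with hJ
  have hJle : J ≤ η / (2 * (K + 1)) := (le_abs_self _).trans h2.le
  have hJ0 : 0 ≤ J := by
    rw [hJ]
    apply integral_nonneg
    intro ω
    apply Pn_nonneg
    intro x
    exact Set.indicator_nonneg (fun _ _ => zero_le_one) _
  -- integrability
  have hi1 : Integrable (fun ω : Om d => DD lam l ω n 0) (nu d p) :=
    BSpeed_int (measurable_DD lam l n 0) n (fun ω => abs_DD_le lam l hl ω n 0)
  have hi2 : Integrable (fun ω : Om d => DD lam l ω n 0 / n - v) (nu d p) :=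
    (hi1.div_const _).sub (integrable_const _)
  have hi3 : Integrable (fun ω : Om d => Pn lam l ω n
      (Set.indicator {y : V d | ε ≤ |dot l y / n - v|} (fun _ => (1 : ℝ))) 0) (nu d p) :=
    BSpeed_int (BSpeed_meas lam l n _) 1 (fun ω => BSpeed_ind_le lam l n _ ω)
  have h3 : (1 / (n : ℝ)) * ∫ ω, DD lam l ω n 0 ∂(nu d p) - tha d p * v =
      ∫ ω, (DD lam l ω n 0 / n - v) ∂(nu d p) := by
    rw [integral_sub (hi1.div_const _) (integrable_const _), integral_div, integral_const]
    unfold tha
    rw [smul_eq_mul]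
    ring
  rw [Real.dist_eq, h3]
  calc |∫ ω, (DD lam l ω n 0 / n - v) ∂(nu d p)|
      ≤ ∫ ω, |DD lam l ω n 0 / n - v| ∂(nu d p) := abs_integral_le_integral_abs
    _ ≤ ∫ ω, (ε + K * Pn lam l ω n
        (Set.indicator {y : V d | ε ≤ |dot l y / n - v|} (fun _ => (1 : ℝ))) 0) ∂(nu d p) := by
        apply integral_mono hi2.abs ((integrable_const _).add (hi3.const_mul _))
        intro ω
        exact BSpeed_point lam l hl v ε hεpos ω n hn1
    _ = tha d p * ε + K * J := by
        rw [integral_add (integrable_const _) (hi3.const_mul _), integral_const,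
          integral_const_mul]
        unfold tha
        rw [smul_eq_mul]
    _ < η := by
        have e1 : tha d p * ε ≤ η / 2 := by
          rw [hε]
          have : tha d p * (η / (2 * (tha d p + 1))) = (η / 2) * (tha d p / (tha d p + 1)) := by
            field_simp
          rw [this]
          have h5 : tha d p / (tha d p + 1) ≤ 1 := by
            rw [div_le_one (by positivity)]
            linarith
          nlinarith
        have e2 : K * J < η / 2 := by
          have h5 : K * J ≤ K * (η / (2 * (K + 1))) := mul_le_mul_of_nonneg_left hJle hK0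
          have h6 : K * (η / (2 * (K + 1))) = (η / 2) * (K / (K + 1)) := by
            field_simp
          have h7 : K / (K + 1) < 1 := by
            rw [div_lt_one (by positivity)]
            linarith
          nlinarith
        linarith

theorem BSpeed_log_div : Tendsto (fun n : ℕ => Real.log ((n : ℝ) + 2) / n) atTop (𝓝 0) := by
  have h1 : Tendsto (fun n : ℕ => Real.log ((n : ℝ) + 2) / ((n : ℝ) + 2)) atTop (𝓝 0) := by
    have h2 : Tendsto (fun x : ℝ => Real.log x / x) atTop (𝓝 0) := by
      have := Real.isLittleO_log_id_atTop.tendsto_div_nhds_zero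
      exact this
    exact h2.comp (tendsto_atTop_add_const_right _ _ tendsto_natCast_atTop_atTop)
  have h3 : Tendsto (fun n : ℕ => 3 * (Real.log ((n : ℝ) + 2) / ((n : ℝ) + 2))) atTop (𝓝 0) := by
    have := h1.const_mul 3
    rwa [mul_zero] at this
  apply squeeze_zero' _ _ h3
  · filter_upwards [eventually_ge_atTop 1] with n hn
    have : 0 ≤ Real.log ((n : ℝ) + 2) := by
      apply Real.log_nonneg
      have : (0 : ℝ) ≤ n := Nat.cast_nonneg n
      linarith
    positivity
  · filter_upwards [eventually_ge_atTop 1] with n hn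
    have hn0 : (1 : ℝ) ≤ n := by exact_mod_cast hn
    have hl : 0 ≤ Real.log ((n : ℝ) + 2) := Real.log_nonneg (by linarith)
    rw [← mul_div_assoc, div_le_div_iff₀ (by linarith) (by linarith)]
    nlinarith

theorem BSpeed_sqrt_div :
    Tendsto (fun n : ℕ => Real.sqrt ((n : ℝ) * Real.log ((n : ℝ) + 2)) / n) atTop (𝓝 0) := by
  have h1 : Tendsto (fun n : ℕ => Real.sqrt (Real.log ((n : ℝ) + 2) / n)) atTop (𝓝 0) := by
    have := (Real.continuous_sqrt.tendsto 0).comp BSpeed_log_div
    rw [Real.sqrt_zero] at this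
    exact this
  refine h1.congr' ?_
  filter_upwards [eventually_ge_atTop 1] with n hn
  have hn0 : (0 : ℝ) < n := by exact_mod_cast hn
  have hl : 0 ≤ Real.log ((n : ℝ) + 2) := Real.log_nonneg (by linarith)
  have : Real.log ((n : ℝ) + 2) / n = ((n : ℝ) * Real.log ((n : ℝ) + 2)) / (n : ℝ) ^ 2 := by
    field_simp
  rw [this, Real.sqrt_div (by positivity), Real.sqrt_sq hn0.le]

theorem speed_le (lam : ℝ) (h0 : 0 < lam) (h1 : lam ≤ 1) (l : Fin d → ℝ)
    (hl : ∑ i, l i ^ 2 = 1) (ht : 0 < tha d p) (v : ℝ) (hv : IsSpeed d p lam l v) :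
    0 ≤ v ∧ v ≤ lam := by
  haveI := BSpeed_fin (d := d) (p := p)
  obtain ⟨C, hC, hDD⟩ := DD_le d
  have hlim := speed_lim lam l hl v hv
  have hi1 : ∀ n : ℕ, Integrable (fun ω : Om d => DD lam l ω n 0) (nu d p) := fun n =>
    BSpeed_int (measurable_DD lam l n 0) n (fun ω => abs_DD_le lam l hl ω n 0)
  constructor
  · -- lower bound
    have h2 : Tendsto (fun n : ℕ => -(C / lam * tha d p) * (Real.log ((n : ℝ) + 2) / n)) atTop
        (𝓝 0) := by
      have := BSpeed_log_div.const_mul (-(C / lam * tha d p))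
      rwa [mul_zero] at this
    have h3 : 0 ≤ tha d p * v := by
      apply le_of_tendsto_of_tendsto h2 hlim
      filter_upwards [eventually_ge_atTop 1] with n hn
      have hn0 : (0 : ℝ) < n := by exact_mod_cast hn
      have h4 : (∫ _ω, (-(C / lam * Real.log ((n : ℝ) + 2))) ∂(nu d p)) ≤
          ∫ ω, DD lam l ω n 0 ∂(nu d p) := by
        apply integral_mono (integrable_const _) (hi1 n)
        intro ω
        have h5 := (hDD lam l ω n 0 h0.le h1 hl hn).2
        have h6 : -(C * Real.log ((n : ℝ) + 2)) ≤ DD lam l ω n 0 * lam := by linarith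
        have h7 : -(C * Real.log ((n : ℝ) + 2)) / lam ≤ DD lam l ω n 0 := by
          rw [div_le_iff₀ h0]
          exact h6
        calc -(C / lam * Real.log ((n : ℝ) + 2)) = -(C * Real.log ((n : ℝ) + 2)) / lam := by ring
          _ ≤ _ := h7
      rw [integral_const, smul_eq_mul] at h4
      calc -(C / lam * tha d p) * (Real.log ((n : ℝ) + 2) / n)
          = (1 / (n : ℝ)) * (tha d p * -(C / lam * Real.log ((n : ℝ) + 2))) := by ring
        _ ≤ (1 / (n : ℝ)) * ∫ ω, DD lam l ω n 0 ∂(nu d p) := by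
            apply mul_le_mul_of_nonneg_left _ (by positivity)
            exact h4
    exact (mul_nonneg_iff_of_pos_left ht).1 h3
  · have h2 : Tendsto (fun n : ℕ => tha d p * lam + C * tha d p *
        (Real.sqrt ((n : ℝ) * Real.log ((n : ℝ) + 2)) / n)) atTop (𝓝 (tha d p * lam)) := by
      have := (BSpeed_sqrt_div.const_mul (C * tha d p)).const_add (tha d p * lam)
      rwa [mul_zero, add_zero] at this
    have h3 : tha d p * v ≤ tha d p * lam := by
      apply le_of_tendsto_of_tendsto hlim h2
      filter_upwards [eventually_ge_atTop 1] with n hn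
      have hn0 : (0 : ℝ) < n := by exact_mod_cast hn
      have h4 : ∫ ω, DD lam l ω n 0 ∂(nu d p) ≤
          ∫ _ω, (lam * n + C * Real.sqrt ((n : ℝ) * Real.log ((n : ℝ) + 2))) ∂(nu d p) := by
        apply integral_mono (hi1 n) (integrable_const _)
        intro ω
        exact (hDD lam l ω n 0 h0.le h1 hl hn).1
      rw [integral_const, smul_eq_mul] at h4
      calc (1 / (n : ℝ)) * ∫ ω, DD lam l ω n 0 ∂(nu d p)
          ≤ (1 / (n : ℝ)) * (tha d p *
            (lam * n + C * Real.sqrt ((n : ℝ) * Real.log ((n : ℝ) + 2)))) := by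
            apply mul_le_mul_of_nonneg_left _ (by positivity)
            exact h4
        _ = tha d p * lam + C * tha d p *
            (Real.sqrt ((n : ℝ) * Real.log ((n : ℝ) + 2)) / n) := by
            field_simp
    exact le_of_mul_le_mul_left h3 ht

end Ein99
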