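import Pool.Agent.LibEin99.C_Shift

/-!
TASK C_Chain. Deterministic consequences of the local uniqueness events.

`toBd_of_InfC`: the cluster of `x` is infinite, so it contains a point outside the box `Bx r z`;
follow the path until it is about to leave the box for the first time: that vertex has a coordinate
at distance exactly `r` (steps change one coordinate by one).

`ToBd_mono`: if `x ∈ Bx s z` is joined to the boundary of `Bx r z` inside it and `s ≤ r`, then `x` is
joined to the boundary of `Bx s z` inside `Bx s z` (first exit).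

`chain_infC`: let `LG K ω m' z` for all `m' ≥ m ≥ 1`, `K ≥ 2`. By (i) pick `x_m' ∈ Bx m' z` with
`ToBd ω (2*K*m') z x_m'`. Since `K*(m'+1) ≤ 2*K*m'`, both `x_m'` and `x_{m'+1}` lie in
`Bx (m'+1) z` and are joined to the boundary of `Bx (K*(m'+1)) z`, so they are joined (part (ii) at
scale `m'+1`). Hence the cluster of `x_m` contains points at distance `≥ 2*K*m'` from `z` for all
`m' ≥ m`: it is infinite. If `y ∈ Bx m z` with `ToBd ω (K*m) z y` then `y` is joined to `x_m`.
-/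

open MeasureTheory ProbabilityTheory Filter Topology

namespace Ein99

variable {d : ℕ}

theorem Adj_symm (ω : Om d) {x y : V d} (h : Adj ω x y) : Adj ω y x := by
  obtain ⟨δ, h1, rfl⟩ := h
  exact ⟨rv δ, (opn_rv ω x δ).2 h1, by rw [st_rv, add_neg_cancel_right]⟩

theorem Conn_symm (ω : Om d) {x y : V d} (h : Conn ω x y) : Conn ω y x := by
  induction h with
  | refl => exact Relation.ReflTransGen.refl
  | tail _ hbc ih => exact Relation.ReflTransGen.head (Adj_symm ω hbc) ih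

theorem JoinIn_symm (ω : Om d) (S : Set (V d)) {x y : V d} (h : JoinIn ω S x y) :
    JoinIn ω S y x := by
  induction h with
  | refl => exact Relation.ReflTransGen.refl
  | tail _ hbc ih =>
    exact Relation.ReflTransGen.head ⟨hbc.2.1, hbc.1, Adj_symm ω hbc.2.2⟩ ih

theorem JoinIn_mono (ω : Om d) {S T : Set (V d)} (hST : S ⊆ T) {x y : V d} (h : JoinIn ω S x y) :
    JoinIn ω T x y := by
  induction h with
  | refl => exact Relation.ReflTransGen.refl
  | tail _ hbc ih => exact Relation.ReflTransGen.tail ih ⟨hST hbc.1, hST hbc.2.1, hbc.2.2⟩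

theorem JoinIn.conn (ω : Om d) {S : Set (V d)} {x y : V d} (h : JoinIn ω S x y) :
    Conn ω x y := by
  induction h with
  | refl => exact Relation.ReflTransGen.refl
  | tail _ hbc ih => exact Relation.ReflTransGen.tail ih hbc.2.2

theorem InfC_of_conn (ω : Om d) {x y : V d} (h : Conn ω x y) (hx : InfC ω x) : InfC ω y := by
  refine Set.Infinite.mono (fun w hw => ?_) hx
  exact (Conn_symm ω h).trans hw

/-- dichotomy along a path -/
theorem conn_dich (ω : Om d) (r : ℕ) {z x y : V d} (hx : x ∈ Bx r z) (h : Conn ω x y) :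
    ToBd ω r z x ∨ (y ∈ Bx r z ∧ JoinIn ω (Bx r z : Set (V d)) x y) := by
  induction h with
  | refl => exact Or.inr ⟨hx, Relation.ReflTransGen.refl⟩
  | @tail b c _ hbc ih =>
    rcases ih with h1 | ⟨hb, hj⟩
    · exact Or.inl h1
    · by_cases hc : c ∈ Bx r z
      · exact Or.inr ⟨hc, Relation.ReflTransGen.tail hj ⟨hb, hc, hbc⟩⟩
      · left
        refine ⟨b, ⟨hb, ?_⟩, hj⟩
        obtain ⟨δ, _, rfl⟩ := hbc
        rw [mem_Bx] at hc
        push Not at hc
        obtain ⟨i, hi⟩ := hc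
        refine ⟨i, ?_⟩
        have h1 := (mem_Bx.1 (add_st_mem_Bx b δ)) i
        have h2 := (mem_Bx.1 hb) i
        rw [abs_le] at h1 h2
        rw [lt_abs] at hi
        push_cast at h1
        omega

/-- a connected set leaving the box reaches the boundary of the box inside the box -/
theorem toBd_of_conn (ω : Om d) (r : ℕ) {z x y : V d} (hx : x ∈ Bx r z) (hy : y ∉ Bx r z)
    (h : Conn ω x y) : ToBd ω r z x := by
  rcases conn_dich ω r hx h with h1 | h1
  · exact h1
  · exact absurd h1.1 hy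

theorem toBd_of_InfC (ω : Om d) (r : ℕ) {z x : V d} (hx : x ∈ Bx r z) (h : InfC ω x) :
    ToBd ω r z x := by
  by_contra hcon
  refine h ((Bx r z).finite_toSet.subset fun y hy => ?_)
  rcases conn_dich ω r hx hy with h1 | h1
  · exact absurd h1 hcon
  · exact h1.1

/-- first exit from a smaller box (possibly with another centre) -/
theorem ToBd_mono (ω : Om d) {r s : ℕ} {z y x : V d} (hsub : Bx s y ⊆ Bx r z) (hx : x ∈ Bx s y)
    (h : ToBd ω r z x) : ToBd ω s y x := by
  obtain ⟨w, ⟨_, i, hi⟩, hj⟩ := h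
  rcases conn_dich ω s hx (JoinIn.conn ω hj) with h1 | ⟨h1, h2⟩
  · exact h1
  · refine ⟨w, ⟨h1, i, ?_⟩, h2⟩
    have hp : (fun j => y j + (s : ℤ)) ∈ Bx s y := by
      rw [mem_Bx]
      intro j
      simp
    have hm : (fun j => y j - (s : ℤ)) ∈ Bx s y := by
      rw [mem_Bx]
      intro j
      simp
    have hp' := (mem_Bx.1 (hsub hp)) i
    have hm' := (mem_Bx.1 (hsub hm)) i
    have h3 := (mem_Bx.1 h1) i
    rw [abs_le] at hp' hm' h3
    omega

/-- `ToBd` is transported along connections inside the box. -/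
theorem ToBd_of_JoinIn (ω : Om d) {r : ℕ} {z x y : V d}
    (h : JoinIn ω (Bx r z : Set (V d)) x y) (hy : ToBd ω r z y) : ToBd ω r z x := by
  obtain ⟨w, hw, hj⟩ := hy
  exact ⟨w, hw, h.trans hj⟩

theorem chain_aux (K : ℕ) (hK : 2 ≤ K) (ω : Om d) (z : V d) (m : ℕ) (hm : 1 ≤ m)
    (h : ∀ m', m ≤ m' → LG K ω m' z) :
    ∃ x ∈ Bx m z, ToBd ω (K * m) z x ∧ InfC ω x := by
  have hx : ∀ k : ℕ, ∃ x, x ∈ Bx (m + k) z ∧ ToBd ω (2 * K * (m + k)) z x := fun k => by
    obtain ⟨x, hx1, hx2⟩ := (h (m + k) (Nat.le_add_right m k)).1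
    exact ⟨x, hx1, hx2⟩
  choose x hx1 hx2 using hx
  have hxK : ∀ k : ℕ, ToBd ω (K * (m + k)) z (x k) := fun k => by
    refine ToBd_mono ω (Bx_mono ?_ z) (Bx_mono ?_ z (hx1 k)) (hx2 k)
    · nlinarith
    · nlinarith
  have hstep : ∀ k : ℕ, Conn ω (x k) (x (k + 1)) := fun k => by
    have hLG := (h (m + (k + 1)) (Nat.le_add_right m (k + 1))).2
    refine JoinIn.conn ω (hLG (x k) (Bx_mono ?_ z (hx1 k)) (x (k + 1)) (hx1 (k + 1)) ?_
      (hxK (k + 1)))
    · omega
    · refine ToBd_mono ω (Bx_mono ?_ z) (Bx_mono ?_ z (hx1 k)) (hx2 k)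
      · nlinarith [Nat.zero_le k, Nat.zero_le (K * k)]
      · nlinarith
  have hconn : ∀ k : ℕ, Conn ω (x 0) (x k) := fun k => by
    induction k with
    | zero => exact Relation.ReflTransGen.refl
    | succ k ih => exact ih.trans (hstep k)
  refine ⟨x 0, by simpa using hx1 0, by simpa using hxK 0, ?_⟩
  intro hfin
  obtain ⟨R, hR⟩ := (hfin.image (fun y : V d => ∑ i, (y i - z i).natAbs)).bddAbove
  obtain ⟨w, ⟨_, i, hi⟩, hj⟩ := hx2 (R + 1)
  have hw : Conn ω (x 0) w := (hconn (R + 1)).trans (JoinIn.conn ω hj)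
  have h1 : ∑ i, (w i - z i).natAbs ≤ R := hR ⟨w, hw, rfl⟩
  have h2 : (w i - z i).natAbs ≤ ∑ i, (w i - z i).natAbs :=
    Finset.single_le_sum (f := fun i => (w i - z i).natAbs) (fun _ _ => Nat.zero_le _)
      (Finset.mem_univ i)
  rw [hi] at h2
  nlinarith

theorem chain_infC (K : ℕ) (hK : 2 ≤ K) (ω : Om d) (z : V d) (m : ℕ) (hm : 1 ≤ m)
    (h : ∀ m', m ≤ m' → LG K ω m' z) : ∃ x ∈ Bx m z, InfC ω x := by
  obtain ⟨x, h1, _, h3⟩ := chain_aux K hK ω z m hm h
  exact ⟨x, h1, h3⟩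

theorem chain_infC' (K : ℕ) (hK : 2 ≤ K) (ω : Om d) (z : V d) (m : ℕ) (hm : 1 ≤ m)
    (h : ∀ m', m ≤ m' → LG K ω m' z) (y : V d) (hy : y ∈ Bx m z) (hy2 : ToBd ω (K * m) z y) :
    InfC ω y := by
  obtain ⟨x, h1, h2, h3⟩ := chain_aux K hK ω z m hm h
  exact InfC_of_conn ω (JoinIn.conn ω ((h m le_rfl).2 x h1 y hy h2 hy2)) h3

theorem chain_join (K : ℕ) (hK : 2 ≤ K) (ω : Om d) (z : V d) (m : ℕ) (h : LG K ω m z) (x y : V d)
    (hx : x ∈ Bx m z) (hy : y ∈ Bx m z) (hx2 : InfC ω x) (hy2 : InfC ω y) :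
    JoinIn ω (Bx (K * m) z : Set (V d)) x y := by
  have hmK : m ≤ K * m := by nlinarith
  exact h.2 x hx y hy (toBd_of_InfC ω _ (Bx_mono hmK z hx) hx2)
    (toBd_of_InfC ω _ (Bx_mono hmK z hy) hy2)

end Ein99
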