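import Pool.Agent.LibEin99.C_Meas
import Pool.Agent.LibEin99.C_Chain

/-!
TASK C_Tail. Probabilistic consequences of the hypothesis `HypH`.

All by translation invariance (`mp_sh`, `LG_sh`), union bounds, a geometric series
`∑_{m ≥ k} C e^{-cm} ≤ C/(1-e^{-c}) e^{-ck}` and Borel-Cantelli
(`MeasureTheory.measure_limsup_atTop_eq_zero` / `ae_eventually_notMem`).

`tail_from`: P(∃ m ≥ k, ¬ LG K ω m z) ≤ C' e^{-ck}.
`tail_Lc`: if `ToBd ω ρ 0 0` and `LG K ω m' 0` for all `m' ≥ m = ρ / K` (`m ≥ 1`), then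
`ToBd ω (K*m) 0 0` (`ToBd_mono`) so `InfC ω 0` by `chain_infC'`; if `ρ < K` adjust the constant.
`ae_unique`: two infinite-cluster points lie in a common box `Bx m 0` with `LG K ω m 0`.
`theta_pos`: if `P(InfC 0) = 0` then by invariance a.s. no vertex is in an infinite cluster,
contradicting `ae_exists`.
-/

open MeasureTheory ProbabilityTheory Filter Topology

namespace Ein99

variable {d : ℕ} {p : unitInterval} {K : ℕ} {C c : ℝ}

theorem LG_prob (hH : HypH d p K C c) (m : ℕ) (z : V d) :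
    (Pr d p).real {ω : Om d | ¬ LG K ω m z} ≤ C * Real.exp (-c * m) := by
  have h1 : {ω : Om d | ¬ LG K ω m z} = (sh z) ⁻¹' {ω : Om d | ¬ LG K ω m 0} := by
    ext ω
    simp only [Set.mem_ofPred_eq, Set.mem_preimage, LG_sh, zero_add]
  have h2 : (Pr d p).real ((sh z) ⁻¹' {ω : Om d | ¬ LG K ω m 0})
      = (Pr d p).real {ω : Om d | ¬ LG K ω m 0} := by
    have h3 : MeasurableSet {ω : Om d | ¬ LG K ω m 0} := (measurableSet_LG K m 0).compl
    unfold Measure.real
    rw [(mp_sh p z).measure_preimage h3.nullMeasurableSet]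
  rw [h1, h2]
  exact hH.h m

theorem LG_prob' (hH : HypH d p K C c) (m : ℕ) (z : V d) :
    (Pr d p) {ω : Om d | ¬ LG K ω m z} ≤ ENNReal.ofReal (C * Real.exp (-c * m)) := by
  rw [← ofReal_measureReal (measure_ne_top _ _)]
  exact ENNReal.ofReal_le_ofReal (LG_prob hH m z)

theorem exp_neg_lt_one' (hc : 0 < c) : Real.exp (-c) < 1 := by
  rw [Real.exp_lt_one_iff]; linarith

theorem hasSum_geo (hc : 0 < c) (k : ℕ) :
    HasSum (fun j : ℕ => C * Real.exp (-c * ((k + j : ℕ) : ℝ)))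
      (C / (1 - Real.exp (-c)) * Real.exp (-c * k)) := by
  have h1 := hasSum_geometric_of_lt_one (Real.exp_pos (-c)).le (exp_neg_lt_one' hc)
  have h2 := h1.mul_left (C * Real.exp (-c * k))
  have h3 : (fun j : ℕ => C * Real.exp (-c * ((k + j : ℕ) : ℝ)))
      = fun j : ℕ => C * Real.exp (-c * k) * Real.exp (-c) ^ j := by
    funext j
    rw [← Real.exp_nat_mul, mul_assoc, ← Real.exp_add]
    congr 2
    push_cast
    ring
  rw [h3]
  have h4 : C / (1 - Real.exp (-c)) * Real.exp (-c * k)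
      = C * Real.exp (-c * k) * (1 - Real.exp (-c))⁻¹ := by ring
  rw [h4]
  exact h2

theorem tail_from (hH : HypH d p K C c) (k : ℕ) (z : V d) :
    (Pr d p).real {ω : Om d | ∃ m, k ≤ m ∧ ¬ LG K ω m z}
      ≤ C / (1 - Real.exp (-c)) * Real.exp (-c * k) := by
  have h1 : {ω : Om d | ∃ m, k ≤ m ∧ ¬ LG K ω m z} = ⋃ j : ℕ, {ω : Om d | ¬ LG K ω (k + j) z} := by
    ext ω
    simp only [Set.mem_ofPred_eq, Set.mem_iUnion]
    constructor
    · rintro ⟨m, hm, h⟩
      exact ⟨m - k, by rwa [Nat.add_sub_cancel' hm]⟩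
    · rintro ⟨j, h⟩
      exact ⟨k + j, Nat.le_add_right k j, h⟩
  have hs := hasSum_geo (C := C) hH.hc k
  have hnn : ∀ j : ℕ, 0 ≤ C * Real.exp (-c * ((k + j : ℕ) : ℝ)) :=
    fun j => mul_nonneg hH.hC.le (Real.exp_pos _).le
  have h2 : (Pr d p) {ω : Om d | ∃ m, k ≤ m ∧ ¬ LG K ω m z}
      ≤ ENNReal.ofReal (C / (1 - Real.exp (-c)) * Real.exp (-c * k)) := by
    rw [h1]
    calc (Pr d p) (⋃ j : ℕ, {ω : Om d | ¬ LG K ω (k + j) z})
        ≤ ∑' j : ℕ, (Pr d p) {ω : Om d | ¬ LG K ω (k + j) z} := measure_iUnion_le _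
      _ ≤ ∑' j : ℕ, ENNReal.ofReal (C * Real.exp (-c * ((k + j : ℕ) : ℝ))) :=
          ENNReal.tsum_le_tsum fun j => LG_prob' hH (k + j) z
      _ = ENNReal.ofReal (∑' j : ℕ, C * Real.exp (-c * ((k + j : ℕ) : ℝ))) :=
          (ENNReal.ofReal_tsum_of_nonneg hnn hs.summable).symm
      _ = _ := by rw [hs.tsum_eq]
  exact ENNReal.toReal_le_of_le_ofReal (hs.nonneg hnn) h2

theorem ae_LG (hH : HypH d p K C c) :
    ∀ᵐ ω ∂(Pr d p), ∀ z : V d, ∀ᶠ m : ℕ in atTop, LG K ω m z := by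
  rw [ae_all_iff]
  intro z
  have hs := hasSum_geo (C := C) hH.hc 0
  have hnn : ∀ j : ℕ, 0 ≤ C * Real.exp (-c * ((0 + j : ℕ) : ℝ)) :=
    fun j => mul_nonneg hH.hC.le (Real.exp_pos _).le
  have h1 : ∑' m : ℕ, (Pr d p) {ω : Om d | ¬ LG K ω m z} ≠ ⊤ := by
    refine ne_top_of_le_ne_top ?_ (ENNReal.tsum_le_tsum fun j : ℕ =>
      (?_ : (Pr d p) {ω : Om d | ¬ LG K ω j z}
        ≤ ENNReal.ofReal (C * Real.exp (-c * ((0 + j : ℕ) : ℝ)))))
    · rw [← ENNReal.ofReal_tsum_of_nonneg hnn hs.summable]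
      exact ENNReal.ofReal_ne_top
    · rw [zero_add]; exact LG_prob' hH j z
  have h2 := measure_setOfPred_frequently_eq_zero h1
  rw [ae_iff]
  refine measure_mono_null ?_ h2
  intro ω hω
  simp only [Set.mem_ofPred_eq, not_eventually] at hω ⊢
  exact hω

theorem ae_exists (hH : HypH d p K C c) :
    ∀ᵐ ω ∂(Pr d p), ∃ x : V d, InfC ω x := by
  filter_upwards [ae_LG hH] with ω hω
  obtain ⟨m, hm⟩ := eventually_atTop.1 (hω 0)
  obtain ⟨x, _, hx⟩ := chain_infC K hH.hK ω 0 (max m 1) (le_max_right _ _)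
    (fun m' hm' => hm m' ((le_max_left _ _).trans hm'))
  exact ⟨x, hx⟩

theorem exists_mem_Bx (x : V d) : ∃ m : ℕ, ∀ m', m ≤ m' → x ∈ Bx m' (0 : V d) := by
  refine ⟨∑ i, (x i).natAbs, fun m' hm' => ?_⟩
  unfold Bx
  rw [Finset.mem_Icc]
  have h : ∀ i, (x i).natAbs ≤ m' := fun i =>
    (Finset.single_le_sum (f := fun i => (x i).natAbs) (fun _ _ => Nat.zero_le _)
      (Finset.mem_univ i)).trans hm'
  constructor
  · intro i
    have := h i
    simp only [Pi.zero_apply]
    omega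
  · intro i
    have := h i
    simp only [Pi.zero_apply]
    omega

theorem ae_unique (hH : HypH d p K C c) :
    ∀ᵐ ω ∂(Pr d p), ∀ x y : V d, InfC ω x → InfC ω y → Conn ω x y := by
  filter_upwards [ae_LG hH] with ω hω
  intro x y hx hy
  obtain ⟨m, hm⟩ := eventually_atTop.1 (hω 0)
  obtain ⟨a, ha⟩ := exists_mem_Bx x
  obtain ⟨b, hb⟩ := exists_mem_Bx y
  have h := chain_join K hH.hK ω 0 (max m (max a b)) (hm _ (le_max_left _ _)) x y
    (ha _ ((le_max_left _ _).trans (le_max_right _ _)))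
    (hb _ ((le_max_right _ _).trans (le_max_right _ _))) hx hy
  exact JoinIn.conn ω h

theorem theta_pos (hH : HypH d p K C c) : 0 < (nu d p).real Set.univ := by
  have h0 : (nu d p) Set.univ = (Pr d p) {ω : Om d | InfC ω 0} := by
    unfold nu
    rw [Measure.restrict_apply_univ]
  have h1 : (Pr d p) {ω : Om d | InfC ω 0} ≠ 0 := by
    intro h
    have h2 : ∀ x : V d, (Pr d p) {ω : Om d | InfC ω x} = 0 := by
      intro x
      have h3 : {ω : Om d | InfC ω x} = (sh x) ⁻¹' {ω : Om d | InfC ω 0} := by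
        ext ω
        simp only [Set.mem_ofPred_eq, Set.mem_preimage, InfC_sh, zero_add]
      rw [h3, (mp_sh p x).measure_preimage (measurableSet_InfC 0).nullMeasurableSet, h]
    have h4 : (Pr d p) (⋃ x : V d, {ω : Om d | InfC ω x}) = 0 := measure_iUnion_null h2
    have h5 : (Pr d p) Set.univ = 0 := by
      have h6 := ae_exists hH
      rw [ae_iff] at h6
      have h7 : (Set.univ : Set (Om d)) ⊆
          (⋃ x : V d, {ω : Om d | InfC ω x}) ∪ {ω : Om d | ¬ ∃ x : V d, InfC ω x} := by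
        intro ω _
        by_cases h8 : ∃ x : V d, InfC ω x
        · left
          obtain ⟨x, hx⟩ := h8
          exact Set.mem_iUnion.2 ⟨x, hx⟩
        · right; exact h8
      exact measure_mono_null h7 (measure_union_null h4 h6)
    rw [measure_univ] at h5
    exact one_ne_zero h5
  unfold Measure.real
  rw [h0]
  exact ENNReal.toReal_pos h1 (measure_ne_top _ _)

theorem tail_Lc (hH : HypH d p K C c) : ∃ C' c' : ℝ, 0 < C' ∧ 0 < c' ∧ ∀ (ρ : ℕ) (x : V d),
    (Pr d p).real {ω : Om d | ToBd ω ρ x x ∧ ¬ InfC ω x} ≤ C' * Real.exp (-c' * ρ) := by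
  have hK0 : (0 : ℝ) < K := by
    have := hH.hK
    exact_mod_cast (by omega : 0 < K)
  have hc := hH.hc
  have he : 0 < 1 - Real.exp (-c) := by
    have := exp_neg_lt_one' hc
    linarith
  refine ⟨(C / (1 - Real.exp (-c)) + 1) * Real.exp c, c / K,
    mul_pos (by have := div_pos hH.hC he; linarith) (Real.exp_pos _), div_pos hc hK0, ?_⟩
  intro ρ x
  have hA : 0 ≤ C / (1 - Real.exp (-c)) := (div_pos hH.hC he).le
  rcases Nat.eq_zero_or_pos (ρ / K) with h0 | h0
  · have h1 : ρ < K := by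
      rcases Nat.div_eq_zero_iff.1 h0 with h | h
      · have := hH.hK; omega
      · exact h
    have h2 : (Pr d p).real {ω : Om d | ToBd ω ρ x x ∧ ¬ InfC ω x} ≤ 1 := measureReal_le_one
    refine h2.trans ?_
    rw [mul_assoc, ← Real.exp_add]
    have h3 : 1 ≤ Real.exp (c + -(c / K) * ρ) := by
      apply Real.one_le_exp
      have h4 : (ρ : ℝ) ≤ K := by exact_mod_cast h1.le
      have h5 : c / K * ρ ≤ c / K * K := mul_le_mul_of_nonneg_left h4 (div_pos hc hK0).le
      rw [div_mul_cancel₀ c hK0.ne'] at h5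
      linarith
    nlinarith
  · have h1 : {ω : Om d | ToBd ω ρ x x ∧ ¬ InfC ω x}
        ⊆ {ω : Om d | ∃ m, ρ / K ≤ m ∧ ¬ LG K ω m x} := by
      rintro ω ⟨h2, h3⟩
      by_contra h4
      simp only [Set.mem_ofPred_eq, not_exists, not_and, not_not] at h4
      apply h3
      have hxm : ∀ r : ℕ, x ∈ Bx r x := by
        intro r
        unfold Bx
        rw [Finset.mem_Icc]
        constructor <;> intro i <;> simp
      have hle : K * (ρ / K) ≤ ρ := Nat.mul_div_le ρ K
      have hsub : Bx (K * (ρ / K)) x ⊆ Bx ρ x := by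
        intro y hy
        unfold Bx at hy ⊢
        rw [Finset.mem_Icc] at hy ⊢
        have hle' : ((K * (ρ / K) : ℕ) : ℤ) ≤ (ρ : ℤ) := by exact_mod_cast hle
        constructor
        · intro i
          have := hy.1 i
          simp only at this ⊢
          linarith
        · intro i
          have := hy.2 i
          simp only at this ⊢
          linarith
      exact chain_infC' K hH.hK ω x (ρ / K) h0 h4 x (hxm _)
        (ToBd_mono ω hsub (hxm _) h2)
    have h5 : (Pr d p).real {ω : Om d | ToBd ω ρ x x ∧ ¬ InfC ω x}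
        ≤ C / (1 - Real.exp (-c)) * Real.exp (-c * (ρ / K : ℕ)) :=
      (measureReal_mono h1 (measure_ne_top _ _)).trans (tail_from hH (ρ / K) x)
    refine h5.trans ?_
    rw [mul_assoc, ← Real.exp_add]
    have h6 : Real.exp (-c * (ρ / K : ℕ)) ≤ Real.exp (c + -(c / K) * ρ) := by
      apply Real.exp_le_exp.2
      have h7 : (ρ : ℝ) / K < (ρ / K : ℕ) + 1 := by
        rw [div_lt_iff₀ hK0]
        have h8 := Nat.lt_div_mul_add (a := ρ) (b := K) (by have := hH.hK; omega)
        have h9 : (ρ : ℝ) < (ρ / K : ℕ) * K + K := by exact_mod_cast h8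
        linarith
      have h10 : c * ((ρ : ℝ) / K) ≤ c * ((ρ / K : ℕ) + 1) :=
        mul_le_mul_of_nonneg_left h7.le hc.le
      have h11 : c / K * ρ = c * ((ρ : ℝ) / K) := by ring
      rw [neg_mul, neg_mul, h11]
      linarith
    calc C / (1 - Real.exp (-c)) * Real.exp (-c * (ρ / K : ℕ))
        ≤ C / (1 - Real.exp (-c)) * Real.exp (c + -(c / K) * ρ) :=
          mul_le_mul_of_nonneg_left h6 hA
      _ ≤ (C / (1 - Real.exp (-c)) + 1) * Real.exp (c + -(c / K) * ρ) :=
          mul_le_mul_of_nonneg_right (by linarith) (Real.exp_pos _).le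

/-- `Mz ω z` is the last scale at which local uniqueness fails around `z`. -/
noncomputable def Mz (K : ℕ) (ω : Om d) (z : V d) : ℕ := sInf {M : ℕ | ∀ m, M < m → LG K ω m z}

theorem Mz_spec (hH : HypH d p K C c) :
    ∀ᵐ ω ∂(Pr d p), ∀ (z : V d) (m : ℕ), Mz K ω z < m → LG K ω m z := by
  filter_upwards [ae_LG hH] with ω hω
  intro z
  obtain ⟨m, hm⟩ := eventually_atTop.1 (hω z)
  have h : {M : ℕ | ∀ m, M < m → LG K ω m z}.Nonempty := ⟨m, fun m' hm' => hm m' hm'.le⟩
  exact Nat.sInf_mem h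

theorem measurable_Mz (z : V d) : Measurable (fun ω : Om d => Mz K ω z) := by
  classical
  have hm : ∀ M : ℕ, MeasurableSet {ω : Om d | ∀ m, M < m → LG K ω m z} := by
    intro M
    have : {ω : Om d | ∀ m, M < m → LG K ω m z}
        = ⋂ m : ℕ, ⋂ (_ : M < m), {ω : Om d | LG K ω m z} := by
      ext ω; simp
    rw [this]
    exact MeasurableSet.iInter fun m => MeasurableSet.iInter fun _ => measurableSet_LG K m z
  let q : Om d → ℕ → Prop := fun ω M => (∀ m, M < m → LG K ω m z) ∨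
    ∀ M', ¬ ∀ m, M' < m → LG K ω m z
  have hq : ∀ ω, ∃ N, q ω N := by
    intro ω
    by_cases h : ∃ M, ∀ m, M < m → LG K ω m z
    · obtain ⟨M, hM⟩ := h
      exact ⟨M, Or.inl hM⟩
    · exact ⟨0, Or.inr (not_exists.1 h)⟩
  have hqm : ∀ k, MeasurableSet {ω | q ω k} := by
    intro k
    have : {ω | q ω k} = {ω : Om d | ∀ m, k < m → LG K ω m z} ∪
        ⋂ M' : ℕ, {ω : Om d | ∀ m, M' < m → LG K ω m z}ᶜ := by
      ext ω
      simp only [q, Set.mem_ofPred_eq, Set.mem_union, Set.mem_iInter, Set.mem_compl_iff]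
    rw [this]
    exact (hm k).union (MeasurableSet.iInter fun M' => (hm M').compl)
  have h := measurable_find hq hqm
  convert h using 2 with ω
  symm
  rw [Nat.find_eq_iff]
  by_cases h : ∃ M, ∀ m, M < m → LG K ω m z
  · have h1 : {M : ℕ | ∀ m, M < m → LG K ω m z}.Nonempty := h
    refine ⟨Or.inl (Nat.sInf_mem h1), fun n hn => ?_⟩
    rintro (h2 | h2)
    · exact Nat.notMem_of_lt_sInf hn h2
    · obtain ⟨M, hM⟩ := h
      exact h2 M hM
  · refine ⟨Or.inr (not_exists.1 h), fun n hn => ?_⟩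
    have h1 : {M : ℕ | ∀ m, M < m → LG K ω m z} = ∅ := by
      ext M
      simp only [Set.mem_ofPred_eq, Set.mem_empty_iff_false, iff_false]
      exact not_exists.1 h M
    unfold Mz at hn
    rw [h1, Nat.sInf_empty] at hn
    omega

theorem Mz_sh (ω : Om d) (y z : V d) : Mz K (sh y ω) z = Mz K ω (z + y) := by
  unfold Mz
  simp only [LG_sh]

theorem Mz_tail (hH : HypH d p K C c) (k : ℕ) (z : V d) :
    (Pr d p).real {ω : Om d | k ≤ Mz K ω z}
      ≤ C / (1 - Real.exp (-c)) * Real.exp (-c * k) ∨ k = 0 := by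
  rcases Nat.eq_zero_or_pos k with h0 | h0
  · right; exact h0
  · left
    refine (measureReal_mono ?_ (measure_ne_top _ _)).trans (tail_from hH k z)
    intro ω hω
    simp only [Set.mem_ofPred_eq] at hω ⊢
    by_contra h
    have h1 : k - 1 ∈ {M : ℕ | ∀ m, M < m → LG K ω m z} := by
      intro m hm
      by_contra h2
      exact h ⟨m, by omega, h2⟩
    have h2 : Mz K ω z ≤ k - 1 := Nat.sInf_le h1
    omega

end Ein99
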