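import Pool.Agent.LibEin99.A_Occ
import Pool.Agent.LibEin99.C_Loc2

/-!
TASK G_Hit. Hitting probabilities and the maximum principle.

`hit n U y` = probability, starting from `y`, to visit `U` at some time `≤ n`.
* `hit_le_sum`: induction on `n`: `hit (n+1) U y ≤ 1_U y + Pop (hit n U) y`.
* `Occ_le_hit`: for `x ∈ U`: `Occ n y x ≤ hit n U y * M` whenever `M ≥ Occ m z x` for all `z ∈ U`,
  `m ≤ n`... we only state the two consequences:
  (a) `Occ n y x ≤ hit n {x} y * Occ n x x` : induction on `n` for all `y`;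
      for `y = x` clear (`hit = 1`); for `y ≠ x`: `Occ (n+1) y x = Pop (fun z => Occ n z x) y`
      (as `Pn 0 1_x y = 0` and `Pn (k+1) 1_x y = Pop (Pn k 1_x) y`) and
      `Occ n x x ≤ Occ (n+1) x x`.
  (b) `hit n {x} y ≤ hit n U y` for `x ∈ U`.
* `Loc_hit`: `hit n U y` only depends on edges with at least one endpoint outside `U` and both
  endpoints in `Bx (n+1) y`: for `y ∈ U` it is `1`; for `y ∉ U` the step uses the edges at `y ∉ U`.
  So for `U = Bx r x` it is local on `EB (n+1) y \ EB r x`.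
-/

open MeasureTheory ProbabilityTheory Filter Topology

namespace Ein99

variable {d : ℕ} (lam : ℝ) (l : Fin d → ℝ) (ω : Om d)

open Classical in
/-- probability to visit `U` before or at time `n` -/
noncomputable def hit (U : Set (V d)) : ℕ → V d → ℝ
  | 0, y => if y ∈ U then 1 else 0
  | n + 1, y => if y ∈ U then 1 else Pop lam l ω (hit U n) y

theorem Pop_nonneg {g : V d → ℝ} (hg : ∀ x, 0 ≤ g x) (x : V d) : 0 ≤ Pop lam l ω g x := by
  have h := Pop_mono lam l ω (g := fun _ => 0) (h := g) hg x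
  rw [Pop_const] at h
  exact h

theorem Pop_le_one {g : V d → ℝ} (hg : ∀ x, g x ≤ 1) (x : V d) : Pop lam l ω g x ≤ 1 := by
  have h := Pop_mono lam l ω (g := g) (h := fun _ => 1) hg x
  rw [Pop_const] at h
  exact h

theorem Pop_eq_Pn (g : V d → ℝ) : Pop lam l ω g = Pn lam l ω 1 g := by
  rw [Pn_succ, Pn_zero]

theorem Pop_finsum {ι : Type*} (s : Finset ι) (g : ι → V d → ℝ) (x : V d) :
    Pop lam l ω (fun z => ∑ i ∈ s, g i z) x = ∑ i ∈ s, Pop lam l ω (g i) x := by
  have h := Pn_sum lam l ω s 1 g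
  simp only [← Pop_eq_Pn] at h
  have h2 := congrFun h x
  rw [Finset.sum_apply] at h2
  rw [← h2]
  congr 1
  funext z
  rw [Finset.sum_apply]

theorem Pop_mul_const (g : V d → ℝ) (c : ℝ) (x : V d) :
    Pop lam l ω (fun z => g z * c) x = Pop lam l ω g x * c := by
  have h := congrFun (Pop_smul lam l ω c g) x
  rw [Pi.smul_apply, smul_eq_mul] at h
  rw [mul_comm, ← h]
  congr 1
  funext z
  rw [Pi.smul_apply, smul_eq_mul, mul_comm]

theorem hit_of_mem {U : Set (V d)} {y : V d} (h : y ∈ U) (n : ℕ) : hit lam l ω U n y = 1 := by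
  cases n with
  | zero => rw [hit, if_pos h]
  | succ n => rw [hit, if_pos h]

theorem hit_nonneg (U : Set (V d)) (n : ℕ) (y : V d) : 0 ≤ hit lam l ω U n y := by
  induction n generalizing y with
  | zero =>
    rw [hit]
    split_ifs <;> norm_num
  | succ n ih =>
    rw [hit]
    split_ifs
    · norm_num
    · exact Pop_nonneg lam l ω ih y

theorem hit_le_one (U : Set (V d)) (n : ℕ) (y : V d) : hit lam l ω U n y ≤ 1 := by
  induction n generalizing y with
  | zero =>
    rw [hit]
    split_ifs <;> norm_num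
  | succ n ih =>
    rw [hit]
    split_ifs
    · norm_num
    · exact Pop_le_one lam l ω ih y

theorem hit_mono (U W : Set (V d)) (h : U ⊆ W) (n : ℕ) (y : V d) :
    hit lam l ω U n y ≤ hit lam l ω W n y := by
  by_cases hW : y ∈ W
  · rw [hit_of_mem lam l ω hW]
    exact hit_le_one lam l ω U n y
  have hU : y ∉ U := fun hU => hW (h hU)
  induction n generalizing y with
  | zero => rw [hit, hit, if_neg hU, if_neg hW]
  | succ n ih =>
    rw [hit, hit, if_neg hU, if_neg hW]
    refine Pop_mono lam l ω (fun z => ?_) y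
    by_cases hz : z ∈ W
    · rw [hit_of_mem lam l ω hz]
      exact hit_le_one lam l ω U n z
    · exact ih z hz fun hz' => hz (h hz')

theorem hit_le_sum (U : Set (V d)) (n : ℕ) (y : V d) :
    hit lam l ω U n y
      ≤ ∑ k ∈ Finset.range (n + 1), Pn lam l ω k (Set.indicator U (fun _ => (1 : ℝ))) y := by
  have hnn : ∀ (k : ℕ) (z : V d), 0 ≤ Pn lam l ω k (Set.indicator U (fun _ => (1 : ℝ))) z :=
    fun k z => Pn_nonneg lam l ω k (fun x => Set.indicator_nonneg (fun _ _ => zero_le_one) x) z
  by_cases hU : y ∈ U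
  · rw [hit_of_mem lam l ω hU, Finset.sum_range_succ', Pn_zero, Set.indicator_of_mem hU]
    have : 0 ≤ ∑ k ∈ Finset.range n, Pn lam l ω (k + 1) (Set.indicator U (fun _ => (1 : ℝ))) y :=
      Finset.sum_nonneg fun k _ => hnn (k + 1) y
    linarith
  induction n generalizing y with
  | zero =>
    rw [hit, if_neg hU]
    exact Finset.sum_nonneg fun k _ => hnn k y
  | succ n ih =>
    rw [hit, if_neg hU, Finset.sum_range_succ']
    have h1 : Pop lam l ω (hit lam l ω U n) y ≤
        Pop lam l ω (fun z => ∑ k ∈ Finset.range (n + 1),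
          Pn lam l ω k (Set.indicator U (fun _ => (1 : ℝ))) z) y := by
      refine Pop_mono lam l ω (fun z => ?_) y
      by_cases hz : z ∈ U
      · rw [hit_of_mem lam l ω hz, Finset.sum_range_succ', Pn_zero, Set.indicator_of_mem hz]
        have : 0 ≤ ∑ k ∈ Finset.range n, Pn lam l ω (k + 1)
            (Set.indicator U (fun _ => (1 : ℝ))) z := Finset.sum_nonneg fun k _ => hnn (k + 1) z
        linarith
      · exact ih z hz
    rw [Pop_finsum] at h1
    simp only [← Pn_succ] at h1
    have h2 := hnn 0 y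
    linarith

theorem Occ_succ (n : ℕ) (x y : V d) : Occ lam l ω (n + 1) y x =
    Set.indicator {x} (fun _ => (1 : ℝ)) y + Pop lam l ω (fun z => Occ lam l ω n z x) y := by
  unfold Occ
  rw [Finset.sum_range_succ', Pn_zero, Pop_finsum, add_comm]
  congr 1
  refine Finset.sum_congr rfl fun k _ => ?_
  rw [Pn_succ]

theorem Occ_mono_n (n : ℕ) (x y : V d) : Occ lam l ω n y x ≤ Occ lam l ω (n + 1) y x := by
  unfold Occ
  rw [Finset.sum_range_succ]
  have : 0 ≤ Pn lam l ω n (Set.indicator {x} (fun _ => (1 : ℝ))) y :=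
    Pn_nonneg lam l ω n (fun x => Set.indicator_nonneg (fun _ _ => zero_le_one) x) y
  linarith

theorem Occ_le_hit (n : ℕ) (x y : V d) :
    Occ lam l ω n y x ≤ hit lam l ω {x} n y * Occ lam l ω n x x := by
  induction n generalizing y with
  | zero => simp [Occ]
  | succ n ih =>
    by_cases hy : y = x
    · rw [hy, hit_of_mem lam l ω (Set.mem_singleton x), one_mul]
    · have hy' : y ∉ ({x} : Set (V d)) := by simpa using hy
      rw [hit, if_neg hy', Occ_succ, Set.indicator_of_notMem hy', zero_add]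
      calc Pop lam l ω (fun z => Occ lam l ω n z x) y
          ≤ Pop lam l ω (fun z => hit lam l ω {x} n z * Occ lam l ω n x x) y :=
            Pop_mono lam l ω (fun z => ih z) y
        _ = Pop lam l ω (hit lam l ω {x} n) y * Occ lam l ω n x x := Pop_mul_const lam l ω _ _ _
        _ ≤ Pop lam l ω (hit lam l ω {x} n) y * Occ lam l ω (n + 1) x x :=
            mul_le_mul_of_nonneg_left (Occ_mono_n lam l ω n x x)
              (Pop_nonneg lam l ω (hit_nonneg lam l ω {x} n) y)

/-- sum over the centres of the boxes -/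
theorem sum_hit_le (r n : ℕ) (y : V d) (T : Finset (V d)) :
    ∑ x ∈ T, hit lam l ω (Bx r x : Set (V d)) n y ≤ (n + 1) * (2 * r + 1) ^ d := by
  classical
  have h1 : ∑ x ∈ T, hit lam l ω (Bx r x : Set (V d)) n y ≤
      ∑ k ∈ Finset.range (n + 1), ∑ x ∈ T,
        Pn lam l ω k (Set.indicator (Bx r x : Set (V d)) (fun _ => (1 : ℝ))) y := by
    rw [Finset.sum_comm]
    exact Finset.sum_le_sum fun x _ => hit_le_sum lam l ω _ n y
  refine h1.trans ?_
  have h2 : ∀ k ∈ Finset.range (n + 1), ∑ x ∈ T,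
      Pn lam l ω k (Set.indicator (Bx r x : Set (V d)) (fun _ => (1 : ℝ))) y ≤
      (2 * r + 1) ^ d := by
    intro k _
    have h3 := congrFun (Pn_sum lam l ω T k
      (fun x => Set.indicator (Bx r x : Set (V d)) (fun _ => (1 : ℝ)))) y
    rw [Finset.sum_apply] at h3
    rw [← h3]
    have h4 := Pn_mono lam l ω k (g := ∑ x ∈ T, Set.indicator (Bx r x : Set (V d))
      (fun _ => (1 : ℝ))) (h := fun _ => ((2 * r + 1) ^ d : ℝ)) (fun z => ?_) y
    · rw [Pn_const] at h4
      exact h4
    · rw [Finset.sum_apply]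
      have h5 : ∀ x ∈ T, Set.indicator (Bx r x : Set (V d)) (fun _ => (1 : ℝ)) z =
          if x ∈ Bx r z then 1 else 0 := by
        intro x _
        by_cases hx : x ∈ Bx r z
        · rw [if_pos hx, Set.indicator_of_mem]
          exact Finset.mem_coe.2 (Bx_comm.1 hx)
        · rw [if_neg hx, Set.indicator_of_notMem]
          exact fun h => hx (Bx_comm.1 (Finset.mem_coe.1 h))
      rw [Finset.sum_congr rfl h5, Finset.sum_ite, Finset.sum_const_zero, add_zero,
        Finset.sum_const, nsmul_eq_mul, mul_one]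
      have h6 : (T.filter (fun x => x ∈ Bx r z)).card ≤ (2 * r + 1) ^ d := by
        rw [← card_Bx r z]
        exact Finset.card_le_card fun x hx => (Finset.mem_filter.1 hx).2
      exact_mod_cast h6
  refine (Finset.sum_le_sum h2).trans ?_
  rw [Finset.sum_const, Finset.card_range, nsmul_eq_mul]
  push_cast
  exact le_rfl

theorem Loc_hit (r n : ℕ) (x y : V d) :
    Loc ((EB (n + 1) y \ EB r x : Finset (Ed d)) : Set (Ed d))
      (fun ω : Om d => hit lam l ω (Bx r x : Set (V d)) n y) := by
  intro ω ω' h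
  simp only
  induction n generalizing y with
  | zero => rw [hit, hit]
  | succ n ih =>
    by_cases hy : y ∈ (Bx r x : Set (V d))
    · rw [hit_of_mem lam l ω hy, hit_of_mem lam l ω' hy]
    have hy' : y ∉ Bx r x := fun h => hy (Finset.mem_coe.2 h)
    rw [hit, hit, if_neg hy, if_neg hy]
    have hopn : ∀ δ, opn ω y δ ↔ opn ω' y δ := by
      intro δ
      have h1 : ed y δ ∈ ((EB (n + 1 + 1) y \ EB r x : Finset (Ed d)) : Set (Ed d)) := by
        rw [Finset.mem_coe, Finset.mem_sdiff, ed_mem_EB, ed_mem_EB]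
        refine ⟨⟨self_mem_Bx _ _, Bx_mono (by omega) y (add_st_mem_Bx y δ)⟩, fun h => hy' h.1⟩
      unfold opn
      rw [h _ h1]
    have hwt : ∀ δ, wt lam l ω y δ = wt lam l ω' y δ := by
      intro δ
      by_cases h1 : opn ω y δ
      · rw [wt, wt, if_pos h1, if_pos ((hopn δ).1 h1)]
      · rw [wt, wt, if_neg h1, if_neg fun h2 => h1 ((hopn δ).2 h2)]
    have hZ : Zw lam l ω y = Zw lam l ω' y := Finset.sum_congr rfl fun δ _ => hwt δ
    have hsub : ∀ z ∈ Bx 1 y, hit lam l ω (Bx r x : Set (V d)) n z =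
        hit lam l ω' (Bx r x : Set (V d)) n z := by
      intro z hz
      refine ih z fun e he => h e ?_
      rw [Finset.mem_coe, Finset.mem_sdiff] at he ⊢
      exact ⟨EB_subset hz he.1, he.2⟩
    unfold Pop
    rw [← hZ]
    split_ifs
    · exact hsub y (self_mem_Bx 1 y)
    · congr 1
      refine Finset.sum_congr rfl fun δ _ => ?_
      rw [hwt δ, hsub _ (add_st_mem_Bx y δ)]

end Ein99
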