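import Pool.Agent.LibEin99.G_Energy
import Pool.Agent.LibEin99.C_Tail

/-!
TASK G_Path. Almost sure bound of the Green function on the diagonal.

Fix `l`; choose the direction `δ` with `dt l δ = max_i |l i| ≥ 1/√d`. Work on the full measure
event `ae_LG`. Let `x` be in the infinite cluster. For `j : ℕ` let `z_j = x + j • st δ` and let
`m_j ≥ 1` be minimal such that `LG K ω m z_j` for all `m ≥ m_j`. `r_j`: a point of
`Bx m_j z_j` with `InfC ω r_j` (`chain_infC`), `r_0 = x`. With `μ_j = max m_j m_{j+1} + 1` both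
`r_j, r_{j+1} ∈ Bx μ_j z_j`, so `JoinIn ω (Bx (K μ_j) z_j) r_j r_{j+1}` (`chain_join`).
Claim: for some `J`, `r_J ∉ Bx n x`: otherwise `m_j ≥ j - n` for all `j`, i.e. for all large `j`
there is `m ≥ j/2` with `¬ LG K ω m z_j`; excluded a.s. by Borel-Cantelli and `tail_from` (this has
to be included in the full measure event: for all `x` and `δ`, for all large `j`,
`¬ ∃ m ≥ j/2, ¬ LG K ω m (x + j • st δ)`).
Apply `green_bound` with `S = ⋃_{j<J} OE ω (K μ_j) z_j`. For `e ∈ EB (K μ_j) z_j`: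
`dot l e.1 - dot l x ≥ j/√d - √d K μ_j` (`abs_dot_sub_le`). So
`Occ n x x ≤ Zw x ∑_{j<J} d (2Kμ_j+1)^d exp(-2 lam j/√d + 2 lam √d K μ_j)`.
With `Φ m = d (2Km+1)^d exp(2 lam √d K m)` (monotone): `Φ(μ_j) ≤ Φ(m_j+1) + Φ(m_{j+1}+1)`, and
`Φ(m_j + 1) ≤ Φ(2) + ∑_{m ≥ 1} Φ(m+2) 1{¬ LG K ω m z_j}` (if `m_j ≥ 2` then `¬ LG` at `m_j - 1`).
All is at most `A exp(-2 lam j/√d) (m+1)^d exp(A lam m)` with `A` depending on `d, K` (`lam ≤ 1`).
-/

open MeasureTheory ProbabilityTheory Filter Topology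
open scoped ENNReal

namespace Ein99

variable {d : ℕ} {p : unitInterval} {K : ℕ} {C c : ℝ}

theorem G_Path_M {P : ℕ → Prop} (h : ∀ᶠ m in atTop, P m) :
    ∃ M, (∀ m, M < m → P m) ∧ (M = 0 ∨ ¬ P M) := by
  classical
  obtain ⟨N, hN⟩ := eventually_atTop.mp h
  have hex : ∃ M, ∀ m, M < m → P m := ⟨N, fun m hm => hN m hm.le⟩
  refine ⟨Nat.find hex, Nat.find_spec hex, ?_⟩
  by_cases h0 : Nat.find hex = 0
  · exact Or.inl h0
  · right
    intro hP
    have h1 := Nat.find_min hex (m := Nat.find hex - 1) (by omega)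
    apply h1
    intro m hm
    rcases Nat.lt_or_ge (Nat.find hex) m with h2 | h2
    · exact Nat.find_spec hex m h2
    · have : m = Nat.find hex := by omega
      rw [this]
      exact hP

theorem G_Path_dir (hd : 1 ≤ d) (l : Fin d → ℝ) (hl : ∑ i, l i ^ 2 = 1) :
    ∃ δ : Dir d, 1 / Real.sqrt d ≤ dt l δ := by
  have hd0 : (0 : ℝ) < d := by exact_mod_cast hd
  have h1 : ∃ i, 1 / (d : ℝ) ≤ l i ^ 2 := by
    by_contra hcon
    push Not at hcon
    have hne : (Finset.univ : Finset (Fin d)).Nonempty := ⟨⟨0, hd⟩, Finset.mem_univ _⟩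
    have h2 : ∑ i, l i ^ 2 < ∑ _i : Fin d, 1 / (d : ℝ) :=
      Finset.sum_lt_sum_of_nonempty hne fun i _ => hcon i
    rw [hl, Finset.sum_const, Finset.card_univ, Fintype.card_fin, nsmul_eq_mul,
      mul_one_div_cancel hd0.ne'] at h2
    exact lt_irrefl _ h2
  obtain ⟨i, hi⟩ := h1
  have h3 : 1 / Real.sqrt d ≤ |l i| := by
    have h4 : Real.sqrt (1 / (d : ℝ)) ≤ |l i| := by
      rw [← Real.sqrt_sq_eq_abs]
      exact Real.sqrt_le_sqrt hi
    rwa [Real.sqrt_div zero_le_one, Real.sqrt_one] at h4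
  rcases le_total 0 (l i) with hs | hs
  · refine ⟨(i, true), ?_⟩
    rw [abs_of_nonneg hs] at h3
    simpa [dt] using h3
  · refine ⟨(i, false), ?_⟩
    rw [abs_of_nonpos hs] at h3
    simpa [dt] using h3

theorem G_Path_dot (l : Fin d → ℝ) (x : V d) (δ : Dir d) (j : ℕ) :
    dot l (x + (j : ℤ) • st δ) = dot l x + j * dt l δ := by
  rw [dot_add, ← dot_st]
  congr 1
  unfold dot
  rw [Finset.mul_sum]
  refine Finset.sum_congr rfl fun i _ => ?_
  simp only [Pi.smul_apply, smul_eq_mul, Int.cast_mul, Int.cast_natCast]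
  ring

theorem G_Path_coord (x : V d) (δ : Dir d) (j : ℕ) :
    |(x + (j : ℤ) • st δ) δ.1 - x δ.1| = j := by
  simp only [Pi.add_apply, Pi.smul_apply, smul_eq_mul, add_sub_cancel_left, st, Pi.single_eq_same]
  split_ifs <;> simp

/-- the summand of the final bound -/
noncomputable def G_Path_F (d K : ℕ) (lam : ℝ) (m : ℕ) : ℝ :=
  (d : ℝ) * (2 * (K * m : ℕ) + 1) ^ d * Real.exp (2 * lam * (Real.sqrt d * (K * m : ℕ)))

theorem G_Path_F_nonneg (d K : ℕ) (lam : ℝ) (m : ℕ) : 0 ≤ G_Path_F d K lam m := by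
  unfold G_Path_F; positivity

theorem G_Path_F_mono (d K : ℕ) {lam : ℝ} (hlam : 0 < lam) {m m' : ℕ} (h : m ≤ m') :
    G_Path_F d K lam m ≤ G_Path_F d K lam m' := by
  have h1 : ((K * m : ℕ) : ℝ) ≤ (K * m' : ℕ) := by exact_mod_cast Nat.mul_le_mul_left K h
  unfold G_Path_F
  gcongr

theorem G_Path_card (r : ℕ) (z : V d) : ((EB r z).card : ℝ) ≤ d * (2 * r + 1) ^ d := by
  have h1 : (EB r z).card ≤ (2 * r + 1) ^ d * d := by
    unfold EB
    refine (Finset.card_filter_le _ _).trans ?_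
    rw [Finset.card_product, card_Bx, Finset.card_univ, Fintype.card_fin]
  calc ((EB r z).card : ℝ) ≤ (((2 * r + 1) ^ d * d : ℕ) : ℝ) := by exact_mod_cast h1
    _ = _ := by push_cast; ring

/-- The sum over the edges of one box. -/
theorem G_Path_box (l : Fin d → ℝ) (hl : ∑ i, l i ^ 2 = 1) (ω : Om d) {lam : ℝ} (hlam : 0 < lam)
    (x : V d) (δ : Dir d) (hδ : 1 / Real.sqrt d ≤ dt l δ) (j K m : ℕ) :
    ∑ e ∈ OE ω (K * m) (x + (j : ℤ) • st δ),
      Real.exp (-(lam * ((dot l e.1 - dot l x) + (dot l (e.1 + st (e.2, true)) - dot l x))))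
      ≤ Real.exp (-(2 * lam / Real.sqrt d * j)) * G_Path_F d K lam m := by
  have hterm : ∀ e ∈ OE ω (K * m) (x + (j : ℤ) • st δ),
      Real.exp (-(lam * ((dot l e.1 - dot l x) + (dot l (e.1 + st (e.2, true)) - dot l x))))
      ≤ Real.exp (-(2 * lam / Real.sqrt d * j)) *
        Real.exp (2 * lam * (Real.sqrt d * (K * m : ℕ))) := by
    intro e he
    have he1 := (Finset.mem_filter.mp he).1
    unfold EB at he1
    rw [Finset.mem_filter, Finset.mem_product] at he1
    have hb1 := abs_dot_sub_le l hl he1.1.1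
    have hst : (e.1 + st (e.2, true) : V d) = e.1 + Pi.single e.2 1 := by simp [st]
    have hb2 := abs_dot_sub_le l hl he1.2
    rw [← hst] at hb2
    rw [G_Path_dot] at hb1 hb2
    have hj : (0 : ℝ) ≤ j := Nat.cast_nonneg j
    have h3 : (j : ℝ) * (1 / Real.sqrt d) ≤ j * dt l δ := mul_le_mul_of_nonneg_left hδ hj
    rw [← Real.exp_add]
    apply Real.exp_le_exp.mpr
    have h4 := (abs_le.mp hb1).1
    have h5 := (abs_le.mp hb2).1
    have h6 : 2 * ((j : ℝ) * (1 / Real.sqrt d)) - 2 * (Real.sqrt d * (K * m : ℕ)) ≤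
        (dot l e.1 - dot l x) + (dot l (e.1 + st (e.2, true)) - dot l x) := by linarith
    have h7 := mul_le_mul_of_nonneg_left h6 hlam.le
    have h8 : lam * (2 * ((j : ℝ) * (1 / Real.sqrt d)) - 2 * (Real.sqrt d * (K * m : ℕ))) =
        2 * lam / Real.sqrt d * j - 2 * lam * (Real.sqrt d * (K * m : ℕ)) := by ring
    linarith
  refine (Finset.sum_le_sum hterm).trans ?_
  rw [Finset.sum_const, nsmul_eq_mul]
  have hc : ((OE ω (K * m) (x + (j : ℤ) • st δ)).card : ℝ) ≤ d * (2 * (K * m : ℕ) + 1) ^ d := by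
    refine le_trans ?_ (G_Path_card (K * m) (x + (j : ℤ) • st δ))
    exact_mod_cast Finset.card_filter_le _ _
  unfold G_Path_F
  have hp : 0 ≤ Real.exp (-(2 * lam / Real.sqrt d * j)) *
        Real.exp (2 * lam * (Real.sqrt d * (K * m : ℕ))) := by positivity
  calc _ ≤ (d * (2 * (K * m : ℕ) + 1) ^ d : ℝ) * (Real.exp (-(2 * lam / Real.sqrt d * j)) *
        Real.exp (2 * lam * (Real.sqrt d * (K * m : ℕ)))) := mul_le_mul_of_nonneg_right hc hp
    _ = _ := by ring

theorem G_Path_biUnion {ι α : Type*} [DecidableEq ι] [DecidableEq α] (s : Finset ι)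
    (t : ι → Finset α) (f : α → ℝ) (hf : ∀ a, 0 ≤ f a) :
    ∑ a ∈ s.biUnion t, f a ≤ ∑ i ∈ s, ∑ a ∈ t i, f a := by
  induction s using Finset.induction_on with
  | empty => simp
  | insert i s hi ih =>
    rw [Finset.biUnion_insert, Finset.sum_insert hi]
    have h := Finset.sum_union_inter (s₁ := t i) (s₂ := s.biUnion t) (f := f)
    have h2 : 0 ≤ ∑ a ∈ t i ∩ s.biUnion t, f a := Finset.sum_nonneg fun a _ => hf a
    linarith

/-- The deterministic part. -/
theorem G_Path_det (hK : 2 ≤ K) (l : Fin d → ℝ) (hl : ∑ i, l i ^ 2 = 1) (ω : Om d)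
    (hLG : ∀ z : V d, ∀ᶠ m : ℕ in atTop, LG K ω m z) (δ : Dir d)
    (hδ : 1 / Real.sqrt d ≤ dt l δ) {lam : ℝ} (hlam : 0 < lam) (n : ℕ) (x : V d)
    (hx : InfC ω x) (J : ℕ) (hJ : 2 * n + 4 ≤ J)
    (hJ2 : ¬ ∃ m, J / 2 ≤ m ∧ ¬ LG K ω m (x + (J : ℤ) • st δ)) :
    ∃ M : ℕ → ℕ, (∀ j, M j = 0 ∨ ¬ LG K ω (M j) (x + (j : ℤ) • st δ)) ∧
      Occ lam l ω n x x ≤ Zw lam l ω x * ∑ j ∈ Finset.range J,
        Real.exp (-(2 * lam / Real.sqrt d * j)) * G_Path_F d K lam (max (M j) (M (j + 1)) + 2) := by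
  classical
  choose M hM1 hM2 using fun j : ℕ => G_Path_M (hLG (x + (j : ℤ) • st δ))
  refine ⟨M, hM2, ?_⟩
  have hr : ∀ j, ∃ r : V d, r ∈ Bx (M j + 1) (x + (j : ℤ) • st δ) ∧ InfC ω r ∧ (j = 0 → r = x) := by
    intro j
    by_cases hj : j = 0
    · subst hj
      refine ⟨x, ?_, hx, fun _ => rfl⟩
      have h0 : x + ((0 : ℕ) : ℤ) • st δ = x := by simp
      rw [h0]
      exact self_mem_Bx _ _
    · obtain ⟨r, hr1, hr2⟩ := chain_infC K hK ω (x + (j : ℤ) • st δ) (M j + 1) (by omega)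
        (fun m' hm' => hM1 j m' (by omega))
      exact ⟨r, hr1, hr2, fun h => absurd h hj⟩
  choose r hr1 hr2 hr3 using hr
  have hsucc : ∀ j : ℕ, x + ((j + 1 : ℕ) : ℤ) • st δ = (x + (j : ℤ) • st δ) + st δ := by
    intro j
    push_cast
    rw [add_smul, one_smul, add_assoc]
  have hjoin : ∀ j : ℕ, JoinIn ω
      (Bx (K * (max (M j) (M (j + 1)) + 2)) (x + (j : ℤ) • st δ) : Set (V d)) (r j) (r (j + 1)) := by
    intro j
    refine chain_join K hK ω _ _ (hM1 j _ (by omega)) _ _ ?_ ?_ (hr2 j) (hr2 (j + 1))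
    · exact Bx_mono (by omega) _ (hr1 j)
    · have h1 := hr1 (j + 1)
      rw [hsucc j] at h1
      have h2 : (x + (j : ℤ) • st δ) + st δ ∈ Bx 1 (x + (j : ℤ) • st δ) := add_st_mem_Bx _ δ
      have h3 := Bx_subset (r := M (j + 1) + 1) h2 h1
      exact Bx_mono (by omega) _ h3
  -- the union of the edge sets
  set S : Finset (Ed d) := (Finset.range J).biUnion
    (fun j => OE ω (K * (max (M j) (M (j + 1)) + 2)) (x + (j : ℤ) • st δ)) with hS
  have hconn : ∀ k : ℕ, k ≤ J → ConnS S x (r k) := by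
    intro k
    induction k with
    | zero =>
      intro _
      rw [hr3 0 rfl]
      exact Relation.ReflTransGen.refl
    | succ k ih =>
      intro hk
      refine Relation.ReflTransGen.trans (ih (by omega)) ?_
      refine ConnS_mono ?_ (ConnS_of_JoinIn ω _ _ _ _ (hjoin k))
      exact Finset.subset_biUnion_of_mem
        (fun j => OE ω (K * (max (M j) (M (j + 1)) + 2)) (x + (j : ℤ) • st δ))
        (Finset.mem_range.mpr (by omega))
  have hout : r J ∉ Bx n x := by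
    intro hin
    have hMJ : M J ≤ J / 2 := by
      by_contra hcon
      push Not at hcon
      rcases hM2 J with h0 | h0
      · omega
      · exact hJ2 ⟨M J, by omega, h0⟩
    have h1 := (mem_Bx.mp (hr1 J)) δ.1
    have h2 := (mem_Bx.mp hin) δ.1
    have h3 := G_Path_coord x δ J
    have h4 : ((J : ℤ)) ≤ ((M J + 1 : ℕ) : ℤ) + (n : ℤ) := by
      rw [← h3]
      have e : (x + (J : ℤ) • st δ) δ.1 - x δ.1 =
          -(r J δ.1 - (x + (J : ℤ) • st δ) δ.1) + (r J δ.1 - x δ.1) := by ring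
      rw [e]
      refine (abs_add_le _ _).trans ?_
      rw [abs_neg]
      exact add_le_add h1 h2
    have h5 : J ≤ M J + 1 + n := by exact_mod_cast h4
    omega
  have hopen : ∀ e ∈ S, ω e = true := by
    intro e he
    rw [hS, Finset.mem_biUnion] at he
    obtain ⟨j, -, hj⟩ := he
    exact (Finset.mem_filter.mp hj).2
  have hg := green_bound lam l ω n x (r J) hout S hopen (hconn J le_rfl)
  refine hg.trans (mul_le_mul_of_nonneg_left ?_ (Zw_nonneg lam l ω x))
  calc _ ≤ ∑ j ∈ Finset.range J,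
        ∑ e ∈ OE ω (K * (max (M j) (M (j + 1)) + 2)) (x + (j : ℤ) • st δ),
        Real.exp (-(lam * ((dot l e.1 - dot l x) + (dot l (e.1 + st (e.2, true)) - dot l x)))) := by
        rw [hS]
        exact G_Path_biUnion _ _ _ (fun e => (Real.exp_pos _).le)
    _ ≤ _ := Finset.sum_le_sum fun j _ => G_Path_box l hl ω hlam x δ hδ j K _

/-- The constant. -/
noncomputable def G_Path_B (d K : ℕ) : ℝ :=
  (d : ℝ) * (4 * K + 1) ^ d * Real.exp (4 * (Real.sqrt d * K))

theorem G_Path_F_le (d K : ℕ) {lam : ℝ} (hlam : 0 < lam) (hlam1 : lam ≤ 1) (m : ℕ) :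
    G_Path_F d K lam (m + 2) ≤
      G_Path_B d K * ((m : ℝ) + 1) ^ d * Real.exp (2 * (Real.sqrt d * K) * lam * m) := by
  unfold G_Path_F G_Path_B
  have hK : (0 : ℝ) ≤ K := Nat.cast_nonneg K
  have hm : (0 : ℝ) ≤ m := Nat.cast_nonneg m
  have hs : 0 ≤ Real.sqrt d * K := by positivity
  have h1 : (2 * ((K * (m + 2) : ℕ) : ℝ) + 1) ^ d ≤ ((4 * K + 1) * ((m : ℝ) + 1)) ^ d := by
    apply pow_le_pow_left₀ (by positivity)
    push_cast
    nlinarith [mul_nonneg hK hm]
  have h2 : Real.exp (2 * lam * (Real.sqrt d * ((K * (m + 2) : ℕ) : ℝ))) ≤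
      Real.exp (4 * (Real.sqrt d * K)) * Real.exp (2 * (Real.sqrt d * K) * lam * m) := by
    rw [← Real.exp_add]
    apply Real.exp_le_exp.mpr
    push_cast
    nlinarith [mul_le_mul_of_nonneg_right hlam1 hs]
  calc _ ≤ (d : ℝ) * ((4 * K + 1) * ((m : ℝ) + 1)) ^ d *
        (Real.exp (4 * (Real.sqrt d * K)) * Real.exp (2 * (Real.sqrt d * K) * lam * m)) := by
        gcongr
    _ = _ := by rw [mul_pow]; ring

theorem G_Path_sum (d K : ℕ) (hd : 1 ≤ d) {lam : ℝ} (hlam : 0 < lam) (hlam1 : lam ≤ 1)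
    (M : ℕ → ℕ) (J : ℕ) :
    ∑ j ∈ Finset.range J, Real.exp (-(2 * lam / Real.sqrt d * j)) *
        G_Path_F d K lam (max (M j) (M (j + 1)) + 2) ≤
      (1 + Real.exp 2) * ∑ j ∈ Finset.range (J + 1), Real.exp (-(2 * lam / Real.sqrt d * j)) *
        G_Path_F d K lam (M j + 2) := by
  have hd1 : (1 : ℝ) ≤ d := by exact_mod_cast hd
  have hs1 : 1 ≤ Real.sqrt d := by
    rw [← Real.sqrt_one]
    exact Real.sqrt_le_sqrt hd1
  have hq : 2 * lam / Real.sqrt d ≤ 2 := by
    rw [div_le_iff₀ (by linarith)]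
    nlinarith
  have hterm : ∀ j ∈ Finset.range J, Real.exp (-(2 * lam / Real.sqrt d * j)) *
        G_Path_F d K lam (max (M j) (M (j + 1)) + 2) ≤
      Real.exp (-(2 * lam / Real.sqrt d * j)) * G_Path_F d K lam (M j + 2) +
      Real.exp 2 * (Real.exp (-(2 * lam / Real.sqrt d * ((j + 1 : ℕ) : ℝ))) *
        G_Path_F d K lam (M (j + 1) + 2)) := by
    intro j _
    have h1 := G_Path_F_nonneg d K lam (M j + 2)
    have h2 := G_Path_F_nonneg d K lam (M (j + 1) + 2)
    have h3 : Real.exp (-(2 * lam / Real.sqrt d * j)) ≤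
        Real.exp 2 * Real.exp (-(2 * lam / Real.sqrt d * ((j + 1 : ℕ) : ℝ))) := by
      rw [← Real.exp_add]
      apply Real.exp_le_exp.mpr
      push_cast
      linarith
    have h4 : 0 < Real.exp (-(2 * lam / Real.sqrt d * j)) := Real.exp_pos _
    have h5 := mul_le_mul_of_nonneg_right h3 h2
    rcases le_total (M j) (M (j + 1)) with h | h
    · rw [max_eq_right h]
      have h6 := mul_nonneg h4.le h1
      rw [mul_assoc] at h5
      linarith
    · rw [max_eq_left h]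
      have h6 : 0 ≤ Real.exp 2 * (Real.exp (-(2 * lam / Real.sqrt d * ((j + 1 : ℕ) : ℝ))) *
        G_Path_F d K lam (M (j + 1) + 2)) := by positivity
      linarith
  refine (Finset.sum_le_sum hterm).trans ?_
  rw [Finset.sum_add_distrib, ← Finset.mul_sum, add_mul, one_mul]
  refine add_le_add ?_ (mul_le_mul_of_nonneg_left ?_ (Real.exp_pos _).le)
  · rw [Finset.sum_range_succ]
    have := mul_nonneg (Real.exp_pos (-(2 * lam / Real.sqrt d * J))).le
      (G_Path_F_nonneg d K lam (M J + 2))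
    linarith
  · rw [Finset.sum_range_succ' (fun j : ℕ => Real.exp (-(2 * lam / Real.sqrt d * (j : ℝ))) *
        G_Path_F d K lam (M j + 2))]
    have := mul_nonneg (Real.exp_pos (-(2 * lam / Real.sqrt d * ((0 : ℕ) : ℝ)))).le
      (G_Path_F_nonneg d K lam (M 0 + 2))
    linarith

theorem G_Path_ae (hH : HypH d p K C c) (δ : Dir d) :
    ∀ᵐ ω ∂(Pr d p), ∀ x : V d, ∀ᶠ j : ℕ in atTop,
      ¬ ∃ m, j / 2 ≤ m ∧ ¬ LG K ω m (x + (j : ℤ) • st δ) := by
  rw [ae_all_iff]
  intro x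
  have hs : (∑' j : ℕ, (Pr d p) {ω : Om d | ∃ m, j / 2 ≤ m ∧
      ¬ LG K ω m (x + (j : ℤ) • st δ)}) ≠ ⊤ := by
    have hc := hH.hc
    have h1e : 0 < 1 - Real.exp (-c) := by
      have : Real.exp (-c) < 1 := Real.exp_lt_one_iff.mpr (by linarith)
      linarith
    have hb : ∀ j : ℕ, (Pr d p) {ω : Om d | ∃ m, j / 2 ≤ m ∧ ¬ LG K ω m (x + (j : ℤ) • st δ)}
        ≤ ENNReal.ofReal (C / (1 - Real.exp (-c)) * Real.exp (c / 2) *
          (Real.exp (-(c / 2))) ^ j) := by
      intro j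
      have h := tail_from hH (j / 2) (x + (j : ℤ) • st δ)
      rw [← ENNReal.ofReal_toReal (measure_ne_top (Pr d p) _)]
      apply ENNReal.ofReal_le_ofReal
      refine h.trans ?_
      rw [mul_assoc]
      refine mul_le_mul_of_nonneg_left ?_ (div_nonneg hH.hC.le h1e.le)
      rw [← Real.exp_nat_mul, ← Real.exp_add]
      apply Real.exp_le_exp.mpr
      have h2 : (j : ℝ) ≤ 2 * ((j / 2 : ℕ) : ℝ) + 1 := by
        have : j ≤ 2 * (j / 2) + 1 := by omega
        exact_mod_cast this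
      nlinarith
    have hsum : Summable (fun j : ℕ => C / (1 - Real.exp (-c)) * Real.exp (c / 2) *
          (Real.exp (-(c / 2))) ^ j) :=
      (summable_geometric_of_lt_one (Real.exp_pos _).le
        (Real.exp_lt_one_iff.mpr (by linarith))).mul_left _
    exact ne_top_of_le_ne_top hsum.tsum_ofReal_ne_top (ENNReal.tsum_le_tsum hb)
  have := ae_eventually_notMem hs
  filter_upwards [this] with ω hω
  filter_upwards [hω] with j hj
  exact hj

open Classical in
theorem green_path (hH : HypH d p K C c) (hd : 1 ≤ d) (l : Fin d → ℝ) (hl : ∑ i, l i ^ 2 = 1) :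
    ∃ (A : ℝ) (δ : Dir d), 0 < A ∧ ∀ᵐ ω ∂(Pr d p), ∀ (lam : ℝ), 0 < lam → lam ≤ 1 →
      ∀ (n : ℕ) (x : V d), InfC ω x →
      ENNReal.ofReal (Occ lam l ω n x x) ≤ ∑' j : ℕ, ∑' m : ℕ,
        ENNReal.ofReal (A * Real.exp (-(2 * lam / Real.sqrt d * j)) * ((m : ℝ) + 1) ^ d
            * Real.exp (A * lam * m))
          * (if m = 0 ∨ ¬ LG K ω m (x + (j : ℤ) • st δ) then 1 else 0) := by
  obtain ⟨δ, hδ⟩ := G_Path_dir hd l hl
  have hdpos : (0 : ℝ) < d := by exact_mod_cast hd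
  have hBpos : 0 < G_Path_B d K := by unfold G_Path_B; positivity
  set A : ℝ := 2 * d * Real.exp 1 * (1 + Real.exp 2) * G_Path_B d K + 2 * (Real.sqrt d * K)
    with hA
  have hA1 : 2 * d * Real.exp 1 * (1 + Real.exp 2) * G_Path_B d K ≤ A := by
    rw [hA]
    have : 0 ≤ 2 * (Real.sqrt d * K) := by positivity
    linarith
  have hA2 : 2 * (Real.sqrt d * K) ≤ A := by
    rw [hA]
    have : 0 ≤ 2 * d * Real.exp 1 * (1 + Real.exp 2) * G_Path_B d K := by positivity
    linarith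
  have hA0 : 0 < A := lt_of_lt_of_le (by positivity) hA1
  refine ⟨A, δ, hA0, ?_⟩
  filter_upwards [ae_LG hH, G_Path_ae hH δ] with ω hω1 hω2
  intro lam hlam hlam1 n x hx
  obtain ⟨J, hJ1, hJ2⟩ := ((eventually_ge_atTop (2 * n + 4)).and (hω2 x)).exists
  obtain ⟨M, hM1, hM2⟩ := G_Path_det hH.hK l hl ω hω1 δ hδ hlam n x hx J hJ1 hJ2
  have hZ : Zw lam l ω x ≤ 2 * d * Real.exp 1 := by
    refine (Zw_le lam l ω hl x).trans ?_
    rw [abs_of_pos hlam]
    exact mul_le_mul_of_nonneg_left (Real.exp_le_exp.mpr hlam1) (by positivity)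
  have hreal : Occ lam l ω n x x ≤ ∑ j ∈ Finset.range (J + 1),
      A * Real.exp (-(2 * lam / Real.sqrt d * j)) * ((M j : ℝ) + 1) ^ d
        * Real.exp (A * lam * M j) := by
    refine hM2.trans ?_
    have hS0 : 0 ≤ ∑ j ∈ Finset.range J, Real.exp (-(2 * lam / Real.sqrt d * j)) *
        G_Path_F d K lam (max (M j) (M (j + 1)) + 2) :=
      Finset.sum_nonneg fun j _ => mul_nonneg (Real.exp_pos _).le (G_Path_F_nonneg d K lam _)
    refine (mul_le_mul_of_nonneg_right hZ hS0).trans ?_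
    refine (mul_le_mul_of_nonneg_left (G_Path_sum d K hd hlam hlam1 M J) (by positivity)).trans ?_
    rw [← mul_assoc, Finset.mul_sum]
    refine Finset.sum_le_sum fun j _ => ?_
    have h1 := G_Path_F_le d K hlam hlam1 (M j)
    have h2 : Real.exp (2 * (Real.sqrt d * K) * lam * M j) ≤ Real.exp (A * lam * M j) := by
      apply Real.exp_le_exp.mpr
      have : 0 ≤ lam * (M j : ℝ) := by positivity
      nlinarith [mul_le_mul_of_nonneg_right hA2 this]
    calc 2 * d * Real.exp 1 * (1 + Real.exp 2) * (Real.exp (-(2 * lam / Real.sqrt d * j)) *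
          G_Path_F d K lam (M j + 2))
        ≤ 2 * d * Real.exp 1 * (1 + Real.exp 2) * (Real.exp (-(2 * lam / Real.sqrt d * j)) *
          (G_Path_B d K * ((M j : ℝ) + 1) ^ d * Real.exp (A * lam * M j))) := by
          refine mul_le_mul_of_nonneg_left ?_ (by positivity)
          refine mul_le_mul_of_nonneg_left (h1.trans ?_) (Real.exp_pos _).le
          exact mul_le_mul_of_nonneg_left h2 (by positivity)
      _ = (2 * d * Real.exp 1 * (1 + Real.exp 2) * G_Path_B d K) *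
          (Real.exp (-(2 * lam / Real.sqrt d * j)) * ((M j : ℝ) + 1) ^ d *
          Real.exp (A * lam * M j)) := by ring
      _ ≤ A * (Real.exp (-(2 * lam / Real.sqrt d * j)) * ((M j : ℝ) + 1) ^ d *
          Real.exp (A * lam * M j)) := mul_le_mul_of_nonneg_right hA1 (by positivity)
      _ = _ := by ring
  calc ENNReal.ofReal (Occ lam l ω n x x)
      ≤ ENNReal.ofReal (∑ j ∈ Finset.range (J + 1),
        A * Real.exp (-(2 * lam / Real.sqrt d * j)) * ((M j : ℝ) + 1) ^ d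
        * Real.exp (A * lam * M j)) := ENNReal.ofReal_le_ofReal hreal
    _ = ∑ j ∈ Finset.range (J + 1), ENNReal.ofReal
        (A * Real.exp (-(2 * lam / Real.sqrt d * j)) * ((M j : ℝ) + 1) ^ d
        * Real.exp (A * lam * M j)) :=
        ENNReal.ofReal_sum_of_nonneg fun j _ => by positivity
    _ ≤ ∑ j ∈ Finset.range (J + 1), ∑' m : ℕ,
        ENNReal.ofReal (A * Real.exp (-(2 * lam / Real.sqrt d * j)) * ((m : ℝ) + 1) ^ d
            * Real.exp (A * lam * m))
          * (if m = 0 ∨ ¬ LG K ω m (x + (j : ℤ) • st δ) then 1 else 0) := by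
        refine Finset.sum_le_sum fun j _ => ?_
        refine le_trans (le_of_eq ?_) (ENNReal.le_tsum (M j))
        rw [if_pos (hM1 j), mul_one]
    _ ≤ _ := ENNReal.sum_le_tsum _

end Ein99
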