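import Mathlib

/-!
TASK G_Series. Two elementary series bounds.
`series1`: `(j+1)^d ≤ C_d a^{-d} exp(a j/2)` for `0 < a ≤ 1` (since `t^d ≤ d! e^t`), then the
geometric series `∑ exp(-a j/2) ≤ 1/(1 - e^{-a/2}) ≤ 4/a`.
`series2`: a convergent series.
-/

open Filter Topology

namespace Ein99

private theorem series_geom {x : ℝ} (hx : 0 < x) (hx1 : x ≤ 1) (J : ℕ) :
    ∑ j ∈ Finset.range J, Real.exp (-x) ^ j ≤ 2 / x := by
  have h1 : Real.exp (-x) ≤ 1 / (1 + x) := by
    rw [Real.exp_neg, ← one_div]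
    apply one_div_le_one_div_of_le (by linarith)
    linarith [Real.add_one_le_exp x]
  have h2 : Real.exp (-x) < 1 := by
    rw [Real.exp_lt_one_iff]
    linarith
  have h3 : 0 < 1 - Real.exp (-x) := by linarith
  have h4 : x / 2 ≤ 1 - Real.exp (-x) := by
    have h5 : 1 / (1 + x) ≤ 1 - x / 2 := by
      rw [div_le_iff₀ (by linarith)]
      nlinarith
    linarith
  have h6 : ∑ j ∈ Finset.range J, Real.exp (-x) ^ j = (1 - Real.exp (-x) ^ J) / (1 - Real.exp (-x)) := by
    rw [geom_sum_eq h2.ne]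
    rw [← neg_div_neg_eq]
    congr 1 <;> ring
  rw [h6]
  have h7 : 0 ≤ Real.exp (-x) ^ J := by positivity
  calc (1 - Real.exp (-x) ^ J) / (1 - Real.exp (-x)) ≤ 1 / (1 - Real.exp (-x)) := by
        apply div_le_div_of_nonneg_right (by linarith) h3.le
    _ ≤ 1 / (x / 2) := one_div_le_one_div_of_le (by linarith) h4
    _ = 2 / x := by field_simp

theorem series1 (d : ℕ) : ∃ A : ℝ, 0 < A ∧ ∀ a : ℝ, 0 < a → a ≤ 1 → ∀ J : ℕ,
    ∑ j ∈ Finset.range J, ((j : ℝ) + 1) ^ d * Real.exp (-(a * j)) ≤ A / a ^ (d + 1) := by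
  refine ⟨2 ^ d * d.factorial * Real.exp 1 * 4, by positivity, fun a ha ha1 J => ?_⟩
  have hterm : ∀ j : ℕ, ((j : ℝ) + 1) ^ d * Real.exp (-(a * j)) ≤
      ((2 / a) ^ d * d.factorial * Real.exp 1) * Real.exp (-(a / 2)) ^ j := by
    intro j
    have h0 : 0 ≤ a / 2 * (j + 1) := by positivity
    have h1 := Real.pow_div_factorial_le_exp _ h0 d
    have h2 : ((j : ℝ) + 1) ^ d = (2 / a) ^ d * d.factorial * ((a / 2 * (j + 1)) ^ d / d.factorial) := by
      have : (d.factorial : ℝ) ≠ 0 := by positivity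
      rw [mul_pow, div_pow, div_pow]
      field_simp
    have h3 : Real.exp (a / 2 * (j + 1)) * Real.exp (-(a * j)) ≤
        Real.exp 1 * Real.exp (-(a / 2)) ^ j := by
      rw [← Real.exp_add, ← Real.exp_nat_mul, ← Real.exp_add]
      apply Real.exp_le_exp.mpr
      nlinarith
    rw [h2]
    calc (2 / a) ^ d * d.factorial * ((a / 2 * (j + 1)) ^ d / d.factorial) * Real.exp (-(a * j))
        ≤ (2 / a) ^ d * d.factorial * Real.exp (a / 2 * (j + 1)) * Real.exp (-(a * j)) := by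
          gcongr
      _ = (2 / a) ^ d * d.factorial * (Real.exp (a / 2 * (j + 1)) * Real.exp (-(a * j))) := by ring
      _ ≤ (2 / a) ^ d * d.factorial * (Real.exp 1 * Real.exp (-(a / 2)) ^ j) := by
          gcongr
      _ = _ := by ring
  calc ∑ j ∈ Finset.range J, ((j : ℝ) + 1) ^ d * Real.exp (-(a * j))
      ≤ ∑ j ∈ Finset.range J, ((2 / a) ^ d * d.factorial * Real.exp 1) * Real.exp (-(a / 2)) ^ j :=
        Finset.sum_le_sum fun j _ => hterm j
    _ = ((2 / a) ^ d * d.factorial * Real.exp 1) * ∑ j ∈ Finset.range J, Real.exp (-(a / 2)) ^ j := by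
        rw [Finset.mul_sum]
    _ ≤ ((2 / a) ^ d * d.factorial * Real.exp 1) * (2 / (a / 2)) := by
        gcongr
        exact series_geom (by linarith) (by linarith) J
    _ = 2 ^ d * d.factorial * Real.exp 1 * 4 / a ^ (d + 1) := by
        rw [div_pow, pow_succ]
        field_simp
        ring

theorem series2 (d : ℕ) (c : ℝ) (hc : 0 < c) : ∃ A : ℝ, 0 < A ∧ ∀ M : ℕ,
    ∑ m ∈ Finset.range M, ((m : ℝ) + 1) ^ d * Real.exp (-(c * m)) ≤ A := by
  obtain ⟨A, hA, h⟩ := series1 d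
  have ha : 0 < min c 1 := lt_min hc one_pos
  refine ⟨A / (min c 1) ^ (d + 1), by positivity, fun M => ?_⟩
  refine le_trans (Finset.sum_le_sum fun m _ => ?_) (h (min c 1) ha (min_le_right _ _) M)
  apply mul_le_mul_of_nonneg_left _ (by positivity)
  apply Real.exp_le_exp.mpr
  have h1 : min c 1 ≤ c := min_le_left _ _
  have h2 : (0 : ℝ) ≤ m := Nat.cast_nonneg m
  nlinarith

end Ein99
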