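import Pool.Agent.LibEin99.Defs2
import Pool.Agent.LibEin99.G_Path
import Pool.Agent.LibEin99.G_Hit
import Pool.Agent.LibEin99.G_Series

/-!
TASK G_Rare. Rare local events are rarely seen by the walk.

`∑_{k<n} Pn k (x ↦ 1_B(sh x ω)) 0 = ∑_{x ∈ Bx n 0} Occ n 0 x 1_B(sh x ω)` (`sum_Occ_mul`); only
`x` with `InfC ω x` contribute on `InfC ω 0` (`conn_of_Occ`, `InfC_of_conn`).
`Occ n 0 x ≤ hit {x} n 0 * Occ n x x` (`Occ_le_hit`), insert `green_path`, and in the term `(j,m)`
enlarge `hit {x} ≤ hit (Bx r x)` with `r = s + j + 2 K m` (`hit_mono`).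
The event `{sh x ω ∈ B} ∩ {m = 0 ∨ ¬ LG K ω m (x + j e)}` is local on `EB r x`
(`Loc_sh`, `Loc_LG`, `EB_subset`), `hit (Bx r x) n 0` is local on `EB (n+1) 0 \ EB r x`
(`Loc_hit`): independent (`Loc.integral_mul`). The probability of the event is at most
`√P(B) · √(P(¬LG_m)) ≤ √P(B) √C e^{-cm/2}` for `m ≥ 1` and `P(B) ≤ √P(B)` for `m = 0`.
`∑_x E hit (Bx r x) n 0 ≤ (n+1)(2r+1)^d` (`sum_hit_le`), `(2r+1)^d ≤
(4K+3)^d (s+1)^d (j+1)^d (m+1)^d`. Sum over `j` with `series1` (`a = 2 lam/√d`), over `m` with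
`series2` (for `A lam ≤ c/4`, so that `exp(A lam m - c m/2) ≤ exp(-(c/4) m)`).
-/

open MeasureTheory ProbabilityTheory Filter Topology
open scoped ENNReal

namespace Ein99

variable {d : ℕ} {p : unitInterval} {K : ℕ} {C c : ℝ}

/-- the event in the term `(j, m)` -/
def Ev (K : ℕ) (δ : Dir d) (B : Set (Om d)) (x : V d) (j m : ℕ) : Set (Om d) :=
  {ω | sh x ω ∈ B ∧ (m = 0 ∨ ¬ LG K ω m (x + (j : ℤ) • st δ))}

theorem smul_st_mem (δ : Dir d) (x : V d) (j : ℕ) : x + (j : ℤ) • st δ ∈ Bx j x := by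
  rw [mem_Bx]
  intro i
  simp only [Pi.add_apply, Pi.smul_apply, smul_eq_mul, add_sub_cancel_left, st]
  by_cases h : i = δ.1
  · subst h
    rw [Pi.single_eq_same]
    cases δ.2 <;> simp
  · rw [Pi.single_eq_of_ne h]
    simp

theorem Loc_Ev (hK : 1 ≤ K) (δ : Dir d) {s : ℕ} {B : Set (Om d)}
    (hB : Loc (EB s (0 : V d) : Set (Ed d)) (fun ω => ω ∈ B)) (x : V d) (j m : ℕ) :
    Loc (EB (s + j + 2 * K * m) x : Set (Ed d)) (fun ω => ω ∈ Ev K δ B x j m) := by
  have h1 : Loc (EB (s + j + 2 * K * m) x : Set (Ed d)) (fun ω => sh x ω ∈ B) := by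
    have h2 := Loc_sh s 0 x hB
    rw [zero_add] at h2
    exact Loc.mono (Finset.coe_subset.2 (EB_mono (by omega) x)) h2
  have h3 : Loc (EB (s + j + 2 * K * m) x : Set (Ed d))
      (fun ω => LG K ω m (x + (j : ℤ) • st δ)) := by
    have h4 := Loc_LG K m hK (x + (j : ℤ) • st δ)
    refine Loc.mono (Finset.coe_subset.2 ((EB_subset (smul_st_mem δ x j)).trans
      (EB_mono (by omega) x))) h4
  exact Loc.comp2 (fun a b => a ∧ (m = 0 ∨ ¬ b)) h1 h3

theorem Ev_prob (hH : HypH d p K C c) (δ : Dir d) {s : ℕ} {B : Set (Om d)}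
    (hB : Loc (EB s (0 : V d) : Set (Ed d)) (fun ω => ω ∈ B)) (x : V d) (j m : ℕ) :
    (Pr d p).real (Ev K δ B x j m)
      ≤ Real.sqrt ((Pr d p).real B) * ((1 + Real.sqrt C) * Real.exp (-(c / 2 * m))) := by
  have hBm : MeasurableSet B := Loc.measurableSet _ hB
  have hb0 : 0 ≤ (Pr d p).real B := measureReal_nonneg
  have hb1 : (Pr d p).real B ≤ 1 := measureReal_le_one
  have hb : (Pr d p).real (Ev K δ B x j m) ≤ (Pr d p).real B := by
    have h1 : (Pr d p).real ((sh x) ⁻¹' B) = (Pr d p).real B := by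
      unfold Measure.real
      rw [(mp_sh p x).measure_preimage hBm.nullMeasurableSet]
    rw [← h1]
    exact measureReal_mono (fun ω hω => hω.1) (measure_ne_top _ _)
  have hs0 : 0 ≤ Real.sqrt ((Pr d p).real B) := Real.sqrt_nonneg _
  have hsC : 0 ≤ Real.sqrt C := Real.sqrt_nonneg _
  rcases Nat.eq_zero_or_pos m with h0 | h0
  · subst h0
    have h2 : (Pr d p).real B ≤ Real.sqrt ((Pr d p).real B) := by
      refine (le_abs_self _).trans (Real.abs_le_sqrt ?_)
      nlinarith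
    have h3 : Real.exp (-(c / 2 * ((0 : ℕ) : ℝ))) = 1 := by simp
    rw [h3]
    nlinarith
  · have hq : (Pr d p).real (Ev K δ B x j m) ≤ C * Real.exp (-c * m) := by
      refine le_trans (measureReal_mono (fun ω hω => ?_) (measure_ne_top _ _))
        (LG_prob hH m (x + (j : ℤ) • st δ))
      rcases hω.2 with h | h
      · omega
      · exact h
    have hE0 : 0 ≤ (Pr d p).real (Ev K δ B x j m) := measureReal_nonneg
    have h4 : (Pr d p).real (Ev K δ B x j m)
        ≤ Real.sqrt ((Pr d p).real B) * (Real.sqrt C * Real.exp (-(c / 2 * m))) := by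
      have h5 : Real.exp (-c * m) = Real.exp (-(c / 2 * m)) ^ 2 := by
        rw [← Real.exp_nat_mul]
        congr 1
        push_cast
        ring
      have h6 : ((Pr d p).real (Ev K δ B x j m)) ^ 2
          ≤ (Real.sqrt ((Pr d p).real B) * (Real.sqrt C * Real.exp (-(c / 2 * m)))) ^ 2 := by
        rw [mul_pow, mul_pow, Real.sq_sqrt hb0, Real.sq_sqrt hH.hC.le, ← h5, sq]
        exact mul_le_mul hb hq hE0 hb0
      exact le_of_sq_le_sq h6 (by positivity)
    refine h4.trans (mul_le_mul_of_nonneg_left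
      (mul_le_mul_of_nonneg_right (by linarith) (Real.exp_pos _).le) hs0)

/-- the expectation of the term `(x, j, m)` -/
theorem term_le (hH : HypH d p K C c) (δ : Dir d) {s : ℕ} {B : Set (Om d)}
    (hB : Loc (EB s (0 : V d) : Set (Ed d)) (fun ω => ω ∈ B)) (lam : ℝ) (l : Fin d → ℝ) (n : ℕ)
    (x : V d) (j m : ℕ) :
    ∫⁻ ω, ENNReal.ofReal (hit lam l ω (Bx (s + j + 2 * K * m) x : Set (V d)) n 0)
        * (Ev K δ B x j m).indicator 1 ω ∂(Pr d p)
      ≤ ENNReal.ofReal ((∫ ω, hit lam l ω (Bx (s + j + 2 * K * m) x : Set (V d)) n 0 ∂(Pr d p))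
        * (Real.sqrt ((Pr d p).real B) * ((1 + Real.sqrt C) * Real.exp (-(c / 2 * m))))) := by
  have hK1 : 1 ≤ K := by have := hH.hK; omega
  set r := s + j + 2 * K * m with hr
  have hEv := Loc_Ev (K := K) hK1 δ hB x j m
  rw [← hr] at hEv
  have hEm : MeasurableSet (Ev K δ B x j m) := Loc.measurableSet _ hEv
  have hhit := Loc_hit lam l r n x (0 : V d)
  have hind : Loc ((EB r x : Finset (Ed d)) : Set (Ed d))
      (fun ω => (Ev K δ B x j m).indicator (fun _ => (1 : ℝ)) ω) := by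
    intro ω ω' h
    have h1 : (ω ∈ Ev K δ B x j m) = (ω' ∈ Ev K δ B x j m) := hEv ω ω' h
    by_cases h2 : ω ∈ Ev K δ B x j m
    · have h3 : ω' ∈ Ev K δ B x j m := h1 ▸ h2
      beta_reduce
      rw [Set.indicator_of_mem h2, Set.indicator_of_mem h3]
    · have h3 : ω' ∉ Ev K δ B x j m := fun h4 => h2 (h1.symm ▸ h4)
      beta_reduce
      rw [Set.indicator_of_notMem h2, Set.indicator_of_notMem h3]
  have h1 := Loc.integral_mul p _ _ (Finset.sdiff_disjoint (s := EB r x) (t := EB (n + 1) 0))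
    hhit hind
  have h2 : ∫⁻ ω, ENNReal.ofReal (hit lam l ω (Bx r x : Set (V d)) n 0)
        * (Ev K δ B x j m).indicator 1 ω ∂(Pr d p)
      = ∫⁻ ω, ENNReal.ofReal (hit lam l ω (Bx r x : Set (V d)) n 0
        * (Ev K δ B x j m).indicator (fun _ => (1 : ℝ)) ω) ∂(Pr d p) := by
    refine lintegral_congr fun ω => ?_
    by_cases h : ω ∈ Ev K δ B x j m
    · simp [h]
    · simp [h]
  have hloc2 : Loc ((EB (n + 1) 0 ∪ EB r x : Finset (Ed d)) : Set (Ed d))
      (fun ω => hit lam l ω (Bx r x : Set (V d)) n 0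
        * (Ev K δ B x j m).indicator (fun _ => (1 : ℝ)) ω) := by
    refine Loc.comp2 (fun a b => a * b) (Loc.mono ?_ hhit) (Loc.mono ?_ hind)
    · exact Finset.coe_subset.2 (Finset.sdiff_subset.trans Finset.subset_union_left)
    · exact Finset.coe_subset.2 Finset.subset_union_right
  rw [h2, ← ofReal_integral_eq_lintegral_ofReal (Loc.integrable p _ hloc2)
    (Eventually.of_forall fun ω => mul_nonneg (hit_nonneg _ _ _ _ _ _)
      (Set.indicator_nonneg (fun _ _ => zero_le_one) _)), h1]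
  refine ENNReal.ofReal_le_ofReal (mul_le_mul_of_nonneg_left ?_
    (integral_nonneg fun ω => hit_nonneg _ _ _ _ _ _))
  rw [integral_indicator_const _ hEm, smul_eq_mul, mul_one]
  exact Ev_prob hH δ hB x j m

theorem sum_hit_integral_le (lam : ℝ) (l : Fin d → ℝ) (r n : ℕ) (T : Finset (V d)) :
    ∑ x ∈ T, ∫ ω, hit lam l ω (Bx r x : Set (V d)) n 0 ∂(Pr d p)
      ≤ (n + 1) * (2 * r + 1) ^ d := by
  have hi : ∀ x ∈ T, Integrable (fun ω => hit lam l ω (Bx r x : Set (V d)) n 0) (Pr d p) :=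
    fun x _ => Loc.integrable p _ (Loc_hit lam l r n x (0 : V d))
  rw [← integral_finsetSum T hi]
  calc ∫ ω, ∑ x ∈ T, hit lam l ω (Bx r x : Set (V d)) n 0 ∂(Pr d p)
      ≤ ∫ _ω : Om d, ((n : ℝ) + 1) * (2 * r + 1) ^ d ∂(Pr d p) := by
        refine integral_mono (integrable_finsetSum T hi) (integrable_const _) fun ω => ?_
        exact sum_hit_le lam l ω r n 0 T
    _ = _ := by simp

theorem two_r_le (K s j m : ℕ) : 2 * ((s + j + 2 * K * m : ℕ) : ℝ) + 1
    ≤ (4 * K + 5) * (((s : ℝ) + 1) * ((j + 1) * (m + 1))) := by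
  have hs : (0 : ℝ) ≤ s := Nat.cast_nonneg s
  have hj : (0 : ℝ) ≤ j := Nat.cast_nonneg j
  have hm : (0 : ℝ) ≤ m := Nat.cast_nonneg m
  have hK : (0 : ℝ) ≤ K := Nat.cast_nonneg K
  have h1 : (1 : ℝ) ≤ (j + 1) * (m + 1) := by nlinarith
  have h2 : (s : ℝ) + 1 ≤ (s + 1) * ((j + 1) * (m + 1)) := by nlinarith
  have h3 : (j : ℝ) + 1 ≤ (j + 1) * (m + 1) := by nlinarith
  have h4 : (m : ℝ) + 1 ≤ (j + 1) * (m + 1) := by nlinarith
  have h5 : ((j : ℝ) + 1) * (m + 1) ≤ (s + 1) * ((j + 1) * (m + 1)) := by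
    have : (0 : ℝ) ≤ (j + 1) * (m + 1) := by positivity
    nlinarith
  have h6 : (K : ℝ) * m ≤ K * ((s + 1) * ((j + 1) * (m + 1))) :=
    mul_le_mul_of_nonneg_left (by linarith) hK
  push_cast
  nlinarith

theorem rare (hH : HypH d p K C c) (hd : 1 ≤ d) (l : Fin d → ℝ) (hl : ∑ i, l i ^ 2 = 1) :
    ∃ A lam0 : ℝ, 0 < A ∧ 0 < lam0 ∧ lam0 ≤ 1 ∧ ∀ lam : ℝ, 0 < lam → lam ≤ lam0 →
      ∀ n : ℕ, 1 ≤ n → ∀ (s : ℕ) (B : Set (Om d)),
      Loc (EB s (0 : V d) : Set (Ed d)) (fun ω => ω ∈ B) →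
      Ann p lam l n (Set.indicator B (fun _ => (1 : ℝ)))
        ≤ A * ((s : ℝ) + 1) ^ d / lam ^ (d + 1) * Real.sqrt ((Pr d p).real B) := by
  classical
  obtain ⟨A, δ, hA, hgp⟩ := green_path hH hd l hl
  obtain ⟨A1, hA1, hs1⟩ := series1 d
  obtain ⟨A2, hA2, hs2⟩ := series2 (2 * d) (c / 4) (by have := hH.hc; linarith)
  have hc := hH.hc
  have hsd : 1 ≤ Real.sqrt d := by
    rw [Real.one_le_sqrt]
    exact_mod_cast hd
  have hsd0 : 0 < Real.sqrt d := by linarith
  have hsC : 0 ≤ Real.sqrt C := Real.sqrt_nonneg _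
  set q : ℝ := Real.sqrt d / 2 with hq
  have hq0 : 0 < q := by positivity
  refine ⟨2 * (A * (1 + Real.sqrt C) * (4 * K + 5) ^ d * (A1 * q ^ (d + 1)) * A2),
    min (1 / 2) (c / (4 * A)), by positivity, by positivity,
    (min_le_left _ _).trans (by norm_num), ?_⟩
  intro lam hlam hlam0 n hn s B hB
  have hl12 : lam ≤ 1 / 2 := hlam0.trans (min_le_left _ _)
  have hlc : A * lam ≤ c / 4 := by
    have h := hlam0.trans (min_le_right _ _)
    rw [le_div_iff₀ (by positivity)] at h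
    nlinarith
  set a : ℝ := 2 * lam / Real.sqrt d with ha
  have ha0 : 0 < a := by positivity
  have ha1 : a ≤ 1 := by
    rw [ha, div_le_one hsd0]
    linarith
  have haq : A1 / a ^ (d + 1) = A1 * q ^ (d + 1) / lam ^ (d + 1) := by
    have : a = lam / q := by rw [ha, hq]; field_simp
    rw [this, div_pow]
    field_simp
  set sB := Real.sqrt ((Pr d p).real B) with hsB
  have hsB0 : 0 ≤ sB := Real.sqrt_nonneg _
  have hn0 : (0 : ℝ) < n := by exact_mod_cast hn
  -- the constant in front of the double series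
  set D : ℝ := A * (1 + Real.sqrt C) * sB * (n + 1) * ((4 * K + 5) ^ d * (s + 1) ^ d) with hD
  have hD0 : 0 ≤ D := by positivity
  -- the function
  set F : Om d → ℝ := fun ω => ∑ k ∈ Finset.range n, Pn lam l ω k
    (fun x => Set.indicator B (fun _ => (1 : ℝ)) (sh x ω)) 0 with hF
  have hFocc : ∀ ω, F ω = ∑ x ∈ Bx n 0, Occ lam l ω n 0 x
      * Set.indicator B (fun _ => (1 : ℝ)) (sh x ω) := fun ω => (sum_Occ_mul lam l ω n 0 _).symm
  have hF0 : ∀ ω, 0 ≤ F ω := by
    intro ω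
    rw [hFocc]
    exact Finset.sum_nonneg fun x _ => mul_nonneg (Occ_nonneg _ _ _ _ _ _)
      (Set.indicator_nonneg (fun _ _ => zero_le_one) _)
  set aa : ℕ → ℕ → ℝ := fun j m => A * Real.exp (-(2 * lam / Real.sqrt d * j)) * ((m : ℝ) + 1) ^ d
            * Real.exp (A * lam * m) with haa
  have haa0 : ∀ j m, 0 ≤ aa j m := fun j m => by rw [haa]; positivity
  set G : V d → ℕ → ℕ → Om d → ℝ≥0∞ := fun x j m ω =>
    ENNReal.ofReal (hit lam l ω (Bx (s + j + 2 * K * m) x : Set (V d)) n 0)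
        * (Ev K δ B x j m).indicator 1 ω with hG
  have hK1 : 1 ≤ K := by have := hH.hK; omega
  have hGm : ∀ x j m, Measurable (G x j m) := by
    intro x j m
    have h1 : Measurable (fun ω => hit lam l ω (Bx (s + j + 2 * K * m) x : Set (V d)) n 0) :=
      Loc.measurable _ (Loc_hit lam l _ n x (0 : V d))
    have h2 : MeasurableSet (Ev K δ B x j m) := Loc.measurableSet _ (Loc_Ev hK1 δ hB x j m)
    exact h1.ennreal_ofReal.mul (measurable_one.indicator h2)
  -- the pointwise bound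
  have hpt : ∀ᵐ ω ∂(Pr d p), ω ∈ {ω : Om d | InfC ω 0} →
      ENNReal.ofReal (F ω) ≤ ∑ x ∈ Bx n 0, ∑' j : ℕ, ∑' m : ℕ,
        ENNReal.ofReal (aa j m) * G x j m ω := by
    filter_upwards [hgp] with ω hω hinf
    rw [hFocc, ENNReal.ofReal_sum_of_nonneg (fun x _ => mul_nonneg (Occ_nonneg _ _ _ _ _ _)
      (Set.indicator_nonneg (fun _ _ => zero_le_one) _))]
    refine Finset.sum_le_sum fun x _ => ?_
    by_cases hx : Occ lam l ω n 0 x = 0
    · rw [hx]; simp
    have hxc : InfC ω x := InfC_of_conn ω (conn_of_Occ lam l ω n 0 x hx) hinf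
    by_cases hxB : sh x ω ∈ B
    · have h1 := hω lam hlam (hl12.trans (by norm_num)) n x hxc
      rw [Set.indicator_of_mem hxB, mul_one]
      calc ENNReal.ofReal (Occ lam l ω n 0 x)
          ≤ ENNReal.ofReal (hit lam l ω {x} n 0 * Occ lam l ω n x x) :=
            ENNReal.ofReal_le_ofReal (Occ_le_hit lam l ω n x 0)
        _ = ENNReal.ofReal (hit lam l ω {x} n 0) * ENNReal.ofReal (Occ lam l ω n x x) :=
            ENNReal.ofReal_mul (hit_nonneg _ _ _ _ _ _)
        _ ≤ ENNReal.ofReal (hit lam l ω {x} n 0) * _ := mul_le_mul_right h1 _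
        _ ≤ _ := by
            rw [← ENNReal.tsum_mul_left]
            refine ENNReal.tsum_le_tsum fun j => ?_
            rw [← ENNReal.tsum_mul_left]
            refine ENNReal.tsum_le_tsum fun m => ?_
            by_cases hLG : m = 0 ∨ ¬ LG K ω m (x + (j : ℤ) • st δ)
            · have hEv : ω ∈ Ev K δ B x j m := ⟨hxB, hLG⟩
              simp only [hG]
              rw [if_pos hLG, mul_one, Set.indicator_of_mem hEv, Pi.one_apply, mul_one, mul_comm]
              refine mul_le_mul_right (ENNReal.ofReal_le_ofReal (hit_mono _ _ _ _ _ ?_ _ _)) _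
              rw [Set.singleton_subset_iff, Finset.mem_coe]
              exact self_mem_Bx _ _
            · rw [if_neg hLG]; simp
    · rw [Set.indicator_of_notMem hxB]; simp
  have hinfm : MeasurableSet {ω : Om d | InfC ω 0} := measurableSet_InfC 0
  -- the integral of the bound
  have hint : ∫⁻ ω, ENNReal.ofReal (F ω) ∂(nu d p)
      ≤ ∑' j : ℕ, ∑' m : ℕ, ∑ x ∈ Bx n 0, ENNReal.ofReal (aa j m) * ∫⁻ ω, G x j m ω ∂(Pr d p) := by
    unfold nu
    calc ∫⁻ ω in {ω : Om d | InfC ω 0}, ENNReal.ofReal (F ω) ∂(Pr d p)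
        ≤ ∫⁻ ω in {ω : Om d | InfC ω 0}, ∑ x ∈ Bx n 0, ∑' j : ℕ, ∑' m : ℕ,
            ENNReal.ofReal (aa j m) * G x j m ω ∂(Pr d p) := setLIntegral_mono_ae' hinfm hpt
      _ ≤ ∫⁻ ω, ∑ x ∈ Bx n 0, ∑' j : ℕ, ∑' m : ℕ,
            ENNReal.ofReal (aa j m) * G x j m ω ∂(Pr d p) := setLIntegral_le_lintegral _ _
      _ = ∑ x ∈ Bx n 0, ∑' j : ℕ, ∑' m : ℕ,
            ENNReal.ofReal (aa j m) * ∫⁻ ω, G x j m ω ∂(Pr d p) := by
          have hm1 : ∀ x j m, Measurable (fun ω => ENNReal.ofReal (aa j m) * G x j m ω) :=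
            fun x j m => (hGm x j m).const_mul _
          have hm2 : ∀ x j, Measurable (fun ω => ∑' m : ℕ, ENNReal.ofReal (aa j m) * G x j m ω) :=
            fun x j => Measurable.tsum (hm1 x j)
          have hm3 : ∀ x, Measurable (fun ω => ∑' j : ℕ, ∑' m : ℕ,
              ENNReal.ofReal (aa j m) * G x j m ω) := fun x => Measurable.tsum (hm2 x)
          rw [lintegral_finsetSum _ (fun x _ => hm3 x)]
          refine Finset.sum_congr rfl fun x _ => ?_
          rw [lintegral_tsum (fun j => (hm2 x j).aemeasurable)]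
          refine tsum_congr fun j => ?_
          rw [lintegral_tsum (fun m => (hm1 x j m).aemeasurable)]
          refine tsum_congr fun m => ?_
          rw [lintegral_const_mul _ (hGm x j m)]
      _ = _ := by
          rw [← Summable.tsum_finsetSum (fun _ _ => ENNReal.summable)]
          refine tsum_congr fun j => ?_
          rw [← Summable.tsum_finsetSum (fun _ _ => ENNReal.summable)]
  -- each term
  have hterm : ∀ j m : ℕ, ∑ x ∈ Bx n 0, ENNReal.ofReal (aa j m) * ∫⁻ ω, G x j m ω ∂(Pr d p)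
      ≤ ENNReal.ofReal D * (ENNReal.ofReal (((j : ℝ) + 1) ^ d * Real.exp (-(a * j)))
        * ENNReal.ofReal (((m : ℝ) + 1) ^ (2 * d) * Real.exp (-(c / 4 * m)))) := by
    intro j m
    set Q : ℝ := sB * ((1 + Real.sqrt C) * Real.exp (-(c / 2 * m))) with hQ
    have hQ0 : 0 ≤ Q := by positivity
    have hH0 : ∀ x : V d,
        0 ≤ ∫ ω, hit lam l ω (Bx (s + j + 2 * K * m) x : Set (V d)) n 0 ∂(Pr d p) :=
      fun x => integral_nonneg fun ω => hit_nonneg _ _ _ _ _ _
    calc ∑ x ∈ Bx n 0, ENNReal.ofReal (aa j m) * ∫⁻ ω, G x j m ω ∂(Pr d p)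
        ≤ ∑ x ∈ Bx n 0, ENNReal.ofReal (aa j m) * ENNReal.ofReal
            ((∫ ω, hit lam l ω (Bx (s + j + 2 * K * m) x : Set (V d)) n 0 ∂(Pr d p)) * Q) :=
          Finset.sum_le_sum fun x _ => mul_le_mul_right (term_le hH δ hB lam l n x j m) _
      _ = ENNReal.ofReal (aa j m * ((∑ x ∈ Bx n (0 : V d),
            ∫ ω : Om d, hit lam l ω (Bx (s + j + 2 * K * m) x : Set (V d)) n 0 ∂(Pr d p)) * Q)) := by
          rw [← Finset.mul_sum, ← ENNReal.ofReal_sum_of_nonneg
            (fun x _ => mul_nonneg (hH0 x) hQ0), ← ENNReal.ofReal_mul (haa0 j m), Finset.sum_mul]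
      _ ≤ ENNReal.ofReal (D * ((((j : ℝ) + 1) ^ d * Real.exp (-(a * j)))
            * (((m : ℝ) + 1) ^ (2 * d) * Real.exp (-(c / 4 * m))))) := by
          refine ENNReal.ofReal_le_ofReal ?_
          have h1 : (∑ x ∈ Bx n (0 : V d),
              ∫ ω : Om d, hit lam l ω (Bx (s + j + 2 * K * m) x : Set (V d)) n 0 ∂(Pr d p))
              ≤ (n + 1) * ((4 * K + 5) * (((s : ℝ) + 1) * ((j + 1) * (m + 1)))) ^ d := by
            refine (sum_hit_integral_le (p := p) lam l (s + j + 2 * K * m) n (Bx n 0)).trans ?_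
            refine mul_le_mul_of_nonneg_left ?_ (by positivity)
            exact pow_le_pow_left₀ (by positivity) (two_r_le K s j m) d
          have h2 : Real.exp (A * lam * m) * Real.exp (-(c / 2 * m))
              ≤ Real.exp (-(c / 4 * m)) := by
            rw [← Real.exp_add]
            apply Real.exp_le_exp.2
            have : A * lam * m ≤ c / 4 * m :=
              mul_le_mul_of_nonneg_right hlc (Nat.cast_nonneg m)
            linarith
          calc aa j m * ((∑ x ∈ Bx n (0 : V d),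
              ∫ ω : Om d, hit lam l ω (Bx (s + j + 2 * K * m) x : Set (V d)) n 0 ∂(Pr d p)) * Q)
              ≤ aa j m * (((n + 1) * ((4 * K + 5) * (((s : ℝ) + 1) * ((j + 1) * (m + 1)))) ^ d)
                * Q) := mul_le_mul_of_nonneg_left (mul_le_mul_of_nonneg_right h1 hQ0) (haa0 j m)
            _ = D * ((((j : ℝ) + 1) ^ d * Real.exp (-(a * j)))
                * (((m : ℝ) + 1) ^ (2 * d)
                * (Real.exp (A * lam * m) * Real.exp (-(c / 2 * m))))) := by
                rw [haa, hD, hQ, ha]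
                simp only [mul_pow, pow_mul', sq]
                ring
            _ ≤ _ := by
                refine mul_le_mul_of_nonneg_left (mul_le_mul_of_nonneg_left
                  (mul_le_mul_of_nonneg_left h2 (by positivity)) (by positivity)) hD0
      _ = _ := by
          rw [ENNReal.ofReal_mul hD0,
            ENNReal.ofReal_mul (p := ((j : ℝ) + 1) ^ d * Real.exp (-(a * j))) (by positivity)]
  have hfin : ∫⁻ ω, ENNReal.ofReal (F ω) ∂(nu d p)
      ≤ ENNReal.ofReal (D * (A1 / a ^ (d + 1) * A2)) := by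
    calc ∫⁻ ω, ENNReal.ofReal (F ω) ∂(nu d p)
        ≤ _ := hint
      _ ≤ ∑' j : ℕ, ∑' m : ℕ, ENNReal.ofReal D
            * (ENNReal.ofReal (((j : ℝ) + 1) ^ d * Real.exp (-(a * j)))
            * ENNReal.ofReal (((m : ℝ) + 1) ^ (2 * d) * Real.exp (-(c / 4 * m)))) :=
          ENNReal.tsum_le_tsum fun j => ENNReal.tsum_le_tsum fun m => hterm j m
      _ = ENNReal.ofReal D * ((∑' j : ℕ, ENNReal.ofReal (((j : ℝ) + 1) ^ d * Real.exp (-(a * j))))
            * ∑' m : ℕ, ENNReal.ofReal (((m : ℝ) + 1) ^ (2 * d) * Real.exp (-(c / 4 * m)))) := by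
          simp only [ENNReal.tsum_mul_left, ENNReal.tsum_mul_right]
      _ ≤ ENNReal.ofReal D * (ENNReal.ofReal (A1 / a ^ (d + 1)) * ENNReal.ofReal A2) := by
          refine mul_le_mul_right (mul_le_mul' ?_ ?_) _
          · refine ENNReal.tsum_le_of_sum_range_le fun J => ?_
            rw [← ENNReal.ofReal_sum_of_nonneg (fun j _ => by positivity)]
            exact ENNReal.ofReal_le_ofReal (hs1 a ha0 ha1 J)
          · refine ENNReal.tsum_le_of_sum_range_le fun M => ?_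
            rw [← ENNReal.ofReal_sum_of_nonneg (fun j _ => by positivity)]
            exact ENNReal.ofReal_le_ofReal (hs2 M)
      _ = _ := by
          rw [ENNReal.ofReal_mul hD0,
            ENNReal.ofReal_mul (p := A1 / a ^ (d + 1)) (by positivity)]
  have hR0 : 0 ≤ D * (A1 / a ^ (d + 1) * A2) := by positivity
  have hI : ∫ ω, F ω ∂(nu d p) ≤ D * (A1 / a ^ (d + 1) * A2) := by
    by_cases hint2 : Integrable F (nu d p)
    · have h := ofReal_integral_eq_lintegral_ofReal hint2 (Eventually.of_forall hF0)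
      rw [← h] at hfin
      exact (ENNReal.ofReal_le_ofReal_iff hR0).1 hfin
    · rw [integral_undef hint2]; exact hR0
  have hAnn : Ann p lam l n (Set.indicator B (fun _ => (1 : ℝ))) = 1 / n * ∫ ω, F ω ∂(nu d p) :=
    rfl
  rw [hAnn]
  have h9 : 1 / (n : ℝ) * ((n : ℝ) + 1) ≤ 2 := by
    rw [div_mul_eq_mul_div, one_mul, div_le_iff₀ hn0]
    have : (1 : ℝ) ≤ n := by exact_mod_cast hn
    linarith
  have hR : 1 / (n : ℝ) * (D * (A1 / a ^ (d + 1) * A2)) = (1 / (n : ℝ) * ((n : ℝ) + 1))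
      * (A * (1 + Real.sqrt C) * (4 * K + 5) ^ d * (A1 * q ^ (d + 1)) * A2
        * ((s : ℝ) + 1) ^ d / lam ^ (d + 1) * sB) := by
    rw [haq, hD]
    ring
  calc 1 / (n : ℝ) * ∫ ω, F ω ∂(nu d p)
      ≤ 1 / (n : ℝ) * (D * (A1 / a ^ (d + 1) * A2)) :=
        mul_le_mul_of_nonneg_left hI (by positivity)
    _ = _ := hR
    _ ≤ 2 * (A * (1 + Real.sqrt C) * (4 * K + 5) ^ d * (A1 * q ^ (d + 1)) * A2
        * ((s : ℝ) + 1) ^ d / lam ^ (d + 1) * sB) :=
        mul_le_mul_of_nonneg_right h9 (by positivity)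
    _ = _ := by ring

end Ein99
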