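import Pool.Agent.LibEin99.D_Sum
import Pool.Agent.LibEin99.G_Rare

/-!
TASK D_EQ. Equidistribution: for small `lam` the annealed occupation averages of local functions
converge to the average with respect to the degree biased percolation measure.

Fix `a = 1/(20(d+1))`, `b = 1/(2d)`, `N = ⌈lam^{-b}⌉`, `ρ = ⌈lam^{-a}⌉`, `η = lam^a`,
`τ = N^d lam`. Let `g` be local on `EB s 0`, `|g| ≤ L`, `s, L ≤ lam^{-a}`, and
`m = (∫ Zw g d(nu))/(∫ Zw d(nu))`, `|m| ≤ L`. `Ann 1 = tha` so `Ann g - tha m = Ann (g - m)`; apply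
`sum_est` (integrated over `nu`) to `g - m`: `w = Zw (g - m)` is local on `EB (s+1) 0`, `∫ w d(nu) = 0`,
`|w| ≤ 2d e 2L =: L'`.
Divide by `n`: the first term is `A (η/tha + L' τ) → 0` as `lam → 0`; the second is at most
`A L'/τ (KN+1)^{2d} C (lam² + lam √(log(n+2)/n) + log(n+2)/n)` by `energy_H`, for `n ≥ n0(lam)` at most
`A' L' N^{2d} lam²/τ = A' L' N^d lam → 0` (`bd = 1/2`, `a < 1/2`); third: `A L'/n → 0`; fourth:
`A L'` times the maximum over `y ∈ Bx N 0` of `Ann (1{¬ BoxGood .. y})`, by `rare` (the event is local on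
`EB (K N + N + ρ + s + 1 + N) 0`: `Loc_BoxGood`, `EB_subset`) at most
`A (..)^d lam^{-(d+1)} √(P(¬ BoxGood))`, super-polynomially small by `box_prob`
(`η² N^d/(L'² (s+ρ+2)^d) ≥ c lam^{-a}` since `bd ≥ 5a + ad`).
The hypotheses of `box_prob` (`L' A exp(-aρ) ≤ η/2`, `s + ρ + 2 ≤ N`) hold for small `lam`.
-/

open MeasureTheory ProbabilityTheory Filter Topology

namespace Ein99

variable {d : ℕ} {p : unitInterval} {K : ℕ} {C c : ℝ}

/-- the exponent allowed for the size and the range of the local functions -/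
noncomputable def aexp (d : ℕ) : ℝ := 1 / (20 * ((d : ℝ) + 1))

/-! ### Annealed sums -/

private theorem deq_fin : IsFiniteMeasure (nu d p) := by unfold nu; infer_instance

private theorem deq_mass : (nu d p).real Set.univ ≤ 1 := by
  unfold nu
  rw [measureReal_restrict_apply MeasurableSet.univ]
  exact measureReal_le_one

private theorem deq_int {f : Om d → ℝ} (hm : Measurable f) {B : ℝ}
    (hb : ∀ ω, |f ω| ≤ B) : Integrable f (nu d p) := by
  have : IsFiniteMeasure (nu d p) := deq_fin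
  exact Integrable.of_bound hm.aestronglyMeasurable B (Eventually.of_forall fun ω => by
    rw [Real.norm_eq_abs]; exact hb ω)

/-- the quenched sum -/
private noncomputable def Sm (lam : ℝ) (l : Fin d → ℝ) (n : ℕ) (f : Om d → ℝ) (ω : Om d) : ℝ :=
  ∑ k ∈ Finset.range n, Pn lam l ω k (fun x => f (sh x ω)) 0

private theorem Sm_meas (lam : ℝ) (l : Fin d → ℝ) (n : ℕ) {f : Om d → ℝ} (hf : Measurable f) :
    Measurable (Sm lam l n f) := by
  unfold Sm
  refine Finset.measurable_sum _ fun k _ => ?_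
  exact measurable_Pn lam l k (fun ω x => f (sh x ω)) (fun y => hf.comp (measurable_sh y)) 0

private theorem Sm_abs (lam : ℝ) (l : Fin d → ℝ) (n : ℕ) {f : Om d → ℝ} {B : ℝ}
    (hb : ∀ ω, |f ω| ≤ B) (ω : Om d) : |Sm lam l n f ω| ≤ n * B := by
  unfold Sm
  refine (Finset.abs_sum_le_sum_abs _ _).trans ?_
  calc ∑ k ∈ Finset.range n, |Pn lam l ω k (fun x => f (sh x ω)) 0|
      ≤ ∑ _k ∈ Finset.range n, B :=
        Finset.sum_le_sum fun k _ => Pn_abs_le_of_box lam l ω k _ 0 B (fun y _ => hb _)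
    _ = n * B := by rw [Finset.sum_const, Finset.card_range, nsmul_eq_mul]

private theorem Ann_eq (p : unitInterval) (lam : ℝ) (l : Fin d → ℝ) (n : ℕ) (f : Om d → ℝ) :
    Ann p lam l n f = (1 / (n : ℝ)) * ∫ ω, Sm lam l n f ω ∂(nu d p) := rfl

private theorem Sm_sub_const (lam : ℝ) (l : Fin d → ℝ) (n : ℕ) (f : Om d → ℝ) (m : ℝ) (ω : Om d) :
    Sm lam l n (fun ω => f ω - m) ω = Sm lam l n f ω - n * m := by
  unfold Sm
  have h : ∀ k, Pn lam l ω k (fun x => f (sh x ω) - m) 0 =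
      Pn lam l ω k (fun x => f (sh x ω)) 0 - m := by
    intro k
    have h1 : (fun x : V d => f (sh x ω) - m) = (fun x => f (sh x ω)) - (fun _ => m) := rfl
    rw [h1, Pn_sub, Pn_const]
    rfl
  simp only [h]
  rw [Finset.sum_sub_distrib, Finset.sum_const, Finset.card_range, nsmul_eq_mul]

private theorem Ann_sub_const (p : unitInterval) (lam : ℝ) (l : Fin d → ℝ) {n : ℕ} (hn : 1 ≤ n)
    {f : Om d → ℝ} (hf : Measurable f) {B : ℝ} (hb : ∀ ω, |f ω| ≤ B) (m : ℝ) :
    Ann p lam l n (fun ω => f ω - m) = Ann p lam l n f - tha d p * m := by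
  have : IsFiniteMeasure (nu d p) := deq_fin
  have hn0 : (0 : ℝ) < n := by exact_mod_cast hn
  rw [Ann_eq, Ann_eq]
  simp only [Sm_sub_const]
  rw [integral_sub (deq_int (Sm_meas lam l n hf) (Sm_abs lam l n hb)) (integrable_const _),
    integral_const]
  unfold tha
  rw [smul_eq_mul]
  field_simp

open Classical in
private theorem deq_ann (d : ℕ) : ∃ A : ℝ, 0 < A ∧ ∀ (p : unitInterval) (lam : ℝ) (l : Fin d → ℝ)
    (n : ℕ), 0 < lam → lam ≤ 1 → ∑ i, l i ^ 2 = 1 → 1 ≤ n →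
    ∀ (K N ρ : ℕ) (θ η L τ M : ℝ), 1 ≤ K → (K + 2) * N ≤ n → 0 < θ → 0 < η → 0 ≤ L → 0 < τ →
    0 ≤ M → ∀ g : Om d → ℝ, (∀ ω, |Zw lam l ω 0 * g ω| ≤ L) →
    (∀ y, MeasurableSet {ω : Om d | ¬ BoxGood K N ρ θ η (fun ω => Zw lam l ω 0 * g ω) ω y}) →
    (∀ y ∈ Bx N (0 : V d), Ann p lam l n (Set.indicator {ω : Om d | ¬ BoxGood K N ρ θ η
      (fun ω => Zw lam l ω 0 * g ω) ω y} (fun _ => (1 : ℝ))) ≤ M) →
    |Ann p lam l n g| ≤ A * (η / θ + L * τ)
      + A * L / τ * ((K : ℝ) * N + 1) ^ (2 * d) *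
        (lam ^ 2 + lam * (Real.sqrt (n * Real.log (n + 2)) / n) + Real.log (n + 2) / n)
      + A * L / n + A * L * M := by
  obtain ⟨A1, hA1, hsum⟩ := sum_est d
  obtain ⟨A4, hA4, hen⟩ := energy_H d
  refine ⟨A1 + A1 * A4, by positivity, ?_⟩
  intro p lam l n h0 h1 hl hn K N ρ θ η L τ M hK hKN hθ hη hL hτ hM g hg hmeas hbad
  have : IsFiniteMeasure (nu d p) := deq_fin
  have hn0 : (0 : ℝ) < n := by exact_mod_cast hn
  have hlog : 0 ≤ Real.log ((n : ℝ) + 2) := Real.log_nonneg (by linarith)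
  set w : Om d → ℝ := fun ω => Zw lam l ω 0 * g ω with hw
  set R := lam ^ 2 * n + lam * Real.sqrt (n * Real.log (n + 2)) + Real.log (n + 2) with hR
  have hR0 : 0 ≤ R := by positivity
  set Q := ((K : ℝ) * N + 1) ^ (2 * d) with hQ
  have hQ0 : 0 ≤ Q := by positivity
  set c1 := A1 * (η / θ + L * τ) * n + A1 * L / τ * Q * (A4 * R) + A1 * L with hc1
  set c2 := A1 * L / (2 * N + 1) ^ d with hc2
  have hc20 : 0 ≤ c2 := by positivity
  have hc10 : 0 ≤ c1 := by positivity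
  set Bd : V d → Set (Om d) := fun y => {ω : Om d | ¬ BoxGood K N ρ θ η w ω y} with hBd
  have hind : ∀ y, Measurable (Set.indicator (Bd y) (fun _ => (1 : ℝ))) := fun y =>
    measurable_const.indicator (hmeas y)
  have hindb : ∀ y ω, |Set.indicator (Bd y) (fun _ => (1 : ℝ)) ω| ≤ 1 := by
    intro y ω
    rw [Set.indicator_apply]
    split_ifs <;> simp
  -- pointwise bound
  have hpt : ∀ᵐ ω ∂(nu d p), ‖Sm lam l n g ω‖ ≤
      c1 + c2 * ∑ y ∈ Bx N (0 : V d), Sm lam l n (Set.indicator (Bd y) (fun _ => (1 : ℝ))) ω := by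
    have hae : ∀ᵐ ω ∂(nu d p), InfC ω 0 := ae_restrict_mem (measurableSet_InfC 0)
    filter_upwards [hae] with ω hω
    have h2 := hsum lam l ω n h0 h1 hl hn hω K N ρ θ η L τ hK hKN hθ hη hL hτ g hg
    have h3 := hen lam l ω n 0 h0.le h1 hl hn
    rw [Real.norm_eq_abs]
    refine h2.trans ?_
    have h4 : A1 * L / τ * ((K : ℝ) * N + 1) ^ (2 * d) *
        esum ω (2 * n + 1) 0 (fun x i => (Real.sqrt (Fp lam l ω n 0 x)
            - Real.sqrt (Fp lam l ω n 0 (x + st (i, true)))) ^ 2) ≤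
        A1 * L / τ * Q * (A4 * R) := mul_le_mul_of_nonneg_left h3 (by positivity)
    have h5 : A1 * L / (2 * N + 1) ^ d * ∑ y ∈ Bx N (0 : V d),
            ∑ k ∈ Finset.range n, Pn lam l ω k (Set.indicator
              {x | ¬ BoxGood K N ρ θ η (fun ω => Zw lam l ω 0 * g ω) (sh x ω) y}
              (fun _ => (1 : ℝ))) 0 =
        c2 * ∑ y ∈ Bx N (0 : V d), Sm lam l n (Set.indicator (Bd y) (fun _ => (1 : ℝ))) ω := by
      rfl
    rw [h5]
    linarith
  have hgi : Integrable (fun ω => c1 + c2 * ∑ y ∈ Bx N (0 : V d),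
      Sm lam l n (Set.indicator (Bd y) (fun _ => (1 : ℝ))) ω) (nu d p) := by
    refine (integrable_const _).add (Integrable.const_mul ?_ _)
    exact integrable_finsetSum _ fun y _ =>
      deq_int (Sm_meas lam l n (hind y)) (Sm_abs lam l n (hindb y))
  have h6 := norm_integral_le_of_norm_le hgi hpt
  rw [integral_add (integrable_const _) (Integrable.const_mul (integrable_finsetSum _ fun y _ =>
      deq_int (Sm_meas lam l n (hind y)) (Sm_abs lam l n (hindb y))) _), integral_const,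
    integral_const_mul, integral_finsetSum _ (fun y _ =>
      deq_int (Sm_meas lam l n (hind y)) (Sm_abs lam l n (hindb y))), smul_eq_mul] at h6
  have h7 : ∀ y ∈ Bx N (0 : V d), ∫ ω, Sm lam l n (Set.indicator (Bd y) (fun _ => (1 : ℝ))) ω
      ∂(nu d p) ≤ n * M := by
    intro y hy
    have h8 := hbad y hy
    rw [Ann_eq] at h8
    have h9 : (n : ℝ) * ((1 / (n : ℝ)) * ∫ ω, Sm lam l n (Set.indicator (Bd y)
        (fun _ => (1 : ℝ))) ω ∂(nu d p)) ≤ n * M := mul_le_mul_of_nonneg_left h8 hn0.le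
    rw [← mul_assoc, mul_one_div_cancel hn0.ne', one_mul] at h9
    exact h9
  have h8 : ∑ y ∈ Bx N (0 : V d), ∫ ω, Sm lam l n (Set.indicator (Bd y) (fun _ => (1 : ℝ))) ω
      ∂(nu d p) ≤ (2 * N + 1) ^ d * (n * M) := by
    refine (Finset.sum_le_sum h7).trans ?_
    rw [Finset.sum_const, card_Bx, nsmul_eq_mul]
    push_cast
    exact le_rfl
  have h9 : c2 * ∑ y ∈ Bx N (0 : V d), ∫ ω, Sm lam l n (Set.indicator (Bd y)
      (fun _ => (1 : ℝ))) ω ∂(nu d p) ≤ A1 * L * (n * M) := by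
    refine (mul_le_mul_of_nonneg_left h8 hc20).trans ?_
    rw [hc2, ← mul_assoc, div_mul_cancel₀ _ (by positivity)]
  have h10 : (nu d p).real Set.univ * c1 ≤ c1 := by
    have := mul_le_mul_of_nonneg_right (deq_mass (d := d) (p := p)) hc10
    linarith
  rw [Real.norm_eq_abs] at h6
  have h11 : |∫ ω, Sm lam l n g ω ∂(nu d p)| ≤ c1 + A1 * L * (n * M) := by linarith
  rw [Ann_eq, abs_mul, abs_of_nonneg (by positivity : (0 : ℝ) ≤ 1 / n)]
  calc 1 / (n : ℝ) * |∫ ω, Sm lam l n g ω ∂(nu d p)| ≤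
      1 / (n : ℝ) * (c1 + A1 * L * (n * M)) := mul_le_mul_of_nonneg_left h11 (by positivity)
    _ = A1 * (η / θ + L * τ) + A1 * A4 * L / τ * Q *
        (lam ^ 2 + lam * (Real.sqrt (n * Real.log (n + 2)) / n) + Real.log (n + 2) / n)
        + A1 * L / n + A1 * L * M := by
        rw [hc1, hR]
        field_simp
    _ ≤ _ := by
        have e1 : A1 * (η / θ + L * τ) ≤ (A1 + A1 * A4) * (η / θ + L * τ) :=
          mul_le_mul_of_nonneg_right (by nlinarith) (by positivity)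
        have e2 : A1 * A4 * L / τ * Q *
            (lam ^ 2 + lam * (Real.sqrt (n * Real.log (n + 2)) / n) + Real.log (n + 2) / n) ≤
            (A1 + A1 * A4) * L / τ * Q *
            (lam ^ 2 + lam * (Real.sqrt (n * Real.log (n + 2)) / n) + Real.log (n + 2) / n) := by
          apply mul_le_mul_of_nonneg_right _ (by positivity)
          apply mul_le_mul_of_nonneg_right _ hQ0
          apply div_le_div_of_nonneg_right _ hτ.le
          exact mul_le_mul_of_nonneg_right (by linarith) hL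
        have e3 : A1 * L / n ≤ (A1 + A1 * A4) * L / n := by
          apply div_le_div_of_nonneg_right _ hn0.le
          exact mul_le_mul_of_nonneg_right (by nlinarith) hL
        have e4 : A1 * L * M ≤ (A1 + A1 * A4) * L * M := by
          apply mul_le_mul_of_nonneg_right _ hM
          exact mul_le_mul_of_nonneg_right (by nlinarith) hL
        linarith

/-! ### Limits -/

private theorem deq_lim0 (a : ℝ) (ha : 0 < a) :
    Tendsto (fun x : ℝ => x ^ a) (𝓝[>] 0) (𝓝 0) := by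
  have h : ContinuousAt (fun x : ℝ => x ^ a) 0 := Real.continuousAt_rpow_const 0 a (Or.inr ha.le)
  have h1 := h.tendsto
  simp only [Real.zero_rpow ha.ne'] at h1
  exact h1.mono_left nhdsWithin_le_nhds

private theorem deq_lim1 (a : ℝ) (ha : 0 < a) (c : ℝ) (hc : 0 < c) (m : ℕ) :
    Tendsto (fun x : ℝ => (x⁻¹) ^ m * Real.exp (-(c * x ^ (-a)))) (𝓝[>] 0) (𝓝 0) := by
  have h1 : Tendsto (fun x : ℝ => (x⁻¹) ^ a) (𝓝[>] 0) atTop :=
    (tendsto_rpow_atTop ha).comp tendsto_inv_nhdsGT_zero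
  have h2 := (tendsto_rpow_mul_exp_neg_mul_atTop_nhds_zero ((m : ℝ) / a) c hc).comp h1
  refine h2.congr' ?_
  filter_upwards [self_mem_nhdsWithin] with x hx
  have hx0 : (0 : ℝ) < x := hx
  simp only [Function.comp]
  rw [← Real.rpow_mul (by positivity), mul_div_cancel₀ _ ha.ne', Real.rpow_natCast,
    Real.inv_rpow hx0.le, Real.rpow_neg hx0.le, neg_mul]

private theorem deq_limn (x : ℝ) (δ : ℝ) (hδ : 0 < δ) :
    ∀ᶠ n : ℕ in atTop, |x| * (Real.sqrt (n * Real.log (n + 2)) / n) + Real.log (n + 2) / n ≤ δ := by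
  have h1 : Tendsto (fun n : ℕ => Real.log ((n : ℝ) + 2) / n) atTop (𝓝 0) := by
    have h2 := (Real.tendsto_pow_log_div_mul_add_atTop 1 (-2) 1 one_ne_zero).comp
      (tendsto_atTop_add_const_right atTop (2 : ℝ) tendsto_natCast_atTop_atTop)
    refine h2.congr fun n => ?_
    simp only [Function.comp]
    rw [pow_one]
    congr 1
    ring
  have h3 : Tendsto (fun n : ℕ => Real.sqrt (n * Real.log (n + 2)) / n) atTop (𝓝 0) := by
    have h4 := (Real.continuous_sqrt.tendsto 0).comp h1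
    rw [Real.sqrt_zero] at h4
    refine h4.congr fun n => ?_
    simp only [Function.comp]
    rcases Nat.eq_zero_or_pos n with rfl | hn
    · simp
    · have hn0 : (0 : ℝ) < n := by exact_mod_cast hn
      have e : Real.log ((n : ℝ) + 2) / n = (n * Real.log (n + 2)) / (n : ℝ) ^ 2 := by
        field_simp
      rw [e, Real.sqrt_div' _ (by positivity), Real.sqrt_sq hn0.le]
  have h5 : Tendsto (fun n : ℕ => |x| * (Real.sqrt (n * Real.log (n + 2)) / n) +
      Real.log (n + 2) / n) atTop (𝓝 (|x| * 0 + 0)) := (h3.const_mul |x|).add h1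
  rw [mul_zero, add_zero] at h5
  exact (h5.eventually (gt_mem_nhds hδ)).mono fun n hn => hn.le

private theorem deq_Zw_le {x : ℝ} (hx0 : 0 < x) (hx1 : x ≤ 1) {l : Fin d → ℝ}
    (hl : ∑ i, l i ^ 2 = 1) (ω : Om d) (y : V d) : Zw x l ω y ≤ 6 * d := by
  have h1 := Zw_le x l ω hl y
  have h2 : Real.exp |x| ≤ 3 := by
    rw [abs_of_pos hx0]
    have := Real.exp_one_lt_d9
    have h3 : Real.exp x ≤ Real.exp 1 := Real.exp_le_exp.2 hx1
    linarith
  have h3 : (0 : ℝ) ≤ 2 * d := by positivity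
  nlinarith [mul_le_mul_of_nonneg_left h2 h3]

/-- the centring constant -/
private theorem deq_mean {x : ℝ} (hx0 : 0 < x) (hx1 : x ≤ 1) {l : Fin d → ℝ}
    (hl : ∑ i, l i ^ 2 = 1) {g : Om d → ℝ} (hg : Measurable g) {L : ℝ} (hL : 0 ≤ L)
    (hb : ∀ ω, |g ω| ≤ L) (m : ℝ)
    (hm : m = (∫ ω, Zw x l ω 0 * g ω ∂(nu d p)) / ∫ ω, Zw x l ω 0 ∂(nu d p)) :
    |m| ≤ L ∧ ∫ ω, Zw x l ω 0 * (g ω - m) ∂(nu d p) = 0 := by
  have : IsFiniteMeasure (nu d p) := deq_fin
  have hZm : Measurable (fun ω : Om d => Zw x l ω 0) := measurable_Zw x l 0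
  have hZ0 : ∀ ω : Om d, 0 ≤ Zw x l ω 0 := fun ω => Zw_nonneg x l ω 0
  have hZb : ∀ ω : Om d, |Zw x l ω 0| ≤ 6 * d := fun ω => by
    rw [abs_of_nonneg (hZ0 ω)]; exact deq_Zw_le hx0 hx1 hl ω 0
  have hZi : Integrable (fun ω : Om d => Zw x l ω 0) (nu d p) := deq_int hZm hZb
  have hZgi : Integrable (fun ω : Om d => Zw x l ω 0 * g ω) (nu d p) := by
    refine deq_int (hZm.mul hg) (B := 6 * d * L) fun ω => ?_
    rw [abs_mul]
    exact mul_le_mul (hZb ω) (hb ω) (abs_nonneg _) (by positivity)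
  have h1 : |∫ ω, Zw x l ω 0 * g ω ∂(nu d p)| ≤ L * ∫ ω, Zw x l ω 0 ∂(nu d p) := by
    rw [← integral_const_mul, ← Real.norm_eq_abs]
    refine norm_integral_le_of_norm_le (hZi.const_mul L) (Eventually.of_forall fun ω => ?_)
    rw [Real.norm_eq_abs, abs_mul, abs_of_nonneg (hZ0 ω), mul_comm]
    exact mul_le_mul_of_nonneg_right (hb ω) (hZ0 ω)
  have h2 : 0 ≤ ∫ ω, Zw x l ω 0 ∂(nu d p) := integral_nonneg hZ0
  constructor
  · rw [hm, abs_div, abs_of_nonneg h2]
    exact div_le_of_le_mul₀ h2 hL h1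
  · have h3 : ∀ ω : Om d, Zw x l ω 0 * (g ω - m) = Zw x l ω 0 * g ω - Zw x l ω 0 * m :=
      fun ω => by ring
    simp only [h3]
    rw [integral_sub hZgi (hZi.mul_const m), integral_mul_const, hm]
    rcases eq_or_lt_of_le h2 with h4 | h4
    · rw [← h4] at h1 ⊢
      rw [mul_zero] at h1
      have := abs_nonpos_iff.1 h1
      rw [this]; simp
    · rw [mul_div_cancel₀ _ h4.ne', sub_self]

private theorem deq_ceil {y : ℝ} (hy : 1 ≤ y) : y ≤ (⌈y⌉₊ : ℝ) ∧ (⌈y⌉₊ : ℝ) ≤ 2 * y := by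
  refine ⟨Nat.le_ceil y, ?_⟩
  have := (Nat.ceil_lt_add_one (show 0 ≤ y by linarith)).le
  linarith

open Classical in
theorem equidistribution (hd : 1 ≤ d) (hH : HypH d p K C c) (l : Fin d → ℝ)
    (hl : ∑ i, l i ^ 2 = 1) (ε : ℝ) (hε : 0 < ε) :
    ∃ lam1 : ℝ, 0 < lam1 ∧ lam1 ≤ 1 ∧ ∀ lam : ℝ, 0 < lam → lam ≤ lam1 → ∃ n0 : ℕ, ∀ n : ℕ, n0 ≤ n →
      ∀ (s : ℕ) (L : ℝ) (g : Om d → ℝ), (s : ℝ) ≤ lam ^ (-aexp d) → 1 ≤ L → L ≤ lam ^ (-aexp d) →
      Loc (EB s (0 : V d) : Set (Ed d)) g → (∀ ω, |g ω| ≤ L) →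
      |Ann p lam l n g
        - tha d p * ((∫ ω, Zw lam l ω 0 * g ω ∂(nu d p)) / ∫ ω, Zw lam l ω 0 ∂(nu d p))| ≤ ε := by
  obtain ⟨A1, hA1, hann⟩ := deq_ann d
  obtain ⟨A2, a2, hA2, ha2, hbox⟩ := box_prob hH
  obtain ⟨A3, lam0, hA3, hlam0, hlam01, hrare⟩ := rare hH hd l hl
  have hK := hH.hK
  have hθ : 0 < tha d p := theta_pos hH
  set θ := tha d p with hθd
  have hd0 : (1 : ℝ) ≤ d := by exact_mod_cast hd
  have hd00 : (0 : ℝ) < d := by linarith
  -- exponents
  set a := aexp d with ha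
  have ha0 : 0 < a := by rw [ha]; unfold aexp; positivity
  set b : ℝ := 1 / (2 * d) with hb
  have hb0 : 0 < b := by positivity
  have hab : a < b := by
    rw [ha, hb]; unfold aexp
    exact one_div_lt_one_div_of_lt (by positivity) (by linarith)
  have hbd : b * d = 1 / 2 := by rw [hb]; field_simp
  have hb1 : b ≤ 1 / 2 := by
    rw [hb]; exact one_div_le_one_div_of_le (by norm_num) (by linarith)
  have ha20 : a * (20 * (d + 1)) = 1 := by
    rw [ha]; unfold aexp; field_simp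
  have haa : 5 * a + a * d ≤ 1 / 2 := by nlinarith
  have ha40 : a < 1 / 2 := by nlinarith
  -- constants
  set c' := min a2 (a2 / (144 * d ^ 2 * 5 ^ d)) with hc'
  have hc'0 : 0 < c' := lt_min ha2 (by positivity)
  set K4 := A1 * (12 * d) * A3 * (2 * K + 9) ^ d * Real.sqrt (3 * A2) * 3 ^ d with hK4
  set K2 := (A1 + 2 * A1 * ((K : ℝ) + 1) ^ (2 * d)) * (12 * d * 2 ^ d) with hK2
  -- eventual facts
  have E1 : ∀ᶠ x : ℝ in 𝓝[>] 0, A1 / θ * x ^ a < ε / 8 := by
    have h := (deq_lim0 a ha0).const_mul (A1 / θ)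
    rw [mul_zero] at h
    exact h.eventually (gt_mem_nhds (by positivity))
  have E2 : ∀ᶠ x : ℝ in 𝓝[>] 0, K2 * x ^ (1 / 2 - a) < ε / 8 := by
    have h := (deq_lim0 (1 / 2 - a) (by linarith)).const_mul K2
    rw [mul_zero] at h
    exact h.eventually (gt_mem_nhds (by positivity))
  have E3 : ∀ᶠ x : ℝ in 𝓝[>] 0, 5 * x ^ (b - a) < 1 := by
    have h := (deq_lim0 (b - a) (by linarith)).const_mul 5
    rw [mul_zero] at h
    exact h.eventually (gt_mem_nhds one_pos)
  have E4 : ∀ᶠ x : ℝ in 𝓝[>] 0, 24 * d * A2 * ((x⁻¹) ^ 2 * Real.exp (-(a2 * x ^ (-a)))) < 1 := by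
    have h := (deq_lim1 a ha0 a2 ha2 2).const_mul (24 * d * A2)
    rw [mul_zero] at h
    exact h.eventually (gt_mem_nhds one_pos)
  have E5 : ∀ᶠ x : ℝ in 𝓝[>] 0,
      K4 * ((x⁻¹) ^ (3 * d + 2) * Real.exp (-(c' / 2 * x ^ (-a)))) < ε / 8 := by
    have h := (deq_lim1 a ha0 (c' / 2) (by positivity) (3 * d + 2)).const_mul K4
    rw [mul_zero] at h
    exact h.eventually (gt_mem_nhds (by positivity))
  have Eall := E1.and (E2.and (E3.and (E4.and E5)))
  obtain ⟨u, hu0, hu⟩ := mem_nhdsGT_iff_exists_Ioc_subset.1 Eall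
  have hu0' : (0 : ℝ) < u := hu0
  refine ⟨min u lam0, lt_min hu0' hlam0, (min_le_right _ _).trans hlam01, ?_⟩
  intro x hx0 hx
  have hxu : x ≤ u := hx.trans (min_le_left _ _)
  have hxl : x ≤ lam0 := hx.trans (min_le_right _ _)
  have hx1 : x ≤ 1 := hxl.trans hlam01
  obtain ⟨e1, e2, e3, e4, e5⟩ := hu ⟨hx0, hxu⟩
  -- scales
  set X := x⁻¹ with hX
  have hX0 : 0 < X := inv_pos.2 hx0
  set ya := x ^ (-a) with hya
  set yb := x ^ (-b) with hyb
  have hya1 : 1 ≤ ya := Real.one_le_rpow_of_pos_of_le_one_of_nonpos hx0 hx1 (by linarith)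
  have hyb1 : 1 ≤ yb := Real.one_le_rpow_of_pos_of_le_one_of_nonpos hx0 hx1 (by linarith)
  have hX1 : X = x ^ (-1 : ℝ) := by rw [hX, Real.rpow_neg_one]
  have hyaX : ya ≤ X := by
    rw [hX1]; exact Real.rpow_le_rpow_of_exponent_ge hx0 hx1 (by linarith)
  have hybX : yb ≤ X := by
    rw [hX1]; exact Real.rpow_le_rpow_of_exponent_ge hx0 hx1 (by linarith)
  have hX1' : 1 ≤ X := hya1.trans hyaX
  have h5 : 5 * ya ≤ yb := by
    have : x ^ (b - a) * yb = ya := by
      rw [hyb, hya, ← Real.rpow_add hx0]; congr 1; ring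
    rw [← this]
    nlinarith
  have hybd : yb ^ d = x ^ (-(1 / 2) : ℝ) := by
    rw [hyb, ← Real.rpow_natCast, ← Real.rpow_mul hx0.le]
    congr 1
    rw [neg_mul, hbd]
  obtain ⟨hN1, hN2⟩ := deq_ceil hyb1
  obtain ⟨hr1, hr2⟩ := deq_ceil hya1
  set N := ⌈yb⌉₊ with hN
  set ρ := ⌈ya⌉₊ with hρ
  have hN0 : (1 : ℝ) ≤ N := hyb1.trans hN1
  have hN0' : (0 : ℝ) < N := by linarith
  set τ := (N : ℝ) ^ d * x with hτ
  have hτ0 : 0 < τ := by positivity
  set η := x ^ a with hη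
  have hη0 : 0 < η := Real.rpow_pos_of_pos hx0 _
  have hη1 : η ≤ 1 := Real.rpow_le_one hx0.le hx1 ha0.le
  have hηya : η * ya = 1 := by
    rw [hη, hya, ← Real.rpow_add hx0]; simp
  -- N^d x ≤ 2^d x^(1/2)
  have hNd : τ ≤ 2 ^ d * x ^ (1 / 2 : ℝ) := by
    rw [hτ]
    have h1 : (N : ℝ) ^ d ≤ (2 * yb) ^ d := pow_le_pow_left₀ hN0'.le hN2 d
    rw [mul_pow, hybd] at h1
    calc (N : ℝ) ^ d * x ≤ (2 ^ d * x ^ (-(1 / 2) : ℝ)) * x :=
          mul_le_mul_of_nonneg_right h1 hx0.le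
      _ = 2 ^ d * (x ^ (-(1 / 2) : ℝ) * x ^ (1 : ℝ)) := by rw [Real.rpow_one]; ring
      _ = 2 ^ d * x ^ (1 / 2 : ℝ) := by
          rw [← Real.rpow_add hx0]; congr 2; norm_num
  have hyah : ya * x ^ (1 / 2 : ℝ) = x ^ (1 / 2 - a) := by
    rw [hya, ← Real.rpow_add hx0]; congr 1; ring
  -- choice of n0
  obtain ⟨n1, hn1⟩ := eventually_atTop.1 (deq_limn x (x ^ 2) (by positivity))
  obtain ⟨n2, hn2⟩ := exists_nat_ge (A1 * (12 * d) * ya / (ε / 8))
  refine ⟨max (max n1 n2) (max ((K + 2) * N) 1), ?_⟩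
  intro n hn s L g hs hL1 hL hloc hgb
  have hnn1 : n1 ≤ n := ((le_max_left _ _).trans (le_max_left _ _)).trans hn
  have hnn2 : n2 ≤ n := ((le_max_right _ _).trans (le_max_left _ _)).trans hn
  have hnK : (K + 2) * N ≤ n := ((le_max_left _ _).trans (le_max_right _ _)).trans hn
  have hn1' : 1 ≤ n := ((le_max_right _ _).trans (le_max_right _ _)).trans hn
  have hn0 : (0 : ℝ) < n := by exact_mod_cast hn1'
  have hgm : Measurable g := hloc.measurable
  set m := (∫ ω, Zw x l ω 0 * g ω ∂(nu d p)) / ∫ ω, Zw x l ω 0 ∂(nu d p) with hm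
  obtain ⟨hmL, hmean⟩ := deq_mean hx0 hx1 hl hgm (by linarith : (0:ℝ) ≤ L) hgb m hm
  set g' : Om d → ℝ := fun ω => g ω - m with hg'
  set L' := 12 * d * L with hL'
  have hL'0 : 0 ≤ L' := by positivity
  have hL'1 : 1 ≤ L' := by
    have := one_le_mul_of_one_le_of_one_le hd0 hL1
    rw [hL', mul_assoc]
    linarith
  have hL'ya : L' ≤ 12 * d * ya := by
    rw [hL']; exact mul_le_mul_of_nonneg_left hL (by positivity)
  have hg'b : ∀ ω, |Zw x l ω 0 * g' ω| ≤ L' := by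
    intro ω
    rw [abs_mul, abs_of_nonneg (Zw_nonneg x l ω 0), hL']
    have h1 : |g' ω| ≤ 2 * L := by
      rw [hg']
      refine (abs_sub _ _).trans ?_
      linarith [hgb ω]
    calc Zw x l ω 0 * |g' ω| ≤ (6 * d) * (2 * L) :=
          mul_le_mul (deq_Zw_le hx0 hx1 hl ω 0) h1 (abs_nonneg _) (by positivity)
      _ = 12 * d * L := by ring
  set w : Om d → ℝ := fun ω => Zw x l ω 0 * g' ω with hw
  have hwloc : Loc (EB (s + 1) (0 : V d) : Set (Ed d)) w := by
    have h1 : Loc (EB (s + 1) (0 : V d) : Set (Ed d)) (fun ω : Om d => Zw x l ω 0) :=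
      (Loc_Zw x l 0).mono (by exact_mod_cast EB_mono (by omega) 0)
    have h2 : Loc (EB (s + 1) (0 : V d) : Set (Ed d)) g :=
      hloc.mono (by exact_mod_cast EB_mono (by omega) 0)
    exact Loc.comp2 (fun z y => z * (y - m)) h1 h2
  -- bad events
  have hBloc : ∀ y : V d, Loc (EB (K * N + N + ρ + (s + 1)) y : Set (Ed d))
      (fun ω : Om d => ω ∈ {ω : Om d | ¬ BoxGood K N ρ θ η w ω y}) := by
    intro y
    have h1 := Loc_BoxGood K N ρ (s + 1) (by omega) θ η w hwloc y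
    intro ω ω' h
    have h2 := h1 ω ω' h
    simp only [Set.mem_ofPred_eq]
    simp only at h2
    rw [h2]
  have hBmeas : ∀ y : V d, MeasurableSet {ω : Om d | ¬ BoxGood K N ρ θ η w ω y} := fun y =>
    Loc.measurableSet _ (hBloc y)
  have hP : ∀ y : V d, (Pr d p).real {ω : Om d | ¬ BoxGood K N ρ θ η w ω y} ≤
      3 * A2 * ((N : ℝ) + 1) ^ (2 * d) * Real.exp (-(c' * ya)) := by
    intro y
    have hsN : s + 1 + ρ + 1 ≤ N := by
      have : ((s + 1 + ρ + 1 : ℕ) : ℝ) ≤ N := by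
        push_cast
        linarith
      exact_mod_cast this
    have hexp : L' * A2 * Real.exp (-a2 * ρ) ≤ η / 2 := by
      have h1 : Real.exp (-a2 * ρ) ≤ Real.exp (-(a2 * ya)) := by
        apply Real.exp_le_exp.2
        have := mul_le_mul_of_nonneg_left hr1 ha2.le
        linarith
      have h2 : L' * A2 * Real.exp (-a2 * ρ) ≤ 12 * d * ya * A2 * Real.exp (-(a2 * ya)) := by
        apply mul_le_mul _ h1 (Real.exp_pos _).le (by positivity)
        exact mul_le_mul_of_nonneg_right hL'ya hA2.le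
      have h3 : ya * ya ≤ X ^ 2 := by
        rw [sq]; exact mul_le_mul hyaX hyaX (by linarith) hX0.le
      have h4 : 24 * d * A2 * (ya * ya * Real.exp (-(a2 * ya))) ≤ 1 := by
        refine le_trans ?_ e4.le
        apply mul_le_mul_of_nonneg_left _ (by positivity)
        exact mul_le_mul_of_nonneg_right h3 (Real.exp_pos _).le
      have h6 : 12 * d * ya * A2 * Real.exp (-(a2 * ya)) =
          (24 * d * A2 * (ya * ya * Real.exp (-(a2 * ya)))) * η / 2 := by
        have : ya * ya * η = ya := by rw [mul_assoc, mul_comm ya η, hηya, mul_one]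
        calc 12 * d * ya * A2 * Real.exp (-(a2 * ya)) =
            12 * d * (ya * ya * η) * A2 * Real.exp (-(a2 * ya)) := by rw [this]
          _ = _ := by ring
      rw [h6] at h2
      have h7 := mul_le_mul_of_nonneg_right h4 hη0.le
      linarith
    have h1 := hbox N ρ (s + 1) L' η w hwloc hg'b hL'1 hη0 hη1 hsN hexp hmean y
    refine h1.trans ?_
    have hx2 : Real.exp (-a2 * ρ) ≤ Real.exp (-(c' * ya)) := by
      apply Real.exp_le_exp.2
      have : c' ≤ a2 := min_le_left _ _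
      have h8 := mul_le_mul this hr1 (by linarith) ha2.le
      linarith
    have hx3 : Real.exp (-a2 * N) ≤ Real.exp (-(c' * ya)) := by
      apply Real.exp_le_exp.2
      have h7 : c' ≤ a2 := min_le_left _ _
      have h8 : ya ≤ N := by linarith
      have h9 := mul_le_mul h7 h8 (by linarith) ha2.le
      linarith
    have hx4 : Real.exp (-(a2 * η ^ 2 * N ^ d / (L' ^ 2 * (((s + 1 : ℕ) : ℝ) + ρ + 1) ^ d))) ≤
        Real.exp (-(c' * ya)) := by
      apply Real.exp_le_exp.2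
      rw [neg_le_neg_iff, le_div_iff₀ (by positivity)]
      have h7 : (((s + 1 : ℕ) : ℝ) + ρ + 1) ^ d ≤ 5 ^ d * ya ^ d := by
        rw [← mul_pow]
        apply pow_le_pow_left₀ (by positivity)
        push_cast
        linarith
      have h8 : L' ^ 2 ≤ 144 * d ^ 2 * ya ^ 2 := by
        calc L' ^ 2 ≤ (12 * d * ya) ^ 2 := pow_le_pow_left₀ hL'0 hL'ya 2
          _ = _ := by ring
      have h9 : c' ≤ a2 / (144 * d ^ 2 * 5 ^ d) := min_le_right _ _
      have h10 : yb ^ d ≤ N ^ d := pow_le_pow_left₀ (by linarith) hN1 d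
      -- the key power inequality
      have h11 : ya * (ya ^ 2 * ya ^ d) ≤ η ^ 2 * yb ^ d := by
        have h12 : ya * (ya ^ 2 * ya ^ d) * ya ^ 2 ≤ yb ^ d := by
          have e : ya * (ya ^ 2 * ya ^ d) * ya ^ 2 = x ^ (-(5 * a + a * d)) := by
            have : ya * (ya ^ 2 * ya ^ d) * ya ^ 2 = ya ^ (d + 5) := by ring
            rw [this, hya, ← Real.rpow_natCast, ← Real.rpow_mul hx0.le]
            congr 1
            push_cast
            ring
          rw [e, hybd]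
          exact Real.rpow_le_rpow_of_exponent_ge hx0 hx1 (by linarith)
        have h13 : η ^ 2 * ya ^ 2 = 1 := by rw [← mul_pow, hηya, one_pow]
        calc ya * (ya ^ 2 * ya ^ d) = (ya * (ya ^ 2 * ya ^ d)) * (η ^ 2 * ya ^ 2) := by
              rw [h13, mul_one]
          _ = η ^ 2 * (ya * (ya ^ 2 * ya ^ d) * ya ^ 2) := by ring
          _ ≤ η ^ 2 * yb ^ d := mul_le_mul_of_nonneg_left h12 (by positivity)
      calc c' * ya * (L' ^ 2 * (((s + 1 : ℕ) : ℝ) + ρ + 1) ^ d)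
          ≤ (a2 / (144 * d ^ 2 * 5 ^ d)) * ya * ((144 * d ^ 2 * ya ^ 2) * (5 ^ d * ya ^ d)) := by
            apply mul_le_mul _ (mul_le_mul h8 h7 (by positivity) (by positivity))
              (by positivity) (by positivity)
            exact mul_le_mul_of_nonneg_right h9 (by linarith)
        _ = a2 * (ya * (ya ^ 2 * ya ^ d)) := by field_simp
        _ ≤ a2 * (η ^ 2 * yb ^ d) := mul_le_mul_of_nonneg_left h11 ha2.le
        _ ≤ a2 * (η ^ 2 * N ^ d) := by
            apply mul_le_mul_of_nonneg_left _ ha2.le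
            exact mul_le_mul_of_nonneg_left h10 (by positivity)
        _ = a2 * η ^ 2 * N ^ d := by ring
    have h3 : 0 ≤ A2 * ((N : ℝ) + 1) ^ (2 * d) := by positivity
    calc A2 * ((N : ℝ) + 1) ^ (2 * d) * (Real.exp (-a2 * ρ) + Real.exp (-a2 * N)
        + Real.exp (-(a2 * η ^ 2 * N ^ d / (L' ^ 2 * (((s + 1 : ℕ) : ℝ) + ρ + 1) ^ d))))
        ≤ A2 * ((N : ℝ) + 1) ^ (2 * d) * (3 * Real.exp (-(c' * ya))) :=
          mul_le_mul_of_nonneg_left (by linarith) h3
      _ = _ := by ring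
  -- bound for the annealed bad averages
  set M := A3 * ((2 * K + 9) * X) ^ d / x ^ (d + 1) *
    (Real.sqrt (3 * A2) * (3 * X) ^ d * Real.exp (-(c' / 2 * ya))) with hM
  have hM0 : 0 ≤ M := by positivity
  have hbad : ∀ y ∈ Bx N (0 : V d), Ann p x l n (Set.indicator {ω : Om d | ¬ BoxGood K N ρ θ η
      w ω y} (fun _ => (1 : ℝ))) ≤ M := by
    intro y hy
    have h1 : Loc (EB (K * N + N + ρ + (s + 1) + N) (0 : V d) : Set (Ed d))
        (fun ω : Om d => ω ∈ {ω : Om d | ¬ BoxGood K N ρ θ η w ω y}) :=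
      (hBloc y).mono (by exact_mod_cast EB_subset hy)
    have h2 := hrare x hx0 hxl n hn1' _ _ h1
    refine h2.trans ?_
    have h3 : (((K * N + N + ρ + (s + 1) + N : ℕ) : ℝ) + 1) ≤ (2 * K + 9) * X := by
      push_cast
      have hK0 : (0 : ℝ) ≤ K := by positivity
      have h4 : (K : ℝ) * N ≤ K * (2 * X) := mul_le_mul_of_nonneg_left (by linarith) hK0
      have h5' : (2 * (K : ℝ) + 9) * X = K * (2 * X) + 9 * X := by ring
      rw [h5']
      linarith
    have h4 : Real.sqrt ((Pr d p).real {ω : Om d | ¬ BoxGood K N ρ θ η w ω y}) ≤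
        Real.sqrt (3 * A2) * (3 * X) ^ d * Real.exp (-(c' / 2 * ya)) := by
      rw [Real.sqrt_le_left (by positivity)]
      refine (hP y).trans ?_
      have e : (Real.sqrt (3 * A2) * (3 * X) ^ d * Real.exp (-(c' / 2 * ya))) ^ 2 =
          3 * A2 * (3 * X) ^ (2 * d) * Real.exp (-(c' * ya)) := by
        rw [mul_pow, mul_pow, Real.sq_sqrt (by positivity), ← pow_mul, ← Real.exp_nat_mul]
        rw [mul_comm d 2]
        congr 2
        push_cast
        ring
      rw [e]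
      apply mul_le_mul_of_nonneg_right _ (Real.exp_pos _).le
      apply mul_le_mul_of_nonneg_left _ (by positivity)
      apply pow_le_pow_left₀ (by positivity)
      linarith
    rw [hM]
    apply mul_le_mul _ h4 (Real.sqrt_nonneg _) (by positivity)
    apply div_le_div_of_nonneg_right _ (by positivity)
    apply mul_le_mul_of_nonneg_left _ hA3.le
    exact pow_le_pow_left₀ (by positivity) h3 d
  have hmain := hann p x l n hx0 hx1 hl hn1' K N ρ θ η L' τ M (by omega) hnK hθ hη0 hL'0 hτ0 hM0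
    g' hg'b hBmeas hbad
  rw [← Ann_sub_const p x l hn1' hgm hgb m]
  refine hmain.trans ?_
  -- the four terms
  have hLτ : L' * τ ≤ 12 * d * 2 ^ d * x ^ (1 / 2 - a) := by
    calc L' * τ ≤ (12 * d * ya) * (2 ^ d * x ^ (1 / 2 : ℝ)) :=
          mul_le_mul hL'ya hNd hτ0.le (by positivity)
      _ = 12 * d * 2 ^ d * (ya * x ^ (1 / 2 : ℝ)) := by ring
      _ = _ := by rw [hyah]
  have T1 : A1 * (η / θ + L' * τ) ≤ ε / 8 + A1 * (12 * d * 2 ^ d) * x ^ (1 / 2 - a) := by
    have h1 : A1 * (η / θ) = A1 / θ * η := by ring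
    have h2 : A1 * (L' * τ) ≤ A1 * (12 * d * 2 ^ d * x ^ (1 / 2 - a)) :=
      mul_le_mul_of_nonneg_left hLτ hA1.le
    rw [mul_add, h1]
    linarith
  have T2 : A1 * L' / τ * ((K : ℝ) * N + 1) ^ (2 * d) *
        (x ^ 2 + x * (Real.sqrt (n * Real.log (n + 2)) / n) + Real.log (n + 2) / n) ≤
      2 * A1 * ((K : ℝ) + 1) ^ (2 * d) * (12 * d * 2 ^ d) * x ^ (1 / 2 - a) := by
    have h1 := hn1 n hnn1
    rw [abs_of_pos hx0] at h1
    have h2 : ((K : ℝ) * N + 1) ^ (2 * d) ≤ (((K : ℝ) + 1) * N) ^ (2 * d) := by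
      apply pow_le_pow_left₀ (by positivity)
      linarith
    calc A1 * L' / τ * ((K : ℝ) * N + 1) ^ (2 * d) *
        (x ^ 2 + x * (Real.sqrt (n * Real.log (n + 2)) / n) + Real.log (n + 2) / n)
        ≤ A1 * L' / τ * (((K : ℝ) + 1) * N) ^ (2 * d) * (2 * x ^ 2) := by
          apply mul_le_mul (mul_le_mul_of_nonneg_left h2 (by positivity)) (by linarith)
            _ (by positivity)
          have : 0 ≤ Real.log ((n : ℝ) + 2) := Real.log_nonneg (by linarith)
          positivity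
      _ = 2 * A1 * ((K : ℝ) + 1) ^ (2 * d) * (L' * τ) := by
          rw [hτ, mul_pow, pow_mul' (N : ℝ) 2 d]
          field_simp
      _ ≤ 2 * A1 * ((K : ℝ) + 1) ^ (2 * d) * (12 * d * 2 ^ d * x ^ (1 / 2 - a)) :=
          mul_le_mul_of_nonneg_left hLτ (by positivity)
      _ = _ := by ring
  have T3 : A1 * L' / n ≤ ε / 8 := by
    have h1 : A1 * (12 * d) * ya / (ε / 8) ≤ n := hn2.trans (by exact_mod_cast hnn2)
    rw [div_le_iff₀ (by positivity)] at h1
    rw [div_le_iff₀ hn0]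
    have h2 : A1 * L' ≤ A1 * (12 * d * ya) := mul_le_mul_of_nonneg_left hL'ya hA1.le
    calc A1 * L' ≤ A1 * (12 * d * ya) := h2
      _ = A1 * (12 * d) * ya := by ring
      _ ≤ n * (ε / 8) := h1
      _ = ε / 8 * n := by ring
  have T4 : A1 * L' * M ≤ ε / 8 := by
    have h1 : A1 * L' * M ≤ A1 * (12 * d * X) * M := by
      apply mul_le_mul_of_nonneg_right _ hM0
      apply mul_le_mul_of_nonneg_left _ hA1.le
      exact hL'ya.trans (mul_le_mul_of_nonneg_left hyaX (by positivity))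
    have h2 : A1 * (12 * d * X) * M = K4 * (X ^ (3 * d + 2) * Real.exp (-(c' / 2 * ya))) := by
      rw [hM, hK4]
      have : 1 / x ^ (d + 1) = X ^ (d + 1) := by rw [hX, inv_pow, one_div]
      have e : A3 * ((2 * K + 9) * X) ^ d / x ^ (d + 1) =
          A3 * ((2 * K + 9) * X) ^ d * X ^ (d + 1) := by
        rw [← this]; ring
      rw [e, mul_pow, mul_pow]
      ring
    rw [h2] at h1
    exact h1.trans e5.le
  have e2' := e2.le
  rw [hK2] at e2'
  have e2'' : A1 * (12 * d * 2 ^ d) * x ^ (1 / 2 - a) +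
      2 * A1 * ((K : ℝ) + 1) ^ (2 * d) * (12 * d * 2 ^ d) * x ^ (1 / 2 - a) ≤ ε / 8 := by
    refine le_trans (le_of_eq ?_) e2'
    ring
  linarith

end Ein99
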