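import Pool.Agent.LibEin99.E_Ln

/-!
TASK E_Chi. First step decompositions for the displacement of the lazy walk.

`chi_succ`: `chi (n+1) ω = (Ln ω n (dot l) 0 + Pop 0 0 ω (Ln ω n (dot l)) 0)/2` and, on an open
edge, `Ln ω n (dot l) (st δ) = Ln (sh (st δ) ω) n (fun y => dot l (y + st δ)) 0
= dt l δ + chi l n (sh (st δ) ω)`. At a vertex with no open edge everything is `0`.
`U2_succ` similarly with `(dot l (y + st δ))² = (dt l δ)² + 2 dt l δ dot l y + (dot l y)²`.
-/

open MeasureTheory ProbabilityTheory Filter Topology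
open scoped ENNReal

namespace Ein99

variable {d : ℕ} (l : Fin d → ℝ)

private theorem oo_nonneg' (ω : Om d) (δ : Dir d) : 0 ≤ oo ω δ := by
  unfold oo; split_ifs <;> norm_num

private theorem oo_zero (ω : Om d) (h : dg ω = 0) (δ : Dir d) : oo ω δ = 0 := by
  unfold dg at h
  rw [Finset.sum_eq_zero_iff_of_nonneg fun δ _ => oo_nonneg' ω δ] at h
  exact h δ (Finset.mem_univ δ)

private theorem dg_nonneg' (ω : Om d) : 0 ≤ dg ω :=
  Finset.sum_nonneg fun δ _ => oo_nonneg' ω δ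

/-- the walk stays at a vertex without open edges -/
private theorem Ln_stay (ω : Om d) (h : dg ω = 0) (n : ℕ) (g : V d → ℝ) : Ln ω n g 0 = g 0 := by
  have hZ : Zw 0 0 ω (0 : V d) = 0 := by
    rw [Zw_eq_zero_iff]
    intro δ hδ
    have h1 := oo_zero ω h δ
    unfold oo at h1
    rw [if_pos hδ] at h1
    exact one_ne_zero h1
  have hL : ∀ g : V d → ℝ, Lz ω g 0 = g 0 := by
    intro g
    unfold Lz Pop
    rw [if_pos hZ]
    ring
  induction n generalizing g with
  | zero => rw [Ln_zero]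
  | succ n ih => rw [Ln_succ', ih, hL]

private theorem Ae_eq_Ln (f : Om d → ℝ) (ω : Om d) : Ae f ω = Ln ω 1 (fun x => f (sh x ω)) 0 := by
  rw [Ln_succ, Ln_zero]
  rfl

private theorem Ae_stay (ω : Om d) (h : dg ω = 0) (f : Om d → ℝ) : Ae f ω = f ω := by
  rw [Ae_eq_Ln, Ln_stay ω h, sh_zero]

private theorem Ae_eq (ω : Om d) (h : dg ω ≠ 0) (f : Om d → ℝ) :
    Ae f ω = (f ω + (∑ δ, oo ω δ * f (sh (st δ) ω)) / dg ω) / 2 := by
  have h1 := Ln_first ω 0 (fun x => f (sh x ω)) h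
  simp only [Ln_zero, zero_add, sh_zero] at h1
  rw [Ae_eq_Ln]
  exact h1

private theorem dot_zero' : dot l (0 : V d) = 0 := by
  simp [dot]

private theorem chi_zero (ω : Om d) : chi l 0 ω = 0 := by
  unfold chi
  rw [Ln_zero, dot_zero']

private theorem Ln_shift_dot (ω : Om d) (n : ℕ) (δ : Dir d) :
    Ln ω n (fun y => dot l (y + st δ)) 0 = chi l n ω + dt l δ := by
  have h : (fun y : V d => dot l (y + st δ)) = dot l + fun _ => dt l δ := by
    funext y
    rw [Pi.add_apply, dot_add, dot_st]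
  rw [h, Ln_add, Pi.add_apply, Ln_const]
  rfl

private theorem chi_first (n : ℕ) (ω : Om d) (h : dg ω ≠ 0) : chi l (n + 1) ω =
    (chi l n ω + (∑ δ, oo ω δ * (chi l n (sh (st δ) ω) + dt l δ)) / dg ω) / 2 := by
  have h1 := Ln_first ω n (dot l) h
  simp only [Ln_shift_dot] at h1
  exact h1

private theorem drf_eq (ω : Om d) (h : dg ω ≠ 0) :
    drf l ω = (∑ δ, oo ω δ * dt l δ) / dg ω / 2 := by
  unfold drf
  rw [chi_first l 0 ω h]
  simp only [chi_zero, zero_add]

private theorem chi_stay (n : ℕ) (ω : Om d) (h : dg ω = 0) : chi l n ω = 0 := by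
  unfold chi
  rw [Ln_stay ω h, dot_zero']

theorem measurable_chi (n : ℕ) : Measurable (chi l n : Om d → ℝ) :=
  measurable_Ln n (fun _ => dot l) (fun _ => measurable_const) 0

private theorem Ae_iter_aux (f : Om d → ℝ) (ω : Om d) (x : V d) :
    Ae f (sh x ω) = Lz ω (fun x => f (sh x ω)) x := by
  rw [Ae_eq_Ln, Ln_sh]
  have h : (fun y : V d => f (sh (y - x) (sh x ω))) = fun y => f (sh y ω) := by
    funext y
    rw [sh_sh, sub_add_cancel]
  rw [h, Ln_succ, Ln_zero, zero_add]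

/-- `Ae` iterated is the lazy walk: `Ae^[n] f ω = Ln ω n (x ↦ f (sh x ω)) 0`. -/
private theorem Ae_iter' (n : ℕ) (f : Om d → ℝ) (ω : Om d) :
    (Ae^[n] f) ω = Ln ω n (fun x => f (sh x ω)) 0 := by
  induction n generalizing f with
  | zero => rw [Function.iterate_zero, Ln_zero, sh_zero]; rfl
  | succ n ih =>
    rw [Function.iterate_succ, Function.comp_apply, ih, Ln_succ']
    congr 1
    funext x
    exact Ae_iter_aux f ω x

private theorem abs_drf_le (hl : ∑ i, l i ^ 2 = 1) (ω : Om d) : |drf l ω| ≤ 1 := by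
  by_cases h : dg ω = 0
  · unfold drf
    rw [chi_stay l 1 ω h, abs_zero]
    exact zero_le_one
  · have hpos : 0 < dg ω := lt_of_le_of_ne (dg_nonneg' ω) (Ne.symm h)
    rw [drf_eq l ω h, abs_div, abs_div, abs_of_pos hpos, abs_of_pos (by norm_num : (0 : ℝ) < 2)]
    have h1 : |∑ δ, oo ω δ * dt l δ| ≤ dg ω := by
      refine (Finset.abs_sum_le_sum_abs _ _).trans ?_
      unfold dg
      refine Finset.sum_le_sum fun δ _ => ?_
      rw [abs_mul, abs_of_nonneg (oo_nonneg' ω δ)]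
      exact mul_le_of_le_one_right (oo_nonneg' ω δ) (abs_dt_le l hl δ)
    have h2 : |∑ δ, oo ω δ * dt l δ| / dg ω ≤ 1 := by
      rw [div_le_one hpos]
      exact h1
    linarith

theorem chi_succ (n : ℕ) (ω : Om d) : chi l (n + 1) ω = drf l ω + Ae (chi l n) ω := by
  by_cases h : dg ω = 0
  · rw [chi_stay l (n + 1) ω h, Ae_stay ω h, chi_stay l n ω h, drf, chi_stay l 1 ω h, add_zero]
  · rw [chi_first l n ω h, drf_eq l ω h, Ae_eq ω h]
    have h1 : ∑ δ, oo ω δ * (chi l n (sh (st δ) ω) + dt l δ) =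
        ∑ δ, oo ω δ * chi l n (sh (st δ) ω) + ∑ δ, oo ω δ * dt l δ := by
      rw [← Finset.sum_add_distrib]
      exact Finset.sum_congr rfl fun δ _ => by ring
    rw [h1]
    ring

private theorem Ae_sum (ω : Om d) (n : ℕ) (F : ℕ → Om d → ℝ) :
    Ae (fun ω => ∑ j ∈ Finset.range n, F j ω) ω = ∑ j ∈ Finset.range n, Ae (F j) ω := by
  by_cases h : dg ω = 0
  · simp only [Ae_stay ω h]
  · simp only [Ae_eq ω h]
    rw [← Finset.sum_div, Finset.sum_add_distrib, ← Finset.sum_div, Finset.sum_comm]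
    congr 3
    refine Finset.sum_congr rfl fun δ _ => ?_
    rw [Finset.mul_sum]

theorem chi_eq_sum (n : ℕ) (ω : Om d) :
    chi l n ω = ∑ j ∈ Finset.range n, (Ae^[j] (drf l)) ω := by
  induction n generalizing ω with
  | zero => rw [chi_zero, Finset.sum_range_zero]
  | succ n ih =>
    have h : chi l n = fun ω : Om d => ∑ j ∈ Finset.range n, (Ae^[j] (drf l)) ω := funext ih
    rw [chi_succ, h, Ae_sum, Finset.sum_range_succ', Function.iterate_zero, id_eq, add_comm]
    congr 1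
    refine Finset.sum_congr rfl fun j _ => ?_
    rw [Function.iterate_succ_apply']

theorem abs_chi_le (hl : ∑ i, l i ^ 2 = 1) (n : ℕ) (ω : Om d) : |chi l n ω| ≤ n := by
  rw [chi_eq_sum]
  refine (Finset.abs_sum_le_sum_abs _ _).trans ?_
  have h : ∀ j ∈ Finset.range n, |(Ae^[j] (drf l)) ω| ≤ (1 : ℝ) := by
    intro j _
    rw [Ae_iter']
    have h1 := Ln_mono ω j (g := fun x => drf l (sh x ω)) (h := fun _ => (1 : ℝ))
      (fun x => (abs_le.mp (abs_drf_le l hl (sh x ω))).2) 0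
    have h2 := Ln_mono ω j (g := fun _ => (-1 : ℝ)) (h := fun x => drf l (sh x ω))
      (fun x => (abs_le.mp (abs_drf_le l hl (sh x ω))).1) 0
    rw [Ln_const] at h1 h2
    exact abs_le.mpr ⟨h2, h1⟩
  refine (Finset.sum_le_sum h).trans ?_
  rw [Finset.sum_const, Finset.card_range, nsmul_eq_mul, mul_one]

theorem dg_mul_drf (ω : Om d) : dg ω * drf l ω = (1 / 2) * ∑ δ, oo ω δ * dt l δ := by
  by_cases h : dg ω = 0
  · rw [h, zero_mul]
    simp [oo_zero ω h]
  · rw [drf_eq l ω h]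
    field_simp

private theorem Ln_shift_sq (ω : Om d) (n : ℕ) (δ : Dir d) :
    Ln ω n (fun y => dot l (y + st δ) ^ 2) 0 =
      U2 l n ω + (dt l δ ^ 2 + 2 * dt l δ * chi l n ω) := by
  have h : (fun y : V d => dot l (y + st δ) ^ 2) =
      (fun y => dot l y ^ 2) + ((fun _ => dt l δ ^ 2) + (2 * dt l δ) • dot l) := by
    funext y
    simp only [Pi.add_apply, Pi.smul_apply, smul_eq_mul]
    rw [dot_add, dot_st]
    ring
  rw [h, Ln_add, Pi.add_apply, Ln_add, Pi.add_apply, Ln_const, Ln_smul, Pi.smul_apply,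
    smul_eq_mul]
  rfl

theorem U2_succ (n : ℕ) (ω : Om d) :
    dg ω * U2 l (n + 1) ω = dg ω * Ae (U2 l n) ω
      + (1 / 2) * ∑ δ, oo ω δ * (dt l δ ^ 2 + 2 * dt l δ * chi l n (sh (st δ) ω)) := by
  by_cases h : dg ω = 0
  · rw [h, zero_mul, zero_mul]
    simp [oo_zero ω h]
  · have h1 := Ln_first ω n (fun y => dot l y ^ 2) h
    simp only [Ln_shift_sq] at h1
    have h2 : U2 l (n + 1) ω = (U2 l n ω + (∑ δ, oo ω δ * (U2 l n (sh (st δ) ω) +
        (dt l δ ^ 2 + 2 * dt l δ * chi l n (sh (st δ) ω)))) / dg ω) / 2 := h1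
    have h3 : ∑ δ, oo ω δ * (U2 l n (sh (st δ) ω) +
        (dt l δ ^ 2 + 2 * dt l δ * chi l n (sh (st δ) ω))) =
        ∑ δ, oo ω δ * U2 l n (sh (st δ) ω) +
        ∑ δ, oo ω δ * (dt l δ ^ 2 + 2 * dt l δ * chi l n (sh (st δ) ω)) := by
      rw [← Finset.sum_add_distrib]
      exact Finset.sum_congr rfl fun δ _ => by ring
    rw [h2, h3, Ae_eq ω h]
    field_simp
    ring

/-- `Ae` iterated is the lazy walk: `Ae^[n] f ω = Ln ω n (x ↦ f (sh x ω)) 0`. -/
theorem Ae_iter (n : ℕ) (f : Om d → ℝ) (ω : Om d) :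
    (Ae^[n] f) ω = Ln ω n (fun x => f (sh x ω)) 0 := Ae_iter' n f ω

end Ein99
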