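import Pool.Agent.LibEin99.B_Speed
import Pool.Agent.LibEin99.D_EQ
import Pool.Agent.LibEin99.E_Chi
import Pool.Agent.LibEin99.C_Tail

/-!
TASK B_Upper. Upper bound for the speed.

Fix `k`. For each `ω` apply `test_potential` with `Θ x = Ln ω k (dot l) x`. By `Ln_sh`,
`Θ x = dot l x + chi l k (sh x ω)`, so `|Θ x - dot l x| ≤ k`, `|Θ(x + st δ) - Θ x| ≤ 2k+1` and
`Θ(x + st δ) - Θ x = GPsi l k (sh x ω) δ`. Hence
`Pop (fun y => (Θ y - Θ x)²) x = g_lam (sh x ω)` with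
`g_lam ω = (∑_δ wt lam l ω 0 δ * GPsi l k ω δ ^ 2)/Zw lam l ω 0` (`0` if `Zw = 0`), local on `EB (k+2) 0`,
`|g_lam| ≤ (2k+1)²`.
`|DD| ≤ 2k + C(2k+1) + √(X Y)`, `X = lam DD + C log(n+2) ≥ 0` (`DD_le`, enlarge `C`), `Y = ∑_j Pn j g_lam +
C (2k+1)²`. Integrate over `nu`, `∫ √(XY) ≤ √(∫X ∫Y)`, divide by `n`, let `n → ∞` (`speed_lim`,
`equidistribution`): `tha v ≤ √(lam tha v (tha m_lam + ε'))`, `m_lam = ∫ Zw g_lam d(nu)/∫ Zw d(nu)`. As
`v ≥ 0` (`speed_le`): `v ≤ lam (m_lam + ε'/tha)`. Finally `m_lam → ip (GPsi k)(GPsi k)/kap` as `lam → 0`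
(`|exp(lam dt) - 1| ≤ 2 lam`, `oo = wt` at `lam = 0`).
-/

open MeasureTheory ProbabilityTheory Filter Topology

namespace Ein99

variable {d : ℕ} {p : unitInterval} {K : ℕ} {C c : ℝ}

/-! ### Small facts -/

theorem bu_tha_le : tha d p ≤ 1 := by
  unfold tha nu
  rw [measureReal_def, Measure.restrict_apply_univ, ← measureReal_def]
  exact measureReal_le_one

theorem bu_oo_nonneg (ω : Om d) (δ : Dir d) : 0 ≤ oo ω δ := by
  unfold oo
  split_ifs <;> norm_num

theorem bu_oo_le (ω : Om d) (δ : Dir d) : oo ω δ ≤ 1 := by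
  unfold oo
  split_ifs <;> norm_num

theorem bu_meas_oo (δ : Dir d) : Measurable (fun ω : Om d => oo ω δ) := by
  have h : Loc (EB 1 (0 : V d) : Set (Ed d)) (fun ω : Om d => oo ω δ) := by
    intro ω ω' h
    have h1 : ω (ed 0 δ) = ω' (ed 0 δ) := by
      apply h
      rw [Finset.mem_coe, ed_mem_EB]
      exact ⟨self_mem_Bx 1 0, add_st_mem_Bx 0 δ⟩
    simp only [oo, opn, h1]
  exact Loc.measurable _ h

theorem bu_card : (Finset.univ : Finset (Dir d)).card = 2 * d := by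
  simp [Finset.card_univ, mul_comm]

theorem bu_dg_nonneg (ω : Om d) : 0 ≤ dg ω := Finset.sum_nonneg fun δ _ => bu_oo_nonneg ω δ

theorem bu_dg_le (ω : Om d) : dg ω ≤ 2 * d := by
  unfold dg
  calc ∑ δ, oo ω δ ≤ ∑ _δ : Dir d, (1 : ℝ) := Finset.sum_le_sum fun δ _ => bu_oo_le ω δ
    _ = 2 * d := by
      rw [Finset.sum_const, bu_card, nsmul_eq_mul, mul_one]
      push_cast
      ring

theorem bu_meas_dg : Measurable (fun ω : Om d => dg ω) :=
  Finset.measurable_sum _ fun δ _ => bu_meas_oo δ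

theorem bu_int_dg : Integrable (fun ω : Om d => dg ω) (nu d p) :=
  BSpeed_int bu_meas_dg (2 * d) (fun ω => by
    rw [abs_of_nonneg (bu_dg_nonneg ω)]
    exact bu_dg_le ω)

theorem kap_pos (hH : HypH d p K C c) : 0 < kap d p := by
  have := BSpeed_fin (d := d) (p := p)
  have h1 : tha d p ≤ kap d p := by
    unfold kap tha
    have h2 : ∫ _ω : Om d, (1 : ℝ) ∂(nu d p) ≤ ∫ ω, dg ω ∂(nu d p) := by
      apply integral_mono_ae (integrable_const _) bu_int_dg
      exact ae_one_le_dg p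
    rw [integral_const, smul_eq_mul, mul_one] at h2
    exact h2
  have h3 : 0 < tha d p := theta_pos hH
  linarith

theorem bu_wt_eq (lam : ℝ) (l : Fin d → ℝ) (ω : Om d) (δ : Dir d) :
    wt lam l ω 0 δ = oo ω δ * Real.exp (lam * dt l δ) := by
  unfold wt oo
  split_ifs
  · rw [one_mul]
  · rw [zero_mul]

theorem bu_exp_sub (lam : ℝ) (h : |lam| ≤ 1) (l : Fin d → ℝ) (hl : ∑ i, l i ^ 2 = 1)
    (δ : Dir d) : |Real.exp (lam * dt l δ) - 1| ≤ 2 * |lam| := by
  have h1 := abs_dt_le l hl δ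
  have h2 : |lam * dt l δ| ≤ |lam| := by
    rw [abs_mul]
    exact mul_le_of_le_one_right (abs_nonneg _) h1
  have h3 := Real.abs_exp_sub_one_le (h2.trans h)
  linarith

theorem bu_wt_sub (lam : ℝ) (h : |lam| ≤ 1) (l : Fin d → ℝ) (hl : ∑ i, l i ^ 2 = 1)
    (ω : Om d) (δ : Dir d) : |wt lam l ω 0 δ - oo ω δ| ≤ 2 * |lam| := by
  rw [bu_wt_eq]
  have e : oo ω δ * Real.exp (lam * dt l δ) - oo ω δ = oo ω δ * (Real.exp (lam * dt l δ) - 1) := by
    ring
  rw [e, abs_mul, abs_of_nonneg (bu_oo_nonneg ω δ)]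
  calc oo ω δ * |Real.exp (lam * dt l δ) - 1| ≤ 1 * |Real.exp (lam * dt l δ) - 1| :=
        mul_le_mul_of_nonneg_right (bu_oo_le ω δ) (abs_nonneg _)
    _ ≤ 2 * |lam| := by
        rw [one_mul]
        exact bu_exp_sub lam h l hl δ

/-- comparison of weighted sums with bounded weights -/
theorem bu_sum_sub (lam : ℝ) (h : |lam| ≤ 1) (l : Fin d → ℝ) (hl : ∑ i, l i ^ 2 = 1)
    (ω : Om d) (f : Dir d → ℝ) (M : ℝ) (hf : ∀ δ, |f δ| ≤ M) :
    |∑ δ, wt lam l ω 0 δ * f δ - ∑ δ, oo ω δ * f δ| ≤ 4 * d * M * |lam| := by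
  rw [← Finset.sum_sub_distrib]
  refine (Finset.abs_sum_le_sum_abs _ _).trans ?_
  calc ∑ δ, |wt lam l ω 0 δ * f δ - oo ω δ * f δ| ≤ ∑ _δ : Dir d, 2 * |lam| * M := by
        apply Finset.sum_le_sum
        intro δ _
        rw [← sub_mul, abs_mul]
        exact mul_le_mul (bu_wt_sub lam h l hl ω δ) (hf δ) (abs_nonneg _) (by positivity)
    _ = 4 * d * M * |lam| := by
        rw [Finset.sum_const, bu_card, nsmul_eq_mul]
        push_cast
        ring

theorem bu_meas_Zw (lam : ℝ) (l : Fin d → ℝ) : Measurable (fun ω : Om d => Zw lam l ω 0) :=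
  Loc.measurable _ (Loc_Zw lam l 0)

/-- general limit lemma -/
theorem bu_lim (l : Fin d → ℝ) (hl : ∑ i, l i ^ 2 = 1) (f : Om d → Dir d → ℝ) (M : ℝ)
    (hf : ∀ ω δ, |f ω δ| ≤ M) (hm : ∀ δ, Measurable (fun ω => f ω δ)) :
    Tendsto (fun lam : ℝ => ∫ ω, ∑ δ, wt lam l ω 0 δ * f ω δ ∂(nu d p)) (𝓝 0)
      (𝓝 (∫ ω, ∑ δ, oo ω δ * f ω δ ∂(nu d p))) := by
  have := BSpeed_fin (d := d) (p := p)
  have hM : ∀ ω : Om d, |∑ δ, oo ω δ * f ω δ| ≤ 2 * d * M := by
    intro ω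
    refine (Finset.abs_sum_le_sum_abs _ _).trans ?_
    calc ∑ δ, |oo ω δ * f ω δ| ≤ ∑ _δ : Dir d, M := by
          apply Finset.sum_le_sum
          intro δ _
          rw [abs_mul, abs_of_nonneg (bu_oo_nonneg ω δ)]
          calc oo ω δ * |f ω δ| ≤ 1 * |f ω δ| :=
                mul_le_mul_of_nonneg_right (bu_oo_le ω δ) (abs_nonneg _)
            _ ≤ M := by rw [one_mul]; exact hf ω δ
      _ = 2 * d * M := by
          rw [Finset.sum_const, bu_card, nsmul_eq_mul]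
          push_cast
          ring
  have hmo : Measurable (fun ω : Om d => ∑ δ, oo ω δ * f ω δ) :=
    Finset.measurable_sum _ fun δ _ => (bu_meas_oo δ).mul (hm δ)
  have hio : Integrable (fun ω : Om d => ∑ δ, oo ω δ * f ω δ) (nu d p) := BSpeed_int hmo _ hM
  have hmw : ∀ lam : ℝ, Measurable (fun ω : Om d => ∑ δ, wt lam l ω 0 δ * f ω δ) := by
    intro lam
    refine Finset.measurable_sum _ fun δ _ => Measurable.mul ?_ (hm δ)
    have : (fun ω : Om d => wt lam l ω 0 δ) = fun ω => oo ω δ * Real.exp (lam * dt l δ) := by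
      funext ω
      exact bu_wt_eq lam l ω δ
    rw [this]
    exact (bu_meas_oo δ).mul_const _
  have key : ∀ lam : ℝ, |lam| ≤ 1 →
      |∫ ω, ∑ δ, wt lam l ω 0 δ * f ω δ ∂(nu d p) - ∫ ω, ∑ δ, oo ω δ * f ω δ ∂(nu d p)| ≤
        (tha d p * (4 * d * M)) * |lam| := by
    intro lam hlam
    have hiw : Integrable (fun ω : Om d => ∑ δ, wt lam l ω 0 δ * f ω δ) (nu d p) := by
      apply BSpeed_int (hmw lam) (2 * d * M + 4 * d * M * |lam|)
      intro ω
      have h1 := bu_sum_sub lam hlam l hl ω (f ω) M (hf ω)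
      have h2 := hM ω
      rw [abs_le] at h1 h2 ⊢
      constructor <;> linarith [h1.1, h1.2, h2.1, h2.2]
    rw [← integral_sub hiw hio]
    refine (abs_integral_le_integral_abs).trans ?_
    calc ∫ ω, |∑ δ, wt lam l ω 0 δ * f ω δ - ∑ δ, oo ω δ * f ω δ| ∂(nu d p)
        ≤ ∫ _ω : Om d, 4 * d * M * |lam| ∂(nu d p) := by
          apply integral_mono (hiw.sub hio).abs (integrable_const _)
          intro ω
          exact bu_sum_sub lam hlam l hl ω (f ω) M (hf ω)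
      _ = (tha d p * (4 * d * M)) * |lam| := by
          rw [integral_const, smul_eq_mul]
          unfold tha
          ring
  rw [tendsto_iff_norm_sub_tendsto_zero]
  have h3 : Tendsto (fun lam : ℝ => (tha d p * (4 * d * M)) * |lam|) (𝓝 0) (𝓝 0) := by
    have : Tendsto (fun lam : ℝ => (tha d p * (4 * d * M)) * |lam|) (𝓝 0)
        (𝓝 ((tha d p * (4 * d * M)) * |(0 : ℝ)|)) :=
      (continuous_const.mul continuous_abs).tendsto 0
    rwa [abs_zero, mul_zero] at this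
  apply squeeze_zero' _ _ h3
  · exact Eventually.of_forall fun _ => norm_nonneg _
  · have : ∀ᶠ lam : ℝ in 𝓝 0, |lam| < 1 := by
      have h4 : Tendsto (fun x : ℝ => |x|) (𝓝 0) (𝓝 |(0 : ℝ)|) := continuous_abs.tendsto 0
      rw [abs_zero] at h4
      exact h4.eventually (gt_mem_nhds (by norm_num))
    filter_upwards [this] with lam hlam
    rw [Real.norm_eq_abs]
    exact key lam hlam.le

theorem Zw_lim (hH : HypH d p K C c) (l : Fin d → ℝ) (hl : ∑ i, l i ^ 2 = 1) :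
    Tendsto (fun lam : ℝ => ∫ ω, Zw lam l ω 0 ∂(nu d p)) (𝓝 0) (𝓝 (kap d p)) := by
  have h := bu_lim (p := p) l hl (fun _ _ => (1 : ℝ)) 1 (fun _ _ => by simp)
    (fun _ => measurable_const)
  simp only [mul_one] at h
  exact h

/-! ### Locality -/

theorem Pop_loc (lam : ℝ) (l : Fin d → ℝ) (x : V d) (ω ω' : Om d)
    (h : ∀ e ∈ (EB 1 x : Set (Ed d)), ω e = ω' e) (g : V d → ℝ) :
    Pop lam l ω g x = Pop lam l ω' g x := by
  have h1 : ∀ δ : Dir d, ω (ed x δ) = ω' (ed x δ) := fun δ => by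
    apply h
    rw [Finset.mem_coe, ed_mem_EB]
    exact ⟨self_mem_Bx 1 x, add_st_mem_Bx x δ⟩
  have hw : ∀ δ : Dir d, wt lam l ω x δ = wt lam l ω' x δ := fun δ => by
    simp only [wt, opn, h1]
  have hz : Zw lam l ω x = Zw lam l ω' x := Finset.sum_congr rfl fun δ _ => hw δ
  unfold Pop
  rw [hz]
  simp only [hw]

theorem Ln_loc (n : ℕ) (g : V d → ℝ) (x : V d) (ω ω' : Om d)
    (h : ∀ e ∈ (EB n x : Set (Ed d)), ω e = ω' e) : Ln ω n g x = Ln ω' n g x := by
  induction n generalizing x with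
  | zero => rfl
  | succ n ih =>
    rw [Ln_succ, Ln_succ]
    have h1 : Lz ω (Ln ω n g) x = Lz ω (Ln ω' n g) x := by
      apply Lz_congr
      intro y hy
      apply ih
      intro e he
      apply h
      exact EB_subset hy he
    rw [h1]
    unfold Lz
    rw [Pop_loc 0 0 x ω ω' (fun e he => h e (EB_mono (by omega) x he))]

theorem Loc_chi (l : Fin d → ℝ) (k : ℕ) : Loc (EB k (0 : V d) : Set (Ed d)) (chi l k) := by
  intro ω ω' h
  exact Ln_loc k (dot l) 0 ω ω' h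

theorem Loc_GPsi (l : Fin d → ℝ) (k : ℕ) (δ : Dir d) :
    Loc (EB (k + 1) (0 : V d) : Set (Ed d)) (fun ω => GPsi l k ω δ) := by
  intro ω ω' h
  have h1 : chi l k ω = chi l k ω' :=
    Loc_chi l k ω ω' (fun e he => h e (EB_mono (by omega) 0 he))
  have h2 : chi l k (sh (st δ) ω) = chi l k (sh (st δ) ω') := by
    apply Loc_sh k 0 (st δ) (Loc_chi l k) ω ω'
    intro e he
    apply h
    exact EB_subset (by
      have := add_st_mem_Bx (0 : V d) δ
      exact this) he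
  simp only [GPsi, gr, h1, h2]

theorem abs_GPsi_le (l : Fin d → ℝ) (hl : ∑ i, l i ^ 2 = 1) (k : ℕ) (ω : Om d) (δ : Dir d) :
    |GPsi l k ω δ| ≤ 2 * k + 1 := by
  unfold GPsi gr
  have h1 := abs_dt_le l hl δ
  have h2 := abs_chi_le l hl k ω
  have h3 := abs_chi_le l hl k (sh (st δ) ω)
  rw [abs_le] at h1 h2 h3 ⊢
  constructor <;> linarith [h1.1, h1.2, h2.1, h2.2, h3.1, h3.2]

/-! ### The test potential -/

/-- the averaged squared test gradient -/
noncomputable def gUp (lam : ℝ) (l : Fin d → ℝ) (k : ℕ) (ω : Om d) : ℝ :=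
  if Zw lam l ω 0 = 0 then 0 else (∑ δ, wt lam l ω 0 δ * GPsi l k ω δ ^ 2) / Zw lam l ω 0

theorem Loc_gUp (lam : ℝ) (l : Fin d → ℝ) (k : ℕ) :
    Loc (EB (k + 2) (0 : V d) : Set (Ed d)) (gUp lam l k) := by
  intro ω ω' h
  have h1 : ∀ δ : Dir d, ω (ed 0 δ) = ω' (ed 0 δ) := fun δ => by
    apply h
    rw [Finset.mem_coe, ed_mem_EB]
    exact ⟨self_mem_Bx _ 0, Bx_mono (by omega) 0 (add_st_mem_Bx 0 δ)⟩
  have h2 : ∀ δ : Dir d, GPsi l k ω δ = GPsi l k ω' δ := fun δ =>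
    Loc_GPsi l k δ ω ω' (fun e he => h e (EB_mono (by omega) 0 he))
  have hw : ∀ δ : Dir d, wt lam l ω 0 δ = wt lam l ω' 0 δ := fun δ => by
    simp only [wt, opn, h1]
  have hz : Zw lam l ω 0 = Zw lam l ω' 0 := Finset.sum_congr rfl fun δ _ => hw δ
  unfold gUp
  rw [hz]
  simp only [hw, h2]

theorem gUp_nonneg (lam : ℝ) (l : Fin d → ℝ) (k : ℕ) (ω : Om d) : 0 ≤ gUp lam l k ω := by
  unfold gUp
  split_ifs
  · exact le_refl _
  · exact div_nonneg (Finset.sum_nonneg fun δ _ => mul_nonneg (wt_nonneg lam l ω 0 δ)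
      (sq_nonneg _)) (Zw_nonneg lam l ω 0)

theorem gUp_le (lam : ℝ) (l : Fin d → ℝ) (hl : ∑ i, l i ^ 2 = 1) (k : ℕ) (ω : Om d) :
    gUp lam l k ω ≤ (2 * k + 1) ^ 2 := by
  unfold gUp
  split_ifs with h
  · positivity
  · have hz0 : 0 < Zw lam l ω 0 := lt_of_le_of_ne (Zw_nonneg lam l ω 0) (Ne.symm h)
    rw [div_le_iff₀ hz0]
    unfold Zw
    rw [Finset.mul_sum]
    apply Finset.sum_le_sum
    intro δ _
    rw [mul_comm]
    apply mul_le_mul_of_nonneg_right _ (wt_nonneg lam l ω 0 δ)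
    rw [← sq_abs]
    exact pow_le_pow_left₀ (abs_nonneg _) (abs_GPsi_le l hl k ω δ) 2

theorem Zw_mul_gUp (lam : ℝ) (l : Fin d → ℝ) (k : ℕ) (ω : Om d) :
    Zw lam l ω 0 * gUp lam l k ω = ∑ δ, wt lam l ω 0 δ * GPsi l k ω δ ^ 2 := by
  unfold gUp
  split_ifs with h
  · rw [h, zero_mul]
    symm
    apply Finset.sum_eq_zero
    intro δ _
    have := (Zw_eq_zero_iff lam l ω 0).1 h δ
    rw [wt, if_neg this, zero_mul]
  · field_simp

theorem bu_Theta (l : Fin d → ℝ) (k : ℕ) (ω : Om d) (x : V d) :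
    Ln ω k (dot l) x = dot l x + chi l k (sh x ω) := by
  unfold chi
  rw [Ln_sh, zero_add]
  have h : (fun y : V d => dot l (y - x)) = dot l + (fun _ => - dot l x) := by
    funext y
    have := dot_add l (y - x) x
    rw [sub_add_cancel] at this
    simp only [Pi.add_apply]
    linarith
  rw [h, Ln_add, Ln_const]
  simp only [Pi.add_apply]
  ring

theorem bu_grad (l : Fin d → ℝ) (k : ℕ) (ω : Om d) (x : V d) (δ : Dir d) :
    Ln ω k (dot l) (x + st δ) - Ln ω k (dot l) x = GPsi l k (sh x ω) δ := by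
  rw [bu_Theta, bu_Theta]
  unfold GPsi gr
  rw [sh_sh, dot_add, dot_st, add_comm (st δ) x]
  ring

theorem bu_wt_sh (lam : ℝ) (l : Fin d → ℝ) (ω : Om d) (x : V d) (δ : Dir d) :
    wt lam l (sh x ω) 0 δ = wt lam l ω x δ := by
  unfold wt
  have h := opn_sh ω x 0 δ
  rw [zero_add] at h
  simp only [h]

theorem bu_gamma (lam : ℝ) (l : Fin d → ℝ) (k : ℕ) (ω : Om d) (x : V d) :
    Pop lam l ω (fun y => (Ln ω k (dot l) y - Ln ω k (dot l) x) ^ 2) x
      = gUp lam l k (sh x ω) := by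
  have hz : Zw lam l (sh x ω) 0 = Zw lam l ω x := by
    rw [Zw_sh, zero_add]
  unfold Pop gUp
  rw [hz]
  split_ifs with h
  · ring
  · congr 1
    apply Finset.sum_congr rfl
    intro δ _
    simp only [bu_grad, bu_wt_sh]

/-- the pointwise inequality -/
theorem up_point (d : ℕ) : ∃ C : ℝ, 0 < C ∧ ∀ (lam : ℝ) (l : Fin d → ℝ) (ω : Om d) (n k : ℕ),
    0 < lam → lam ≤ 1 → ∑ i, l i ^ 2 = 1 → 1 ≤ n →
    DD lam l ω n 0 ≤ 2 * (2 * k + C * (2 * k + 1)) + C * Real.log (n + 2) / lam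
      + lam * (∑ j ∈ Finset.range n, Pn lam l ω j (fun x => gUp lam l k (sh x ω)) 0
        + C * (2 * k + 1) ^ 2) := by
  obtain ⟨C1, hC1, H1⟩ := test_potential d
  obtain ⟨C2, hC2, H2⟩ := DD_le d
  refine ⟨C1 + C2, by positivity, ?_⟩
  intro lam l ω n k h0 h1 hl hn
  have hlog : 0 ≤ Real.log ((n : ℝ) + 2) := by
    apply Real.log_nonneg
    have : (0 : ℝ) ≤ n := Nat.cast_nonneg n
    linarith
  set L := Real.log ((n : ℝ) + 2) with hL
  set S := ∑ j ∈ Finset.range n, Pn lam l ω j (fun x => gUp lam l k (sh x ω)) 0 with hS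
  have hS0 : 0 ≤ S := Finset.sum_nonneg fun j _ => Pn_nonneg lam l ω j (fun x =>
    gUp_nonneg lam l k (sh x ω)) 0
  have hk0 : (0 : ℝ) ≤ k := Nat.cast_nonneg k
  have hT := H1 lam l ω n 0 h0.le h1 hl hn (Ln ω k (dot l)) (2 * k + 1) (by positivity) (by
    intro x δ _
    rw [bu_grad]
    exact abs_GPsi_le l hl k _ δ)
  simp only [bu_gamma] at hT
  rw [← hS, ← hL] at hT
  have hX2 := (H2 lam l ω n 0 h0.le h1 hl hn).2
  rw [← hL] at hX2
  -- comparison of `Θ` and `dot l`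
  have hcomp : DD lam l ω n 0 ≤ |Pn lam l ω n (Ln ω k (dot l)) 0 - Ln ω k (dot l) 0| + 2 * k := by
    have e1 : Pn lam l ω n (dot l) 0 ≤ Pn lam l ω n (Ln ω k (dot l)) 0 + k := by
      have h3 := Pn_mono lam l ω n (g := dot l) (h := Ln ω k (dot l) + fun _ => (k : ℝ))
        (fun x => by
          simp only [Pi.add_apply]
          rw [bu_Theta]
          have := (abs_le.mp (abs_chi_le l hl k (sh x ω))).1
          linarith) 0
      rw [Pn_add, Pn_const] at h3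
      exact h3
    have e2 : Ln ω k (dot l) 0 ≤ dot l 0 + k := by
      rw [bu_Theta]
      have := (abs_le.mp (abs_chi_le l hl k (sh 0 ω))).2
      linarith
    have e3 := le_abs_self (Pn lam l ω n (Ln ω k (dot l)) 0 - Ln ω k (dot l) 0)
    unfold DD
    linarith
  set X := lam * DD lam l ω n 0 + (C1 + C2) * L with hX
  set Y := S + (C1 + C2) * (2 * k + 1) ^ 2 with hY
  have hX0 : 0 ≤ X := by
    have : 0 ≤ C1 * L := by positivity
    rw [hX]
    linarith
  have hY0 : 0 ≤ Y := by rw [hY]; positivity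
  have hsq : Real.sqrt ((lam * DD lam l ω n 0 + C1 * L) * (S + C1 * (2 * k + 1) ^ 2))
      ≤ (X / lam + lam * Y) / 2 := by
    have hb : 0 ≤ (X / lam + lam * Y) / 2 := by positivity
    have hle : (lam * DD lam l ω n 0 + C1 * L) * (S + C1 * (2 * k + 1) ^ 2) ≤ X * Y := by
      apply mul_le_mul
      · have : 0 ≤ C2 * L := by positivity
        rw [hX]
        linarith
      · have : (0 : ℝ) ≤ C2 * (2 * k + 1) ^ 2 := by positivity
        rw [hY]
        linarith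
      · positivity
      · exact hX0
    rw [Real.sqrt_le_left hb]
    refine hle.trans ?_
    have e : X * Y = (X / lam) * (lam * Y) := by field_simp
    rw [e]
    nlinarith [sq_nonneg (X / lam - lam * Y)]
  have hXl : X / lam = DD lam l ω n 0 + (C1 + C2) * L / lam := by
    rw [hX]
    field_simp
  rw [hXl] at hsq
  have hC2k : (0 : ℝ) ≤ C2 * (2 * k + 1) := by positivity
  have hT2 : |Pn lam l ω n (Ln ω k (dot l)) 0 - Ln ω k (dot l) 0| ≤ C1 * (2 * k + 1) +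
      (DD lam l ω n 0 + (C1 + C2) * L / lam + lam * Y) / 2 := by linarith
  have hfin : DD lam l ω n 0 ≤ 2 * (2 * k + C1 * (2 * k + 1)) + (C1 + C2) * L / lam + lam * Y := by
    linarith
  have e5 : (2 : ℝ) * (2 * k + (C1 + C2) * (2 * k + 1)) =
      2 * (2 * k + C1 * (2 * k + 1)) + 2 * (C2 * (2 * k + 1)) := by ring
  rw [e5]
  linarith

/-! ### The limit -/

theorem bu_limit (l : Fin d → ℝ) (hl : ∑ i, l i ^ 2 = 1) (k : ℕ) (lam : ℝ) (h0 : 0 < lam)
    (h1 : lam ≤ 1) (v : ℝ) (hv : IsSpeed d p lam l v) (B : ℝ)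
    (hB : ∃ n0 : ℕ, ∀ n : ℕ, n0 ≤ n → Ann p lam l n (gUp lam l k) ≤ B) :
    tha d p * v ≤ lam * B := by
  have := BSpeed_fin (d := d) (p := p)
  obtain ⟨C, hC, hpt⟩ := up_point d
  obtain ⟨n0, hn0⟩ := hB
  have hlim := speed_lim lam l hl v hv
  set c1 : ℝ := 2 * (2 * k + C * (2 * k + 1)) + lam * (C * (2 * k + 1) ^ 2) with hc1
  have hlim2 : Tendsto (fun n : ℕ => tha d p * c1 * (1 / (n : ℝ)) +
      tha d p * C / lam * (Real.log ((n : ℝ) + 2) / n) + lam * B) atTop (𝓝 (lam * B)) := by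
    have a1 : Tendsto (fun n : ℕ => tha d p * c1 * (1 / (n : ℝ))) atTop (𝓝 0) := by
      have := tendsto_one_div_atTop_nhds_zero_nat.const_mul (tha d p * c1)
      rwa [mul_zero] at this
    have a2 : Tendsto (fun n : ℕ => tha d p * C / lam * (Real.log ((n : ℝ) + 2) / n)) atTop
        (𝓝 0) := by
      have := BSpeed_log_div.const_mul (tha d p * C / lam)
      rwa [mul_zero] at this
    have := (a1.add a2).add_const (lam * B)
    rwa [zero_add, zero_add] at this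
  apply le_of_tendsto_of_tendsto hlim hlim2
  filter_upwards [eventually_ge_atTop (max n0 1)] with n hn
  have hn0' : n0 ≤ n := (le_max_left _ _).trans hn
  have hn1 : 1 ≤ n := (le_max_right _ _).trans hn
  have hnp : (0 : ℝ) < n := by exact_mod_cast hn1
  have hi1 : Integrable (fun ω : Om d => DD lam l ω n 0) (nu d p) :=
    BSpeed_int (measurable_DD lam l n 0) n (fun ω => abs_DD_le lam l hl ω n 0)
  set S : Om d → ℝ := fun ω =>
    ∑ j ∈ Finset.range n, Pn lam l ω j (fun x => gUp lam l k (sh x ω)) 0 with hS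
  have hmg : Measurable (gUp lam l k : Om d → ℝ) := Loc.measurable _ (Loc_gUp lam l k)
  have hmS : Measurable S := by
    refine Finset.measurable_sum _ fun j _ => ?_
    exact measurable_Pn lam l j (fun ω x => gUp lam l k (sh x ω))
      (fun y => hmg.comp (measurable_sh y)) 0
  have hSb : ∀ ω, |S ω| ≤ n * (2 * k + 1) ^ 2 := by
    intro ω
    rw [abs_of_nonneg (Finset.sum_nonneg fun j _ => Pn_nonneg lam l ω j (fun x =>
      gUp_nonneg lam l k (sh x ω)) 0)]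
    calc S ω ≤ ∑ _j ∈ Finset.range n, ((2 : ℝ) * k + 1) ^ 2 := by
          apply Finset.sum_le_sum
          intro j _
          have h3 := Pn_mono lam l ω j (g := fun x => gUp lam l k (sh x ω))
            (h := fun _ => ((2 : ℝ) * k + 1) ^ 2) (fun x => gUp_le lam l hl k _) 0
          rw [Pn_const] at h3
          exact h3
      _ = n * (2 * k + 1) ^ 2 := by
          rw [Finset.sum_const, Finset.card_range, nsmul_eq_mul]
  have hiS : Integrable S (nu d p) := BSpeed_int hmS _ hSb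
  have h4 : ∫ ω, DD lam l ω n 0 ∂(nu d p) ≤
      ∫ ω, (c1 + C * Real.log (n + 2) / lam + lam * S ω) ∂(nu d p) := by
    apply integral_mono hi1 ((integrable_const _).add (hiS.const_mul _))
    intro ω
    refine (hpt lam l ω n k h0 h1 hl hn1).trans (le_of_eq ?_)
    simp only [Pi.add_apply, hc1, hS]
    ring
  have h5 : ∫ ω, (c1 + C * Real.log (n + 2) / lam + lam * S ω) ∂(nu d p) =
      tha d p * (c1 + C * Real.log (n + 2) / lam) + lam * ∫ ω, S ω ∂(nu d p) := by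
    rw [integral_add (integrable_const _) (hiS.const_mul _), integral_const, integral_const_mul,
      smul_eq_mul]
    rfl
  have hA : (1 / (n : ℝ)) * ∫ ω, S ω ∂(nu d p) ≤ B := hn0 n hn0'
  calc (1 / (n : ℝ)) * ∫ ω, DD lam l ω n 0 ∂(nu d p)
      ≤ (1 / (n : ℝ)) * (tha d p * (c1 + C * Real.log (n + 2) / lam)
        + lam * ∫ ω, S ω ∂(nu d p)) := by
        apply mul_le_mul_of_nonneg_left _ (by positivity)
        rw [← h5]
        exact h4
    _ = tha d p * c1 * (1 / (n : ℝ)) +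
      tha d p * C / lam * (Real.log ((n : ℝ) + 2) / n)
        + lam * ((1 / (n : ℝ)) * ∫ ω, S ω ∂(nu d p)) := by ring
    _ ≤ _ := by
        have := mul_le_mul_of_nonneg_left hA h0.le
        linarith

theorem upper (hd : 1 ≤ d) (hH : HypH d p K C c) (l : Fin d → ℝ) (hl : ∑ i, l i ^ 2 = 1)
    (k : ℕ) (ε : ℝ) (hε : 0 < ε) :
    ∃ lam1 : ℝ, 0 < lam1 ∧ ∀ lam : ℝ, 0 < lam → lam ≤ lam1 → ∀ v : ℝ, IsSpeed d p lam l v →
      v / lam ≤ ip p (GPsi l k) (GPsi l k) / kap d p + ε := by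
  have ht : 0 < tha d p := theta_pos hH
  have hk : 0 < kap d p := kap_pos hH
  obtain ⟨lamE, hE0, hE1, hE⟩ := equidistribution hd hH l hl (tha d p * (ε / 2)) (by positivity)
  -- convergence of `m_lam`
  have hnum : Tendsto (fun lam : ℝ => ∫ ω, Zw lam l ω 0 * gUp lam l k ω ∂(nu d p)) (𝓝 0)
      (𝓝 (ip p (GPsi l k) (GPsi l k))) := by
    have h := bu_lim (p := p) l hl (fun ω δ => GPsi l k ω δ ^ 2) ((2 * k + 1) ^ 2)
      (fun ω δ => by
        rw [abs_of_nonneg (sq_nonneg _), ← sq_abs]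
        exact pow_le_pow_left₀ (abs_nonneg _) (abs_GPsi_le l hl k ω δ) 2)
      (fun δ => (Loc.measurable _ (Loc_GPsi l k δ)).pow_const 2)
    have e1 : (fun lam : ℝ => ∫ ω, Zw lam l ω 0 * gUp lam l k ω ∂(nu d p)) =
        fun lam => ∫ ω, ∑ δ, wt lam l ω 0 δ * GPsi l k ω δ ^ 2 ∂(nu d p) := by
      funext lam
      simp only [Zw_mul_gUp]
    have e2 : ip p (GPsi l k) (GPsi l k) = ∫ ω, ∑ δ, oo ω δ * GPsi l k ω δ ^ 2 ∂(nu d p) := by
      unfold ip
      simp only [sq]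
    rw [e1, e2]
    exact h
  have hm := hnum.div (Zw_lim hH l hl) hk.ne'
  have hev : ∀ᶠ lam : ℝ in 𝓝 0, (∫ ω, Zw lam l ω 0 * gUp lam l k ω ∂(nu d p)) /
      (∫ ω, Zw lam l ω 0 ∂(nu d p)) < ip p (GPsi l k) (GPsi l k) / kap d p + ε / 2 :=
    hm.eventually (gt_mem_nhds (by linarith))
  -- smallness for the locality parameters
  have ha : 0 < aexp d := by
    unfold aexp
    positivity
  have hpow : Tendsto (fun lam : ℝ => lam ^ (-aexp d)) (𝓝[>] 0) atTop :=
    tendsto_rpow_neg_nhdsGT_zero (by linarith)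
  have hev2 : ∀ᶠ lam : ℝ in 𝓝[>] 0, ((k + 2 : ℕ) : ℝ) ≤ lam ^ (-aexp d) :=
    hpow.eventually (eventually_ge_atTop _)
  have hev3 : ∀ᶠ lam : ℝ in 𝓝[>] 0, ((2 : ℝ) * k + 1) ^ 2 ≤ lam ^ (-aexp d) :=
    hpow.eventually (eventually_ge_atTop _)
  have hev4 : ∀ᶠ lam : ℝ in 𝓝[>] 0, lam ≤ lamE :=
    nhdsWithin_le_nhds (eventually_le_nhds hE0)
  have hev1 : ∀ᶠ lam : ℝ in 𝓝[>] 0, (∫ ω, Zw lam l ω 0 * gUp lam l k ω ∂(nu d p)) /
      (∫ ω, Zw lam l ω 0 ∂(nu d p)) < ip p (GPsi l k) (GPsi l k) / kap d p + ε / 2 :=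
    nhdsWithin_le_nhds hev
  have hall := hev1.and (hev2.and (hev3.and hev4))
  obtain ⟨lam1, hlam1, hsub⟩ := mem_nhdsGT_iff_exists_Ioc_subset.1 hall
  refine ⟨lam1, hlam1, ?_⟩
  intro lam h0 hle v hv
  obtain ⟨b1, b2, b3, b4⟩ := hsub ⟨h0, hle⟩
  have h1 : lam ≤ 1 := b4.trans hE1
  set m : ℝ := (∫ ω, Zw lam l ω 0 * gUp lam l k ω ∂(nu d p)) /
      (∫ ω, Zw lam l ω 0 ∂(nu d p)) with hmdef
  have hB : ∃ n0 : ℕ, ∀ n : ℕ, n0 ≤ n →
      Ann p lam l n (gUp lam l k) ≤ tha d p * m + tha d p * (ε / 2) := by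
    obtain ⟨n0, hn0⟩ := hE lam h0 b4
    refine ⟨n0, fun n hn => ?_⟩
    have h2 := hn0 n hn (k + 2) ((2 * k + 1) ^ 2) (gUp lam l k) b2
      (by
        have : (0 : ℝ) ≤ k := Nat.cast_nonneg k
        nlinarith) b3 (Loc_gUp lam l k) (fun ω => by
        rw [abs_of_nonneg (gUp_nonneg lam l k ω)]
        exact gUp_le lam l hl k ω)
    have h3 := (abs_le.mp h2).2
    linarith
  have h2 := bu_limit l hl k lam h0 h1 v hv _ hB
  have h3 : v ≤ lam * (m + ε / 2) := by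
    have : tha d p * v ≤ tha d p * (lam * (m + ε / 2)) := by
      calc tha d p * v ≤ lam * (tha d p * m + tha d p * (ε / 2)) := h2
        _ = _ := by ring
    exact le_of_mul_le_mul_left this ht
  rw [div_le_iff₀ h0]
  calc v ≤ lam * (m + ε / 2) := h3
    _ ≤ lam * (ip p (GPsi l k) (GPsi l k) / kap d p + ε / 2 + ε / 2) := by
        apply mul_le_mul_of_nonneg_left _ h0.le
        linarith
    _ = _ := by ring

end Ein99
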