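import Pool.Agent.LibEin99.A_PnRange

/-!
TASK C_Loc. Local functions: measurability, independence on disjoint sets of edges.

`Loc S g`: `g` depends only on the edges in `S`.
`Loc.measurable`: for finite `S`, `g = g' ∘ (restriction to S)` where `g'` is defined on the finite
type `S → Bool` (all functions on it are measurable); take `g' a = g (extension of a by false)`.
`Loc.integral_mul`: independence of the restrictions to disjoint finite sets of edges under the
product measure: `ProbabilityTheory.iIndepFun_infinitePi`-type lemma and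
`iIndepFun.indepFun_finset`, then `IndepFun.comp` and `IndepFun.integral_mul_eq_mul_integral`
(a local function takes finitely many values, hence is bounded and integrable).
-/

open MeasureTheory ProbabilityTheory Filter Topology

namespace Ein99

variable {d : ℕ}

theorem Loc.mono {α : Type*} {S T : Set (Ed d)} (h : S ⊆ T) {g : Om d → α} (hg : Loc S g) :
    Loc T g := fun ω ω' H => hg ω ω' (fun e he => H e (h he))

theorem Loc.comp2 {α β γ : Type*} {S : Set (Ed d)} {g : Om d → α} {h : Om d → β} (F : α → β → γ)
    (hg : Loc S g) (hh : Loc S h) : Loc S (fun ω => F (g ω) (h ω)) := by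
  intro ω ω' H
  show F (g ω) (h ω) = F (g ω') (h ω')
  rw [hg ω ω' H, hh ω ω' H]

/-- extension by `false` -/
noncomputable def extF (S : Finset (Ed d)) (a : S → Bool) : Om d := by
  classical
  exact fun e => if h : e ∈ S then a ⟨e, h⟩ else false

theorem Loc.factor {α : Type*} (S : Finset (Ed d)) {g : Om d → α}
    (hg : Loc (S : Set (Ed d)) g) (ω : Om d) : g ω = g (extF S (fun e : S => ω e)) := by
  apply hg
  intro e he
  have he' : e ∈ S := he
  simp [extF, he']

theorem Loc.measurable {α : Type*} [MeasurableSpace α] (S : Finset (Ed d)) {g : Om d → α}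
    (hg : Loc (S : Set (Ed d)) g) : Measurable g := by
  have h1 : Measurable (fun a : S → Bool => g (extF S a)) := measurable_of_finite _
  have h2 : Measurable (fun ω : Om d => fun e : S => ω e) :=
    measurable_pi_lambda _ (fun e => measurable_pi_apply _)
  have h3 : g = (fun a : S → Bool => g (extF S a)) ∘ (fun ω : Om d => fun e : S => ω e) := by
    funext ω
    exact Loc.factor S hg ω
  rw [h3]
  exact h1.comp h2

theorem Loc.measurableSet (S : Finset (Ed d)) {B : Set (Om d)}
    (hB : Loc (S : Set (Ed d)) (fun ω => ω ∈ B)) : MeasurableSet B := by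
  have h := Loc.measurable (α := Prop) S hB
  exact measurableSet_setOfPred.2 h

/-- A local real function is bounded. -/
theorem Loc.bounded (S : Finset (Ed d)) {g : Om d → ℝ} (hg : Loc (S : Set (Ed d)) g) :
    ∃ C, ∀ ω, |g ω| ≤ C := by
  classical
  refine ⟨∑ a : S → Bool, |g (extF S a)|, fun ω => ?_⟩
  rw [Loc.factor S hg ω]
  exact Finset.single_le_sum (f := fun a : S → Bool => |g (extF S a)|)
    (fun a _ => abs_nonneg _) (Finset.mem_univ _)

theorem Loc.integrable (p : unitInterval) (S : Finset (Ed d)) {g : Om d → ℝ}
    (hg : Loc (S : Set (Ed d)) g) : Integrable g (Pr d p) := by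
  obtain ⟨C, hC⟩ := Loc.bounded S hg
  exact Integrable.of_bound (Loc.measurable S hg).aestronglyMeasurable C
    (Filter.Eventually.of_forall fun ω => by rw [Real.norm_eq_abs]; exact hC ω)

theorem Loc.indepFun {α β : Type*} [MeasurableSpace α] [MeasurableSpace β] (p : unitInterval)
    (S T : Finset (Ed d)) (hST : Disjoint S T)
    {g : Om d → α} {h : Om d → β} (hg : Loc (S : Set (Ed d)) g) (hh : Loc (T : Set (Ed d)) h) :
    IndepFun g h (Pr d p) := by
  have h1 : iIndepFun (fun (e : Ed d) (ω : Om d) => ω e) (Pr d p) :=
    iIndepFun_infinitePi (P := fun _ : Ed d => bernoulliMeasure true false p)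
      (X := fun _ b => b) (fun _ => measurable_id)
  have h2 := h1.indepFun_finset S T hST (fun e => measurable_pi_apply _)
  have m1 : Measurable (fun a : S → Bool => g (extF S a)) := measurable_of_finite _
  have m2 : Measurable (fun a : T → Bool => h (extF T a)) := measurable_of_finite _
  have h3 := h2.comp m1 m2
  have e1 : g = (fun a : S → Bool => g (extF S a)) ∘ (fun ω : Om d => fun e : S => ω e) := by
    funext ω
    exact Loc.factor S hg ω
  have e2 : h = (fun a : T → Bool => h (extF T a)) ∘ (fun ω : Om d => fun e : T => ω e) := by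
    funext ω
    exact Loc.factor T hh ω
  rw [e1, e2]
  exact h3

theorem Loc.integral_mul (p : unitInterval) (S T : Finset (Ed d)) (hST : Disjoint S T)
    {g h : Om d → ℝ} (hg : Loc (S : Set (Ed d)) g) (hh : Loc (T : Set (Ed d)) h) :
    ∫ ω, g ω * h ω ∂(Pr d p) = (∫ ω, g ω ∂(Pr d p)) * ∫ ω, h ω ∂(Pr d p) := by
  exact (Loc.indepFun p S T hST hg hh).integral_fun_mul_eq_mul_integral
    (Loc.measurable S hg).aestronglyMeasurable (Loc.measurable T hh).aestronglyMeasurable

/-- Mutual independence of local functions over pairwise disjoint finite sets of edges. -/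
theorem Loc.iIndepFun (p : unitInterval) {ι : Type*} [Fintype ι] (S : ι → Finset (Ed d))
    (hS : Pairwise (fun i j => Disjoint (S i) (S j))) (g : ι → Om d → ℝ)
    (hg : ∀ i, Loc (S i : Set (Ed d)) (g i)) : ProbabilityTheory.iIndepFun g (Pr d p) := by
  classical
  rw [iIndepFun_iff_measure_inter_preimage_eq_mul]
  intro s A hA
  have key : ∀ u : Finset ι, u ⊆ s → (Pr d p) (⋂ i ∈ u, g i ⁻¹' A i) = ∏ i ∈ u, (Pr d p) (g i ⁻¹' A i) ∧
      Loc ((u.biUnion S : Finset (Ed d)) : Set (Ed d)) (fun ω : Om d => ω ∈ ⋂ i ∈ u, g i ⁻¹' A i) := by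
    intro u
    induction u using Finset.induction_on with
    | empty =>
      intro _
      refine ⟨by simp, ?_⟩
      intro ω ω' _
      simp
    | insert a u ha ih =>
      intro hu
      obtain ⟨ih1, ih2⟩ := ih ((Finset.subset_insert a u).trans hu)
      have hloc : Loc ((S a : Finset (Ed d)) : Set (Ed d)) (fun ω : Om d => ω ∈ g a ⁻¹' A a) := by
        intro ω ω' H
        have := hg a ω ω' H
        simp only [Set.mem_preimage, this]
      have hd : Disjoint (S a) (u.biUnion S) := by
        rw [Finset.disjoint_biUnion_right]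
        intro i hi
        exact hS (fun h => ha (h ▸ hi))
      refine ⟨?_, ?_⟩
      · rw [Finset.set_biInter_insert, Finset.prod_insert ha, ← ih1]
        have hind := Loc.indepFun (α := Prop) (β := Prop) p _ _ hd hloc ih2
        have := hind.measure_inter_preimage_eq_mul {True} {True} (MeasurableSet.of_discrete)
          (MeasurableSet.of_discrete)
        have e1 : (fun ω : Om d => ω ∈ g a ⁻¹' A a) ⁻¹' {True} = g a ⁻¹' A a := by
          ext ω; simp
        have e2 : (fun ω : Om d => ω ∈ ⋂ i ∈ u, g i ⁻¹' A i) ⁻¹' {True} = ⋂ i ∈ u, g i ⁻¹' A i := by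
          ext ω; simp
        rw [e1, e2] at this
        exact this
      · intro ω ω' H
        have h1 := hloc ω ω' (fun e he => H e (by
          simp only [Finset.coe_biUnion, Set.mem_iUnion]
          exact ⟨a, by simp, he⟩))
        have h2 := ih2 ω ω' (fun e he => H e (by
          simp only [Finset.coe_biUnion, Set.mem_iUnion] at he ⊢
          obtain ⟨i, hi, hi2⟩ := he
          exact ⟨i, by simp at hi; simp [hi], hi2⟩))
        rw [Finset.set_biInter_insert]
        exact congrArg₂ And h1 h2
  exact (key s (Finset.Subset.refl s)).1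

end Ein99
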