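import Pool.Agent.LibEin99.A_PnRange

/-!
TASK C_Shift. Covariance of everything under translations, and invariance of the percolation
measure.

`sh z ω e = ω (e.1 + z, e.2)`. `map_sh`: `sh z` is the reindexing of the product by the bijection
`e ↦ (e.1 + z, e.2)`; use `Measure.infinitePi_map_piCongrLeft` or `Measure.eq_infinitePi` directly
(all factors are equal).
The others: unfold and transport along `x ↦ x + z`.
-/

open MeasureTheory ProbabilityTheory Filter Topology

namespace Ein99

variable {d : ℕ}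

theorem measurable_sh (z : V d) : Measurable (sh z : Om d → Om d) := by
  refine measurable_pi_iff.mpr fun e => ?_
  exact measurable_pi_apply (e.1 + z, e.2)

private theorem C_Shift_inj (z : V d) : Function.Injective (fun e : Ed d => (e.1 + z, e.2)) := by
  intro a b h
  simp only [Prod.mk.injEq, add_left_inj] at h
  exact Prod.ext h.1 h.2

theorem map_sh (p : unitInterval) (z : V d) : (Pr d p).map (sh z) = Pr d p := by
  classical
  refine Measure.eq_infinitePi (μ := fun _ : Ed d => bernoulliMeasure true false p) ?_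
  intro s t ht
  have hset : MeasurableSet (Set.pi (s : Set (Ed d)) t) :=
    MeasurableSet.pi s.countable_toSet fun e he => ht e
  rw [Measure.map_apply (measurable_sh z) hset]
  set τ : Ed d ↪ Ed d := ⟨fun e => (e.1 + z, e.2), C_Shift_inj z⟩ with hτ
  have hpre : sh z ⁻¹' (Set.pi (s : Set (Ed d)) t) =
      Set.pi ((s.map τ : Finset (Ed d)) : Set (Ed d)) (fun e => t (e.1 - z, e.2)) := by
    ext ω
    simp only [Set.mem_preimage, Set.mem_pi, Finset.mem_coe, Finset.mem_map]
    constructor
    · rintro h e ⟨a, ha, rfl⟩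
      have h1 := h a ha
      have e1 : ((τ a).1 - z, (τ a).2) = a := by
        rw [hτ]
        ext <;> simp
      rw [e1]
      exact h1
    · intro h a ha
      have h1 := h (τ a) ⟨a, ha, rfl⟩
      have e1 : ((τ a).1 - z, (τ a).2) = a := by
        rw [hτ]
        ext <;> simp
      rw [e1] at h1
      exact h1
  rw [hpre, Pr, Measure.infinitePi_pi _ (fun e _ => ht _), Finset.prod_map]
  refine Finset.prod_congr rfl fun a _ => ?_
  have e1 : ((τ a).1 - z, (τ a).2) = a := by
    rw [hτ]
    ext <;> simp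
  rw [e1]

theorem mp_sh (p : unitInterval) (z : V d) : MeasurePreserving (sh z) (Pr d p) (Pr d p) :=
  ⟨measurable_sh z, map_sh p z⟩

theorem sh_zero (ω : Om d) : sh 0 ω = ω := by
  funext e
  rw [sh, add_zero]

theorem sh_sh (y z : V d) (ω : Om d) : sh y (sh z ω) = sh (y + z) ω := by
  funext e
  rw [sh, sh, sh, add_assoc]

private theorem C_Shift_ed (z x : V d) (δ : Dir d) :
    ((ed x δ).1 + z, (ed x δ).2) = ed (x + z) δ := by
  rw [ed, ed]
  split_ifs
  · rfl
  · rw [add_right_comm]

theorem opn_sh (ω : Om d) (z x : V d) (δ : Dir d) : opn (sh z ω) x δ ↔ opn ω (x + z) δ := by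
  rw [opn, opn, sh, C_Shift_ed]

private theorem C_Shift_Adj (ω : Om d) (z x y : V d) :
    Adj (sh z ω) x y ↔ Adj ω (x + z) (y + z) := by
  rw [Adj, Adj]
  refine exists_congr fun δ => ?_
  rw [opn_sh, add_right_comm x z (st δ), add_left_inj]

private theorem C_Shift_rtg {r s : V d → V d → Prop} {z : V d}
    (h : ∀ a b, r a b ↔ s (a + z) (b + z)) (x y : V d) :
    Relation.ReflTransGen r x y ↔ Relation.ReflTransGen s (x + z) (y + z) := by
  constructor
  · intro hr
    exact hr.lift (fun a => a + z) fun a b hab => (h a b).mp hab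
  · intro hs
    have h1 := hs.lift (p := r) (fun a => a - z) fun a b hab => (h (a - z) (b - z)).mpr (by
      rw [sub_add_cancel, sub_add_cancel]; exact hab)
    have h2 : Relation.ReflTransGen r (x + z - z) (y + z - z) := h1
    rwa [add_sub_cancel_right, add_sub_cancel_right] at h2

theorem Conn_sh (ω : Om d) (z x y : V d) : Conn (sh z ω) x y ↔ Conn ω (x + z) (y + z) :=
  C_Shift_rtg (C_Shift_Adj ω z) x y

theorem InfC_sh (ω : Om d) (z x : V d) : InfC (sh z ω) x ↔ InfC ω (x + z) := by
  rw [InfC, InfC]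
  have h : {y : V d | Conn ω (x + z) y} = (fun a => a + z) '' {y : V d | Conn (sh z ω) x y} := by
    ext y
    simp only [Set.mem_ofPred_eq, Set.mem_image]
    constructor
    · intro hy
      refine ⟨y - z, ?_, sub_add_cancel y z⟩
      rw [Conn_sh, sub_add_cancel]
      exact hy
    · rintro ⟨a, ha, rfl⟩
      exact (Conn_sh ω z x a).mp ha
  rw [h, Set.infinite_image_iff (fun a _ b _ hab => add_right_cancel hab)]

private theorem C_Shift_Bx (r : ℕ) (c z x : V d) : x ∈ Bx r c ↔ x + z ∈ Bx r (c + z) := by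
  rw [Bx, Bx, Finset.mem_Icc, Finset.mem_Icc]
  constructor
  · rintro ⟨h1, h2⟩
    refine ⟨fun i => ?_, fun i => ?_⟩
    · have := h1 i
      simp only [Pi.add_apply] at this ⊢
      linarith
    · have := h2 i
      simp only [Pi.add_apply] at this ⊢
      linarith
  · rintro ⟨h1, h2⟩
    refine ⟨fun i => ?_, fun i => ?_⟩
    · have := h1 i
      simp only [Pi.add_apply] at this ⊢
      linarith
    · have := h2 i
      simp only [Pi.add_apply] at this ⊢
      linarith

theorem JoinIn_sh (ω : Om d) (r : ℕ) (c z x y : V d) :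
    JoinIn (sh z ω) (Bx r c : Set (V d)) x y
      ↔ JoinIn ω (Bx r (c + z) : Set (V d)) (x + z) (y + z) := by
  refine C_Shift_rtg (fun a b => ?_) x y
  rw [Finset.mem_coe, Finset.mem_coe, Finset.mem_coe, Finset.mem_coe, C_Shift_Adj,
    C_Shift_Bx r c z a, C_Shift_Bx r c z b]

private theorem C_Shift_OnBd (r : ℕ) (c z y : V d) : OnBd r c y ↔ OnBd r (c + z) (y + z) := by
  rw [OnBd, OnBd, C_Shift_Bx r c z y]
  refine and_congr_right fun _ => exists_congr fun i => ?_
  rw [Pi.add_apply, Pi.add_apply, add_sub_add_right_eq_sub]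

private theorem C_Shift_ex {P Q : V d → Prop} {z : V d} (h : ∀ a, P a ↔ Q (a + z)) :
    (∃ a, P a) ↔ ∃ b, Q b := by
  constructor
  · rintro ⟨a, ha⟩
    exact ⟨a + z, (h a).mp ha⟩
  · rintro ⟨b, hb⟩
    exact ⟨b - z, (h _).mpr (by rw [sub_add_cancel]; exact hb)⟩

private theorem C_Shift_all {P Q : V d → Prop} {z : V d} (h : ∀ a, P a ↔ Q (a + z)) :
    (∀ a, P a) ↔ ∀ b, Q b := by
  constructor
  · intro H b
    have := (h (b - z)).mp (H _)
    rwa [sub_add_cancel] at this
  · intro H a
    exact (h a).mpr (H _)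

theorem ToBd_sh (ω : Om d) (r : ℕ) (c z x : V d) :
    ToBd (sh z ω) r c x ↔ ToBd ω r (c + z) (x + z) := by
  rw [ToBd, ToBd]
  refine C_Shift_ex (z := z) fun y => ?_
  rw [C_Shift_OnBd r c z y, JoinIn_sh]

theorem LG_sh (K : ℕ) (ω : Om d) (m : ℕ) (c z : V d) : LG K (sh z ω) m c ↔ LG K ω m (c + z) := by
  rw [LG, LG]
  refine and_congr ?_ ?_
  · refine C_Shift_ex (z := z) fun x => ?_
    rw [C_Shift_Bx m c z x, ToBd_sh]
  · refine C_Shift_all (z := z) fun x => ?_
    rw [C_Shift_Bx m c z x]
    refine imp_congr_right fun _ => ?_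
    refine C_Shift_all (z := z) fun y => ?_
    rw [C_Shift_Bx m c z y, ToBd_sh, ToBd_sh, JoinIn_sh]

private theorem C_Shift_wt (lam : ℝ) (l : Fin d → ℝ) (ω : Om d) (z x : V d) (δ : Dir d) :
    wt lam l (sh z ω) x δ = wt lam l ω (x + z) δ := by
  rw [wt, wt]
  by_cases h : opn ω (x + z) δ
  · rw [if_pos h, if_pos ((opn_sh ω z x δ).mpr h)]
  · rw [if_neg h, if_neg (fun h' => h ((opn_sh ω z x δ).mp h'))]

theorem Zw_sh (lam : ℝ) (l : Fin d → ℝ) (ω : Om d) (z x : V d) :
    Zw lam l (sh z ω) x = Zw lam l ω (x + z) := by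
  rw [Zw, Zw]
  exact Finset.sum_congr rfl fun δ _ => C_Shift_wt lam l ω z x δ

private theorem C_Shift_Pop (lam : ℝ) (l : Fin d → ℝ) (ω : Om d) (z : V d) (g : V d → ℝ)
    (x : V d) : Pop lam l (sh z ω) g x = Pop lam l ω (fun y => g (y - z)) (x + z) := by
  rw [Pop, Pop, Zw_sh, add_sub_cancel_right]
  have h : ∑ δ, wt lam l (sh z ω) x δ * g (x + st δ) =
      ∑ δ, wt lam l ω (x + z) δ * g (x + z + st δ - z) := by
    refine Finset.sum_congr rfl fun δ _ => ?_
    rw [C_Shift_wt]
    congr 2
    abel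
  rw [h]

theorem Pn_sh (lam : ℝ) (l : Fin d → ℝ) (ω : Om d) (z : V d) (n : ℕ) (g : V d → ℝ) (x : V d) :
    Pn lam l (sh z ω) n g x = Pn lam l ω n (fun y => g (y - z)) (x + z) := by
  have hsemi : Function.Semiconj (fun (g : V d → ℝ) (y : V d) => g (y - z))
      (Pop lam l (sh z ω)) (Pop lam l ω) := by
    intro g
    funext y
    show Pop lam l (sh z ω) g (y - z) = Pop lam l ω (fun y => g (y - z)) y
    rw [C_Shift_Pop, sub_add_cancel]
  have h := congrFun ((hsemi.iterate_right n) g) (x + z)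
  simp only [add_sub_cancel_right] at h
  exact h

end Ein99
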