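import Pool.Agent.LibEin99.D_Conc
import Pool.Agent.LibEin99.C_Tail
import Pool.Agent.LibEin99.Defs2

/-!
TASK D_Box. Good boxes and their probability.

`BoxGood` consists of local uniqueness (G1), a lower bound on the number of vertices joined to
distance `ρ` (G2), a law of large numbers for `w` on these vertices (G3), and (G4) every such vertex
is joined to the boundary of the big box.
* not G1 ⊆ `¬ LG K ω N z`: probability `≤ C e^{-cN}`.
* G2: `conc` for `f = 1{ToBd ω ρ 0 0}` (local on `EB ρ 0`), mean `≥ P(InfC 0) = tha`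
  (`toBd_of_InfC`), deviation `tha/2`.
* G3: `conc` for `f = 1{ToBd ω ρ 0 0} w` (local on `EB (max s ρ) 0`), mean at most
  `L P(ToBd ∧ ¬InfC) ≤ L C' e^{-c'ρ} ≤ η/2` in absolute value because `∫ w d(nu) = 0`; deviation `η/2`.
* G4: if `ToBd ω ρ x x` and `InfC ω x` then `ToBd ω (K N) z x` (`toBd_of_InfC`, `x ∈ Bx (KN) z`); union
  bound with `tail_Lc`.
All four are at most `A (N+1)^{2d} (e^{-aρ} + e^{-aN} + exp(-a η² N^d/(L² (s+ρ+1)^d)))` as `L ≥ 1`,
`η ≤ 1`.
-/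

open MeasureTheory ProbabilityTheory Filter Topology

namespace Ein99

variable {d : ℕ} {p : unitInterval} {K : ℕ} {C c : ℝ}

open Classical in
/-- good boxes -/
structure BoxGood (K N ρ : ℕ) (θ η : ℝ) (w : Om d → ℝ) (ω : Om d) (z : V d) : Prop where
  g1 : ∀ x ∈ Bx N z, ∀ y ∈ Bx N z, ToBd ω (K * N) z x → ToBd ω (K * N) z y →
    JoinIn ω (Bx (K * N) z : Set (V d)) x y
  g2 : θ / 2 * (2 * N + 1) ^ d ≤ (((Bx N z).filter (fun x => ToBd ω ρ x x)).card : ℝ)
  g3 : |∑ x ∈ (Bx N z).filter (fun x => ToBd ω ρ x x), w (sh x ω)| ≤ η * (2 * N + 1) ^ d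
  g4 : ∀ x ∈ Bx N z, ToBd ω ρ x x → ToBd ω (K * N) z x

theorem dbox_aux (K N ρ s : ℕ) (θ η : ℝ) (w : Om d → ℝ)
    (hw : Loc (EB s (0 : V d) : Set (Ed d)) w) (z : V d) (ω ω' : Om d)
    (h : ∀ e ∈ (EB (K * N + N + ρ + s) z : Set (Ed d)), ω e = ω' e)
    (hg : BoxGood K N ρ θ η w ω z) : BoxGood K N ρ θ η w ω' z := by
  classical
  have hsub : ∀ (r : ℕ) (x : V d), x ∈ Bx N z → r ≤ ρ + s →
      ∀ e ∈ (EB r x : Set (Ed d)), ω e = ω' e := by
    intro r x hx hr e he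
    apply h
    rw [Finset.mem_coe] at he ⊢
    exact EB_mono (by nlinarith [Nat.zero_le (K * N)]) z (EB_subset hx he)
  have hKN : ∀ e ∈ (EB (K * N) z : Set (Ed d)), ω e = ω' e := by
    intro e he
    apply h
    rw [Finset.mem_coe] at he ⊢
    exact EB_mono (by omega) z he
  have hT : ∀ x ∈ Bx N z, ToBd ω ρ x x = ToBd ω' ρ x x := by
    intro x hx
    exact Loc_ToBd ρ x x ω ω' (hsub ρ x hx (by omega))
  have hTK : ∀ x, ToBd ω (K * N) z x = ToBd ω' (K * N) z x := by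
    intro x
    exact Loc_ToBd (K * N) z x ω ω' hKN
  have hJ : ∀ x y, JoinIn ω (Bx (K * N) z : Set (V d)) x y =
      JoinIn ω' (Bx (K * N) z : Set (V d)) x y := by
    intro x y
    exact Loc_JoinIn (K * N) z x y ω ω' hKN
  have hwx : ∀ x ∈ Bx N z, w (sh x ω) = w (sh x ω') := by
    intro x hx
    have := Loc_sh s 0 x hw ω ω'
    apply this
    rw [zero_add]
    exact hsub s x hx (by omega)
  have hF : (Bx N z).filter (fun x => ToBd ω ρ x x) = (Bx N z).filter (fun x => ToBd ω' ρ x x) := by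
    apply Finset.filter_congr
    intro x hx
    rw [hT x hx]
  refine ⟨?_, ?_, ?_, ?_⟩
  · intro x hx y hy h1 h2
    rw [← hTK] at h1 h2
    rw [← hJ]
    exact hg.g1 x hx y hy h1 h2
  · rw [← hF]
    exact hg.g2
  · rw [← hF]
    have : ∑ x ∈ (Bx N z).filter (fun x => ToBd ω ρ x x), w (sh x ω') =
        ∑ x ∈ (Bx N z).filter (fun x => ToBd ω ρ x x), w (sh x ω) := by
      apply Finset.sum_congr rfl
      intro x hx
      exact (hwx x (Finset.mem_filter.1 hx).1).symm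
    rw [this]
    exact hg.g3
  · intro x hx h1
    rw [← hT x hx] at h1
    rw [← hTK]
    exact hg.g4 x hx h1

theorem Loc_BoxGood (K N ρ s : ℕ) (hK : 1 ≤ K) (θ η : ℝ) (w : Om d → ℝ)
    (hw : Loc (EB s (0 : V d) : Set (Ed d)) w) (z : V d) :
    Loc (EB (K * N + N + ρ + s) z : Set (Ed d)) (fun ω : Om d => BoxGood K N ρ θ η w ω z) := by
  intro ω ω' h
  apply propext
  exact ⟨dbox_aux K N ρ s θ η w hw z ω ω' h,
    dbox_aux K N ρ s θ η w hw z ω' ω (fun e he => (h e he).symm)⟩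

theorem dbox_tha (d : ℕ) (p : unitInterval) : tha d p = (Pr d p).real {ω : Om d | InfC ω 0} := by
  unfold tha nu
  rw [measureReal_def, measureReal_def, Measure.restrict_apply_univ]

theorem dbox_tha_le (d : ℕ) (p : unitInterval) : tha d p ≤ 1 := by
  rw [dbox_tha]
  exact measureReal_le_one

open Classical in
/-- the indicator of `ToBd ω ρ 0 0` -/
noncomputable def dboxF (ρ : ℕ) (ω : Om d) : ℝ := if ToBd ω ρ 0 0 then 1 else 0

theorem dboxF_loc (ρ : ℕ) : Loc (EB ρ (0 : V d) : Set (Ed d)) (dboxF (d := d) ρ) := by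
  classical
  intro ω ω' h
  unfold dboxF
  have : ToBd ω ρ 0 0 = ToBd ω' ρ 0 0 := Loc_ToBd ρ 0 0 ω ω' h
  simp only [this]

theorem dboxF_abs (ρ : ℕ) (ω : Om d) : |dboxF ρ ω| ≤ 1 := by
  unfold dboxF
  split_ifs <;> simp

open Classical in
theorem dboxF_sh (ρ : ℕ) (ω : Om d) (x : V d) :
    dboxF ρ (sh x ω) = if ToBd ω ρ x x then 1 else 0 := by
  unfold dboxF
  have h := ToBd_sh ω ρ 0 x 0
  rw [zero_add] at h
  simp only [h]

theorem dboxF_int (ρ : ℕ) : tha d p ≤ ∫ ω, dboxF ρ ω ∂(Pr d p) := by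
  classical
  rw [dbox_tha]
  have h1 : ∫ ω, dboxF ρ ω ∂(Pr d p) = (Pr d p).real {ω : Om d | ToBd ω ρ 0 0} := by
    rw [← integral_indicator_one (measurableSet_ToBd ρ 0 0)]
    apply integral_congr_ae
    filter_upwards with ω
    unfold dboxF
    simp only [Set.indicator_apply, Set.mem_ofPred_eq, Pi.one_apply]
  rw [h1]
  refine measureReal_mono ?_ (measure_ne_top _ _)
  intro ω hω
  exact toBd_of_InfC ω ρ (self_mem_Bx ρ 0) hω

/-- the integral of `1{ToBd} w` is small -/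
theorem dboxW_int (ρ s : ℕ) (L C' : ℝ) (w : Om d → ℝ)
    (hw : Loc (EB s (0 : V d) : Set (Ed d)) w) (hL : ∀ ω, |w ω| ≤ L)
    (h0 : ∫ ω, w ω ∂(nu d p) = 0)
    (hC : (Pr d p).real {ω : Om d | ToBd ω ρ 0 0 ∧ ¬ InfC ω 0} ≤ C') :
    |∫ ω, dboxF ρ ω * w ω ∂(Pr d p)| ≤ L * C' := by
  classical
  have hL0 : 0 ≤ L := (abs_nonneg _).trans (hL (fun _ => false))
  have hwm : Measurable w := Loc.measurable _ hw
  have hwi : Integrable w (Pr d p) := Loc.integrable p _ hw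
  set B : Set (Om d) := {ω : Om d | ToBd ω ρ 0 0 ∧ ¬ InfC ω 0} with hB
  have hBm : MeasurableSet B := (measurableSet_ToBd ρ 0 0).inter (measurableSet_InfC 0).compl
  have hIm : MeasurableSet {ω : Om d | InfC ω 0} := measurableSet_InfC 0
  have hsplit : ∀ ω : Om d, dboxF ρ ω * w ω =
      Set.indicator {ω : Om d | InfC ω 0} w ω + Set.indicator B w ω := by
    intro ω
    unfold dboxF
    by_cases hI : InfC ω 0
    · have hT : ToBd ω ρ 0 0 := toBd_of_InfC ω ρ (self_mem_Bx ρ 0) hI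
      have hnB : ω ∉ B := fun h => h.2 hI
      rw [if_pos hT, Set.indicator_of_mem (show ω ∈ {ω : Om d | InfC ω 0} from hI),
        Set.indicator_of_notMem hnB]
      ring
    · rw [Set.indicator_of_notMem (show ω ∉ {ω : Om d | InfC ω 0} from hI)]
      by_cases hT : ToBd ω ρ 0 0
      · rw [if_pos hT, Set.indicator_of_mem (show ω ∈ B from ⟨hT, hI⟩)]
        ring
      · rw [if_neg hT, Set.indicator_of_notMem (show ω ∉ B from fun h => hT h.1)]
        ring
  have h1 : ∫ ω, dboxF ρ ω * w ω ∂(Pr d p) = ∫ ω in B, w ω ∂(Pr d p) := by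
    rw [integral_congr_ae (Filter.Eventually.of_forall hsplit),
      integral_add (hwi.indicator hIm) (hwi.indicator hBm), integral_indicator hIm,
      integral_indicator hBm]
    unfold nu at h0
    rw [h0, zero_add]
  rw [h1]
  have h2 := norm_setIntegral_le_of_norm_le_const (μ := Pr d p) (s := B) (f := w) (C := L)
    (measure_lt_top _ _) (fun ω _ => by rw [Real.norm_eq_abs]; exact hL ω)
  rw [Real.norm_eq_abs] at h2
  exact h2.trans (mul_le_mul_of_nonneg_left hC hL0)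

/-- the four ways a box can be bad -/
theorem dbox_cases (K N ρ : ℕ) (hK : 1 ≤ K) (hρ : ρ ≤ N) (η : ℝ) (w : Om d → ℝ) (z : V d) :
    {ω : Om d | ¬ BoxGood K N ρ (tha d p) η w ω z} ⊆
      {ω : Om d | ¬ LG K ω N z} ∪
      {ω : Om d | tha d p / 2 * (2 * N + 1) ^ d
        ≤ |∑ x ∈ Bx N z, (dboxF ρ (sh x ω) - ∫ ω', dboxF ρ ω' ∂(Pr d p))|} ∪
      {ω : Om d | η * (2 * N + 1) ^ d < |∑ x ∈ Bx N z, dboxF ρ (sh x ω) * w (sh x ω)|} ∪
      ⋃ x ∈ Bx N z, {ω : Om d | ToBd ω ρ x x ∧ ¬ InfC ω x} := by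
  classical
  intro ω hω
  by_contra hcon
  simp only [Set.mem_union, not_or, Set.mem_iUnion, Set.mem_ofPred_eq, not_not, not_lt,
    not_le, not_exists] at hcon hω
  obtain ⟨⟨⟨hLG, h2⟩, h3⟩, h4⟩ := hcon
  apply hω
  have hfil : ∑ x ∈ Bx N z, dboxF ρ (sh x ω) =
      (((Bx N z).filter (fun x => ToBd ω ρ x x)).card : ℝ) := by
    rw [Finset.card_filter]
    push_cast
    apply Finset.sum_congr rfl
    intro x _
    exact dboxF_sh ρ ω x
  refine ⟨hLG.2, ?_, ?_, ?_⟩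
  · have hI := dboxF_int (d := d) (p := p) ρ
    rw [Finset.sum_sub_distrib, hfil, Finset.sum_const, nsmul_eq_mul, card_Bx] at h2
    push_cast at h2
    have h5 := (abs_lt.1 h2).1
    have h6 : (0 : ℝ) ≤ (2 * (N : ℝ) + 1) ^ d := by positivity
    have h7 : (2 * (N : ℝ) + 1) ^ d * tha d p ≤
        (2 * (N : ℝ) + 1) ^ d * ∫ ω', dboxF ρ ω' ∂(Pr d p) := mul_le_mul_of_nonneg_left hI h6
    linarith
  · have h5 : ∑ x ∈ (Bx N z).filter (fun x => ToBd ω ρ x x), w (sh x ω) =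
        ∑ x ∈ Bx N z, dboxF ρ (sh x ω) * w (sh x ω) := by
      rw [Finset.sum_filter]
      apply Finset.sum_congr rfl
      intro x _
      rw [dboxF_sh ρ ω x]
      split_ifs <;> simp
    rw [h5]
    exact h3
  · intro x hx hT
    have hI : InfC ω x := by
      by_contra hI
      exact h4 x hx ⟨hT, hI⟩
    have hxK : x ∈ Bx (K * N) z := Bx_mono (Nat.le_mul_of_pos_left N hK) z hx
    exact toBd_of_InfC ω (K * N) hxK hI

theorem dbox_exp_le (A0 θ η L a s' n D : ℝ) (hA0 : 0 < A0) (hL : 1 ≤ L) (ha : a ≤ θ / A0)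
    (hη : 0 ≤ η) (hs' : 0 < s') (hD : s' ≤ D) (hn : 0 ≤ n) (hθ : 0 ≤ θ) :
    Real.exp (-(θ * η * n / (A0 * L * s'))) ≤ Real.exp (-(a * η * n / (L * D))) := by
  apply Real.exp_le_exp.2
  apply neg_le_neg
  have hL0 : 0 < L := by linarith
  have hD0 : 0 < D := by linarith
  calc a * η * n / (L * D) ≤ θ / A0 * η * n / (L * D) := by
        gcongr
    _ ≤ θ / A0 * η * n / (L * s') := by
        gcongr
    _ = θ * η * n / (A0 * L * s') := by
        field_simp

theorem dbox_pow_le (d s N : ℕ) (h : s ≤ N) : ((s : ℝ) + 1) ^ d ≤ ((N : ℝ) + 1) ^ (2 * d) := by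
  have h1 : ((s : ℝ) + 1) ^ d ≤ ((N : ℝ) + 1) ^ d := by
    have : (s : ℝ) ≤ N := by exact_mod_cast h
    gcongr
  refine h1.trans ?_
  apply pow_le_pow_right₀
  · have := Nat.cast_nonneg (α := ℝ) N
    linarith
  · omega

theorem dbox_pow_le' (d N : ℕ) : (2 * (N : ℝ) + 1) ^ d ≤ 2 ^ d * ((N : ℝ) + 1) ^ (2 * d) := by
  have h0 := Nat.cast_nonneg (α := ℝ) N
  calc (2 * (N : ℝ) + 1) ^ d ≤ (2 * ((N : ℝ) + 1)) ^ d := by
        apply pow_le_pow_left₀ <;> linarith
    _ = 2 ^ d * ((N : ℝ) + 1) ^ d := by rw [mul_pow]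
    _ ≤ 2 ^ d * ((N : ℝ) + 1) ^ (2 * d) := by
        apply mul_le_mul_of_nonneg_left _ (by positivity)
        apply pow_le_pow_right₀
        · linarith
        · omega

theorem box_prob (hH : HypH d p K C c) : ∃ A a : ℝ, 0 < A ∧ 0 < a ∧
    ∀ (N ρ s : ℕ) (L η : ℝ) (w : Om d → ℝ), Loc (EB s (0 : V d) : Set (Ed d)) w →
    (∀ ω, |w ω| ≤ L) → 1 ≤ L → 0 < η → η ≤ 1 → s + ρ + 1 ≤ N →
    L * A * Real.exp (-a * ρ) ≤ η / 2 → ∫ ω, w ω ∂(nu d p) = 0 → ∀ z : V d,
    (Pr d p).real {ω : Om d | ¬ BoxGood K N ρ (tha d p) η w ω z}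
      ≤ A * ((N : ℝ) + 1) ^ (2 * d) * (Real.exp (-a * ρ) + Real.exp (-a * N)
        + Real.exp (-(a * η ^ 2 * N ^ d / (L ^ 2 * ((s : ℝ) + ρ + 1) ^ d)))) := by
  obtain ⟨A0, hA0, hconc⟩ := conc d
  obtain ⟨C', c', hC', hc', htail⟩ := tail_Lc hH
  have hθ0 : 0 < tha d p := theta_pos hH
  have hθ1 := dbox_tha_le d p
  set θ := tha d p with hθ
  have hC := hH.hC
  have hc := hH.hc
  have hK : 1 ≤ K := le_trans (by norm_num) hH.hK
  have hθ2 : θ ^ 2 ≤ 1 := by nlinarith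
  refine ⟨C + 2 * A0 + 2 ^ d * C' + C', min c (min c' (θ ^ 2 / 4 / A0)), by positivity,
    by positivity, ?_⟩
  intro N ρ s L η w hw hwL hL hη hη1 hN hLA hint z
  set a := min c (min c' (θ ^ 2 / 4 / A0)) with ha
  have ha0 : 0 < a := by positivity
  have hac : a ≤ c := min_le_left _ _
  have hac' : a ≤ c' := (min_le_right _ _).trans (min_le_left _ _)
  have haθ : a ≤ θ ^ 2 / 4 / A0 := (min_le_right _ _).trans (min_le_right _ _)
  have haq : a ≤ (1 / 4) / A0 := by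
    refine haθ.trans ?_
    gcongr
  set M : ℝ := ((N : ℝ) + 1) ^ (2 * d) with hM
  have hM1 : 1 ≤ M := by
    apply one_le_pow₀
    have := Nat.cast_nonneg (α := ℝ) N
    linarith
  set e1 := Real.exp (-a * ρ) with he1
  set e2 := Real.exp (-a * N) with he2
  set e3 := Real.exp (-(a * η ^ 2 * N ^ d / (L ^ 2 * ((s : ℝ) + ρ + 1) ^ d))) with he3
  have he1p : 0 < e1 := Real.exp_pos _
  have he2p : 0 < e2 := Real.exp_pos _
  have he3p : 0 < e3 := Real.exp_pos _
  have hη2 : η ^ 2 ≤ 1 := by nlinarith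
  have hL2 : 1 ≤ L ^ 2 := by nlinarith
  have hce1 : Real.exp (-c' * ρ) ≤ e1 := by
    apply Real.exp_le_exp.2
    have := Nat.cast_nonneg (α := ℝ) ρ
    nlinarith
  have hce2 : Real.exp (-c * N) ≤ e2 := by
    apply Real.exp_le_exp.2
    have := Nat.cast_nonneg (α := ℝ) N
    nlinarith
  -- event 1
  have hE1 : (Pr d p).real {ω : Om d | ¬ LG K ω N z} ≤ M * (C * e2) := by
    refine (LG_prob hH N z).trans ?_
    calc C * Real.exp (-c * N) ≤ C * e2 := mul_le_mul_of_nonneg_left hce2 hC.le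
      _ = 1 * (C * e2) := by ring
      _ ≤ M * (C * e2) := mul_le_mul_of_nonneg_right hM1 (by positivity)
  -- event 2
  have hE2 : (Pr d p).real {ω : Om d | θ / 2 * (2 * N + 1) ^ d
        ≤ |∑ x ∈ Bx N z, (dboxF ρ (sh x ω) - ∫ ω', dboxF ρ ω' ∂(Pr d p))|} ≤ M * (A0 * e3) := by
    refine (hconc p ρ N 1 (θ / 2) (dboxF ρ) (dboxF_loc ρ) (dboxF_abs ρ) one_pos (by positivity)
      (by omega) z).trans ?_
    have h1 : Real.exp (-((θ / 2) ^ 2 * N ^ d / (A0 * 1 ^ 2 * (ρ + 1) ^ d))) ≤ e3 := by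
      have h2 := dbox_exp_le A0 (θ ^ 2 / 4) (η ^ 2) (L ^ 2) a (((ρ : ℝ) + 1) ^ d) ((N : ℝ) ^ d)
        (((s : ℝ) + ρ + 1) ^ d) hA0 hL2 haθ (by positivity) (by positivity)
        (by
          have := Nat.cast_nonneg (α := ℝ) s
          gcongr
          linarith) (by positivity) (by positivity)
      refine le_trans ?_ h2
      apply Real.exp_le_exp.2
      apply neg_le_neg
      calc θ ^ 2 / 4 * η ^ 2 * (N : ℝ) ^ d / (A0 * L ^ 2 * ((ρ : ℝ) + 1) ^ d)
          ≤ θ ^ 2 / 4 * 1 * (N : ℝ) ^ d / (A0 * 1 * ((ρ : ℝ) + 1) ^ d) := by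
            gcongr
        _ = (θ / 2) ^ 2 * N ^ d / (A0 * 1 ^ 2 * (ρ + 1) ^ d) := by ring
    calc A0 * ((ρ : ℝ) + 1) ^ d *
          Real.exp (-((θ / 2) ^ 2 * N ^ d / (A0 * 1 ^ 2 * (ρ + 1) ^ d))) ≤ A0 * M * e3 := by
            apply mul_le_mul _ h1 (Real.exp_pos _).le (by positivity)
            exact mul_le_mul_of_nonneg_left (dbox_pow_le d ρ N (by omega)) hA0.le
      _ = M * (A0 * e3) := by ring
  -- event 3
  have hE3 : (Pr d p).real {ω : Om d | η * (2 * N + 1) ^ d <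
      |∑ x ∈ Bx N z, dboxF ρ (sh x ω) * w (sh x ω)|} ≤ M * (A0 * e3) := by
    have hI : |∫ ω, dboxF ρ ω * w ω ∂(Pr d p)| ≤ η / 2 := by
      refine (dboxW_int ρ s L (C' * Real.exp (-c' * ρ)) w hw hwL hint (htail ρ 0)).trans ?_
      refine le_trans ?_ hLA
      rw [mul_assoc]
      apply mul_le_mul_of_nonneg_left _ (by linarith)
      apply mul_le_mul _ hce1 (Real.exp_pos _).le (by positivity)
      have : 0 < (2 : ℝ) ^ d * C' := by positivity
      linarith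
    have hloc : Loc (EB (max s ρ) (0 : V d) : Set (Ed d)) (fun ω => dboxF ρ ω * w ω) := by
      apply Loc.comp2 (fun x y => x * y)
      · apply Loc.mono _ (dboxF_loc ρ)
        exact_mod_cast EB_mono (le_max_right s ρ) 0
      · apply Loc.mono _ hw
        exact_mod_cast EB_mono (le_max_left s ρ) 0
    have habs : ∀ ω, |dboxF ρ ω * w ω| ≤ L := by
      intro ω
      rw [abs_mul]
      calc |dboxF ρ ω| * |w ω| ≤ 1 * L :=
            mul_le_mul (dboxF_abs ρ ω) (hwL ω) (abs_nonneg _) zero_le_one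
        _ = L := one_mul L
    have hco := hconc p (max s ρ) N L (η / 2) (fun ω => dboxF ρ ω * w ω) hloc habs (by linarith)
      (by positivity) (by omega) z
    have hsub : {ω : Om d | η * (2 * N + 1) ^ d <
        |∑ x ∈ Bx N z, dboxF ρ (sh x ω) * w (sh x ω)|} ⊆
        {ω : Om d | η / 2 * (2 * N + 1) ^ d ≤ |∑ x ∈ Bx N z, (dboxF ρ (sh x ω) * w (sh x ω) -
          ∫ ω', dboxF ρ ω' * w ω' ∂(Pr d p))|} := by
      intro ω hω
      simp only [Set.mem_ofPred_eq] at hω ⊢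
      rw [Finset.sum_sub_distrib, Finset.sum_const, nsmul_eq_mul, card_Bx]
      push_cast
      have h6 : (0 : ℝ) ≤ (2 * (N : ℝ) + 1) ^ d := by positivity
      have h7 := abs_sub_abs_le_abs_sub (∑ x ∈ Bx N z, dboxF ρ (sh x ω) * w (sh x ω))
        ((2 * (N : ℝ) + 1) ^ d * ∫ ω', dboxF ρ ω' * w ω' ∂(Pr d p))
      rw [abs_mul, abs_of_nonneg h6] at h7
      have h8 : (2 * (N : ℝ) + 1) ^ d * |∫ ω', dboxF ρ ω' * w ω' ∂(Pr d p)| ≤
          (2 * (N : ℝ) + 1) ^ d * (η / 2) := mul_le_mul_of_nonneg_left hI h6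
      linarith
    refine (measureReal_mono hsub (measure_ne_top _ _)).trans (hco.trans ?_)
    have hmx : ((max s ρ : ℕ) : ℝ) ≤ s + ρ := by
      have h9 : max s ρ ≤ s + ρ := by omega
      exact_mod_cast h9
    have h1 : Real.exp (-((η / 2) ^ 2 * N ^ d / (A0 * L ^ 2 * (((max s ρ : ℕ) : ℝ) + 1) ^ d)))
        ≤ e3 := by
      have h2 := dbox_exp_le A0 (1 / 4) (η ^ 2) (L ^ 2) a ((((max s ρ : ℕ) : ℝ) + 1) ^ d)
        ((N : ℝ) ^ d)
        (((s : ℝ) + ρ + 1) ^ d) hA0 hL2 haq (by positivity) (by positivity)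
        (by
          gcongr) (by positivity) (by positivity)
      refine le_trans (le_of_eq ?_) h2
      congr 2
      ring
    calc A0 * (((max s ρ : ℕ) : ℝ) + 1) ^ d *
          Real.exp (-((η / 2) ^ 2 * N ^ d / (A0 * L ^ 2 * (((max s ρ : ℕ) : ℝ) + 1) ^ d)))
          ≤ A0 * M * e3 := by
            apply mul_le_mul _ h1 (Real.exp_pos _).le (by positivity)
            exact mul_le_mul_of_nonneg_left (dbox_pow_le d (max s ρ) N (by omega)) hA0.le
      _ = M * (A0 * e3) := by ring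
  -- event 4
  have hE4 : (Pr d p).real (⋃ x ∈ Bx N z, {ω : Om d | ToBd ω ρ x x ∧ ¬ InfC ω x}) ≤
      M * (2 ^ d * C' * e1) := by
    refine (measureReal_biUnion_finset_le _ _).trans ?_
    calc ∑ x ∈ Bx N z, (Pr d p).real {ω : Om d | ToBd ω ρ x x ∧ ¬ InfC ω x}
        ≤ ∑ _x ∈ Bx N z, C' * e1 := by
          apply Finset.sum_le_sum
          intro x _
          exact (htail ρ x).trans (mul_le_mul_of_nonneg_left hce1 hC'.le)
      _ = (2 * (N : ℝ) + 1) ^ d * (C' * e1) := by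
          rw [Finset.sum_const, nsmul_eq_mul, card_Bx]
          push_cast
          ring
      _ ≤ (2 ^ d * M) * (C' * e1) :=
          mul_le_mul_of_nonneg_right (dbox_pow_le' d N) (by positivity)
      _ = M * (2 ^ d * C' * e1) := by ring
  refine (measureReal_mono (dbox_cases K N ρ hK (by omega) η w z) (measure_ne_top _ _)).trans ?_
  refine (measureReal_union_le _ _).trans ?_
  refine (add_le_add ((measureReal_union_le _ _).trans
    (add_le_add ((measureReal_union_le _ _).trans (add_le_add hE1 hE2)) hE3)) hE4).trans ?_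
  have hfin : M * (C * e2) + M * (A0 * e3) + M * (A0 * e3) + M * (2 ^ d * C' * e1) ≤
      M * ((C + 2 * A0 + 2 ^ d * C' + C') * (e1 + e2 + e3)) := by
    have hM0 : 0 ≤ M := by linarith
    rw [← mul_add, ← mul_add, ← mul_add]
    apply mul_le_mul_of_nonneg_left _ hM0
    have h2C : (0 : ℝ) ≤ 2 ^ d * C' := by positivity
    have q1 : 0 ≤ (C + 2 * A0 + C') * e1 := by positivity
    have q2 : 0 ≤ (2 * A0 + 2 ^ d * C' + C') * e2 := by positivity
    have q3 : 0 ≤ (C + 2 ^ d * C' + C') * e3 := by positivity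
    nlinarith
  refine hfin.trans (le_of_eq ?_)
  ring

end Ein99
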