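import Pool.Agent.LibEin99.C_Loc2
import Pool.Agent.LibEin99.C_Shift

/-!
TASK D_Conc. Concentration of box averages of local functions (Hoeffding on sublattices).

Let `q = 2s+1`. Split `Bx N 0` into residue classes modulo `q` (in every coordinate). Within a class
the boxes `Bx s x` are pairwise disjoint, so the variables `f(sh x ω)` are independent
(`Loc_sh`, `Loc.iIndepFun`) with values in `[-L, L]` and mean `∫ f` (`mp_sh`): Hoeffding's inequality
(Mathlib: `ProbabilityTheory.hasSubgaussianMGF_of_mem_Icc`,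
`HasSubgaussianMGF.measure_sum_ge_le_of_iIndepFun` or similar) gives
`P(|∑_class (f - ∫f)| ≥ t) ≤ 2 exp(-t²/(2 n_c L²))`. A class has at most
`((2N+1)/q + 1)^d ≤ (2(2N+1)/q)^d` elements (`q ≤ 2N+1`), and there are at most `q^d` classes; if the
whole sum is `≥ η (2N+1)^d` in absolute value then some class sum is `≥ η (2N+1)^d/q^d`. So the
exponent is at least `η² (2N+1)^d / (2^{d+1} q^d L²) ≥ η² N^d/(A L² (s+1)^d)`.
-/

open MeasureTheory ProbabilityTheory Filter Topology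

namespace Ein99

variable {d : ℕ}

/-- one sided Hoeffding bound for a separated family -/
theorem dconc_one (p : unitInterval) (s : ℕ) (L t M : ℝ) (f : Om d → ℝ)
    (hf : Loc (EB s (0 : V d) : Set (Ed d)) f) (hL : ∀ ω, |f ω| ≤ L) (hL0 : 0 < L) (ht : 0 < t)
    (S : Finset (V d)) (hS : ∀ x ∈ S, ∀ y ∈ S, x ≠ y → Disjoint (EB s x) (EB s y))
    (hM : (S.card : ℝ) ≤ M) :
    (Pr d p).real {ω : Om d | t ≤ ∑ x ∈ S, (f (sh x ω) - ∫ ω', f ω' ∂(Pr d p))}
      ≤ Real.exp (-(t ^ 2 / (2 * M * L ^ 2))) := by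
  classical
  rcases S.eq_empty_or_nonempty with h0 | h0
  · subst h0
    have : {ω : Om d | t ≤ ∑ x ∈ (∅ : Finset (V d)), (f (sh x ω) - ∫ ω', f ω' ∂(Pr d p))} = ∅ := by
      ext ω
      simp [ht]
    rw [this]
    simp only [measureReal_empty]
    exact (Real.exp_pos _).le
  · have hmean : ∀ x : V d, ∫ ω, f (sh x ω) ∂(Pr d p) = ∫ ω', f ω' ∂(Pr d p) := by
      intro x
      have hmf : Measurable f := Loc.measurable (EB s 0) hf
      have := integral_map (μ := Pr d p) (φ := sh x) (measurable_sh x).aemeasurable (f := f)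
        hmf.aestronglyMeasurable
      rw [map_sh] at this
      exact this.symm
    set X : S → Om d → ℝ := fun i ω => f (sh (i : V d) ω) - ∫ ω', f ω' ∂(Pr d p) with hX
    have hloc : ∀ i : S, Loc (EB s (i : V d) : Set (Ed d)) (X i) := by
      intro i
      have h1 := Loc_sh s 0 (i : V d) hf
      rw [zero_add] at h1
      intro ω ω' h
      simp only [hX]
      have := h1 ω ω' h
      simp only at this
      rw [this]
    have hind : iIndepFun X (Pr d p) := by
      refine Loc.iIndepFun p (fun i : S => EB s (i : V d)) ?_ X hloc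
      intro i j hij
      exact hS i i.2 j j.2 (fun h => hij (Subtype.ext h))
    have hsub : ∀ i ∈ (Finset.univ : Finset S),
        HasSubgaussianMGF (X i) ((‖L - (-L)‖₊ / 2) ^ 2) (Pr d p) := by
      intro i _
      have hmi : Measurable (fun ω => f (sh (i : V d) ω)) :=
        (Loc.measurable (EB s 0) hf).comp (measurable_sh _)
      have h1 := hasSubgaussianMGF_of_mem_Icc (μ := Pr d p) (X := fun ω => f (sh (i : V d) ω))
        (a := -L) (b := L) hmi.aemeasurable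
        (Filter.Eventually.of_forall fun ω => abs_le.mp (hL _))
      rw [hmean] at h1
      exact h1
    have h2 := HasSubgaussianMGF.measure_sum_ge_le_of_iIndepFun hind hsub ht.le
    have h3 : {ω : Om d | t ≤ ∑ x ∈ S, (f (sh x ω) - ∫ ω', f ω' ∂(Pr d p))}
        = {ω : Om d | t ≤ ∑ i ∈ (Finset.univ : Finset S), X i ω} := by
      ext ω
      simp only [Set.mem_ofPred_eq, hX]
      rw [← Finset.sum_coe_sort S (fun x => f (sh x ω) - ∫ ω', f ω' ∂(Pr d p))]
    rw [h3]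
    refine h2.trans ?_
    apply Real.exp_le_exp.mpr
    have hc : (((‖L - (-L)‖₊ / 2) ^ 2 : NNReal) : ℝ) = L ^ 2 := by
      push_cast
      rw [Real.norm_eq_abs]
      have : L - -L = 2 * L := by ring
      rw [this, abs_of_pos (by linarith)]
      ring
    simp only [Finset.sum_const, Finset.card_univ, Fintype.card_coe, nsmul_eq_mul, NNReal.coe_mul,
      NNReal.coe_natCast, hc]
    have hn : (0 : ℝ) < S.card := by exact_mod_cast Finset.card_pos.mpr h0
    have hM0 : 0 < M := lt_of_lt_of_le hn hM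
    rw [neg_div, neg_le_neg_iff]
    apply div_le_div_of_nonneg_left (sq_nonneg t) (by positivity)
    have : (0 : ℝ) < L ^ 2 := by positivity
    nlinarith

theorem dconc_two (p : unitInterval) (s : ℕ) (L t M : ℝ) (f : Om d → ℝ)
    (hf : Loc (EB s (0 : V d) : Set (Ed d)) f) (hL : ∀ ω, |f ω| ≤ L) (hL0 : 0 < L) (ht : 0 < t)
    (S : Finset (V d)) (hS : ∀ x ∈ S, ∀ y ∈ S, x ≠ y → Disjoint (EB s x) (EB s y))
    (hM : (S.card : ℝ) ≤ M) :
    (Pr d p).real {ω : Om d | t ≤ |∑ x ∈ S, (f (sh x ω) - ∫ ω', f ω' ∂(Pr d p))|}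
      ≤ 2 * Real.exp (-(t ^ 2 / (2 * M * L ^ 2))) := by
  have h1 := dconc_one p s L t M f hf hL hL0 ht S hS hM
  have hf' : Loc (EB s (0 : V d) : Set (Ed d)) (fun ω => - f ω) := by
    intro ω ω' h
    simp only
    rw [hf ω ω' h]
  have h2 := dconc_one p s L t M (fun ω => - f ω) hf' (fun ω => by rw [abs_neg]; exact hL ω)
    hL0 ht S hS hM
  have hsub : {ω : Om d | t ≤ |∑ x ∈ S, (f (sh x ω) - ∫ ω', f ω' ∂(Pr d p))|} ⊆
      {ω : Om d | t ≤ ∑ x ∈ S, (f (sh x ω) - ∫ ω', f ω' ∂(Pr d p))} ∪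
      {ω : Om d | t ≤ ∑ x ∈ S, (- f (sh x ω) - ∫ ω', - f ω' ∂(Pr d p))} := by
    intro ω hω
    simp only [Set.mem_ofPred_eq, Set.mem_union] at hω ⊢
    rcases le_abs.mp hω with h | h
    · exact Or.inl h
    · right
      rw [integral_neg]
      refine h.trans (le_of_eq ?_)
      rw [← Finset.sum_neg_distrib]
      apply Finset.sum_congr rfl
      intro x _
      ring
  calc (Pr d p).real {ω : Om d | t ≤ |∑ x ∈ S, (f (sh x ω) - ∫ ω', f ω' ∂(Pr d p))|}
      ≤ (Pr d p).real ({ω : Om d | t ≤ ∑ x ∈ S, (f (sh x ω) - ∫ ω', f ω' ∂(Pr d p))} ∪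
      {ω : Om d | t ≤ ∑ x ∈ S, (- f (sh x ω) - ∫ ω', - f ω' ∂(Pr d p))}) :=
        measureReal_mono hsub
    _ ≤ _ := measureReal_union_le _ _
    _ ≤ _ := by linarith

/-- residue classes -/
def dres (q : ℕ) (x : V d) : V d := fun i => x i % (q : ℤ)

/-- the set of residues -/
noncomputable def dRs (d q : ℕ) : Finset (V d) := Fintype.piFinset (fun _ => Finset.Ico (0 : ℤ) q)

theorem card_dRs (d q : ℕ) : (dRs d q).card = q ^ d := by
  unfold dRs
  rw [Fintype.card_piFinset]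
  simp

theorem dres_mem (q : ℕ) (hq : 0 < q) (x : V d) : dres q x ∈ dRs d q := by
  unfold dRs dres
  rw [Fintype.mem_piFinset]
  intro i
  rw [Finset.mem_Ico]
  have h : (0 : ℤ) < q := by exact_mod_cast hq
  exact ⟨Int.emod_nonneg _ h.ne', Int.emod_lt_of_pos _ h⟩

theorem dsep (s : ℕ) (x y : V d) (h : dres (2 * s + 1) x = dres (2 * s + 1) y) (hxy : x ≠ y) :
    Disjoint (EB s x) (EB s y) := by
  rw [Finset.disjoint_left]
  intro e he hf
  rw [mem_EB] at he hf
  apply hxy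
  funext i
  have h1 := (mem_Bx.mp he.1) i
  have h2 := (mem_Bx.mp hf.1) i
  have h3 := congrFun h i
  unfold dres at h3
  have h4 : ((2 * s + 1 : ℕ) : ℤ) ∣ x i - y i := by
    exact Int.ModEq.dvd (show y i ≡ x i [ZMOD ((2 * s + 1 : ℕ) : ℤ)] from h3.symm)
  rw [abs_le] at h1 h2
  have h5 : |x i - y i| < ((2 * s + 1 : ℕ) : ℤ) := by
    rw [abs_lt]
    push_cast
    constructor <;> linarith [h1.1, h1.2, h2.1, h2.2]
  have := Int.eq_zero_of_abs_lt_dvd h4 h5
  linarith

/-- the number of integers of a given residue in an interval -/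
theorem dcount (q N : ℕ) (hq : 0 < q) (a r : ℤ) :
    ((Finset.Icc (a - N) (a + N)).filter (fun x => x % (q : ℤ) = r)).card ≤ (2 * N + 1) / q + 1 := by
  classical
  have hq' : (0 : ℤ) < q := by exact_mod_cast hq
  rw [← Finset.card_range ((2 * N + 1) / q + 1)]
  apply Finset.card_le_card_of_injOn (fun x => ((x - (a - N)) / (q : ℤ)).toNat)
  · intro x hx
    simp only [Finset.coe_filter, Finset.mem_Icc, Set.mem_ofPred_eq] at hx
    simp only [Finset.coe_range, Set.mem_Iio]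
    have h0 : 0 ≤ x - (a - N) := by linarith [hx.1.1]
    have h1 : x - (a - N) ≤ ((2 * N + 1 : ℕ) : ℤ) := by push_cast; linarith [hx.1.2]
    have h2 : (x - (a - N)) / (q : ℤ) ≤ ((2 * N + 1 : ℕ) : ℤ) / (q : ℤ) :=
      Int.ediv_le_ediv hq' h1
    have h3 : ((2 * N + 1 : ℕ) : ℤ) / (q : ℤ) = (((2 * N + 1) / q : ℕ) : ℤ) := by
      exact (Int.natCast_ediv _ _).symm
    rw [h3] at h2
    have h4 : (0 : ℤ) ≤ (((2 * N + 1) / q : ℕ) : ℤ) := Int.natCast_nonneg _
    rw [Int.toNat_lt_of_ne_zero (by omega)]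
    push_cast at h2 ⊢
    linarith
  · intro x hx y hy hxy
    simp only [Finset.coe_filter, Finset.mem_Icc, Set.mem_ofPred_eq] at hx hy
    simp only at hxy
    have hx0 : 0 ≤ x - (a - N) := by linarith [hx.1.1]
    have hy0 : 0 ≤ y - (a - N) := by linarith [hy.1.1]
    have ex : 0 ≤ (x - (a - N)) / (q : ℤ) := Int.ediv_nonneg hx0 hq'.le
    have ey : 0 ≤ (y - (a - N)) / (q : ℤ) := Int.ediv_nonneg hy0 hq'.le
    have hk : (x - (a - N)) / (q : ℤ) = (y - (a - N)) / (q : ℤ) := by omega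
    have dx := Int.emod_add_mul_ediv (x - (a - N)) (q : ℤ)
    have dy := Int.emod_add_mul_ediv (y - (a - N)) (q : ℤ)
    have mx := Int.emod_lt_of_pos (x - (a - N)) hq'
    have my := Int.emod_lt_of_pos (y - (a - N)) hq'
    have nx := Int.emod_nonneg (x - (a - N)) hq'.ne'
    have ny := Int.emod_nonneg (y - (a - N)) hq'.ne'
    have h4 : (q : ℤ) ∣ x - y := by
      refine Int.ModEq.dvd (show y ≡ x [ZMOD (q : ℤ)] from ?_)
      show y % (q : ℤ) = x % (q : ℤ)
      rw [hx.2, hy.2]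
    have h5 : |x - y| < (q : ℤ) := by
      rw [hk] at dx
      rw [abs_lt]
      constructor <;> linarith
    have := Int.eq_zero_of_abs_lt_dvd h4 h5
    linarith

theorem dclass_card (q N : ℕ) (hq : 0 < q) (z ρ : V d) :
    ((Bx N z).filter (fun x => dres q x = ρ)).card ≤ ((2 * N + 1) / q + 1) ^ d := by
  classical
  have hsub : (Bx N z).filter (fun x => dres q x = ρ) ⊆
      Fintype.piFinset (fun i => (Finset.Icc (z i - N) (z i + N)).filter
        (fun x => x % (q : ℤ) = ρ i)) := by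
    intro x hx
    rw [Finset.mem_filter] at hx
    rw [Fintype.mem_piFinset]
    intro i
    rw [Finset.mem_filter, Finset.mem_Icc]
    have h1 := (mem_Bx.mp hx.1) i
    rw [abs_le] at h1
    refine ⟨⟨by linarith [h1.1], by linarith [h1.2]⟩, ?_⟩
    exact congrFun hx.2 i
  refine (Finset.card_le_card hsub).trans ?_
  rw [Fintype.card_piFinset]
  calc ∏ i, ((Finset.Icc (z i - N) (z i + N)).filter (fun x => x % (q : ℤ) = ρ i)).card
      ≤ ∏ _i : Fin d, ((2 * N + 1) / q + 1) := by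
        apply Finset.prod_le_prod'
        intro i _
        exact dcount q N hq (z i) (ρ i)
    _ = ((2 * N + 1) / q + 1) ^ d := by simp

theorem conc (d : ℕ) : ∃ A : ℝ, 0 < A ∧ ∀ (p : unitInterval) (s N : ℕ) (L η : ℝ) (f : Om d → ℝ),
    Loc (EB s (0 : V d) : Set (Ed d)) f → (∀ ω, |f ω| ≤ L) → 0 < L → 0 < η → s ≤ N →
    ∀ z : V d, (Pr d p).real {ω : Om d | η * (2 * N + 1) ^ d
        ≤ |∑ x ∈ Bx N z, (f (sh x ω) - ∫ ω', f ω' ∂(Pr d p))|}
      ≤ A * (s + 1) ^ d * Real.exp (-(η ^ 2 * N ^ d / (A * L ^ 2 * (s + 1) ^ d))) := by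
  classical
  refine ⟨2 ^ (d + 1), by positivity, ?_⟩
  intro p s N L η f hf hL hL0 hη hsN z
  set q : ℕ := 2 * s + 1 with hq
  have hq0 : 0 < q := by omega
  have hqR : (0 : ℝ) < q := by exact_mod_cast hq0
  set I : ℝ := ∫ ω', f ω' ∂(Pr d p) with hI
  set t : ℝ := η * (2 * N + 1) ^ d / q ^ d with ht
  have hN0 : (0 : ℝ) < 2 * N + 1 := by positivity
  have ht0 : 0 < t := by rw [ht]; positivity
  set M : ℝ := (2 * (2 * N + 1) / q) ^ d with hM
  have hM0 : 0 < M := by rw [hM]; positivity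
  -- class sizes
  have hcl : ∀ ρ : V d, (((Bx N z).filter (fun x => dres q x = ρ)).card : ℝ) ≤ M := by
    intro ρ
    have h1 := dclass_card q N hq0 z ρ
    have h2 : (((Bx N z).filter (fun x => dres q x = ρ)).card : ℝ) ≤
        ((((2 * N + 1) / q + 1 : ℕ)) : ℝ) ^ d := by exact_mod_cast h1
    refine h2.trans ?_
    rw [hM]
    apply pow_le_pow_left₀ (by positivity)
    push_cast
    have h3 : (((2 * N + 1) / q : ℕ) : ℝ) ≤ ((2 * N + 1 : ℕ) : ℝ) / (q : ℝ) := Nat.cast_div_le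
    push_cast at h3
    have h4 : (1 : ℝ) ≤ (2 * N + 1) / q := by
      rw [le_div_iff₀ hqR, one_mul]
      have : q ≤ 2 * N + 1 := by omega
      exact_mod_cast this
    have h5 : 2 * (2 * (N : ℝ) + 1) / q = (2 * N + 1) / q + (2 * N + 1) / q := by ring
    rw [h5]
    linarith
  -- the event is contained in a union
  have hsub : {ω : Om d | η * (2 * N + 1) ^ d ≤ |∑ x ∈ Bx N z, (f (sh x ω) - I)|} ⊆
      ⋃ ρ ∈ dRs d q, {ω : Om d | t ≤
        |∑ x ∈ (Bx N z).filter (fun x => dres q x = ρ), (f (sh x ω) - I)|} := by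
    intro ω hω
    rw [Set.mem_ofPred_eq] at hω
    by_contra hcon
    simp only [Set.mem_iUnion, Set.mem_ofPred_eq, not_exists, not_le] at hcon
    have hfib : ∑ x ∈ Bx N z, (f (sh x ω) - I) = ∑ ρ ∈ dRs d q,
        ∑ x ∈ (Bx N z).filter (fun x => dres q x = ρ), (f (sh x ω) - I) := by
      rw [Finset.sum_fiberwise_of_maps_to]
      intro x _
      exact dres_mem q hq0 x
    have hne : (dRs d q).Nonempty := by
      rw [← Finset.card_pos, card_dRs]
      positivity
    have hlt : |∑ x ∈ Bx N z, (f (sh x ω) - I)| < ∑ ρ ∈ dRs d q, t := by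
      rw [hfib]
      refine lt_of_le_of_lt (Finset.abs_sum_le_sum_abs _ _) ?_
      apply Finset.sum_lt_sum_of_nonempty hne
      intro ρ hρ
      exact hcon ρ hρ
    rw [Finset.sum_const, card_dRs, nsmul_eq_mul, ht] at hlt
    push_cast at hlt
    have : (q : ℝ) ^ d * (η * (2 * N + 1) ^ d / q ^ d) = η * (2 * N + 1) ^ d := by
      field_simp
    rw [this] at hlt
    linarith
  have hb : ∀ ρ ∈ dRs d q, (Pr d p).real {ω : Om d | t ≤
        |∑ x ∈ (Bx N z).filter (fun x => dres q x = ρ), (f (sh x ω) - I)|}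
        ≤ 2 * Real.exp (-(t ^ 2 / (2 * M * L ^ 2))) := by
    intro ρ _
    apply dconc_two p s L t M f hf hL hL0 ht0 _ _ (hcl ρ)
    intro x hx y hy hxy
    rw [Finset.mem_filter] at hx hy
    exact dsep s x y (by rw [← hq, hx.2, hy.2]) hxy
  have hexp : η ^ 2 * N ^ d / (2 ^ (d + 1) * L ^ 2 * (s + 1) ^ d) ≤ t ^ 2 / (2 * M * L ^ 2) := by
    have e1 : t ^ 2 / (2 * M * L ^ 2) = η ^ 2 * (2 * N + 1) ^ d / (2 ^ (d + 1) * q ^ d * L ^ 2) := by
      have hM' : M = 2 ^ d * (2 * N + 1) ^ d / q ^ d := by rw [hM, div_pow, mul_pow]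
      have ht' : t ^ 2 = η ^ 2 * ((2 * N + 1) ^ d) ^ 2 / (q ^ d) ^ 2 := by
        rw [ht, div_pow, mul_pow]
      rw [ht', hM', pow_succ (2 : ℝ) d]
      field_simp
    rw [e1]
    rw [div_le_div_iff₀ (by positivity) (by positivity)]
    have h1 : ((q : ℝ)) ^ d ≤ 2 ^ d * (s + 1) ^ d := by
      rw [← mul_pow]
      apply pow_le_pow_left₀ hqR.le
      rw [hq]; push_cast; linarith
    have h2 : (2 : ℝ) ^ d * (N : ℝ) ^ d ≤ (2 * N + 1) ^ d := by
      rw [← mul_pow]
      apply pow_le_pow_left₀ (by positivity)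
      linarith
    have h3 : (N : ℝ) ^ d * (q : ℝ) ^ d ≤ (2 * N + 1) ^ d * (s + 1) ^ d := by
      calc (N : ℝ) ^ d * (q : ℝ) ^ d ≤ (N : ℝ) ^ d * (2 ^ d * (s + 1) ^ d) := by gcongr
        _ = (2 ^ d * (N : ℝ) ^ d) * (s + 1) ^ d := by ring
        _ ≤ _ := by gcongr
    calc η ^ 2 * (N : ℝ) ^ d * (2 ^ (d + 1) * (q : ℝ) ^ d * L ^ 2)
        = (η ^ 2 * 2 ^ (d + 1) * L ^ 2) * ((N : ℝ) ^ d * (q : ℝ) ^ d) := by ring
      _ ≤ (η ^ 2 * 2 ^ (d + 1) * L ^ 2) * ((2 * N + 1) ^ d * (s + 1) ^ d) := by gcongr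
      _ = η ^ 2 * (2 * N + 1) ^ d * (2 ^ (d + 1) * L ^ 2 * (s + 1) ^ d) := by ring
  calc (Pr d p).real {ω : Om d | η * (2 * N + 1) ^ d ≤ |∑ x ∈ Bx N z, (f (sh x ω) - I)|}
      ≤ (Pr d p).real (⋃ ρ ∈ dRs d q, {ω : Om d | t ≤
        |∑ x ∈ (Bx N z).filter (fun x => dres q x = ρ), (f (sh x ω) - I)|}) := measureReal_mono hsub (measure_ne_top _ _)
    _ ≤ ∑ ρ ∈ dRs d q, (Pr d p).real {ω : Om d | t ≤
        |∑ x ∈ (Bx N z).filter (fun x => dres q x = ρ), (f (sh x ω) - I)|} :=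
        measureReal_biUnion_finset_le _ _
    _ ≤ ∑ ρ ∈ dRs d q, 2 * Real.exp (-(t ^ 2 / (2 * M * L ^ 2))) := Finset.sum_le_sum hb
    _ = (q : ℝ) ^ d * (2 * Real.exp (-(t ^ 2 / (2 * M * L ^ 2)))) := by
        rw [Finset.sum_const, card_dRs, nsmul_eq_mul]
        push_cast
        ring
    _ ≤ (2 ^ d * (s + 1) ^ d) * (2 * Real.exp (-(η ^ 2 * N ^ d / (2 ^ (d + 1) * L ^ 2 * (s + 1) ^ d)))) := by
        apply mul_le_mul
        · rw [← mul_pow]
          apply pow_le_pow_left₀ hqR.le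
          rw [hq]; push_cast; linarith
        · apply mul_le_mul_of_nonneg_left _ (by norm_num)
          apply Real.exp_le_exp.mpr
          linarith
        · positivity
        · positivity
    _ = 2 ^ (d + 1) * (s + 1) ^ d *
          Real.exp (-(η ^ 2 * N ^ d / (2 ^ (d + 1) * L ^ 2 * (s + 1) ^ d))) := by
        rw [pow_succ (2 : ℝ) d]
        ring

end Ein99
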