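import Pool.Agent.LibEin99.C_Loc2
import Pool.Agent.LibEin99.C_Chain

/-!
TASK G_Diff. A difference of values at the ends of a path is bounded by the sum of the absolute
increments over any finite set of edges which joins the two points.

`ConnS S x y`: `y` is reached from `x` by steps through edges of `S`.
Proof of `diff_le_sum`: the interval between `f x` and `f y` is covered by the intervals between
the values at the endpoints of the edges of `S` (and the point `f x`); compare lengths.
-/

open MeasureTheory ProbabilityTheory Filter Topology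

namespace Ein99

variable {d : ℕ}

/-- joined by a path using only edges of `S` -/
def ConnS (S : Finset (Ed d)) : V d → V d → Prop :=
  Relation.ReflTransGen (fun a b => ∃ δ : Dir d, ed a δ ∈ S ∧ b = a + st δ)

/-- the interval of an edge -/
private def gdI (f : V d → ℝ) (e : Ed d) : Set ℝ := Set.uIcc (f e.1) (f (e.1 + st (e.2, true)))

private theorem gd_false (a : V d) (i : Fin d) : a + st (i, false) + st (i, true) = a := by
  have : st (i, false) + st (i, true) = (0 : V d) := by
    unfold st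
    rw [← Pi.single_add]
    simp
  rw [add_assoc, this, add_zero]

private theorem gd_edge (f : V d → ℝ) (a : V d) (δ : Dir d) :
    Set.uIcc (f a) (f (a + st δ)) = gdI f (ed a δ) := by
  obtain ⟨i, b⟩ := δ
  cases b
  · show _ = Set.uIcc (f (a + st (i, false))) (f (a + st (i, false) + st (i, true)))
    rw [gd_false, Set.uIcc_comm]
  · rfl

private theorem gd_cover (S : Finset (Ed d)) (f : V d → ℝ) (x y : V d) (h : ConnS S x y) :
    Set.uIcc (f x) (f y) ⊆ (⋃ e ∈ S, gdI f e) ∪ {f x} := by
  induction h with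
  | refl => simp
  | @tail b c _ hbc ih =>
    obtain ⟨δ, hδ, rfl⟩ := hbc
    intro t ht
    rcases Set.uIcc_subset_uIcc_union_uIcc ht with h1 | h1
    · exact ih h1
    · left
      rw [gd_edge] at h1
      exact Set.mem_biUnion hδ h1

theorem diff_le_sum (S : Finset (Ed d)) (f : V d → ℝ) (x y : V d) (h : ConnS S x y) :
    |f x - f y| ≤ ∑ e ∈ S, |f e.1 - f (e.1 + st (e.2, true))| := by
  have h1 : ENNReal.ofReal |f x - f y| ≤
      ENNReal.ofReal (∑ e ∈ S, |f e.1 - f (e.1 + st (e.2, true))|) := by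
    calc ENNReal.ofReal |f x - f y| = volume (Set.uIcc (f x) (f y)) := by
          rw [Real.volume_interval, abs_sub_comm]
      _ ≤ volume ((⋃ e ∈ S, gdI f e) ∪ {f x}) := measure_mono (gd_cover S f x y h)
      _ ≤ volume (⋃ e ∈ S, gdI f e) + volume {f x} := measure_union_le _ _
      _ = volume (⋃ e ∈ S, gdI f e) := by simp
      _ ≤ ∑ e ∈ S, volume (gdI f e) := measure_biUnion_finset_le _ _
      _ = ∑ e ∈ S, ENNReal.ofReal |f e.1 - f (e.1 + st (e.2, true))| := by
          apply Finset.sum_congr rfl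
          intro e _
          unfold gdI
          rw [Real.volume_interval, abs_sub_comm]
      _ = _ := (ENNReal.ofReal_sum_of_nonneg fun e _ => abs_nonneg _).symm
  exact (ENNReal.ofReal_le_ofReal_iff (Finset.sum_nonneg fun e _ => abs_nonneg _)).1 h1

/-- Cauchy-Schwarz version. -/
theorem diff_sq_le_sum (S : Finset (Ed d)) (f : V d → ℝ) (x y : V d) (h : ConnS S x y) :
    (f x - f y) ^ 2 ≤ S.card * ∑ e ∈ S, (f e.1 - f (e.1 + st (e.2, true))) ^ 2 := by
  have h1 := diff_le_sum S f x y h
  calc (f x - f y) ^ 2 = |f x - f y| ^ 2 := (sq_abs _).symm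
    _ ≤ (∑ e ∈ S, |f e.1 - f (e.1 + st (e.2, true))|) ^ 2 := pow_le_pow_left₀ (abs_nonneg _) h1 2
    _ ≤ S.card * ∑ e ∈ S, |f e.1 - f (e.1 + st (e.2, true))| ^ 2 := sq_sum_le_card_mul_sum_sq
    _ = _ := by simp only [sq_abs]

/-- weighted version -/
theorem diff_sq_le_weight (S : Finset (Ed d)) (f : V d → ℝ) (w : Ed d → ℝ) (hw : ∀ e, 0 < w e)
    (x y : V d) (h : ConnS S x y) :
    (f x - f y) ^ 2 ≤ (∑ e ∈ S, 1 / w e) * ∑ e ∈ S, w e * (f e.1 - f (e.1 + st (e.2, true))) ^ 2 := by
  have h1 := diff_le_sum S f x y h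
  calc (f x - f y) ^ 2 = |f x - f y| ^ 2 := (sq_abs _).symm
    _ ≤ (∑ e ∈ S, |f e.1 - f (e.1 + st (e.2, true))|) ^ 2 := pow_le_pow_left₀ (abs_nonneg _) h1 2
    _ ≤ (∑ e ∈ S, 1 / w e) * ∑ e ∈ S, w e * (f e.1 - f (e.1 + st (e.2, true))) ^ 2 := by
        apply Finset.sum_sq_le_sum_mul_sum_of_sq_le_mul
        · intro e _
          exact (one_div_pos.2 (hw e)).le
        · intro e _
          exact mul_nonneg (hw e).le (sq_nonneg _)
        · intro e _
          have := (hw e).ne'
          rw [sq_abs]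
          apply le_of_eq
          field_simp

theorem ConnS_mono {S T : Finset (Ed d)} (h : S ⊆ T) {x y : V d} (hxy : ConnS S x y) :
    ConnS T x y := by
  refine Relation.ReflTransGen.mono ?_ _ _ hxy
  rintro a b ⟨δ, hδ, hb⟩
  exact ⟨δ, h hδ, hb⟩

/-- the open edges of a box -/
noncomputable def OE (ω : Om d) (r : ℕ) (z : V d) : Finset (Ed d) :=
  (EB r z).filter (fun e => ω e = true)

theorem ConnS_of_JoinIn (ω : Om d) (r : ℕ) (z x y : V d)
    (h : JoinIn ω (Bx r z : Set (V d)) x y) : ConnS (OE ω r z) x y := by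
  refine Relation.ReflTransGen.mono ?_ _ _ h
  rintro a b ⟨ha, hb, ⟨i, c⟩, ho, rfl⟩
  refine ⟨(i, c), ?_, rfl⟩
  have ha' : a ∈ Bx r z := ha
  have hb' : a + st (i, c) ∈ Bx r z := hb
  unfold OE EB
  rw [Finset.mem_filter, Finset.mem_filter, Finset.mem_product]
  have hst : ∀ j : Fin d, (Pi.single j 1 : V d) = st (j, true) := by
    intro j
    unfold st
    simp
  refine ⟨⟨⟨?_, Finset.mem_univ _⟩, ?_⟩, ho⟩
  · cases c
    · exact hb'
    · exact ha'
  · rw [hst]
    cases c
    · show a + st (i, false) + st (i, true) ∈ Bx r z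
      rw [gd_false]
      exact ha'
    · exact hb'

end Ein99
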