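import Pool.Agent.LibEin99.D_Box
import Pool.Agent.LibEin99.G_Diff
import Pool.Agent.LibEin99.A_Energy

/-!
TASK D_Est. Deterministic estimate in a good box.

`F = Fo n 0`, `F' = Fp = F + eps`, `H = √F'`. On `InfC ω 0`, `F x ≠ 0` implies `InfC ω x`
(`conn_of_Occ`, `InfC_of_conn`). Let `S = {x ∈ Bx N z | InfC ω x}`. If `S` is empty the left side is 0.
Otherwise `S = {x ∈ Bx N z | ToBd ω ρ x x}`: `⊆` by `toBd_of_InfC`; `⊇`: by G4 and G1 such an `x` is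
joined to an element of `S` (which satisfies `ToBd (K N) z` by `toBd_of_InfC`).
Let `x⋆ ∈ S` minimise `H`. For `x ∈ S`: `|H x - H x⋆|² ≤ D` with
`D = card(EB (KN) z) ∑_{e ∈ OE ω (KN) z} (H e.1 - H e.2)²` (`ConnS_of_JoinIn`, `diff_sq_le_sum`; the
number of elements of `OE` is at most that of `EB`).
`F = H² - eps`, so `|∑_S F w| ≤ H⋆² |∑_S w| + ∑_S |H² - H⋆²| L + eps L (2N+1)^d`;
`H⋆² |∑_S w| ≤ H⋆² η (2N+1)^d ≤ (2η/θ) ∑_S H²` by G3, G2 (`card S ≥ θ/2 (2N+1)^d`, `H⋆² ≤ H²`);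
`|H² - H⋆²| = (H - H⋆)(H + H⋆) ≤ 2 H √D ≤ τ H² + D/τ`.
-/

open MeasureTheory ProbabilityTheory Filter Topology

namespace Ein99

variable {d : ℕ}

/-- the vertices of the infinite cluster in a good box -/
theorem D_Est_filter (ω : Om d) (K N ρ : ℕ) (hK : 1 ≤ K) (θ η : ℝ) (w : Om d → ℝ) (z : V d)
    (hz : BoxGood K N ρ θ η w ω z) (x₁ : V d) (hx₁ : x₁ ∈ Bx N z) (hI : InfC ω x₁) (x : V d)
    (hx : x ∈ Bx N z) : InfC ω x ↔ ToBd ω ρ x x := by
  have hNK : N ≤ K * N := Nat.le_mul_of_pos_left N hK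
  constructor
  · intro h
    exact toBd_of_InfC ω ρ (self_mem_Bx ρ x) h
  · intro h
    have h1 : ToBd ω (K * N) z x := hz.g4 x hx h
    have h2 : ToBd ω (K * N) z x₁ := toBd_of_InfC ω (K * N) (Bx_mono hNK z hx₁) hI
    exact InfC_of_conn ω (hz.g1 x₁ hx₁ x hx h2 h1).conn hI

theorem D_Est_core (S : Finset (V d)) (F w : V d → ℝ) (e L τ η θ D M : ℝ) (he : 0 < e)
    (hF : ∀ x, 0 ≤ F x) (hL : 0 ≤ L) (hτ : 0 < τ) (hθ : 0 < θ) (hη : 0 < η) (hS : S.Nonempty)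
    (hw : ∀ x, |w x| ≤ L)
    (hD : ∀ x ∈ S, ∀ y ∈ S, (Real.sqrt (F x + e) - Real.sqrt (F y + e)) ^ 2 ≤ D)
    (hcard : (S.card : ℝ) ≤ M) (hcard2 : θ / 2 * M ≤ S.card)
    (hsum : |∑ x ∈ S, w x| ≤ η * M) :
    |∑ x ∈ S, F x * w x| ≤ (2 * η / θ + L * τ) * ∑ x ∈ S, (F x + e) + L * M / τ * D + L * M * e := by
  obtain ⟨x₀, hx₀, hmin⟩ := S.exists_min_image (fun x => Real.sqrt (F x + e)) hS
  set H : V d → ℝ := fun x => Real.sqrt (F x + e) with hH
  have hH0 : ∀ x, 0 ≤ H x := fun x => Real.sqrt_nonneg _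
  have hHsq : ∀ x, H x ^ 2 = F x + e := fun x => Real.sq_sqrt (by linarith [hF x])
  have hD0 : 0 ≤ D := (sq_nonneg _).trans (hD x₀ hx₀ x₀ hx₀)
  have hM0 : 0 ≤ M := (Nat.cast_nonneg _).trans hcard
  have hdec : ∑ x ∈ S, F x * w x = ∑ x ∈ S, (H x ^ 2 - H x₀ ^ 2) * w x + H x₀ ^ 2 * ∑ x ∈ S, w x
      - e * ∑ x ∈ S, w x := by
    rw [Finset.mul_sum, Finset.mul_sum, ← Finset.sum_add_distrib, ← Finset.sum_sub_distrib]
    apply Finset.sum_congr rfl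
    intro x _
    have h1 := hHsq x
    have h2 : F x = H x ^ 2 - e := by linarith
    rw [h2]
    ring
  have hA : |∑ x ∈ S, (H x ^ 2 - H x₀ ^ 2) * w x| ≤
      L * τ * ∑ x ∈ S, (F x + e) + L * M / τ * D := by
    have hpt : ∀ x ∈ S, |(H x ^ 2 - H x₀ ^ 2) * w x| ≤ L * τ * (F x + e) + L / τ * D := by
      intro x hx
      have hm : H x₀ ≤ H x := hmin x hx
      have hd : (H x - H x₀) ^ 2 ≤ D := hD x hx x₀ hx₀
      have h1 : 0 ≤ H x ^ 2 - H x₀ ^ 2 := by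
        have := hH0 x₀
        nlinarith
      have h2 : H x ^ 2 - H x₀ ^ 2 ≤ τ * (F x + e) + D / τ := by
        rw [← hHsq x]
        have h3 : H x ^ 2 - H x₀ ^ 2 ≤ 2 * H x * (H x - H x₀) := by nlinarith [sq_nonneg (H x - H x₀)]
        have h4 : 2 * H x * (H x - H x₀) ≤ τ * H x ^ 2 + (H x - H x₀) ^ 2 / τ := by
          have h5 : 0 ≤ (τ * H x - (H x - H x₀)) ^ 2 / τ := by positivity
          have h6 : (τ * H x - (H x - H x₀)) ^ 2 / τ =
              τ * H x ^ 2 + (H x - H x₀) ^ 2 / τ - 2 * H x * (H x - H x₀) := by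
            field_simp
            ring
          linarith
        have h7 : (H x - H x₀) ^ 2 / τ ≤ D / τ := by gcongr
        linarith
      rw [abs_mul, abs_of_nonneg h1]
      calc (H x ^ 2 - H x₀ ^ 2) * |w x| ≤ (H x ^ 2 - H x₀ ^ 2) * L := by
            apply mul_le_mul_of_nonneg_left (hw x) h1
        _ ≤ (τ * (F x + e) + D / τ) * L := mul_le_mul_of_nonneg_right h2 hL
        _ = L * τ * (F x + e) + L / τ * D := by ring
    calc |∑ x ∈ S, (H x ^ 2 - H x₀ ^ 2) * w x| ≤ ∑ x ∈ S, |(H x ^ 2 - H x₀ ^ 2) * w x| :=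
          Finset.abs_sum_le_sum_abs _ _
      _ ≤ ∑ x ∈ S, (L * τ * (F x + e) + L / τ * D) := Finset.sum_le_sum hpt
      _ = L * τ * ∑ x ∈ S, (F x + e) + S.card * (L / τ * D) := by
          rw [Finset.sum_add_distrib, Finset.sum_const, nsmul_eq_mul, Finset.mul_sum]
      _ ≤ L * τ * ∑ x ∈ S, (F x + e) + M * (L / τ * D) := by
          have : 0 ≤ L / τ * D := by positivity
          gcongr
      _ = L * τ * ∑ x ∈ S, (F x + e) + L * M / τ * D := by ring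
  have hB : |H x₀ ^ 2 * ∑ x ∈ S, w x| ≤ 2 * η / θ * ∑ x ∈ S, (F x + e) := by
    rw [abs_mul, abs_of_nonneg (sq_nonneg _)]
    have h1 : S.card * H x₀ ^ 2 ≤ ∑ x ∈ S, (F x + e) := by
      rw [← nsmul_eq_mul]
      apply Finset.card_nsmul_le_sum
      intro x hx
      rw [← hHsq x]
      exact pow_le_pow_left₀ (hH0 x₀) (hmin x hx) 2
    have h2 : M ≤ 2 / θ * S.card := by
      rw [div_mul_eq_mul_div, le_div_iff₀ hθ]
      linarith
    have h3 : 0 ≤ H x₀ ^ 2 := sq_nonneg _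
    calc H x₀ ^ 2 * |∑ x ∈ S, w x| ≤ H x₀ ^ 2 * (η * M) := mul_le_mul_of_nonneg_left hsum h3
      _ ≤ H x₀ ^ 2 * (η * (2 / θ * S.card)) := by gcongr
      _ = 2 * η / θ * (S.card * H x₀ ^ 2) := by ring
      _ ≤ 2 * η / θ * ∑ x ∈ S, (F x + e) := by gcongr
  have hC : |e * ∑ x ∈ S, w x| ≤ L * M * e := by
    rw [abs_mul, abs_of_pos he]
    have h1 : |∑ x ∈ S, w x| ≤ S.card * L := by
      refine (Finset.abs_sum_le_sum_abs _ _).trans ?_
      rw [← nsmul_eq_mul]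
      exact Finset.sum_le_card_nsmul _ _ _ (fun x _ => hw x)
    calc e * |∑ x ∈ S, w x| ≤ e * (S.card * L) := by gcongr
      _ ≤ e * (M * L) := by gcongr
      _ = L * M * e := by ring
  rw [hdec]
  have h1 := abs_sub (∑ x ∈ S, (H x ^ 2 - H x₀ ^ 2) * w x + H x₀ ^ 2 * ∑ x ∈ S, w x)
    (e * ∑ x ∈ S, w x)
  have h2 := abs_add_le (∑ x ∈ S, (H x ^ 2 - H x₀ ^ 2) * w x) (H x₀ ^ 2 * ∑ x ∈ S, w x)
  have h3 : (2 * η / θ + L * τ) * ∑ x ∈ S, (F x + e) =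
    2 * η / θ * ∑ x ∈ S, (F x + e) + L * τ * ∑ x ∈ S, (F x + e) := by ring
  rw [h3]
  linarith

theorem box_est (lam : ℝ) (l : Fin d → ℝ) (ω : Om d) (n : ℕ) (h0 : InfC ω 0)
    (K N ρ : ℕ) (hK : 1 ≤ K) (θ η L τ : ℝ) (hθ : 0 < θ) (hη : 0 < η) (hL : 0 ≤ L) (hτ : 0 < τ)
    (w : Om d → ℝ) (hw : ∀ ω, |w ω| ≤ L) (z : V d) (hz : BoxGood K N ρ θ η w ω z) :
    |∑ x ∈ Bx N z, Fo lam l ω n 0 x * w (sh x ω)|
      ≤ (2 * η / θ + L * τ) * ∑ x ∈ Bx N z, Fp lam l ω n 0 x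
        + L * (2 * N + 1) ^ d / τ * ((EB (K * N) z).card *
            ∑ e ∈ OE ω (K * N) z, (Real.sqrt (Fp lam l ω n 0 e.1)
              - Real.sqrt (Fp lam l ω n 0 (e.1 + st (e.2, true)))) ^ 2)
        + L * (2 * N + 1) ^ d * eps d n := by
  classical
  have he : 0 < eps d n := eps_pos d n
  have hF : ∀ x, 0 ≤ Fo lam l ω n 0 x := fun x => Fo_nonneg lam l ω n 0 x
  have hFp : ∀ x, Fp lam l ω n 0 x = Fo lam l ω n 0 x + eps d n := fun x => rfl
  have hFp0 : ∀ x, 0 ≤ Fp lam l ω n 0 x := fun x => (Fp_pos lam l ω n 0 x).le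
  set S : Finset (V d) := (Bx N z).filter (fun x => InfC ω x) with hSdef
  have hsub : S ⊆ Bx N z := Finset.filter_subset _ _
  have hzero : ∀ x, ¬ InfC ω x → Fo lam l ω n 0 x = 0 := by
    intro x hx
    by_contra hne
    apply hx
    have hocc : Occ lam l ω n 0 x ≠ 0 := by
      intro h
      apply hne
      unfold Fo
      rw [h, zero_div]
    exact InfC_of_conn ω (conn_of_Occ lam l ω n 0 x hocc) h0
  have hsum : ∑ x ∈ Bx N z, Fo lam l ω n 0 x * w (sh x ω) =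
      ∑ x ∈ S, Fo lam l ω n 0 x * w (sh x ω) := by
    symm
    apply Finset.sum_subset hsub
    intro x hx hxS
    rw [hzero x (fun h => hxS (Finset.mem_filter.2 ⟨hx, h⟩)), zero_mul]
  set E : ℝ := ∑ e ∈ OE ω (K * N) z, (Real.sqrt (Fp lam l ω n 0 e.1)
              - Real.sqrt (Fp lam l ω n 0 (e.1 + st (e.2, true)))) ^ 2 with hE
  have hE0 : 0 ≤ E := Finset.sum_nonneg (fun _ _ => sq_nonneg _)
  have hM0 : (0 : ℝ) ≤ (2 * N + 1) ^ d := by positivity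
  have hcoef : 0 ≤ 2 * η / θ + L * τ := by positivity
  have hmono : ∑ x ∈ S, (Fo lam l ω n 0 x + eps d n) ≤ ∑ x ∈ Bx N z, Fp lam l ω n 0 x :=
    Finset.sum_le_sum_of_subset_of_nonneg hsub (fun x _ _ => hFp0 x)
  rw [hsum]
  rcases S.eq_empty_or_nonempty with hS | hS
  · rw [hS]
    simp only [Finset.sum_empty, abs_zero]
    have h1 : 0 ≤ ∑ x ∈ Bx N z, Fp lam l ω n 0 x := Finset.sum_nonneg (fun x _ => hFp0 x)
    positivity
  · obtain ⟨x₁, hx₁⟩ := hS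
    have hx₁' := Finset.mem_filter.1 hx₁
    have hSeq : S = (Bx N z).filter (fun x => ToBd ω ρ x x) := by
      apply Finset.filter_congr
      intro x hx
      exact D_Est_filter ω K N ρ hK θ η w z hz x₁ hx₁'.1 hx₁'.2 x hx
    have hNK : N ≤ K * N := Nat.le_mul_of_pos_left N hK
    have hD : ∀ x ∈ S, ∀ y ∈ S, (Real.sqrt (Fo lam l ω n 0 x + eps d n)
        - Real.sqrt (Fo lam l ω n 0 y + eps d n)) ^ 2 ≤ (EB (K * N) z).card * E := by
      intro x hx y hy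
      have hx' := Finset.mem_filter.1 hx
      have hy' := Finset.mem_filter.1 hy
      have h1 : ToBd ω (K * N) z x := toBd_of_InfC ω (K * N) (Bx_mono hNK z hx'.1) hx'.2
      have h2 : ToBd ω (K * N) z y := toBd_of_InfC ω (K * N) (Bx_mono hNK z hy'.1) hy'.2
      have h3 := ConnS_of_JoinIn ω (K * N) z x y (hz.g1 x hx'.1 y hy'.1 h1 h2)
      have h4 := diff_sq_le_sum (OE ω (K * N) z)
        (fun v => Real.sqrt (Fp lam l ω n 0 v)) x y h3
      refine h4.trans ?_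
      apply mul_le_mul_of_nonneg_right _ hE0
      exact_mod_cast Finset.card_le_card (Finset.filter_subset _ _)
    have hcard : (S.card : ℝ) ≤ (2 * N + 1) ^ d := by
      have := Finset.card_le_card hsub
      rw [card_Bx] at this
      exact_mod_cast this
    have hcard2 : θ / 2 * (2 * N + 1) ^ d ≤ (S.card : ℝ) := by
      rw [hSeq]
      convert hz.g2
    have hws : |∑ x ∈ S, w (sh x ω)| ≤ η * (2 * N + 1) ^ d := by
      rw [hSeq]
      convert hz.g3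
    have hcore := D_Est_core S (fun x => Fo lam l ω n 0 x) (fun x => w (sh x ω)) (eps d n) L τ η θ
      ((EB (K * N) z).card * E) ((2 * N + 1) ^ d) he hF hL hτ hθ hη ⟨x₁, hx₁⟩
      (fun x => hw (sh x ω)) hD hcard hcard2 hws
    refine hcore.trans ?_
    gcongr

end Ein99
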