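import Pool.Agent.LibEin99.D_Est
import Pool.Agent.LibEin99.A_H

/-!
TASK D_Sum. Summation of the box estimates over all boxes (still for a fixed configuration).

`Z_x := Zw x`, `w ω = Zw lam l ω 0 * g ω`, so `w (sh x ω) = Zw lam l ω x * g (sh x ω)`.
On `InfC ω 0`: `∑_{k<n} Pn k (x ↦ g(sh x ω)) 0 = ∑_{x ∈ Bx n 0} Occ x g(sh x ω)
= ∑_{x ∈ Bx n 0} Fo x w(sh x ω)` (if `Zw x = 0` then `x` is isolated so `Occ x = 0` or `x = 0`, which is
impossible on `InfC ω 0`), `= (2N+1)^{-d} ∑_{z ∈ Bx (n+N) 0} ∑_{x ∈ Bx N z} Fo x w(sh x ω)`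
(each `x ∈ Bx n 0` is in exactly `(2N+1)^d` boxes; `Fo x = 0` outside `Bx n 0`).
Good `z`: `box_est`. Bad `z`: `≤ L ∑_{x ∈ Bx N z} Fo x`.
* `∑_z ∑_{x ∈ Bx N z} Fp x ≤ (2N+1)^d ∑_{x ∈ Bx (n+2N) 0} Fp x ≤ (2N+1)^d (e n + 1·4^d)`
  (`sum_Fo_le`, `eps (2(n+2N)+1)^d ≤ 4^d` as `2N ≤ n`);
* `∑_z ∑_{e ∈ OE ω (KN) z} (∇H)² ≤ (2KN+1)^d esum ω (2n+1) 0 (∇H)²` (an edge `e` is in `OE ω (KN) z`
  only for `z ∈ Bx (KN) e.1`, and `e.1 ∈ Bx (n+N+KN) 0 ⊆ Bx (2n+1) 0`), `card EB ≤ d (2KN+1)^d`;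
* the `eps` term: `(2(n+N)+1)^d eps ≤ 4^d`;
* bad part: `∑_z 1{bad z} ∑_{x ∈ Bx N z} Fo x = ∑_x Fo x #{z ∈ Bx N x : bad}`.
-/

open MeasureTheory ProbabilityTheory Filter Topology

namespace Ein99

variable {d : ℕ}

theorem dsum_weight (n N : ℕ) (b φ : V d → ℝ) (h0 : ∀ x, x ∉ Bx n (0 : V d) → φ x = 0) :
    ∑ z ∈ Bx (n + N) (0 : V d), ∑ x ∈ Bx N z, b z * φ x
      = ∑ x ∈ Bx n (0 : V d), ∑ z ∈ Bx N x, b z * φ x := by
  classical
  have h1 : ∀ z ∈ Bx (n + N) (0 : V d), ∑ x ∈ Bx N z, b z * φ x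
      = ∑ x ∈ (Bx N z).filter (fun x => x ∈ Bx n (0 : V d)), b z * φ x := by
    intro z _
    rw [Finset.sum_filter]
    apply Finset.sum_congr rfl
    intro x _
    split_ifs with h
    · rfl
    · rw [h0 x h, mul_zero]
  rw [Finset.sum_congr rfl h1]
  apply Finset.sum_comm'
  intro z x
  rw [Finset.mem_filter]
  constructor
  · rintro ⟨_, h2, h3⟩
    exact ⟨Bx_comm.1 h2, h3⟩
  · rintro ⟨h2, h3⟩
    exact ⟨Bx_trans h3 h2, Bx_comm.1 h2, h3⟩

theorem dsum_le (R N : ℕ) (φ : V d → ℝ) (h0 : ∀ x, 0 ≤ φ x) :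
    ∑ z ∈ Bx R (0 : V d), ∑ x ∈ Bx N z, φ x
      ≤ (2 * N + 1) ^ d * ∑ x ∈ Bx (R + N) (0 : V d), φ x := by
  classical
  have h1 : ∑ z ∈ Bx R (0 : V d), ∑ x ∈ Bx N z, φ x
      = ∑ x ∈ Bx (R + N) (0 : V d), ∑ z ∈ (Bx N x).filter (fun z => z ∈ Bx R (0 : V d)), φ x := by
    apply Finset.sum_comm'
    intro z x
    rw [Finset.mem_filter]
    constructor
    · rintro ⟨h2, h3⟩
      exact ⟨⟨Bx_comm.1 h3, h2⟩, Bx_trans h2 h3⟩
    · rintro ⟨⟨h2, h3⟩, h4⟩
      exact ⟨h3, Bx_comm.1 h2⟩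
  rw [h1, Finset.mul_sum]
  apply Finset.sum_le_sum
  intro x _
  rw [Finset.sum_const, nsmul_eq_mul]
  apply mul_le_mul_of_nonneg_right _ (h0 x)
  calc (((Bx N x).filter (fun z => z ∈ Bx R (0 : V d))).card : ℝ) ≤ (Bx N x).card := by
        exact_mod_cast Finset.card_filter_le _ _
    _ = (2 * N + 1) ^ d := by
        rw [card_Bx]
        push_cast
        ring

theorem dsum_edges (ω : Om d) (n N K : ℕ) (hKN : (K + 2) * N ≤ n) (q : Ed d → ℝ)
    (hq : ∀ e, 0 ≤ q e) :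
    ∑ z ∈ Bx (n + N) (0 : V d), ∑ e ∈ OE ω (K * N) z, q e
      ≤ (2 * (K * N) + 1) ^ d * esum ω (2 * n + 1) 0 (fun x i => q (x, i)) := by
  classical
  set E' : Finset (Ed d) := ((Bx (2 * n + 1) (0 : V d)) ×ˢ (Finset.univ : Finset (Fin d))).filter
    (fun e => ω e = true) with hE'
  have h1 : ∑ z ∈ Bx (n + N) (0 : V d), ∑ e ∈ OE ω (K * N) z, q e
      = ∑ e ∈ E', ∑ z ∈ (Bx (n + N) (0 : V d)).filter (fun z => e ∈ OE ω (K * N) z), q e := by
    apply Finset.sum_comm'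
    intro z e
    rw [Finset.mem_filter]
    constructor
    · rintro ⟨h2, h3⟩
      refine ⟨⟨h2, h3⟩, ?_⟩
      unfold OE at h3
      rw [Finset.mem_filter, mem_EB] at h3
      rw [hE', Finset.mem_filter, Finset.mem_product]
      refine ⟨⟨?_, Finset.mem_univ _⟩, h3.2⟩
      have h4 := Bx_trans h2 h3.1.1
      refine Bx_mono ?_ _ h4
      have : (K + 2) * N = K * N + 2 * N := by ring
      omega
    · rintro ⟨⟨h2, h3⟩, _⟩
      exact ⟨h2, h3⟩
  rw [h1]
  have h2 : ∀ e ∈ E', ∑ z ∈ (Bx (n + N) (0 : V d)).filter (fun z => e ∈ OE ω (K * N) z), q e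
      ≤ (2 * (K * N) + 1) ^ d * q e := by
    intro e _
    rw [Finset.sum_const, nsmul_eq_mul]
    apply mul_le_mul_of_nonneg_right _ (hq e)
    calc (((Bx (n + N) (0 : V d)).filter (fun z => e ∈ OE ω (K * N) z)).card : ℝ)
        ≤ (Bx (K * N) e.1).card := by
          have : ((Bx (n + N) (0 : V d)).filter (fun z => e ∈ OE ω (K * N) z)) ⊆ Bx (K * N) e.1 := by
            intro z hz
            rw [Finset.mem_filter] at hz
            have h3 := hz.2
            unfold OE at h3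
            rw [Finset.mem_filter, mem_EB] at h3
            exact Bx_comm.1 h3.1.1
          exact_mod_cast Finset.card_le_card this
      _ = (2 * (K * N) + 1) ^ d := by
          rw [card_Bx]
          push_cast
          ring
  refine (Finset.sum_le_sum h2).trans ?_
  rw [← Finset.mul_sum]
  apply mul_le_mul_of_nonneg_left _ (by positivity)
  rw [hE', Finset.sum_filter, Finset.sum_product]
  unfold esum
  apply le_of_eq
  apply Finset.sum_congr rfl
  intro x _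
  apply Finset.sum_congr rfl
  intro i _
  rfl

theorem dsum_zw (lam : ℝ) (l : Fin d → ℝ) (ω : Om d) (x : V d) (h : InfC ω x) :
    Zw lam l ω x ≠ 0 := by
  intro h0
  rw [Zw_eq_zero_iff] at h0
  apply h
  have : {y : V d | Conn ω x y} ⊆ {x} := by
    intro y hy
    have hy' : Relation.ReflTransGen (Adj ω) x y := hy
    rcases hy'.cases_head with h1 | ⟨c, h1, _⟩
    · exact h1.symm
    · obtain ⟨δ, h2, _⟩ := h1
      exact absurd h2 (h0 δ)
  exact (Set.finite_singleton x).subset this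

theorem dsum_inf {ω : Om d} {x y : V d} (h : Conn ω x y) (hx : InfC ω x) : InfC ω y := by
  exact InfC_of_conn _ h hx

open Classical in
theorem boxGood_sh (K N ρ : ℕ) (θ η : ℝ) (w : Om d → ℝ) (ω : Om d) (x y : V d) :
    BoxGood K N ρ θ η w (sh x ω) y ↔ BoxGood K N ρ θ η w ω (y + x) := by
  have hmem : ∀ a : V d, a + x ∈ Bx N (y + x) ↔ a ∈ Bx N y := by
    intro a
    simp only [mem_Bx, Pi.add_apply, add_sub_add_right_eq_sub]
  have hfil : ∀ F : V d → ℝ, ∑ a ∈ (Bx N (y + x)).filter (fun a => ToBd ω ρ a a), F a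
      = ∑ a ∈ (Bx N y).filter (fun a => ToBd (sh x ω) ρ a a), F (a + x) := by
    intro F
    symm
    apply Finset.sum_bij (fun a _ => a + x)
    · intro a ha
      rw [Finset.mem_filter] at ha ⊢
      exact ⟨(hmem a).2 ha.1, (ToBd_sh ω ρ a x a).1 ha.2⟩
    · intro a _ b _ hab
      exact add_right_cancel hab
    · intro b hb
      rw [Finset.mem_filter] at hb
      refine ⟨b - x, ?_, by simp⟩
      rw [Finset.mem_filter]
      refine ⟨(hmem _).1 (by simpa using hb.1), ?_⟩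
      rw [ToBd_sh]
      simpa using hb.2
    · intro a _
      rfl
  have hcard : (((Bx N (y + x)).filter (fun a => ToBd ω ρ a a)).card : ℝ)
      = ((Bx N y).filter (fun a => ToBd (sh x ω) ρ a a)).card := by
    have := hfil (fun _ => 1)
    simpa using this
  have hsum : ∑ a ∈ (Bx N (y + x)).filter (fun a => ToBd ω ρ a a), w (sh a ω)
      = ∑ a ∈ (Bx N y).filter (fun a => ToBd (sh x ω) ρ a a), w (sh a (sh x ω)) := by
    rw [hfil]
    apply Finset.sum_congr rfl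
    intro a _
    rw [sh_sh]
  constructor
  · intro h
    refine ⟨?_, ?_, ?_, ?_⟩
    · intro a ha b hb h1 h2
      have ha' : a - x ∈ Bx N y := (hmem _).1 (by simpa using ha)
      have hb' : b - x ∈ Bx N y := (hmem _).1 (by simpa using hb)
      have h1' : ToBd (sh x ω) (K * N) y (a - x) := by
        rw [ToBd_sh]; simpa using h1
      have h2' : ToBd (sh x ω) (K * N) y (b - x) := by
        rw [ToBd_sh]; simpa using h2
      have h3 := h.g1 _ ha' _ hb' h1' h2'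
      rw [JoinIn_sh] at h3
      simpa using h3
    · have := h.g2
      rw [← hcard] at this
      exact this
    · have := h.g3
      rw [← hsum] at this
      exact this
    · intro a ha h1
      have ha' : a - x ∈ Bx N y := (hmem _).1 (by simpa using ha)
      have h1' : ToBd (sh x ω) ρ (a - x) (a - x) := by
        rw [ToBd_sh]; simpa using h1
      have h3 := h.g4 _ ha' h1'
      rw [ToBd_sh] at h3
      simpa using h3
  · intro h
    refine ⟨?_, ?_, ?_, ?_⟩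
    · intro a ha b hb h1 h2
      rw [JoinIn_sh]
      rw [ToBd_sh] at h1 h2
      exact h.g1 _ ((hmem a).2 ha) _ ((hmem b).2 hb) h1 h2
    · have := h.g2
      rw [hcard] at this
      exact this
    · have := h.g3
      rw [hsum] at this
      exact this
    · intro a ha h1
      rw [ToBd_sh] at h1 ⊢
      exact h.g4 _ ((hmem a).2 ha) h1

theorem dsum_eps (n R : ℕ) (hR : 2 * R + 1 ≤ 4 * (n + 2)) :
    ((Bx R (0 : V d)).card : ℝ) * eps d n ≤ 4 ^ d := by
  rw [card_Bx]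
  unfold eps
  push_cast
  have h1 : (2 * (R : ℝ) + 1) ^ d ≤ (4 * ((n : ℝ) + 2)) ^ d := by
    apply pow_le_pow_left₀ (by positivity)
    exact_mod_cast hR
  have hn : (0 : ℝ) < (n : ℝ) + 2 := by positivity
  have h1n : (1 : ℝ) ≤ (n : ℝ) + 2 := by
    have : (0 : ℝ) ≤ n := Nat.cast_nonneg n
    linarith
  rw [mul_one_div, div_le_iff₀ (by positivity)]
  calc (2 * (R : ℝ) + 1) ^ d ≤ (4 * ((n : ℝ) + 2)) ^ d := h1
    _ = 4 ^ d * ((n : ℝ) + 2) ^ d := mul_pow _ _ _
    _ ≤ 4 ^ d * ((n : ℝ) + 2) ^ (2 * d) := by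
        apply mul_le_mul_of_nonneg_left _ (by positivity)
        exact pow_le_pow_right₀ h1n (by omega)

open Classical in
theorem sum_est (d : ℕ) : ∃ A : ℝ, 0 < A ∧ ∀ (lam : ℝ) (l : Fin d → ℝ) (ω : Om d) (n : ℕ),
    0 < lam → lam ≤ 1 → ∑ i, l i ^ 2 = 1 → 1 ≤ n → InfC ω 0 →
    ∀ (K N ρ : ℕ) (θ η L τ : ℝ), 1 ≤ K → (K + 2) * N ≤ n → 0 < θ → 0 < η → 0 ≤ L → 0 < τ →
    ∀ g : Om d → ℝ, (∀ ω, |Zw lam l ω 0 * g ω| ≤ L) →
    |∑ k ∈ Finset.range n, Pn lam l ω k (fun x => g (sh x ω)) 0|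
      ≤ A * (η / θ + L * τ) * n
        + A * L / τ * ((K : ℝ) * N + 1) ^ (2 * d) *
          esum ω (2 * n + 1) 0 (fun x i => (Real.sqrt (Fp lam l ω n 0 x)
            - Real.sqrt (Fp lam l ω n 0 (x + st (i, true)))) ^ 2)
        + A * L
        + A * L / (2 * N + 1) ^ d * ∑ y ∈ Bx N (0 : V d),
            ∑ k ∈ Finset.range n, Pn lam l ω k (Set.indicator
              {x | ¬ BoxGood K N ρ θ η (fun ω => Zw lam l ω 0 * g ω) (sh x ω) y}
              (fun _ => (1 : ℝ))) 0 := by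
  refine ⟨2 * (3 + 4 ^ d) + (d + 1) * 4 ^ d, by positivity, ?_⟩
  intro lam l ω n hlam hlam1 hl hn h0 K N ρ θ η L τ hK hKN hθ hη hL hτ g hg
  set w : Om d → ℝ := fun ω => Zw lam l ω 0 * g ω with hw
  set A : ℝ := 2 * (3 + 4 ^ d) + (d + 1) * 4 ^ d with hA
  set F : V d → ℝ := fun x => Fo lam l ω n 0 x with hF
  set D : ℝ := (2 * (N : ℝ) + 1) ^ d with hD
  have hD0 : 0 < D := by positivity
  have hn1 : (1 : ℝ) ≤ n := by exact_mod_cast hn
  have h4d : (1 : ℝ) ≤ 4 ^ d := one_le_pow₀ (by norm_num)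
  have hFnn : ∀ x, 0 ≤ F x := fun x => Fo_nonneg lam l ω n 0 x
  have hFout : ∀ x, x ∉ Bx n (0 : V d) → F x = 0 := by
    intro x hx
    simp only [hF, Fo, Occ_eq_zero lam l ω n 0 x hx, zero_div]
  have hexp : Real.exp |lam| ≤ 3 := by
    rw [abs_of_pos hlam]
    calc Real.exp lam ≤ Real.exp 1 := Real.exp_le_exp.2 hlam1
      _ ≤ 3 := by have := Real.exp_one_lt_d9; linarith
  -- step 1
  have hwsh : ∀ x : V d, w (sh x ω) = Zw lam l ω x * g (sh x ω) := by
    intro x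
    simp only [hw]
    rw [Zw_sh, zero_add]
  have hstep1 : ∑ k ∈ Finset.range n, Pn lam l ω k (fun x => g (sh x ω)) 0
      = ∑ x ∈ Bx n (0 : V d), F x * w (sh x ω) := by
    rw [← sum_Occ_mul]
    apply Finset.sum_congr rfl
    intro x _
    rw [hwsh]
    by_cases hocc : Occ lam l ω n 0 x = 0
    · simp only [hF, Fo, hocc, zero_div, zero_mul]
    · have hz := dsum_zw lam l ω x (dsum_inf (conn_of_Occ lam l ω n 0 x hocc) h0)
      simp only [hF, Fo]
      field_simp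
  -- step 2
  have hstep2 : D * ∑ x ∈ Bx n (0 : V d), F x * w (sh x ω)
      = ∑ z ∈ Bx (n + N) (0 : V d), ∑ x ∈ Bx N z, F x * w (sh x ω) := by
    have h1 := dsum_weight n N (fun _ => 1) (fun x => F x * w (sh x ω)) (fun x hx => by
      rw [hFout x hx, zero_mul])
    simp only [one_mul] at h1
    rw [h1, Finset.mul_sum]
    apply Finset.sum_congr rfl
    intro x _
    rw [Finset.sum_const, nsmul_eq_mul, card_Bx]
    push_cast
    rfl
  -- step 3
  set q : Ed d → ℝ := fun e => (Real.sqrt (Fp lam l ω n 0 e.1)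
      - Real.sqrt (Fp lam l ω n 0 (e.1 + st (e.2, true)))) ^ 2 with hq
  have hqnn : ∀ e, 0 ≤ q e := fun e => sq_nonneg _
  have hFp : ∀ x, 0 ≤ Fp lam l ω n 0 x := fun x => (Fp_pos lam l ω n 0 x).le
  have hα : 0 ≤ 2 * η / θ + L * τ := by positivity
  have heps := eps_pos d n
  set bad : V d → ℝ := fun z => if BoxGood K N ρ θ η w ω z then 0 else 1 with hbad
  have hbadnn : ∀ z, 0 ≤ bad z := by
    intro z
    simp only [hbad]
    split_ifs <;> norm_num
  have hOEnn : ∀ z, 0 ≤ ∑ e ∈ OE ω (K * N) z, q e := fun z => Finset.sum_nonneg fun e _ => hqnn e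
  have hstep3 : ∀ z : V d, |∑ x ∈ Bx N z, F x * w (sh x ω)|
      ≤ (2 * η / θ + L * τ) * ∑ x ∈ Bx N z, Fp lam l ω n 0 x
        + L * D / τ * ((d * (2 * (K * N : ℕ) + 1) ^ d) * ∑ e ∈ OE ω (K * N) z, q e)
        + L * D * eps d n
        + ∑ x ∈ Bx N z, bad z * (L * F x) := by
    intro z
    have e1 : 0 ≤ (2 * η / θ + L * τ) * ∑ x ∈ Bx N z, Fp lam l ω n 0 x :=
      mul_nonneg hα (Finset.sum_nonneg fun x _ => hFp x)
    have e2 : 0 ≤ L * D / τ * ((d * (2 * (K * N : ℕ) + 1) ^ d) * ∑ e ∈ OE ω (K * N) z, q e) :=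
      mul_nonneg (by positivity) (mul_nonneg (by positivity) (hOEnn z))
    have e3 : 0 ≤ L * D * eps d n := by positivity
    have e4 : 0 ≤ ∑ x ∈ Bx N z, bad z * (L * F x) :=
      Finset.sum_nonneg fun x _ => mul_nonneg (hbadnn z) (mul_nonneg hL (hFnn x))
    by_cases hz : BoxGood K N ρ θ η w ω z
    · have h1 := box_est lam l ω n h0 K N ρ hK θ η L τ hθ hη hL hτ w hg z hz
      have h2 : ((EB (K * N) z).card : ℝ) * ∑ e ∈ OE ω (K * N) z, q e
          ≤ (d * (2 * (K * N : ℕ) + 1) ^ d) * ∑ e ∈ OE ω (K * N) z, q e :=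
        mul_le_mul_of_nonneg_right (card_EB_le (K * N) z) (hOEnn z)
      have h3 := mul_le_mul_of_nonneg_left h2 (by positivity : 0 ≤ L * D / τ)
      have h1' : |∑ x ∈ Bx N z, F x * w (sh x ω)|
        ≤ (2 * η / θ + L * τ) * ∑ x ∈ Bx N z, Fp lam l ω n 0 x
          + L * D / τ * ((EB (K * N) z).card * ∑ e ∈ OE ω (K * N) z, q e)
          + L * D * eps d n := h1
      linarith
    · have h1 : |∑ x ∈ Bx N z, F x * w (sh x ω)| ≤ ∑ x ∈ Bx N z, bad z * (L * F x) := by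
        refine (Finset.abs_sum_le_sum_abs _ _).trans ?_
        apply Finset.sum_le_sum
        intro x _
        have hb : bad z = 1 := by simp only [hbad, if_neg hz]
        rw [hb, one_mul, abs_mul, abs_of_nonneg (hFnn x), mul_comm L]
        exact mul_le_mul_of_nonneg_left (hg _) (hFnn x)
      linarith
  -- sum over z
  have hcardz : ∀ R : ℕ, ((Bx R (0 : V d)).card : ℝ) = (2 * R + 1) ^ d := by
    intro R
    rw [card_Bx]
    push_cast
    ring
  have hKN3 : 3 * N ≤ n := by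
    have : 3 * N ≤ (K + 2) * N := Nat.mul_le_mul_right _ (by omega)
    omega
  have hta : ∑ z ∈ Bx (n + N) (0 : V d), ∑ x ∈ Bx N z, Fp lam l ω n 0 x
      ≤ D * ((3 + 4 ^ d) * n) := by
    refine (dsum_le (n + N) N _ hFp).trans ?_
    apply mul_le_mul_of_nonneg_left _ hD0.le
    have h1 : ∑ x ∈ Bx (n + N + N) (0 : V d), Fp lam l ω n 0 x
        = ∑ x ∈ Bx n (0 : V d), F x + ((Bx (n + N + N) (0 : V d)).card : ℝ) * eps d n := by
      unfold Fp
      rw [Finset.sum_add_distrib, Finset.sum_const, nsmul_eq_mul]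
      congr 1
      symm
      apply Finset.sum_subset (Bx_mono (by omega) _)
      intro x _ hx
      exact hFout x hx
    rw [h1]
    have h2 := sum_Fo_le lam l ω hl n 0
    have h3 : ((Bx (n + N + N) (0 : V d)).card : ℝ) * eps d n ≤ 4 ^ d := dsum_eps n _ (by omega)
    have h4 : ∑ x ∈ Bx n (0 : V d), F x ≤ 3 * n :=
      h2.trans (mul_le_mul_of_nonneg_right hexp (by positivity))
    nlinarith
  have htb := dsum_edges ω n N K hKN q hqnn
  have htc : ∑ _z ∈ Bx (n + N) (0 : V d), L * D * eps d n ≤ L * D * 4 ^ d := by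
    rw [Finset.sum_const, nsmul_eq_mul]
    have h3 : ((Bx (n + N) (0 : V d)).card : ℝ) * eps d n ≤ 4 ^ d := dsum_eps n _ (by omega)
    calc ((Bx (n + N) (0 : V d)).card : ℝ) * (L * D * eps d n)
        = L * D * (((Bx (n + N) (0 : V d)).card : ℝ) * eps d n) := by ring
      _ ≤ L * D * 4 ^ d := mul_le_mul_of_nonneg_left h3 (by positivity)
  -- bad part
  set S : ℝ := ∑ y ∈ Bx N (0 : V d), ∑ k ∈ Finset.range n, Pn lam l ω k (Set.indicator
      {x | ¬ BoxGood K N ρ θ η w (sh x ω) y} (fun _ => (1 : ℝ))) 0 with hS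
  have htd : ∑ z ∈ Bx (n + N) (0 : V d), ∑ x ∈ Bx N z, bad z * (L * F x) ≤ 3 * L * S := by
    rw [dsum_weight n N bad (fun x => L * F x) (fun x hx => by rw [hFout x hx, mul_zero])]
    have h1 : ∀ x ∈ Bx n (0 : V d), ∑ z ∈ Bx N x, bad z * (L * F x)
        ≤ 3 * L * ∑ y ∈ Bx N (0 : V d), Occ lam l ω n 0 x *
          Set.indicator {x | ¬ BoxGood K N ρ θ η w (sh x ω) y} (fun _ => (1 : ℝ)) x := by
      intro x _
      have h2 : ∑ z ∈ Bx N x, bad z * (L * F x) = (L * F x) * ∑ z ∈ Bx N x, bad z := by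
        rw [Finset.mul_sum]
        apply Finset.sum_congr rfl
        intro z _
        ring
      have h3 : ∑ z ∈ Bx N x, bad z = ∑ y ∈ Bx N (0 : V d),
          Set.indicator {x | ¬ BoxGood K N ρ θ η w (sh x ω) y} (fun _ => (1 : ℝ)) x := by
        symm
        apply Finset.sum_bij (fun y _ => y + x)
        · intro y hy
          rw [mem_Bx] at hy ⊢
          intro i
          have := hy i
          simp only [Pi.zero_apply, sub_zero] at this
          simpa using this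
        · intro a _ b _ hab
          exact add_right_cancel hab
        · intro z hz
          refine ⟨z - x, ?_, by simp⟩
          rw [mem_Bx] at hz ⊢
          intro i
          have := hz i
          simpa using this
        · intro y _
          simp only [hbad, Set.indicator_apply, Set.mem_setOf_eq, boxGood_sh]
          by_cases hb : BoxGood K N ρ θ η w ω (y + x)
          · simp [hb]
          · simp [hb]
      rw [h2, h3, ← Finset.mul_sum]
      have h4 : F x ≤ 3 * Occ lam l ω n 0 x := by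
        refine (Fo_le lam l ω hl n 0 x).trans ?_
        exact mul_le_mul_of_nonneg_right hexp (Occ_nonneg lam l ω n 0 x)
      have h5 : 0 ≤ ∑ y ∈ Bx N (0 : V d),
          Set.indicator {x | ¬ BoxGood K N ρ θ η w (sh x ω) y} (fun _ => (1 : ℝ)) x :=
        Finset.sum_nonneg fun y _ => Set.indicator_nonneg (fun _ _ => zero_le_one) _
      calc L * F x * _ ≤ L * (3 * Occ lam l ω n 0 x) * _ :=
            mul_le_mul_of_nonneg_right (mul_le_mul_of_nonneg_left h4 hL) h5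
        _ = _ := by ring
    refine (Finset.sum_le_sum h1).trans ?_
    rw [← Finset.mul_sum, Finset.sum_comm]
    apply le_of_eq
    rw [hS]
    congr 1
    apply Finset.sum_congr rfl
    intro y _
    exact sum_Occ_mul lam l ω n 0 _
  -- total
  set E : ℝ := esum ω (2 * n + 1) 0 (fun x i => (Real.sqrt (Fp lam l ω n 0 x)
            - Real.sqrt (Fp lam l ω n 0 (x + st (i, true)))) ^ 2) with hE
  have hEnn : 0 ≤ E := by
    rw [hE]
    unfold esum
    refine Finset.sum_nonneg fun x _ => Finset.sum_nonneg fun i _ => ?_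
    split_ifs
    · exact sq_nonneg _
    · exact le_rfl
  have htot : D * |∑ x ∈ Bx n (0 : V d), F x * w (sh x ω)|
      ≤ (2 * η / θ + L * τ) * (D * ((3 + 4 ^ d) * n))
        + L * D / τ * ((d * (2 * (K * N : ℕ) + 1) ^ d) * ((2 * (K * N) + 1) ^ d * E))
        + L * D * 4 ^ d + 3 * L * S := by
    calc D * |∑ x ∈ Bx n (0 : V d), F x * w (sh x ω)|
        = |D * ∑ x ∈ Bx n (0 : V d), F x * w (sh x ω)| := by
          rw [abs_mul, abs_of_pos hD0]
      _ = |∑ z ∈ Bx (n + N) (0 : V d), ∑ x ∈ Bx N z, F x * w (sh x ω)| := by rw [hstep2]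
      _ ≤ ∑ z ∈ Bx (n + N) (0 : V d), |∑ x ∈ Bx N z, F x * w (sh x ω)| :=
          Finset.abs_sum_le_sum_abs _ _
      _ ≤ ∑ z ∈ Bx (n + N) (0 : V d), ((2 * η / θ + L * τ) * ∑ x ∈ Bx N z, Fp lam l ω n 0 x
        + L * D / τ * ((d * (2 * (K * N : ℕ) + 1) ^ d) * ∑ e ∈ OE ω (K * N) z, q e)
        + L * D * eps d n
        + ∑ x ∈ Bx N z, bad z * (L * F x)) := Finset.sum_le_sum fun z _ => hstep3 z
      _ = (2 * η / θ + L * τ) * ∑ z ∈ Bx (n + N) (0 : V d), ∑ x ∈ Bx N z, Fp lam l ω n 0 x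
        + L * D / τ * ((d * (2 * (K * N : ℕ) + 1) ^ d) *
            ∑ z ∈ Bx (n + N) (0 : V d), ∑ e ∈ OE ω (K * N) z, q e)
        + ∑ _z ∈ Bx (n + N) (0 : V d), L * D * eps d n
        + ∑ z ∈ Bx (n + N) (0 : V d), ∑ x ∈ Bx N z, bad z * (L * F x) := by
          rw [Finset.sum_add_distrib, Finset.sum_add_distrib, Finset.sum_add_distrib,
            Finset.mul_sum, Finset.mul_sum, Finset.mul_sum]
      _ ≤ _ := by
          have i1 := mul_le_mul_of_nonneg_left hta hα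
          have i2 : L * D / τ * ((d * (2 * (K * N : ℕ) + 1) ^ d) *
              ∑ z ∈ Bx (n + N) (0 : V d), ∑ e ∈ OE ω (K * N) z, q e)
              ≤ L * D / τ * ((d * (2 * (K * N : ℕ) + 1) ^ d) * ((2 * (K * N) + 1) ^ d * E)) := by
            apply mul_le_mul_of_nonneg_left _ (by positivity)
            exact mul_le_mul_of_nonneg_left htb (by positivity)
          linarith
  rw [hstep1]
  have hfin : |∑ x ∈ Bx n (0 : V d), F x * w (sh x ω)|
      ≤ (2 * η / θ + L * τ) * ((3 + 4 ^ d) * n)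
        + L / τ * ((d * (2 * ((K : ℝ) * N) + 1) ^ d) * ((2 * (K * N) + 1) ^ d * E))
        + L * 4 ^ d + 3 * L / D * S := by
    have h1 : |∑ x ∈ Bx n (0 : V d), F x * w (sh x ω)|
        = (D * |∑ x ∈ Bx n (0 : V d), F x * w (sh x ω)|) / D := by
      field_simp
    rw [h1, div_le_iff₀ hD0]
    refine htot.trans (le_of_eq ?_)
    push_cast
    field_simp
  have hSnn : 0 ≤ S := by
    rw [hS]
    refine Finset.sum_nonneg fun y _ => Finset.sum_nonneg fun k _ => ?_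
    exact Pn_nonneg lam l ω k (fun x => Set.indicator_nonneg (fun _ _ => zero_le_one) _) 0
  have j1 : (2 * η / θ + L * τ) * ((3 + 4 ^ d) * n) ≤ A * (η / θ + L * τ) * n := by
    have a1 : (2 * η / θ + L * τ) ≤ 2 * (η / θ + L * τ) := by
      have : 2 * η / θ = 2 * (η / θ) := by ring
      rw [this]
      nlinarith [mul_nonneg hL hτ.le]
    have a2 : 2 * (3 + 4 ^ d) ≤ A := by
      rw [hA]
      have : (0 : ℝ) ≤ (d + 1) * 4 ^ d := by positivity
      linarith
    have a3 : 0 ≤ η / θ + L * τ := by positivity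
    calc (2 * η / θ + L * τ) * ((3 + 4 ^ d) * n) ≤ (2 * (η / θ + L * τ)) * ((3 + 4 ^ d) * n) :=
          mul_le_mul_of_nonneg_right a1 (by positivity)
      _ = (2 * (3 + 4 ^ d)) * ((η / θ + L * τ) * n) := by ring
      _ ≤ A * ((η / θ + L * τ) * n) := mul_le_mul_of_nonneg_right a2 (by positivity)
      _ = _ := by ring
  have j2 : L / τ * ((d * (2 * ((K : ℝ) * N) + 1) ^ d) * ((2 * (K * N) + 1) ^ d * E))
      ≤ A * L / τ * ((K : ℝ) * N + 1) ^ (2 * d) * E := by
    have b1 : (2 * ((K : ℝ) * N) + 1) ^ d ≤ 2 ^ d * ((K : ℝ) * N + 1) ^ d := by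
      rw [← mul_pow]
      apply pow_le_pow_left₀ (by positivity)
      linarith
    have b2 : (2 * ((K : ℝ) * N) + 1) ^ d * (2 * ((K : ℝ) * N) + 1) ^ d
        ≤ 4 ^ d * ((K : ℝ) * N + 1) ^ (2 * d) := by
      calc (2 * ((K : ℝ) * N) + 1) ^ d * (2 * ((K : ℝ) * N) + 1) ^ d
          ≤ (2 ^ d * ((K : ℝ) * N + 1) ^ d) * (2 ^ d * ((K : ℝ) * N + 1) ^ d) :=
            mul_le_mul b1 b1 (by positivity) (by positivity)
        _ = (2 ^ d * 2 ^ d) * (((K : ℝ) * N + 1) ^ d * ((K : ℝ) * N + 1) ^ d) := by ring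
        _ = 4 ^ d * ((K : ℝ) * N + 1) ^ (2 * d) := by
            rw [← mul_pow, ← pow_add]
            have e1 : (2 : ℝ) * 2 = 4 := by norm_num
            have e2 : d + d = 2 * d := by ring
            rw [e1, e2]
    have b3 : (d : ℝ) * 4 ^ d ≤ A := by
      rw [hA]
      have : (0 : ℝ) ≤ 2 * (3 + 4 ^ d) + 4 ^ d := by positivity
      nlinarith
    calc L / τ * ((d * (2 * ((K : ℝ) * N) + 1) ^ d) * ((2 * (K * N) + 1) ^ d * E))
        = (L / τ * E * d) * ((2 * ((K : ℝ) * N) + 1) ^ d * (2 * ((K : ℝ) * N) + 1) ^ d) := by ring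
      _ ≤ (L / τ * E * d) * (4 ^ d * ((K : ℝ) * N + 1) ^ (2 * d)) :=
          mul_le_mul_of_nonneg_left b2 (by positivity)
      _ = (d * 4 ^ d) * (L / τ * E * ((K : ℝ) * N + 1) ^ (2 * d)) := by ring
      _ ≤ A * (L / τ * E * ((K : ℝ) * N + 1) ^ (2 * d)) :=
          mul_le_mul_of_nonneg_right b3 (by positivity)
      _ = _ := by ring
  have j3 : L * 4 ^ d ≤ A * L := by
    rw [mul_comm A]
    apply mul_le_mul_of_nonneg_left _ hL
    rw [hA]
    have : (0 : ℝ) ≤ 2 * (3 + 4 ^ d) + d * 4 ^ d := by positivity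
    nlinarith
  have j4 : 3 * L / D * S ≤ A * L / D * S := by
    apply mul_le_mul_of_nonneg_right _ hSnn
    apply div_le_div_of_nonneg_right _ hD0.le
    apply mul_le_mul_of_nonneg_right _ hL
    rw [hA]
    have : (0 : ℝ) ≤ (d + 1) * 4 ^ d := by positivity
    nlinarith
  linarith

end Ein99
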