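import Mathlib

/-!
# Biased random walk on bond percolation: definitions

`Ein99` : the Einstein relation for the biased walk on the supercritical percolation cluster.
-/

open MeasureTheory ProbabilityTheory Filter Topology

namespace Ein99

/-- The vertices of the lattice `ℤ^d`. -/
abbrev V (d : ℕ) := Fin d → ℤ

/-- The `2d` unit directions: `(i, true)` is `+e_i` and `(i, false)` is `-e_i`. -/
abbrev Dir (d : ℕ) := Fin d × Bool

/-- The undirected nearest neighbour edges: `(x, i)` is the edge between `x` and `x + e_i`. -/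
abbrev Ed (d : ℕ) := V d × Fin d

/-- Percolation configurations: `ω e = true` means that the edge `e` is open. -/
abbrev Om (d : ℕ) := Ed d → Bool

variable {d : ℕ}

/-- The unit step in direction `δ`. -/
def st (δ : Dir d) : V d := Pi.single δ.1 (if δ.2 then 1 else -1)

/-- The reversed direction. -/
def rv (δ : Dir d) : Dir d := (δ.1, !δ.2)

/-- The undirected edge used by a step from `x` in direction `δ`. -/
def ed (x : V d) (δ : Dir d) : Ed d := if δ.2 then (x, δ.1) else (x + st δ, δ.1)

/-- The edge from `x` in direction `δ` is open. -/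
def opn (ω : Om d) (x : V d) (δ : Dir d) : Prop := ω (ed x δ) = true

instance (ω : Om d) (x : V d) (δ : Dir d) : Decidable (opn ω x δ) := by
  unfold opn; infer_instance

/-- `x` and `y` are joined by an open edge. -/
def Adj (ω : Om d) (x y : V d) : Prop := ∃ δ : Dir d, opn ω x δ ∧ y = x + st δ

/-- `x` and `y` are joined by an open path. -/
def Conn (ω : Om d) : V d → V d → Prop := Relation.ReflTransGen (Adj ω)

/-- The open cluster of `x` is infinite. -/
def InfC (ω : Om d) (x : V d) : Prop := {y : V d | Conn ω x y}.Infinite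

/-- The law of bond percolation with parameter `p`: the edges are independent and each is open
with probability `p`. -/
noncomputable def Pr (d : ℕ) (p : unitInterval) : Measure (Om d) :=
  Measure.infinitePi (fun _ : Ed d => bernoulliMeasure true false p)

instance (p : unitInterval) : IsProbabilityMeasure (Pr d p) := by
  unfold Pr; infer_instance

/-- The translate of a configuration: `sh z ω` is `ω` seen from `z`. -/
def sh (z : V d) (ω : Om d) : Om d := fun e => ω (e.1 + z, e.2)

/-- `x · l`. -/
def dot (l : Fin d → ℝ) (x : V d) : ℝ := ∑ i, (x i : ℝ) * l i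

/-- The scalar product of the unit step `δ` with `l`. -/
def dt (l : Fin d → ℝ) (δ : Dir d) : ℝ := if δ.2 then l δ.1 else - l δ.1

/-- The weight `exp(lam (y-x)·l)` of the step from `x` to `y = x + st δ`, zero if the edge is
closed. -/
noncomputable def wt (lam : ℝ) (l : Fin d → ℝ) (ω : Om d) (x : V d) (δ : Dir d) : ℝ :=
  if opn ω x δ then Real.exp (lam * dt l δ) else 0

/-- The normalisation `∑_z exp(lam (z-x)·l)` over the open edges `xz`. -/
noncomputable def Zw (lam : ℝ) (l : Fin d → ℝ) (ω : Om d) (x : V d) : ℝ := ∑ δ, wt lam l ω x δ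

/-- One step of the biased walk: `Pop lam l ω g x = E_x[g(X_1)]` (at a vertex without open edges
the walk stays where it is). -/
noncomputable def Pop (lam : ℝ) (l : Fin d → ℝ) (ω : Om d) (g : V d → ℝ) (x : V d) : ℝ :=
  if Zw lam l ω x = 0 then g x else (∑ δ, wt lam l ω x δ * g (x + st δ)) / Zw lam l ω x

/-- `Pn lam l ω n g x = E_x[g(X_n)]` for the walk with bias `lam` in direction `l` in the
configuration `ω`. -/
noncomputable def Pn (lam : ℝ) (l : Fin d → ℝ) (ω : Om d) (n : ℕ) (g : V d → ℝ) : V d → ℝ :=
  (Pop lam l ω)^[n] g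

/-- The law of the configuration restricted to the event that the origin lies in an infinite
cluster. -/
noncomputable def nu (d : ℕ) (p : unitInterval) : Measure (Om d) :=
  (Pr d p).restrict {ω | InfC ω 0}

/-- `v` is the speed of the walk with bias `lam` in direction `l`: under the percolation measure
restricted to `0 ∈ C_∞`, `X_n · l / n` converges to `v` in probability. -/
def IsSpeed (d : ℕ) (p : unitInterval) (lam : ℝ) (l : Fin d → ℝ) (v : ℝ) : Prop :=
  ∀ ε : ℝ, 0 < ε → Tendsto (fun n : ℕ => ∫ ω, Pn lam l ω n
    (Set.indicator {y : V d | ε ≤ |dot l y / n - v|} (fun _ => (1 : ℝ))) 0 ∂(nu d p))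
    atTop (𝓝 0)

/-- `s` is the diffusion constant in direction `l` of the simple random walk (`lam = 0`) on the
infinite cluster: `X_n · l / √n` converges in law to a centred Gaussian variable with variance
`s`, under the percolation measure restricted to `0 ∈ C_∞`. -/
def IsDiff (d : ℕ) (p : unitInterval) (l : Fin d → ℝ) (s : NNReal) : Prop :=
  ∀ f : BoundedContinuousFunction ℝ ℝ, Tendsto (fun n : ℕ => ∫ ω, Pn 0 l ω n
    (fun y => f (dot l y / Real.sqrt n)) 0 ∂(nu d p))
    atTop (𝓝 ((nu d p).real Set.univ * ∫ t, f t ∂(gaussianReal 0 s)))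

/-! ### Boxes and local connections -/

/-- The box of radius `r` around `z`. -/
noncomputable def Bx (r : ℕ) (z : V d) : Finset (V d) := Finset.Icc (fun i => z i - r) (fun i => z i + r)

/-- `x` and `y` are joined by an open path with all vertices in `S`. -/
def JoinIn (ω : Om d) (S : Set (V d)) : V d → V d → Prop :=
  Relation.ReflTransGen (fun a b => a ∈ S ∧ b ∈ S ∧ Adj ω a b)

/-- `y` lies on the inner boundary of the box of radius `r` around `z`. -/
def OnBd (r : ℕ) (z y : V d) : Prop := y ∈ Bx r z ∧ ∃ i, (y i - z i).natAbs = r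

/-- `x` is joined inside the box of radius `r` around `z` to the inner boundary of the box. -/
def ToBd (ω : Om d) (r : ℕ) (z x : V d) : Prop :=
  ∃ y, OnBd r z y ∧ JoinIn ω (Bx r z : Set (V d)) x y

/-- The local uniqueness event at scale `m` around `z`. -/
def LG (K : ℕ) (ω : Om d) (m : ℕ) (z : V d) : Prop :=
  (∃ x ∈ Bx m z, ToBd ω (2 * K * m) z x) ∧
  ∀ x ∈ Bx m z, ∀ y ∈ Bx m z, ToBd ω (K * m) z x → ToBd ω (K * m) z y →
    JoinIn ω (Bx (K * m) z : Set (V d)) x y

/-- The geometric hypothesis: the local uniqueness event fails with exponentially small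
probability. -/
structure HypH (d : ℕ) (p : unitInterval) (K : ℕ) (C c : ℝ) : Prop where
  hK : 2 ≤ K
  hC : 0 < C
  hc : 0 < c
  h : ∀ m : ℕ, (Pr d p).real {ω : Om d | ¬ LG K ω m 0} ≤ C * Real.exp (-c * m)

/-- The edges with both endpoints in the box of radius `r` around `z`. -/
noncomputable def EB (r : ℕ) (z : V d) : Finset (Ed d) :=
  ((Bx r z) ×ˢ (Finset.univ : Finset (Fin d))).filter (fun e => e.1 + Pi.single e.2 1 ∈ Bx r z)

/-- `g` only depends on the edges in `S`. -/
def Loc {α : Type*} (S : Set (Ed d)) (g : Om d → α) : Prop :=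
  ∀ ω ω' : Om d, (∀ e ∈ S, ω e = ω' e) → g ω = g ω'

end Ein99
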