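import Pool.Agent.LibEin99.Defs2

/-!
# Canonical vertices and paths
-/

open MeasureTheory ProbabilityTheory Filter Topology

namespace Ein99

variable {d : ℕ}

/-- a choice function on finite sets of vertices -/
noncomputable def pick (s : Finset (V d)) : V d := if h : s.Nonempty then h.choose else 0

open Classical in
/-- distance from the origin to the infinite cluster -/
noncomputable def rgR (ω : Om d) : ℕ := sInf {k : ℕ | ∃ w ∈ Bx k (0 : V d), InfC ω w}

open Classical in
/-- a vertex of the infinite cluster nearest to the origin -/
noncomputable def rg (ω : Om d) : V d := pick ((Bx (rgR ω) (0 : V d)).filter (fun w => InfC ω w))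

open Classical in
/-- local version of `rgR` -/
noncomputable def rlR (ρ : ℕ) (ω : Om d) : ℕ :=
  sInf {k : ℕ | k ≤ ρ ∧ ∃ w ∈ Bx k (0 : V d), ToBd ω ρ w w}

open Classical in
/-- local version of `rg` -/
noncomputable def rl (ρ : ℕ) (ω : Om d) : V d :=
  pick ((Bx (rlR ρ ω) (0 : V d)).filter (fun w => ToBd ω ρ w w))

/-- The walk from `x` with steps `L` uses only open edges. -/
def OpenL (ω : Om d) : V d → List (Dir d) → Prop
  | _, [] => True
  | x, δ :: L => opn ω x δ ∧ OpenL ω (x + st δ) L

/-- The end of the walk from `x` with steps `L`. -/
def endp : V d → List (Dir d) → V d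
  | x, [] => x
  | x, δ :: L => endp (x + st δ) L

/-- The sum of the field `G` along the walk from `x` with steps `L`. -/
noncomputable def Gs (G : Fld d) (ω : Om d) : V d → List (Dir d) → ℝ
  | _, [] => 0
  | x, δ :: L => G (sh x ω) δ + Gs G ω (x + st δ) L

open Classical in
/-- signed number of passages of the walk through the directed edge from `y` in direction `η` -/
noncomputable def cnt (y : V d) (η : Dir d) : V d → List (Dir d) → ℝ
  | _, [] => 0
  | x, δ :: L => ((if x = y ∧ δ = η then 1 else 0)
      - (if x = y + st η ∧ δ = rv η then 1 else 0)) + cnt y η (x + st δ) L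

/-- length of the shortest open walk from `x` to `y` -/
noncomputable def splen (ω : Om d) (x y : V d) : ℕ :=
  sInf {n : ℕ | ∃ L : List (Dir d), L.length = n ∧ OpenL ω x L ∧ endp x L = y}

/-- a choice function on sets of lists -/
noncomputable def pickL (S : Set (List (Dir d))) : List (Dir d) := by
  classical
  exact if h : S.Nonempty then h.choose else []

/-- a shortest open walk from `x` to `y` -/
noncomputable def sp (ω : Om d) (x y : V d) : List (Dir d) :=
  pickL {L : List (Dir d) | L.length = splen ω x y ∧ OpenL ω x L ∧ endp x L = y}

/-- local version -/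
noncomputable def spl (ρ : ℕ) (ω : Om d) (x y : V d) : List (Dir d) :=
  if (sp ω x y).length ≤ ρ then sp ω x y else []

/-- The potential difference of the field `G` between `x` and `y` along the canonical path. -/
noncomputable def Pot (G : Fld d) (ω : Om d) (x y : V d) : ℝ := Gs G ω x (sp ω x y)

/-- The potential difference between the canonical vertices near `0` and near `y`. -/
noncomputable def Phi (G : Fld d) (y : V d) (ω : Om d) : ℝ :=
  Pot G ω (rg ω) (y + rg (sh y ω))

end Ein99
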