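import Pool.Agent.LibEin99.Defs

/-!
# Block renormalisation: definitions
-/

open MeasureTheory ProbabilityTheory Filter Topology

namespace Ein99

variable {d : ℕ}

/-- The block `z` at scale `b` is good: some vertex near its centre has a large cluster, and large
clusters near the centre are locally unique. -/
def GoodB (b : ℕ) (ω : Om d) (z : V d) : Prop :=
  (∃ x ∈ Bx b ((b : ℤ) • z), ToBd ω (4 * b) ((b : ℤ) • z) x) ∧
  ∀ x ∈ Bx (2 * b) ((b : ℤ) • z), ∀ y ∈ Bx (2 * b) ((b : ℤ) • z),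
    ToBd ω (3 * b) ((b : ℤ) • z) x → ToBd ω (3 * b) ((b : ℤ) • z) y →
    JoinIn ω (Bx (3 * b) ((b : ℤ) • z) : Set (V d)) x y

/-- nearest neighbour paths inside `S` -/
def NJoin (S : Set (V d)) : V d → V d → Prop :=
  Relation.ReflTransGen (fun a b => a ∈ S ∧ b ∈ S ∧ ∃ δ : Dir d, b = a + st δ)

/-- paths inside `S` with steps of sup-norm at most one (`*`-paths) -/
def SJoin (S : Set (V d)) : V d → V d → Prop :=
  Relation.ReflTransGen (fun a b => a ∈ S ∧ b ∈ S ∧ b ∈ Bx 1 a)

/-- the outer `*`-boundary of `D` -/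
def bdS (D : Set (V d)) : Set (V d) := {x | x ∉ D ∧ ∃ y ∈ D, y ∈ Bx 1 x}

/-- the `*`-cluster of `u` in `B` -/
def cl (B : Set (V d)) (u : V d) : Set (V d) := {v | SJoin B u v}

/-- `z` is outside `B` and is not separated from the far point `w0` by any `*`-cluster of `B`. -/
def Free (B : Set (V d)) (w0 : V d) (z : V d) : Prop :=
  z ∉ B ∧ ∀ u ∈ B, NJoin (cl B u)ᶜ z w0

/-- all `*`-clusters of `B` have radius at most `k`, and `w0` is far from all of them -/
structure Small (B : Set (V d)) (k : ℕ) (w0 : V d) : Prop where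
  small : ∀ u ∈ B, ∀ v, SJoin B u v → v ∈ Bx k u
  far : ∀ u ∈ B, w0 ∉ Bx k u

end Ein99
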