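import Pool.Agent.LibEin99.E_Chi

/-!
TASK E_CLT1. From the CLT for the simple random walk to a limit theorem for the lazy walk.

`Ln ω n g x = ∑_{k ≤ n} (n choose k) 2^{-n} Pn 0 l ω k g x` (`Lz = (1 + Pop)/2`, commute; note
`Pop 0 0 = Pop 0 l` because `exp(0 * _) = 1`). Let `f_T(t) = min (t²) T` (bounded, Lipschitz).
Write `a_k(s) = ∫ Pn 0 l ω k (x ↦ f_T(s · dot l x/√k)) 0 d(nu)`. `IsDiff` gives
`a_k(s) → tha ∫ f_T(s t) d gaussian` for every `s`, in fact uniformly for `s ∈ [0,1]` (equicontinuity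
in `s`? simplest: monotone in `s` and the limit is continuous (Polya/Dini), or use that
`min((s t)², T)` is uniformly continuous in `s ∈ [0,1]` uniformly in `t`:
`|min((s t)²,T) - min((s' t)²,T)| ≤ T |s² - s'²|/min(s,s')²`...).
Then `∫ Ln ω n (x ↦ f_T(dot l x/√n)) 0 = ∑_k Bin(n,k) a_k(√(k/n))`; the binomial weights concentrate
on `|k - n/2| ≤ n^{2/3}` (Chebyshev: variance `n/4`), where `√(k/n) → √(1/2)`, and
`∫ f_T(t/√2) d gaussianReal 0 s = ∫ f_T d gaussianReal 0 (s/2)`
(`gaussianReal_map_const_mul`-type lemma). Everything is bounded by `T`.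
-/

open MeasureTheory ProbabilityTheory Filter Topology
open scoped ENNReal

namespace Ein99

variable {d : ℕ}

private theorem eclt_Pop_zero (l l' : Fin d → ℝ) (ω : Om d) : Pop 0 l ω = Pop 0 l' ω := by
  have hw : ∀ x δ, wt 0 l ω x δ = wt 0 l' ω x δ := by
    intro x δ
    simp [wt]
  funext g x
  have hz : Zw 0 l ω x = Zw 0 l' ω x := by
    unfold Zw
    exact Finset.sum_congr rfl fun δ _ => hw x δ
  unfold Pop
  simp only [hz, hw]

/-- pointwise bound of the weights: Pascal step. -/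
private theorem eclt_pascal (n : ℕ) (a : ℕ → ℝ) :
    ∑ k ∈ Finset.range (n + 2), ((n + 1).choose k : ℝ) / 2 ^ (n + 1) * a k =
      ((∑ k ∈ Finset.range (n + 1), (n.choose k : ℝ) / 2 ^ n * a k) +
        ∑ k ∈ Finset.range (n + 1), (n.choose k : ℝ) / 2 ^ n * a (k + 1)) / 2 := by
  have h1 : ∑ k ∈ Finset.range (n + 2), ((n + 1).choose k : ℝ) / 2 ^ (n + 1) * a k =
      (∑ k ∈ Finset.range (n + 1), ((n + 1).choose (k + 1) : ℝ) / 2 ^ (n + 1) * a (k + 1)) +
        1 / 2 ^ (n + 1) * a 0 := by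
    rw [Finset.sum_range_succ']
    simp
  have h2 : ∑ k ∈ Finset.range (n + 1), (n.choose k : ℝ) / 2 ^ n * a k =
      (∑ k ∈ Finset.range (n + 1), (n.choose (k + 1) : ℝ) / 2 ^ n * a (k + 1)) +
        1 / 2 ^ n * a 0 := by
    have h3 : ∑ k ∈ Finset.range (n + 2), (n.choose k : ℝ) / 2 ^ n * a k =
        ∑ k ∈ Finset.range (n + 1), (n.choose k : ℝ) / 2 ^ n * a k := by
      rw [Finset.sum_range_succ _ (n + 1)]
      simp
    rw [← h3, Finset.sum_range_succ']
    simp
  rw [h1, h2]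
  have h4 : ∀ k, ((n + 1).choose (k + 1) : ℝ) / 2 ^ (n + 1) * a (k + 1) =
      ((n.choose (k + 1) : ℝ) / 2 ^ n * a (k + 1)) / 2 +
        ((n.choose k : ℝ) / 2 ^ n * a (k + 1)) / 2 := by
    intro k
    rw [Nat.choose_succ_succ]
    push_cast
    rw [pow_succ]
    ring
  simp_rw [h4]
  rw [Finset.sum_add_distrib, ← Finset.sum_div, ← Finset.sum_div, pow_succ]
  ring

theorem Ln_binomial (l : Fin d → ℝ) (ω : Om d) (n : ℕ) (g : V d → ℝ) (x : V d) :
    Ln ω n g x = ∑ k ∈ Finset.range (n + 1), (n.choose k : ℝ) / 2 ^ n * Pn 0 l ω k g x := by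
  induction n generalizing x with
  | zero =>
    simp [Ln_zero, Pn_zero]
  | succ n ih =>
    rw [Ln_succ]
    have hfun : Ln ω n g = ∑ k ∈ Finset.range (n + 1), ((n.choose k : ℝ) / 2 ^ n) • Pn 0 l ω k g := by
      funext y
      rw [ih y, Finset.sum_apply]
      rfl
    have hP : Pop 0 0 ω (Ln ω n g) x =
        ∑ k ∈ Finset.range (n + 1), (n.choose k : ℝ) / 2 ^ n * Pn 0 l ω (k + 1) g x := by
      rw [eclt_Pop_zero 0 l, hfun]
      have h1 : Pop 0 l ω (∑ k ∈ Finset.range (n + 1), ((n.choose k : ℝ) / 2 ^ n) • Pn 0 l ω k g) =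
          Pn 0 l ω 1 (∑ k ∈ Finset.range (n + 1), ((n.choose k : ℝ) / 2 ^ n) • Pn 0 l ω k g) := by
        rfl
      rw [h1, Pn_sum, Finset.sum_apply]
      refine Finset.sum_congr rfl fun k _ => ?_
      rw [Pn_smul, Pi.smul_apply, smul_eq_mul, ← Pn_add_time, Nat.add_comm 1 k]
    rw [Lz, hP, ih x, eclt_pascal]

private theorem eclt_Pn_bound (l : Fin d → ℝ) (ω : Om d) (k : ℕ) {g : V d → ℝ} {C : ℝ}
    (hg : ∀ y, |g y| ≤ C) (x : V d) : |Pn 0 l ω k g x| ≤ C := by
  have h1 : Pn 0 l ω k g x ≤ C := by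
    have := Pn_mono 0 l ω k (h := fun _ => C) (fun y => (abs_le.1 (hg y)).2) x
    rwa [Pn_const] at this
  have h2 : -C ≤ Pn 0 l ω k g x := by
    have := Pn_mono 0 l ω k (g := fun _ => -C) (fun y => (abs_le.1 (hg y)).1) x
    rwa [Pn_const] at this
  exact abs_le.2 ⟨h2, h1⟩

private instance eclt_fin (p : unitInterval) : IsFiniteMeasure (nu d p) := by
  unfold nu; infer_instance

private theorem eclt_tha_le (p : unitInterval) : (nu d p).real Set.univ ≤ 1 := by
  unfold nu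
  rw [measureReal_restrict_apply_univ]
  exact measureReal_le_one

private theorem eclt_int (p : unitInterval) (l : Fin d → ℝ) (k : ℕ) {g : V d → ℝ} {C : ℝ}
    (hg : ∀ y, |g y| ≤ C) : Integrable (fun ω => Pn 0 l ω k g 0) (nu d p) := by
  refine Integrable.of_bound
    (measurable_Pn 0 l k (fun _ => g) (fun y => measurable_const) 0).aestronglyMeasurable C
    (Eventually.of_forall fun ω => ?_)
  exact eclt_Pn_bound l ω k hg 0

private theorem eclt_diff (p : unitInterval) (l : Fin d → ℝ) (k : ℕ) {g h : V d → ℝ} {C c : ℝ}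
    (hc : 0 ≤ c) (hg : ∀ y, |g y| ≤ C) (hh : ∀ y, |h y| ≤ C) (hgh : ∀ y, |g y - h y| ≤ c) :
    |(∫ ω, Pn 0 l ω k g 0 ∂(nu d p)) - ∫ ω, Pn 0 l ω k h 0 ∂(nu d p)| ≤ c := by
  rw [← integral_sub (eclt_int p l k hg) (eclt_int p l k hh)]
  have h1 : ∀ ω, ‖Pn 0 l ω k g 0 - Pn 0 l ω k h 0‖ ≤ c := by
    intro ω
    have : Pn 0 l ω k g 0 - Pn 0 l ω k h 0 = Pn 0 l ω k (g - h) 0 := by
      rw [Pn_sub]; rfl
    rw [this]
    exact eclt_Pn_bound l ω k hgh 0
  have h2 := norm_integral_le_of_norm_le_const (μ := nu d p) (Eventually.of_forall h1)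
  rw [Real.norm_eq_abs] at h2
  refine h2.trans ?_
  calc c * (nu d p).real Set.univ ≤ c * 1 := mul_le_mul_of_nonneg_left (eclt_tha_le p) hc
    _ = c := mul_one c

/-- comparison of truncated squares -/
private theorem eclt_min {u ρ T : ℝ} (hu : 0 ≤ u) (hρ : 0 ≤ ρ) (hT : 0 < T) :
    |min (ρ * u) T - min u T| ≤ |ρ - 1| * T := by
  have hm0 : 0 ≤ min u T := le_min hu hT.le
  have hmT : min u T ≤ T := min_le_right _ _
  rcases le_total ρ 1 with h | h
  · -- `ρ ≤ 1`
    have h1 : min (ρ * u) T ≤ min u T := min_le_min_right _ (by nlinarith)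
    have h2 : ρ * min u T ≤ min (ρ * u) T := by
      refine le_min (mul_le_mul_of_nonneg_left (min_le_left _ _) hρ) ?_
      nlinarith
    rw [abs_of_nonpos (by linarith), abs_of_nonpos (by linarith)]
    nlinarith
  · have h1 : min u T ≤ min (ρ * u) T := min_le_min_right _ (by nlinarith)
    have h2 : min (ρ * u) T ≤ ρ * min u T := by
      rcases le_total u T with h3 | h3
      · rw [min_eq_left h3]; exact min_le_left _ _
      · rw [min_eq_right h3]
        exact (min_le_right _ _).trans (by nlinarith)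
    rw [abs_of_nonneg (by linarith), abs_of_nonneg (by linarith)]
    nlinarith

private theorem eclt_w_sum (n : ℕ) :
    ∑ k ∈ Finset.range (n + 1), (n.choose k : ℝ) / 2 ^ n = 1 := by
  rw [← Finset.sum_div]
  have h := Nat.sum_range_choose n
  have h' : ∑ k ∈ Finset.range (n + 1), (n.choose k : ℝ) = 2 ^ n := by exact_mod_cast h
  rw [h', div_self (by positivity)]

private theorem eclt_var (n : ℕ) (hn : n ≠ 0) :
    ∑ k ∈ Finset.range (n + 1), (n.choose k : ℝ) / 2 ^ n * (2 * (k : ℝ) / (n : ℝ) - 1) ^ 2 =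
      (1 : ℝ) / (n : ℝ) := by
  have h1 := congrArg (Polynomial.eval (1 / 2 : ℝ)) (bernsteinPolynomial.variance ℝ n)
  simp only [bernsteinPolynomial, nsmul_eq_mul, Polynomial.eval_finsetSum, Polynomial.eval_mul,
    Polynomial.eval_pow, Polynomial.eval_sub, Polynomial.eval_natCast, Polynomial.eval_X,
    Polynomial.eval_one] at h1
  have hn' : (n : ℝ) ≠ 0 := by exact_mod_cast hn
  have h2 : ∀ k ∈ Finset.range (n + 1),
      (n.choose k : ℝ) / 2 ^ n * (2 * (k : ℝ) / (n : ℝ) - 1) ^ 2 =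
      (4 / (n : ℝ) ^ 2) * (((n : ℝ) * (1 / 2 : ℝ) - (k : ℝ)) ^ 2 *
        ((n.choose k : ℝ) * (1 / 2 : ℝ) ^ k * (1 - 1 / 2 : ℝ) ^ (n - k))) := by
    intro k hk
    have hk' : k ≤ n := Nat.lt_succ_iff.1 (Finset.mem_range.1 hk)
    have e : ((1 : ℝ) / 2) ^ k * (1 - 1 / 2) ^ (n - k) = 1 / 2 ^ n := by
      have : (1 : ℝ) - 1 / 2 = 1 / 2 := by norm_num
      rw [this, ← pow_add, Nat.add_sub_cancel' hk', one_div_pow]
    calc (n.choose k : ℝ) / 2 ^ n * (2 * k / n - 1) ^ 2
        = 4 / (n : ℝ) ^ 2 * (((n : ℝ) * (1 / 2) - k) ^ 2 * ((n.choose k : ℝ) * (1 / 2 ^ n))) := by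
          field_simp
          ring
      _ = _ := by rw [← e]; ring
  rw [Finset.sum_congr rfl h2, ← Finset.mul_sum, h1]
  field_simp
  norm_num

/-- Silverman–Toeplitz for the binomial weights. -/
private theorem eclt_toeplitz {b : ℕ → ℝ} {β B : ℝ} (hb : Tendsto b atTop (𝓝 β))
    (hB : ∀ k, |b k - β| ≤ B) :
    Tendsto (fun n : ℕ => ∑ k ∈ Finset.range (n + 1), (n.choose k : ℝ) / 2 ^ n * b k) atTop
      (𝓝 β) := by
  rw [Metric.tendsto_atTop]
  intro ε hε
  have hB0 : 0 ≤ B := (abs_nonneg _).trans (hB 0)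
  obtain ⟨K, hK⟩ := Metric.tendsto_atTop.1 hb (ε / 2) (by linarith)
  have hlim : Tendsto (fun n : ℕ => (K : ℝ) * ((n : ℝ) ^ K / 2 ^ n) * B) atTop (𝓝 0) := by
    have h1 := tendsto_pow_const_div_const_pow_of_one_lt K (r := (2 : ℝ)) (by norm_num)
    have h2 := (h1.const_mul (K : ℝ)).mul_const B
    simpa using h2
  obtain ⟨N, hN⟩ := Metric.tendsto_atTop.1 hlim (ε / 2) (by linarith)
  refine ⟨max N 1, fun n hn => ?_⟩
  have hn1 : 1 ≤ n := (le_max_right _ _).trans hn
  have h3 := hN n ((le_max_left _ _).trans hn)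
  rw [Real.dist_eq, sub_zero] at h3
  have h3' : (K : ℝ) * ((n : ℝ) ^ K / 2 ^ n) * B < ε / 2 := (le_abs_self _).trans_lt h3
  rw [Real.dist_eq]
  have e1 : (∑ k ∈ Finset.range (n + 1), (n.choose k : ℝ) / 2 ^ n * b k) - β =
      ∑ k ∈ Finset.range (n + 1), (n.choose k : ℝ) / 2 ^ n * (b k - β) := by
    simp_rw [mul_sub]
    rw [Finset.sum_sub_distrib, ← Finset.sum_mul, eclt_w_sum, one_mul]
  rw [e1]
  have hw : ∀ k, 0 ≤ (n.choose k : ℝ) / 2 ^ n := fun k => by positivity
  have h4 : ∀ k ∈ Finset.range (n + 1), |(n.choose k : ℝ) / 2 ^ n * (b k - β)| ≤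
      (n.choose k : ℝ) / 2 ^ n * (ε / 2) + (if k < K then (n : ℝ) ^ K / 2 ^ n * B else 0) := by
    intro k _
    rw [abs_mul, abs_of_nonneg (hw k)]
    by_cases hk : k < K
    · rw [if_pos hk]
      have c1 : (n.choose k : ℝ) ≤ (n : ℝ) ^ K := by
        have c2 : n.choose k ≤ n ^ k := Nat.choose_le_pow n k
        have c3 : n ^ k ≤ n ^ K := Nat.pow_le_pow_right hn1 hk.le
        exact_mod_cast c2.trans c3
      have c4 : (n.choose k : ℝ) / 2 ^ n ≤ (n : ℝ) ^ K / 2 ^ n := by gcongr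
      have c5 : (n.choose k : ℝ) / 2 ^ n * |b k - β| ≤ (n : ℝ) ^ K / 2 ^ n * B :=
        mul_le_mul c4 (hB k) (abs_nonneg _) (by positivity)
      have c6 : 0 ≤ (n.choose k : ℝ) / 2 ^ n * (ε / 2) := mul_nonneg (hw k) (by linarith)
      linarith
    · rw [if_neg hk, add_zero]
      have c1 := hK k (not_lt.1 hk)
      rw [Real.dist_eq] at c1
      exact mul_le_mul_of_nonneg_left c1.le (hw k)
  refine (Finset.abs_sum_le_sum_abs _ _).trans_lt ?_
  refine (Finset.sum_le_sum h4).trans_lt ?_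
  rw [Finset.sum_add_distrib, ← Finset.sum_mul, eclt_w_sum, one_mul]
  have h5 : ∑ k ∈ Finset.range (n + 1), (if k < K then (n : ℝ) ^ K / 2 ^ n * B else 0) ≤
      (K : ℝ) * ((n : ℝ) ^ K / 2 ^ n) * B := by
    rw [← Finset.sum_filter, Finset.sum_const, nsmul_eq_mul]
    have h6 : ((Finset.range (n + 1)).filter (fun k => k < K)).card ≤ K := by
      have h7 : (Finset.range (n + 1)).filter (fun k => k < K) ⊆ Finset.range K := by
        intro k hk
        exact Finset.mem_range.2 (Finset.mem_filter.1 hk).2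
      simpa using Finset.card_le_card h7
    have h8 : (0 : ℝ) ≤ (n : ℝ) ^ K / 2 ^ n * B := by positivity
    calc (((Finset.range (n + 1)).filter (fun k => k < K)).card : ℝ) * ((n : ℝ) ^ K / 2 ^ n * B)
        ≤ (K : ℝ) * ((n : ℝ) ^ K / 2 ^ n * B) :=
          mul_le_mul_of_nonneg_right (by exact_mod_cast h6) h8
      _ = (K : ℝ) * ((n : ℝ) ^ K / 2 ^ n) * B := by ring
  linarith

private theorem eclt_gauss_scale (s : NNReal) (T : ℝ) :
    ∫ t, min (t ^ 2 / 2) T ∂(gaussianReal 0 s) = ∫ t, min (t ^ 2) T ∂(gaussianReal 0 (s / 2)) := by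
  have hc : (Real.sqrt (1 / 2)) ^ 2 = 1 / 2 := Real.sq_sqrt (by norm_num)
  have h1 := gaussianReal_map_const_mul (μ := 0) (v := s) (Real.sqrt (1 / 2))
  have h2 : (NNReal.mk (Real.sqrt (1 / 2) ^ 2) (sq_nonneg _)) * s = s / 2 := by
    apply NNReal.eq
    push_cast
    rw [hc]
    ring
  rw [h2, mul_zero] at h1
  rw [← h1, integral_map (by fun_prop) (by fun_prop)]
  refine integral_congr_ae (Eventually.of_forall fun t => ?_)
  simp only
  rw [mul_pow, hc]
  congr 1
  ring

theorem lazy_clt (p : unitInterval) (l : Fin d → ℝ) (s : NNReal) (h : IsDiff d p l s)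
    (T : ℝ) (hT : 0 < T) :
    Tendsto (fun n : ℕ => ∫ ω, Ln ω n (fun x => min (dot l x ^ 2 / n) T) 0 ∂(nu d p)) atTop
      (𝓝 (tha d p * ∫ t, min (t ^ 2) T ∂(gaussianReal 0 (s / 2)))) := by
  have hgT : ∀ u : ℝ, 0 ≤ u → |min u T| ≤ T := fun u hu => by
    rw [abs_of_nonneg (le_min hu hT.le)]
    exact min_le_right _ _
  let f0 : BoundedContinuousFunction ℝ ℝ := BoundedContinuousFunction.ofNormedAddCommGroup
    (fun t : ℝ => min (t ^ 2 / 2) T) (by fun_prop) T
    (fun t => by rw [Real.norm_eq_abs]; exact hgT _ (by positivity))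
  obtain ⟨β, hβ⟩ : ∃ β, β = tha d p * ∫ t, min (t ^ 2) T ∂(gaussianReal 0 (s / 2)) := ⟨_, rfl⟩
  rw [← hβ]
  let b : ℕ → ℝ := fun k =>
    ∫ ω, Pn 0 l ω k (fun y => min ((dot l y / Real.sqrt k) ^ 2 / 2) T) 0 ∂(nu d p)
  have hb : Tendsto b atTop (𝓝 β) := by
    have h1 := h f0
    rw [hβ, ← eclt_gauss_scale]
    exact h1
  let A : ℕ → ℕ → ℝ := fun n k =>
    ∫ ω, Pn 0 l ω k (fun x => min (dot l x ^ 2 / n) T) 0 ∂(nu d p)
  have hA : ∀ n k : ℕ, n ≠ 0 → |A n k - b k| ≤ |2 * (k : ℝ) / (n : ℝ) - 1| * T := by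
    intro n k hn
    have hn0 : (0 : ℝ) < (n : ℝ) := by
      have := Nat.pos_of_ne_zero hn
      exact_mod_cast this
    rcases Nat.eq_zero_or_pos k with hk | hk
    · subst hk
      have e1 : A n 0 = b 0 := by
        simp only [A, b, Pn_zero]
        have e2 : dot l (0 : V d) = 0 := by simp [dot]
        rw [e2]
        simp
      rw [e1, sub_self, abs_zero]
      exact mul_nonneg (abs_nonneg _) hT.le
    · have hk0 : (0 : ℝ) < (k : ℝ) := by exact_mod_cast hk
      refine eclt_diff p l k (C := T) (mul_nonneg (abs_nonneg _) hT.le)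
        (fun y => hgT _ (by positivity)) (fun y => hgT _ (by positivity)) (fun y => ?_)
      have e1 : dot l y ^ 2 / (n : ℝ) =
          (2 * (k : ℝ) / (n : ℝ)) * ((dot l y / Real.sqrt k) ^ 2 / 2) := by
        rw [div_pow, Real.sq_sqrt hk0.le]
        field_simp
      rw [e1]
      exact eclt_min (by positivity) (by positivity) hT
  have hLn : ∀ n : ℕ, ∫ ω, Ln ω n (fun x => min (dot l x ^ 2 / n) T) 0 ∂(nu d p) =
      ∑ k ∈ Finset.range (n + 1), (n.choose k : ℝ) / 2 ^ n * A n k := by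
    intro n
    have e1 : ∀ ω : Om d, Ln ω n (fun x => min (dot l x ^ 2 / n) T) 0 =
        ∑ k ∈ Finset.range (n + 1), (n.choose k : ℝ) / 2 ^ n *
          Pn 0 l ω k (fun x => min (dot l x ^ 2 / n) T) 0 :=
      fun ω => Ln_binomial l ω n _ 0
    simp_rw [e1]
    rw [integral_finsetSum _ (fun k _ => (eclt_int p l k
      (fun y => hgT _ (by positivity))).const_mul _)]
    refine Finset.sum_congr rfl fun k _ => ?_
    rw [integral_const_mul]
  have hbT : ∀ k, |b k| ≤ T := by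
    intro k
    have h1 : ∀ ω : Om d,
        ‖Pn 0 l ω k (fun y => min ((dot l y / Real.sqrt k) ^ 2 / 2) T) 0‖ ≤ T :=
      fun ω => eclt_Pn_bound l ω k (fun y => hgT _ (by positivity)) 0
    have h2 := norm_integral_le_of_norm_le_const (μ := nu d p) (Eventually.of_forall h1)
    rw [Real.norm_eq_abs] at h2
    refine h2.trans ?_
    calc T * (nu d p).real Set.univ ≤ T * 1 := mul_le_mul_of_nonneg_left (eclt_tha_le p) hT.le
      _ = T := mul_one T
  have hT1 := eclt_toeplitz hb (B := T + |β|) (fun k =>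
    (abs_sub _ _).trans (add_le_add_left (hbT k) _))
  have hdiff : Tendsto (fun n : ℕ => ∑ k ∈ Finset.range (n + 1),
      (n.choose k : ℝ) / 2 ^ n * (A n k - b k)) atTop (𝓝 0) := by
    have hlim : Tendsto (fun n : ℕ => T * (1 / Real.sqrt n)) atTop (𝓝 0) := by
      have h1 : Tendsto (fun n : ℕ => Real.sqrt (n : ℝ)) atTop atTop :=
        Real.tendsto_sqrt_atTop.comp tendsto_natCast_atTop_atTop
      have h2 := (tendsto_inv_atTop_zero.comp h1).const_mul T
      simpa [one_div, Function.comp_def] using h2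
    refine squeeze_zero_norm' ?_ hlim
    filter_upwards [eventually_ge_atTop 1] with n hn
    have hn' : n ≠ 0 := by omega
    have hn0 : (0 : ℝ) < (n : ℝ) := by exact_mod_cast hn
    have hs0 : 0 < Real.sqrt (n : ℝ) := Real.sqrt_pos.2 hn0
    have hsq : Real.sqrt (n : ℝ) * Real.sqrt (n : ℝ) = n := Real.mul_self_sqrt hn0.le
    rw [Real.norm_eq_abs]
    have hw : ∀ k, 0 ≤ (n.choose k : ℝ) / 2 ^ n := fun k => by positivity
    calc |∑ k ∈ Finset.range (n + 1), (n.choose k : ℝ) / 2 ^ n * (A n k - b k)|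
        ≤ ∑ k ∈ Finset.range (n + 1), |(n.choose k : ℝ) / 2 ^ n * (A n k - b k)| :=
          Finset.abs_sum_le_sum_abs _ _
      _ ≤ ∑ k ∈ Finset.range (n + 1), (T / 2 * (1 / Real.sqrt n) * ((n.choose k : ℝ) / 2 ^ n) +
            T / 2 * Real.sqrt n *
              ((n.choose k : ℝ) / 2 ^ n * (2 * (k : ℝ) / (n : ℝ) - 1) ^ 2)) := by
          refine Finset.sum_le_sum fun k _ => ?_
          rw [abs_mul, abs_of_nonneg (hw k)]
          have h1 := hA n k hn'
          set x : ℝ := 2 * (k : ℝ) / (n : ℝ) - 1 with hx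
          have h2 : |x| ≤ (1 / Real.sqrt n + Real.sqrt n * x ^ 2) / 2 := by
            have h3 : 0 ≤ (Real.sqrt n * |x| - 1) ^ 2 / Real.sqrt n := by positivity
            have h4 : (Real.sqrt n * |x| - 1) ^ 2 / Real.sqrt n =
                Real.sqrt n * x ^ 2 - 2 * |x| + 1 / Real.sqrt n := by
              rw [← sq_abs x]
              field_simp
              ring
            rw [h4] at h3
            linarith
          have h5 : |A n k - b k| ≤ (1 / Real.sqrt n + Real.sqrt n * x ^ 2) / 2 * T :=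
            h1.trans (mul_le_mul_of_nonneg_right h2 hT.le)
          have h6 := mul_le_mul_of_nonneg_left h5 (hw k)
          refine h6.trans (le_of_eq ?_)
          ring
      _ = T / 2 * (1 / Real.sqrt n) + T / 2 * Real.sqrt n * (1 / n) := by
          rw [Finset.sum_add_distrib, ← Finset.mul_sum, ← Finset.mul_sum, eclt_w_sum,
            eclt_var n hn', mul_one]
      _ = T * (1 / Real.sqrt n) := by
          have h7 : Real.sqrt (n : ℝ) * (1 / (n : ℝ)) = 1 / Real.sqrt n := by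
            rw [eq_div_iff hs0.ne', mul_comm (Real.sqrt (n : ℝ)) (1 / (n : ℝ)), mul_assoc, hsq]
            field_simp
          rw [mul_assoc (T / 2) (Real.sqrt (n : ℝ)), h7]
          ring
  have hsum := hT1.add hdiff
  rw [add_zero] at hsum
  refine hsum.congr fun n => ?_
  rw [hLn n, ← Finset.sum_add_distrib]
  refine Finset.sum_congr rfl fun k _ => ?_
  ring

/-- monotone convergence for the Gaussian second moment -/
theorem gauss_trunc (s : NNReal) :
    Tendsto (fun T : ℝ => ∫ t, min (t ^ 2) T ∂(gaussianReal 0 s)) atTop (𝓝 (s : ℝ)) := by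
  have h2 : Integrable (fun t : ℝ => t ^ 2) (gaussianReal 0 s) :=
    (memLp_id_gaussianReal (μ := 0) (v := s) 2).integrable_sq
  have h3 : ∫ t : ℝ, t ^ 2 ∂(gaussianReal 0 s) = s := by
    have hv := variance_id_gaussianReal (μ := 0) (v := s)
    rw [variance_eq_integral (by fun_prop)] at hv
    simpa using hv
  rw [← h3]
  refine tendsto_integral_filter_of_dominated_convergence (fun t => t ^ 2) ?_ ?_ h2 ?_
  · exact Eventually.of_forall fun T => by fun_prop
  · filter_upwards [eventually_ge_atTop 0] with T hT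
    refine Eventually.of_forall fun t => ?_
    rw [Real.norm_eq_abs, abs_of_nonneg (le_min (sq_nonneg t) hT)]
    exact min_le_left _ _
  · refine Eventually.of_forall fun t => ?_
    refine tendsto_const_nhds.congr' ?_
    filter_upwards [eventually_ge_atTop (t ^ 2)] with T hT
    rw [min_eq_left hT]

end Ein99
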