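import Pool.Agent.LibEin99.C_Shift
import Pool.Agent.LibEin99.C_Loc2

/-!
TASK E_Lln. The `L¹` law of large numbers for translations of the percolation measure.

Approximation: for integrable `F` and `ε > 0` there are a finite set of edges `S` and a local
function `F'` on `S` with `∫ |F - F'| ≤ ε` (e.g. Levy's upward theorem: conditional expectations with
respect to the σ-algebras generated by the edges in growing finite sets converge in `L¹`; or: the
sets which can be approximated by local sets form a σ-algebra (`MeasurableSpace.induction_on_inter`)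
containing the generators, then simple functions).
For local `F'` (bounded by `M`, radius `r`) with mean `m'`: `F'(sh (j•z) ω) - m'` and
`F'(sh (i•z) ω) - m'` are independent and centred when `|i - j| > 2r+1` (`Loc.integral_mul`), so
`E((1/k)∑ (F'∘sh - m'))² ≤ (2(2r+1)+1) (2M)²/k → 0`.
-/

open MeasureTheory ProbabilityTheory Filter Topology
open scoped ENNReal

namespace Ein99

variable {d : ℕ}

/-- restriction to the edges of a box -/
def rsE (n : ℕ) (ω : Om d) : (EB n (0 : V d) → Bool) := fun e => ω e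

theorem measurable_rsE (n : ℕ) : Measurable (rsE n : Om d → (EB n (0 : V d) → Bool)) :=
  measurable_pi_lambda _ (fun e => measurable_pi_apply _)

/-- the σ-algebra of the edges of a box -/
def FE (n : ℕ) : MeasurableSpace (Om d) := MeasurableSpace.comap (rsE n) inferInstance

theorem loc_of_meas (n : ℕ) (g : Om d → ℝ) (hg : Measurable[FE n] g) :
    Loc (EB n (0 : V d) : Set (Ed d)) g := by
  intro ω ω' H
  have h1 : MeasurableSet[FE n] (g ⁻¹' {g ω}) := hg (measurableSet_singleton _)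
  obtain ⟨A, hA, hA2⟩ := h1
  have h2 : rsE n ω = rsE n ω' := by
    funext e
    exact H e e.2
  have h3 : ω ∈ rsE n ⁻¹' A := by
    rw [hA2]
    simp
  have h4 : ω' ∈ rsE n ⁻¹' A := by
    rw [Set.mem_preimage] at h3 ⊢
    rwa [← h2]
  rw [hA2] at h4
  exact h4.symm

theorem FE_mono : Monotone (FE : ℕ → MeasurableSpace (Om d)) := by
  intro n m hnm
  unfold FE
  rw [MeasurableSpace.comap_le_iff_le_map]
  have h : Measurable[FE m] (rsE n : Om d → (EB n (0 : V d) → Bool)) := by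
    refine @measurable_pi_lambda _ _ _ (FE m) _ _ (fun e => ?_)
    have h1 : (fun ω : Om d => rsE n ω e) =
        (fun a : (EB m (0 : V d) → Bool) => a ⟨e.1, EB_mono hnm 0 e.2⟩) ∘ rsE m := rfl
    rw [h1]
    exact (measurable_pi_apply _).comp (comap_measurable _)
  exact measurable_iff_le_map.1 h

theorem FE_le (n : ℕ) : FE n ≤ (inferInstance : MeasurableSpace (Om d)) :=
  (measurable_rsE n).comap_le

/-- The filtration of the boxes. -/
def FilE (d : ℕ) : Filtration ℕ (inferInstance : MeasurableSpace (Om d)) where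
  seq := FE
  mono' := FE_mono
  le' := FE_le

theorem exists_mem_EB (e : Ed d) : ∃ n : ℕ, e ∈ EB n (0 : V d) := by
  refine ⟨∑ i, (e.1 i).natAbs + 1, ?_⟩
  rw [mem_EB]
  have h0 : e.1 ∈ Bx (∑ i, (e.1 i).natAbs) (0 : V d) := by
    rw [mem_Bx]
    intro i
    have h1 : (e.1 i).natAbs ≤ ∑ i, (e.1 i).natAbs :=
      Finset.single_le_sum (f := fun i => (e.1 i).natAbs) (fun _ _ => Nat.zero_le _)
        (Finset.mem_univ i)
    simp only [Pi.zero_apply, sub_zero]
    rw [Int.abs_eq_natAbs]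
    exact_mod_cast h1
  exact ⟨Bx_mono (Nat.le_succ _) _ h0, Bx_trans h0 (add_st_mem_Bx _ _)⟩

theorem iSup_FE : (⨆ n, (FE n : MeasurableSpace (Om d))) = MeasurableSpace.pi := by
  apply le_antisymm
  · exact iSup_le FE_le
  · show MeasurableSpace.pi ≤ _
    refine iSup_le fun e => ?_
    obtain ⟨n, hn⟩ := exists_mem_EB e
    refine le_trans ?_ (le_iSup (fun n => (FE n : MeasurableSpace (Om d))) n)
    rw [MeasurableSpace.comap_le_iff_le_map]
    have h : Measurable[FE n] (fun ω : Om d => ω e) := by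
      have h1 : (fun ω : Om d => ω e) =
          (fun a : (EB n (0 : V d) → Bool) => a ⟨e, hn⟩) ∘ rsE n := rfl
      rw [h1]
      exact (measurable_pi_apply _).comp (comap_measurable _)
    exact measurable_iff_le_map.1 h

theorem local_approx (p : unitInterval) (F : Om d → ℝ) (hF : Integrable F (Pr d p)) (ε : ℝ)
    (hε : 0 < ε) : ∃ (r : ℕ) (F' : Om d → ℝ), Loc (EB r (0 : V d) : Set (Ed d)) F' ∧
      ∫ ω, |F ω - F' ω| ∂(Pr d p) ≤ ε := by
  obtain ⟨G, hG, hFG⟩ := hF.1
  have hGi : Integrable G (Pr d p) := hF.congr hFG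
  have hsm : StronglyMeasurable[⨆ n, FilE d n] G := by
    have : (⨆ n, FilE d n) = (inferInstance : MeasurableSpace (Om d)) := iSup_FE
    rw [this]
    exact hG
  have h1 := hGi.tendsto_eLpNorm_condExp hsm
  have h2 : ∀ᶠ n in atTop, eLpNorm ((Pr d p)[G | FilE d n] - G) 1 (Pr d p) < ENNReal.ofReal ε :=
    h1.eventually (gt_mem_nhds (by simpa using hε))
  obtain ⟨n, hn⟩ := h2.exists
  refine ⟨n, (Pr d p)[G | FilE d n], ?_, ?_⟩
  · exact loc_of_meas n _ (stronglyMeasurable_condExp (m := FilE d n)).measurable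
  · have h3 : Integrable (fun ω => F ω - ((Pr d p)[G | FilE d n]) ω) (Pr d p) :=
      hF.sub integrable_condExp
    have h4 : ∫ ω, |F ω - ((Pr d p)[G | FilE d n]) ω| ∂(Pr d p)
        = (eLpNorm ((Pr d p)[G | FilE d n] - G) 1 (Pr d p)).toReal := by
      rw [eLpNorm_one_eq_lintegral_enorm, ← integral_norm_eq_lintegral_enorm]
      · apply integral_congr_ae
        filter_upwards [hFG] with ω hω
        rw [hω, Pi.sub_apply, Real.norm_eq_abs, abs_sub_comm]
      · exact (integrable_condExp.sub hGi).1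
    rw [h4]
    exact (ENNReal.toReal_le_of_le_ofReal hε.le hn.le)

/-- Second moment of the averages of a centred local function. -/
theorem var_local (p : unitInterval) (r : ℕ) (G : Om d → ℝ)
    (hG : Loc (EB r (0 : V d) : Set (Ed d)) G) (M : ℝ) (hM : ∀ ω, |G ω| ≤ M)
    (h0 : ∫ ω, G ω ∂(Pr d p) = 0) (z : V d) (hz : z ≠ 0) (k : ℕ) :
    ∫ ω, (∑ j ∈ Finset.range k, G (sh ((j : ℤ) • z) ω)) ^ 2 ∂(Pr d p)
      ≤ k * ((4 * r + 1) * M ^ 2) := by
  have hM0 : 0 ≤ M := (abs_nonneg _).trans (hM (fun _ => false))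
  have hloc : ∀ j : ℕ, Loc (EB r ((0 : V d) + (j : ℤ) • z) : Set (Ed d))
      (fun ω : Om d => G (sh ((j : ℤ) • z) ω)) := fun j => Loc_sh r 0 _ hG
  have hint : ∀ i j : ℕ, Integrable (fun ω : Om d => G (sh ((i : ℤ) • z) ω) *
      G (sh ((j : ℤ) • z) ω)) (Pr d p) := by
    intro i j
    refine Integrable.of_bound (((Loc.measurable _ (hloc i)).mul
      (Loc.measurable _ (hloc j))).aestronglyMeasurable) (M * M) ?_
    refine Filter.Eventually.of_forall fun ω => ?_
    rw [Real.norm_eq_abs, abs_mul]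
    exact mul_le_mul (hM _) (hM _) (abs_nonneg _) hM0
  have hz0 : ∀ i j : ℕ, 2 * (r : ℤ) < |(i : ℤ) - j| →
      ∫ ω, G (sh ((i : ℤ) • z) ω) * G (sh ((j : ℤ) • z) ω) ∂(Pr d p) = 0 := by
    intro i j hij
    have hdis : Disjoint (EB r ((0 : V d) + (i : ℤ) • z)) (EB r ((0 : V d) + (j : ℤ) • z)) := by
      rw [Finset.disjoint_left]
      intro e he1 he2
      rw [mem_EB] at he1 he2
      have a1 := mem_Bx.1 he1.1
      have a2 := mem_Bx.1 he2.1
      obtain ⟨c, hc⟩ := Function.ne_iff.1 hz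
      have b1 := a1 c
      have b2 := a2 c
      simp only [zero_add, Pi.smul_apply, smul_eq_mul] at b1 b2
      have hc1 : (1 : ℤ) ≤ |z c| := Int.one_le_abs hc
      have h3 : |((i : ℤ) - j) * z c| ≤ 2 * r := by
        have : ((i : ℤ) - j) * z c = (e.1 c - (j : ℤ) * z c) - (e.1 c - (i : ℤ) * z c) := by ring
        rw [this]
        have := abs_sub (e.1 c - (j : ℤ) * z c) (e.1 c - (i : ℤ) * z c)
        linarith
      rw [abs_mul] at h3
      have h4 : |(i : ℤ) - j| * 1 ≤ |(i : ℤ) - j| * |z c| :=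
        mul_le_mul_of_nonneg_left hc1 (abs_nonneg _)
      linarith
    rw [Loc.integral_mul p _ _ hdis (hloc i) (hloc j)]
    have : ∫ ω, G (sh ((i : ℤ) • z) ω) ∂(Pr d p) = 0 := by
      rw [← h0]
      have hm := mp_sh p ((i : ℤ) • z)
      have := integral_map (μ := Pr d p) (φ := sh ((i : ℤ) • z)) (measurable_sh _).aemeasurable
        (f := G) (Loc.measurable _ hG).aestronglyMeasurable
      rw [map_sh] at this
      exact this.symm
    rw [this, zero_mul]
  have hle : ∀ i j : ℕ, ∫ ω, G (sh ((i : ℤ) • z) ω) * G (sh ((j : ℤ) • z) ω) ∂(Pr d p)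
      ≤ if |(i : ℤ) - j| ≤ 2 * r then M ^ 2 else 0 := by
    intro i j
    split_ifs with h
    · have : ∫ ω, G (sh ((i : ℤ) • z) ω) * G (sh ((j : ℤ) • z) ω) ∂(Pr d p)
          ≤ ∫ _ω, M ^ 2 ∂(Pr d p) := by
        apply integral_mono (hint i j) (integrable_const _)
        intro ω
        calc G (sh ((i : ℤ) • z) ω) * G (sh ((j : ℤ) • z) ω)
            ≤ |G (sh ((i : ℤ) • z) ω) * G (sh ((j : ℤ) • z) ω)| := le_abs_self _
          _ = |G (sh ((i : ℤ) • z) ω)| * |G (sh ((j : ℤ) • z) ω)| := abs_mul _ _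
          _ ≤ M * M := mul_le_mul (hM _) (hM _) (abs_nonneg _) hM0
          _ = M ^ 2 := by ring
      simpa using this
    · exact (hz0 i j (not_le.1 h)).le
  have hexp : ∀ ω : Om d, (∑ j ∈ Finset.range k, G (sh ((j : ℤ) • z) ω)) ^ 2
      = ∑ i ∈ Finset.range k, ∑ j ∈ Finset.range k,
        G (sh ((i : ℤ) • z) ω) * G (sh ((j : ℤ) • z) ω) := by
    intro ω
    rw [sq, Finset.sum_mul_sum]
  simp only [hexp]
  rw [integral_finsetSum _ (fun i _ => integrable_finsetSum _ (fun j _ => hint i j))]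
  have hrow : ∀ i ∈ Finset.range k,
      ∫ ω, ∑ j ∈ Finset.range k, G (sh ((i : ℤ) • z) ω) * G (sh ((j : ℤ) • z) ω) ∂(Pr d p)
      ≤ (4 * r + 1) * M ^ 2 := by
    intro i _
    rw [integral_finsetSum _ (fun j _ => hint i j)]
    calc ∑ j ∈ Finset.range k, ∫ ω, G (sh ((i : ℤ) • z) ω) * G (sh ((j : ℤ) • z) ω) ∂(Pr d p)
        ≤ ∑ j ∈ Finset.range k, (if |(i : ℤ) - j| ≤ 2 * r then M ^ 2 else 0) :=
          Finset.sum_le_sum (fun j _ => hle i j)
      _ = ((Finset.range k).filter (fun j : ℕ => |(i : ℤ) - j| ≤ 2 * r)).card * M ^ 2 := by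
          rw [Finset.sum_ite, Finset.sum_const_zero, add_zero, Finset.sum_const, nsmul_eq_mul]
      _ ≤ (4 * r + 1) * M ^ 2 := by
          apply mul_le_mul_of_nonneg_right _ (sq_nonneg M)
          have hc : ((Finset.range k).filter (fun j : ℕ => |(i : ℤ) - j| ≤ 2 * r)).card
              ≤ (Finset.Icc (i - 2 * r) (i + 2 * r)).card := by
            apply Finset.card_le_card
            intro j hj
            rw [Finset.mem_filter] at hj
            have := abs_le.1 hj.2
            rw [Finset.mem_Icc]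
            omega
          rw [Nat.card_Icc] at hc
          have hc2 : ((Finset.range k).filter (fun j : ℕ => |(i : ℤ) - j| ≤ 2 * r)).card
              ≤ 4 * r + 1 := by omega
          exact_mod_cast hc2
  calc _ ≤ ∑ _i ∈ Finset.range k, ((4 * r + 1) * M ^ 2 : ℝ) := Finset.sum_le_sum hrow
    _ = k * ((4 * r + 1) * M ^ 2) := by
        rw [Finset.sum_const, Finset.card_range, nsmul_eq_mul]

theorem integral_abs_le_sqrt {Ω : Type*} [MeasurableSpace Ω] (μ : Measure Ω)
    [IsProbabilityMeasure μ] (f : Ω → ℝ) (h2 : Integrable (fun ω => f ω ^ 2) μ) (t : ℝ) (ht : 0 < t) :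
    ∫ ω, |f ω| ∂μ ≤ t + (1 / t) * ∫ ω, f ω ^ 2 ∂μ := by
  have h1 : ∀ ω, |f ω| ≤ t + (1 / t) * f ω ^ 2 := by
    intro ω
    have h3 : 0 ≤ (|f ω| - t) ^ 2 := sq_nonneg _
    have h4 : |f ω| ^ 2 = f ω ^ 2 := sq_abs _
    have h5 : t * |f ω| ≤ t * (t + (1 / t) * f ω ^ 2) := by
      have : t * (t + (1 / t) * f ω ^ 2) = t ^ 2 + f ω ^ 2 := by field_simp
      rw [this]
      nlinarith [abs_nonneg (f ω)]
    exact le_of_mul_le_mul_left h5 ht
  have h3 : Integrable (fun ω => t + (1 / t) * f ω ^ 2) μ :=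
    (integrable_const _).add (h2.const_mul _)
  calc ∫ ω, |f ω| ∂μ ≤ ∫ ω, (t + (1 / t) * f ω ^ 2) ∂μ := by
        apply integral_mono_of_nonneg (Filter.Eventually.of_forall fun ω => abs_nonneg _) h3
        exact Filter.Eventually.of_forall h1
    _ = t + (1 / t) * ∫ ω, f ω ^ 2 ∂μ := by
        rw [integral_add (integrable_const _) (h2.const_mul _), integral_const_mul]
        simp

theorem integral_sh (p : unitInterval) (F : Om d → ℝ) (hF : AEStronglyMeasurable F (Pr d p))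
    (z : V d) : ∫ ω, F (sh z ω) ∂(Pr d p) = ∫ ω, F ω ∂(Pr d p) := by
  have := integral_map (μ := Pr d p) (φ := sh z) (measurable_sh _).aemeasurable
    (f := F) (by rw [map_sh]; exact hF)
  rw [map_sh] at this
  exact this.symm

theorem integrable_sh (p : unitInterval) (F : Om d → ℝ) (hF : Integrable F (Pr d p))
    (z : V d) : Integrable (fun ω => F (sh z ω)) (Pr d p) :=
  (mp_sh p z).integrable_comp_of_integrable hF

theorem lln_shift (p : unitInterval) (F : Om d → ℝ) (hF : Integrable F (Pr d p)) (z : V d)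
    (hz : z ≠ 0) :
    Tendsto (fun k : ℕ => ∫ ω, |(1 / (k : ℝ)) * ∑ j ∈ Finset.range k, F (sh ((j : ℤ) • z) ω)
      - ∫ ω', F ω' ∂(Pr d p)| ∂(Pr d p)) atTop (𝓝 0) := by
  rw [Metric.tendsto_atTop]
  intro ε hε
  obtain ⟨r, F', hloc, happ⟩ := local_approx p F hF (ε / 5) (by positivity)
  obtain ⟨M0, hM0⟩ := Loc.bounded _ hloc
  have hF'i : Integrable F' (Pr d p) := Loc.integrable p _ hloc
  set m : ℝ := ∫ ω', F ω' ∂(Pr d p) with hm
  set m' : ℝ := ∫ ω', F' ω' ∂(Pr d p) with hm'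
  set G : Om d → ℝ := fun ω => F' ω - m' with hGdef
  have hGloc : Loc (EB r (0 : V d) : Set (Ed d)) G := by
    intro ω ω' H
    simp only [hGdef]
    rw [hloc ω ω' H]
  obtain ⟨M, hM⟩ := Loc.bounded _ hGloc
  have hM00 : 0 ≤ M := (abs_nonneg _).trans (hM (fun _ => false))
  have hG0 : ∫ ω, G ω ∂(Pr d p) = 0 := by
    simp only [hGdef]
    rw [integral_sub hF'i (integrable_const _)]
    simp [hm']
  have hmm : |m' - m| ≤ ε / 5 := by
    have h1 : m' - m = ∫ ω, (F' ω - F ω) ∂(Pr d p) := by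
      rw [integral_sub hF'i hF]
    rw [h1]
    calc |∫ ω, (F' ω - F ω) ∂(Pr d p)| ≤ ∫ ω, |F' ω - F ω| ∂(Pr d p) :=
          abs_integral_le_integral_abs
      _ = ∫ ω, |F ω - F' ω| ∂(Pr d p) := by
          apply integral_congr_ae
          exact Filter.Eventually.of_forall fun ω => abs_sub_comm _ _
      _ ≤ ε / 5 := happ
  obtain ⟨k0, hk0⟩ := exists_nat_gt ((5 / ε) ^ 2 * ((4 * r + 1) * M ^ 2))
  refine ⟨k0 + 1, fun k hk => ?_⟩
  have hkpos : (0 : ℝ) < k := by
    have : 0 < k := by omega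
    exact_mod_cast this
  have hkge : ((5 / ε) ^ 2 * ((4 * r + 1) * M ^ 2)) ≤ (k : ℝ) := by
    have : (k0 : ℝ) ≤ k := by exact_mod_cast (by omega : k0 ≤ k)
    linarith
  have hdecomp : ∀ ω : Om d, |(1 / (k : ℝ)) * ∑ j ∈ Finset.range k, F (sh ((j : ℤ) • z) ω) - m|
      ≤ (1 / (k : ℝ)) * ∑ j ∈ Finset.range k, |F (sh ((j : ℤ) • z) ω) - F' (sh ((j : ℤ) • z) ω)|
        + |(1 / (k : ℝ)) * ∑ j ∈ Finset.range k, G (sh ((j : ℤ) • z) ω)| + |m' - m| := by
    intro ω
    have e1 : (1 / (k : ℝ)) * ∑ j ∈ Finset.range k, F (sh ((j : ℤ) • z) ω) - m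
        = (1 / (k : ℝ)) * ∑ j ∈ Finset.range k, (F (sh ((j : ℤ) • z) ω) - F' (sh ((j : ℤ) • z) ω))
          + (1 / (k : ℝ)) * ∑ j ∈ Finset.range k, G (sh ((j : ℤ) • z) ω) + (m' - m) := by
      simp only [hGdef, Finset.sum_sub_distrib, Finset.sum_const, Finset.card_range, nsmul_eq_mul]
      field_simp
      ring
    rw [e1]
    refine (abs_add_le _ _).trans (add_le_add_left ((abs_add_le _ _).trans
      (add_le_add_left ?_ _)) _)
    rw [abs_mul, abs_of_nonneg (by positivity : (0 : ℝ) ≤ 1 / (k : ℝ))]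
    exact mul_le_mul_of_nonneg_left (Finset.abs_sum_le_sum_abs _ _) (by positivity)
  have hi1 : ∀ j : ℕ, Integrable (fun ω : Om d =>
      |F (sh ((j : ℤ) • z) ω) - F' (sh ((j : ℤ) • z) ω)|) (Pr d p) := fun j =>
    ((integrable_sh p F hF _).sub (integrable_sh p F' hF'i _)).abs
  have hlocs : ∀ j : ℕ, Integrable (fun ω : Om d => G (sh ((j : ℤ) • z) ω)) (Pr d p) := fun j =>
    integrable_sh p G (Loc.integrable p _ hGloc) _
  have hi2 : Integrable (fun ω : Om d =>
      (1 / (k : ℝ)) * ∑ j ∈ Finset.range k, G (sh ((j : ℤ) • z) ω)) (Pr d p) :=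
    (integrable_finsetSum _ (fun j _ => hlocs j)).const_mul _
  have hsq : Integrable (fun ω : Om d =>
      ((1 / (k : ℝ)) * ∑ j ∈ Finset.range k, G (sh ((j : ℤ) • z) ω)) ^ 2) (Pr d p) := by
    refine Integrable.of_bound (hi2.1.pow 2) (M ^ 2) (Filter.Eventually.of_forall fun ω => ?_)
    rw [Real.norm_eq_abs, abs_pow]
    apply pow_le_pow_left₀ (abs_nonneg _)
    rw [abs_mul, abs_of_nonneg (by positivity : (0 : ℝ) ≤ 1 / (k : ℝ))]
    have : |∑ j ∈ Finset.range k, G (sh ((j : ℤ) • z) ω)| ≤ k * M := by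
      refine (Finset.abs_sum_le_sum_abs _ _).trans ?_
      refine (Finset.sum_le_sum (fun j _ => hM _)).trans ?_
      rw [Finset.sum_const, Finset.card_range, nsmul_eq_mul]
    calc (1 / (k : ℝ)) * |∑ j ∈ Finset.range k, G (sh ((j : ℤ) • z) ω)|
        ≤ (1 / (k : ℝ)) * (k * M) := mul_le_mul_of_nonneg_left this (by positivity)
      _ = M := by field_simp
  have hvar := var_local p r G hGloc M hM hG0 z hz k
  have hsqle : ∫ ω, ((1 / (k : ℝ)) * ∑ j ∈ Finset.range k, G (sh ((j : ℤ) • z) ω)) ^ 2 ∂(Pr d p)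
      ≤ (ε / 5) ^ 2 := by
    have e1 : ∀ ω : Om d, ((1 / (k : ℝ)) * ∑ j ∈ Finset.range k, G (sh ((j : ℤ) • z) ω)) ^ 2
        = (1 / (k : ℝ)) ^ 2 * (∑ j ∈ Finset.range k, G (sh ((j : ℤ) • z) ω)) ^ 2 := by
      intro ω; ring
    simp only [e1]
    rw [integral_const_mul]
    calc (1 / (k : ℝ)) ^ 2 * ∫ ω, (∑ j ∈ Finset.range k, G (sh ((j : ℤ) • z) ω)) ^ 2 ∂(Pr d p)
        ≤ (1 / (k : ℝ)) ^ 2 * (k * ((4 * r + 1) * M ^ 2)) :=
          mul_le_mul_of_nonneg_left hvar (by positivity)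
      _ = ((4 * r + 1) * M ^ 2) / k := by field_simp
      _ ≤ (ε / 5) ^ 2 := by
          rw [div_le_iff₀ hkpos]
          have h5 : (ε / 5) ^ 2 * ((5 / ε) ^ 2 * ((4 * r + 1) * M ^ 2)) = (4 * r + 1) * M ^ 2 := by
            field_simp
          rw [← h5]
          exact mul_le_mul_of_nonneg_left hkge (by positivity)
  have habs := integral_abs_le_sqrt (Pr d p) _ hsq (ε / 5) (by positivity)
  have habs2 : ∫ ω, |(1 / (k : ℝ)) * ∑ j ∈ Finset.range k, G (sh ((j : ℤ) • z) ω)| ∂(Pr d p)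
      ≤ 2 * (ε / 5) := by
    refine habs.trans ?_
    have : (1 / (ε / 5)) * ∫ ω, ((1 / (k : ℝ)) * ∑ j ∈ Finset.range k, G (sh ((j : ℤ) • z) ω)) ^ 2
        ∂(Pr d p) ≤ (1 / (ε / 5)) * (ε / 5) ^ 2 := mul_le_mul_of_nonneg_left hsqle (by positivity)
    have e : (1 / (ε / 5)) * (ε / 5) ^ 2 = ε / 5 := by field_simp
    linarith
  have hbig : ∫ ω, |(1 / (k : ℝ)) * ∑ j ∈ Finset.range k, F (sh ((j : ℤ) • z) ω) - m| ∂(Pr d p)
      ≤ ε / 5 + 2 * (ε / 5) + ε / 5 := by
    have hI1 : Integrable (fun ω : Om d => (1 / (k : ℝ)) * ∑ j ∈ Finset.range k,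
        |F (sh ((j : ℤ) • z) ω) - F' (sh ((j : ℤ) • z) ω)|) (Pr d p) :=
      (integrable_finsetSum _ (fun j _ => hi1 j)).const_mul _
    calc ∫ ω, |(1 / (k : ℝ)) * ∑ j ∈ Finset.range k, F (sh ((j : ℤ) • z) ω) - m| ∂(Pr d p)
        ≤ ∫ ω, ((1 / (k : ℝ)) * ∑ j ∈ Finset.range k,
            |F (sh ((j : ℤ) • z) ω) - F' (sh ((j : ℤ) • z) ω)|
          + |(1 / (k : ℝ)) * ∑ j ∈ Finset.range k, G (sh ((j : ℤ) • z) ω)| + |m' - m|) ∂(Pr d p) := by
          apply integral_mono_of_nonneg (Filter.Eventually.of_forall fun ω => abs_nonneg _)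
            ((hI1.add hi2.abs).add (integrable_const _))
          exact Filter.Eventually.of_forall hdecomp
      _ = ∫ ω, (1 / (k : ℝ)) * ∑ j ∈ Finset.range k,
            |F (sh ((j : ℤ) • z) ω) - F' (sh ((j : ℤ) • z) ω)| ∂(Pr d p)
          + ∫ ω, |(1 / (k : ℝ)) * ∑ j ∈ Finset.range k, G (sh ((j : ℤ) • z) ω)| ∂(Pr d p)
          + |m' - m| := by
          have hIs : Integrable (fun ω : Om d => (1 / (k : ℝ)) * ∑ j ∈ Finset.range k,
              |F (sh ((j : ℤ) • z) ω) - F' (sh ((j : ℤ) • z) ω)|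
              + |(1 / (k : ℝ)) * ∑ j ∈ Finset.range k, G (sh ((j : ℤ) • z) ω)|) (Pr d p) :=
            hI1.add hi2.abs
          rw [integral_add hIs (integrable_const _), integral_add hI1 hi2.abs]
          simp
      _ ≤ ε / 5 + 2 * (ε / 5) + ε / 5 := by
          refine add_le_add (add_le_add ?_ habs2) hmm
          rw [integral_const_mul, integral_finsetSum _ (fun j _ => hi1 j)]
          have : ∀ j ∈ Finset.range k, ∫ ω, |F (sh ((j : ℤ) • z) ω) - F' (sh ((j : ℤ) • z) ω)|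
              ∂(Pr d p) ≤ ε / 5 := by
            intro j _
            have := integral_sh p (fun ω => |F ω - F' ω|) (hF.sub hF'i).abs.1 ((j : ℤ) • z)
            rw [this]
            exact happ
          calc (1 / (k : ℝ)) * ∑ j ∈ Finset.range k, ∫ ω, |F (sh ((j : ℤ) • z) ω)
                - F' (sh ((j : ℤ) • z) ω)| ∂(Pr d p)
              ≤ (1 / (k : ℝ)) * ∑ _j ∈ Finset.range k, ε / 5 :=
                mul_le_mul_of_nonneg_left (Finset.sum_le_sum this) (by positivity)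
            _ = ε / 5 := by
                rw [Finset.sum_const, Finset.card_range, nsmul_eq_mul]
                field_simp
  rw [Real.dist_eq, sub_zero, abs_of_nonneg (integral_nonneg fun ω => abs_nonneg _)]
  linarith

/-- A translation invariant integrable function is almost surely constant. -/
theorem ae_const_of_invariant (p : unitInterval) (F : Om d → ℝ) (hF : Integrable F (Pr d p))
    (z : V d) (hz : z ≠ 0) (hinv : ∀ᵐ ω ∂(Pr d p), F (sh z ω) = F ω) :
    ∀ᵐ ω ∂(Pr d p), F ω = ∫ ω', F ω' ∂(Pr d p) := by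
  have hj : ∀ j : ℕ, ∀ᵐ ω ∂(Pr d p), F (sh ((j : ℤ) • z) ω) = F ω := by
    intro j
    induction j with
    | zero =>
      refine Filter.Eventually.of_forall fun ω => ?_
      simp [sh_zero]
    | succ j ih =>
      have h1 := (mp_sh p z).quasiMeasurePreserving.ae ih
      filter_upwards [h1, hinv] with ω h2 h3
      rw [sh_sh] at h2
      rw [← h3, ← h2]
      congr 2
      push_cast
      module
  have hall : ∀ᵐ ω ∂(Pr d p), ∀ j : ℕ, F (sh ((j : ℤ) • z) ω) = F ω := ae_all_iff.2 hj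
  have hlim := lln_shift p F hF z hz
  set m : ℝ := ∫ ω', F ω' ∂(Pr d p) with hm
  have hconst : ∀ k : ℕ, 1 ≤ k → ∫ ω, |(1 / (k : ℝ)) * ∑ j ∈ Finset.range k,
      F (sh ((j : ℤ) • z) ω) - m| ∂(Pr d p) = ∫ ω, |F ω - m| ∂(Pr d p) := by
    intro k hk
    apply integral_congr_ae
    filter_upwards [hall] with ω hω
    have : (k : ℝ) ≠ 0 := by
      have : 0 < k := hk
      positivity
    simp only [hω, Finset.sum_const, Finset.card_range, nsmul_eq_mul]
    congr 2
    field_simp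
  have h0 : ∫ ω, |F ω - m| ∂(Pr d p) = 0 := by
    have h1 : Tendsto (fun k : ℕ => ∫ ω, |(1 / (k : ℝ)) * ∑ j ∈ Finset.range k,
        F (sh ((j : ℤ) • z) ω) - m| ∂(Pr d p)) atTop (𝓝 (∫ ω, |F ω - m| ∂(Pr d p))) := by
      apply tendsto_const_nhds.congr'
      filter_upwards [eventually_ge_atTop 1] with k hk
      exact (hconst k hk).symm
    exact tendsto_nhds_unique h1 hlim
  have hI : Integrable (fun ω => |F ω - m|) (Pr d p) := (hF.sub (integrable_const m)).abs
  have h1 : (fun ω => |F ω - m|) =ᵐ[Pr d p] 0 := by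
    rw [← integral_eq_zero_iff_of_nonneg (fun ω => abs_nonneg _) hI]
    exact h0
  filter_upwards [h1] with ω hω
  have : |F ω - m| = 0 := hω
  have := abs_eq_zero.1 this
  linarith

end Ein99
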