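import Pool.Agent.LibEin99.Defs3
import Pool.Agent.LibEin99.C_Tail
import Pool.Agent.LibEin99.C_Loc2

/-!
E_Root. Properties of the canonical root `rg` and of its local version `rl`.
-/

open MeasureTheory ProbabilityTheory Filter Topology

namespace Ein99

variable {d : ℕ} {p : unitInterval} {K : ℕ} {C c : ℝ}

private theorem pick_mem {s : Finset (V d)} (h : s.Nonempty) : pick s ∈ s := by
  unfold pick
  rw [dif_pos h]
  exact h.choose_spec

private theorem pick_mem_or (s : Finset (V d)) : pick s ∈ s ∨ pick s = 0 := by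
  by_cases h : s.Nonempty
  · exact Or.inl (pick_mem h)
  · right
    unfold pick
    rw [dif_neg h]

private theorem exists_box (x : V d) : ∃ k : ℕ, x ∈ Bx k (0 : V d) := by
  refine ⟨∑ i, (x i).natAbs, mem_Bx.2 fun i => ?_⟩
  have h : (x i).natAbs ≤ ∑ i, (x i).natAbs :=
    Finset.single_le_sum (f := fun i => (x i).natAbs) (fun _ _ => Nat.zero_le _)
      (Finset.mem_univ i)
  simp only [Pi.zero_apply, sub_zero]
  rw [Int.abs_eq_natAbs]
  exact_mod_cast h

private theorem rgR_mem (ω : Om d) (h : ∃ x : V d, InfC ω x) :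
    ∃ w ∈ Bx (rgR ω) (0 : V d), InfC ω w := by
  have hne : {k : ℕ | ∃ w ∈ Bx k (0 : V d), InfC ω w}.Nonempty := by
    obtain ⟨x, hx⟩ := h
    obtain ⟨k, hk⟩ := exists_box x
    exact ⟨k, x, hk, hx⟩
  exact Nat.sInf_mem hne

theorem rg_spec (ω : Om d) (h : ∃ x : V d, InfC ω x) :
    InfC ω (rg ω) ∧ rg ω ∈ Bx (rgR ω) (0 : V d) := by
  classical
  obtain ⟨w, hw, hw2⟩ := rgR_mem ω h
  have hm : rg ω ∈ (Bx (rgR ω) (0 : V d)).filter (fun w => InfC ω w) :=
    pick_mem ⟨w, Finset.mem_filter.2 ⟨hw, hw2⟩⟩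
  rw [Finset.mem_filter] at hm
  exact ⟨hm.2, hm.1⟩

/-- if the origin is in the infinite cluster then it is its own root -/
theorem rg_eq_zero (ω : Om d) (h : InfC ω 0) : rg ω = 0 := by
  have h1 : rgR ω = 0 := by
    apply Nat.le_zero.1
    exact Nat.sInf_le ⟨0, self_mem_Bx 0 0, h⟩
  have h2 := (rg_spec ω ⟨0, h⟩).2
  rw [h1] at h2
  ext i
  have := mem_Bx.1 h2 i
  simp only [Pi.zero_apply, sub_zero, Nat.cast_zero, abs_nonpos_iff] at this
  simpa using this

private theorem sInf_eq_iff (S : Set ℕ) (k : ℕ) :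
    sInf S = k ↔ (k ∈ S ∨ (k = 0 ∧ ∀ j, j ∉ S)) ∧ ∀ j < k, j ∉ S := by
  constructor
  · rintro rfl
    refine ⟨?_, fun j hj => Nat.notMem_of_lt_sInf hj⟩
    by_cases hS : S.Nonempty
    · exact Or.inl (Nat.sInf_mem hS)
    · rw [Set.not_nonempty_iff_eq_empty] at hS
      subst hS
      right
      exact ⟨by simp, fun j hj => hj⟩
  · rintro ⟨h1 | ⟨h1, h2⟩, h3⟩
    · apply le_antisymm (Nat.sInf_le h1)
      by_contra hlt
      push Not at hlt
      exact h3 _ hlt (Nat.sInf_mem ⟨k, h1⟩)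
    · subst h1
      have : S = ∅ := Set.eq_empty_of_forall_notMem h2
      rw [this]; simp

private theorem measurableSet_P (k : ℕ) :
    MeasurableSet {ω : Om d | ∃ w ∈ Bx k (0 : V d), InfC ω w} := by
  have : {ω : Om d | ∃ w ∈ Bx k (0 : V d), InfC ω w} =
      ⋃ w ∈ Bx k (0 : V d), {ω : Om d | InfC ω w} := by
    ext ω; simp
  rw [this]
  exact Finset.measurableSet_biUnion _ fun w _ => measurableSet_InfC w

theorem measurable_rgR : Measurable (rgR : Om d → ℕ) := by
  refine measurable_to_countable' fun k => ?_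
  have : (rgR ⁻¹' {k} : Set (Om d)) =
      ({ω : Om d | ∃ w ∈ Bx k (0 : V d), InfC ω w} ∪
        ({ω : Om d | k = 0} ∩ ⋂ j : ℕ, {ω : Om d | ∃ w ∈ Bx j (0 : V d), InfC ω w}ᶜ)) ∩
      ⋂ j ∈ Set.Iio k, {ω : Om d | ∃ w ∈ Bx j (0 : V d), InfC ω w}ᶜ := by
    ext ω
    simp only [Set.mem_preimage, Set.mem_singleton_iff]
    unfold rgR
    rw [sInf_eq_iff]
    simp
  rw [this]
  refine MeasurableSet.inter ((measurableSet_P k).union ((MeasurableSet.const _).inter
    (MeasurableSet.iInter fun j => (measurableSet_P j).compl))) ?_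
  exact MeasurableSet.biInter (Set.to_countable _) fun j _ => (measurableSet_P j).compl

open Classical in
private theorem measurableSet_filter (k : ℕ) (s : Finset (V d)) :
    MeasurableSet {ω : Om d | (Bx k (0 : V d)).filter (fun w => InfC ω w) = s} := by
  have : {ω : Om d | (Bx k (0 : V d)).filter (fun w => InfC ω w) = s} =
      ⋂ w : V d, {ω : Om d | (w ∈ Bx k (0 : V d) ∧ InfC ω w) ↔ w ∈ s} := by
    ext ω
    simp only [Set.mem_ofPred_eq, Set.mem_iInter, Finset.ext_iff, Finset.mem_filter]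
  rw [this]
  refine MeasurableSet.iInter fun w => ?_
  have h1 : MeasurableSet {ω : Om d | w ∈ Bx k (0 : V d) ∧ InfC ω w} :=
    (MeasurableSet.const _).inter (measurableSet_InfC w)
  by_cases hw : w ∈ s
  · simpa [hw] using h1
  · simp only [hw, iff_false]
    exact h1.compl

theorem measurable_rg : Measurable (rg : Om d → V d) := by
  classical
  refine measurable_to_countable' fun x => ?_
  have : (rg ⁻¹' {x} : Set (Om d)) = ⋃ k : ℕ, ⋃ s : {s : Finset (V d) // pick s = x},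
      (rgR ⁻¹' {k}) ∩ {ω : Om d | (Bx k (0 : V d)).filter (fun w => InfC ω w) = s.1} := by
    ext ω
    simp only [Set.mem_preimage, Set.mem_singleton_iff, Set.mem_iUnion, Set.mem_inter_iff,
      Set.mem_ofPred_eq]
    constructor
    · intro h
      refine ⟨rgR ω, ⟨(Bx (rgR ω) (0 : V d)).filter (fun w => InfC ω w), ?_⟩, rfl, rfl⟩
      rw [← h]
      unfold rg
      congr!
    · rintro ⟨k, ⟨s, hs⟩, h1, h2⟩
      subst h1
      rw [← hs]
      simp only at h2
      rw [← h2]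
      unfold rg
      congr!
  rw [this]
  refine MeasurableSet.iUnion fun k => MeasurableSet.iUnion fun s => ?_
  exact (measurable_rgR (measurableSet_singleton k)).inter (measurableSet_filter k s.1)

/-- the probability that the box of radius `k` does not meet the infinite cluster -/
private theorem no_inf_tail (hH : HypH d p K C c) (k : ℕ) (hk : 1 ≤ k) :
    (Pr d p).real {ω : Om d | ∀ w ∈ Bx k (0 : V d), ¬ InfC ω w} ≤
      C / (1 - Real.exp (-c)) * Real.exp (-c * k) := by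
  refine le_trans (measureReal_mono ?_ (by finiteness)) (tail_from hH k 0)
  intro ω hω
  simp only [Set.mem_ofPred_eq] at hω ⊢
  by_contra hcon
  push Not at hcon
  obtain ⟨x, hx, hx2⟩ := chain_infC K hH.hK ω 0 k hk hcon
  exact hω x hx hx2

private theorem const_pos (hH : HypH d p K C c) : 0 < C / (1 - Real.exp (-c)) := by
  have h1 := hH.hC
  have h2 : Real.exp (-c) < 1 := by
    rw [Real.exp_lt_one_iff]; linarith [hH.hc]
  exact div_pos h1 (by linarith)

private theorem no_inf_tail' (hH : HypH d p K C c) (k : ℕ) :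
    (Pr d p).real {ω : Om d | ∀ w ∈ Bx k (0 : V d), ¬ InfC ω w} ≤
      (C / (1 - Real.exp (-c)) + 1) * Real.exp (-c * k) := by
  have hA := const_pos hH
  rcases Nat.eq_zero_or_pos k with rfl | hk
  · simp only [Nat.cast_zero, mul_zero, Real.exp_zero, mul_one]
    have := measureReal_le_one (μ := Pr d p) (s := {ω : Om d | ∀ w ∈ Bx 0 (0 : V d), ¬ InfC ω w})
    linarith
  · refine (no_inf_tail hH k hk).trans ?_
    exact mul_le_mul_of_nonneg_right (by linarith) (Real.exp_pos _).le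

theorem rg_tail (hH : HypH d p K C c) : ∃ A : ℝ, 0 < A ∧ ∀ k : ℕ,
    (Pr d p).real {ω : Om d | k < rgR ω} ≤ A * Real.exp (-c * k) := by
  refine ⟨C / (1 - Real.exp (-c)) + 1, by linarith [const_pos hH], fun k => ?_⟩
  refine le_trans (measureReal_mono ?_ (by finiteness)) (no_inf_tail' hH k)
  intro ω hω w hw hinf
  simp only [Set.mem_ofPred_eq] at hω
  exact Nat.notMem_of_lt_sInf hω ⟨w, hw, hinf⟩

private theorem rlR_le (ρ : ℕ) (ω : Om d) : rlR ρ ω ≤ ρ := by
  by_cases h : {k : ℕ | k ≤ ρ ∧ ∃ w ∈ Bx k (0 : V d), ToBd ω ρ w w}.Nonempty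
  · exact (Nat.sInf_mem h).1
  · rw [Set.not_nonempty_iff_eq_empty] at h
    unfold rlR
    rw [h]; simp

theorem rl_mem (ρ : ℕ) (ω : Om d) : rl ρ ω ∈ Bx ρ (0 : V d) := by
  classical
  rcases pick_mem_or ((Bx (rlR ρ ω) (0 : V d)).filter (fun w => ToBd ω ρ w w)) with h | h
  · have h2 : rl ρ ω ∈ (Bx (rlR ρ ω) (0 : V d)).filter (fun w => ToBd ω ρ w w) := by
      unfold rl
      convert h
    exact Bx_mono (rlR_le ρ ω) 0 (Finset.mem_filter.1 h2).1
  · have h2 : rl ρ ω = 0 := by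
      unfold rl
      convert h
    rw [h2]
    exact self_mem_Bx ρ 0

/-- comparison of `rl` for two predicates -/
private theorem rl_congr (ρ : ℕ) (ω ω' : Om d)
    (h : ∀ w ∈ Bx ρ (0 : V d), ToBd ω ρ w w ↔ ToBd ω' ρ w w) : rl ρ ω = rl ρ ω' := by
  classical
  have h1 : rlR ρ ω = rlR ρ ω' := by
    unfold rlR
    congr 1
    ext k
    simp only [Set.mem_ofPred_eq]
    refine and_congr_right fun hk => ?_
    refine exists_congr fun w => and_congr_right fun hw => h w (Bx_mono hk 0 hw)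
  unfold rl
  rw [h1]
  congr 1
  ext w
  simp only [Finset.mem_filter]
  refine and_congr_right fun hw => h w (Bx_mono (rlR_le ρ ω') 0 hw)

theorem Loc_rl (ρ : ℕ) : Loc (EB (2 * ρ) (0 : V d) : Set (Ed d)) (rl ρ : Om d → V d) := by
  intro ω ω' h
  apply rl_congr
  intro w hw
  have h2 := Loc_ToBd ρ w w ω ω' (fun e he => h e (by
    have h3 := EB_subset (r := ρ) hw
    have h4 : EB (ρ + ρ) (0 : V d) = EB (2 * ρ) (0 : V d) := by rw [two_mul]
    rw [h4] at h3
    exact_mod_cast h3 (by exact_mod_cast he)))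
  exact iff_of_eq h2

/-- on the good event the local root is the root -/
private theorem rl_eq_rg (ρ : ℕ) (ω : Om d) (h1 : ∀ w ∈ Bx ρ (0 : V d), ToBd ω ρ w w → InfC ω w)
    (h2 : ∃ w ∈ Bx ρ (0 : V d), InfC ω w) : rl ρ ω = rg ω := by
  classical
  have hiff : ∀ w ∈ Bx ρ (0 : V d), (ToBd ω ρ w w ↔ InfC ω w) := fun w hw =>
    ⟨h1 w hw, fun h => toBd_of_InfC ω ρ (self_mem_Bx ρ w) h⟩
  have hle : rgR ω ≤ ρ := Nat.sInf_le h2
  obtain ⟨w0, hw0, hw0'⟩ := rgR_mem ω (h2.imp fun w hw => hw.2)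
  have hR : rlR ρ ω = rgR ω := by
    apply le_antisymm
    · exact Nat.sInf_le ⟨hle, w0, hw0, (hiff w0 (Bx_mono hle 0 hw0)).2 hw0'⟩
    · have hne : {k : ℕ | k ≤ ρ ∧ ∃ w ∈ Bx k (0 : V d), ToBd ω ρ w w}.Nonempty :=
        ⟨rgR ω, hle, w0, hw0, (hiff w0 (Bx_mono hle 0 hw0)).2 hw0'⟩
      obtain ⟨h3, w, hw, hw'⟩ := Nat.sInf_mem hne
      exact Nat.sInf_le ⟨w, hw, h1 w (Bx_mono h3 0 hw) hw'⟩
  unfold rl rg
  rw [hR]
  congr 1
  ext w
  simp only [Finset.mem_filter]
  refine and_congr_right fun hw => hiff w (Bx_mono hle 0 hw)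

theorem rl_eq (hH : HypH d p K C c) : ∃ A a : ℝ, 0 < A ∧ 0 < a ∧ ∀ ρ : ℕ,
    (Pr d p).real {ω : Om d | rl ρ ω ≠ rg ω} ≤ A * Real.exp (-a * ρ) := by
  obtain ⟨C', c', hC', hc', htail⟩ := tail_Lc hH
  have hA := const_pos hH
  have hc := hH.hc
  set B : ℝ := (d.factorial : ℝ) / (c' / 4) ^ d * Real.exp (c' / 4) with hB
  have hB0 : 0 < B := by positivity
  refine ⟨B * C' + (C / (1 - Real.exp (-c)) + 1), min (c' / 2) c, by positivity,
    lt_min (by linarith) hc, fun ρ => ?_⟩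
  have hρ : (0 : ℝ) ≤ ρ := Nat.cast_nonneg _
  have hsub : {ω : Om d | rl ρ ω ≠ rg ω} ⊆
      (⋃ w ∈ Bx ρ (0 : V d), {ω : Om d | ToBd ω ρ w w ∧ ¬ InfC ω w}) ∪
        {ω : Om d | ∀ w ∈ Bx ρ (0 : V d), ¬ InfC ω w} := by
    intro ω hω
    by_contra hcon
    simp only [Set.mem_union, Set.mem_iUnion, Set.mem_ofPred_eq, not_or, not_exists, not_and,
      not_not, not_forall] at hcon
    apply hω
    apply rl_eq_rg ρ ω
    · intro w hw hw2
      exact hcon.1 w hw hw2
    · obtain ⟨w, hw, hw2⟩ := hcon.2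
      exact ⟨w, hw, hw2⟩
  have hbox : ((Bx ρ (0 : V d)).card : ℝ) ≤ B * Real.exp (c' / 2 * ρ) := by
    rw [card_Bx]
    push_cast
    have hx : 0 ≤ c' / 4 * (2 * (ρ : ℝ) + 1) := by positivity
    have h1 := Real.pow_div_factorial_le_exp _ hx d
    rw [div_le_iff₀ (by positivity), mul_pow] at h1
    have h2 : (2 * (ρ : ℝ) + 1) ^ d ≤
        Real.exp (c' / 4 * (2 * (ρ : ℝ) + 1)) * d.factorial / (c' / 4) ^ d := by
      rw [le_div_iff₀ (by positivity)]
      linarith
    refine h2.trans (le_of_eq ?_)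
    rw [hB, show c' / 4 * (2 * (ρ : ℝ) + 1) = c' / 4 + c' / 2 * ρ by ring, Real.exp_add]
    ring
  calc (Pr d p).real {ω : Om d | rl ρ ω ≠ rg ω}
      ≤ (Pr d p).real ((⋃ w ∈ Bx ρ (0 : V d), {ω : Om d | ToBd ω ρ w w ∧ ¬ InfC ω w}) ∪
        {ω : Om d | ∀ w ∈ Bx ρ (0 : V d), ¬ InfC ω w}) := measureReal_mono hsub (by finiteness)
    _ ≤ (Pr d p).real (⋃ w ∈ Bx ρ (0 : V d), {ω : Om d | ToBd ω ρ w w ∧ ¬ InfC ω w}) +
        (Pr d p).real {ω : Om d | ∀ w ∈ Bx ρ (0 : V d), ¬ InfC ω w} := measureReal_union_le _ _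
    _ ≤ (∑ w ∈ Bx ρ (0 : V d), (Pr d p).real {ω : Om d | ToBd ω ρ w w ∧ ¬ InfC ω w}) +
        (C / (1 - Real.exp (-c)) + 1) * Real.exp (-c * ρ) := by
        apply add_le_add _ (no_inf_tail' hH ρ)
        exact measureReal_biUnion_finset_le _ _
    _ ≤ (∑ w ∈ Bx ρ (0 : V d), C' * Real.exp (-c' * ρ)) +
        (C / (1 - Real.exp (-c)) + 1) * Real.exp (-c * ρ) := by
        gcongr with w hw
        exact htail ρ w
    _ = ((Bx ρ (0 : V d)).card : ℝ) * (C' * Real.exp (-c' * ρ)) +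
        (C / (1 - Real.exp (-c)) + 1) * Real.exp (-c * ρ) := by
        rw [Finset.sum_const, nsmul_eq_mul]
    _ ≤ (B * Real.exp (c' / 2 * ρ)) * (C' * Real.exp (-c' * ρ)) +
        (C / (1 - Real.exp (-c)) + 1) * Real.exp (-c * ρ) := by gcongr
    _ = B * C' * Real.exp (-(c' / 2) * ρ) +
        (C / (1 - Real.exp (-c)) + 1) * Real.exp (-c * ρ) := by
        have : Real.exp (c' / 2 * ρ) * Real.exp (-c' * ρ) = Real.exp (-(c' / 2) * ρ) := by
          rw [← Real.exp_add]; ring_nf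
        rw [← this]; ring
    _ ≤ B * C' * Real.exp (-(min (c' / 2) c) * ρ) +
        (C / (1 - Real.exp (-c)) + 1) * Real.exp (-(min (c' / 2) c) * ρ) := by
        have e1 : Real.exp (-(c' / 2) * ρ) ≤ Real.exp (-(min (c' / 2) c) * ρ) := by
          apply Real.exp_le_exp.2
          have := min_le_left (c' / 2) c
          nlinarith
        have e2 : Real.exp (-c * ρ) ≤ Real.exp (-(min (c' / 2) c) * ρ) := by
          apply Real.exp_le_exp.2
          have := min_le_right (c' / 2) c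
          nlinarith
        have hBC : 0 ≤ B * C' := by positivity
        have hA' : 0 ≤ C / (1 - Real.exp (-c)) + 1 := by linarith
        exact add_le_add (mul_le_mul_of_nonneg_left e1 hBC) (mul_le_mul_of_nonneg_left e2 hA')
    _ = _ := by ring

/-- the point `y + rg (sh y ω)` is in the infinite cluster -/
theorem rg_sh_spec (ω : Om d) (h : ∃ x : V d, InfC ω x) (y : V d) :
    InfC ω (y + rg (sh y ω)) := by
  obtain ⟨x, hx⟩ := h
  have h1 : InfC (sh y ω) (x - y) := by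
    rw [InfC_sh, sub_add_cancel]; exact hx
  have h2 := (rg_spec (sh y ω) ⟨_, h1⟩).1
  rw [InfC_sh, add_comm] at h2
  exact h2

end Ein99
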