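import Pool.Agent.LibEin99.E_Op
import Pool.Agent.LibEin99.E_Root
import Pool.Agent.LibEin99.E_Lln

/-!
TASK E_Erg. Ergodicity of the environment seen from the lazy walk.

`fix_const`: let `f ∈ L²(nu)` with `∫ ∑_δ oo (gr f)² = 0`. By `ae_all_shift`, for a.e. `ω`:
`f (sh (x + st δ) ω) = f (sh x ω)` for all `x` with `InfC ω x` and `opn ω x δ`; so
`f (sh x ω) = f (sh y ω)` for all `x, y` in the (unique, `ae_unique`) infinite cluster. Let
`F ω = f (sh (rg ω) ω)` (measurable: `V d` is countable). For a.e. `ω` and every `z`: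
`F (sh z ω) = f (sh (rg (sh z ω) + z) ω) = F ω` (both points in the infinite cluster). `F` may not be
integrable; apply `ae_const_of_invariant` to a bounded injective transform, e.g. `arctan ∘ F`.
On `InfC ω 0`, `rg ω = 0` so `f = F` is constant.
`Ae_conv`: for bounded measurable `h` with `∫ dg h = 0`: `a_j = ∫ dg h Ae^[j] h` is nonnegative and
nonincreasing (`corr_nonneg`, `corr_antitone`) so converges; `∫ dg (Ae^[i] h - Ae^[j] h)² =
a_{2i} + a_{2j} - 2 a_{i+j} → 0`: Cauchy in `L²(nu)`, limit `h_∞ ∈ L²(nu)` with `Ae h_∞ = h_∞` a.e.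
(contraction), so `∫ ∑ oo (gr h_∞)² = 0` (`Ae_dirichlet`), `h_∞` is constant, and the constant is `0`
because `∫ dg Ae^[j] h = ∫ dg h = 0` (`Ae_mean`).
-/

open MeasureTheory ProbabilityTheory Filter Topology
open scoped ENNReal

namespace Ein99

variable {d : ℕ} {p : unitInterval} {K : ℕ} {C c : ℝ}

theorem erg_oo_nonneg (ω : Om d) (δ : Dir d) : 0 ≤ oo ω δ := by
  unfold oo; split_ifs <;> norm_num

theorem erg_dg_nonneg (ω : Om d) : 0 ≤ dg ω :=
  Finset.sum_nonneg (fun δ _ => erg_oo_nonneg ω δ)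

theorem erg_int_dg {f : Om d → ℝ} (hf : Integrable f (nu d p)) :
    Integrable (fun ω => dg ω * f ω) (nu d p) := by
  refine Integrable.bdd_mul hf measurable_dg.aestronglyMeasurable (c := 2 * d) ?_
  filter_upwards with ω
  rw [Real.norm_of_nonneg (erg_dg_nonneg ω)]
  exact dg_le ω

theorem erg_conn (f : Om d → ℝ) (ω : Om d)
    (h : ∀ x : V d, InfC ω x → ∀ δ, opn ω x δ → f (sh (x + st δ) ω) = f (sh x ω))
    {x y : V d} (hx : InfC ω x) (hc : Conn ω x y) : f (sh y ω) = f (sh x ω) := by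
  change Relation.ReflTransGen (Adj ω) x y at hc
  induction hc with
  | refl => rfl
  | tail hab hbc ih =>
    obtain ⟨δ, ho, rfl⟩ := hbc
    rw [h _ (InfC_of_conn ω hab hx) δ ho, ih]

theorem fix_const (hd : 1 ≤ d) (hH : HypH d p K C c) (f : Om d → ℝ) (hm : Measurable f)
    (hf : MemLp f 2 (nu d p))
    (h0 : ∫ ω, ∑ δ, oo ω δ * (gr f ω δ * gr f ω δ) ∂(nu d p) = 0) :
    ∃ m : ℝ, ∀ᵐ ω ∂(nu d p), f ω = m := by
  haveI : IsFiniteMeasure (nu d p) := by unfold nu; infer_instance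
  have hsq : Integrable (fun ω => f ω ^ 2) (nu d p) := hf.integrable_sq
  have hI1 : Integrable (fun ω => ∑ δ, oo ω δ * |(fun (ω : Om d) (_ : Dir d) => f ω ^ 2) ω δ|)
      (nu d p) := by
    have h1 : (fun ω => ∑ δ, oo ω δ * |(fun (ω : Om d) (_ : Dir d) => f ω ^ 2) ω δ|)
        = fun ω => dg ω * f ω ^ 2 := by
      funext ω
      simp only [abs_of_nonneg (sq_nonneg (f ω))]
      rw [← Finset.sum_mul]
      rfl
    rw [h1]
    exact erg_int_dg hsq
  have hI2 := rev_integrable p (fun ω _ => f ω ^ 2) (fun δ => hm.pow_const 2) hI1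
  have hgm : ∀ δ : Dir d, Measurable (fun ω => gr f ω δ) := fun δ =>
    (hm.comp (measurable_sh (st δ))).sub hm
  have hint : Integrable (fun ω => ∑ δ, oo ω δ * (gr f ω δ * gr f ω δ)) (nu d p) := by
    refine Integrable.mono' ((hI1.add hI2).const_mul 2) ?_ ?_
    · exact (Finset.measurable_sum _ (fun δ _ =>
        (measurable_oo δ).mul ((hgm δ).mul (hgm δ)))).aestronglyMeasurable
    · filter_upwards with ω
      rw [Real.norm_of_nonneg (Finset.sum_nonneg (fun δ _ =>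
        mul_nonneg (erg_oo_nonneg ω δ) (mul_self_nonneg _)))]
      simp only [Pi.add_apply]
      rw [← Finset.sum_add_distrib, Finset.mul_sum]
      refine Finset.sum_le_sum (fun δ _ => ?_)
      have h1 := erg_oo_nonneg ω δ
      rw [abs_of_nonneg (sq_nonneg _), abs_of_nonneg (sq_nonneg _)]
      have h2 : gr f ω δ * gr f ω δ ≤ 2 * (f ω ^ 2 + f (sh (st δ) ω) ^ 2) := by
        unfold gr
        nlinarith [sq_nonneg (f ω + f (sh (st δ) ω))]
      nlinarith [mul_le_mul_of_nonneg_left h2 h1]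
  have hae : ∀ᵐ ω ∂(nu d p), ∀ δ, opn ω 0 δ → f (sh (st δ) ω) = f ω := by
    have h1 := (integral_eq_zero_iff_of_nonneg (fun ω => Finset.sum_nonneg (fun δ _ =>
      mul_nonneg (erg_oo_nonneg ω δ) (mul_self_nonneg _))) hint).1 h0
    filter_upwards [h1] with ω hω δ ho
    have h2 : ∑ δ, oo ω δ * (gr f ω δ * gr f ω δ) = 0 := hω
    rw [Finset.sum_eq_zero_iff_of_nonneg (fun δ _ =>
      mul_nonneg (erg_oo_nonneg ω δ) (mul_self_nonneg _))] at h2
    have h3 := h2 δ (Finset.mem_univ δ)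
    have h4 : oo ω δ = 1 := by unfold oo; rw [if_pos ho]
    rw [h4, one_mul] at h3
    have h5 := mul_self_eq_zero.1 h3
    unfold gr at h5
    linarith
  have hall := ae_all_shift p _ hae
  have hFm : Measurable (fun ω : Om d => f (sh (rg ω) ω)) := by
    have h1 : Measurable (fun q : V d × Om d => f (sh q.1 q.2)) :=
      measurable_from_prod_countable_right (fun z => hm.comp (measurable_sh z))
    exact h1.comp (measurable_rg.prodMk measurable_id)
  have hG : Integrable (fun ω : Om d => Real.arctan (f (sh (rg ω) ω))) (Pr d p) := by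
    refine Integrable.of_bound (Real.measurable_arctan.comp hFm).aestronglyMeasurable
      (Real.pi / 2) ?_
    filter_upwards with ω
    rw [Real.norm_eq_abs, abs_le]
    exact ⟨(Real.neg_pi_div_two_lt_arctan _).le, (Real.arctan_lt_pi_div_two _).le⟩
  have hz : (st ((⟨0, hd⟩ : Fin d), true) : V d) ≠ 0 := by
    intro h
    have h1 := congrFun h (⟨0, hd⟩ : Fin d)
    simp [st] at h1
  have hkey : ∀ᵐ ω ∂(Pr d p), ∀ x y : V d, InfC ω x → InfC ω y →
      f (sh y ω) = f (sh x ω) := by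
    filter_upwards [hall, ae_unique hH] with ω h1 h3 x y hx hy
    refine erg_conn f ω ?_ hx (h3 x y hx hy)
    intro x hx δ ho
    have h5 := h1 x hx δ (by rw [opn_sh, zero_add]; exact ho)
    rw [sh_sh, add_comm (st δ) x] at h5
    exact h5
  have hinv : ∀ᵐ ω ∂(Pr d p), Real.arctan (f (sh (rg (sh (st ((⟨0, hd⟩ : Fin d), true)) ω))
      (sh (st ((⟨0, hd⟩ : Fin d), true)) ω))) = Real.arctan (f (sh (rg ω) ω)) := by
    filter_upwards [hkey, ae_exists hH] with ω h1 h2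
    congr 1
    rw [sh_sh]
    refine h1 _ _ (rg_spec ω h2).1 ?_
    rw [add_comm]
    exact rg_sh_spec ω h2 _
  have hconst := ae_const_of_invariant p (fun ω : Om d => Real.arctan (f (sh (rg ω) ω))) hG
    _ hz hinv
  refine ⟨Real.tan (∫ ω', Real.arctan (f (sh (rg ω') ω')) ∂(Pr d p)), ?_⟩
  unfold nu
  rw [ae_restrict_iff' (measurableSet_InfC 0)]
  filter_upwards [hconst] with ω h1 h2
  rw [← h1, Real.tan_arctan]
  rw [rg_eq_zero ω h2, sh_zero]

theorem erg_Ae_sub (f g : Om d → ℝ) (ω : Om d) :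
    Ae (fun ω => f ω - g ω) ω = Ae f ω - Ae g ω := by
  rw [Ae_eq, Ae_eq, Ae_eq]
  unfold Pe Pop
  split_ifs
  · ring
  · simp only [mul_sub, Finset.sum_sub_distrib, sub_div]
    ring

theorem erg_norm_sq {μ : Measure (Om d)} {f : Om d → ℝ} (hf : MemLp f 2 μ) :
    ‖hf.toLp f‖ ^ 2 = ∫ ω, f ω ^ 2 ∂μ := by
  rw [← real_inner_self_eq_norm_sq, L2.inner_def]
  refine integral_congr_ae ?_
  filter_upwards [hf.coeFn_toLp] with ω hω
  rw [hω, real_inner_self_eq_norm_sq, Real.norm_eq_abs, sq_abs]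

theorem erg_le_dg {f : Om d → ℝ} (hf : MemLp f 2 (nu d p)) :
    ∫ ω, f ω ^ 2 ∂(nu d p) ≤ ∫ ω, dg ω * f ω ^ 2 ∂(nu d p) := by
  refine integral_mono_ae hf.integrable_sq (erg_int_dg hf.integrable_sq) ?_
  filter_upwards [ae_one_le_dg p] with ω hω
  have := sq_nonneg (f ω)
  nlinarith

theorem erg_dg_le {f : Om d → ℝ} (hf : MemLp f 2 (nu d p)) :
    ∫ ω, dg ω * f ω ^ 2 ∂(nu d p) ≤ 2 * d * ∫ ω, f ω ^ 2 ∂(nu d p) := by
  rw [← integral_const_mul]
  refine integral_mono (erg_int_dg hf.integrable_sq) (hf.integrable_sq.const_mul _) ?_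
  intro ω
  exact mul_le_mul_of_nonneg_right (dg_le ω) (sq_nonneg _)

theorem erg_dg_nn (f : Om d → ℝ) : 0 ≤ ∫ ω, dg ω * f ω ^ 2 ∂(nu d p) :=
  integral_nonneg (fun ω => mul_nonneg (erg_dg_nonneg ω) (sq_nonneg _))

theorem Ae_conv (hd : 1 ≤ d) (hH : HypH d p K C c) (h : Om d → ℝ) (hm : Measurable h)
    (hb : ∃ B, ∀ ω, |h ω| ≤ B) (h0 : ∫ ω, dg ω * h ω ∂(nu d p) = 0) :
    Tendsto (fun j : ℕ => ∫ ω, dg ω * ((Ae^[j] h) ω) ^ 2 ∂(nu d p)) atTop (𝓝 0) := by
  haveI : IsFiniteMeasure (nu d p) := by unfold nu; infer_instance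
  obtain ⟨B, hB⟩ := hb
  have hL : MemLp h 2 (nu d p) := MemLp.of_bound hm.aestronglyMeasurable B
    (Eventually.of_forall (fun ω => by simpa using hB ω))
  have hit : ∀ j, Measurable (Ae^[j] h) ∧ MemLp (Ae^[j] h) 2 (nu d p) := by
    intro j
    induction j with
    | zero => exact ⟨hm, hL⟩
    | succ j ih =>
      rw [Function.iterate_succ_apply']
      exact ⟨measurable_Ae ih.1, memLp_Ae p ih.1 ih.2⟩
  obtain ⟨a, ha⟩ : ∃ a : ℕ → ℝ, ∀ j, a j = ∫ ω, dg ω * (h ω * (Ae^[j] h) ω) ∂(nu d p) :=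
    ⟨_, fun j => rfl⟩
  have ha_anti : Antitone a := antitone_nat_of_succ_le (fun j => by
    rw [ha, ha]; exact corr_antitone p hm hL j)
  have ha_nonneg : ∀ j, 0 ≤ a j := fun j => by rw [ha]; exact corr_nonneg p hm hL j
  obtain ⟨L, hLim⟩ : ∃ L, Tendsto a atTop (𝓝 L) := ⟨_, tendsto_atTop_ciInf ha_anti
    ⟨0, by rintro _ ⟨j, rfl⟩; exact ha_nonneg j⟩⟩
  have hLle : ∀ j, L ≤ a j := fun j => ha_anti.le_of_tendsto hLim j
  have hprod : ∀ i j, ∫ ω, dg ω * ((Ae^[j] h) ω * (Ae^[i] h) ω) ∂(nu d p) = a (i + j) := by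
    intro i j
    rw [← Ae_iter_symm p hm (hit i).1 hL (hit i).2 j, ha, ← Function.iterate_add_apply,
      add_comm j i]
  have hintp : ∀ i j, Integrable (fun ω => dg ω * ((Ae^[j] h) ω * (Ae^[i] h) ω)) (nu d p) :=
    fun i j => erg_int_dg ((hit j).2.integrable_mul (hit i).2)
  have hdist : ∀ i j, ∫ ω, dg ω * ((Ae^[i] h) ω - (Ae^[j] h) ω) ^ 2 ∂(nu d p)
      = a (i + i) + a (j + j) - 2 * a (i + j) := by
    intro i j
    have h1 : (fun ω => dg ω * ((Ae^[i] h) ω - (Ae^[j] h) ω) ^ 2) = fun ω =>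
        (dg ω * ((Ae^[i] h) ω * (Ae^[i] h) ω) + dg ω * ((Ae^[j] h) ω * (Ae^[j] h) ω))
          - 2 * (dg ω * ((Ae^[j] h) ω * (Ae^[i] h) ω)) := by
      funext ω; ring
    have e1 : Integrable (fun ω => dg ω * ((Ae^[i] h) ω * (Ae^[i] h) ω)
        + dg ω * ((Ae^[j] h) ω * (Ae^[j] h) ω)) (nu d p) := (hintp i i).add (hintp j j)
    have e2 : Integrable (fun ω => 2 * (dg ω * ((Ae^[j] h) ω * (Ae^[i] h) ω))) (nu d p) :=
      (hintp i j).const_mul 2
    rw [h1, integral_sub e1 e2,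
      integral_add (hintp i i) (hintp j j), integral_const_mul, hprod, hprod, hprod]
  have hcau : CauchySeq (fun j => (hit j).2.toLp (Ae^[j] h)) := by
    refine cauchySeq_of_le_tendsto_0 (fun N => Real.sqrt (2 * (a (N + N) - L))) ?_ ?_
    · intro i j N hi hj
      rw [dist_eq_norm, ← MemLp.toLp_sub]
      refine Real.le_sqrt_of_sq_le ?_
      rw [erg_norm_sq]
      refine (erg_le_dg (((hit i).2).sub (hit j).2)).trans ?_
      have h1 := hdist i j
      simp only [Pi.sub_apply]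
      rw [h1]
      have h2 := ha_anti (add_le_add hi hi)
      have h3 := ha_anti (add_le_add hj hj)
      have h4 := hLle (i + j)
      linarith
    · have h1 : Tendsto (fun N => 2 * (a (N + N) - L)) atTop (𝓝 (2 * (L - L))) := by
        refine Tendsto.const_mul 2 (Tendsto.sub_const ?_ L)
        exact hLim.comp (tendsto_atTop_mono (fun N => Nat.le_add_right N N) tendsto_id)
      have h2 := (Real.continuous_sqrt.tendsto _).comp h1
      rw [sub_self, mul_zero, Real.sqrt_zero] at h2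
      exact h2
  obtain ⟨G, hG⟩ := cauchySeq_tendsto_of_complete hcau
  have hGm : Measurable (G : Om d → ℝ) := (Lp.stronglyMeasurable G).measurable
  have hGL : MemLp (G : Om d → ℝ) 2 (nu d p) := Lp.memLp G
  have hb1 : Tendsto (fun j => ∫ ω, ((Ae^[j] h) ω - G ω) ^ 2 ∂(nu d p)) atTop (𝓝 0) := by
    have h1 : ∀ j, ∫ ω, ((Ae^[j] h) ω - G ω) ^ 2 ∂(nu d p)
        = ‖(hit j).2.toLp (Ae^[j] h) - G‖ ^ 2 := by
      intro j
      have h2 := erg_norm_sq ((hit j).2.sub hGL)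
      rw [MemLp.toLp_sub (hit j).2 hGL, Lp.toLp_coeFn] at h2
      rw [h2]
      rfl
    simp only [h1]
    have h3 := (tendsto_iff_norm_sub_tendsto_zero.1 hG).pow 2
    simpa using h3
  have hb2 : Tendsto (fun j => ∫ ω, dg ω * ((Ae^[j] h) ω - G ω) ^ 2 ∂(nu d p)) atTop (𝓝 0) := by
    refine squeeze_zero (fun j => erg_dg_nn _) (fun j => erg_dg_le ((hit j).2.sub hGL)) ?_
    have h3 := hb1.const_mul (2 * (d : ℝ))
    simpa using h3
  -- `Ae G = G`
  have hAG : ∫ ω, dg ω * (Ae G ω - G ω) ^ 2 ∂(nu d p) ≤ 0 := by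
    have hAGL : MemLp (Ae (G : Om d → ℝ)) 2 (nu d p) := memLp_Ae p hGm hGL
    have h1 : ∀ j, ∫ ω, dg ω * (Ae G ω - G ω) ^ 2 ∂(nu d p) ≤
        2 * (∫ ω, dg ω * ((Ae^[j] h) ω - G ω) ^ 2 ∂(nu d p))
          + 2 * (∫ ω, dg ω * ((Ae^[j + 1] h) ω - G ω) ^ 2 ∂(nu d p)) := by
      intro j
      have h2 : ∫ ω, dg ω * (Ae G ω - (Ae^[j + 1] h) ω) ^ 2 ∂(nu d p) ≤
          ∫ ω, dg ω * ((Ae^[j] h) ω - G ω) ^ 2 ∂(nu d p) := by
        have h3 := Ae_contr p ((hit j).1.sub hGm) ((hit j).2.sub hGL)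
        have h4 : ∀ ω, Ae ((Ae^[j] h) - (G : Om d → ℝ)) ω = (Ae^[j + 1] h) ω - Ae G ω := by
          intro ω
          rw [Function.iterate_succ_apply']
          exact erg_Ae_sub _ _ ω
        simp only [h4] at h3
        refine le_trans (le_of_eq ?_) h3
        refine integral_congr_ae (Eventually.of_forall (fun ω => ?_))
        simp only
        ring
      have i1 : Integrable (fun ω => dg ω * (Ae G ω - (Ae^[j + 1] h) ω) ^ 2) (nu d p) :=
        erg_int_dg ((hAGL.sub (hit (j + 1)).2).integrable_sq)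
      have i2 : Integrable (fun ω => dg ω * ((Ae^[j + 1] h) ω - G ω) ^ 2) (nu d p) :=
        erg_int_dg (((hit (j + 1)).2.sub hGL).integrable_sq)
      have i3 : Integrable (fun ω => dg ω * (Ae G ω - G ω) ^ 2) (nu d p) :=
        erg_int_dg ((hAGL.sub hGL).integrable_sq)
      have h5 : ∫ ω, dg ω * (Ae G ω - G ω) ^ 2 ∂(nu d p) ≤
          2 * (∫ ω, dg ω * (Ae G ω - (Ae^[j + 1] h) ω) ^ 2 ∂(nu d p))
          + 2 * (∫ ω, dg ω * ((Ae^[j + 1] h) ω - G ω) ^ 2 ∂(nu d p)) := by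
        rw [← integral_const_mul, ← integral_const_mul,
          ← integral_add (i1.const_mul 2) (i2.const_mul 2)]
        refine integral_mono i3 ((i1.const_mul 2).add (i2.const_mul 2)) ?_
        intro ω
        have h6 := erg_dg_nonneg ω
        nlinarith [mul_nonneg h6 (sq_nonneg ((Ae G ω - (Ae^[j + 1] h) ω)
          - ((Ae^[j + 1] h) ω - G ω)))]
      linarith
    have h7 : Tendsto (fun j => 2 * (∫ ω, dg ω * ((Ae^[j] h) ω - G ω) ^ 2 ∂(nu d p))
          + 2 * (∫ ω, dg ω * ((Ae^[j + 1] h) ω - G ω) ^ 2 ∂(nu d p))) atTop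
          (𝓝 (2 * 0 + 2 * 0)) :=
      (hb2.const_mul 2).add ((hb2.comp (tendsto_add_atTop_nat 1)).const_mul 2)
    have h8 := ge_of_tendsto' h7 h1
    simpa using h8
  have hfix : ∀ᵐ ω ∂(nu d p), Ae G ω = G ω := by
    have i3 : Integrable (fun ω => dg ω * (Ae G ω - G ω) ^ 2) (nu d p) :=
      erg_int_dg (((memLp_Ae p hGm hGL).sub hGL).integrable_sq)
    have h1 : ∫ ω, dg ω * (Ae G ω - G ω) ^ 2 ∂(nu d p) = 0 := le_antisymm hAG (erg_dg_nn _)
    have h2 := (integral_eq_zero_iff_of_nonneg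
      (fun ω => mul_nonneg (erg_dg_nonneg ω) (sq_nonneg _)) i3).1 h1
    filter_upwards [h2, ae_one_le_dg p] with ω h3 h4
    have h5 : dg ω * (Ae G ω - G ω) ^ 2 = 0 := h3
    rcases mul_eq_zero.1 h5 with h6 | h6
    · linarith
    · have := pow_eq_zero_iff (two_ne_zero) |>.1 h6
      linarith
  have hdir : ∫ ω, ∑ δ, oo ω δ * (gr (G : Om d → ℝ) ω δ * gr (G : Om d → ℝ) ω δ) ∂(nu d p)
      = 0 := by
    have h1 := Ae_dirichlet p hGm hGm hGL hGL
    have h2 : ∫ ω, dg ω * (G ω * (G ω - Ae G ω)) ∂(nu d p) = 0 := by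
      rw [integral_eq_zero_of_ae]
      filter_upwards [hfix] with ω hω
      rw [hω]
      simp
    rw [h2] at h1
    linarith
  obtain ⟨m, hmc⟩ := fix_const hd hH (G : Om d → ℝ) hGm hGL hdir
  have hmean : ∀ j, ∫ ω, dg ω * (Ae^[j] h) ω ∂(nu d p) = 0 := by
    intro j
    induction j with
    | zero => exact h0
    | succ j ih =>
      rw [Function.iterate_succ_apply', Ae_mean p (hit j).1 ((hit j).2.integrable (by norm_num))]
      exact ih
  have hfin : ∀ j, ∫ ω, dg ω * ((Ae^[j] h) ω) ^ 2 ∂(nu d p) ≤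
      ∫ ω, dg ω * ((Ae^[j] h) ω - G ω) ^ 2 ∂(nu d p) := by
    intro j
    have i1 : Integrable (fun ω => dg ω * ((Ae^[j] h) ω) ^ 2) (nu d p) :=
      erg_int_dg ((hit j).2.integrable_sq)
    have i2 : Integrable (fun ω => dg ω * (Ae^[j] h) ω) (nu d p) :=
      erg_int_dg ((hit j).2.integrable (by norm_num))
    have i3 : Integrable (fun ω : Om d => dg ω * m ^ 2) (nu d p) :=
      erg_int_dg (integrable_const _)
    have h1 : ∫ ω, dg ω * ((Ae^[j] h) ω - G ω) ^ 2 ∂(nu d p) =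
        ∫ ω, ((dg ω * ((Ae^[j] h) ω) ^ 2 - 2 * m * (dg ω * (Ae^[j] h) ω)) + dg ω * m ^ 2)
          ∂(nu d p) := by
      refine integral_congr_ae ?_
      filter_upwards [hmc] with ω hω
      rw [hω]
      ring
    have e2 : Integrable (fun ω => 2 * m * (dg ω * (Ae^[j] h) ω)) (nu d p) := i2.const_mul _
    have e1 : Integrable (fun ω => dg ω * ((Ae^[j] h) ω) ^ 2
      - 2 * m * (dg ω * (Ae^[j] h) ω)) (nu d p) := i1.sub e2
    rw [h1, integral_add e1 i3, integral_sub i1 e2,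
      integral_const_mul, hmean j]
    have h2 : 0 ≤ ∫ ω : Om d, dg ω * m ^ 2 ∂(nu d p) :=
      integral_nonneg (fun ω => mul_nonneg (erg_dg_nonneg ω) (sq_nonneg _))
    linarith
  exact squeeze_zero (fun j => erg_dg_nn _) hfin hb2

end Ein99
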