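import Pool.Agent.LibEin99.E_Op
import Pool.Agent.LibEin99.E_Chi

/-!
TASK E_Exp. Fourth moments of the lazy walk.

For `|a| ≤ 1` let `g_n ω = Ln ω n (fun x => exp(a dot l x)) 0`. By `Ln_first`,
`g_{n+1} = (∑_δ oo (g_n + e^{a dt δ} g_n(sh (st δ) ω)))/(2 dg)`, so by Cauchy-Schwarz
`dg g_{n+1}² ≤ (1/4) ∑_δ oo (f + e^{a dt} f_δ)²`, `f = g_n`. Symmetrising with `rev_int`,
`(f + e^t f_δ)² + (f_δ + e^{-t} f)² ≤ 4 cosh² t (f² + f_δ²)`, so
`∫ dg g_{n+1}² ≤ cosh² a ∫ dg g_n² ≤ (1 + 2a²) ∫ dg g_n²`.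
So `∫ dg g_n² ≤ (1 + 2 a²)^n kap` and `∫ dg g_n ≤ √(kap · ∫ dg g_n²) ≤ kap (1+2 a²)^{n/2}`.
Take `a = ± 1/√n` and `t⁴ ≤ 24 cosh t ≤ 24 (e^t + e^{-t})`, `t = dot l x/√n`.
-/

open MeasureTheory ProbabilityTheory Filter Topology
open scoped ENNReal

namespace Ein99

variable {d : ℕ} (p : unitInterval)

theorem exp_fin (d : ℕ) (p : unitInterval) : IsFiniteMeasure (nu d p) := by
  unfold nu; infer_instance

theorem exp_bint {f : Om d → ℝ} (hf : Measurable f) {M : ℝ} (hM : ∀ ω, |f ω| ≤ M) :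
    Integrable f (nu d p) := by
  haveI := exp_fin d p
  exact Integrable.of_bound hf.aestronglyMeasurable M
    (Filter.Eventually.of_forall fun ω => by rw [Real.norm_eq_abs]; exact hM ω)

theorem oo_zero_or_one (ω : Om d) (δ : Dir d) : oo ω δ = 0 ∨ oo ω δ = 1 := by
  unfold oo
  split_ifs
  · exact Or.inr rfl
  · exact Or.inl rfl

theorem exp_oo_nonneg (ω : Om d) (δ : Dir d) : 0 ≤ oo ω δ := by
  rcases oo_zero_or_one ω δ with h | h <;> rw [h] <;> norm_num

theorem exp_oo_le (ω : Om d) (δ : Dir d) : oo ω δ ≤ 1 := by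
  rcases oo_zero_or_one ω δ with h | h <;> rw [h] <;> norm_num

theorem exp_dot_zero (l : Fin d → ℝ) : dot l (0 : V d) = 0 := by
  simp [dot]

/-- `g_n`. -/
noncomputable def gE (l : Fin d → ℝ) (a : ℝ) (n : ℕ) (ω : Om d) : ℝ :=
  Ln ω n (fun x => Real.exp (a * dot l x)) 0

theorem measurable_gE (l : Fin d → ℝ) (a : ℝ) (n : ℕ) : Measurable (gE l a n : Om d → ℝ) :=
  measurable_Ln n (fun _ x => Real.exp (a * dot l x)) (fun _ => measurable_const) 0

theorem gE_nonneg (l : Fin d → ℝ) (a : ℝ) (n : ℕ) (ω : Om d) : 0 ≤ gE l a n ω := by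
  have h := Ln_mono ω n (g := fun _ => 0) (h := fun x => Real.exp (a * dot l x))
    (fun x => (Real.exp_pos _).le) 0
  rw [Ln_const] at h
  exact h

theorem gE_le (l : Fin d → ℝ) (hl : ∑ i, l i ^ 2 = 1) (a : ℝ) (ha : |a| ≤ 1) (n : ℕ) (ω : Om d) :
    |gE l a n ω| ≤ Real.exp (Real.sqrt d * n) := by
  classical
  rw [abs_of_nonneg (gE_nonneg l a n ω)]
  have h1 : gE l a n ω = Ln ω n (fun x => if x ∈ Bx n (0 : V d) then Real.exp (a * dot l x) else 0) 0 := by
    apply Ln_congr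
    intro y hy
    simp [hy]
  rw [h1]
  have h2 := Ln_mono ω n (g := fun x => if x ∈ Bx n (0 : V d) then Real.exp (a * dot l x) else 0)
    (h := fun _ => Real.exp (Real.sqrt d * n)) (fun x => by
      split_ifs with hx
      · apply Real.exp_le_exp.2
        have h3 := abs_dot_sub_le l hl hx
        rw [exp_dot_zero, sub_zero] at h3
        calc a * dot l x ≤ |a * dot l x| := le_abs_self _
          _ = |a| * |dot l x| := abs_mul _ _
          _ ≤ 1 * |dot l x| := mul_le_mul_of_nonneg_right ha (abs_nonneg _)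
          _ ≤ _ := by rw [one_mul]; exact h3
      · exact (Real.exp_pos _).le) 0
  rw [Ln_const] at h2
  exact h2

theorem gE_zero (l : Fin d → ℝ) (a : ℝ) (ω : Om d) : gE l a 0 ω = 1 := by
  unfold gE
  rw [Ln_zero, exp_dot_zero]
  simp

theorem gE_succ (l : Fin d → ℝ) (a : ℝ) (n : ℕ) (ω : Om d) (h : dg ω ≠ 0) :
    gE l a (n + 1) ω = (gE l a n ω
      + (∑ δ, oo ω δ * (Real.exp (a * dt l δ) * gE l a n (sh (st δ) ω))) / dg ω) / 2 := by
  have h1 := Ln_first ω n (fun x => Real.exp (a * dot l x)) h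
  unfold gE
  rw [h1]
  congr 3
  apply Finset.sum_congr rfl
  intro δ _
  congr 1
  have h2 : (fun y : V d => Real.exp (a * dot l (y + st δ)))
      = Real.exp (a * dt l δ) • (fun y : V d => Real.exp (a * dot l y)) := by
    funext y
    rw [Pi.smul_apply, smul_eq_mul, ← Real.exp_add, dot_add, dot_st]
    congr 1
    ring
  rw [h2, Ln_smul]
  rfl

theorem exp_pointwise (l : Fin d → ℝ) (a : ℝ) (n : ℕ) (ω : Om d) (h : 1 ≤ dg ω) :
    dg ω * gE l a (n + 1) ω ^ 2 ≤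
      ∑ δ, oo ω δ * ((1 / 4) * (gE l a n ω + Real.exp (a * dt l δ) * gE l a n (sh (st δ) ω)) ^ 2) := by
  have hpos : 0 < dg ω := by linarith
  rw [gE_succ l a n ω hpos.ne']
  set f0 := gE l a n ω
  set u : Dir d → ℝ := fun δ => f0 + Real.exp (a * dt l δ) * gE l a n (sh (st δ) ω) with hu
  have e1 : (f0 + (∑ δ, oo ω δ * (Real.exp (a * dt l δ) * gE l a n (sh (st δ) ω))) / dg ω) / 2
      = (∑ δ, oo ω δ * u δ) / (2 * dg ω) := by
    have : ∑ δ, oo ω δ * u δ = dg ω * f0 +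
        ∑ δ, oo ω δ * (Real.exp (a * dt l δ) * gE l a n (sh (st δ) ω)) := by
      simp only [hu, mul_add, Finset.sum_add_distrib]
      rw [← Finset.sum_mul]
      rfl
    rw [this]
    field_simp
  rw [e1]
  have hcs : (∑ δ, oo ω δ * u δ) ^ 2 ≤ dg ω * ∑ δ, oo ω δ * u δ ^ 2 := by
    have h1 := Finset.sum_mul_sq_le_sq_mul_sq (Finset.univ : Finset (Dir d)) (fun δ => oo ω δ)
      (fun δ => oo ω δ * u δ)
    have h2 : ∀ δ : Dir d, oo ω δ * (oo ω δ * u δ) = oo ω δ * u δ := by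
      intro δ
      rcases oo_zero_or_one ω δ with h | h <;> rw [h] <;> ring
    have h3 : ∀ δ : Dir d, oo ω δ ^ 2 = oo ω δ := by
      intro δ
      rcases oo_zero_or_one ω δ with h | h <;> rw [h] <;> ring
    have h4 : ∀ δ : Dir d, (oo ω δ * u δ) ^ 2 = oo ω δ * u δ ^ 2 := by
      intro δ
      rcases oo_zero_or_one ω δ with h | h <;> rw [h] <;> ring
    simp only [h2, h3, h4] at h1
    exact h1
  have e2 : dg ω * ((∑ δ, oo ω δ * u δ) / (2 * dg ω)) ^ 2
      = (∑ δ, oo ω δ * u δ) ^ 2 / (4 * dg ω) := by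
    field_simp
    ring
  rw [e2, div_le_iff₀ (by positivity)]
  have e3 : (∑ δ, oo ω δ * ((1 / 4) * u δ ^ 2)) * (4 * dg ω) = dg ω * ∑ δ, oo ω δ * u δ ^ 2 := by
    have : ∑ δ, oo ω δ * ((1 / 4) * u δ ^ 2) = (1 / 4) * ∑ δ, oo ω δ * u δ ^ 2 := by
      rw [Finset.mul_sum]
      apply Finset.sum_congr rfl
      intro δ _
      ring
    rw [this]
    ring
  rw [e3]
  exact hcs

theorem exp_num (x y t : ℝ) : (x + Real.exp t * y) ^ 2 + (y + Real.exp (-t) * x) ^ 2
    ≤ 4 * Real.cosh t ^ 2 * (x ^ 2 + y ^ 2) := by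
  have h1 : Real.exp t * Real.exp (-t) = 1 := by rw [← Real.exp_add]; simp
  set A := Real.exp t
  set B := Real.exp (-t)
  have h2 : 4 * Real.cosh t ^ 2 = (1 + A ^ 2) * (1 + B ^ 2) := by
    rw [Real.cosh_eq]
    show 4 * ((A + B) / 2) ^ 2 = _
    have : A ^ 2 * B ^ 2 = 1 := by rw [← mul_pow, h1, one_pow]
    nlinarith
  have h3 : y + B * x = B * (x + A * y) := by
    have : B * (A * y) = (A * B) * y := by ring
    rw [mul_add, this, h1]
    ring
  rw [h2, h3, mul_pow]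
  have h4 : (x + A * y) ^ 2 ≤ (1 + A ^ 2) * (x ^ 2 + y ^ 2) := by nlinarith [sq_nonneg (A * x - y)]
  have h5 : (0 : ℝ) ≤ 1 + B ^ 2 := by positivity
  nlinarith [mul_le_mul_of_nonneg_left h4 h5]

theorem exp_cosh (a s : ℝ) (ha : |a| ≤ 1) (hs : |s| ≤ 1) :
    Real.cosh (a * s) ^ 2 ≤ 1 + 2 * a ^ 2 := by
  have h1 : Real.cosh (a * s) ≤ Real.exp ((a * s) ^ 2 / 2) := Real.cosh_le_exp_half_sq _
  have h2 : Real.cosh (a * s) ^ 2 ≤ Real.exp ((a * s) ^ 2) := by
    calc Real.cosh (a * s) ^ 2 ≤ Real.exp ((a * s) ^ 2 / 2) ^ 2 :=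
          pow_le_pow_left₀ (Real.cosh_pos _).le h1 2
      _ = Real.exp ((a * s) ^ 2) := by
          rw [← Real.exp_nat_mul]
          congr 1
          push_cast
          ring
  have ha2 : a ^ 2 ≤ 1 := by
    rw [← sq_abs]
    nlinarith [abs_nonneg a]
  have hs2 : s ^ 2 ≤ 1 := by
    rw [← sq_abs]
    nlinarith [abs_nonneg s]
  have h3 : (a * s) ^ 2 ≤ a ^ 2 := by
    rw [mul_pow]
    nlinarith [sq_nonneg a]
  have h4 : Real.exp (a ^ 2) ≤ 1 + a ^ 2 + (a ^ 2) ^ 2 := by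
    have h5 := Real.abs_exp_sub_one_sub_id_le (x := a ^ 2) (by rw [abs_of_nonneg (sq_nonneg a)]; exact ha2)
    have := (abs_le.1 h5).2
    linarith
  have h5 := Real.exp_le_exp.2 h3
  nlinarith [sq_nonneg a]

theorem exp_step (l : Fin d → ℝ) (hl : ∑ i, l i ^ 2 = 1) (a : ℝ) (ha : |a| ≤ 1) (n : ℕ) :
    ∫ ω, dg ω * gE l a (n + 1) ω ^ 2 ∂(nu d p)
      ≤ (1 + 2 * a ^ 2) * ∫ ω, dg ω * gE l a n ω ^ 2 ∂(nu d p) := by
  haveI := exp_fin d p
  set M : ℝ := Real.exp (Real.sqrt d * n) with hM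
  have hM0 : 0 < M := Real.exp_pos _
  have hf : Measurable (gE l a n : Om d → ℝ) := measurable_gE l a n
  have hfM : ∀ ω, |gE l a n ω| ≤ M := gE_le l hl a ha n
  have hfs : ∀ δ : Dir d, Measurable (fun ω : Om d => gE l a n (sh (st δ) ω)) :=
    fun δ => hf.comp (measurable_sh _)
  -- the field
  set H : Fld d := fun ω δ => (1 / 4) * (gE l a n ω
    + Real.exp (a * dt l δ) * gE l a n (sh (st δ) ω)) ^ 2 with hH
  have hHm : ∀ δ, Measurable (fun ω => H ω δ) := by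
    intro δ
    have := hfs δ
    simp only [hH]
    fun_prop
  have hdtle : ∀ δ : Dir d, |dt l δ| ≤ 1 := abs_dt_le l hl
  have hexple : ∀ δ : Dir d, Real.exp (a * dt l δ) ≤ Real.exp 1 := by
    intro δ
    apply Real.exp_le_exp.2
    calc a * dt l δ ≤ |a * dt l δ| := le_abs_self _
      _ = |a| * |dt l δ| := abs_mul _ _
      _ ≤ 1 * 1 := mul_le_mul ha (hdtle δ) (abs_nonneg _) (by norm_num)
      _ = 1 := by norm_num
  have hHb : ∀ ω δ, |H ω δ| ≤ (1 / 4) * (M + Real.exp 1 * M) ^ 2 := by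
    intro ω δ
    simp only [hH]
    rw [abs_mul, abs_of_nonneg (by norm_num : (0 : ℝ) ≤ 1 / 4), abs_pow]
    apply mul_le_mul_of_nonneg_left _ (by norm_num)
    apply pow_le_pow_left₀ (abs_nonneg _)
    refine (abs_add_le _ _).trans (add_le_add (hfM ω) ?_)
    rw [abs_mul, abs_of_pos (Real.exp_pos _)]
    exact mul_le_mul (hexple δ) (hfM _) (abs_nonneg _) (Real.exp_pos _).le
  -- sums of bounded fields are integrable
  have hsum : ∀ (G : Fld d), (∀ δ, Measurable (fun ω => G ω δ)) → ∀ B : ℝ, (∀ ω δ, |G ω δ| ≤ B) →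
      Integrable (fun ω => ∑ δ, oo ω δ * G ω δ) (nu d p) := by
    intro G hG B hB
    refine integrable_finsetSum _ (fun δ _ => ?_)
    refine exp_bint p ((measurable_oo δ).mul (hG δ)) (M := B) (fun ω => ?_)
    rw [abs_mul, abs_of_nonneg (exp_oo_nonneg ω δ)]
    calc oo ω δ * |G ω δ| ≤ 1 * |G ω δ| := mul_le_mul_of_nonneg_right (exp_oo_le ω δ) (abs_nonneg _)
      _ ≤ B := by rw [one_mul]; exact hB ω δ
  have hsumabs : ∀ (G : Fld d), (∀ δ, Measurable (fun ω => G ω δ)) → ∀ B : ℝ, (∀ ω δ, |G ω δ| ≤ B) →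
      Integrable (fun ω => ∑ δ, oo ω δ * |G ω δ|) (nu d p) := by
    intro G hG B hB
    exact hsum (fun ω δ => |G ω δ|) (fun δ => (hG δ).abs) B (fun ω δ => by
      rw [abs_abs]; exact hB ω δ)
  have hshsh : ∀ (ω : Om d) (δ : Dir d), sh (st (rv δ)) (sh (st δ) ω) = ω := by
    intro ω δ
    rw [sh_sh, st_rv, neg_add_cancel, sh_zero]
  -- reversed field
  set H' : Fld d := fun ω δ => (1 / 4) * (gE l a n (sh (st δ) ω)
    + Real.exp (-(a * dt l δ)) * gE l a n ω) ^ 2 with hH'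
  have hrevH : ∀ (ω : Om d) (δ : Dir d), H (sh (st δ) ω) (rv δ) = H' ω δ := by
    intro ω δ
    simp only [hH, hH']
    rw [hshsh, dt_rv, mul_neg]
  have hH'm : ∀ δ, Measurable (fun ω => H' ω δ) := by
    intro δ
    have := hfs δ
    simp only [hH']
    fun_prop
  have hH'b : ∀ ω δ, |H' ω δ| ≤ (1 / 4) * (M + Real.exp 1 * M) ^ 2 := by
    intro ω δ
    rw [← hrevH]
    exact hHb _ _
  have hrev1 : ∫ ω, ∑ δ, oo ω δ * H ω δ ∂(nu d p) = ∫ ω, ∑ δ, oo ω δ * H' ω δ ∂(nu d p) := by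
    rw [rev_int p H hHm (hsumabs H hHm _ hHb)]
    simp only [hrevH]
  -- squares
  set Q : Fld d := fun ω _ => gE l a n ω ^ 2 with hQ
  set Q' : Fld d := fun ω δ => gE l a n (sh (st δ) ω) ^ 2 with hQ'
  have hQm : ∀ δ, Measurable (fun ω => Q ω δ) := fun δ => hf.pow_const 2
  have hQ'm : ∀ δ, Measurable (fun ω => Q' ω δ) := fun δ => (hfs δ).pow_const 2
  have hQb : ∀ ω δ, |Q ω δ| ≤ M ^ 2 := by
    intro ω δ
    simp only [hQ]
    rw [abs_pow]
    exact pow_le_pow_left₀ (abs_nonneg _) (hfM ω) 2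
  have hQ'b : ∀ ω δ, |Q' ω δ| ≤ M ^ 2 := by
    intro ω δ
    simp only [hQ']
    rw [abs_pow]
    exact pow_le_pow_left₀ (abs_nonneg _) (hfM _) 2
  have hrev2 : ∫ ω, ∑ δ, oo ω δ * Q ω δ ∂(nu d p) = ∫ ω, ∑ δ, oo ω δ * Q' ω δ ∂(nu d p) := by
    rw [rev_int p Q hQm (hsumabs Q hQm _ hQb)]
  have hQdg : ∀ ω : Om d, ∑ δ, oo ω δ * Q ω δ = dg ω * gE l a n ω ^ 2 := by
    intro ω
    simp only [hQ]
    rw [← Finset.sum_mul]
    rfl
  -- main chain
  have hpt : ∀ ω : Om d, (∑ δ, oo ω δ * H ω δ) + ∑ δ, oo ω δ * H' ω δ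
      ≤ (1 + 2 * a ^ 2) * ((∑ δ, oo ω δ * Q ω δ) + ∑ δ, oo ω δ * Q' ω δ) := by
    intro ω
    rw [← Finset.sum_add_distrib, ← Finset.sum_add_distrib, Finset.mul_sum]
    apply Finset.sum_le_sum
    intro δ _
    have h1 := exp_num (gE l a n ω) (gE l a n (sh (st δ) ω)) (a * dt l δ)
    have h2 := exp_cosh a (dt l δ) ha (hdtle δ)
    have h3 : H ω δ + H' ω δ ≤ (1 + 2 * a ^ 2) * (Q ω δ + Q' ω δ) := by
      simp only [hH, hH', hQ, hQ']
      have h4 : (0 : ℝ) ≤ gE l a n ω ^ 2 + gE l a n (sh (st δ) ω) ^ 2 := by positivity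
      nlinarith [mul_le_mul_of_nonneg_right h2 h4]
    have h4 := mul_le_mul_of_nonneg_left h3 (exp_oo_nonneg ω δ)
    linarith
  have hI1 := hsum H hHm _ hHb
  have hI2 := hsum H' hH'm _ hH'b
  have hI3 := hsum Q hQm _ hQb
  have hI4 := hsum Q' hQ'm _ hQ'b
  have hmain : ∫ ω, ∑ δ, oo ω δ * H ω δ ∂(nu d p)
      ≤ (1 + 2 * a ^ 2) * ∫ ω, dg ω * gE l a n ω ^ 2 ∂(nu d p) := by
    have h1 : ∫ ω, ((∑ δ, oo ω δ * H ω δ) + ∑ δ, oo ω δ * H' ω δ) ∂(nu d p)
        ≤ ∫ ω, (1 + 2 * a ^ 2) * ((∑ δ, oo ω δ * Q ω δ) + ∑ δ, oo ω δ * Q' ω δ) ∂(nu d p) :=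
      integral_mono (hI1.add hI2) ((hI3.add hI4).const_mul _) hpt
    rw [integral_add hI1 hI2, integral_const_mul, integral_add hI3 hI4, ← hrev1, ← hrev2] at h1
    have h2 : ∫ ω, ∑ δ, oo ω δ * Q ω δ ∂(nu d p) = ∫ ω, dg ω * gE l a n ω ^ 2 ∂(nu d p) := by
      simp only [hQdg]
    rw [h2] at h1
    linarith
  refine le_trans ?_ hmain
  apply integral_mono_of_nonneg _ hI1 _
  · filter_upwards [ae_one_le_dg p] with ω hω
    have : (0 : ℝ) ≤ dg ω := by linarith
    positivity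
  · filter_upwards [ae_one_le_dg p] with ω hω
    exact exp_pointwise l a n ω hω

theorem exp_sq (l : Fin d → ℝ) (hl : ∑ i, l i ^ 2 = 1) (a : ℝ) (ha : |a| ≤ 1) (n : ℕ) :
    ∫ ω, dg ω * gE l a n ω ^ 2 ∂(nu d p) ≤ (1 + 2 * a ^ 2) ^ n * kap d p := by
  induction n with
  | zero =>
    simp only [gE_zero, one_pow, mul_one, pow_zero, one_mul]
    exact le_refl _
  | succ n ih =>
    calc _ ≤ (1 + 2 * a ^ 2) * ∫ ω, dg ω * gE l a n ω ^ 2 ∂(nu d p) := exp_step p l hl a ha n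
      _ ≤ (1 + 2 * a ^ 2) * ((1 + 2 * a ^ 2) ^ n * kap d p) :=
          mul_le_mul_of_nonneg_left ih (by positivity)
      _ = _ := by ring

theorem exp_dg_bd (ω : Om d) : |dg ω| ≤ 2 * d := by
  have h : 0 ≤ dg ω := Finset.sum_nonneg (fun δ _ => exp_oo_nonneg ω δ)
  rw [abs_of_nonneg h]
  exact dg_le ω

theorem exp_moment (d : ℕ) : ∃ C : ℝ, 0 < C ∧ ∀ (p : unitInterval) (l : Fin d → ℝ),
    ∑ i, l i ^ 2 = 1 → ∀ (a : ℝ), |a| ≤ 1 → ∀ n : ℕ,
    ∫ ω, dg ω * Ln ω n (fun x => Real.exp (a * dot l x)) 0 ∂(nu d p)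
      ≤ kap d p * Real.sqrt ((1 + C * a ^ 2) ^ n) := by
  refine ⟨2, by norm_num, fun p l hl a ha n => ?_⟩
  haveI := exp_fin d p
  set R : ℝ := Real.sqrt ((1 + 2 * a ^ 2) ^ n) with hR
  have hb : (0 : ℝ) < (1 + 2 * a ^ 2) ^ n := by positivity
  have hR0 : 0 < R := Real.sqrt_pos.2 hb
  have hR2 : R ^ 2 = (1 + 2 * a ^ 2) ^ n := Real.sq_sqrt hb.le
  have hsq := exp_sq p l hl a ha n
  have hf : Measurable (gE l a n : Om d → ℝ) := measurable_gE l a n
  have hI1 : Integrable (fun ω : Om d => dg ω) (nu d p) :=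
    exp_bint p measurable_dg exp_dg_bd
  have hI2 : Integrable (fun ω : Om d => dg ω * gE l a n ω ^ 2) (nu d p) := by
    refine exp_bint p (measurable_dg.mul (hf.pow_const 2))
      (M := 2 * d * Real.exp (Real.sqrt d * n) ^ 2) (fun ω => ?_)
    rw [abs_mul, abs_pow]
    exact mul_le_mul (exp_dg_bd ω) (pow_le_pow_left₀ (abs_nonneg _) (gE_le l hl a ha n ω) 2)
      (by positivity) (by positivity)
  have h1 : ∫ ω, dg ω * gE l a n ω ∂(nu d p)
      ≤ ∫ ω, ((R / 2) * dg ω + (1 / (2 * R)) * (dg ω * gE l a n ω ^ 2)) ∂(nu d p) := by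
    apply integral_mono_of_nonneg _ ((hI1.const_mul _).add (hI2.const_mul _)) _
    · refine Filter.Eventually.of_forall fun ω => ?_
      exact mul_nonneg (Finset.sum_nonneg (fun δ _ => exp_oo_nonneg ω δ)) (gE_nonneg l a n ω)
    · refine Filter.Eventually.of_forall fun ω => ?_
      have hdg : 0 ≤ dg ω := Finset.sum_nonneg (fun δ _ => exp_oo_nonneg ω δ)
      have h2 : gE l a n ω ≤ R / 2 + (1 / (2 * R)) * gE l a n ω ^ 2 := by
        have h3 : R / 2 + (1 / (2 * R)) * gE l a n ω ^ 2 - gE l a n ω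
            = (R - gE l a n ω) ^ 2 / (2 * R) := by
          field_simp
          ring
        have h4 : 0 ≤ (R - gE l a n ω) ^ 2 / (2 * R) := by positivity
        linarith
      have h5 := mul_le_mul_of_nonneg_left h2 hdg
      calc dg ω * gE l a n ω ≤ dg ω * (R / 2 + (1 / (2 * R)) * gE l a n ω ^ 2) := h5
        _ = (R / 2) * dg ω + (1 / (2 * R)) * (dg ω * gE l a n ω ^ 2) := by ring
  rw [integral_add (hI1.const_mul _) (hI2.const_mul _), integral_const_mul, integral_const_mul] at h1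
  have h2 : (1 / (2 * R)) * ∫ ω, dg ω * gE l a n ω ^ 2 ∂(nu d p)
      ≤ (1 / (2 * R)) * (R ^ 2 * kap d p) := by
    apply mul_le_mul_of_nonneg_left _ (by positivity)
    rw [hR2]
    exact hsq
  have h3 : (1 / (2 * R)) * (R ^ 2 * kap d p) = (R / 2) * kap d p := by
    field_simp
  have h4 : ∫ ω, dg ω ∂(nu d p) = kap d p := rfl
  rw [h4] at h1
  calc ∫ ω, dg ω * Ln ω n (fun x => Real.exp (a * dot l x)) 0 ∂(nu d p)
      = ∫ ω, dg ω * gE l a n ω ∂(nu d p) := rfl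
    _ ≤ kap d p * R := by linarith

theorem exp_quartic (t : ℝ) : t ^ 4 ≤ 24 * (Real.exp t + Real.exp (-t)) := by
  have key : ∀ s : ℝ, 0 ≤ s → s ^ 4 ≤ 24 * Real.exp s := by
    intro s hs
    have h := Real.pow_div_factorial_le_exp s hs 4
    have : (Nat.factorial 4 : ℝ) = 24 := by norm_num [Nat.factorial]
    rw [this] at h
    rw [div_le_iff₀ (by norm_num)] at h
    linarith
  rcases le_total 0 t with h | h
  · have := key t h
    have := Real.exp_pos (-t)
    linarith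
  · have h1 := key (-t) (by linarith)
    have : (-t) ^ 4 = t ^ 4 := by ring
    have := Real.exp_pos t
    linarith

theorem fourth_moment (d : ℕ) : ∃ C : ℝ, 0 < C ∧ ∀ (p : unitInterval) (l : Fin d → ℝ),
    ∑ i, l i ^ 2 = 1 → ∀ n : ℕ,
    ∫ ω, dg ω * Ln ω n (fun x => dot l x ^ 4) 0 ∂(nu d p) ≤ C * (n : ℝ) ^ 2 := by
  obtain ⟨C, hC, hmom⟩ := exp_moment d
  refine ⟨48 * (2 * d + 1) * Real.sqrt (Real.exp C), by positivity, fun p l hl n => ?_⟩
  haveI := exp_fin d p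
  rcases Nat.eq_zero_or_pos n with hn | hn
  · subst hn
    have : ∀ ω : Om d, Ln ω 0 (fun x => dot l x ^ 4) 0 = 0 := by
      intro ω
      rw [Ln_zero, exp_dot_zero]
      norm_num
    simp [this]
  · have hn' : (0 : ℝ) < n := by exact_mod_cast hn
    have hsn : 0 < Real.sqrt n := Real.sqrt_pos.2 hn'
    set a : ℝ := 1 / Real.sqrt n with ha
    have ha0 : 0 < a := by positivity
    have hn1 : 1 ≤ Real.sqrt n := by
      rw [Real.one_le_sqrt]
      exact_mod_cast hn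
    have ha1 : |a| ≤ 1 := by
      rw [abs_of_pos ha0, ha, div_le_one hsn]
      exact hn1
    have ha1' : |-a| ≤ 1 := by rw [abs_neg]; exact ha1
    have ha2 : a ^ 2 = 1 / n := by
      rw [ha, div_pow, one_pow, Real.sq_sqrt hn'.le]
    have hR : Real.sqrt ((1 + C * a ^ 2) ^ n) ≤ Real.sqrt (Real.exp C) := by
      apply Real.sqrt_le_sqrt
      rw [ha2]
      have h1 : 1 + C * (1 / n) ≤ Real.exp (C * (1 / n)) := by
        have := Real.add_one_le_exp (C * (1 / (n : ℝ)))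
        linarith
      calc (1 + C * (1 / n)) ^ n ≤ (Real.exp (C * (1 / n))) ^ n :=
            pow_le_pow_left₀ (by positivity) h1 n
        _ = Real.exp C := by
            rw [← Real.exp_nat_mul]
            congr 1
            field_simp
    have hkap : kap d p ≤ 2 * d + 1 := by
      unfold kap
      have hnu : (nu d p).real Set.univ ≤ 1 := by
        have h1 : (nu d p) Set.univ ≤ 1 := by
          unfold nu
          rw [Measure.restrict_apply_univ]
          exact prob_le_one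
        exact ENNReal.toReal_le_of_le_ofReal (by norm_num) (by simpa using h1)
      calc ∫ ω, dg ω ∂(nu d p) ≤ ∫ _ω, (2 * d : ℝ) ∂(nu d p) :=
            integral_mono (exp_bint p measurable_dg exp_dg_bd) (integrable_const _) dg_le
        _ = (nu d p).real Set.univ * (2 * d) := by
            rw [integral_const, smul_eq_mul]
        _ ≤ 1 * (2 * d) := mul_le_mul_of_nonneg_right hnu (by positivity)
        _ ≤ 2 * d + 1 := by linarith
    have hkap0 : 0 ≤ kap d p := by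
      unfold kap
      exact integral_nonneg fun ω => Finset.sum_nonneg (fun δ _ => exp_oo_nonneg ω δ)
    have hpt : ∀ ω : Om d, Ln ω n (fun x => dot l x ^ 4) 0
        ≤ 24 * (n : ℝ) ^ 2 * (gE l a n ω + gE l (-a) n ω) := by
      intro ω
      have h1 := Ln_mono ω n (g := fun x => dot l x ^ 4)
        (h := (24 * (n : ℝ) ^ 2) • ((fun x => Real.exp (a * dot l x)) +
          (fun x => Real.exp (-a * dot l x)))) (fun x => by
          simp only [Pi.smul_apply, Pi.add_apply, smul_eq_mul]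
          have h2 := exp_quartic (a * dot l x)
          have h3 : (a * dot l x) ^ 4 = dot l x ^ 4 / (n : ℝ) ^ 2 := by
            rw [mul_pow]
            have : a ^ 4 = (a ^ 2) ^ 2 := by ring
            rw [this, ha2]
            field_simp
          rw [h3, div_le_iff₀ (by positivity)] at h2
          have h4 : -a * dot l x = -(a * dot l x) := by ring
          rw [h4]
          linarith) 0
      rw [Ln_smul, Ln_add] at h1
      exact h1
    have hb1 : ∀ ω : Om d, |dg ω * gE l a n ω| ≤ 2 * d * Real.exp (Real.sqrt d * n) := by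
      intro ω
      rw [abs_mul]
      exact mul_le_mul (exp_dg_bd ω) (gE_le l hl a ha1 n ω) (abs_nonneg _) (by positivity)
    have hb2 : ∀ ω : Om d, |dg ω * gE l (-a) n ω| ≤ 2 * d * Real.exp (Real.sqrt d * n) := by
      intro ω
      rw [abs_mul]
      exact mul_le_mul (exp_dg_bd ω) (gE_le l hl (-a) ha1' n ω) (abs_nonneg _) (by positivity)
    have hI1 : Integrable (fun ω : Om d => dg ω * gE l a n ω) (nu d p) :=
      exp_bint p (measurable_dg.mul (measurable_gE l a n)) hb1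
    have hI2 : Integrable (fun ω : Om d => dg ω * gE l (-a) n ω) (nu d p) :=
      exp_bint p (measurable_dg.mul (measurable_gE l (-a) n)) hb2
    have m1 := hmom p l hl a ha1 n
    have m2 := hmom p l hl (-a) ha1' n
    have e : (-a) ^ 2 = a ^ 2 := by ring
    rw [e] at m2
    have m1' : ∫ ω, dg ω * gE l a n ω ∂(nu d p) ≤ (2 * d + 1) * Real.sqrt (Real.exp C) :=
      m1.trans (mul_le_mul hkap hR (Real.sqrt_nonneg _) (by positivity))
    have m2' : ∫ ω, dg ω * gE l (-a) n ω ∂(nu d p) ≤ (2 * d + 1) * Real.sqrt (Real.exp C) :=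
      m2.trans (mul_le_mul hkap hR (Real.sqrt_nonneg _) (by positivity))
    calc ∫ ω, dg ω * Ln ω n (fun x => dot l x ^ 4) 0 ∂(nu d p)
        ≤ ∫ ω, 24 * (n : ℝ) ^ 2 * (dg ω * gE l a n ω + dg ω * gE l (-a) n ω) ∂(nu d p) := by
          apply integral_mono_of_nonneg _ ((hI1.add hI2).const_mul _) _
          · refine Filter.Eventually.of_forall fun ω => ?_
            have h1 := Ln_mono ω n (g := fun _ => 0) (h := fun x => dot l x ^ 4)
              (fun x => by positivity) 0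
            rw [Ln_const] at h1
            exact mul_nonneg (Finset.sum_nonneg (fun δ _ => exp_oo_nonneg ω δ)) h1
          · refine Filter.Eventually.of_forall fun ω => ?_
            have h1 := mul_le_mul_of_nonneg_left (hpt ω)
              (Finset.sum_nonneg (fun δ _ => exp_oo_nonneg ω δ) : 0 ≤ dg ω)
            calc dg ω * Ln ω n (fun x => dot l x ^ 4) 0
                ≤ dg ω * (24 * (n : ℝ) ^ 2 * (gE l a n ω + gE l (-a) n ω)) := h1
              _ = 24 * (n : ℝ) ^ 2 * (dg ω * gE l a n ω + dg ω * gE l (-a) n ω) := by ring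
      _ = 24 * (n : ℝ) ^ 2 * (∫ ω, dg ω * gE l a n ω ∂(nu d p)
          + ∫ ω, dg ω * gE l (-a) n ω ∂(nu d p)) := by
          rw [integral_const_mul, integral_add hI1 hI2]
      _ ≤ 24 * (n : ℝ) ^ 2 * ((2 * d + 1) * Real.sqrt (Real.exp C)
          + (2 * d + 1) * Real.sqrt (Real.exp C)) :=
          mul_le_mul_of_nonneg_left (add_le_add m1' m2') (by positivity)
      _ = 48 * (2 * d + 1) * Real.sqrt (Real.exp C) * (n : ℝ) ^ 2 := by ring

end Ein99
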