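import Pool.Agent.LibEin99.E_Rev
import Pool.Agent.LibEin99.A_PnRange

/-!
TASK E_Ln. Basic properties of the lazy walk `Ln`.

`Ln ω (n+1) g = Lz ω (Ln ω n g)` and `Ln ω (n+1) g = Ln ω n (Lz ω g)`.
`Ln_sh`: `Ln (sh z ω) n g x = Ln ω n (fun y => g (y - z)) (x + z)` (from `Pn_sh` with `n = 1`).
`Ln_rev`: for one step, `dg(sh x ω) * Lz 1_y x` is symmetric in `x, y`; induct on `n`, using
`Ln (n+1) 1_y x = ∑_z Ln n 1_z x * Lz 1_y z` and `Ln (n+1) 1_x y = ∑_z Lz 1_z y * Ln n 1_x z`.
-/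

open MeasureTheory ProbabilityTheory Filter Topology
open scoped ENNReal

namespace Ein99

variable {d : ℕ}

theorem Lz_add (ω : Om d) (g h : V d → ℝ) : Lz ω (g + h) = Lz ω g + Lz ω h := by
  funext x
  simp only [Lz, Pop_add, Pi.add_apply]
  ring

theorem Lz_smul (ω : Om d) (c : ℝ) (g : V d → ℝ) : Lz ω (c • g) = c • Lz ω g := by
  funext x
  simp only [Lz, Pop_smul, Pi.smul_apply, smul_eq_mul]
  ring

theorem Lz_const (ω : Om d) (c : ℝ) : Lz ω (fun _ => c) = fun _ => c := by
  funext x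
  simp only [Lz, Pop_const]
  ring

theorem Lz_mono (ω : Om d) {g h : V d → ℝ} (hgh : ∀ x, g x ≤ h x) (x : V d) :
    Lz ω g x ≤ Lz ω h x := by
  have h1 := Pop_mono 0 0 ω hgh x
  have h2 := hgh x
  simp only [Lz]
  linarith

theorem Lz_congr (ω : Om d) {g h : V d → ℝ} {x : V d} (hgh : ∀ y ∈ Bx 1 x, g y = h y) :
    Lz ω g x = Lz ω h x := by
  simp only [Lz]
  rw [Pop_congr 0 0 ω hgh, hgh x (self_mem_Bx 1 x)]

theorem Lz_sq_le (ω : Om d) (g : V d → ℝ) (x : V d) :
    (Lz ω g x) ^ 2 ≤ Lz ω (fun y => g y ^ 2) x := by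
  have h1 := Pop_sq_le 0 0 ω g x
  simp only [Lz]
  nlinarith [sq_nonneg (g x - Pop 0 0 ω g x)]

theorem Ln_zero (ω : Om d) (g : V d → ℝ) : Ln ω 0 g = g := rfl

theorem Ln_succ (ω : Om d) (n : ℕ) (g : V d → ℝ) : Ln ω (n + 1) g = Lz ω (Ln ω n g) :=
  Function.iterate_succ_apply' _ _ _

theorem Ln_succ' (ω : Om d) (n : ℕ) (g : V d → ℝ) : Ln ω (n + 1) g = Ln ω n (Lz ω g) :=
  Function.iterate_succ_apply _ _ _

theorem Ln_add (ω : Om d) (n : ℕ) (g h : V d → ℝ) : Ln ω n (g + h) = Ln ω n g + Ln ω n h := by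
  induction n with
  | zero => rfl
  | succ n ih => rw [Ln_succ, Ln_succ, Ln_succ, ih, Lz_add]

theorem Ln_smul (ω : Om d) (n : ℕ) (c : ℝ) (g : V d → ℝ) : Ln ω n (c • g) = c • Ln ω n g := by
  induction n with
  | zero => rfl
  | succ n ih => rw [Ln_succ, Ln_succ, ih, Lz_smul]

theorem Ln_const (ω : Om d) (n : ℕ) (c : ℝ) : Ln ω n (fun _ => c) = fun _ => c := by
  induction n with
  | zero => rfl
  | succ n ih => rw [Ln_succ, ih, Lz_const]

theorem Ln_mono (ω : Om d) (n : ℕ) {g h : V d → ℝ} (hgh : ∀ x, g x ≤ h x) (x : V d) :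
    Ln ω n g x ≤ Ln ω n h x := by
  induction n generalizing x with
  | zero => exact hgh x
  | succ n ih =>
    rw [Ln_succ, Ln_succ]
    exact Lz_mono ω ih x

theorem Ln_congr (ω : Om d) (n : ℕ) {g h : V d → ℝ} {x : V d} (hgh : ∀ y ∈ Bx n x, g y = h y) :
    Ln ω n g x = Ln ω n h x := by
  induction n generalizing x with
  | zero => exact hgh x (self_mem_Bx 0 x)
  | succ n ih =>
    rw [Ln_succ, Ln_succ]
    refine Lz_congr ω fun y hy => ih fun z hz => hgh z ?_
    exact Bx_subset hy hz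

theorem Ln_sum {ι : Type*} (ω : Om d) (s : Finset ι) (n : ℕ) (g : ι → V d → ℝ) :
    Ln ω n (∑ i ∈ s, g i) = ∑ i ∈ s, Ln ω n (g i) := by
  classical
  induction s using Finset.induction_on with
  | empty =>
    simp only [Finset.sum_empty]
    exact Ln_const ω n 0
  | insert a s ha ih => rw [Finset.sum_insert ha, Finset.sum_insert ha, Ln_add, ih]

theorem Ln_eq_sum (ω : Om d) (n : ℕ) (g : V d → ℝ) (x : V d) :
    Ln ω n g x = ∑ y ∈ Bx n x, Ln ω n (Set.indicator {y} (fun _ => (1 : ℝ))) x * g y := by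
  classical
  have h1 : Ln ω n g x = Ln ω n (∑ y ∈ Bx n x, g y • Set.indicator {y} (fun _ => (1 : ℝ))) x := by
    refine Ln_congr ω n fun z hz => ?_
    rw [Finset.sum_apply, Finset.sum_eq_single z]
    · simp
    · intro b _ hb
      simp [Ne.symm hb]
    · intro h
      exact absurd hz h
  rw [h1, Ln_sum, Finset.sum_apply]
  refine Finset.sum_congr rfl fun y _ => ?_
  rw [Ln_smul, Pi.smul_apply, smul_eq_mul, mul_comm]

theorem Ln_sq_le (ω : Om d) (n : ℕ) (g : V d → ℝ) (x : V d) :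
    (Ln ω n g x) ^ 2 ≤ Ln ω n (fun y => g y ^ 2) x := by
  induction n generalizing x with
  | zero => exact le_rfl
  | succ n ih =>
    rw [Ln_succ, Ln_succ]
    exact (Lz_sq_le ω _ x).trans (Lz_mono ω ih x)

theorem conn_of_Ln (ω : Om d) (n : ℕ) (x y : V d)
    (h : Ln ω n (Set.indicator {y} (fun _ => (1 : ℝ))) x ≠ 0) : Conn ω x y := by
  induction n generalizing x with
  | zero =>
    rw [Ln_zero] at h
    have hx : x ∈ ({y} : Set (V d)) := by
      by_contra hx
      exact h (Set.indicator_of_notMem hx _)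
    rw [Set.mem_singleton_iff.1 hx]
    exact Relation.ReflTransGen.refl
  | succ n ih =>
    rw [Ln_succ] at h
    by_cases h1 : Ln ω n (Set.indicator {y} (fun _ => (1 : ℝ))) x = 0
    · have h2 : Pop 0 0 ω (Ln ω n (Set.indicator {y} (fun _ => (1 : ℝ)))) x ≠ 0 := by
        intro h2
        exact h (by simp only [Lz, h1, h2]; norm_num)
      by_cases hZ : Zw 0 0 ω x = 0
      · rw [Pop, if_pos hZ] at h2
        exact absurd h1 h2
      · rw [Pop, if_neg hZ] at h2
        have h3 : ∑ δ, wt 0 0 ω x δ * Ln ω n (Set.indicator {y} (fun _ => (1 : ℝ))) (x + st δ) ≠ 0 := by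
          intro h3
          exact h2 (by rw [h3, zero_div])
        obtain ⟨δ, _, hδ⟩ := Finset.exists_ne_zero_of_sum_ne_zero h3
        have h4 : wt 0 0 ω x δ ≠ 0 := left_ne_zero_of_mul hδ
        have h5 := right_ne_zero_of_mul hδ
        have h6 : opn ω x δ := by
          by_contra h6
          exact h4 (by rw [wt, if_neg h6])
        exact Relation.ReflTransGen.head ⟨δ, h6, rfl⟩ (ih _ h5)
    · exact ih x h1

theorem wt_zero (ω : Om d) (x : V d) (δ : Dir d) :
    wt 0 0 ω x δ = if opn ω x δ then 1 else 0 := by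
  simp [wt]

theorem oo_sh (ω : Om d) (x : V d) (δ : Dir d) : oo (sh x ω) δ = wt 0 0 ω x δ := by
  rw [wt_zero, oo]
  have := opn_sh ω x 0 δ
  rw [zero_add] at this
  simp only [this]

theorem dg_sh (ω : Om d) (x : V d) : dg (sh x ω) = Zw 0 0 ω x := by
  simp only [dg, Zw, oo_sh]

/-- One step of the lazy walk, multiplied by the degree. -/
theorem dg_mul_Lz (ω : Om d) (g : V d → ℝ) (x : V d) :
    dg (sh x ω) * Lz ω g x =
      (dg (sh x ω) * g x + ∑ δ, wt 0 0 ω x δ * g (x + st δ)) / 2 := by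
  rw [dg_sh]
  by_cases hZ : Zw 0 0 ω x = 0
  · have h1 : ∀ δ, wt 0 0 ω x δ = 0 := by
      intro δ
      have h2 := (Zw_eq_zero_iff 0 0 ω x).1 hZ δ
      rw [wt, if_neg h2]
    rw [hZ]
    simp [h1]
  · simp only [Lz, Pop, if_neg hZ]
    field_simp

theorem Lz_rev (ω : Om d) (x y : V d) :
    dg (sh x ω) * Lz ω (Set.indicator {y} (fun _ => (1 : ℝ))) x
      = dg (sh y ω) * Lz ω (Set.indicator {x} (fun _ => (1 : ℝ))) y := by
  classical
  rw [dg_mul_Lz, dg_mul_Lz]
  congr 1
  congr 1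
  · by_cases h : x = y
    · rw [h]
    · have h' : y ≠ x := fun e => h e.symm
      rw [Set.indicator_of_notMem (by simpa using h), Set.indicator_of_notMem (by simpa using h')]
      simp
  · have hinv : Function.Involutive (rv : Dir d → Dir d) := fun δ => rv_rv δ
    rw [← Equiv.sum_comp (hinv.toPerm rv)
      (fun δ => wt 0 0 ω y δ * (Set.indicator {x} (fun _ => (1 : ℝ))) (y + st δ))]
    refine Finset.sum_congr rfl fun δ _ => ?_
    simp only [Function.Involutive.coe_toPerm]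
    by_cases h : x + st δ = y
    · have h1 : y + st (rv δ) = x := by rw [st_rv, ← h]; abel
      rw [h1, h]
      have h2 : (Set.indicator {y} (fun _ => (1 : ℝ))) y = 1 := by simp
      have h3 : (Set.indicator {x} (fun _ => (1 : ℝ))) x = 1 := by simp
      rw [h2, h3, wt_zero, wt_zero, ← h]
      simp only [opn_rv]
    · have h1 : y + st (rv δ) ≠ x := by
        intro h1
        apply h
        rw [← h1, st_rv]
        abel
      rw [Set.indicator_of_notMem (by simpa using h), Set.indicator_of_notMem (by simpa using h1)]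
      simp

theorem Ln_eq_zero (ω : Om d) (n : ℕ) (x y : V d) (h : y ∉ Bx n x) :
    Ln ω n (Set.indicator {y} (fun _ => (1 : ℝ))) x = 0 := by
  have h1 : Ln ω n (Set.indicator {y} (fun _ => (1 : ℝ))) x = Ln ω n (fun _ => (0 : ℝ)) x := by
    refine Ln_congr ω n fun z hz => ?_
    refine Set.indicator_of_notMem ?_ _
    intro hzy
    rw [Set.mem_singleton_iff] at hzy
    exact h (hzy ▸ hz)
  rw [h1, Ln_const]

/-- Reversibility for a fixed configuration. -/
theorem Ln_rev (ω : Om d) (n : ℕ) (x y : V d) :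
    dg (sh x ω) * Ln ω n (Set.indicator {y} (fun _ => (1 : ℝ))) x
      = dg (sh y ω) * Ln ω n (Set.indicator {x} (fun _ => (1 : ℝ))) y := by
  classical
  induction n generalizing x y with
  | zero =>
    simp only [Ln_zero]
    by_cases h : x = y
    · rw [h]
    · have h' : y ≠ x := fun e => h e.symm
      rw [Set.indicator_of_notMem (by simpa using h), Set.indicator_of_notMem (by simpa using h')]
      simp
  | succ n ih =>
    have L1 : ∀ (w : V d) (g : V d → ℝ), Lz ω g w = Ln ω 1 g w := fun w g => by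
      rw [Ln_succ, Ln_zero]
    rw [Ln_succ' ω n, Ln_eq_sum ω n _ x, Ln_succ ω n, L1 y, Ln_eq_sum ω 1 _ y, Finset.mul_sum,
      Finset.mul_sum]
    have e1 : ∑ z ∈ Bx n x, dg (sh x ω) * (Ln ω n (Set.indicator {z} (fun _ => (1 : ℝ))) x *
        Lz ω (Set.indicator {y} (fun _ => (1 : ℝ))) z) =
        ∑ z ∈ Bx n x ∪ Bx 1 y, dg (sh y ω) * (Ln ω 1 (Set.indicator {z} (fun _ => (1 : ℝ))) y *
          Ln ω n (Set.indicator {x} (fun _ => (1 : ℝ))) z) := by
      rw [← Finset.sum_subset Finset.subset_union_left]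
      · refine Finset.sum_congr rfl fun z _ => ?_
        have h1 := ih x z
        have h2 := Lz_rev ω z y
        rw [← L1]
        calc dg (sh x ω) * (Ln ω n (Set.indicator {z} (fun _ => (1 : ℝ))) x *
              Lz ω (Set.indicator {y} (fun _ => (1 : ℝ))) z)
            = (dg (sh x ω) * Ln ω n (Set.indicator {z} (fun _ => (1 : ℝ))) x) *
              Lz ω (Set.indicator {y} (fun _ => (1 : ℝ))) z := by ring
          _ = (dg (sh z ω) * Lz ω (Set.indicator {y} (fun _ => (1 : ℝ))) z) *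
              Ln ω n (Set.indicator {x} (fun _ => (1 : ℝ))) z := by rw [h1]; ring
          _ = _ := by rw [h2]; ring
      · intro z _ hz
        have : x ∉ Bx n z := fun h => hz (Bx_comm.1 h)
        rw [Ln_eq_zero ω n z x this]
        ring
    rw [e1]
    symm
    refine Finset.sum_subset Finset.subset_union_right fun z _ hz => ?_
    rw [Ln_eq_zero ω 1 y z hz]
    ring

theorem measurable_Ln (n : ℕ) (g : Om d → V d → ℝ)
    (hg : ∀ y, Measurable (fun ω => g ω y)) (x : V d) :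
    Measurable (fun ω => Ln ω n (g ω) x) := by
  induction n generalizing g with
  | zero => exact hg x
  | succ n ih =>
    simp only [Ln_succ']
    refine ih (fun ω => Lz ω (g ω)) fun y => ?_
    have h1 := measurable_Pn (d := d) 0 0 1 g hg y
    simp only [Pn_succ, Pn_zero] at h1
    exact ((hg y).add h1).div_const 2

theorem Lz_sh (ω : Om d) (z : V d) (g : V d → ℝ) (x : V d) :
    Lz (sh z ω) g x = Lz ω (fun y => g (y - z)) (x + z) := by
  have h1 := Pn_sh 0 0 ω z 1 g x
  simp only [Pn_succ, Pn_zero] at h1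
  simp only [Lz]
  rw [h1, add_sub_cancel_right]

theorem Ln_sh (ω : Om d) (z : V d) (n : ℕ) (g : V d → ℝ) (x : V d) :
    Ln (sh z ω) n g x = Ln ω n (fun y => g (y - z)) (x + z) := by
  induction n generalizing g with
  | zero => simp [Ln_zero]
  | succ n ih =>
    rw [Ln_succ', Ln_succ', ih]
    congr 1
    funext y
    rw [Lz_sh, sub_add_cancel]

/-- General first step decomposition. -/
theorem Ln_first (ω : Om d) (n : ℕ) (g : V d → ℝ) (h : dg ω ≠ 0) :
    Ln ω (n + 1) g 0 = (Ln ω n g 0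
      + (∑ δ, oo ω δ * Ln (sh (st δ) ω) n (fun y => g (y + st δ)) 0) / dg ω) / 2 := by
  have h0 : dg ω = Zw 0 0 ω 0 := by rw [← dg_sh, sh_zero]
  rw [Ln_succ]
  simp only [Lz]
  rw [Pop, if_neg (by rw [← h0]; exact h), h0]
  congr 3
  refine Finset.sum_congr rfl fun δ _ => ?_
  have h1 : oo ω δ = wt 0 0 ω 0 δ := by rw [← oo_sh, sh_zero]
  rw [h1, Ln_sh]
  simp only [sub_add_cancel]

end Ein99
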