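import Pool.Agent.LibEin99.E_Rev

/-!
TASK E_Op. The operator `Ae` on functions of the environment.

`Pe f ω = (∑_δ oo ω δ f(sh (st δ) ω)) / dg ω` (if `dg ω ≠ 0`), `Ae f = (f + Pe f)/2`.
With `⟨f, g⟩ = ∫ dg f g d(nu)` (`1 ≤ dg ≤ 2d` nu-a.e.):
* `⟨f, Pe g⟩ = ∫ ∑_δ oo f(ω) g(sh (st δ) ω) = ⟨Pe f, g⟩` by `rev_int` with
  `F ω δ = f ω * g (sh (st δ) ω)` (note `sh (st (rv δ)) (sh (st δ) ω) = ω`);
* `(Pe f)² ≤ Pe (f²)` pointwise and `∫ dg Pe(f²) = ∫ dg f²` give the contraction;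
* `⟨f, Ae f⟩ = (‖f‖² + ⟨f, Pe f⟩)/2 ≥ 0` as `|⟨f, Pe f⟩| ≤ ‖f‖²`;
* `Ae - Ae² = (1 - Pe²)/4`.
Integrability: everything is in `L²(nu)`.
-/

open MeasureTheory ProbabilityTheory Filter Topology
open scoped ENNReal

namespace Ein99

variable {d : ℕ} (p : unitInterval)

/-- one step of the non lazy walk on functions of the environment -/
noncomputable def Pe (f : Om d → ℝ) (ω : Om d) : ℝ := Pop 0 0 ω (fun x => f (sh x ω)) 0


/-! ### Auxiliary lemmas -/

theorem wt_zero_eq (ω : Om d) (δ : Dir d) : wt 0 0 ω 0 δ = oo ω δ := by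
  unfold wt oo
  split_ifs <;> simp

theorem Zw_zero_eq (ω : Om d) : Zw 0 0 ω 0 = dg ω := by
  unfold Zw dg
  exact Finset.sum_congr rfl (fun δ _ => wt_zero_eq ω δ)

theorem oo_nonneg (ω : Om d) (δ : Dir d) : 0 ≤ oo ω δ := by
  unfold oo
  split_ifs <;> norm_num

theorem oo_le_one (ω : Om d) (δ : Dir d) : oo ω δ ≤ 1 := by
  unfold oo
  split_ifs <;> norm_num

theorem dg_nonneg (ω : Om d) : 0 ≤ dg ω := by
  unfold dg
  exact Finset.sum_nonneg (fun δ _ => oo_nonneg ω δ)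

theorem st_rv_add (δ : Dir d) : st (rv δ) + st δ = 0 := by
  unfold st rv
  rcases δ with ⟨i, b⟩
  cases b <;> simp [← Pi.single_add]

theorem sh_rv_sh (ω : Om d) (δ : Dir d) : sh (st (rv δ)) (sh (st δ) ω) = ω := by
  rw [sh_sh, st_rv_add, sh_zero]

theorem Ae_eq (f : Om d → ℝ) (ω : Om d) : Ae f ω = (f ω + Pe f ω) / 2 := by
  unfold Ae Lz Pe
  simp only [sh_zero]

theorem dg_mul_Pe (f : Om d → ℝ) (ω : Om d) (h : 1 ≤ dg ω) :
    dg ω * Pe f ω = ∑ δ, oo ω δ * f (sh (st δ) ω) := by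
  have hne : dg ω ≠ 0 := by
    intro h0
    rw [h0] at h
    norm_num at h
  unfold Pe Pop
  rw [Zw_zero_eq, if_neg hne]
  rw [mul_div_cancel₀ _ hne]
  refine Finset.sum_congr rfl (fun δ _ => ?_)
  rw [wt_zero_eq, zero_add]

theorem measurable_Pe {f : Om d → ℝ} (hf : Measurable f) : Measurable (Pe f) := by
  have h := measurable_Pn (d := d) 0 0 1 (fun ω x => f (sh x ω))
    (fun y => hf.comp (measurable_sh y)) 0
  have e : (fun ω => Pn 0 0 ω 1 (fun x => f (sh x ω)) 0) = Pe f := by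
    funext ω
    unfold Pe Pn
    simp
  rw [← e]
  exact h

theorem measurable_Ae {f : Om d → ℝ} (hf : Measurable f) : Measurable (Ae f) := by
  have e : Ae f = fun ω => (f ω + Pe f ω) / 2 := funext (Ae_eq f)
  rw [e]
  exact (hf.add (measurable_Pe hf)).div_const 2

theorem Pe_nonneg {f : Om d → ℝ} (hf : ∀ ω, 0 ≤ f ω) (ω : Om d) : 0 ≤ Pe f ω := by
  have := Pop_mono (d := d) 0 0 ω (g := fun _ => (0 : ℝ)) (h := fun x => f (sh x ω))
    (fun x => hf _) 0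
  rw [Pop_const] at this
  exact this

theorem Pe_sq_le (f : Om d → ℝ) (ω : Om d) : (Pe f ω) ^ 2 ≤ Pe (fun ω => f ω ^ 2) ω :=
  Pop_sq_le 0 0 ω _ 0

/-- multiplication by the degree preserves integrability -/
theorem int_dg {h : Om d → ℝ} (hh : Integrable h (nu d p)) :
    Integrable (fun ω => dg ω * h ω) (nu d p) := by
  refine hh.bdd_mul (c := 2 * d) measurable_dg.aestronglyMeasurable ?_
  refine Filter.Eventually.of_forall (fun ω => ?_)
  rw [Real.norm_eq_abs, abs_of_nonneg (dg_nonneg ω)]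
  exact dg_le ω

theorem sum_oo_mul (ω : Om d) (c : ℝ) : ∑ δ, oo ω δ * c = dg ω * c := by
  unfold dg
  rw [Finset.sum_mul]

theorem int_oo_abs {f : Om d → ℝ} (hf : Integrable f (nu d p)) :
    Integrable (fun ω => ∑ δ, oo ω δ * |f ω|) (nu d p) := by
  simp only [sum_oo_mul]
  exact int_dg p hf.abs

theorem int_oo_sh_abs {f : Om d → ℝ} (hm : Measurable f) (hf : Integrable f (nu d p)) :
    Integrable (fun ω => ∑ δ, oo ω δ * |f (sh (st δ) ω)|) (nu d p) :=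
  rev_integrable p (fun ω _ => f ω) (fun _ => hm) (int_oo_abs p hf)

theorem int_oo_of_abs (F : Fld d) (hF : ∀ δ, Measurable (fun ω => F ω δ))
    (h : Integrable (fun ω => ∑ δ, oo ω δ * |F ω δ|) (nu d p)) :
    Integrable (fun ω => ∑ δ, oo ω δ * F ω δ) (nu d p) := by
  refine h.mono' ?_ ?_
  · refine (Finset.measurable_sum _ (fun δ _ => ?_)).aestronglyMeasurable
    exact (measurable_oo δ).mul (hF δ)
  · refine Filter.Eventually.of_forall (fun ω => ?_)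
    rw [Real.norm_eq_abs]
    refine (Finset.abs_sum_le_sum_abs _ _).trans ?_
    refine Finset.sum_le_sum (fun δ _ => ?_)
    rw [abs_mul, abs_of_nonneg (oo_nonneg ω δ)]

theorem int_oo_sh {f : Om d → ℝ} (hm : Measurable f) (hf : Integrable f (nu d p)) :
    Integrable (fun ω => ∑ δ, oo ω δ * f (sh (st δ) ω)) (nu d p) :=
  int_oo_of_abs p (fun ω δ => f (sh (st δ) ω)) (fun δ => hm.comp (measurable_sh _))
    (int_oo_sh_abs p hm hf)

/-- stationarity for functions of the environment -/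
theorem int_sh_eq {f : Om d → ℝ} (hm : Measurable f) (hf : Integrable f (nu d p)) :
    ∫ ω, ∑ δ, oo ω δ * f (sh (st δ) ω) ∂(nu d p) = ∫ ω, dg ω * f ω ∂(nu d p) := by
  have h := rev_int p (fun ω _ => f ω) (fun _ => hm) (int_oo_abs p hf)
  rw [← h]
  simp only [sum_oo_mul]

theorem sq_int {f : Om d → ℝ} (hf : MemLp f 2 (nu d p)) :
    Integrable (fun ω => f ω ^ 2) (nu d p) := hf.integrable_sq

/-- the mixed terms are integrable -/
theorem int_mixed_abs {f g : Om d → ℝ} (hmf : Measurable f) (hmg : Measurable g)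
    (hf : MemLp f 2 (nu d p)) (hg : MemLp g 2 (nu d p)) :
    Integrable (fun ω => ∑ δ, oo ω δ * |f ω * g (sh (st δ) ω)|) (nu d p) := by
  have h1 := int_oo_abs p (sq_int p hf)
  have h2 := int_oo_sh_abs p (hmg.pow_const 2) (sq_int p hg)
  refine (h1.add h2).mono' ?_ ?_
  · refine (Finset.measurable_sum _ (fun δ _ => ?_)).aestronglyMeasurable
    exact (measurable_oo δ).mul (hmf.mul (hmg.comp (measurable_sh _))).abs
  · refine Filter.Eventually.of_forall (fun ω => ?_)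
    have hn : 0 ≤ ∑ δ, oo ω δ * |f ω * g (sh (st δ) ω)| :=
      Finset.sum_nonneg (fun δ _ => mul_nonneg (oo_nonneg ω δ) (abs_nonneg _))
    rw [Real.norm_eq_abs, abs_of_nonneg hn]
    simp only [Pi.add_apply]
    rw [← Finset.sum_add_distrib]
    refine Finset.sum_le_sum (fun δ _ => ?_)
    rw [← mul_add]
    refine mul_le_mul_of_nonneg_left ?_ (oo_nonneg ω δ)
    rw [abs_mul, abs_of_nonneg (sq_nonneg (f ω)), abs_of_nonneg (sq_nonneg (g (sh (st δ) ω)))]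
    nlinarith [sq_nonneg (|f ω| - |g (sh (st δ) ω)|), sq_abs (f ω), sq_abs (g (sh (st δ) ω)),
      abs_nonneg (f ω), abs_nonneg (g (sh (st δ) ω))]

theorem memLp_Pe {f : Om d → ℝ} (hm : Measurable f) (hf : MemLp f 2 (nu d p)) :
    MemLp (Pe f) 2 (nu d p) := by
  rw [memLp_two_iff_integrable_sq (measurable_Pe hm).aestronglyMeasurable]
  refine (int_oo_sh p (hm.pow_const 2) (sq_int p hf)).mono'
    ((measurable_Pe hm).pow_const 2).aestronglyMeasurable ?_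
  filter_upwards [ae_one_le_dg p] with ω hω
  rw [Real.norm_eq_abs, abs_of_nonneg (sq_nonneg _)]
  have h1 := Pe_sq_le f ω
  have h2 := dg_mul_Pe (fun ω => f ω ^ 2) ω hω
  have h3 : 0 ≤ Pe (fun ω => f ω ^ 2) ω := Pe_nonneg (fun ω => sq_nonneg _) ω
  calc Pe f ω ^ 2 ≤ Pe (fun ω => f ω ^ 2) ω := h1
    _ ≤ dg ω * Pe (fun ω => f ω ^ 2) ω := by nlinarith
    _ = _ := h2

theorem memLp_Ae {f : Om d → ℝ} (hm : Measurable f) (hf : MemLp f 2 (nu d p)) :
    MemLp (Ae f) 2 (nu d p) := by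
  have e : Ae f = fun ω => (1 / 2 : ℝ) * (f ω + Pe f ω) := by
    funext ω
    rw [Ae_eq]
    ring
  rw [e]
  exact (hf.add (memLp_Pe p hm hf)).const_mul (1 / 2 : ℝ)

theorem int_prod {f g : Om d → ℝ} (hf : MemLp f 2 (nu d p)) (hg : MemLp g 2 (nu d p)) :
    Integrable (fun ω => dg ω * (f ω * g ω)) (nu d p) :=
  int_dg p (hf.integrable_mul hg)

theorem int_dg_mul_Pe {f g : Om d → ℝ} :
    ∫ ω, dg ω * (f ω * Pe g ω) ∂(nu d p)
      = ∫ ω, ∑ δ, oo ω δ * (f ω * g (sh (st δ) ω)) ∂(nu d p) := by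
  refine integral_congr_ae ?_
  filter_upwards [ae_one_le_dg p] with ω hω
  have h := dg_mul_Pe g ω hω
  calc dg ω * (f ω * Pe g ω) = f ω * (dg ω * Pe g ω) := by ring
    _ = f ω * ∑ δ, oo ω δ * g (sh (st δ) ω) := by rw [h]
    _ = _ := by
        rw [Finset.mul_sum]
        exact Finset.sum_congr rfl (fun δ _ => by ring)

theorem Pe_symm {f g : Om d → ℝ} (hmf : Measurable f) (hmg : Measurable g)
    (hf : MemLp f 2 (nu d p)) (hg : MemLp g 2 (nu d p)) :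
    ∫ ω, dg ω * (f ω * Pe g ω) ∂(nu d p) = ∫ ω, dg ω * (Pe f ω * g ω) ∂(nu d p) := by
  have e : ∫ ω, dg ω * (Pe f ω * g ω) ∂(nu d p) = ∫ ω, dg ω * (g ω * Pe f ω) ∂(nu d p) :=
    integral_congr_ae (Filter.Eventually.of_forall (fun ω => by ring_nf))
  rw [e, int_dg_mul_Pe, int_dg_mul_Pe]
  have h := rev_int p (fun ω δ => f ω * g (sh (st δ) ω))
    (fun δ => hmf.mul (hmg.comp (measurable_sh _))) (int_mixed_abs p hmf hmg hf hg)
  rw [h]
  refine integral_congr_ae (Filter.Eventually.of_forall (fun ω => ?_))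
  refine Finset.sum_congr rfl (fun δ _ => ?_)
  simp only [sh_rv_sh]
  ring

theorem Ae_symm {f g : Om d → ℝ} (hmf : Measurable f) (hmg : Measurable g)
    (hf : MemLp f 2 (nu d p)) (hg : MemLp g 2 (nu d p)) :
    ∫ ω, dg ω * (f ω * Ae g ω) ∂(nu d p) = ∫ ω, dg ω * (Ae f ω * g ω) ∂(nu d p) := by
  have h := Pe_symm p hmf hmg hf hg
  have i0 := int_prod p hf hg
  have i1 := int_prod p hf (memLp_Pe p hmg hg)
  have i2 := int_prod p (memLp_Pe p hmf hf) hg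
  have e1 : ∫ ω, dg ω * (f ω * Ae g ω) ∂(nu d p)
      = ∫ ω, (1 / 2 : ℝ) * (dg ω * (f ω * g ω) + dg ω * (f ω * Pe g ω)) ∂(nu d p) :=
    integral_congr_ae (Filter.Eventually.of_forall (fun ω => by
      simp only [Ae_eq]; ring))
  have e2 : ∫ ω, dg ω * (Ae f ω * g ω) ∂(nu d p)
      = ∫ ω, (1 / 2 : ℝ) * (dg ω * (f ω * g ω) + dg ω * (Pe f ω * g ω)) ∂(nu d p) :=
    integral_congr_ae (Filter.Eventually.of_forall (fun ω => by
      simp only [Ae_eq]; ring))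
  rw [e1, e2, integral_const_mul, integral_const_mul, integral_add i0 i1, integral_add i0 i2, h]

theorem Pe_contr {f : Om d → ℝ} (hmf : Measurable f) (hf : MemLp f 2 (nu d p)) :
    ∫ ω, dg ω * (Pe f ω) ^ 2 ∂(nu d p) ≤ ∫ ω, dg ω * (f ω) ^ 2 ∂(nu d p) := by
  rw [← int_sh_eq p (hmf.pow_const 2) (sq_int p hf)]
  refine integral_mono_ae (int_dg p (sq_int p (memLp_Pe p hmf hf)))
    (int_oo_sh p (hmf.pow_const 2) (sq_int p hf)) ?_
  filter_upwards [ae_one_le_dg p] with ω hω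
  have h2 := dg_mul_Pe (fun ω => f ω ^ 2) ω hω
  rw [← h2]
  exact mul_le_mul_of_nonneg_left (Pe_sq_le f ω) (dg_nonneg ω)

theorem Ae_contr {f : Om d → ℝ} (hmf : Measurable f) (hf : MemLp f 2 (nu d p)) :
    ∫ ω, dg ω * (Ae f ω) ^ 2 ∂(nu d p) ≤ ∫ ω, dg ω * (f ω) ^ 2 ∂(nu d p) := by
  have h := Pe_contr p hmf hf
  have i0 := int_dg p (sq_int p hf)
  have i1 := int_dg p (sq_int p (memLp_Pe p hmf hf))
  have h2 : ∫ ω, dg ω * (Ae f ω) ^ 2 ∂(nu d p)
      ≤ ∫ ω, (1 / 2 : ℝ) * (dg ω * f ω ^ 2 + dg ω * Pe f ω ^ 2) ∂(nu d p) := by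
    refine integral_mono (int_dg p (sq_int p (memLp_Ae p hmf hf)))
      ((i0.add i1).const_mul _) (fun ω => ?_)
    simp only [Ae_eq]
    have : ((f ω + Pe f ω) / 2) ^ 2 ≤ (1 / 2 : ℝ) * (f ω ^ 2 + Pe f ω ^ 2) := by
      nlinarith [sq_nonneg (f ω - Pe f ω)]
    calc dg ω * ((f ω + Pe f ω) / 2) ^ 2 ≤ dg ω * ((1 / 2 : ℝ) * (f ω ^ 2 + Pe f ω ^ 2)) :=
          mul_le_mul_of_nonneg_left this (dg_nonneg ω)
      _ = _ := by ring
  rw [integral_const_mul, integral_add i0 i1] at h2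
  linarith

theorem Ae_pos {f : Om d → ℝ} (hmf : Measurable f) (hf : MemLp f 2 (nu d p)) :
    0 ≤ ∫ ω, dg ω * (f ω * Ae f ω) ∂(nu d p) := by
  have h := Pe_contr p hmf hf
  have i0 := int_dg p (sq_int p hf)
  have i1 := int_dg p (sq_int p (memLp_Pe p hmf hf))
  have h2 : ∫ ω, (1 / 4 : ℝ) * (dg ω * f ω ^ 2 - dg ω * Pe f ω ^ 2) ∂(nu d p)
      ≤ ∫ ω, dg ω * (f ω * Ae f ω) ∂(nu d p) := by
    refine integral_mono ((i0.sub i1).const_mul _)
      (int_prod p hf (memLp_Ae p hmf hf)) (fun ω => ?_)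
    simp only [Ae_eq]
    have : (1 / 4 : ℝ) * (f ω ^ 2 - Pe f ω ^ 2) ≤ f ω * ((f ω + Pe f ω) / 2) := by
      nlinarith [sq_nonneg (f ω + Pe f ω)]
    calc (1 / 4 : ℝ) * (dg ω * f ω ^ 2 - dg ω * Pe f ω ^ 2)
        = dg ω * ((1 / 4 : ℝ) * (f ω ^ 2 - Pe f ω ^ 2)) := by ring
      _ ≤ _ := mul_le_mul_of_nonneg_left this (dg_nonneg ω)
  rw [integral_const_mul, integral_sub i0 i1] at h2
  linarith

theorem integrable_Pe {f : Om d → ℝ} (hmf : Measurable f) (hf : Integrable f (nu d p)) :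
    Integrable (fun ω => dg ω * Pe f ω) (nu d p) := by
  refine (int_oo_sh p hmf hf).congr ?_
  filter_upwards [ae_one_le_dg p] with ω hω
  exact (dg_mul_Pe f ω hω).symm

theorem Ae_mean {f : Om d → ℝ} (hmf : Measurable f) (hf : Integrable f (nu d p)) :
    ∫ ω, dg ω * Ae f ω ∂(nu d p) = ∫ ω, dg ω * f ω ∂(nu d p) := by
  have i0 := int_dg p hf
  have i1 := integrable_Pe p hmf hf
  have e1 : ∫ ω, dg ω * Ae f ω ∂(nu d p)
      = ∫ ω, (1 / 2 : ℝ) * (dg ω * f ω + dg ω * Pe f ω) ∂(nu d p) :=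
    integral_congr_ae (Filter.Eventually.of_forall (fun ω => by
      simp only [Ae_eq]; ring))
  have e2 : ∫ ω, dg ω * Pe f ω ∂(nu d p) = ∫ ω, dg ω * f ω ∂(nu d p) := by
    rw [← int_sh_eq p hmf hf]
    refine integral_congr_ae ?_
    filter_upwards [ae_one_le_dg p] with ω hω
    exact dg_mul_Pe f ω hω
  rw [e1, integral_const_mul, integral_add i0 i1, e2]
  ring

theorem integral_four {A B C D : Om d → ℝ} (hA : Integrable A (nu d p))
    (hB : Integrable B (nu d p)) (hC : Integrable C (nu d p)) (hD : Integrable D (nu d p)) :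
    ∫ ω, ((A ω + B ω) - (C ω + D ω)) ∂(nu d p)
      = ∫ ω, A ω ∂(nu d p) + ∫ ω, B ω ∂(nu d p) - (∫ ω, C ω ∂(nu d p) + ∫ ω, D ω ∂(nu d p)) := by
  rw [← integral_add hA hB, ← integral_add hC hD]
  exact integral_sub (hA.add hB) (hC.add hD)

/-- Dirichlet form. -/
theorem Ae_dirichlet {f g : Om d → ℝ} (hmf : Measurable f) (hmg : Measurable g)
    (hf : MemLp f 2 (nu d p)) (hg : MemLp g 2 (nu d p)) :
    ∫ ω, dg ω * (f ω * (g ω - Ae g ω)) ∂(nu d p)
      = (1 / 4) * ∫ ω, ∑ δ, oo ω δ * (gr f ω δ * gr g ω δ) ∂(nu d p) := by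
  have i0 := int_prod p hf hg
  have i1 := int_prod p hf (memLp_Pe p hmg hg)
  have i2 : Integrable (fun ω => ∑ δ, oo ω δ * (f ω * g (sh (st δ) ω))) (nu d p) :=
    int_oo_of_abs p (fun ω δ => f ω * g (sh (st δ) ω))
      (fun δ => hmf.mul (hmg.comp (measurable_sh _))) (int_mixed_abs p hmf hmg hf hg)
  have i3 : Integrable (fun ω => ∑ δ, oo ω δ * (g ω * f (sh (st δ) ω))) (nu d p) :=
    int_oo_of_abs p (fun ω δ => g ω * f (sh (st δ) ω))
      (fun δ => hmg.mul (hmf.comp (measurable_sh _))) (int_mixed_abs p hmg hmf hg hf)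
  have i4 : Integrable (fun ω => ∑ δ, oo ω δ * ((fun ω => f ω * g ω) (sh (st δ) ω))) (nu d p) :=
    int_oo_sh p (hmf.mul hmg) (hf.integrable_mul hg)
  have e4 := int_sh_eq p (f := fun ω => f ω * g ω) (hmf.mul hmg) (hf.integrable_mul hg)
  have e1 : ∫ ω, dg ω * (f ω * (g ω - Ae g ω)) ∂(nu d p)
      = ∫ ω, (1 / 2 : ℝ) * (dg ω * (f ω * g ω) - dg ω * (f ω * Pe g ω)) ∂(nu d p) :=
    integral_congr_ae (Filter.Eventually.of_forall (fun ω => by
      simp only [Ae_eq]; ring))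
  have e2 : ∫ ω, ∑ δ, oo ω δ * (gr f ω δ * gr g ω δ) ∂(nu d p)
      = ∫ ω, ((∑ δ, oo ω δ * ((fun ω => f ω * g ω) (sh (st δ) ω)) + dg ω * (f ω * g ω))
          - (∑ δ, oo ω δ * (f ω * g (sh (st δ) ω))
            + ∑ δ, oo ω δ * (g ω * f (sh (st δ) ω)))) ∂(nu d p) := by
    refine integral_congr_ae (Filter.Eventually.of_forall (fun ω => ?_))
    simp only [gr]
    rw [← sum_oo_mul, ← Finset.sum_add_distrib, ← Finset.sum_add_distrib,
      ← Finset.sum_sub_distrib]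
    exact Finset.sum_congr rfl (fun δ _ => by ring)
  have e3 := Pe_symm p hmf hmg hf hg
  have e5 : ∫ ω, dg ω * (Pe f ω * g ω) ∂(nu d p)
      = ∫ ω, ∑ δ, oo ω δ * (g ω * f (sh (st δ) ω)) ∂(nu d p) := by
    rw [← int_dg_mul_Pe]
    exact integral_congr_ae (Filter.Eventually.of_forall (fun ω => by ring_nf))
  rw [e1, integral_const_mul, integral_sub i0 i1, e2, integral_four p i4 i0 i2 i3, e4, ← e5,
    ← e3, ← int_dg_mul_Pe]
  ring

theorem measurable_Ae_iter {f : Om d → ℝ} (hmf : Measurable f) (j : ℕ) :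
    Measurable (Ae^[j] f) := by
  induction j with
  | zero => exact hmf
  | succ j ih =>
    rw [Function.iterate_succ_apply']
    exact measurable_Ae ih

theorem memLp_Ae_iter {f : Om d → ℝ} (hmf : Measurable f) (hf : MemLp f 2 (nu d p)) (j : ℕ) :
    MemLp (Ae^[j] f) 2 (nu d p) := by
  induction j with
  | zero => exact hf
  | succ j ih =>
    rw [Function.iterate_succ_apply']
    exact memLp_Ae p (measurable_Ae_iter hmf j) ih

theorem Ae_iter_symm_aux {g : Om d → ℝ} (hmg : Measurable g) (hg : MemLp g 2 (nu d p)) (j : ℕ) :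
    ∀ f : Om d → ℝ, Measurable f → MemLp f 2 (nu d p) →
    ∫ ω, dg ω * (f ω * (Ae^[j] g) ω) ∂(nu d p) = ∫ ω, dg ω * ((Ae^[j] f) ω * g ω) ∂(nu d p) := by
  induction j with
  | zero => intro f _ _; rfl
  | succ j ih =>
    intro f hmf hf
    rw [Function.iterate_succ_apply' Ae j g, Function.iterate_succ_apply Ae j f]
    rw [Ae_symm p hmf (measurable_Ae_iter hmg j) hf (memLp_Ae_iter p hmg hg j)]
    exact ih (Ae f) (measurable_Ae hmf) (memLp_Ae p hmf hf)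

/-- the difference `⟨h, A h⟩ - ⟨h, A² h⟩` is nonnegative -/
theorem Ae_sub_sq_nonneg {h : Om d → ℝ} (hmh : Measurable h) (hh : MemLp h 2 (nu d p)) :
    ∫ ω, dg ω * (h ω * Ae (Ae h) ω) ∂(nu d p) ≤ ∫ ω, dg ω * (h ω * Ae h ω) ∂(nu d p) := by
  rw [Ae_symm p hmh (measurable_Ae hmh) hh (memLp_Ae p hmh hh)]
  have hc := Pe_contr p hmh hh
  have i0 := int_dg p (sq_int p hh)
  have i1 := int_dg p (sq_int p (memLp_Pe p hmh hh))
  have i2 := int_prod p hh (memLp_Ae p hmh hh)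
  have i3 := int_prod p (memLp_Ae p hmh hh) (memLp_Ae p hmh hh)
  have e : ∫ ω, dg ω * (h ω * Ae h ω) ∂(nu d p) - ∫ ω, dg ω * (Ae h ω * Ae h ω) ∂(nu d p)
      = ∫ ω, (1 / 4 : ℝ) * (dg ω * h ω ^ 2 - dg ω * Pe h ω ^ 2) ∂(nu d p) := by
    rw [← integral_sub i2 i3]
    refine integral_congr_ae (Filter.Eventually.of_forall (fun ω => ?_))
    simp only [Ae_eq]
    ring
  rw [integral_const_mul, integral_sub i0 i1] at e
  linarith

theorem Ae_le_self {h : Om d → ℝ} (hmh : Measurable h) (hh : MemLp h 2 (nu d p)) :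
    ∫ ω, dg ω * (h ω * Ae h ω) ∂(nu d p) ≤ ∫ ω, dg ω * (h ω * h ω) ∂(nu d p) := by
  have e := Ae_dirichlet p hmh hmh hh hh
  have hn : 0 ≤ ∫ ω, ∑ δ, oo ω δ * (gr h ω δ * gr h ω δ) ∂(nu d p) :=
    integral_nonneg (fun ω => Finset.sum_nonneg (fun δ _ =>
      mul_nonneg (oo_nonneg ω δ) (mul_self_nonneg _)))
  have i0 := int_prod p hh hh
  have i1 := int_prod p hh (memLp_Ae p hmh hh)
  have e2 : ∫ ω, dg ω * (h ω * (h ω - Ae h ω)) ∂(nu d p)
      = ∫ ω, dg ω * (h ω * h ω) ∂(nu d p) - ∫ ω, dg ω * (h ω * Ae h ω) ∂(nu d p) := by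
    rw [← integral_sub i0 i1]
    refine integral_congr_ae (Filter.Eventually.of_forall (fun ω => ?_))
    ring
  linarith

/-- `⟨f, A^{k+m} f⟩ = ⟨A^k f, A^m f⟩` -/
theorem corr_split {f : Om d → ℝ} (hmf : Measurable f) (hf : MemLp f 2 (nu d p)) (k m : ℕ) :
    ∫ ω, dg ω * (f ω * (Ae^[k + m] f) ω) ∂(nu d p)
      = ∫ ω, dg ω * ((Ae^[k] f) ω * (Ae^[m] f) ω) ∂(nu d p) := by
  rw [Function.iterate_add_apply]
  exact Ae_iter_symm_aux p (measurable_Ae_iter hmf m) (memLp_Ae_iter p hmf hf m) k f hmf hf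

/-- The correlations `⟨f, Ae^j f⟩` are nonnegative and nonincreasing. -/
theorem corr_nonneg {f : Om d → ℝ} (hmf : Measurable f) (hf : MemLp f 2 (nu d p)) (j : ℕ) :
    0 ≤ ∫ ω, dg ω * (f ω * (Ae^[j] f) ω) ∂(nu d p) := by
  rcases Nat.even_or_odd' j with ⟨k, hk | hk⟩
  · rw [hk, two_mul, corr_split p hmf hf k k]
    exact integral_nonneg (fun ω => mul_nonneg (dg_nonneg ω) (mul_self_nonneg _))
  · have : j = k + (k + 1) := by omega
    rw [this, corr_split p hmf hf k (k + 1), Function.iterate_succ_apply']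
    exact Ae_pos p (measurable_Ae_iter hmf k) (memLp_Ae_iter p hmf hf k)

theorem corr_antitone {f : Om d → ℝ} (hmf : Measurable f) (hf : MemLp f 2 (nu d p)) (j : ℕ) :
    ∫ ω, dg ω * (f ω * (Ae^[j + 1] f) ω) ∂(nu d p)
      ≤ ∫ ω, dg ω * (f ω * (Ae^[j] f) ω) ∂(nu d p) := by
  rcases Nat.even_or_odd' j with ⟨k, hk | hk⟩
  · have h1 : j + 1 = k + (k + 1) := by omega
    have h2 : j = k + k := by omega
    rw [h1, corr_split p hmf hf k (k + 1), h2, corr_split p hmf hf k k,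
      Function.iterate_succ_apply']
    exact Ae_le_self p (measurable_Ae_iter hmf k) (memLp_Ae_iter p hmf hf k)
  · have h1 : j + 1 = k + (k + 1 + 1) := by omega
    have h2 : j = k + (k + 1) := by omega
    rw [h1, corr_split p hmf hf k (k + 1 + 1), h2, corr_split p hmf hf k (k + 1),
      Function.iterate_succ_apply' Ae (k + 1), Function.iterate_succ_apply' Ae k]
    exact Ae_sub_sq_nonneg p (measurable_Ae_iter hmf k) (memLp_Ae_iter p hmf hf k)

theorem Ae_iter_symm {f g : Om d → ℝ} (hmf : Measurable f) (hmg : Measurable g)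
    (hf : MemLp f 2 (nu d p)) (hg : MemLp g 2 (nu d p)) (j : ℕ) :
    ∫ ω, dg ω * (f ω * (Ae^[j] g) ω) ∂(nu d p) = ∫ ω, dg ω * ((Ae^[j] f) ω * g ω) ∂(nu d p) :=
  Ae_iter_symm_aux p hmg hg j f hmf hf

end Ein99
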