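import Pool.Agent.LibEin99.Defs2
import Pool.Agent.LibEin99.C_Meas
import Pool.Agent.LibEin99.C_Shift
import Pool.Agent.LibEin99.C_Chain

/-!
TASK E_Rev. The mass transport identity (reversibility of the environment).

For each `δ`: `∫⁻ 1{opn ω 0 δ} 1{InfC ω 0} F ω δ dPr`; substitute `ω = sh (-st δ) ω'`
(`mp_sh`): `opn (sh (-st δ) ω') 0 δ ↔ opn ω' (-st δ) δ ↔ opn ω' 0 (rv δ)` (`opn_sh`, `opn_rv`),
`InfC (sh (-st δ) ω') 0 ↔ InfC ω' (-st δ) ↔ InfC ω' 0` when that edge is open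
(`InfC_of_conn`), and `sh (-st δ) ω' = sh (st (rv δ)) ω'`. Sum over `δ ↦ rv δ`.
-/

open MeasureTheory ProbabilityTheory Filter Topology
open scoped ENNReal

namespace Ein99

variable {d : ℕ}

/-- reversal of directions as a permutation -/
def E_Rev_perm : Dir d ≃ Dir d := ⟨rv, rv, rv_rv, rv_rv⟩

theorem E_Rev_opn (ω : Om d) (δ : Dir d) :
    opn (sh (st (rv δ)) ω) 0 δ ↔ opn ω 0 (rv δ) := by
  have h := opn_rv ω 0 (rv δ)
  rw [rv_rv] at h
  rw [opn_sh]
  exact h

theorem E_Rev_inf (ω : Om d) (δ : Dir d) (h : opn ω 0 (rv δ)) :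
    InfC (sh (st (rv δ)) ω) 0 ↔ InfC ω 0 := by
  rw [InfC_sh]
  have hc : Conn ω 0 (0 + st (rv δ)) := Relation.ReflTransGen.single ⟨rv δ, h, rfl⟩
  exact ⟨fun h2 => InfC_of_conn ω (Conn_symm ω hc) h2, fun h2 => InfC_of_conn ω hc h2⟩

open Classical in
/-- indicator of the event, after the shift -/
theorem E_Rev_ind {β : Type*} [Zero β] (f : Om d → β) (ω : Om d) (δ : Dir d) :
    ({ω : Om d | InfC ω 0}.indicator (fun ω => if opn ω 0 δ then f ω else 0))
      (sh (st (rv δ)) ω)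
      = ({ω : Om d | InfC ω 0}.indicator
        (fun ω => if opn ω 0 (rv δ) then f (sh (st (rv δ)) ω) else 0)) ω := by
  by_cases ho : opn ω 0 (rv δ)
  · have ho' : opn (sh (st (rv δ)) ω) 0 δ := (E_Rev_opn ω δ).mpr ho
    by_cases hi : InfC ω 0
    · have hi' : InfC (sh (st (rv δ)) ω) 0 := (E_Rev_inf ω δ ho).mpr hi
      rw [Set.indicator_of_mem (show sh (st (rv δ)) ω ∈ {ω : Om d | InfC ω 0} from hi'),
        Set.indicator_of_mem (show ω ∈ {ω : Om d | InfC ω 0} from hi), if_pos ho, if_pos ho']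
    · have hi' : ¬ InfC (sh (st (rv δ)) ω) 0 := fun h => hi ((E_Rev_inf ω δ ho).mp h)
      rw [Set.indicator_of_notMem (show sh (st (rv δ)) ω ∉ {ω : Om d | InfC ω 0} from hi'),
        Set.indicator_of_notMem (show ω ∉ {ω : Om d | InfC ω 0} from hi)]
  · have ho' : ¬ opn (sh (st (rv δ)) ω) 0 δ := fun h => ho ((E_Rev_opn ω δ).mp h)
    rw [Set.indicator_apply, Set.indicator_apply, if_neg ho, if_neg ho', ite_self, ite_self]

theorem E_Rev_lint_one (p : unitInterval) (δ : Dir d) (f : Om d → ℝ≥0∞) (hf : Measurable f) :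
    ∫⁻ ω, (if opn ω 0 δ then f ω else 0) ∂(nu d p)
      = ∫⁻ ω, (if opn ω 0 (rv δ) then f (sh (st (rv δ)) ω) else 0) ∂(nu d p) := by
  have hG : Measurable (fun ω : Om d => if opn ω 0 δ then f ω else 0) :=
    Measurable.ite (measurableSet_opn 0 δ) hf measurable_const
  unfold nu
  rw [← lintegral_indicator (measurableSet_InfC 0), ← lintegral_indicator (measurableSet_InfC 0),
    ← (mp_sh p (st (rv δ))).lintegral_comp (hG.indicator (measurableSet_InfC 0))]
  refine lintegral_congr fun ω => ?_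
  convert E_Rev_ind f ω δ

theorem E_Rev_int_one (p : unitInterval) (δ : Dir d) (f : Om d → ℝ) (hf : Measurable f) :
    ∫ ω, (if opn ω 0 δ then f ω else 0) ∂(nu d p)
      = ∫ ω, (if opn ω 0 (rv δ) then f (sh (st (rv δ)) ω) else 0) ∂(nu d p) := by
  have hG : Measurable (fun ω : Om d => if opn ω 0 δ then f ω else 0) :=
    Measurable.ite (measurableSet_opn 0 δ) hf measurable_const
  have h1 : ∫ ω, ({ω : Om d | InfC ω 0}.indicator
      (fun ω => if opn ω 0 δ then f ω else 0)) ω ∂(Pr d p) =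
      ∫ ω, ({ω : Om d | InfC ω 0}.indicator
      (fun ω => if opn ω 0 δ then f ω else 0)) (sh (st (rv δ)) ω) ∂(Pr d p) := by
    conv_lhs => rw [← map_sh p (st (rv δ))]
    exact integral_map (measurable_sh _).aemeasurable
      (hG.indicator (measurableSet_InfC 0)).aestronglyMeasurable
  unfold nu
  rw [← integral_indicator (measurableSet_InfC 0), ← integral_indicator (measurableSet_InfC 0), h1]
  refine integral_congr_ae (Eventually.of_forall fun ω => ?_)
  have := E_Rev_ind f ω δ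
  convert this

theorem rev_lint (p : unitInterval) (F : Om d → Dir d → ℝ≥0∞)
    (hF : ∀ δ, Measurable (fun ω => F ω δ)) :
    ∫⁻ ω, ∑ δ, (if opn ω 0 δ then F ω δ else 0) ∂(nu d p)
      = ∫⁻ ω, ∑ δ, (if opn ω 0 δ then F (sh (st δ) ω) (rv δ) else 0) ∂(nu d p) := by
  rw [lintegral_finsetSum, lintegral_finsetSum]
  · rw [← Equiv.sum_comp E_Rev_perm
      (fun δ => ∫⁻ ω, (if opn ω 0 δ then F (sh (st δ) ω) (rv δ) else 0) ∂(nu d p))]
    refine Finset.sum_congr rfl fun δ _ => ?_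
    have h := E_Rev_lint_one p δ (fun ω => F ω δ) (hF δ)
    have e : (E_Rev_perm δ : Dir d) = rv δ := rfl
    rw [h, e, rv_rv]
  · exact fun δ _ => Measurable.ite (measurableSet_opn 0 δ)
      ((hF (rv δ)).comp (measurable_sh (st δ))) measurable_const
  · exact fun δ _ => Measurable.ite (measurableSet_opn 0 δ) (hF δ) measurable_const

theorem E_Rev_moo (δ : Dir d) : Measurable (fun ω : Om d => oo ω δ) :=
  Measurable.ite (measurableSet_opn 0 δ) measurable_const measurable_const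

theorem E_Rev_oo_nonneg (ω : Om d) (δ : Dir d) : 0 ≤ oo ω δ := by
  unfold oo; split_ifs <;> norm_num

theorem E_Rev_oo_le (ω : Om d) (δ : Dir d) : oo ω δ ≤ 1 := by
  unfold oo; split_ifs <;> norm_num

theorem E_Rev_oo_mul (ω : Om d) (δ : Dir d) (a : ℝ) :
    oo ω δ * a = if opn ω 0 δ then a else 0 := by
  unfold oo; split_ifs <;> simp

theorem E_Rev_ofReal (ω : Om d) (g : Dir d → ℝ) :
    ENNReal.ofReal (∑ δ, oo ω δ * |g δ|)
      = ∑ δ, (if opn ω 0 δ then ENNReal.ofReal |g δ| else 0) := by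
  rw [ENNReal.ofReal_sum_of_nonneg
    (fun δ _ => mul_nonneg (E_Rev_oo_nonneg ω δ) (abs_nonneg _))]
  refine Finset.sum_congr rfl fun δ _ => ?_
  rw [E_Rev_oo_mul]
  split_ifs <;> simp

theorem rev_integrable (p : unitInterval) (F : Fld d)
    (hF : ∀ δ, Measurable (fun ω => F ω δ))
    (hint : Integrable (fun ω => ∑ δ, oo ω δ * |F ω δ|) (nu d p)) :
    Integrable (fun ω => ∑ δ, oo ω δ * |F (sh (st δ) ω) (rv δ)|) (nu d p) := by
  have hm : Measurable (fun ω => ∑ δ, oo ω δ * |F (sh (st δ) ω) (rv δ)|) := by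
    refine Finset.measurable_sum _ fun δ _ => (E_Rev_moo δ).mul ?_
    exact ((hF (rv δ)).comp (measurable_sh (st δ))).norm
  refine ⟨hm.aestronglyMeasurable, ?_⟩
  have h1 := hint.2
  rw [hasFiniteIntegral_iff_ofReal] at h1
  swap
  · exact Eventually.of_forall fun ω => Finset.sum_nonneg fun δ _ =>
      mul_nonneg (E_Rev_oo_nonneg ω δ) (abs_nonneg _)
  rw [hasFiniteIntegral_iff_ofReal]
  swap
  · exact Eventually.of_forall fun ω => Finset.sum_nonneg fun δ _ =>
      mul_nonneg (E_Rev_oo_nonneg ω δ) (abs_nonneg _)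
  have h2 := rev_lint p (fun ω δ => ENNReal.ofReal |F ω δ|) (fun δ => (hF δ).norm.ennreal_ofReal)
  have h3 : ∀ ω : Om d, ENNReal.ofReal (∑ δ, oo ω δ * |F ω δ|)
      = ∑ δ, (if opn ω 0 δ then ENNReal.ofReal |F ω δ| else 0) := fun ω => E_Rev_ofReal ω _
  have h4 : ∀ ω : Om d, ENNReal.ofReal (∑ δ, oo ω δ * |F (sh (st δ) ω) (rv δ)|)
      = ∑ δ, (if opn ω 0 δ then ENNReal.ofReal |F (sh (st δ) ω) (rv δ)| else 0) :=
    fun ω => E_Rev_ofReal ω _
  simp only [h3] at h1
  simp only [h4]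
  rw [← h2]
  exact h1

theorem E_Rev_term (p : unitInterval) (G : Fld d) (hG : ∀ δ, Measurable (fun ω => G ω δ))
    (hint : Integrable (fun ω => ∑ δ, oo ω δ * |G ω δ|) (nu d p)) (δ : Dir d) :
    Integrable (fun ω => oo ω δ * G ω δ) (nu d p) := by
  refine hint.mono' ((E_Rev_moo δ).mul (hG δ)).aestronglyMeasurable
    (Eventually.of_forall fun ω => ?_)
  rw [Real.norm_eq_abs, abs_mul, abs_of_nonneg (E_Rev_oo_nonneg ω δ)]
  exact Finset.single_le_sum (f := fun δ => oo ω δ * |G ω δ|)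
    (fun δ _ => mul_nonneg (E_Rev_oo_nonneg ω δ) (abs_nonneg _)) (Finset.mem_univ δ)

theorem rev_int (p : unitInterval) (F : Fld d)
    (hF : ∀ δ, Measurable (fun ω => F ω δ))
    (hint : Integrable (fun ω => ∑ δ, oo ω δ * |F ω δ|) (nu d p)) :
    ∫ ω, ∑ δ, oo ω δ * F ω δ ∂(nu d p)
      = ∫ ω, ∑ δ, oo ω δ * F (sh (st δ) ω) (rv δ) ∂(nu d p) := by
  rw [integral_finsetSum _ (fun δ _ => E_Rev_term p F hF hint δ),
    integral_finsetSum _ (fun δ _ => E_Rev_term p (fun ω δ => F (sh (st δ) ω) (rv δ))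
      (fun δ => (hF (rv δ)).comp (measurable_sh (st δ))) (rev_integrable p F hF hint) δ),
    ← Equiv.sum_comp E_Rev_perm
      (fun δ => ∫ ω, oo ω δ * F (sh (st δ) ω) (rv δ) ∂(nu d p))]
  refine Finset.sum_congr rfl fun δ _ => ?_
  have e : (E_Rev_perm δ : Dir d) = rv δ := rfl
  simp only [e, rv_rv, E_Rev_oo_mul]
  exact E_Rev_int_one p δ (fun ω => F ω δ) (hF δ)

theorem measurable_oo (δ : Dir d) : Measurable (fun ω : Om d => oo ω δ) :=
  E_Rev_moo δ

theorem measurable_dg : Measurable (fun ω : Om d => dg ω) :=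
  Finset.measurable_sum _ fun δ _ => measurable_oo δ

theorem dg_le (ω : Om d) : dg ω ≤ 2 * d := by
  unfold dg
  calc ∑ δ : Dir d, oo ω δ ≤ ∑ _δ : Dir d, (1 : ℝ) :=
        Finset.sum_le_sum fun δ _ => E_Rev_oo_le ω δ
    _ = 2 * d := by
      rw [Finset.sum_const, Finset.card_univ, Fintype.card_prod, Fintype.card_fin,
        Fintype.card_bool, nsmul_eq_mul, mul_one, Nat.cast_mul]
      push_cast
      ring

/-- a vertex of an infinite cluster has an open edge. -/
theorem one_le_dg (ω : Om d) (h : InfC ω 0) : 1 ≤ dg ω := by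
  obtain ⟨y, hy, hne⟩ := h.exists_notMem_finset {0}
  rw [Finset.mem_singleton] at hne
  obtain h0 | ⟨c, ⟨δ, hδ, -⟩, -⟩ := Relation.ReflTransGen.cases_head hy
  · exact absurd h0.symm hne
  · unfold dg
    have h1 : oo ω δ = 1 := if_pos hδ
    rw [← h1]
    exact Finset.single_le_sum (f := fun δ => oo ω δ) (fun δ _ => E_Rev_oo_nonneg ω δ)
      (Finset.mem_univ δ)

theorem ae_one_le_dg (p : unitInterval) : ∀ᵐ ω ∂(nu d p), 1 ≤ dg ω := by
  unfold nu
  exact (ae_restrict_iff' (measurableSet_InfC 0)).mpr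
    (Eventually.of_forall fun ω hω => one_le_dg ω hω)

/-- `nu`-almost everywhere statements at the origin hold at all vertices of the infinite cluster. -/
theorem ae_all_shift (p : unitInterval) (P : Om d → Prop) (hP : ∀ᵐ ω ∂(nu d p), P ω) :
    ∀ᵐ ω ∂(Pr d p), ∀ x : V d, InfC ω x → P (sh x ω) := by
  unfold nu at hP
  rw [ae_restrict_iff' (measurableSet_InfC 0)] at hP
  rw [ae_all_iff]
  intro x
  have h1 := (mp_sh p x).quasiMeasurePreserving.ae hP
  filter_upwards [h1] with ω hω hx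
  refine hω ?_
  rw [InfC_sh, zero_add]
  exact hx

end Ein99
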