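import Pool.Agent.LibEin99.E_Op
import Pool.Agent.LibEin99.E_Chi

/-!
TASK E_U. Second moments, and the energies of `GPsi`.

All functions here are bounded (`|chi n| ≤ n`, `|drf| ≤ 1`, `|U2 n| ≤ n²`), hence in `L²(nu)`.
`uu_succ`: integrate `U2_succ`, `∫ dg Ae(U2 n) = ∫ dg U2 n` (`Ae_mean`);
`∫ ∑ oo dt chi n(sh (st δ) ω) = ∫ ∑ oo dt(rv δ) chi n = - ∫ ∑ oo dt chi n = - 2 ∫ dg drf chi n`
(`rev_int`, `dg_mul_drf`). So `uu (n+1) - uu n = uu 1 - 2 ∫ dg drf chi n`.
`ip_Dl_gr`: `ip (Dl l) (gr f) = -2 ∫ ∑ oo dt f = -4 ∫ dg drf f` (`rev_int`).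
`ip_gr_gr`: `= 4 ∫ dg f (g - Ae g)` (`Ae_dirichlet`), and `chi n - Ae (chi n) = drf - Ae^[n] drf`.
`ip_GPsi`: expand: `ip Dl Dl + 2 ip Dl (gr chi) + ip (gr chi) (gr chi)
 = 2 uu 1 - 8⟨drf,chi_k⟩ + 4⟨chi_k, drf⟩ - 4⟨chi_k, Ae^k drf⟩ = 2 uu 1 - 4 ⟨drf, chi_k + Ae^k chi_k⟩
 = 2 uu 1 - 4 ⟨drf, chi_{2k}⟩ = 2 (uu (2k+1) - uu (2k))`.
More generally `ip (GPsi j) (GPsi k) = 2 (uu (j+k+1) - uu (j+k))`; we need `j = 0` and `j = k`.
`uu_antitone`: `uu (n+1) - uu n = uu 1 - 2 ∑_{j<n} ⟨drf, Ae^j drf⟩`, `corr_nonneg`.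
-/

open MeasureTheory ProbabilityTheory Filter Topology
open scoped ENNReal

namespace Ein99

variable {d : ℕ} (p : unitInterval) (l : Fin d → ℝ)

theorem E_U_fin : IsFiniteMeasure (nu d p) := by unfold nu; infer_instance

theorem E_U_oo_abs (ω : Om d) (δ : Dir d) : |oo ω δ| ≤ 1 := by
  unfold oo; split_ifs <;> norm_num

theorem E_U_oo_nonneg (ω : Om d) (δ : Dir d) : 0 ≤ oo ω δ := by
  unfold oo; split_ifs <;> norm_num

theorem E_U_dg_nonneg (ω : Om d) : 0 ≤ dg ω :=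
  Finset.sum_nonneg fun δ _ => E_U_oo_nonneg ω δ

theorem E_U_intdg {f : Om d → ℝ} (hm : Measurable f) (hf : Integrable f (nu d p)) :
    Integrable (fun ω => dg ω * f ω) (nu d p) := by
  refine (hf.norm.const_mul (2 * (d : ℝ))).mono' (measurable_dg.mul hm).aestronglyMeasurable
    (Eventually.of_forall fun ω => ?_)
  rw [norm_mul, Real.norm_eq_abs, abs_of_nonneg (E_U_dg_nonneg ω)]
  exact mul_le_mul_of_nonneg_right (dg_le ω) (norm_nonneg _)

theorem E_U_intoo (δ : Dir d) {f : Om d → ℝ} (hm : Measurable f) (hf : Integrable f (nu d p)) :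
    Integrable (fun ω => oo ω δ * f ω) (nu d p) := by
  refine hf.norm.mono' ((measurable_oo δ).mul hm).aestronglyMeasurable
    (Eventually.of_forall fun ω => ?_)
  rw [norm_mul, Real.norm_eq_abs]
  have := mul_le_mul_of_nonneg_right (E_U_oo_abs ω δ) (norm_nonneg (f ω))
  rwa [one_mul] at this

theorem E_U_hint {f : Om d → ℝ} (c : Dir d → ℝ) (hm : Measurable f)
    (hf : Integrable f (nu d p)) :
    Integrable (fun ω => ∑ δ, oo ω δ * |c δ * f ω|) (nu d p) := by
  refine integrable_finsetSum _ fun δ _ => ?_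
  exact E_U_intoo p δ (measurable_const.mul hm).norm (hf.const_mul _).norm

theorem E_U_ish (δ : Dir d) {f : Om d → ℝ} (hm : Measurable f) (hf : Integrable f (nu d p)) :
    Integrable (fun ω => oo ω δ * f (sh (st δ) ω)) (nu d p) := by
  have h1 := rev_integrable p (fun ω _ => 1 * f ω) (fun _ => measurable_const.mul hm)
    (E_U_hint p (fun _ => 1) hm hf)
  refine h1.mono' ((measurable_oo δ).mul (hm.comp (measurable_sh (st δ)))).aestronglyMeasurable
    (Eventually.of_forall fun ω => ?_)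
  rw [Real.norm_eq_abs, abs_mul, abs_of_nonneg (E_U_oo_nonneg ω δ)]
  have := Finset.single_le_sum (f := fun δ => oo ω δ * |1 * f (sh (st δ) ω)|)
    (fun δ _ => mul_nonneg (E_U_oo_nonneg ω δ) (abs_nonneg _)) (Finset.mem_univ δ)
  simpa only [one_mul] using this

theorem E_U_rev {f : Om d → ℝ} (hm : Measurable f) (hf : Integrable f (nu d p)) :
    ∫ ω, ∑ δ, oo ω δ * (dt l δ * f (sh (st δ) ω)) ∂(nu d p)
      = - ∫ ω, ∑ δ, oo ω δ * (dt l δ * f ω) ∂(nu d p) := by
  have h := rev_int p (fun ω δ => dt l δ * f ω) (fun δ => measurable_const.mul hm)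
    (E_U_hint p (dt l) hm hf)
  rw [h, ← integral_neg]
  refine integral_congr_ae (Eventually.of_forall fun ω => ?_)
  simp only [dt_rv]
  rw [← Finset.sum_neg_distrib]
  exact Finset.sum_congr rfl fun δ _ => by ring

theorem E_U_drf (f : Om d → ℝ) :
    ∫ ω, ∑ δ, oo ω δ * (dt l δ * f ω) ∂(nu d p)
      = 2 * ∫ ω, dg ω * (drf l ω * f ω) ∂(nu d p) := by
  rw [← integral_const_mul]
  refine integral_congr_ae (Eventually.of_forall fun ω => ?_)
  have h := dg_mul_drf l ω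
  have h2 : ∑ δ, oo ω δ * (dt l δ * f ω) = (∑ δ, oo ω δ * dt l δ) * f ω := by
    rw [Finset.sum_mul]
    exact Finset.sum_congr rfl fun δ _ => by ring
  simp only
  rw [h2]
  linear_combination (-2 * f ω) * h

theorem E_U_chi0 (ω : Om d) : chi l 0 ω = 0 := by
  unfold chi
  rw [Ln_zero]
  simp [dot]

theorem E_U_U20 (ω : Om d) : U2 l 0 ω = 0 := by
  unfold U2
  rw [Ln_zero]
  simp [dot]

theorem E_U_mU2 (n : ℕ) : Measurable (U2 l n : Om d → ℝ) :=
  measurable_Ln n (fun _ x => dot l x ^ 2) (fun _ => measurable_const) 0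

theorem E_U_bU2 (hl : ∑ i, l i ^ 2 = 1) (n : ℕ) (ω : Om d) :
    |U2 l n ω| ≤ (Real.sqrt d * n) ^ 2 := by
  have hb : ∀ y ∈ Bx n (0 : V d), dot l y ^ 2 ≤ (Real.sqrt d * n) ^ 2 := by
    intro y hy
    have h := abs_dot_sub_le l hl hy
    have h0 : dot l (0 : V d) = 0 := by simp [dot]
    rw [h0, sub_zero] at h
    rw [← sq_abs (dot l y)]
    exact pow_le_pow_left₀ (abs_nonneg _) h 2
  have hn : ∀ y : V d, 0 ≤ Ln ω n (Set.indicator {y} (fun _ => (1 : ℝ))) 0 := by
    intro y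
    have h1 := Ln_mono ω n (g := fun _ => (0 : ℝ)) (h := Set.indicator {y} (fun _ => (1 : ℝ)))
      (fun x => Set.indicator_nonneg (fun _ _ => zero_le_one) x) 0
    rw [Ln_const] at h1
    exact h1
  have h1 : U2 l n ω = ∑ y ∈ Bx n (0 : V d),
      Ln ω n (Set.indicator {y} (fun _ => (1 : ℝ))) 0 * dot l y ^ 2 := Ln_eq_sum ω n _ 0
  have h2 : ((Real.sqrt d * n) ^ 2 : ℝ) = ∑ y ∈ Bx n (0 : V d),
      Ln ω n (Set.indicator {y} (fun _ => (1 : ℝ))) 0 * (Real.sqrt d * n) ^ 2 := by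
    have := Ln_eq_sum ω n (fun _ => (Real.sqrt d * n) ^ 2) 0
    rw [Ln_const] at this
    exact this
  have h3 : 0 ≤ U2 l n ω := by
    rw [h1]
    exact Finset.sum_nonneg fun y _ => mul_nonneg (hn y) (sq_nonneg _)
  rw [abs_of_nonneg h3, h1, h2]
  exact Finset.sum_le_sum fun y hy => mul_le_mul_of_nonneg_left (hb y hy) (hn y)

theorem E_U_LU2 (hl : ∑ i, l i ^ 2 = 1) (n : ℕ) : MemLp (U2 l n : Om d → ℝ) 2 (nu d p) := by
  have := E_U_fin p (d := d)
  exact MemLp.of_bound (E_U_mU2 l n).aestronglyMeasurable _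
    (Eventually.of_forall fun ω => E_U_bU2 l hl n ω)

theorem E_U_Lchi (hl : ∑ i, l i ^ 2 = 1) (n : ℕ) : MemLp (chi l n : Om d → ℝ) 2 (nu d p) := by
  have := E_U_fin p (d := d)
  exact MemLp.of_bound (measurable_chi l n).aestronglyMeasurable _
    (Eventually.of_forall fun ω => abs_chi_le l hl n ω)

theorem E_U_int2 {f : Om d → ℝ} (hf : MemLp f 2 (nu d p)) : Integrable f (nu d p) := by
  have := E_U_fin p (d := d)
  exact hf.integrable (by norm_num)

/-- products of functions of `L²` with the degree are integrable -/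
theorem E_U_intprod {f g : Om d → ℝ} (hmf : Measurable f) (hmg : Measurable g)
    (hf : MemLp f 2 (nu d p)) (hg : MemLp g 2 (nu d p)) :
    Integrable (fun ω => dg ω * (f ω * g ω)) (nu d p) :=
  E_U_intdg p (hmf.mul hmg) (hf.integrable_mul hg)

theorem uu_zero : uu p l 0 = 0 := by
  unfold uu
  simp only [E_U_U20, mul_zero, integral_zero]

theorem uu_one : uu p l 1 = (1 / 2) * ip p (Dl l) (Dl l) := by
  unfold uu ip
  rw [← integral_const_mul]
  refine integral_congr_ae (Eventually.of_forall fun ω => ?_)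
  have h := U2_succ l 0 ω
  have h0 : (U2 l 0 : Om d → ℝ) = fun _ => 0 := funext fun ω => E_U_U20 l ω
  have h1 : Ae (fun _ : Om d => (0 : ℝ)) ω = 0 := by
    unfold Ae Lz
    rw [Pop_const]
    simp
  simp only
  rw [zero_add] at h
  rw [h, h0, h1, mul_zero, zero_add]
  congr 1
  refine Finset.sum_congr rfl fun δ _ => ?_
  rw [E_U_chi0]
  simp only [Dl]
  ring

theorem uu_succ (hl : ∑ i, l i ^ 2 = 1) (n : ℕ) :
    uu p l (n + 1) - uu p l n = uu p l 1 - 2 * ∫ ω, dg ω * (drf l ω * chi l n ω) ∂(nu d p) := by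
  have := E_U_fin p (d := d)
  have hchi := E_U_Lchi p l hl n
  have hmchi := measurable_chi (d := d) l n
  have hichi := E_U_int2 p hchi
  have e1 : uu p l (n + 1) = ∫ ω, (dg ω * Ae (U2 l n) ω + ((1 / 2) * ∑ δ, oo ω δ * (dt l δ * dt l δ)
      + ∑ δ, oo ω δ * (dt l δ * chi l n (sh (st δ) ω)))) ∂(nu d p) := by
    unfold uu
    refine integral_congr_ae (Eventually.of_forall fun ω => ?_)
    simp only
    rw [U2_succ, Finset.mul_sum, Finset.mul_sum, ← Finset.sum_add_distrib]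
    congr 1
    exact Finset.sum_congr rfl fun δ _ => by ring
  have i1 : Integrable (fun ω => dg ω * Ae (U2 l n) ω) (nu d p) :=
    E_U_intdg p (measurable_Ae (E_U_mU2 l n))
      (E_U_int2 p (memLp_Ae p (E_U_mU2 l n) (E_U_LU2 p l hl n)))
  have i2 : Integrable (fun ω => (1 / 2) * ∑ δ, oo ω δ * (dt l δ * dt l δ)) (nu d p) := by
    refine Integrable.const_mul ?_ _
    exact integrable_finsetSum _ fun δ _ =>
      E_U_intoo p δ (f := fun _ => dt l δ * dt l δ) measurable_const (integrable_const _)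
  have i3 : Integrable (fun ω => ∑ δ, oo ω δ * (dt l δ * chi l n (sh (st δ) ω))) (nu d p) := by
    refine integrable_finsetSum _ fun δ _ => ?_
    have h := (E_U_ish p δ hmchi hichi).const_mul (dt l δ)
    refine h.congr (Eventually.of_forall fun ω => ?_)
    simp only
    ring
  have e2 : ∫ ω, (1 / 2) * ∑ δ, oo ω δ * (dt l δ * dt l δ) ∂(nu d p) = uu p l 1 := by
    rw [uu_one, integral_const_mul]
    rfl
  have e3 : ∫ ω, dg ω * Ae (U2 l n) ω ∂(nu d p) = uu p l n :=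
    Ae_mean p (E_U_mU2 l n) (E_U_int2 p (E_U_LU2 p l hl n))
  have i23 : Integrable (fun ω => (1 / 2) * ∑ δ, oo ω δ * (dt l δ * dt l δ)
      + ∑ δ, oo ω δ * (dt l δ * chi l n (sh (st δ) ω))) (nu d p) := i2.add i3
  rw [e1, integral_add i1 i23, integral_add i2 i3, e2, e3, E_U_rev p l hmchi hichi,
    E_U_drf]
  ring

theorem ip_Dl_gr (f : Om d → ℝ) (hmf : Measurable f) (hf : MemLp f 2 (nu d p)) :
    ip p (Dl l) (gr f) = -4 * ∫ ω, dg ω * (drf l ω * f ω) ∂(nu d p) := by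
  have hif := E_U_int2 p hf
  have e1 : ip p (Dl l) (gr f) = ∫ ω, (∑ δ, oo ω δ * (dt l δ * f (sh (st δ) ω))
      - ∑ δ, oo ω δ * (dt l δ * f ω)) ∂(nu d p) := by
    unfold ip
    refine integral_congr_ae (Eventually.of_forall fun ω => ?_)
    simp only [Dl, gr]
    rw [← Finset.sum_sub_distrib]
    exact Finset.sum_congr rfl fun δ _ => by ring
  have i1 : Integrable (fun ω => ∑ δ, oo ω δ * (dt l δ * f (sh (st δ) ω))) (nu d p) := by
    refine integrable_finsetSum _ fun δ _ => ?_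
    refine ((E_U_ish p δ hmf hif).const_mul (dt l δ)).congr (Eventually.of_forall fun ω => ?_)
    simp only
    ring
  have i2 : Integrable (fun ω => ∑ δ, oo ω δ * (dt l δ * f ω)) (nu d p) := by
    refine integrable_finsetSum _ fun δ _ => ?_
    refine ((E_U_intoo p δ hmf hif).const_mul (dt l δ)).congr (Eventually.of_forall fun ω => ?_)
    simp only
    ring
  rw [e1, integral_sub i1 i2, E_U_rev p l hmf hif, E_U_drf]
  ring

/-- the correlations of the drift -/
noncomputable def E_U_c (p : unitInterval) (l : Fin d → ℝ) (j : ℕ) : ℝ :=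
  ∫ ω, dg ω * (drf l ω * (Ae^[j] (drf l)) ω) ∂(nu d p)

theorem E_U_Ldrf (hl : ∑ i, l i ^ 2 = 1) : MemLp (drf l : Om d → ℝ) 2 (nu d p) :=
  E_U_Lchi p l hl 1

theorem E_U_mdrf : Measurable (drf l : Om d → ℝ) := measurable_chi l 1

theorem E_U_mAe {f : Om d → ℝ} (hm : Measurable f) (j : ℕ) : Measurable (Ae^[j] f) := by
  induction j with
  | zero => simpa using hm
  | succ j ih =>
    rw [Function.iterate_succ_apply']
    exact measurable_Ae ih

theorem E_U_LAe {f : Om d → ℝ} (hm : Measurable f) (hf : MemLp f 2 (nu d p)) (j : ℕ) :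
    MemLp (Ae^[j] f) 2 (nu d p) := by
  induction j with
  | zero => simpa using hf
  | succ j ih =>
    rw [Function.iterate_succ_apply']
    exact memLp_Ae p (E_U_mAe hm j) ih

/-- pairing with `chi` -/
theorem E_U_pair (hl : ∑ i, l i ^ 2 = 1) (g : Om d → ℝ) (hmg : Measurable g)
    (hg : MemLp g 2 (nu d p)) (k : ℕ) :
    ∫ ω, dg ω * (g ω * chi l k ω) ∂(nu d p)
      = ∑ j ∈ Finset.range k, ∫ ω, dg ω * (g ω * (Ae^[j] (drf l)) ω) ∂(nu d p) := by
  rw [← integral_finsetSum]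
  · refine integral_congr_ae (Eventually.of_forall fun ω => ?_)
    simp only
    rw [chi_eq_sum, Finset.mul_sum, Finset.mul_sum]
  · exact fun j _ => E_U_intprod p hmg (E_U_mAe (E_U_mdrf l) j) hg
      (E_U_LAe p (E_U_mdrf l) (E_U_Ldrf p l hl) j)

theorem E_U_drf_chi (hl : ∑ i, l i ^ 2 = 1) (k : ℕ) :
    ∫ ω, dg ω * (drf l ω * chi l k ω) ∂(nu d p) = ∑ j ∈ Finset.range k, E_U_c p l j :=
  E_U_pair p l hl (drf l) (E_U_mdrf l) (E_U_Ldrf p l hl) k

theorem E_U_shift (hl : ∑ i, l i ^ 2 = 1) (j k : ℕ) :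
    ∫ ω, dg ω * ((Ae^[k] (drf l)) ω * (Ae^[j] (drf l)) ω) ∂(nu d p) = E_U_c p l (k + j) := by
  rw [← Ae_iter_symm p (E_U_mdrf l) (E_U_mAe (E_U_mdrf l) j) (E_U_Ldrf p l hl)
    (E_U_LAe p (E_U_mdrf l) (E_U_Ldrf p l hl) j) k, ← Function.iterate_add_apply]
  rfl

theorem E_U_incr (hl : ∑ i, l i ^ 2 = 1) (n : ℕ) :
    uu p l (n + 1) - uu p l n = uu p l 1 - 2 * ∑ j ∈ Finset.range n, E_U_c p l j := by
  rw [uu_succ p l hl n, E_U_drf_chi p l hl n]

theorem ip_GPsi (hl : ∑ i, l i ^ 2 = 1) (k : ℕ) :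
    ip p (GPsi l k) (GPsi l k) = 2 * (uu p l (2 * k + 1) - uu p l (2 * k)) := by
  have := E_U_fin p (d := d)
  have hchi := E_U_Lchi p l hl k
  have hmchi := measurable_chi (d := d) l k
  have hichi := E_U_int2 p hchi
  have hD : ip p (Dl l) (Dl l) = 2 * uu p l 1 := by rw [uu_one]; ring
  have hG := ip_Dl_gr p l (chi l k) hmchi hchi
  have hGG := Ae_dirichlet p hmchi hmchi hchi hchi
  have hsh2 : Integrable (fun ω => (chi l k ω) ^ 2) (nu d p) := hchi.integrable_sq
  -- integrability of the three pieces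
  have i1 : Integrable (fun ω => ∑ δ, oo ω δ * (Dl l ω δ * Dl l ω δ)) (nu d p) :=
    integrable_finsetSum _ fun δ _ =>
      E_U_intoo p δ (f := fun _ => dt l δ * dt l δ) measurable_const (integrable_const _)
  have i2 : Integrable (fun ω => ∑ δ, oo ω δ * (Dl l ω δ * gr (chi l k) ω δ)) (nu d p) := by
    refine integrable_finsetSum _ fun δ _ => ?_
    have h := ((E_U_ish p δ hmchi hichi).sub (E_U_intoo p δ hmchi hichi)).const_mul (dt l δ)
    refine h.congr (Eventually.of_forall fun ω => ?_)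
    simp only [Dl, gr, Pi.sub_apply]
    ring
  have i3 : Integrable (fun ω => ∑ δ, oo ω δ * (gr (chi l k) ω δ * gr (chi l k) ω δ))
      (nu d p) := by
    refine integrable_finsetSum _ fun δ _ => ?_
    have h := ((E_U_ish p δ (hmchi.pow_const 2) hsh2).add
      (E_U_intoo p δ (hmchi.pow_const 2) hsh2)).const_mul 2
    refine h.mono' ?_ (Eventually.of_forall fun ω => ?_)
    · exact ((measurable_oo δ).mul (((hmchi.comp (measurable_sh (st δ))).sub hmchi).mul
        ((hmchi.comp (measurable_sh (st δ))).sub hmchi))).aestronglyMeasurable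
    · simp only [gr, Pi.add_apply]
      rw [Real.norm_eq_abs, abs_mul, abs_of_nonneg (E_U_oo_nonneg ω δ), abs_mul_self]
      nlinarith [mul_nonneg (E_U_oo_nonneg ω δ)
        (sq_nonneg (chi l k (sh (st δ) ω) + chi l k ω))]
  have e1 : ip p (GPsi l k) (GPsi l k) = ip p (Dl l) (Dl l) + 2 * ip p (Dl l) (gr (chi l k))
      + ip p (gr (chi l k)) (gr (chi l k)) := by
    have i12 : Integrable (fun ω => ∑ δ, oo ω δ * (Dl l ω δ * Dl l ω δ)
        + 2 * ∑ δ, oo ω δ * (Dl l ω δ * gr (chi l k) ω δ)) (nu d p) := i1.add (i2.const_mul 2)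
    unfold ip
    rw [← integral_const_mul, ← integral_add i1 (i2.const_mul 2), ← integral_add i12 i3]
    refine integral_congr_ae (Eventually.of_forall fun ω => ?_)
    simp only [GPsi, Dl]
    rw [Finset.mul_sum, ← Finset.sum_add_distrib, ← Finset.sum_add_distrib]
    exact Finset.sum_congr rfl fun δ _ => by ring
  have e2 : ip p (gr (chi l k)) (gr (chi l k))
      = 4 * ∫ ω, dg ω * (chi l k ω * (chi l k ω - Ae (chi l k) ω)) ∂(nu d p) := by
    rw [hGG]
    unfold ip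
    ring
  have e3 : ∀ ω : Om d, chi l k ω - Ae (chi l k) ω = drf l ω - (Ae^[k] (drf l)) ω := by
    intro ω
    have h1 := chi_succ l k ω
    have h2 := chi_eq_sum l (k + 1) ω
    rw [Finset.sum_range_succ, ← chi_eq_sum] at h2
    linarith
  have hmA := E_U_mAe (E_U_mdrf (d := d) l) k
  have hLA := E_U_LAe p (E_U_mdrf l) (E_U_Ldrf p l hl) k
  have e4 : ∫ ω, dg ω * (chi l k ω * (chi l k ω - Ae (chi l k) ω)) ∂(nu d p)
      = ∫ ω, dg ω * (drf l ω * chi l k ω) ∂(nu d p)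
        - ∫ ω, dg ω * ((Ae^[k] (drf l)) ω * chi l k ω) ∂(nu d p) := by
    rw [← integral_sub (E_U_intprod p (E_U_mdrf l) hmchi (E_U_Ldrf p l hl) hchi)
      (E_U_intprod p hmA hmchi hLA hchi)]
    refine integral_congr_ae (Eventually.of_forall fun ω => ?_)
    simp only
    rw [e3]
    ring
  have e5 : ∫ ω, dg ω * ((Ae^[k] (drf l)) ω * chi l k ω) ∂(nu d p)
      = ∑ j ∈ Finset.range k, E_U_c p l (k + j) := by
    rw [E_U_pair p l hl _ hmA hLA k]
    exact Finset.sum_congr rfl fun j _ => E_U_shift p l hl j k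
  have e6 : ∑ j ∈ Finset.range (2 * k), E_U_c p l j
      = ∑ j ∈ Finset.range k, E_U_c p l j + ∑ j ∈ Finset.range k, E_U_c p l (k + j) := by
    rw [two_mul, Finset.sum_range_add]
  rw [e1, hD, hG, e2, e4, e5, E_U_incr p l hl, e6, E_U_drf_chi p l hl]
  ring

theorem ip_Dl_GPsi (hl : ∑ i, l i ^ 2 = 1) (k : ℕ) :
    ip p (Dl l) (GPsi l k) = 2 * (uu p l (k + 1) - uu p l k) := by
  have := E_U_fin p (d := d)
  have hchi := E_U_Lchi p l hl k
  have hmchi := measurable_chi (d := d) l k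
  have hichi := E_U_int2 p hchi
  have hD : ip p (Dl l) (Dl l) = 2 * uu p l 1 := by rw [uu_one]; ring
  have hG := ip_Dl_gr p l (chi l k) hmchi hchi
  have i1 : Integrable (fun ω => ∑ δ, oo ω δ * (Dl l ω δ * Dl l ω δ)) (nu d p) :=
    integrable_finsetSum _ fun δ _ =>
      E_U_intoo p δ (f := fun _ => dt l δ * dt l δ) measurable_const (integrable_const _)
  have i2 : Integrable (fun ω => ∑ δ, oo ω δ * (Dl l ω δ * gr (chi l k) ω δ)) (nu d p) := by
    refine integrable_finsetSum _ fun δ _ => ?_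
    have h := ((E_U_ish p δ hmchi hichi).sub (E_U_intoo p δ hmchi hichi)).const_mul (dt l δ)
    refine h.congr (Eventually.of_forall fun ω => ?_)
    simp only [Dl, gr, Pi.sub_apply]
    ring
  have e1 : ip p (Dl l) (GPsi l k) = ip p (Dl l) (Dl l) + ip p (Dl l) (gr (chi l k)) := by
    unfold ip
    rw [← integral_add i1 i2]
    refine integral_congr_ae (Eventually.of_forall fun ω => ?_)
    simp only [GPsi, Dl]
    rw [← Finset.sum_add_distrib]
    exact Finset.sum_congr rfl fun δ _ => by ring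
  rw [e1, hD, hG, uu_succ p l hl k]
  ring

theorem uu_antitone (hl : ∑ i, l i ^ 2 = 1) :
    Antitone (fun n : ℕ => uu p l (n + 1) - uu p l n) := by
  refine antitone_nat_of_succ_le fun n => ?_
  rw [E_U_incr p l hl, E_U_incr p l hl, Finset.sum_range_succ]
  have h := corr_nonneg p (E_U_mdrf (d := d) l) (E_U_Ldrf p l hl) n
  have h2 : 0 ≤ E_U_c p l n := h
  linarith

theorem uu_incr_nonneg (hl : ∑ i, l i ^ 2 = 1) (n : ℕ) : 0 ≤ uu p l (n + 1) - uu p l n := by
  have h1 := uu_antitone p l hl (show n ≤ 2 * n by omega)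
  have h2 := ip_GPsi p l hl n
  have h3 : 0 ≤ ip p (GPsi l n) (GPsi l n) := by
    unfold ip
    exact integral_nonneg fun ω => Finset.sum_nonneg fun δ _ =>
      mul_nonneg (E_U_oo_nonneg ω δ) (mul_self_nonneg _)
  simp only at h1
  linarith

/-- the limit `S/2` of the increments is also the limit of `uu n / n` -/
theorem uu_lim (hl : ∑ i, l i ^ 2 = 1) : ∃ S : ℝ, 0 ≤ S ∧
    Tendsto (fun n : ℕ => 2 * (uu p l (n + 1) - uu p l n)) atTop (𝓝 S) ∧
    Tendsto (fun n : ℕ => 2 * uu p l n / n) atTop (𝓝 S) := by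
  have hanti := uu_antitone p l hl
  have hbdd : BddBelow (Set.range (fun n : ℕ => uu p l (n + 1) - uu p l n)) :=
    ⟨0, by rintro _ ⟨n, rfl⟩; exact uu_incr_nonneg p l hl n⟩
  have h1 := tendsto_atTop_ciInf hanti hbdd
  set L : ℝ := ⨅ n : ℕ, (uu p l (n + 1) - uu p l n) with hL
  have h0 : 0 ≤ L := ge_of_tendsto' h1 fun n => uu_incr_nonneg p l hl n
  refine ⟨2 * L, by linarith, h1.const_mul 2, ?_⟩
  have h2 := h1.cesaro
  have h3 : (fun n : ℕ => 2 * uu p l n / n)
      = fun n : ℕ => 2 * ((n : ℝ)⁻¹ * ∑ i ∈ Finset.range n, (uu p l (i + 1) - uu p l i)) := by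
    funext n
    rw [Finset.sum_range_sub (fun i => uu p l i), uu_zero, sub_zero]
    ring
  rw [h3]
  exact h2.const_mul 2

end Ein99
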