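import Pool.Agent.LibEin99.E_Erg
import Pool.Agent.LibEin99.E_Exp
import Pool.Agent.LibEin99.E_CLT1
import Pool.Agent.LibEin99.E_U

/-!
E_Sig. The limit of `2 uu n / n` is `kap * s` when `IsDiff d p l s` holds.
-/

open MeasureTheory ProbabilityTheory Filter Topology
open scoped ENNReal

namespace Ein99

variable {d : ℕ} {p : unitInterval} {K : ℕ} {C c : ℝ}

/-! ### Elementary bounds for the lazy operators -/

private theorem Pop_close (ω : Om d) {g h : V d → ℝ} {x : V d} {a : ℝ}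
    (h0 : |g x - h x| ≤ a) (h1 : ∀ δ, |g (x + st δ) - h (x + st δ)| ≤ a) :
    |Pop 0 0 ω g x - Pop 0 0 ω h x| ≤ a := by
  unfold Pop
  by_cases hZ : Zw 0 0 ω x = 0
  · simp only [hZ, if_true]; exact h0
  · have hZ0 : 0 < Zw 0 0 ω x := lt_of_le_of_ne (Zw_nonneg 0 0 ω x) (Ne.symm hZ)
    simp only [hZ, if_false]
    rw [← sub_div, ← Finset.sum_sub_distrib, abs_div, abs_of_pos hZ0, div_le_iff₀ hZ0]
    calc |∑ δ, (wt 0 0 ω x δ * g (x + st δ) - wt 0 0 ω x δ * h (x + st δ))|
        ≤ ∑ δ, |wt 0 0 ω x δ * g (x + st δ) - wt 0 0 ω x δ * h (x + st δ)| :=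
          Finset.abs_sum_le_sum_abs _ _
      _ ≤ ∑ δ, wt 0 0 ω x δ * a := by
          apply Finset.sum_le_sum
          intro δ _
          rw [← mul_sub, abs_mul, abs_of_nonneg (wt_nonneg 0 0 ω x δ)]
          exact mul_le_mul_of_nonneg_left (h1 δ) (wt_nonneg 0 0 ω x δ)
      _ = a * Zw 0 0 ω x := by
          rw [← Finset.sum_mul, Zw, mul_comm]

private theorem Lz_close (ω : Om d) {g h : V d → ℝ} {x : V d} {a : ℝ}
    (h0 : |g x - h x| ≤ a) (h1 : ∀ δ, |g (x + st δ) - h (x + st δ)| ≤ a) :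
    |Lz ω g x - Lz ω h x| ≤ a := by
  have h2 := Pop_close ω h0 h1
  unfold Lz
  rw [abs_le] at h0 h2 ⊢
  constructor <;> linarith [h0.1, h0.2, h2.1, h2.2]

private theorem Ln_close (ω : Om d) (n : ℕ) {g h : V d → ℝ} {a : ℝ}
    (h1 : ∀ x, |g x - h x| ≤ a) (x : V d) : |Ln ω n g x - Ln ω n h x| ≤ a := by
  induction n generalizing x with
  | zero => simpa [Ln_zero] using h1 x
  | succ n ih =>
    rw [Ln_succ, Ln_succ]
    exact Lz_close ω (ih x) (fun δ => ih _)

private theorem Ae_close (ω : Om d) {f g : Om d → ℝ} {a : ℝ} (h : ∀ ω, |f ω - g ω| ≤ a) :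
    |Ae f ω - Ae g ω| ≤ a := by
  unfold Ae
  exact Lz_close ω (h _) (fun δ => h _)

private theorem Ae_iter_close {f : Om d → ℝ} {a : ℝ} (h : ∀ ω, |Ae f ω - f ω| ≤ a) (j : ℕ)
    (ω : Om d) : |(Ae^[j] f) ω - f ω| ≤ j * a := by
  induction j generalizing ω with
  | zero => simp
  | succ j ih =>
    rw [Function.iterate_succ_apply']
    have h1 := Ae_close ω ih
    have h2 := h ω
    push_cast
    rw [abs_le] at h1 h2 ⊢
    constructor <;> linarith [h1.1, h1.2, h2.1, h2.2]

/-- bound of `Ln` by the values on the box -/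
private theorem Ln_abs_le_sum (ω : Om d) (n : ℕ) (g : V d → ℝ) :
    |Ln ω n g 0| ≤ ∑ y ∈ Bx n (0 : V d), |g y| := by
  classical
  set g' : V d → ℝ := fun x => if x ∈ Bx n (0 : V d) then g x else 0 with hg'
  have h1 : Ln ω n g 0 = Ln ω n g' 0 := Ln_congr ω n fun y hy => by simp [hg', hy]
  have h2 : ∀ x, |g' x - (fun _ => (0 : ℝ)) x| ≤ ∑ y ∈ Bx n (0 : V d), |g y| := by
    intro x
    simp only [sub_zero, hg']
    split_ifs with hx
    · exact Finset.single_le_sum (f := fun y => |g y|) (fun _ _ => abs_nonneg _) hx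
    · simpa using Finset.sum_nonneg fun y _ => abs_nonneg (g y)
  have h3 := Ln_close ω n h2 0
  rw [Ln_const ω n 0] at h3
  rw [h1]
  simpa using h3

/-! ### The truncated square -/

private theorem trunc_lip {T : ℝ} (hT : 0 ≤ T) (t t' : ℝ) :
    |min (t' ^ 2) T - min (t ^ 2) T| ≤ 2 * Real.sqrt T * |t' - t| := by
  have e : ∀ t : ℝ, min (t ^ 2) T = (min |t| (Real.sqrt T)) ^ 2 := by
    intro t
    rcases le_total (t ^ 2) T with h | h
    · rw [min_eq_left h, min_eq_left (Real.abs_le_sqrt h), sq_abs]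
    · have h2 : Real.sqrt T ≤ |t| := by
        rw [← Real.sqrt_sq_eq_abs]; exact Real.sqrt_le_sqrt h
      rw [min_eq_right h, min_eq_right h2, Real.sq_sqrt hT]
  rw [e, e, sq_sub_sq, abs_mul]
  have hs := Real.sqrt_nonneg T
  have h1 : |min |t'| (Real.sqrt T) + min |t| (Real.sqrt T)| ≤ 2 * Real.sqrt T := by
    have a1 := min_le_right |t'| (Real.sqrt T)
    have a2 := min_le_right |t| (Real.sqrt T)
    have a3 : 0 ≤ min |t'| (Real.sqrt T) := le_min (abs_nonneg _) hs
    have a4 : 0 ≤ min |t| (Real.sqrt T) := le_min (abs_nonneg _) hs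
    rw [abs_of_nonneg (by linarith)]
    linarith
  have h2 : |min |t'| (Real.sqrt T) - min |t| (Real.sqrt T)| ≤ |t' - t| := by
    have a1 : |min |t'| (Real.sqrt T) - min |t| (Real.sqrt T)| ≤ |(|t'| - |t|)| := by
      have := abs_min_sub_min_le_max |t'| (Real.sqrt T) |t| (Real.sqrt T)
      simpa using this
    exact a1.trans (abs_abs_sub_abs_le _ _)
  exact mul_le_mul h1 h2 (abs_nonneg _) (by positivity)

/-- the truncated square of the displacement -/
private noncomputable def fn (l : Fin d → ℝ) (T : ℝ) (n : ℕ) (x : V d) : ℝ :=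
  min (dot l x ^ 2 / n) T

private theorem fn_eq (l : Fin d → ℝ) (T : ℝ) (n : ℕ) (x : V d) :
    fn l T n x = min ((dot l x / Real.sqrt n) ^ 2) T := by
  unfold fn
  rw [div_pow, Real.sq_sqrt (Nat.cast_nonneg n)]

private theorem fn_nonneg (l : Fin d → ℝ) {T : ℝ} (hT : 0 ≤ T) (n : ℕ) (x : V d) :
    0 ≤ fn l T n x := le_min (by positivity) hT

private theorem fn_le (l : Fin d → ℝ) (T : ℝ) (n : ℕ) (x : V d) : fn l T n x ≤ T :=
  min_le_right _ _

private theorem fn_step (l : Fin d → ℝ) (hl : ∑ i, l i ^ 2 = 1) {T : ℝ} (hT : 0 ≤ T) (n : ℕ)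
    (hn : 1 ≤ n) (x : V d) (δ : Dir d) :
    |fn l T n (x + st δ) - fn l T n x| ≤ 2 * Real.sqrt T / Real.sqrt n := by
  have hn0 : (0 : ℝ) < Real.sqrt n := Real.sqrt_pos.2 (by exact_mod_cast hn)
  rw [fn_eq, fn_eq]
  refine (trunc_lip hT _ _).trans ?_
  rw [← sub_div, dot_add, dot_st, add_sub_cancel_left, abs_div, abs_of_pos hn0]
  have h1 := abs_dt_le l hl δ
  have h2 : 2 * Real.sqrt T * (|dt l δ| / Real.sqrt n) ≤ 2 * Real.sqrt T * (1 / Real.sqrt n) := by
    gcongr
  refine h2.trans (le_of_eq ?_)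
  ring

private noncomputable def Wn (l : Fin d → ℝ) (T : ℝ) (n : ℕ) (ω : Om d) : ℝ :=
  Ln ω n (fn l T n) 0

private theorem Wn_nonneg (l : Fin d → ℝ) {T : ℝ} (hT : 0 ≤ T) (n : ℕ) (ω : Om d) :
    0 ≤ Wn l T n ω := by
  have h := Ln_mono ω n (g := fun _ => 0) (h := fn l T n) (fun x => fn_nonneg l hT n x) 0
  rw [Ln_const] at h
  exact h

private theorem Wn_le (l : Fin d → ℝ) (T : ℝ) (n : ℕ) (ω : Om d) : Wn l T n ω ≤ T := by
  have h := Ln_mono ω n (g := fn l T n) (h := fun _ => T) (fun x => fn_le l T n x) 0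
  rw [Ln_const] at h
  exact h

private theorem measurable_Wn (l : Fin d → ℝ) (T : ℝ) (n : ℕ) :
    Measurable (Wn l T n : Om d → ℝ) :=
  measurable_Ln n (fun _ => fn l T n) (fun _ => measurable_const) 0

private theorem Wn_Ae (l : Fin d → ℝ) (hl : ∑ i, l i ^ 2 = 1) {T : ℝ} (hT : 0 ≤ T) (n : ℕ)
    (hn : 1 ≤ n) (ω : Om d) :
    |Ae (Wn l T n) ω - Wn l T n ω| ≤ 2 * (2 * Real.sqrt T / Real.sqrt n) := by
  set a := 2 * Real.sqrt T / Real.sqrt n with ha
  have ha0 : 0 ≤ a := by positivity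
  -- compare with the quenched walk
  have e : ∀ x : V d, Wn l T n (sh x ω) = Ln ω n (fun y => fn l T n (y - x)) x := by
    intro x
    unfold Wn
    rw [Ln_sh, zero_add]
  have h1 : |Ae (Wn l T n) ω - Lz ω (Ln ω n (fn l T n)) 0| ≤ a := by
    unfold Ae
    apply Lz_close
    · simp only [e]
      simpa using ha0
    · intro δ
      rw [e, zero_add]
      apply Ln_close
      intro y
      have := fn_step l hl hT n hn (y - st δ) δ
      rw [sub_add_cancel] at this
      rw [abs_sub_comm]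
      exact this
  have h2 : |Ln ω n (Lz ω (fn l T n)) 0 - Ln ω n (fn l T n) 0| ≤ a := by
    apply Ln_close
    intro x
    have h3 : Lz ω (fun _ => fn l T n x) x = fn l T n x := by
      have := congrFun (Ln_const ω 1 (fn l T n x)) x
      rwa [Ln_succ, Ln_zero] at this
    rw [← h3]
    conv_lhs => rw [h3]
    have h4 := Lz_close ω (g := fn l T n) (h := fun _ => fn l T n x) (x := x) (a := a)
      (by simpa using ha0) (fun δ => fn_step l hl hT n hn x δ)
    rwa [h3] at h4
  rw [← Ln_succ', Ln_succ] at h2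
  unfold Wn at h1 ⊢
  rw [abs_le] at h1 h2 ⊢
  constructor <;> linarith [h1.1, h1.2, h2.1, h2.2]

/-! ### Integrability -/

private theorem dg_nonneg' (ω : Om d) : 0 ≤ dg ω := by
  unfold dg
  apply Finset.sum_nonneg
  intro δ _
  unfold oo
  split_ifs <;> norm_num

instance nuFin : IsFiniteMeasure (nu d p) := by
  unfold nu; infer_instance

private theorem integrable_of_bdd {f : Om d → ℝ} (hm : Measurable f) {B : ℝ}
    (hb : ∀ ω, |f ω| ≤ B) : Integrable f (nu d p) :=
  Integrable.of_bound hm.aestronglyMeasurable B (Eventually.of_forall fun ω => by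
    rw [Real.norm_eq_abs]; exact hb ω)

private theorem memLp_of_bdd {f : Om d → ℝ} (hm : Measurable f) {B : ℝ}
    (hb : ∀ ω, |f ω| ≤ B) : MemLp f 2 (nu d p) :=
  MemLp.of_bound hm.aestronglyMeasurable B (Eventually.of_forall fun ω => by
    rw [Real.norm_eq_abs]; exact hb ω)

private theorem integrable_dg_mul {f : Om d → ℝ} (hm : Measurable f) {B : ℝ}
    (hb : ∀ ω, |f ω| ≤ B) : Integrable (fun ω => dg ω * f ω) (nu d p) := by
  refine integrable_of_bdd (measurable_dg.mul hm) (B := 2 * d * B) fun ω => ?_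
  rw [abs_mul, abs_of_nonneg (dg_nonneg' ω)]
  exact mul_le_mul (dg_le ω) (hb ω) (abs_nonneg _) (by positivity)

private theorem measurable_Ae_iter_s {f : Om d → ℝ} (hm : Measurable f) (j : ℕ) :
    Measurable (Ae^[j] f) := by
  induction j with
  | zero => exact hm
  | succ j ih => rw [Function.iterate_succ_apply']; exact measurable_Ae ih

private theorem Ae_iter_bdd {f : Om d → ℝ} {B : ℝ} (hb : ∀ ω, |f ω| ≤ B) (j : ℕ) (ω : Om d) :
    |(Ae^[j] f) ω| ≤ B := by
  induction j generalizing ω with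
  | zero => exact hb ω
  | succ j ih =>
    rw [Function.iterate_succ_apply']
    have h1 := Ae_close (f := Ae^[j] f) (g := fun _ => 0) (a := B) ω (fun ω => by simpa using ih ω)
    have h2 : Ae (fun _ : Om d => (0 : ℝ)) ω = 0 := by
      unfold Ae
      have := congrFun (Ln_const ω 1 (0 : ℝ)) 0
      rwa [Ln_succ, Ln_zero] at this
    rw [h2, sub_zero] at h1
    exact h1

private theorem integral_dg_one : ∫ ω, dg ω ∂(nu d p) = kap d p := rfl

private theorem tha_eq : ∫ _ω : Om d, (1 : ℝ) ∂(nu d p) = tha d p := by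
  simp [tha]

private theorem tha_le_kap : tha d p ≤ kap d p := by
  rw [← tha_eq]
  unfold kap
  refine integral_mono_ae (integrable_const _) ?_ (ae_one_le_dg p)
  have := integrable_dg_mul (p := p) (d := d) (f := fun _ => (1 : ℝ)) measurable_const (B := 1)
    (fun _ => by simp)
  simpa using this

theorem bias_change (hd : 1 ≤ d) (hH : HypH d p K C c) (l : Fin d → ℝ) (hl : ∑ i, l i ^ 2 = 1)
    (T : ℝ) (hT : 0 < T) :
    Tendsto (fun n : ℕ => ∫ ω, Ln ω n (fun x => min (dot l x ^ 2 / n) T) 0 ∂(nu d p)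
      - tha d p / kap d p * ∫ ω, dg ω * Ln ω n (fun x => min (dot l x ^ 2 / n) T) 0 ∂(nu d p))
      atTop (𝓝 0) := by
  have hth : 0 < tha d p := theta_pos hH
  have hka : 0 < kap d p := lt_of_lt_of_le hth tha_le_kap
  set r : ℝ := tha d p / kap d p with hr
  have hr0 : 0 < r := div_pos hth hka
  have hr1 : r ≤ 1 := (div_le_one hka).2 tha_le_kap
  -- the function `h`
  set h : Om d → ℝ := fun ω => if 1 ≤ dg ω then 1 / dg ω - r else 0 with hh
  have hhm : Measurable h :=
    Measurable.ite (measurableSet_le measurable_const measurable_dg)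
      ((measurable_const.div measurable_dg).sub measurable_const) measurable_const
  have hhb : ∀ ω, |h ω| ≤ 1 := by
    intro ω
    simp only [hh]
    split_ifs with h1
    · have h2 : 0 < 1 / dg ω := by positivity
      have h3 : 1 / dg ω ≤ 1 := by
        rw [div_le_one (by linarith)]; exact h1
      rw [abs_le]; constructor <;> linarith
    · simp
  have hdh : ∀ᵐ ω ∂(nu d p), dg ω * h ω = 1 - r * dg ω := by
    filter_upwards [ae_one_le_dg p] with ω h1
    simp only [hh, h1, if_true]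
    have : dg ω ≠ 0 := by linarith
    field_simp
  have hdgI : Integrable (fun ω => dg ω) (nu d p) := by
    have := integrable_dg_mul (p := p) (d := d) (f := fun _ => (1 : ℝ)) measurable_const (B := 1)
      (fun _ => by simp)
    simpa using this
  have hmean : ∫ ω, dg ω * h ω ∂(nu d p) = 0 := by
    rw [integral_congr_ae hdh, integral_sub (integrable_const _) (hdgI.const_mul r),
      integral_const_mul, tha_eq, integral_dg_one, hr]
    field_simp
    ring
  have hconv := Ae_conv hd hH h hhm ⟨1, hhb⟩ hmean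
  -- rewriting of the difference
  have hW : ∀ n : ℕ, ∫ ω, Ln ω n (fun x => min (dot l x ^ 2 / n) T) 0 ∂(nu d p)
      - r * ∫ ω, dg ω * Ln ω n (fun x => min (dot l x ^ 2 / n) T) 0 ∂(nu d p)
      = ∫ ω, dg ω * (h ω * Wn l T n ω) ∂(nu d p) := by
    intro n
    have hb : ∀ ω : Om d, |Wn l T n ω| ≤ T := fun ω => by
      rw [abs_of_nonneg (Wn_nonneg l hT.le n ω)]; exact Wn_le l T n ω
    have e1 : ∫ ω, Ln ω n (fun x => min (dot l x ^ 2 / n) T) 0 ∂(nu d p) =
        ∫ ω, Wn l T n ω ∂(nu d p) := rfl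
    have e2 : ∫ ω, dg ω * Ln ω n (fun x => min (dot l x ^ 2 / n) T) 0 ∂(nu d p) =
        ∫ ω, dg ω * Wn l T n ω ∂(nu d p) := rfl
    rw [e1, e2, ← integral_const_mul, ← integral_sub
      (integrable_of_bdd (measurable_Wn l T n) hb)
      ((integrable_dg_mul (measurable_Wn l T n) hb).const_mul r)]
    apply integral_congr_ae
    filter_upwards [hdh] with ω h1
    linear_combination (-(Wn l T n ω)) * h1
  simp only [hW]
  -- the estimate
  have key : ∀ (n j : ℕ) (η : ℝ), 1 ≤ n → 0 < η →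
      |∫ ω, dg ω * (h ω * Wn l T n ω) ∂(nu d p)| ≤
        j * (2 * (2 * Real.sqrt T / Real.sqrt n)) * kap d p +
        T * (η * kap d p + (1 / (4 * η)) * ∫ ω, dg ω * ((Ae^[j] h) ω) ^ 2 ∂(nu d p)) := by
    intro n j η hn hη
    set a := 2 * (2 * Real.sqrt T / Real.sqrt n) with ha
    have ha0 : 0 ≤ a := by positivity
    have hb : ∀ ω : Om d, |Wn l T n ω| ≤ T := fun ω => by
      rw [abs_of_nonneg (Wn_nonneg l hT.le n ω)]; exact Wn_le l T n ω
    have hmW := measurable_Wn (d := d) l T n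
    have hmAW := measurable_Ae_iter_s hmW j
    have hbAW := Ae_iter_bdd hb j
    have hmAh := measurable_Ae_iter_s hhm j
    have hbAh := Ae_iter_bdd hhb j
    have hclose : ∀ ω : Om d, |(Ae^[j] (Wn l T n)) ω - Wn l T n ω| ≤ j * a :=
      Ae_iter_close (fun ω => Wn_Ae l hl hT.le n hn ω) j
    have hprod : ∀ {f g : Om d → ℝ} {A B : ℝ}, (∀ ω, |f ω| ≤ A) → (∀ ω, |g ω| ≤ B) →
        ∀ ω, |f ω * g ω| ≤ A * B := by
      intro f g A B hf hg ω
      rw [abs_mul]
      exact mul_le_mul (hf ω) (hg ω) (abs_nonneg _) ((abs_nonneg _).trans (hf ω))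
    have i1 : Integrable (fun ω => dg ω * (h ω * Wn l T n ω)) (nu d p) :=
      integrable_dg_mul (hhm.mul hmW) (hprod hhb hb)
    have i2 : Integrable (fun ω => dg ω * (h ω * (Ae^[j] (Wn l T n)) ω)) (nu d p) :=
      integrable_dg_mul (hhm.mul hmAW) (hprod hhb hbAW)
    have i3 : Integrable (fun ω => dg ω * ((Ae^[j] h) ω * Wn l T n ω)) (nu d p) :=
      integrable_dg_mul (hmAh.mul hmW) (hprod hbAh hb)
    have i4 : Integrable (fun ω => dg ω * ((Ae^[j] h) ω) ^ 2) (nu d p) := by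
      refine integrable_dg_mul (hmAh.pow_const 2) (B := 1) fun ω => ?_
      rw [abs_of_nonneg (sq_nonneg _), ← sq_abs]
      exact pow_le_one₀ (abs_nonneg _) (hbAh ω)
    have s1 : ∫ ω, dg ω * (h ω * (Ae^[j] (Wn l T n)) ω) ∂(nu d p) =
        ∫ ω, dg ω * ((Ae^[j] h) ω * Wn l T n ω) ∂(nu d p) :=
      Ae_iter_symm p hhm hmW (memLp_of_bdd hhm hhb) (memLp_of_bdd hmW hb) j
    have b1 : |∫ ω, dg ω * (h ω * Wn l T n ω) ∂(nu d p) -
        ∫ ω, dg ω * (h ω * (Ae^[j] (Wn l T n)) ω) ∂(nu d p)| ≤ j * a * kap d p := by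
      rw [← integral_sub i1 i2]
      refine (abs_integral_le_integral_abs).trans ?_
      have e : j * a * kap d p = ∫ ω, j * a * dg ω ∂(nu d p) := by
        rw [integral_const_mul]; rfl
      rw [e]
      apply integral_mono_of_nonneg (Eventually.of_forall fun ω => abs_nonneg _)
        (hdgI.const_mul _) (Eventually.of_forall fun ω => ?_)
      simp only
      rw [← mul_sub, ← mul_sub, abs_mul, abs_mul, abs_of_nonneg (dg_nonneg' ω)]
      have c1 := hclose ω
      rw [abs_sub_comm] at c1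
      have c2 : |h ω| * |Wn l T n ω - (Ae^[j] (Wn l T n)) ω| ≤ 1 * (j * a) :=
        mul_le_mul (hhb ω) c1 (abs_nonneg _) zero_le_one
      calc dg ω * (|h ω| * |Wn l T n ω - (Ae^[j] (Wn l T n)) ω|) ≤ dg ω * (1 * (j * a)) :=
            mul_le_mul_of_nonneg_left c2 (dg_nonneg' ω)
        _ = _ := by ring
    have b2 : |∫ ω, dg ω * ((Ae^[j] h) ω * Wn l T n ω) ∂(nu d p)| ≤
        T * (η * kap d p + (1 / (4 * η)) * ∫ ω, dg ω * ((Ae^[j] h) ω) ^ 2 ∂(nu d p)) := by
      refine (abs_integral_le_integral_abs).trans ?_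
      have e : T * (η * kap d p + (1 / (4 * η)) * ∫ ω, dg ω * ((Ae^[j] h) ω) ^ 2 ∂(nu d p)) =
          ∫ ω, T * (η * dg ω + (1 / (4 * η)) * (dg ω * ((Ae^[j] h) ω) ^ 2)) ∂(nu d p) := by
        rw [integral_const_mul, integral_add (hdgI.const_mul _) (i4.const_mul _),
          integral_const_mul, integral_const_mul]
        rfl
      rw [e]
      apply integral_mono_of_nonneg (Eventually.of_forall fun ω => abs_nonneg _)
        (((hdgI.const_mul _).add (i4.const_mul _)).const_mul _) (Eventually.of_forall fun ω => ?_)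
      simp only [Pi.add_apply]
      rw [abs_mul, abs_mul, abs_of_nonneg (dg_nonneg' ω)]
      have c1 : |(Ae^[j] h) ω| ≤ η + (1 / (4 * η)) * ((Ae^[j] h) ω) ^ 2 := by
        have q : 0 ≤ (2 * η - |(Ae^[j] h) ω|) ^ 2 := sq_nonneg _
        have q2 : ((Ae^[j] h) ω) ^ 2 = |(Ae^[j] h) ω| ^ 2 := (sq_abs _).symm
        rw [q2]
        have h4 : (4 * η) * |(Ae^[j] h) ω| ≤ (4 * η) * (η + (1 / (4 * η)) * |(Ae^[j] h) ω| ^ 2) := by
          have : (4 * η) * (η + (1 / (4 * η)) * |(Ae^[j] h) ω| ^ 2) =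
              4 * η ^ 2 + |(Ae^[j] h) ω| ^ 2 := by field_simp
          rw [this]
          nlinarith
        exact le_of_mul_le_mul_left h4 (by positivity)
      have c2 : |(Ae^[j] h) ω| * |Wn l T n ω| ≤
          (η + (1 / (4 * η)) * ((Ae^[j] h) ω) ^ 2) * T :=
        mul_le_mul c1 (hb ω) (abs_nonneg _) ((abs_nonneg _).trans c1)
      calc dg ω * (|(Ae^[j] h) ω| * |Wn l T n ω|)
          ≤ dg ω * ((η + (1 / (4 * η)) * ((Ae^[j] h) ω) ^ 2) * T) :=
            mul_le_mul_of_nonneg_left c2 (dg_nonneg' ω)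
        _ = _ := by ring
    have t1 := abs_add_le (∫ ω, dg ω * (h ω * Wn l T n ω) ∂(nu d p) -
        ∫ ω, dg ω * (h ω * (Ae^[j] (Wn l T n)) ω) ∂(nu d p))
        (∫ ω, dg ω * ((Ae^[j] h) ω * Wn l T n ω) ∂(nu d p))
    rw [← s1, sub_add_cancel] at t1
    rw [← s1] at b2
    linarith
  -- conclusion
  rw [Metric.tendsto_atTop]
  intro ε hε
  -- choose η
  set η : ℝ := ε / (4 * T * kap d p) with hη
  have hη0 : 0 < η := by positivity
  have e1 : T * (η * kap d p) = ε / 4 := by
    rw [hη]; field_simp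
  -- choose j
  have hj := (Metric.tendsto_atTop.1 hconv) (ε * η / T) (by positivity)
  obtain ⟨j, hj⟩ := hj
  have hj1 := hj j le_rfl
  rw [Real.dist_eq, sub_zero] at hj1
  have e2 : T * ((1 / (4 * η)) * ∫ ω, dg ω * ((Ae^[j] h) ω) ^ 2 ∂(nu d p)) ≤ ε / 4 := by
    have h1 : ∫ ω, dg ω * ((Ae^[j] h) ω) ^ 2 ∂(nu d p) ≤ ε * η / T := (le_abs_self _).trans hj1.le
    calc T * ((1 / (4 * η)) * ∫ ω, dg ω * ((Ae^[j] h) ω) ^ 2 ∂(nu d p))
        ≤ T * ((1 / (4 * η)) * (ε * η / T)) := by gcongr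
      _ = ε / 4 := by field_simp
  -- choose n
  have hlim : Tendsto (fun n : ℕ => (j : ℝ) * (2 * (2 * Real.sqrt T / Real.sqrt n)) * kap d p)
      atTop (𝓝 0) := by
    have h1 : Tendsto (fun n : ℕ => (Real.sqrt n)⁻¹) atTop (𝓝 0) :=
      tendsto_inv_atTop_zero.comp (Real.tendsto_sqrt_atTop.comp tendsto_natCast_atTop_atTop)
    have h2 := h1.const_mul ((j : ℝ) * (2 * (2 * Real.sqrt T)) * kap d p)
    rw [mul_zero] at h2
    refine h2.congr fun n => ?_
    rw [div_eq_mul_inv]; ring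
  obtain ⟨N, hN⟩ := (Metric.tendsto_atTop.1 hlim) (ε / 4) (by positivity)
  refine ⟨max N 1, fun n hn => ?_⟩
  have hn1 := hN n ((le_max_left _ _).trans hn)
  rw [Real.dist_eq, sub_zero] at hn1
  have hn2 := key n j η ((le_max_right _ _).trans hn) hη0
  rw [Real.dist_eq, sub_zero]
  have := le_abs_self ((j : ℝ) * (2 * (2 * Real.sqrt T / Real.sqrt n)) * kap d p)
  rw [mul_add] at hn2
  linarith

theorem sigma_eq (hd : 1 ≤ d) (hH : HypH d p K C c) (l : Fin d → ℝ) (hl : ∑ i, l i ^ 2 = 1)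
    (s : NNReal) (hs : IsDiff d p l s) :
    Tendsto (fun n : ℕ => 2 * uu p l n / n) atTop (𝓝 (kap d p * s)) := by
  have hth : 0 < tha d p := theta_pos hH
  have hka : 0 < kap d p := lt_of_lt_of_le hth tha_le_kap
  obtain ⟨C4, hC4, h4⟩ := fourth_moment d
  set g : ℝ → ℝ := fun T => ∫ t, min (t ^ 2) T ∂(gaussianReal 0 (s / 2)) with hg
  have hgT : Tendsto g atTop (𝓝 ((s : ℝ) / 2)) := by
    have := gauss_trunc (s / 2)
    simpa using this
  -- the truncated quantities
  have htr : ∀ T : ℝ, 0 < T → Tendsto (fun n : ℕ => ∫ ω, dg ω * Wn l T n ω ∂(nu d p)) atTop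
      (𝓝 (kap d p * g T)) := by
    intro T hT
    have h1 := bias_change hd hH l hl T hT
    have h2 := lazy_clt p l s hs T hT
    have h3 := (h2.sub h1).const_mul (kap d p / tha d p)
    rw [sub_zero] at h3
    have e : kap d p / tha d p * (tha d p * ∫ t, min (t ^ 2) T ∂(gaussianReal 0 (s / 2))) =
        kap d p * g T := by
      simp only [hg]; field_simp
    rw [e] at h3
    refine h3.congr fun n => ?_
    have e1 : ∫ ω, dg ω * Ln ω n (fun x => min (dot l x ^ 2 / n) T) 0 ∂(nu d p) =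
        ∫ ω, dg ω * Wn l T n ω ∂(nu d p) := rfl
    rw [e1]
    field_simp
    ring
  -- the difference
  have hdiff : ∀ (T : ℝ) (n : ℕ), 0 < T → 1 ≤ n →
      0 ≤ uu p l n / n - ∫ ω, dg ω * Wn l T n ω ∂(nu d p) ∧
      uu p l n / n - ∫ ω, dg ω * Wn l T n ω ∂(nu d p) ≤ C4 / T := by
    intro T n hT hn
    have hn0 : (0 : ℝ) < n := by exact_mod_cast hn
    -- integrability
    have hI : ∀ F : V d → ℝ, Integrable (fun ω => dg ω * Ln ω n F 0) (nu d p) := fun F =>
      integrable_dg_mul (measurable_Ln n (fun _ => F) (fun _ => measurable_const) 0)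
        (fun ω => Ln_abs_le_sum ω n F)
    have e1 : uu p l n / n = ∫ ω, dg ω * Ln ω n (fun x => dot l x ^ 2 / n) 0 ∂(nu d p) := by
      unfold uu U2
      rw [← integral_div]
      apply integral_congr_ae
      refine Eventually.of_forall fun ω => ?_
      simp only
      have : (fun x : V d => dot l x ^ 2 / (n : ℝ)) = (1 / (n : ℝ)) • fun x => dot l x ^ 2 := by
        ext x; simp only [Pi.smul_apply, smul_eq_mul]; ring
      rw [this, Ln_smul, Pi.smul_apply, smul_eq_mul]
      ring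
    have e2 : uu p l n / n - ∫ ω, dg ω * Wn l T n ω ∂(nu d p) =
        ∫ ω, dg ω * (Ln ω n (fun x => dot l x ^ 2 / n) 0 - Wn l T n ω) ∂(nu d p) := by
      have e3 : ∫ ω, dg ω * Wn l T n ω ∂(nu d p) =
          ∫ ω, dg ω * Ln ω n (fn l T n) 0 ∂(nu d p) := rfl
      rw [e1, e3, ← integral_sub (hI _) (hI (fn l T n))]
      apply integral_congr_ae
      refine Eventually.of_forall fun ω => ?_
      simp only [Wn]
      ring
    have hle : ∀ ω : Om d, 0 ≤ Ln ω n (fun x => dot l x ^ 2 / n) 0 - Wn l T n ω := by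
      intro ω
      have := Ln_mono ω n (g := fn l T n) (h := fun x => dot l x ^ 2 / n)
        (fun x => min_le_left _ _) 0
      unfold Wn
      linarith
    have hle2 : ∀ ω : Om d, Ln ω n (fun x => dot l x ^ 2 / n) 0 - Wn l T n ω ≤
        (1 / ((n : ℝ) ^ 2 * T)) * Ln ω n (fun x => dot l x ^ 4) 0 := by
      intro ω
      have h1 := Ln_mono ω n (g := fun x => dot l x ^ 2 / n)
        (h := fn l T n + (1 / ((n : ℝ) ^ 2 * T)) • fun x => dot l x ^ 4) (fun x => ?_) 0
      · rw [Ln_add, Ln_smul] at h1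
        simp only [Pi.add_apply, Pi.smul_apply, smul_eq_mul] at h1
        unfold Wn
        linarith
      · simp only [Pi.add_apply, Pi.smul_apply, smul_eq_mul, fn]
        set y := dot l x ^ 2 / (n : ℝ) with hy
        have hy0 : 0 ≤ y := by positivity
        have e3 : 1 / ((n : ℝ) ^ 2 * T) * dot l x ^ 4 = y ^ 2 / T := by
          rw [hy]; field_simp
        rw [e3]
        rcases le_total y T with h5 | h5
        · rw [min_eq_left h5]
          have : 0 ≤ y ^ 2 / T := by positivity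
          linarith
        · rw [min_eq_right h5]
          have : y ≤ y ^ 2 / T := by
            rw [le_div_iff₀ hT]; nlinarith
          linarith
    rw [e2]
    constructor
    · exact integral_nonneg fun ω => mul_nonneg (dg_nonneg' ω) (hle ω)
    · have h5 : ∫ ω, dg ω * (Ln ω n (fun x => dot l x ^ 2 / n) 0 - Wn l T n ω) ∂(nu d p) ≤
          ∫ ω, (1 / ((n : ℝ) ^ 2 * T)) * (dg ω * Ln ω n (fun x => dot l x ^ 4) 0) ∂(nu d p) := by
        apply integral_mono_of_nonneg
          (Eventually.of_forall fun ω => mul_nonneg (dg_nonneg' ω) (hle ω))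
          ((hI _).const_mul _) (Eventually.of_forall fun ω => ?_)
        simp only
        calc dg ω * (Ln ω n (fun x => dot l x ^ 2 / n) 0 - Wn l T n ω)
            ≤ dg ω * ((1 / ((n : ℝ) ^ 2 * T)) * Ln ω n (fun x => dot l x ^ 4) 0) :=
              mul_le_mul_of_nonneg_left (hle2 ω) (dg_nonneg' ω)
          _ = _ := by ring
      refine h5.trans ?_
      rw [integral_const_mul]
      calc (1 / ((n : ℝ) ^ 2 * T)) * ∫ ω, dg ω * Ln ω n (fun x => dot l x ^ 4) 0 ∂(nu d p)
          ≤ (1 / ((n : ℝ) ^ 2 * T)) * (C4 * (n : ℝ) ^ 2) :=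
            mul_le_mul_of_nonneg_left (h4 p l hl n) (by positivity)
        _ = C4 / T := by field_simp
  -- conclusion
  have hmain : Tendsto (fun n : ℕ => uu p l n / n) atTop (𝓝 (kap d p * (s / 2))) := by
    rw [Metric.tendsto_atTop]
    intro ε hε
    have hgk := hgT.const_mul (kap d p)
    have hev1 : ∀ᶠ T : ℝ in atTop, |kap d p * g T - kap d p * (s / 2)| < ε / 3 := by
      have := (Metric.tendsto_nhds.1 hgk) (ε / 3) (by positivity)
      simpa only [Real.dist_eq] using this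
    have hev2 : ∀ᶠ T : ℝ in atTop, C4 / T < ε / 3 :=
      (tendsto_const_nhds.div_atTop tendsto_id).eventually (gt_mem_nhds (by positivity))
    obtain ⟨T, hT1, hT2, hT0⟩ := (hev1.and (hev2.and (eventually_gt_atTop 0))).exists
    obtain ⟨N, hN⟩ := (Metric.tendsto_atTop.1 (htr T hT0)) (ε / 3) (by positivity)
    refine ⟨max N 1, fun n hn => ?_⟩
    have h1 := hN n ((le_max_left _ _).trans hn)
    obtain ⟨h2, h3⟩ := hdiff T n hT0 ((le_max_right _ _).trans hn)
    rw [Real.dist_eq] at h1 ⊢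
    rw [abs_lt] at h1 hT1 ⊢
    constructor <;> linarith [h1.1, h1.2, hT1.1, hT1.2]
  have h2 := hmain.const_mul 2
  have e : 2 * (kap d p * ((s : ℝ) / 2)) = kap d p * s := by ring
  rw [e] at h2
  refine h2.congr fun n => ?_
  ring

end Ein99
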