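import Pool.Agent.LibEin99.F_Pair

/-!
TASK F_Curl. A field orthogonal to all admissible flows is curl free.

For a closed list `L` (`endp 0 L = 0`) and a bounded local `b`, the rule `b' ω = b ω`, `s = 0`,
`γ ω = if OpenL ω 0 L then L else []` is a `PathRule` (radius `R ≥ L.length`, radius of `b`), and
`∑_δ SF = 0` by `SF_div` (start = end). So `SF` is admissible (take `J = SF` for all `ρ`, `A` large).
`SF_pair`: `∫ 1{InfC ω 0} 1{OpenL ω 0 L} b ω Gs G ω 0 L dPr = 0` for all bounded local `b`; the function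
`F = 1{InfC 0} 1{OpenL 0 L} Gs G ω 0 L` is integrable, so `∫_E F = 0` for all cylinder sets `E`, hence
for all measurable sets (`MeasurableSpace.induction_on_inter`, or `local_approx`-type argument), so
`F = 0` a.e. Countably many lists and `ae_all_shift`/`mp_sh` give the statement at all vertices.
-/

open MeasureTheory ProbabilityTheory Filter Topology

namespace Ein99

variable {d : ℕ} {p : unitInterval}

/-- a path rule with closed paths gives an admissible flow -/
theorem F_Curl_adm {R : ℕ} {B : ℝ} {b : Om d → ℝ} {s : Om d → V d} {γ : Om d → List (Dir d)}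
    (h : PathRule R B b s γ) (hcl : ∀ ω, endp (s ω) (γ ω) = s ω) : Adm p (SF R b s γ) := by
  have hdiv : ∀ ω, ∑ δ, SF R b s γ ω δ = 0 := by
    intro ω
    rw [SF_div]
    refine Finset.sum_eq_zero fun z _ => ?_
    have h1 : endp (z + s (sh z ω)) (γ (sh z ω)) = z + s (sh z ω) := by
      rw [add_comm z, endp_add, hcl]
    rw [h1, sub_self, mul_zero]
  set A : ℕ := 3 * R + ⌈(4 * (R : ℝ) + 1) ^ d * (B * R)⌉₊ + 1 with hA
  have hA1 : 1 ≤ A := by omega
  refine ⟨A, hA1, (SF_sqI p h).1, (SF_sqI p h).2, fun ρ hρ => ⟨SF R b s γ, fun δ => ?_,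
    fun ω δ => ?_, SF_anti h, SF_supp h, ?_, ?_⟩⟩
  · refine Loc.mono (Finset.coe_subset.2 (EB_mono ?_ _)) (SF_loc h δ)
    calc 3 * R ≤ A * 1 := by omega
      _ ≤ A * ρ ^ A := Nat.mul_le_mul_left A (Nat.one_le_pow _ _ hρ)
  · refine (SF_bound h ω δ).trans ?_
    have h1 : (4 * (R : ℝ) + 1) ^ d * (B * R) ≤ A := by
      refine (Nat.le_ceil _).trans ?_
      exact_mod_cast (by omega : ⌈(4 * (R : ℝ) + 1) ^ d * (B * R)⌉₊ ≤ A)
    have h2 : (1 : ℝ) ≤ (ρ : ℝ) ^ A := one_le_pow₀ (by exact_mod_cast hρ)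
    have h3 : (0 : ℝ) ≤ A := Nat.cast_nonneg A
    calc (4 * (R : ℝ) + 1) ^ d * (B * R) ≤ A * 1 := by rw [mul_one]; exact h1
      _ ≤ A * (ρ : ℝ) ^ A := mul_le_mul_of_nonneg_left h2 h3
  · have h1 : {ω : Om d | ∑ δ, SF R b s γ ω δ ≠ 0} = ∅ := by
      ext ω
      simp [hdiv ω]
    rw [h1, measureReal_empty]
    positivity
  · simp only [sub_self, ne_eq, OfNat.ofNat_ne_zero, not_false_eq_true, zero_pow, mul_zero,
      Finset.sum_const_zero, integral_zero]
    positivity

open Classical in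
/-- the open walk attached to the list `L` -/
noncomputable def F_Curl_g (L : List (Dir d)) (ω : Om d) : List (Dir d) :=
  if OpenL ω 0 L then L else []

theorem F_Curl_rule (L : List (Dir d)) (R : ℕ) (hR : L.length ≤ R) (b : Om d → ℝ)
    (hb : Loc (EB R (0 : V d) : Set (Ed d)) b) (hb1 : ∀ ω, |b ω| ≤ 1) :
    PathRule R 1 b (fun _ => (0 : V d)) (F_Curl_g L) where
  locb := hb
  locs := fun _ _ _ => rfl
  locγ := by
    intro ω ω' h
    have h1 : OpenL ω 0 L = OpenL ω' 0 L :=
      Loc_OpenL (0 : V d) L ω ω' fun e he => h e (EB_mono hR 0 he)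
    change F_Curl_g L ω = F_Curl_g L ω'
    unfold F_Curl_g
    by_cases ho : OpenL ω 0 L
    · rw [if_pos ho, if_pos (h1 ▸ ho)]
    · rw [if_neg ho, if_neg (h1 ▸ ho)]
  smem := fun _ => self_mem_Bx R 0
  len := by
    intro ω
    unfold F_Curl_g
    split_ifs
    · exact hR
    · exact Nat.zero_le _
  op := by
    intro ω
    unfold F_Curl_g
    split_ifs with h
    · exact h
    · trivial
  hB := zero_le_one
  hb := hb1

open Classical in
theorem F_Curl_int (G : Fld d) (hG : SqI p G) (hGa : AntiAE p G)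
    (h : ∀ I, Adm p I → ip p G I = 0) (L : List (Dir d)) (hL : endp 0 L = (0 : V d)) (R : ℕ)
    (b : Om d → ℝ) (hb : Loc (EB R (0 : V d) : Set (Ed d)) b) (hb1 : ∀ ω, |b ω| ≤ 1) :
    Integrable (fun ω => if InfC ω (0 : V d) then b ω * Gs G ω 0 (F_Curl_g L ω) else 0) (Pr d p) ∧
    ∫ ω, (if InfC ω (0 : V d) then b ω * Gs G ω 0 (F_Curl_g L ω) else 0) ∂(Pr d p) = 0 := by
  have hr : PathRule (max R L.length) 1 b (fun _ => (0 : V d)) (F_Curl_g L) :=
    F_Curl_rule L _ (le_max_right _ _) b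
      (Loc.mono (Finset.coe_subset.2 (EB_mono (le_max_left _ _) _)) hb) hb1
  have hcl : ∀ ω : Om d, endp (0 : V d) (F_Curl_g L ω) = 0 := by
    intro ω
    unfold F_Curl_g
    split_ifs
    · exact hL
    · rfl
  have h1 := SF_pair hr G hG hGa
  have h2 := h _ (F_Curl_adm (p := p) hr hcl)
  rw [h2] at h1
  refine ⟨h1.1, ?_⟩
  have h3 := h1.2
  linarith

theorem F_Curl_cover (s : Finset (Ed d)) : ∃ R : ℕ, s ⊆ EB R (0 : V d) := by
  classical
  induction s using Finset.induction_on with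
  | empty => exact ⟨0, Finset.empty_subset _⟩
  | insert e s _ ih =>
    obtain ⟨R, hR⟩ := ih
    let m : ℕ := ∑ i, (e.1 i).natAbs
    have h1 : e.1 ∈ Bx m (0 : V d) := by
      rw [mem_Bx]
      intro i
      have h2 : (e.1 i).natAbs ≤ m :=
        Finset.single_le_sum (f := fun i => (e.1 i).natAbs) (fun _ _ => Nat.zero_le _)
          (Finset.mem_univ i)
      simp only [Pi.zero_apply, sub_zero]
      rw [Int.abs_eq_natAbs]
      exact_mod_cast h2
    refine ⟨max R (m + 1), Finset.insert_subset_iff.2 ⟨?_, hR.trans (EB_mono (le_max_left _ _) _)⟩⟩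
    refine EB_mono (le_max_right R (m + 1)) 0 ?_
    rw [mem_EB]
    exact ⟨Bx_mono (Nat.le_succ m) 0 h1, Bx_trans h1 (add_st_mem_Bx e.1 _)⟩

open Classical in
theorem F_Curl_set (G : Fld d) (hG : SqI p G) (hGa : AntiAE p G)
    (h : ∀ I, Adm p I → ip p G I = 0) (L : List (Dir d)) (hL : endp 0 L = (0 : V d))
    (E : Set (Om d)) (hE : MeasurableSet E) :
    ∫ ω in E, (if InfC ω (0 : V d) then Gs G ω 0 (F_Curl_g L ω) else 0) ∂(Pr d p) = 0 := by
  set F : Om d → ℝ := fun ω => if InfC ω (0 : V d) then Gs G ω 0 (F_Curl_g L ω) else 0 with hF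
  have hcyl : ∀ (R : ℕ) (E : Set (Om d)), Loc (EB R (0 : V d) : Set (Ed d)) (fun ω => ω ∈ E) →
      Integrable (E.indicator F) (Pr d p) ∧ ∫ ω, E.indicator F ω ∂(Pr d p) = 0 := by
    intro R E hE
    have h1 := F_Curl_int G hG hGa h L hL R (E.indicator fun _ => (1 : ℝ))
      (fun ω ω' hω => by
        have := hE ω ω' hω
        simp only at this
        by_cases hx : ω ∈ E
        · rw [Set.indicator_of_mem hx, Set.indicator_of_mem (this ▸ hx)]
        · rw [Set.indicator_of_notMem hx, Set.indicator_of_notMem (this ▸ hx)])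
      (fun ω => by
        by_cases hx : ω ∈ E
        · rw [Set.indicator_of_mem hx, abs_one]
        · rw [Set.indicator_of_notMem hx, abs_zero]
          exact zero_le_one)
    have h2 : (fun ω : Om d => if InfC ω (0 : V d) then
        (E.indicator fun _ => (1 : ℝ)) ω * Gs G ω 0 (F_Curl_g L ω) else 0) = E.indicator F := by
      funext ω
      by_cases hx : ω ∈ E
      · rw [Set.indicator_of_mem hx, Set.indicator_of_mem hx, one_mul]
      · rw [Set.indicator_of_notMem hx, Set.indicator_of_notMem hx, zero_mul, ite_self]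
    rw [h2] at h1
    exact h1
  have hInt : Integrable F (Pr d p) := by
    have h1 := (hcyl 0 Set.univ fun _ _ _ => rfl).1
    rwa [Set.indicator_univ] at h1
  have hInt0 : ∫ ω, F ω ∂(Pr d p) = 0 := by
    have h1 := (hcyl 0 Set.univ fun _ _ _ => rfl).2
    rwa [Set.indicator_univ] at h1
  refine MeasurableSpace.induction_on_inter
    (C := fun E _ => ∫ ω in E, F ω ∂(Pr d p) = 0)
    (generateFrom_measurableCylinders (α := fun _ : Ed d => Bool)).symm
    isPiSystem_measurableCylinders ?_ ?_ ?_ ?_ E hE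
  · simp
  · intro t ht
    have htm := MeasurableSet.of_mem_measurableCylinders ht
    rw [← integral_indicator htm]
    obtain ⟨s, S, _, rfl⟩ := (mem_measurableCylinders _).1 ht
    obtain ⟨R, hR⟩ := F_Curl_cover s
    refine (hcyl R _ fun ω ω' hω => ?_).2
    have h1 : s.restrict ω = s.restrict ω' := by
      funext e
      exact hω e (hR e.2)
    simp only [mem_cylinder, h1]
  · intro t htm ht
    have h1 := integral_add_compl htm hInt
    rw [ht, hInt0, zero_add] at h1
    exact h1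
  · intro f hd hfm hf
    rw [integral_iUnion hfm hd hInt.integrableOn]
    simp only [hf, tsum_zero]

theorem curl_free (G : Fld d) (hG : SqI p G) (hGa : AntiAE p G)
    (h : ∀ I, Adm p I → ip p G I = 0) :
    ∀ᵐ ω ∂(Pr d p), ∀ x : V d, InfC ω x → ∀ L : List (Dir d), OpenL ω x L → endp x L = x →
      Gs G ω x L = 0 := by
  classical
  have h0 : ∀ᵐ ω ∂(nu d p), ∀ L : List (Dir d), OpenL ω 0 L → endp (0 : V d) L = 0 →
      Gs G ω 0 L = 0 := by
    rw [ae_all_iff]
    intro L
    by_cases hL : endp (0 : V d) L = 0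
    · have h1 : Integrable (fun ω => if InfC ω (0 : V d) then
          Gs G ω 0 (F_Curl_g L ω) else 0) (Pr d p) := by
        have h2 := (F_Curl_int G hG hGa h L hL 0 (fun _ => 1) (fun _ _ _ => rfl)
          (fun _ => by rw [abs_one])).1
        simpa only [one_mul] using h2
      have h2 := h1.ae_eq_zero_of_forall_setIntegral_eq_zero fun E hE _ =>
        F_Curl_set G hG hGa h L hL E hE
      have h3 : ∀ᵐ ω ∂(Pr d p), ω ∈ {ω : Om d | InfC ω 0} → (OpenL ω 0 L →
          endp (0 : V d) L = 0 → Gs G ω 0 L = 0) := by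
        filter_upwards [h2] with ω hω hinf hop _
        have hinf' : InfC ω (0 : V d) := hinf
        simp only [Pi.zero_apply, if_pos hinf', F_Curl_g, if_pos hop] at hω
        exact hω
      exact (ae_restrict_iff' (measurableSet_InfC 0)).2 h3
    · exact Filter.Eventually.of_forall fun ω _ hL' => absurd hL' hL
  filter_upwards [ae_all_shift p _ h0] with ω hω x hx L hop hL
  have h1 := hω x hx L
  rw [OpenL_sh, Gs_sh, zero_add] at h1
  refine h1 hop ?_
  have h2 := endp_add (0 : V d) x L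
  rw [zero_add, hL] at h2
  exact right_eq_add.1 h2

theorem pot_list (G : Fld d) (hG : SqI p G) (hGa : AntiAE p G)
    (h : ∀ I, Adm p I → ip p G I = 0) :
    ∀ᵐ ω ∂(Pr d p), ∀ x : V d, InfC ω x → ∀ L : List (Dir d), OpenL ω x L →
      Pot G ω x (endp x L) = Gs G ω x L := by
  filter_upwards [curl_free G hG hGa h, ae_anti G hGa] with ω hω hanti x hx L hL
  have hc : Conn ω x (endp x L) := conn_of_OpenL ω x L hL
  obtain ⟨h1, h2⟩ := sp_spec ω x (endp x L) hc
  have hG' : ∀ y, Conn ω x y → ∀ δ, opn ω y δ →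
      G (sh (y + st δ) ω) (rv δ) = - G (sh y ω) δ := fun y hy δ hδ =>
    hanti y (InfC_of_conn ω hy hx) δ hδ
  have h3 := OpenL_revL ω x _ h1
  rw [h2] at h3
  have h4 := Gs_revL G ω x _ h1 hG'
  rw [h2] at h4
  have h5 := endp_revL x (sp ω x (endp x L))
  rw [h2] at h5
  have h6 := hω x hx (L ++ revL (sp ω x (endp x L)))
    ((OpenL_append ω x _ _).2 ⟨hL, h3⟩) (by rw [endp_append, h5])
  rw [Gs_append, h4] at h6
  unfold Pot
  linarith

/-- consequences: the potential `Pot G` is additive and its increments along open edges are `G` -/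
theorem pot_add (G : Fld d) (hG : SqI p G) (hGa : AntiAE p G)
    (h : ∀ I, Adm p I → ip p G I = 0) :
    ∀ᵐ ω ∂(Pr d p), ∀ x y z : V d, InfC ω x → Conn ω x y → Conn ω y z →
      Pot G ω x y + Pot G ω y z = Pot G ω x z := by
  filter_upwards [pot_list G hG hGa h] with ω hω x y z hx hxy hyz
  obtain ⟨h1, h2⟩ := sp_spec ω x y hxy
  obtain ⟨h3, h4⟩ := sp_spec ω y z hyz
  have h5 : OpenL ω x (sp ω x y ++ sp ω y z) := by
    rw [OpenL_append, h2]
    exact ⟨h1, h3⟩
  have h6 := hω x hx _ h5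
  rw [endp_append, h2, h4, Gs_append, h2] at h6
  rw [h6]
  rfl

end Ein99
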