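import Pool.Agent.LibEin99.F_Prob

/-!
TASK F_Final. The admissible flows capture the whole diffusivity.

`Nn_small`: `(1/n) ∫ dg Nn → 0`. `|dot l y * Pot| ≤ |dot l y| |Pot| (1_A + 1_{Aᶜ})`,
`A = {η√n ≤ |Pot G ω 0 y|}`: on `Aᶜ`: `≤ η √n E|dot l| ≤ η √n √(kap·uu n) = O(η n)`; on `A`:
Cauchy-Schwarz twice: `E[|dot l| |Pot| 1_A] ≤ (E Pot²)^{1/2} (E (dot l)⁴)^{1/4} P(A)^{1/4}` with
`pot_second_moment`, `fourth_moment` and `pot_in_prob`: `O(n) · o(1)`. (Here `E` is
`∫ dg Ln ω n (·) 0 d(nu)`, a positive functional on functions of `(ω, y)`.)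
`exists_adm`: let `G` be given by `exists_proj` and `S` by `uu_lim`. For `I` admissible
`ip I (GPsi n) = ip I (Dl l)` (`adm_orth`: `chi n` is bounded), so by approximation
`ip (Dl - G) (GPsi n) = ip (Dl - G) (Dl)` (`ip (GPsi n) (GPsi n) ≤ 2 uu 1` is bounded) and
`ip (Dl - G)(Dl) = ip (Dl - G)(Dl - G) =: S'` (`G ⟂ Dl - G`). With `ip_Dl_GPsi`:
`ip G (GPsi n) = 2 (uu (n+1) - uu n) - S' → S - S'`. By `Nn_step` the increments of
`∫ dg Nn` converge to `(S - S')/2`, so `(1/n)∫ dg Nn → (S-S')/2 = 0` by `Nn_small`. So `S' = S`.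
Now take `I` admissible close to `Dl - G`: `|ip (Dl l) I - S| ≤ √ε √(ip Dl Dl)`,
`|ip I I - S| ≤ 2 √ε √S + ε`.
-/

open MeasureTheory ProbabilityTheory Filter Topology

namespace Ein99

variable {d : ℕ} {p : unitInterval} {K : ℕ} {C c : ℝ}

theorem ff_meas (n : ℕ) {H : Om d → V d → ℝ} (hH : ∀ y, Measurable (fun ω => H ω y)) :
    Measurable (fun ω => dg ω * Ln ω n (H ω) 0) :=
  measurable_dg.mul (measurable_Ln n H hH 0)

theorem ff_int (n : ℕ) {H : Om d → V d → ℝ} (hH : ∀ y, Measurable (fun ω => H ω y)) {B : ℝ}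
    (h : ∀ ω, ∀ y ∈ Bx n (0 : V d), |H ω y| ≤ B) :
    Integrable (fun ω => dg ω * Ln ω n (H ω) 0) (nu d p) := by
  have := sq_fin (d := d) p
  refine Integrable.of_bound (ff_meas n hH).aestronglyMeasurable (2 * d * |B|)
    (Eventually.of_forall fun ω => ?_)
  rw [Real.norm_eq_abs, abs_mul, abs_of_nonneg (sq_dg_nonneg ω)]
  exact mul_le_mul (dg_le ω) ((pb_abs_Ln ω n (h ω)).trans (le_abs_self B)) (abs_nonneg _)
    (by positivity)

theorem ff_dot_box {l : Fin d → ℝ} (hl : ∑ i, l i ^ 2 = 1) {n : ℕ} {y : V d}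
    (hy : y ∈ Bx n (0 : V d)) : |dot l y| ≤ Real.sqrt d * n := by
  have h2 := abs_dot_sub_le l hl hy
  have h3 : dot l (0 : V d) = 0 := by simp [dot]
  rwa [h3, sub_zero] at h2

/-- the elementary inequality -/
theorem ff_elem {η τ σ m u v : ℝ} (hη : 0 < η) (hτ : 0 < τ) (hσ : 0 < σ) (hm : 0 < m)
    (hu : 0 ≤ u) (hv : 0 ≤ v) (q : ℝ) (hq0 : 0 ≤ q) (hq : η * Real.sqrt m ≤ v → q = 1) :
    u * v ≤ η / 2 * (m + u ^ 2) + τ / 2 * v ^ 2 + σ / (4 * τ * m) * u ^ 4
      + m / (4 * τ * σ) * q := by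
  have hs := Real.sq_sqrt hm.le
  have hs0 := Real.sqrt_nonneg m
  have t1 : 0 ≤ η / 2 * (m + u ^ 2) := by positivity
  have t2 : 0 ≤ τ / 2 * v ^ 2 := by positivity
  have t3 : 0 ≤ σ / (4 * τ * m) * u ^ 4 := by positivity
  have t4 : 0 ≤ m / (4 * τ * σ) * q := by positivity
  by_cases h : η * Real.sqrt m ≤ v
  · rw [hq h]
    have h1 : u * v ≤ τ / 2 * v ^ 2 + u ^ 2 / (2 * τ) := by
      have e : τ / 2 * v ^ 2 + u ^ 2 / (2 * τ) - u * v = (τ * v - u) ^ 2 / (2 * τ) := by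
        field_simp
        ring
      have : 0 ≤ (τ * v - u) ^ 2 / (2 * τ) := by positivity
      linarith
    have h2 : u ^ 2 / (2 * τ) ≤ σ / (4 * τ * m) * u ^ 4 + m / (4 * τ * σ) * 1 := by
      have e : σ / (4 * τ * m) * u ^ 4 + m / (4 * τ * σ) * 1 - u ^ 2 / (2 * τ)
          = (σ * u ^ 2 - m) ^ 2 / (4 * τ * m * σ) := by
        field_simp
        ring
      have : 0 ≤ (σ * u ^ 2 - m) ^ 2 / (4 * τ * m * σ) := by positivity
      linarith
    linarith
  · push Not at h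
    have h1 : u * v ≤ u * (η * Real.sqrt m) := mul_le_mul_of_nonneg_left h.le hu
    have h2 : u * (η * Real.sqrt m) ≤ η / 2 * (m + u ^ 2) := by
      have : 0 ≤ η * (u - Real.sqrt m) ^ 2 := by positivity
      nlinarith
    linarith

theorem ff_bound (l : Fin d → ℝ) (hl : ∑ i, l i ^ 2 = 1) (G : Fld d) (hG : Curl p G)
    {η τ σ : ℝ} (hη : 0 < η) (hτ : 0 < τ) (hσ : 0 < σ) (n : ℕ) (hn : 1 ≤ n) :
    |∫ ω, dg ω * Nn l G n ω ∂(nu d p)| ≤ η / 2 * (n * kap d p + uu p l n)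
      + τ / 2 * (n / 2 * ip p G G)
      + σ / (4 * τ * n) * ∫ ω, dg ω * Ln ω n (fun x => dot l x ^ 4) 0 ∂(nu d p)
      + n / (4 * τ * σ) * ∫ ω, dg ω * Ln ω n (pbQ G (η * Real.sqrt n) ω) 0 ∂(nu d p) := by
  have hfin := sq_fin (d := d) p
  have hGm := hG.sq.1
  have hn0 : (0 : ℝ) < n := by exact_mod_cast hn
  set Q := pbQ G (η * Real.sqrt n) with hQ
  have i0 : Integrable (fun ω => dg ω * (n : ℝ)) (nu d p) := sq_dg_int (integrable_const _)
  have i1 : Integrable (fun ω => dg ω * U2 l n ω) (nu d p) := by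
    refine ff_int n (H := fun _ y => dot l y ^ 2) (fun y => measurable_const)
      (B := (Real.sqrt d * n) ^ 2) (fun ω y hy => ?_)
    rw [abs_of_nonneg (sq_nonneg _), ← sq_abs]
    exact pow_le_pow_left₀ (abs_nonneg _) (ff_dot_box hl hy) 2
  have i2 := (pot_second_moment G hG n).1
  have i3 : Integrable (fun ω => dg ω * Ln ω n (fun x => dot l x ^ 4) 0) (nu d p) := by
    refine ff_int n (H := fun _ y => dot l y ^ 4) (fun y => measurable_const)
      (B := (Real.sqrt d * n) ^ 4) (fun ω y hy => ?_)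
    have e : dot l y ^ 4 = |dot l y| ^ 4 := by
      rw [show (4 : ℕ) = 2 * 2 from rfl, pow_mul, pow_mul, sq_abs]
    rw [e, abs_of_nonneg (by positivity)]
    exact pow_le_pow_left₀ (abs_nonneg _) (ff_dot_box hl hy) 4
  have i4 : Integrable (fun ω => dg ω * Ln ω n (Q ω) 0) (nu d p) := by
    refine ff_int n (H := Q) (pbQ_meas hGm _) (B := 1) (fun ω y _ => ?_)
    rw [abs_of_nonneg (pbQ_nonneg G _ ω y)]
    exact pbQ_le_one G _ ω y
  -- pointwise bound
  have hpt : ∀ ω, |Nn l G n ω| ≤ η / 2 * (n + U2 l n ω)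
      + τ / 2 * Ln ω n (fun y => Pot G ω 0 y ^ 2) 0
      + σ / (4 * τ * n) * Ln ω n (fun x => dot l x ^ 4) 0
      + n / (4 * τ * σ) * Ln ω n (Q ω) 0 := by
    intro ω
    set F : V d → ℝ := (η / 2) • ((fun _ => (n : ℝ)) + fun y => dot l y ^ 2)
      + (τ / 2) • (fun y => Pot G ω 0 y ^ 2) + (σ / (4 * τ * n)) • (fun x => dot l x ^ 4)
      + (n / (4 * τ * σ)) • (Q ω) with hF
    have hLF : Ln ω n F 0 = η / 2 * (n + U2 l n ω)
      + τ / 2 * Ln ω n (fun y => Pot G ω 0 y ^ 2) 0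
      + σ / (4 * τ * n) * Ln ω n (fun x => dot l x ^ 4) 0
      + n / (4 * τ * σ) * Ln ω n (Q ω) 0 := by
      rw [hF, Ln_add, Ln_add, Ln_add, Ln_smul, Ln_smul, Ln_smul, Ln_smul, Ln_add, Ln_const]
      simp only [Pi.add_apply, Pi.smul_apply, smul_eq_mul, U2]
    have hb : ∀ y, |dot l y * Pot G ω 0 y| ≤ F y := by
      intro y
      have h := ff_elem hη hτ hσ hn0 (abs_nonneg (dot l y)) (abs_nonneg (Pot G ω 0 y)) (Q ω y)
        (pbQ_nonneg G _ ω y) (fun h => by
          rw [hQ]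
          unfold pbQ
          have hm : y ∈ {y : V d | η * Real.sqrt n ≤ |Pot G ω 0 y|} := h
          rw [Set.indicator_of_mem hm])
      have e1 : |dot l y| ^ 4 = dot l y ^ 4 := by
        rw [show (4 : ℕ) = 2 * 2 from rfl, pow_mul, pow_mul, sq_abs]
      rw [← abs_mul, sq_abs, sq_abs, e1] at h
      simp only [hF, Pi.add_apply, Pi.smul_apply, smul_eq_mul]
      exact h
    rw [← hLF]
    unfold Nn
    rw [abs_le]
    constructor
    · have h1 : -Ln ω n F 0 = Ln ω n ((-1 : ℝ) • F) 0 := by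
        rw [Ln_smul]
        simp
      rw [h1]
      refine Ln_mono ω n (fun y => ?_) 0
      have := (abs_le.1 (hb y)).1
      simp only [Pi.smul_apply, smul_eq_mul]
      linarith
    · exact Ln_mono ω n (fun y => (le_abs_self _).trans (hb y)) 0
  have hN := (Nn_step l hl G hG n).1
  have j1 : Integrable (fun ω => η / 2 * (dg ω * n + dg ω * U2 l n ω)) (nu d p) :=
    (i0.add i1).const_mul _
  have j2 : Integrable (fun ω => τ / 2 * (dg ω * Ln ω n (fun y => Pot G ω 0 y ^ 2) 0))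
    (nu d p) := i2.const_mul _
  have j3 : Integrable (fun ω => σ / (4 * τ * n) * (dg ω * Ln ω n (fun x => dot l x ^ 4) 0))
    (nu d p) := i3.const_mul _
  have j4 : Integrable (fun ω => n / (4 * τ * σ) * (dg ω * Ln ω n (Q ω) 0)) (nu d p) :=
    i4.const_mul _
  have j12 : Integrable (fun ω => η / 2 * (dg ω * n + dg ω * U2 l n ω)
      + τ / 2 * (dg ω * Ln ω n (fun y => Pot G ω 0 y ^ 2) 0)) (nu d p) := j1.add j2
  have j123 : Integrable (fun ω => η / 2 * (dg ω * n + dg ω * U2 l n ω)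
      + τ / 2 * (dg ω * Ln ω n (fun y => Pot G ω 0 y ^ 2) 0)
      + σ / (4 * τ * n) * (dg ω * Ln ω n (fun x => dot l x ^ 4) 0)) (nu d p) := j12.add j3
  have j1234 : Integrable (fun ω => η / 2 * (dg ω * n + dg ω * U2 l n ω)
      + τ / 2 * (dg ω * Ln ω n (fun y => Pot G ω 0 y ^ 2) 0)
      + σ / (4 * τ * n) * (dg ω * Ln ω n (fun x => dot l x ^ 4) 0)
      + n / (4 * τ * σ) * (dg ω * Ln ω n (Q ω) 0)) (nu d p) := j123.add j4
  calc |∫ ω, dg ω * Nn l G n ω ∂(nu d p)| ≤ ∫ ω, |dg ω * Nn l G n ω| ∂(nu d p) :=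
        abs_integral_le_integral_abs
    _ ≤ ∫ ω, (η / 2 * (dg ω * n + dg ω * U2 l n ω)
      + τ / 2 * (dg ω * Ln ω n (fun y => Pot G ω 0 y ^ 2) 0)
      + σ / (4 * τ * n) * (dg ω * Ln ω n (fun x => dot l x ^ 4) 0)
      + n / (4 * τ * σ) * (dg ω * Ln ω n (Q ω) 0)) ∂(nu d p) := by
        refine integral_mono hN.abs j1234 fun ω => ?_
        have h1 := mul_le_mul_of_nonneg_left (hpt ω) (sq_dg_nonneg ω)
        show |dg ω * Nn l G n ω| ≤ _
        rw [abs_mul, abs_of_nonneg (sq_dg_nonneg ω)]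
        refine h1.trans (le_of_eq ?_)
        ring
    _ = η / 2 * (n * kap d p + uu p l n)
      + τ / 2 * ∫ ω, dg ω * Ln ω n (fun y => Pot G ω 0 y ^ 2) 0 ∂(nu d p)
      + σ / (4 * τ * n) * ∫ ω, dg ω * Ln ω n (fun x => dot l x ^ 4) 0 ∂(nu d p)
      + n / (4 * τ * σ) * ∫ ω, dg ω * Ln ω n (Q ω) 0 ∂(nu d p) := by
        rw [integral_add j123 j4, integral_add j12 j3, integral_add j1 j2,
          integral_const_mul, integral_const_mul, integral_const_mul, integral_const_mul,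
          integral_add i0 i1, integral_mul_const]
        unfold uu kap
        ring
    _ ≤ _ := by
        have h2 := (pot_second_moment G hG n).2
        have h3 := mul_le_mul_of_nonneg_left h2 (show 0 ≤ τ / 2 by positivity)
        linarith

theorem ff_Q_nonneg (G : Fld d) (θ : ℝ) (n : ℕ) :
    0 ≤ ∫ ω, dg ω * Ln ω n (pbQ G θ ω) 0 ∂(nu d p) := by
  refine integral_nonneg fun ω => mul_nonneg (sq_dg_nonneg ω) ?_
  have h1 := Ln_mono ω n (g := fun _ => (0 : ℝ)) (h := pbQ G θ ω)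
    (fun y => pbQ_nonneg G _ ω y) 0
  rw [Ln_const] at h1
  exact h1

theorem Nn_small (hd : 1 ≤ d) (hH : HypH d p K C c) (l : Fin d → ℝ) (hl : ∑ i, l i ^ 2 = 1)
    (G : Fld d) (hG : Curl p G) :
    Tendsto (fun n : ℕ => (∫ ω, dg ω * Nn l G n ω ∂(nu d p)) / n) atTop (𝓝 0) := by
  obtain ⟨C4, hC4, h4⟩ := fourth_moment d
  rw [Metric.tendsto_atTop]
  intro κ hκ
  have hk0 : 0 ≤ kap d p := integral_nonneg fun ω => sq_dg_nonneg ω
  have hu0 : 0 ≤ uu p l 1 := by
    have h := uu_incr_nonneg p l hl 0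
    simp only [zero_add, uu_zero, sub_zero] at h
    exact h
  have hg0 : 0 ≤ ip p G G := ip_self_nonneg G
  set M := kap d p + uu p l 1 + ip p G G + C4 + 1 with hM
  have hM0 : 1 ≤ M := by linarith
  set τ := κ / (8 * M) with hτ
  have hτ0 : 0 < τ := by positivity
  have hMτ : M * τ = κ / 8 := by rw [hτ]; field_simp
  have hlim := pot_in_prob hd hH G hG τ hτ0
  rw [Metric.tendsto_atTop] at hlim
  obtain ⟨n0, hn0⟩ := hlim (κ * τ ^ 3) (by positivity)
  refine ⟨max 1 n0, fun n hn => ?_⟩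
  have hn1 : 1 ≤ n := (le_max_left _ _).trans hn
  have hnn0 : n0 ≤ n := (le_max_right _ _).trans hn
  have hnpos : (0 : ℝ) < n := by exact_mod_cast hn1
  have hQ := hn0 n hnn0
  have hfun : ∀ ω : Om d, (Set.indicator {y : V d | τ * Real.sqrt n ≤ |Pot G ω 0 y|}
      (fun _ => (1 : ℝ))) = pbQ G (τ * Real.sqrt n) ω := fun ω => rfl
  simp only [hfun] at hQ
  rw [Real.dist_eq, sub_zero, abs_of_nonneg (ff_Q_nonneg G _ n)] at hQ
  have hb := ff_bound l hl G hG hτ0 hτ0 (show 0 < τ ^ 2 by positivity) n hn1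
  have h4n := h4 p l hl n
  have huu := pb_uu_le (p := p) l hl n
  rw [Real.dist_eq, sub_zero, abs_div, abs_of_pos hnpos, div_lt_iff₀ hnpos]
  refine lt_of_le_of_lt hb ?_
  have e1 : τ / 2 * (n * kap d p + uu p l n) ≤ n * (τ * (kap d p + uu p l 1)) := by
    have h1 : (n : ℝ) * kap d p + uu p l n ≤ n * (kap d p + uu p l 1) := by linarith
    have h2 : 0 ≤ (n : ℝ) * (kap d p + uu p l 1) := by positivity
    nlinarith
  have e2 : τ / 2 * (n / 2 * ip p G G) ≤ n * (τ * ip p G G) := by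
    have h2 : 0 ≤ (n : ℝ) * (τ * ip p G G) := by positivity
    nlinarith
  have e3 : τ ^ 2 / (4 * τ * n) * ∫ ω, dg ω * Ln ω n (fun x => dot l x ^ 4) 0 ∂(nu d p)
      ≤ n * (τ * C4) := by
    have h5 := mul_le_mul_of_nonneg_left h4n (show 0 ≤ τ ^ 2 / (4 * τ * n) by positivity)
    refine h5.trans ?_
    have e : τ ^ 2 / (4 * τ * n) * (C4 * (n : ℝ) ^ 2) = n * (τ * C4) / 4 := by
      field_simp
    rw [e]
    have h2 : 0 ≤ (n : ℝ) * (τ * C4) := by positivity
    linarith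
  have e4 : n / (4 * τ * τ ^ 2) * ∫ ω, dg ω * Ln ω n (pbQ G (τ * Real.sqrt n) ω) 0 ∂(nu d p)
      ≤ n * (κ / 4) := by
    have h5 := mul_le_mul_of_nonneg_left hQ.le (show 0 ≤ n / (4 * τ * τ ^ 2) by positivity)
    refine h5.trans (le_of_eq ?_)
    field_simp
  have e5 : (n : ℝ) * (τ * (kap d p + uu p l 1)) + n * (τ * ip p G G) + n * (τ * C4)
      ≤ n * (κ / 8) := by
    rw [← hMτ, hM]
    have : 0 ≤ (n : ℝ) * τ := by positivity
    nlinarith
  have e6 : 0 < (n : ℝ) * κ := by positivity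
  linarith

theorem ff_adm_chi {l : Fin d → ℝ} (hl : ∑ i, l i ^ 2 = 1) {I : Fld d} (hI : Adm p I) (n : ℕ) :
    ip p I (gr (chi l n)) = 0 :=
  adm_orth hI (chi l n) (measurable_chi l n) ⟨n, fun ω => abs_chi_le l hl n ω⟩

/-- a number which is at most `√ε * B` for all `ε` vanishes -/
theorem ff_zero {x B : ℝ} (h : ∀ ε : ℝ, 0 < ε → |x| ≤ Real.sqrt ε * B) : x = 0 := by
  by_contra hx
  have hx0 : 0 < |x| := abs_pos.2 hx
  have h1 := h 1 one_pos
  rw [Real.sqrt_one, one_mul] at h1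
  have hB : 0 < B := lt_of_lt_of_le hx0 h1
  have h2 := h ((|x| / (2 * B)) ^ 2) (by positivity)
  rw [Real.sqrt_sq (by positivity)] at h2
  have e : |x| / (2 * B) * B = |x| / 2 := by field_simp
  rw [e] at h2
  linarith

theorem exists_adm (hd : 1 ≤ d) (hH : HypH d p K C c) (l : Fin d → ℝ) (hl : ∑ i, l i ^ 2 = 1)
    (S : ℝ) (hS : Tendsto (fun n : ℕ => 2 * (uu p l (n + 1) - uu p l n)) atTop (𝓝 S))
    (ε : ℝ) (hε : 0 < ε) :
    ∃ I : Fld d, Adm p I ∧ |ip p (Dl l) I - S| ≤ ε ∧ |ip p I I - S| ≤ ε := by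
  obtain ⟨G, hGs, hGa, hGo, happ⟩ := exists_proj p l
  have hG : Curl p G := ⟨hGs, hGa, hGo⟩
  have hD : SqI p (Dl l : Fld d) := SqI.Dl l
  set P : Fld d := fun ω δ => Dl l ω δ - G ω δ with hP
  have hPs : SqI p P := hD.sub hGs
  have happ' : ∀ ε : ℝ, 0 < ε → ∃ I, Adm p I ∧
      ip p (fun ω δ => P ω δ - I ω δ) (fun ω δ => P ω δ - I ω δ) ≤ ε := happ
  -- orthogonality relations
  have hortho : ∀ X : Fld d, SqI p X → (∀ I, Adm p I → ip p I X = 0) → ip p P X = 0 := by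
    intro X hX hXI
    refine ff_zero (B := Real.sqrt (ip p X X)) fun ε hε => ?_
    obtain ⟨I, hI, hIε⟩ := happ' ε hε
    have hIs := Adm.sqI hI
    have h1 := ip_sub_left hPs hIs hX
    rw [hXI I hI, sub_zero] at h1
    rw [← h1]
    refine (ip_cs (hPs.sub hIs) hX).trans ?_
    exact mul_le_mul_of_nonneg_right (Real.sqrt_le_sqrt hIε) (Real.sqrt_nonneg _)
  have hPG : ip p P G = 0 := hortho G hGs fun I hI => by
    rw [ip_comm]
    exact hGo I hI
  have hgrs : ∀ n, SqI p (gr (chi l n) : Fld d) := by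
    intro n
    have h := (SqI.GPsi (p := p) l hl n).sub hD
    have e : (fun (ω : Om d) (δ : Dir d) => GPsi l n ω δ - Dl l ω δ) = gr (chi l n) := by
      funext ω δ
      simp only [GPsi, Dl]
      ring
    rwa [e] at h
  have hPgr : ∀ n, ip p P (gr (chi l n)) = 0 := fun n =>
    hortho _ (hgrs n) fun I hI => ff_adm_chi hl hI n
  set S' := ip p P P with hS'
  have hPD : ip p P (Dl l) = S' := by
    have e : (Dl l : Fld d) = fun ω δ => P ω δ + G ω δ := by
      funext ω δ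
      simp only [hP]
      ring
    rw [ip_comm, e, ip_add_left hPs hGs hPs, ip_comm G P, hPG, add_zero]
  have hPGPsi : ∀ n, ip p P (GPsi l n) = S' := by
    intro n
    have e : (GPsi l n : Fld d) = fun ω δ => Dl l ω δ + gr (chi l n) ω δ := by
      funext ω δ
      simp only [GPsi, Dl]
    rw [ip_comm, e, ip_add_left hD (hgrs n) hPs, ip_comm (Dl l) P, hPD, ip_comm _ P, hPgr,
      add_zero]
  have hGGPsi : ∀ n, ip p G (GPsi l n) = 2 * (uu p l (n + 1) - uu p l n) - S' := by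
    intro n
    have h1 := ip_sub_left hD hGs (SqI.GPsi (p := p) l hl n)
    have h2 : ip p (fun ω δ => Dl l ω δ - G ω δ) (GPsi l n) = S' := hPGPsi n
    rw [h2, ip_Dl_GPsi p l hl n] at h1
    linarith
  -- Cesaro
  set b : ℕ → ℝ := fun n => ∫ ω, dg ω * Nn l G n ω ∂(nu d p) with hb
  have hb0 : b 0 = 0 := by
    have e : (fun ω => dg ω * Nn l G 0 ω) = fun _ => (0 : ℝ) := by
      funext ω
      simp only [Nn, Ln_zero, sq_Pot_self]
      norm_num
    simp only [hb]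
    rw [e]
    simp
  have hstep : ∀ n, b (n + 1) - b n = (1 / 2) * (2 * (uu p l (n + 1) - uu p l n) - S') := by
    intro n
    rw [← hGGPsi n]
    exact (Nn_step l hl G hG n).2
  have hlim1 : Tendsto (fun n : ℕ => b (n + 1) - b n) atTop (𝓝 ((1 / 2) * (S - S'))) := by
    simp only [hstep]
    exact (hS.sub_const S').const_mul _
  have hces := hlim1.cesaro
  have hces' : Tendsto (fun n : ℕ => b n / n) atTop (𝓝 ((1 / 2) * (S - S'))) := by
    refine hces.congr fun n => ?_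
    rw [Finset.sum_range_sub, hb0, sub_zero]
    ring
  have hsm := Nn_small hd hH l hl G hG
  have hSS : (1 / 2) * (S - S') = 0 := tendsto_nhds_unique hces' hsm
  have hSS' : S' = S := by linarith
  -- the approximation
  set M := Real.sqrt (ip p (Dl l) (Dl l)) + 2 * Real.sqrt S' + 1 with hM
  have hM1 : 1 ≤ M := by
    have h1 := Real.sqrt_nonneg (ip p (Dl l) (Dl l))
    have h2 := Real.sqrt_nonneg S'
    linarith
  set r := min 1 (ε / M) with hr
  have hr0 : 0 < r := lt_min one_pos (by positivity)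
  have hr1 : r ≤ 1 := min_le_left _ _
  have hrM : M * r ≤ ε := by
    have h := min_le_right 1 (ε / M)
    rw [← hr, le_div_iff₀ (by positivity)] at h
    linarith
  obtain ⟨I, hI, hIr⟩ := happ' (r ^ 2) (by positivity)
  have hIs := Adm.sqI hI
  have hR := hPs.sub hIs
  set R : Fld d := fun ω δ => P ω δ - I ω δ with hRdef
  have hRr : Real.sqrt (ip p R R) ≤ r := by
    have := Real.sqrt_le_sqrt hIr
    rwa [Real.sqrt_sq hr0.le] at this
  have hIP : I = fun ω δ => P ω δ - R ω δ := by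
    funext ω δ
    simp only [hRdef]
    ring
  have hDI : ip p (Dl l) I = S' - ip p (Dl l) R := by
    conv_lhs => rw [hIP]
    rw [ip_comm, ip_sub_left hPs hR hD, hPD, ip_comm R]
  have hII : ip p I I = S' - 2 * ip p P R + ip p R R := by
    have h1 : ip p I I = ip p P I - ip p R I := by
      conv_lhs => rw [ip_comm]
      nth_rewrite 2 [hIP]
      rw [ip_comm, ip_sub_left hPs hR hIs]
    have h2 : ip p P I = S' - ip p P R := by
      conv_lhs => rw [hIP]
      rw [ip_comm, ip_sub_left hPs hR hPs, ip_comm R P]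
    have h3 : ip p R I = ip p P R - ip p R R := by
      conv_lhs => rw [hIP]
      rw [ip_comm, ip_sub_left hPs hR hR]
    rw [h1, h2, h3]
    ring
  have hcs1 := ip_cs hD hR
  have hcs2 := ip_cs hPs hR
  have hn1 := Real.sqrt_nonneg (ip p (Dl l) (Dl l))
  have hn2 := Real.sqrt_nonneg S'
  have hRR0 : 0 ≤ ip p R R := ip_self_nonneg R
  refine ⟨I, hI, ?_, ?_⟩
  · rw [hDI, ← hSS']
    have e : S' - ip p (Dl l) R - S' = -ip p (Dl l) R := by ring
    rw [e, abs_neg]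
    calc |ip p (Dl l) R| ≤ Real.sqrt (ip p (Dl l) (Dl l)) * Real.sqrt (ip p R R) := hcs1
      _ ≤ Real.sqrt (ip p (Dl l) (Dl l)) * r := mul_le_mul_of_nonneg_left hRr hn1
      _ ≤ M * r := mul_le_mul_of_nonneg_right (by linarith) hr0.le
      _ ≤ ε := hrM
  · rw [hII, ← hSS']
    have e : S' - 2 * ip p P R + ip p R R - S' = -(2 * ip p P R) + ip p R R := by ring
    rw [e]
    have h1 : |ip p P R| ≤ Real.sqrt S' * r :=
      hcs2.trans (mul_le_mul_of_nonneg_left hRr hn2)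
    have h2 : ip p R R ≤ r := by nlinarith
    have h3 := abs_le.1 h1
    have h4 : 2 * (Real.sqrt S' * r) + r ≤ ε := by nlinarith
    rw [abs_le]
    constructor
    · linarith [h3.2]
    · linarith [h3.1]

end Ein99
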