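import Pool.Agent.LibEin99.E_Rev
import Pool.Agent.LibEin99.E_Chi

/-!
TASK F_Ip. The bilinear form `ip` on square integrable fields.

`SqI p I`: components measurable, `∑_δ oo I²` integrable for `nu`. `|∑ oo I J| ≤ (∑ oo I² + ∑ oo J²)/2`
gives integrability. Cauchy-Schwarz: `0 ≤ ip (I - t J) (I - t J)` for all real `t` (discriminant), or
Hoelder.
-/

open MeasureTheory ProbabilityTheory Filter Topology

namespace Ein99

variable {d : ℕ} (p : unitInterval)

/-- square integrable fields -/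
def SqI (I : Fld d) : Prop :=
  (∀ δ, Measurable (fun ω => I ω δ)) ∧ Integrable (fun ω => ∑ δ, oo ω δ * I ω δ ^ 2) (nu d p)

variable {p}

private theorem fi_fin (p : unitInterval) : IsFiniteMeasure (nu d p) := by
  unfold nu
  infer_instance

private theorem fi_oo (ω : Om d) (δ : Dir d) : 0 ≤ oo ω δ ∧ oo ω δ ≤ 1 := by
  unfold oo
  split <;> norm_num

private theorem fi_meas {F : Fld d} (hF : ∀ δ, Measurable (fun ω => F ω δ)) :
    Measurable (fun ω => ∑ δ, oo ω δ * F ω δ) :=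
  Finset.measurable_sum _ fun δ _ => (measurable_oo δ).mul (hF δ)

theorem SqI.integrable_mul {I J : Fld d} (hI : SqI p I) (hJ : SqI p J) :
    Integrable (fun ω => ∑ δ, oo ω δ * (I ω δ * J ω δ)) (nu d p) := by
  refine Integrable.mono' (hI.2.add hJ.2)
    (fi_meas (F := fun ω δ => I ω δ * J ω δ) fun δ => (hI.1 δ).mul (hJ.1 δ)).aestronglyMeasurable
    (Filter.Eventually.of_forall fun ω => ?_)
  rw [Real.norm_eq_abs]
  refine (Finset.abs_sum_le_sum_abs _ _).trans ?_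
  change _ ≤ (∑ δ, oo ω δ * I ω δ ^ 2) + ∑ δ, oo ω δ * J ω δ ^ 2
  rw [← Finset.sum_add_distrib]
  refine Finset.sum_le_sum fun δ _ => ?_
  rw [abs_mul, abs_of_nonneg (fi_oo ω δ).1, ← mul_add]
  refine mul_le_mul_of_nonneg_left ?_ (fi_oo ω δ).1
  rw [abs_le]
  constructor <;> nlinarith [sq_nonneg (I ω δ + J ω δ), sq_nonneg (I ω δ - J ω δ)]

theorem SqI.add {I J : Fld d} (hI : SqI p I) (hJ : SqI p J) :
    SqI p (fun ω δ => I ω δ + J ω δ) := by
  refine ⟨fun δ => (hI.1 δ).add (hJ.1 δ), ?_⟩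
  have h := (hI.2.add ((hI.integrable_mul hJ).const_mul 2)).add hJ.2
  refine h.congr (Filter.Eventually.of_forall fun ω => ?_)
  change (∑ δ, oo ω δ * I ω δ ^ 2) + 2 * (∑ δ, oo ω δ * (I ω δ * J ω δ)) +
    (∑ δ, oo ω δ * J ω δ ^ 2) = ∑ δ, oo ω δ * (I ω δ + J ω δ) ^ 2
  rw [Finset.mul_sum, ← Finset.sum_add_distrib, ← Finset.sum_add_distrib]
  exact Finset.sum_congr rfl fun δ _ => by ring

theorem SqI.sub {I J : Fld d} (hI : SqI p I) (hJ : SqI p J) :
    SqI p (fun ω δ => I ω δ - J ω δ) := by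
  refine ⟨fun δ => (hI.1 δ).sub (hJ.1 δ), ?_⟩
  have h := (hI.2.sub ((hI.integrable_mul hJ).const_mul 2)).add hJ.2
  refine h.congr (Filter.Eventually.of_forall fun ω => ?_)
  change (∑ δ, oo ω δ * I ω δ ^ 2) - 2 * (∑ δ, oo ω δ * (I ω δ * J ω δ)) +
    (∑ δ, oo ω δ * J ω δ ^ 2) = ∑ δ, oo ω δ * (I ω δ - J ω δ) ^ 2
  rw [Finset.mul_sum, ← Finset.sum_sub_distrib, ← Finset.sum_add_distrib]
  exact Finset.sum_congr rfl fun δ _ => by ring

theorem SqI.smul {I : Fld d} (hI : SqI p I) (c : ℝ) : SqI p (fun ω δ => c * I ω δ) := by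
  refine ⟨fun δ => (hI.1 δ).const_mul c, ?_⟩
  refine (hI.2.const_mul (c ^ 2)).congr (Filter.Eventually.of_forall fun ω => ?_)
  change c ^ 2 * (∑ δ, oo ω δ * I ω δ ^ 2) = ∑ δ, oo ω δ * (c * I ω δ) ^ 2
  rw [Finset.mul_sum]
  exact Finset.sum_congr rfl fun δ _ => by ring

/-- bounded measurable fields are square integrable -/
theorem SqI.of_bounded {I : Fld d} (hm : ∀ δ, Measurable (fun ω => I ω δ)) (B : ℝ)
    (hB : ∀ ω δ, |I ω δ| ≤ B) : SqI p I := by
  have := fi_fin (d := d) p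
  refine ⟨hm, ?_⟩
  refine Integrable.of_bound (fi_meas (F := fun ω δ => I ω δ ^ 2) fun δ =>
    (hm δ).pow_const 2).aestronglyMeasurable (∑ _δ : Dir d, B ^ 2)
    (Filter.Eventually.of_forall fun ω => ?_)
  rw [Real.norm_eq_abs]
  refine (Finset.abs_sum_le_sum_abs _ _).trans (Finset.sum_le_sum fun δ _ => ?_)
  rw [abs_mul, abs_of_nonneg (fi_oo ω δ).1, abs_of_nonneg (sq_nonneg _)]
  have h1 := fi_oo ω δ
  have h2 : I ω δ ^ 2 ≤ B ^ 2 := sq_le_sq' (by linarith [(abs_le.1 (hB ω δ)).1])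
    (abs_le.1 (hB ω δ)).2
  have h3 : 0 ≤ I ω δ ^ 2 := sq_nonneg _
  nlinarith

theorem SqI.Dl (l : Fin d → ℝ) : SqI p (Dl l : Fld d) := by
  refine SqI.of_bounded (fun δ => measurable_const) (∑ i, |l i|) fun ω δ => ?_
  change |dt l δ| ≤ _
  have h1 : |dt l δ| = |l δ.1| := by
    unfold dt
    split
    · rfl
    · rw [abs_neg]
  rw [h1]
  exact Finset.single_le_sum (f := fun i => |l i|) (fun i _ => abs_nonneg _) (Finset.mem_univ δ.1)

theorem SqI.GPsi (l : Fin d → ℝ) (hl : ∑ i, l i ^ 2 = 1) (n : ℕ) : SqI p (GPsi l n : Fld d) := by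
  refine SqI.of_bounded (fun δ => ?_) (1 + 2 * n) fun ω δ => ?_
  · exact measurable_const.add (((measurable_chi l n).comp (measurable_sh (st δ))).sub
      (measurable_chi l n))
  · change |dt l δ + (chi l n (sh (st δ) ω) - chi l n ω)| ≤ _
    have h1 := abs_le.1 (abs_dt_le l hl δ)
    have h2 := abs_le.1 (abs_chi_le l hl n (sh (st δ) ω))
    have h3 := abs_le.1 (abs_chi_le l hl n ω)
    rw [abs_le]
    constructor <;> linarith

theorem ip_comm (I J : Fld d) : ip p I J = ip p J I := by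
  unfold ip
  simp only [mul_comm]

theorem ip_add_left {I J M : Fld d} (hI : SqI p I) (hJ : SqI p J) (hM : SqI p M) :
    ip p (fun ω δ => I ω δ + J ω δ) M = ip p I M + ip p J M := by
  unfold ip
  rw [← integral_add (hI.integrable_mul hM) (hJ.integrable_mul hM)]
  refine integral_congr_ae (Filter.Eventually.of_forall fun ω => ?_)
  change ∑ δ, oo ω δ * ((I ω δ + J ω δ) * M ω δ) =
    (∑ δ, oo ω δ * (I ω δ * M ω δ)) + ∑ δ, oo ω δ * (J ω δ * M ω δ)
  rw [← Finset.sum_add_distrib]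
  exact Finset.sum_congr rfl fun δ _ => by ring

theorem ip_sub_left {I J M : Fld d} (hI : SqI p I) (hJ : SqI p J) (hM : SqI p M) :
    ip p (fun ω δ => I ω δ - J ω δ) M = ip p I M - ip p J M := by
  unfold ip
  rw [← integral_sub (hI.integrable_mul hM) (hJ.integrable_mul hM)]
  refine integral_congr_ae (Filter.Eventually.of_forall fun ω => ?_)
  change ∑ δ, oo ω δ * ((I ω δ - J ω δ) * M ω δ) =
    (∑ δ, oo ω δ * (I ω δ * M ω δ)) - ∑ δ, oo ω δ * (J ω δ * M ω δ)
  rw [← Finset.sum_sub_distrib]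
  exact Finset.sum_congr rfl fun δ _ => by ring

theorem ip_smul_left {I J : Fld d} (c : ℝ) :
    ip p (fun ω δ => c * I ω δ) J = c * ip p I J := by
  unfold ip
  rw [← integral_const_mul]
  refine integral_congr_ae (Filter.Eventually.of_forall fun ω => ?_)
  change ∑ δ, oo ω δ * ((c * I ω δ) * J ω δ) = c * ∑ δ, oo ω δ * (I ω δ * J ω δ)
  rw [Finset.mul_sum]
  exact Finset.sum_congr rfl fun δ _ => by ring

theorem ip_self_nonneg (I : Fld d) : 0 ≤ ip p I I :=
  integral_nonneg fun ω => Finset.sum_nonneg fun δ _ =>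
    mul_nonneg (fi_oo ω δ).1 (mul_self_nonneg _)

theorem ip_cs {I J : Fld d} (hI : SqI p I) (hJ : SqI p J) :
    |ip p I J| ≤ Real.sqrt (ip p I I) * Real.sqrt (ip p J J) := by
  have key : ∀ t : ℝ, 0 ≤ ip p J J * (t * t) + (-(2 * ip p I J)) * t + ip p I I := by
    intro t
    have hJt := hJ.smul t
    have hK := hI.sub hJt
    have h0 := ip_self_nonneg (p := p) (fun ω δ => I ω δ - t * J ω δ)
    have e1 : ip p I (fun ω δ => I ω δ - t * J ω δ) = ip p I I - t * ip p I J := by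
      rw [ip_comm I, ip_sub_left hI hJt hI, ip_smul_left, ip_comm J I]
    have e2 : ip p J (fun ω δ => I ω δ - t * J ω δ) = ip p I J - t * ip p J J := by
      rw [ip_comm J, ip_sub_left hI hJt hJ, ip_smul_left]
    rw [ip_sub_left hI hJt hK, ip_smul_left, e1, e2] at h0
    linarith
  have h1 := discrim_le_zero key
  unfold discrim at h1
  rw [← Real.sqrt_mul (ip_self_nonneg I)]
  refine Real.abs_le_sqrt ?_
  linarith

end Ein99
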