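import Pool.Agent.LibEin99.F_Adm

/-!
TASK F_Proj. Orthogonal projection of the field `Dl l` onto the closure of the admissible flows.

Hilbert space: `L²(nu; EuclideanSpace ℝ (Dir d))`; a field `I` with `SqI p I` gives
the element `ω ↦ (oo ω δ * I ω δ)_δ` and `⟪I, J⟫ = ip p I J`. `M` = closure of the set of (classes of)
admissible flows; `G` = a measurable representative of `Dl l - projection_M (Dl l)`.
Antisymmetry: `Dl l` and (approximations of) admissible flows are
antisymmetric almost everywhere, and antisymmetric classes are closed (`rev_int`).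
-/

open MeasureTheory ProbabilityTheory Filter Topology

namespace Ein99

variable {d : ℕ}

/-- almost everywhere antisymmetric fields -/
def AntiAE (p : unitInterval) (G : Fld d) : Prop :=
  ∀ᵐ ω ∂(nu d p), ∀ δ : Dir d, opn ω 0 δ → G (sh (st δ) ω) (rv δ) = - G ω δ

theorem fproj_oo_nonneg (ω : Om d) (δ : Dir d) : 0 ≤ oo ω δ := by
  unfold oo
  split_ifs <;> norm_num

theorem fproj_oo_sq (ω : Om d) (δ : Dir d) : oo ω δ * oo ω δ = oo ω δ := by
  unfold oo
  split_ifs <;> norm_num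

theorem SqI.fproj_abs {p : unitInterval} {G : Fld d} (hG : SqI p G) : SqI p (fun ω δ => |G ω δ|) := by
  refine ⟨fun δ => (hG.1 δ).abs, ?_⟩
  simp only [sq_abs]
  exact hG.2

theorem SqI.fproj_one {p : unitInterval} : SqI p (fun (_ : Om d) (_ : Dir d) => (1 : ℝ)) :=
  SqI.of_bounded (fun _ => measurable_const) 1 (fun _ _ => by norm_num)

theorem SqI.fproj_int_abs {p : unitInterval} {G : Fld d} (hG : SqI p G) :
    Integrable (fun ω => ∑ δ, oo ω δ * |G ω δ|) (nu d p) := by
  have := SqI.integrable_mul hG.fproj_abs (SqI.fproj_one (d := d) (p := p))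
  simpa only [mul_one] using this

/-- fields approximated by almost everywhere antisymmetric fields are so -/
theorem fproj_antiAE_of_approx {p : unitInterval} {G : Fld d} (hG : SqI p G)
    (h : ∀ ε : ℝ, 0 < ε → ∃ H : Fld d, SqI p H ∧ AntiAE p H ∧
      ip p (fun ω δ => H ω δ - G ω δ) (fun ω δ => H ω δ - G ω δ) ≤ ε) : AntiAE p G := by
  classical
  set A : Om d → ℝ := fun ω => ∑ δ, oo ω δ * |G (sh (st δ) ω) (rv δ) + G ω δ| with hA
  have hA0 : ∀ ω, 0 ≤ A ω := fun ω =>
    Finset.sum_nonneg (fun δ _ => mul_nonneg (fproj_oo_nonneg ω δ) (abs_nonneg _))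
  have hAm : Measurable A := by
    apply Finset.measurable_sum
    intro δ _
    exact (measurable_oo δ).mul ((((hG.1 (rv δ)).comp (measurable_sh (st δ))).add (hG.1 δ)).abs)
  -- triangle inequality for a field
  have hint : ∀ D : Fld d, SqI p D → Integrable (fun ω => ∑ δ, oo ω δ * |D (sh (st δ) ω) (rv δ)|)
      (nu d p) := fun D hD => rev_integrable p D hD.1 hD.fproj_int_abs
  have htri : ∀ (D : Fld d) (ω : Om d), ∑ δ, oo ω δ * |D (sh (st δ) ω) (rv δ) + D ω δ| ≤
      ∑ δ, oo ω δ * |D (sh (st δ) ω) (rv δ)| + ∑ δ, oo ω δ * |D ω δ| := by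
    intro D ω
    rw [← Finset.sum_add_distrib]
    apply Finset.sum_le_sum
    intro δ _
    rw [← mul_add]
    exact mul_le_mul_of_nonneg_left (abs_add_le _ _) (fproj_oo_nonneg ω δ)
  have hAint : Integrable A (nu d p) := by
    apply Integrable.mono' ((hint G hG).add hG.fproj_int_abs) hAm.aestronglyMeasurable
    filter_upwards with ω
    rw [Real.norm_eq_abs, abs_of_nonneg (hA0 ω)]
    exact htri G ω
  set c : ℝ := ip p (fun (_ : Om d) (_ : Dir d) => (1 : ℝ)) (fun _ _ => 1) with hc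
  have hbound : ∀ ε : ℝ, 0 < ε → ∫ ω, A ω ∂(nu d p) ≤ 2 * (Real.sqrt ε * Real.sqrt c) := by
    intro ε hε
    obtain ⟨H, hH, hHa, hHe⟩ := h ε hε
    set D : Fld d := fun ω δ => H ω δ - G ω δ with hD
    have hDs : SqI p D := hH.sub hG
    have h1 : ∀ᵐ ω ∂(nu d p), A ω ≤
        ∑ δ, oo ω δ * |D (sh (st δ) ω) (rv δ)| + ∑ δ, oo ω δ * |D ω δ| := by
      filter_upwards [hHa] with ω hω
      refine le_trans (le_of_eq ?_) (htri D ω)
      simp only [hA]
      apply Finset.sum_congr rfl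
      intro δ _
      by_cases ho : opn ω 0 δ
      · have h2 := hω δ ho
        have h3 : D (sh (st δ) ω) (rv δ) + D ω δ = -(G (sh (st δ) ω) (rv δ) + G ω δ) := by
          simp only [hD]
          rw [h2]
          ring
        rw [h3, abs_neg]
      · have h4 : oo ω δ = 0 := by
          unfold oo
          rw [if_neg ho]
        rw [h4, zero_mul, zero_mul]
    have h2 : ∫ ω, A ω ∂(nu d p) ≤
        ∫ ω, (∑ δ, oo ω δ * |D (sh (st δ) ω) (rv δ)| + ∑ δ, oo ω δ * |D ω δ|) ∂(nu d p) :=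
      integral_mono_ae hAint ((hint D hDs).add hDs.fproj_int_abs) h1
    rw [integral_add (hint D hDs) hDs.fproj_int_abs] at h2
    have h3 : ∫ ω, ∑ δ, oo ω δ * |D ω δ| ∂(nu d p) =
        ∫ ω, ∑ δ, oo ω δ * |D (sh (st δ) ω) (rv δ)| ∂(nu d p) := by
      apply rev_int p (fun ω δ => |D ω δ|) (fun δ => (hDs.1 δ).abs)
      simp only [abs_abs]
      exact hDs.fproj_int_abs
    rw [← h3] at h2
    have h4 : ∫ ω, ∑ δ, oo ω δ * |D ω δ| ∂(nu d p) ≤ Real.sqrt ε * Real.sqrt c := by
      have h5 := ip_cs (p := p) hDs.fproj_abs (SqI.fproj_one (d := d) (p := p))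
      have h6 : ip p (fun ω δ => |D ω δ|) (fun (_ : Om d) (_ : Dir d) => (1 : ℝ)) =
          ∫ ω, ∑ δ, oo ω δ * |D ω δ| ∂(nu d p) := by
        unfold ip
        simp only [mul_one]
      have h7 : ip p (fun ω δ => |D ω δ|) (fun ω δ => |D ω δ|) = ip p D D := by
        unfold ip
        simp only [abs_mul_abs_self]
      rw [h6, h7] at h5
      refine (le_abs_self _).trans (h5.trans ?_)
      exact mul_le_mul_of_nonneg_right (Real.sqrt_le_sqrt hHe) (Real.sqrt_nonneg _)
    linarith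
  have hzero : ∫ ω, A ω ∂(nu d p) = 0 := by
    apply le_antisymm _ (integral_nonneg hA0)
    apply le_of_forall_pos_le_add
    intro η hη
    have hs : 0 ≤ Real.sqrt c := Real.sqrt_nonneg c
    have h1 := hbound ((η / (2 * (Real.sqrt c + 1))) ^ 2) (by positivity)
    rw [Real.sqrt_sq (by positivity)] at h1
    have h2 : 2 * (η / (2 * (Real.sqrt c + 1)) * Real.sqrt c) ≤ η := by
      have h3 : 2 * (η / (2 * (Real.sqrt c + 1)) * Real.sqrt c) =
          η * (Real.sqrt c / (Real.sqrt c + 1)) := by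
        field_simp
      rw [h3]
      apply mul_le_of_le_one_right hη.le
      rw [div_le_one (by positivity)]
      linarith
    linarith
  have h0 := (integral_eq_zero_iff_of_nonneg hA0 hAint).1 hzero
  filter_upwards [h0] with ω hω
  intro δ ho
  have h1 : oo ω δ * |G (sh (st δ) ω) (rv δ) + G ω δ| = 0 := by
    have h2 := (Finset.sum_eq_zero_iff_of_nonneg
      (fun δ _ => mul_nonneg (fproj_oo_nonneg ω δ) (abs_nonneg (G (sh (st δ) ω) (rv δ) + G ω δ)))).1 hω
    exact h2 δ (Finset.mem_univ δ)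
  have h2 : oo ω δ = 1 := by
    unfold oo
    rw [if_pos ho]
  rw [h2, one_mul, abs_eq_zero] at h1
  linarith

theorem adm_antiAE {p : unitInterval} {I : Fld d} (hI : Adm p I) : AntiAE p I := by
  obtain ⟨A, hA, h1, h2, h3⟩ := hI
  apply fproj_antiAE_of_approx ⟨h1, h2⟩
  intro ε hε
  have hA0 : (0 : ℝ) < A := by exact_mod_cast hA
  obtain ⟨ρ, hρ⟩ := exists_nat_gt ((A : ℝ) ^ 2 / ε)
  have hρ0 : (0 : ℝ) < ρ := lt_of_le_of_lt (by positivity) hρ
  have hρ1 : 1 ≤ ρ := by exact_mod_cast hρ0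
  obtain ⟨J, hJ1, hJ2, hJ3, hJ4, hJ5, hJ6⟩ := h3 ρ hρ1
  refine ⟨J, SqI.of_bounded (fun δ => (hJ1 δ).measurable) _ hJ2, ?_, ?_⟩
  · filter_upwards with ω
    intro δ ho
    exact hJ3 ω δ ho
  · have h4 : ip p (fun ω δ => J ω δ - I ω δ) (fun ω δ => J ω δ - I ω δ) =
        ∫ ω, ∑ δ, oo ω δ * (J ω δ - I ω δ) ^ 2 ∂(nu d p) := by
      unfold ip
      simp only [pow_two]
    rw [h4]
    refine hJ6.trans ?_
    have h5 : (ρ : ℝ) / A ≤ Real.exp ((ρ : ℝ) / A) := by
      have := Real.add_one_le_exp ((ρ : ℝ) / A)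
      linarith
    have h6 : Real.exp (-(ρ : ℝ) / A) ≤ A / ρ := by
      rw [neg_div, Real.exp_neg]
      calc (Real.exp ((ρ : ℝ) / A))⁻¹ ≤ ((ρ : ℝ) / A)⁻¹ := inv_anti₀ (by positivity) h5
        _ = A / ρ := inv_div _ _
    calc (A : ℝ) * Real.exp (-(ρ : ℝ) / A) ≤ A * (A / ρ) := mul_le_mul_of_nonneg_left h6 hA0.le
      _ = A ^ 2 / ρ := by ring
      _ ≤ ε := by
          rw [div_le_iff₀ hρ0]
          rw [div_lt_iff₀ hε] at hρ
          linarith [mul_comm (ρ : ℝ) ε]

theorem fproj_adm_zero (p : unitInterval) : Adm p (fun (_ : Om d) (_ : Dir d) => (0 : ℝ)) := by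
  refine ⟨1, le_rfl, fun _ => measurable_const, ?_, ?_⟩
  · simp
  · intro ρ hρ
    refine ⟨fun _ _ => 0, fun δ ω ω' _ => rfl, ?_, ?_, ?_, ?_, ?_⟩
    · intro ω δ
      simp
    · intro ω δ _
      simp
    · intro ω δ _
      rfl
    · simp
      positivity
    · simp
      positivity

/-- the vector of a field -/
noncomputable def vecF (I : Fld d) (ω : Om d) : EuclideanSpace ℝ (Dir d) :=
  WithLp.toLp 2 (fun δ => oo ω δ * I ω δ)

theorem fproj_vecF_apply (I : Fld d) (ω : Om d) (δ : Dir d) : vecF I ω δ = oo ω δ * I ω δ := rfl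

theorem fproj_norm_sq (I : Fld d) (ω : Om d) : ‖vecF I ω‖ ^ 2 = ∑ δ, oo ω δ * I ω δ ^ 2 := by
  rw [EuclideanSpace.real_norm_sq_eq]
  apply Finset.sum_congr rfl
  intro δ _
  rw [fproj_vecF_apply, mul_pow, pow_two (oo ω δ), fproj_oo_sq]

theorem fproj_measurable_vecF {I : Fld d} (hI : ∀ δ, Measurable (fun ω => I ω δ)) :
    Measurable (vecF I) := by
  unfold vecF
  apply (MeasurableEquiv.toLp 2 (Dir d → ℝ)).measurable.comp
  apply measurable_pi_lambda
  intro δ
  exact (measurable_oo δ).mul (hI δ)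

theorem fproj_memLp_vecF {p : unitInterval} {I : Fld d} (hI : SqI p I) : MemLp (vecF I) 2 (nu d p) := by
  rw [memLp_two_iff_integrable_sq_norm (fproj_measurable_vecF hI.1).aestronglyMeasurable]
  simp only [fproj_norm_sq]
  exact hI.2

theorem fproj_vecF_inner (x : EuclideanSpace ℝ (Dir d)) (I : Fld d) (ω : Om d) :
    inner ℝ x (vecF I ω) = ∑ δ, oo ω δ * (x δ * I ω δ) := by
  rw [PiLp.inner_apply]
  apply Finset.sum_congr rfl
  intro δ _
  rw [fproj_vecF_apply]
  simp only [RCLike.inner_apply, conj_trivial]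
  ring

/-- classes of admissible flows -/
noncomputable def admM (d : ℕ) (p : unitInterval) :
    Submodule ℝ (Lp (EuclideanSpace ℝ (Dir d)) 2 (nu d p)) where
  carrier := {f | ∃ I : Fld d, Adm p I ∧ f =ᵐ[nu d p] vecF I}
  zero_mem' := by
    refine ⟨_, fproj_adm_zero p, ?_⟩
    filter_upwards [Lp.coeFn_zero (EuclideanSpace ℝ (Dir d)) 2 (nu d p)] with ω hω
    rw [hω]
    ext δ
    simp [fproj_vecF_apply]
  add_mem' := by
    rintro f g ⟨I, hI, hf⟩ ⟨J, hJ, hg⟩
    refine ⟨_, hI.add hJ, ?_⟩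
    filter_upwards [Lp.coeFn_add f g, hf, hg] with ω h1 h2 h3
    rw [h1, Pi.add_apply, h2, h3]
    ext δ
    simp only [PiLp.add_apply, fproj_vecF_apply]
    ring
  smul_mem' := by
    rintro c f ⟨I, hI, hf⟩
    refine ⟨_, hI.smul c, ?_⟩
    filter_upwards [Lp.coeFn_smul c f, hf] with ω h1 h2
    rw [h1, Pi.smul_apply, h2]
    ext δ
    simp only [PiLp.smul_apply, fproj_vecF_apply, smul_eq_mul]
    ring

theorem exists_proj (p : unitInterval) (l : Fin d → ℝ) :
    ∃ G : Fld d, SqI p G ∧ AntiAE p G ∧ (∀ I, Adm p I → ip p G I = 0) ∧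
      ∀ ε : ℝ, 0 < ε → ∃ I, Adm p I ∧
        ip p (fun ω δ => dt l δ - G ω δ - I ω δ) (fun ω δ => dt l δ - G ω δ - I ω δ) ≤ ε := by
  classical
  have hDl : SqI p (Dl l : Fld d) := SqI.Dl l
  set v : Lp (EuclideanSpace ℝ (Dir d)) 2 (nu d p) := (fproj_memLp_vecF hDl).toLp (vecF (Dl l)) with hv
  set K : Submodule ℝ (Lp (EuclideanSpace ℝ (Dir d)) 2 (nu d p)) :=
    (admM d p).topologicalClosure with hK
  have : CompleteSpace K := (Submodule.isClosed_topologicalClosure (admM d p)).completeSpace_coe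
  set g : Lp (EuclideanSpace ℝ (Dir d)) 2 (nu d p) := v - K.starProjection v with hg
  set G : Fld d := fun ω δ => (g : Om d → EuclideanSpace ℝ (Dir d)) ω δ with hG
  have hgm : Measurable (g : Om d → EuclideanSpace ℝ (Dir d)) :=
    (Lp.stronglyMeasurable g).measurable
  have hGm : ∀ δ, Measurable (fun ω => G ω δ) := by
    intro δ
    have h1 : Measurable (fun x : EuclideanSpace ℝ (Dir d) => x δ) :=
      (measurable_pi_apply δ).comp (MeasurableEquiv.toLp 2 (Dir d → ℝ)).symm.measurable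
    exact h1.comp hgm
  have hgi : Integrable (fun ω => ‖(g : Om d → EuclideanSpace ℝ (Dir d)) ω‖ ^ 2) (nu d p) :=
    (memLp_two_iff_integrable_sq_norm hgm.aestronglyMeasurable).1 (Lp.memLp g)
  have hGs : SqI p G := by
    refine ⟨hGm, ?_⟩
    apply Integrable.mono' hgi
    · apply Measurable.aestronglyMeasurable
      apply Finset.measurable_sum
      intro δ _
      exact (measurable_oo δ).mul ((hGm δ).pow_const 2)
    · filter_upwards with ω
      rw [Real.norm_eq_abs, abs_of_nonneg (Finset.sum_nonneg (fun δ _ =>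
        mul_nonneg (fproj_oo_nonneg ω δ) (sq_nonneg _))), EuclideanSpace.real_norm_sq_eq]
      apply Finset.sum_le_sum
      intro δ _
      apply mul_le_of_le_one_left (sq_nonneg _)
      unfold oo
      split_ifs <;> norm_num
  -- approximation
  have happ : ∀ ε : ℝ, 0 < ε → ∃ I, Adm p I ∧
        ip p (fun ω δ => dt l δ - G ω δ - I ω δ) (fun ω δ => dt l δ - G ω δ - I ω δ) ≤ ε := by
    intro ε hε
    have hmem : K.starProjection v ∈ closure ((admM d p : Submodule ℝ _) : Set
        (Lp (EuclideanSpace ℝ (Dir d)) 2 (nu d p))) := by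
      exact Submodule.starProjection_apply_mem K v
    obtain ⟨m, hm, hdist⟩ := Metric.mem_closure_iff.1 hmem (Real.sqrt ε) (Real.sqrt_pos.2 hε)
    obtain ⟨I, hI, hmI⟩ := hm
    refine ⟨I, hI, ?_⟩
    set f : Lp (EuclideanSpace ℝ (Dir d)) 2 (nu d p) := v - g - m with hf
    have hf1 : f = K.starProjection v - m := by
      rw [hf, hg]
      abel
    have hfi : Integrable (fun ω => ‖(f : Om d → EuclideanSpace ℝ (Dir d)) ω‖ ^ 2) (nu d p) :=
      (memLp_two_iff_integrable_sq_norm (Lp.stronglyMeasurable f).aestronglyMeasurable).1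
        (Lp.memLp f)
    have hfn : ∫ ω, ‖(f : Om d → EuclideanSpace ℝ (Dir d)) ω‖ ^ 2 ∂(nu d p) = ‖f‖ ^ 2 := by
      rw [← real_inner_self_eq_norm_sq, L2.inner_def]
      simp only [real_inner_self_eq_norm_sq]
    have hle : ip p (fun ω δ => dt l δ - G ω δ - I ω δ) (fun ω δ => dt l δ - G ω δ - I ω δ) ≤
        ∫ ω, ‖(f : Om d → EuclideanSpace ℝ (Dir d)) ω‖ ^ 2 ∂(nu d p) := by
      unfold ip
      apply integral_mono_of_nonneg
      · filter_upwards with ω
        exact Finset.sum_nonneg (fun δ _ => mul_nonneg (fproj_oo_nonneg ω δ) (mul_self_nonneg _))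
      · exact hfi
      · filter_upwards [Lp.coeFn_sub (v - g) m, Lp.coeFn_sub v g, hmI,
          (fproj_memLp_vecF hDl).coeFn_toLp] with ω h1 h2 h3 h4
        have h5 : (f : Om d → EuclideanSpace ℝ (Dir d)) ω = vecF (Dl l) ω -
            (g : Om d → EuclideanSpace ℝ (Dir d)) ω - vecF I ω := by
          rw [hf, h1, Pi.sub_apply, h2, Pi.sub_apply, h3, hv, h4]
        show ∑ δ, oo ω δ * ((dt l δ - G ω δ - I ω δ) * (dt l δ - G ω δ - I ω δ)) ≤
          ‖(f : Om d → EuclideanSpace ℝ (Dir d)) ω‖ ^ 2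
        rw [h5, EuclideanSpace.real_norm_sq_eq]
        apply Finset.sum_le_sum
        intro δ _
        have h6 : (vecF (Dl l) ω - (g : Om d → EuclideanSpace ℝ (Dir d)) ω - vecF I ω) δ =
            oo ω δ * dt l δ - G ω δ - oo ω δ * I ω δ := rfl
        rw [h6]
        have h7 : oo ω δ = 1 ∨ oo ω δ = 0 := by
          unfold oo
          split_ifs
          · exact Or.inl rfl
          · exact Or.inr rfl
        rcases h7 with h7 | h7
        · rw [h7]
          apply le_of_eq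
          ring
        · rw [h7, zero_mul]
          positivity
    refine hle.trans ?_
    rw [hfn, hf1, ← dist_eq_norm]
    have h8 : dist (K.starProjection v) m ^ 2 ≤ Real.sqrt ε ^ 2 :=
      pow_le_pow_left₀ dist_nonneg hdist.le 2
    rwa [Real.sq_sqrt hε.le] at h8
  refine ⟨G, hGs, ?_, ?_, happ⟩
  · apply fproj_antiAE_of_approx hGs
    intro ε hε
    obtain ⟨I, hI, hIe⟩ := happ ε hε
    refine ⟨fun ω δ => Dl l ω δ - I ω δ, hDl.sub hI.sqI, ?_, ?_⟩
    · filter_upwards [adm_antiAE hI] with ω hω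
      intro δ ho
      rw [hω δ ho]
      have h1 : Dl l (sh (st δ) ω) (rv δ) = - Dl l ω δ := by
        simp only [Dl, dt, rv]
        cases δ.2 <;> simp
      rw [h1]
      ring
    · have h1 : (fun ω δ => Dl l ω δ - I ω δ - G ω δ : Fld d) =
          fun ω δ => dt l δ - G ω δ - I ω δ := by
        funext ω δ
        simp only [Dl]
        ring
      rw [h1]
      exact hIe
  · intro I hI
    have hIs : SqI p I := hI.sqI
    have h1 : ip p G I = inner ℝ g ((fproj_memLp_vecF hIs).toLp (vecF I)) := by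
      rw [L2.inner_def]
      unfold ip
      apply integral_congr_ae
      filter_upwards [(fproj_memLp_vecF hIs).coeFn_toLp] with ω hω
      rw [hω, fproj_vecF_inner]
    rw [h1]
    apply Submodule.starProjection_inner_eq_zero
    apply Submodule.le_topologicalClosure
    exact ⟨I, hI, (fproj_memLp_vecF hIs).coeFn_toLp⟩

end Ein99
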