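import Pool.Agent.LibEin99.F_Walk

/-!
TASK F_SP. The canonical shortest path `sp`.

`sp ω x y = pickL {L | L.length = splen ω x y ∧ OpenL ω x L ∧ endp x L = y}`; if `Conn ω x y` the set
is nonempty (`exists_list_of_conn`, `Nat.sInf_mem`).
`sp_sh`: the two sets of lists coincide (`OpenL_sh`, `endp_add`).
`sp_prefix_free`: not needed.
`measurable_sp`: for a set `W` of lists, `{ω | sp ω x y ∈ W}`; `Om d → Set (List (Dir d))`,
`ω ↦ {L | ...}` only takes countably many values (subsets of the finite set of lists of a given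
length) and each is attained on a measurable set (`OpenL` measurable: finite intersection).
`Loc_spl`: `spl ρ ω x y` only depends on the open lists of length `≤ ρ` from `x`, so it is local on
`EB ρ x`: if some list of length `≤ ρ` is open from `x` to `y` then `splen ≤ ρ` and the set is
determined; otherwise `sp` is either `[]` (not connected) or longer than `ρ`, and `spl = []`.
-/

open MeasureTheory ProbabilityTheory Filter Topology

namespace Ein99

variable {d : ℕ}

theorem F_SP_pick_mem {S : Set (List (Dir d))} (h : S.Nonempty) : pickL S ∈ S := by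
  unfold pickL
  rw [dif_pos h]
  exact h.choose_spec

theorem F_SP_pick_empty {S : Set (List (Dir d))} (h : ¬ S.Nonempty) : pickL S = [] := by
  unfold pickL
  rw [dif_neg h]

theorem F_SP_nonempty (ω : Om d) (x y : V d) (h : Conn ω x y) :
    {L : List (Dir d) | L.length = splen ω x y ∧ OpenL ω x L ∧ endp x L = y}.Nonempty := by
  obtain ⟨L, hL, hy⟩ := exists_list_of_conn ω x y h
  have h1 : {n : ℕ | ∃ L : List (Dir d), L.length = n ∧ OpenL ω x L ∧ endp x L = y}.Nonempty :=
    ⟨L.length, L, rfl, hL, hy⟩
  exact Nat.sInf_mem h1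

theorem F_SP_mem (ω : Om d) (x y : V d) (h : Conn ω x y) :
    (sp ω x y).length = splen ω x y ∧ OpenL ω x (sp ω x y) ∧ endp x (sp ω x y) = y :=
  F_SP_pick_mem (F_SP_nonempty ω x y h)

theorem sp_spec (ω : Om d) (x y : V d) (h : Conn ω x y) :
    OpenL ω x (sp ω x y) ∧ endp x (sp ω x y) = y :=
  (F_SP_mem ω x y h).2

theorem sp_length_le (ω : Om d) (x y : V d) (L : List (Dir d)) (hL : OpenL ω x L)
    (hy : endp x L = y) : (sp ω x y).length ≤ L.length := by
  have h : Conn ω x y := hy ▸ conn_of_OpenL ω x L hL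
  rw [(F_SP_mem ω x y h).1]
  exact Nat.sInf_le ⟨L, rfl, hL, hy⟩

theorem sp_of_not_conn (ω : Om d) (x y : V d) (h : ¬ Conn ω x y) : sp ω x y = [] := by
  refine F_SP_pick_empty ?_
  rintro ⟨L, _, hL, hy⟩
  exact h (hy ▸ conn_of_OpenL ω x L hL)

/-- `sp` is always an open list from `x` (the empty list if there is no connection) -/
theorem sp_open (ω : Om d) (x y : V d) : OpenL ω x (sp ω x y) := by
  by_cases h : Conn ω x y
  · exact (sp_spec ω x y h).1
  · rw [sp_of_not_conn ω x y h]
    trivial

theorem sp_sh (ω : Om d) (z x y : V d) : sp (sh z ω) x y = sp ω (x + z) (y + z) := by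
  have h1 : ∀ L : List (Dir d), (OpenL (sh z ω) x L ∧ endp x L = y) ↔
      (OpenL ω (x + z) L ∧ endp (x + z) L = y + z) := by
    intro L
    rw [OpenL_sh, endp_add, add_left_inj]
  have h2 : splen (sh z ω) x y = splen ω (x + z) (y + z) := by
    unfold splen
    simp only [h1]
  unfold sp
  rw [h2]
  simp only [h1]

instance : MeasurableSpace (List (Dir d)) := ⊤

instance : DiscreteMeasurableSpace (List (Dir d)) := ⟨fun _ => trivial⟩

/-- two configurations with the same open lists of length `≤ ρ` -/
theorem F_SP_spl_eq (ρ : ℕ) (x y : V d) (ω ω' : Om d)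
    (h : ∀ L : List (Dir d), L.length ≤ ρ → (OpenL ω x L ↔ OpenL ω' x L)) :
    spl ρ ω x y = spl ρ ω' x y := by
  by_cases hex : ∃ L : List (Dir d), L.length ≤ ρ ∧ OpenL ω x L ∧ endp x L = y
  · obtain ⟨L, hL, hLo, hLe⟩ := hex
    have hLo' : OpenL ω' x L := (h L hL).1 hLo
    have hc : Conn ω x y := hLe ▸ conn_of_OpenL ω x L hLo
    have hc' : Conn ω' x y := hLe ▸ conn_of_OpenL ω' x L hLo'
    have m := F_SP_mem ω x y hc
    have m' := F_SP_mem ω' x y hc'
    have hle : (sp ω x y).length ≤ ρ := (sp_length_le ω x y L hLo hLe).trans hL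
    have hle' : (sp ω' x y).length ≤ ρ := (sp_length_le ω' x y L hLo' hLe).trans hL
    have hs : splen ω x y = splen ω' x y := by
      refine le_antisymm ?_ ?_
      · rw [← m.1]
        have := sp_length_le ω x y (sp ω' x y) ((h _ hle').2 m'.2.1) m'.2.2
        rwa [m'.1] at this
      · rw [← m'.1]
        have := sp_length_le ω' x y (sp ω x y) ((h _ hle).1 m.2.1) m.2.2
        rwa [m.1] at this
    have hn : splen ω' x y ≤ ρ := m'.1 ▸ hle'
    have hsp : sp ω x y = sp ω' x y := by
      unfold sp
      congr 1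
      ext L
      constructor
      · rintro ⟨h1, h2, h3⟩
        rw [hs] at h1
        exact ⟨h1, (h L (h1 ▸ hn)).1 h2, h3⟩
      · rintro ⟨h1, h2, h3⟩
        exact ⟨hs ▸ h1, (h L (h1 ▸ hn)).2 h2, h3⟩
    unfold spl
    rw [hsp]
  · have key : ∀ η : Om d, (¬ ∃ L : List (Dir d), L.length ≤ ρ ∧ OpenL η x L ∧ endp x L = y) →
        spl ρ η x y = [] := by
      intro η hη
      unfold spl
      by_cases hc : Conn η x y
      · rw [if_neg]
        intro hle
        exact hη ⟨sp η x y, hle, (F_SP_mem η x y hc).2.1, (F_SP_mem η x y hc).2.2⟩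
      · rw [sp_of_not_conn η x y hc]
        split_ifs <;> rfl
    rw [key ω hex, key ω' fun ⟨L, h1, h2, h3⟩ => hex ⟨L, h1, (h L h1).2 h2, h3⟩]

theorem Loc_spl (ρ : ℕ) (x y : V d) :
    Loc (EB ρ x : Set (Ed d)) (fun ω : Om d => spl ρ ω x y) := by
  intro ω ω' h
  refine F_SP_spl_eq ρ x y ω ω' fun L hL => ?_
  have h1 := Loc_OpenL x L ω ω' fun e he => h e (EB_mono hL x he)
  exact iff_of_eq h1

theorem measurable_sp (x y : V d) : Measurable (fun ω : Om d => sp ω x y) := by
  have h1 : ∀ L : List (Dir d), L ≠ [] → MeasurableSet {ω : Om d | sp ω x y = L} := by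
    intro L hL
    have h2 : {ω : Om d | sp ω x y = L} = (fun ω : Om d => spl L.length ω x y) ⁻¹' {L} := by
      ext ω
      simp only [Set.mem_preimage, Set.mem_singleton_iff]
      change sp ω x y = L ↔ _
      unfold spl
      constructor
      · intro h
        rw [h, if_pos le_rfl]
      · intro h
        split_ifs at h with h3
        · exact h
        · exact absurd h.symm hL
    rw [h2]
    exact (Loc.measurable (EB L.length x) (Loc_spl L.length x y)) (MeasurableSet.of_discrete)
  refine measurable_to_countable' fun L => ?_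
  by_cases hL : L = []
  · subst hL
    have h3 : (fun ω : Om d => sp ω x y) ⁻¹' {[]} =
        (⋃ L : {L : List (Dir d) // L ≠ []}, {ω : Om d | sp ω x y = L.1})ᶜ := by
      ext ω
      simp only [Set.mem_preimage, Set.mem_singleton_iff, Set.mem_compl_iff, Set.mem_iUnion,
        not_exists]
      constructor
      · intro h L hL
        change sp ω x y = L.1 at hL
        exact L.2 (hL.symm.trans h)
      · intro h
        by_contra h4
        exact h ⟨sp ω x y, h4⟩ rfl
    rw [h3]
    exact (MeasurableSet.iUnion fun L : {L : List (Dir d) // L ≠ []} => h1 L.1 L.2).compl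
  · exact h1 L hL

theorem spl_length (ρ : ℕ) (ω : Om d) (x y : V d) : (spl ρ ω x y).length ≤ ρ := by
  unfold spl
  split_ifs with h
  · exact h
  · exact Nat.zero_le ρ

theorem spl_open (ρ : ℕ) (ω : Om d) (x y : V d) : OpenL ω x (spl ρ ω x y) := by
  unfold spl
  split_ifs with h
  · exact sp_open ω x y
  · trivial

theorem spl_sh (ρ : ℕ) (ω : Om d) (z x y : V d) :
    spl ρ (sh z ω) x y = spl ρ ω (x + z) (y + z) := by
  unfold spl
  rw [sp_sh]

theorem sp_length_of_joinIn (ω : Om d) (r : ℕ) (z x y : V d)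
    (h : JoinIn ω (Bx r z : Set (V d)) x y) : (sp ω x y).length ≤ (2 * r + 1) ^ d := by
  obtain ⟨L, h1, h2, h3⟩ := exists_list_of_joinIn ω r z x y h
  exact (sp_length_le ω x y L h1 h2).trans h3

/-- sums along measurable random paths are measurable -/
theorem measurable_Gs (G : Fld d) (hG : ∀ δ, Measurable (fun ω => G ω δ)) (x : V d)
    (L : List (Dir d)) : Measurable (fun ω => Gs G ω x L) := by
  induction L generalizing x with
  | nil => exact measurable_const
  | cons δ L ih => exact ((hG δ).comp (measurable_sh x)).add (ih (x + st δ))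

theorem measurable_Gs' (G : Fld d) (hG : ∀ δ, Measurable (fun ω => G ω δ)) (s : Om d → V d)
    (hs : Measurable s) (γ : Om d → List (Dir d)) (hγ : Measurable γ) :
    Measurable (fun ω => Gs G ω (s ω) (γ ω)) := by
  have h1 : Measurable fun q : Om d × (V d × List (Dir d)) => Gs G q.1 q.2.1 q.2.2 :=
    measurable_from_prod_countable_left fun q => measurable_Gs G hG q.1 q.2
  exact h1.comp (measurable_id.prodMk (hs.prodMk hγ))

theorem measurable_Pot (G : Fld d) (hG : ∀ δ, Measurable (fun ω => G ω δ)) (x y : V d) :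
    Measurable (fun ω => Pot G ω x y) :=
  measurable_Gs' G hG (fun _ => x) measurable_const (fun ω => sp ω x y) (measurable_sp x y)

theorem Pot_sh (G : Fld d) (ω : Om d) (z x y : V d) :
    Pot G (sh z ω) x y = Pot G ω (x + z) (y + z) := by
  unfold Pot
  rw [sp_sh, Gs_sh]

end Ein99
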