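import Pool.Agent.LibEin99.F_SF
import Pool.Agent.LibEin99.F_Proj
import Pool.Agent.LibEin99.F_SP

/-!
TASK F_Pair. Pairing of a field with a stationarised path flow.

`ip G (SF) = ∫_{InfC 0} ∑_δ oo G(ω,δ) ∑_z b(sh z ω) cnt 0 δ (z + s(sh z ω)) (γ(sh z ω))`. In the term
`z` substitute `ω = sh (-z) ω'` (`mp_sh`): it becomes
`∫ 1{InfC ω' (-z)} ∑_δ 1{opn ω' (-z) δ} G(sh (-z) ω')δ b(ω') cnt (-z) δ (s ω') (γ ω')` (`cnt_add`).
Sum over `y = -z ∈ Bx (2R) 0`: since `cnt y δ ≠ 0` only for `y` on the walk, `InfC ω' y` can be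
replaced by `InfC ω' (s ω')` (`conn_of_OpenL`, `InfC_of_conn`), and `sum_cnt_mul` gives
`2 Gs G ω' (s ω') (γ ω')`. The antisymmetry of `G` at all vertices of the infinite cluster holds for
a.e. `ω'` (`ae_all_shift`, `AntiAE`). Integrability of every term: `∫ 1{InfC 0} oo |G| < ∞`,
`b, cnt` bounded.
-/

open MeasureTheory ProbabilityTheory Filter Topology

namespace Ein99

variable {d : ℕ} {p : unitInterval} {R : ℕ} {B : ℝ} {b : Om d → ℝ} {s : Om d → V d}
  {γ : Om d → List (Dir d)}

/-- antisymmetry at all vertices of the infinite cluster, almost surely -/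
theorem ae_anti (G : Fld d) (hGa : AntiAE p G) :
    ∀ᵐ ω ∂(Pr d p), ∀ y : V d, InfC ω y → ∀ δ : Dir d, opn ω y δ →
      G (sh (y + st δ) ω) (rv δ) = - G (sh y ω) δ := by
  filter_upwards [ae_all_shift p _ hGa] with ω hω
  intro y hy δ ho
  have h1 := hω y hy δ (by rw [opn_sh, zero_add]; exact ho)
  rw [sh_sh, add_comm] at h1
  exact h1

/-- a vertex with a nonzero passage count is connected to the start -/
theorem fpair_conn (ω : Om d) (y : V d) (η : Dir d) (x : V d) (L : List (Dir d))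
    (h : OpenL ω x L) (hc : cnt y η x L ≠ 0) : Conn ω x y := by
  classical
  induction L generalizing x with
  | nil => exact absurd rfl hc
  | cons δ L ih =>
    have h' : opn ω x δ ∧ OpenL ω (x + st δ) L := h
    have hstep : Conn ω x (x + st δ) := Relation.ReflTransGen.single ⟨δ, h'.1, rfl⟩
    by_cases h1 : x = y ∧ δ = η
    · rw [h1.1]
      exact Relation.ReflTransGen.refl
    · by_cases h2 : x = y + st η ∧ δ = rv η
      · have h3 : y = x + st δ := by
          rw [h2.1, h2.2, st_rv]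
          abel
        rw [h3]
        exact hstep
      · have h4 : cnt y η (x + st δ) L ≠ 0 := by
          intro h5
          apply hc
          simp only [cnt, if_neg h1, if_neg h2, h5]
          norm_num
        exact Relation.ReflTransGen.trans hstep (ih (x + st δ) h'.2 h4)

open Classical in
/-- the term at the vertex `y` -/
noncomputable def fpairT (G : Fld d) (b : Om d → ℝ) (s : Om d → V d) (γ : Om d → List (Dir d))
    (y : V d) (δ : Dir d) (ω : Om d) : ℝ :=
  if InfC ω y then (if opn ω y δ then (1 : ℝ) else 0) *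
    (G (sh y ω) δ * (b ω * cnt y δ (s ω) (γ ω))) else 0

theorem fpairT_shift (G : Fld d) (b : Om d → ℝ) (s : Om d → V d) (γ : Om d → List (Dir d))
    (z : V d) (δ : Dir d) (ω : Om d) :
    fpairT G b s γ (-z) δ (sh z ω) = Set.indicator {ω : Om d | InfC ω 0}
      (fun ω => oo ω δ * (G ω δ * (b (sh z ω) * cnt 0 δ (z + s (sh z ω)) (γ (sh z ω))))) ω := by
  classical
  unfold fpairT
  have h1 : InfC (sh z ω) (-z) ↔ InfC ω 0 := by
    rw [InfC_sh, neg_add_cancel]
  have h2 : opn (sh z ω) (-z) δ ↔ opn ω 0 δ := by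
    rw [opn_sh, neg_add_cancel]
  have h3 : sh (-z) (sh z ω) = ω := by
    rw [sh_sh, neg_add_cancel, sh_zero]
  have h4 : cnt (-z) δ (s (sh z ω)) (γ (sh z ω)) = cnt 0 δ (z + s (sh z ω)) (γ (sh z ω)) := by
    rw [← cnt_add (-z) z δ (s (sh z ω)), neg_add_cancel, add_comm (s (sh z ω)) z]
  rw [h3, h4]
  by_cases h5 : InfC ω 0
  · rw [if_pos (h1.2 h5), Set.indicator_of_mem (show ω ∈ {ω : Om d | InfC ω 0} from h5)]
    congr 1
    unfold oo
    by_cases h6 : opn ω 0 δ
    · rw [if_pos (h2.2 h6), if_pos h6]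
    · rw [if_neg (fun h => h6 (h2.1 h)), if_neg h6]
  · rw [if_neg (fun h => h5 (h1.1 h)),
      Set.indicator_of_notMem (show ω ∉ {ω : Om d | InfC ω 0} from h5)]

theorem fpair_meas_b (h : PathRule R B b s γ) : Measurable b := h.locb.measurable

theorem fpair_meas_cnt (h : PathRule R B b s γ) (y : V d) (δ : Dir d) :
    Measurable (fun ω => cnt y δ (s ω) (γ ω)) :=
  (Loc.comp2 (fun a c => cnt y δ a c) h.locs h.locγ).measurable

theorem fpairT_meas (h : PathRule R B b s γ) (G : Fld d) (hG : SqI p G) (y : V d) (δ : Dir d) :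
    Measurable (fpairT G b s γ y δ) := by
  classical
  unfold fpairT
  apply Measurable.ite (measurableSet_InfC y) _ measurable_const
  apply Measurable.mul
  · exact Measurable.ite (measurableSet_opn y δ) measurable_const measurable_const
  · exact ((hG.1 δ).comp (measurable_sh y)).mul ((fpair_meas_b h).mul (fpair_meas_cnt h y δ))

theorem fpairT_int (h : PathRule R B b s γ) (G : Fld d) (hG : SqI p G) (z : V d) (δ : Dir d) :
    Integrable (fun ω => fpairT G b s γ (-z) δ (sh z ω)) (Pr d p) := by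
  classical
  have hm : Measurable (fun ω => fpairT G b s γ (-z) δ (sh z ω)) :=
    (fpairT_meas h G hG (-z) δ).comp (measurable_sh z)
  have hI : Integrable (Set.indicator {ω : Om d | InfC ω 0}
      (fun ω => (B * R) * ∑ δ, oo ω δ * |G ω δ|)) (Pr d p) := by
    rw [integrable_indicator_iff (measurableSet_InfC 0)]
    exact hG.fproj_int_abs.const_mul (B * R)
  apply Integrable.mono' hI hm.aestronglyMeasurable
  filter_upwards with ω
  rw [fpairT_shift]
  by_cases h5 : InfC ω 0
  · rw [Set.indicator_of_mem (show ω ∈ {ω : Om d | InfC ω 0} from h5),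
      Set.indicator_of_mem (show ω ∈ {ω : Om d | InfC ω 0} from h5), Real.norm_eq_abs]
    have e1 : |oo ω δ * (G ω δ * (b (sh z ω) * cnt 0 δ (z + s (sh z ω)) (γ (sh z ω))))| =
        (oo ω δ * |G ω δ|) * (|b (sh z ω)| * |cnt 0 δ (z + s (sh z ω)) (γ (sh z ω))|) := by
      rw [abs_mul, abs_mul, abs_mul, abs_of_nonneg (fproj_oo_nonneg ω δ)]
      ring
    have e2 : |b (sh z ω)| * |cnt 0 δ (z + s (sh z ω)) (γ (sh z ω))| ≤ B * R := by
      apply mul_le_mul (h.hb _) _ (abs_nonneg _) h.hB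
      exact (abs_cnt_le _ _ _ _).trans (by exact_mod_cast h.len _)
    have e3 : oo ω δ * |G ω δ| ≤ ∑ δ, oo ω δ * |G ω δ| :=
      Finset.single_le_sum (f := fun δ => oo ω δ * |G ω δ|)
        (fun δ _ => mul_nonneg (fproj_oo_nonneg ω δ) (abs_nonneg _)) (Finset.mem_univ δ)
    have e4 : 0 ≤ oo ω δ * |G ω δ| := mul_nonneg (fproj_oo_nonneg ω δ) (abs_nonneg _)
    have e5 : (0 : ℝ) ≤ B * R := mul_nonneg h.hB (Nat.cast_nonneg _)
    rw [e1]
    calc (oo ω δ * |G ω δ|) * (|b (sh z ω)| * |cnt 0 δ (z + s (sh z ω)) (γ (sh z ω))|) ≤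
          (oo ω δ * |G ω δ|) * (B * R) := mul_le_mul_of_nonneg_left e2 e4
      _ ≤ (∑ δ, oo ω δ * |G ω δ|) * (B * R) := mul_le_mul_of_nonneg_right e3 e5
      _ = (B * R) * ∑ δ, oo ω δ * |G ω δ| := mul_comm _ _
  · rw [Set.indicator_of_notMem (show ω ∉ {ω : Om d | InfC ω 0} from h5),
      Set.indicator_of_notMem (show ω ∉ {ω : Om d | InfC ω 0} from h5), norm_zero]

theorem fpairT_int' (h : PathRule R B b s γ) (G : Fld d) (hG : SqI p G) (z : V d) (δ : Dir d) :
    Integrable (fpairT G b s γ (-z) δ) (Pr d p) ∧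
    ∫ ω, fpairT G b s γ (-z) δ (sh z ω) ∂(Pr d p) = ∫ ω, fpairT G b s γ (-z) δ ω ∂(Pr d p) := by
  have hm := (fpairT_meas h G hG (-z) δ).aestronglyMeasurable (μ := Pr d p)
  constructor
  · exact ((mp_sh p z).integrable_comp hm).1 (fpairT_int h G hG z δ)
  · have h1 := integral_map (μ := Pr d p) (measurable_sh z).aemeasurable
      (f := fpairT G b s γ (-z) δ) (by rw [map_sh]; exact hm)
    rw [map_sh] at h1
    exact h1.symm

open Classical in
theorem fpairT_sum (h : PathRule R B b s γ) (G : Fld d) (ω : Om d)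
    (hω : ∀ y : V d, InfC ω y → ∀ δ : Dir d, opn ω y δ →
      G (sh (y + st δ) ω) (rv δ) = - G (sh y ω) δ) :
    ∑ z ∈ Bx (2 * R) (0 : V d), ∑ δ, fpairT G b s γ (-z) δ ω =
      2 * (if InfC ω (s ω) then b ω * Gs G ω (s ω) (γ ω) else 0) := by
  have hneg : ∑ z ∈ Bx (2 * R) (0 : V d), ∑ δ, fpairT G b s γ (-z) δ ω =
      ∑ y ∈ Bx (2 * R) (0 : V d), ∑ δ, fpairT G b s γ y δ ω := by
    apply Finset.sum_nbij' (fun z => -z) (fun z => -z)
    · intro z hz
      rw [mem_Bx] at hz ⊢
      intro i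
      have := hz i
      simp only [Pi.zero_apply, sub_zero, Pi.neg_apply, abs_neg] at this ⊢
      exact this
    · intro z hz
      rw [mem_Bx] at hz ⊢
      intro i
      have := hz i
      simp only [Pi.zero_apply, sub_zero, Pi.neg_apply, abs_neg] at this ⊢
      exact this
    · intro z _
      exact neg_neg z
    · intro z _
      exact neg_neg z
    · intro z _
      rfl
  rw [hneg]
  have hop := h.op ω
  by_cases hs : InfC ω (s ω)
  · rw [if_pos hs]
    have h1 : ∀ y ∈ Bx (2 * R) (0 : V d), ∑ δ, fpairT G b s γ y δ ω =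
        b ω * ∑ δ, (if opn ω y δ then (1 : ℝ) else 0) *
          (G (sh y ω) δ * cnt y δ (s ω) (γ ω)) := by
      intro y _
      rw [Finset.mul_sum]
      apply Finset.sum_congr rfl
      intro δ _
      unfold fpairT
      by_cases hc : cnt y δ (s ω) (γ ω) = 0
      · rw [hc]
        simp
      · have h2 : InfC ω y := InfC_of_conn ω (fpair_conn ω y δ (s ω) (γ ω) hop hc) hs
        rw [if_pos h2]
        ring
    rw [Finset.sum_congr rfl h1, ← Finset.mul_sum]
    have h2 := sum_cnt_mul G ω (s ω) (γ ω) hop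
      (fun y hy δ ho => hω y (InfC_of_conn ω hy hs) δ ho) (Bx (2 * R) (0 : V d)) (by
        refine (Bx_subset (h.smem ω)).trans (Bx_mono ?_ _)
        have := h.len ω
        omega)
    rw [h2]
    ring
  · rw [if_neg hs, mul_zero]
    apply Finset.sum_eq_zero
    intro y _
    apply Finset.sum_eq_zero
    intro δ _
    unfold fpairT
    by_cases hc : cnt y δ (s ω) (γ ω) = 0
    · rw [hc]
      simp
    · have h2 : ¬ InfC ω y := fun h3 => hs (InfC_of_conn ω
        (Conn_symm ω (fpair_conn ω y δ (s ω) (γ ω) hop hc)) h3)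
      rw [if_neg h2]

open Classical in
theorem SF_pair (h : PathRule R B b s γ) (G : Fld d) (hG : SqI p G) (hGa : AntiAE p G) :
    Integrable (fun ω => if InfC ω (s ω) then b ω * Gs G ω (s ω) (γ ω) else 0) (Pr d p) ∧
    ip p G (SF R b s γ)
      = 2 * ∫ ω, (if InfC ω (s ω) then b ω * Gs G ω (s ω) (γ ω) else 0) ∂(Pr d p) := by
  have hae : ∀ᵐ ω ∂(Pr d p), ∑ z ∈ Bx (2 * R) (0 : V d), ∑ δ, fpairT G b s γ (-z) δ ω =
      2 * (if InfC ω (s ω) then b ω * Gs G ω (s ω) (γ ω) else 0) := by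
    filter_upwards [ae_anti G hGa] with ω hω
    exact fpairT_sum h G ω hω
  have hint : Integrable (fun ω => ∑ z ∈ Bx (2 * R) (0 : V d), ∑ δ, fpairT G b s γ (-z) δ ω)
      (Pr d p) := by
    apply integrable_finsetSum
    intro z _
    apply integrable_finsetSum
    intro δ _
    exact (fpairT_int' h G hG z δ).1
  have hI : Integrable (fun ω => if InfC ω (s ω) then b ω * Gs G ω (s ω) (γ ω) else 0)
      (Pr d p) := by
    apply (hint.const_mul (1 / 2)).congr
    filter_upwards [hae] with ω hω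
    rw [hω]
    ring
  refine ⟨hI, ?_⟩
  rw [← integral_const_mul, ← integral_congr_ae hae]
  rw [integral_finsetSum _ (fun z _ => integrable_finsetSum _
    (fun δ _ => (fpairT_int' h G hG z δ).1))]
  have h1 : ∀ z ∈ Bx (2 * R) (0 : V d),
      ∫ ω, ∑ δ, fpairT G b s γ (-z) δ ω ∂(Pr d p) =
        ∫ ω, ∑ δ, fpairT G b s γ (-z) δ (sh z ω) ∂(Pr d p) := by
    intro z _
    rw [integral_finsetSum _ (fun δ _ => (fpairT_int' h G hG z δ).1),
      integral_finsetSum _ (fun δ _ => fpairT_int h G hG z δ)]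
    apply Finset.sum_congr rfl
    intro δ _
    exact (fpairT_int' h G hG z δ).2.symm
  rw [Finset.sum_congr rfl h1, ← integral_finsetSum _ (fun z _ => integrable_finsetSum _
    (fun δ _ => fpairT_int h G hG z δ))]
  unfold ip nu
  rw [← integral_indicator (measurableSet_InfC 0)]
  apply integral_congr_ae
  filter_upwards with ω
  have h2 : ∀ z ∈ Bx (2 * R) (0 : V d), ∑ δ, fpairT G b s γ (-z) δ (sh z ω) =
      ∑ δ, Set.indicator {ω : Om d | InfC ω 0} (fun ω => oo ω δ *
        (G ω δ * (b (sh z ω) * cnt 0 δ (z + s (sh z ω)) (γ (sh z ω))))) ω := by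
    intro z _
    apply Finset.sum_congr rfl
    intro δ _
    exact fpairT_shift G b s γ z δ ω
  rw [Finset.sum_congr rfl h2]
  by_cases h5 : InfC ω 0
  · rw [Set.indicator_of_mem (show ω ∈ {ω : Om d | InfC ω 0} from h5)]
    simp only [Set.indicator_of_mem (show ω ∈ {ω : Om d | InfC ω 0} from h5)]
    rw [Finset.sum_comm]
    apply Finset.sum_congr rfl
    intro δ _
    unfold SF
    rw [Finset.mul_sum, Finset.mul_sum]
  · rw [Set.indicator_of_notMem (show ω ∉ {ω : Om d | InfC ω 0} from h5)]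
    symm
    apply Finset.sum_eq_zero
    intro z _
    apply Finset.sum_eq_zero
    intro δ _
    rw [Set.indicator_of_notMem (show ω ∉ {ω : Om d | InfC ω 0} from h5)]

end Ein99
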