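import Pool.Agent.LibEin99.F_PhiL1

/-!
TASK F_PathFlow. The stationarised flow along the canonical paths between neighbouring roots.

For `ρ ≥ 1` let `M = (2Kρ+1)^d`, `R = M + 4ρ + 4`, `b = 1`, `s = rl ρ`,
`γ ω = spl M ω (rl ρ ω) (st η + rl ρ (sh (st η) ω))`: a `PathRule R 1` (`Loc_rl`, `Loc_spl`, `Loc_sh`; note
that `γ` is local because `spl M ω x y` is local on `EB M x` for each of the finitely many values `x, y`).
`J_ρ = SF R 1 s γ`.
On the event `E_ρ`: `rl ρ = rg` and `rl ρ ∘ sh (st η) = rg ∘ sh (st η)` and the event of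
`roots_joined` with `k = ρ`, `γ ω` is the full path `sp ω (rg ω) (st η + rg (sh (st η) ω))`;
`P(E_ρᶜ) ≤ A e^{-aρ}`.
Divergence (`SF_div`): if `E_ρ` holds at all `z ∈ Bx (2R) 0` then the end point of the walk attached to
`z` is `z + st η + rl ρ (sh (z + st η) ω)` and the two sums of indicators are
`#{z ∈ Bx (2R) 0 : z + rl ρ(sh z ω) = 0} - #{z ∈ Bx (2R) 0 : z + st η + rl ρ(sh (z + st η) ω) = 0}`, equal
because `|rl ρ| ≤ ρ`. So `P(∑ J_ρ ≠ 0) ≤ (4R+1)^d A e^{-aρ}`.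
Convergence: `J_ρ = J_{ρ+1}` at the origin if for all `z` in `Bx (2R_{ρ+1}) 0` both rules agree (`E_ρ`
and `E_{ρ+1}` hold at `z`), so `P(J_ρ ≠ J_{ρ+1}) ≤ poly(ρ) e^{-aρ}` and, with `|J| ≤ poly(ρ)`, the
sequence is Cauchy in `L²(nu)` with exponential speed; let `I` be the limit (e.g. pointwise limit
where it is eventually constant, `0` elsewhere). Choose `A` large so that `AdmJ p A I`.
Pairing: `ip G J_ρ → ip G I`, and by `SF_pair` `ip G J_ρ = 2 ∫ 1{InfC (rl ρ)} Gs G (rl ρ) γ`, which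
tends to `2 ∫ Phi G (st η)`: equal on `E_ρ`, and on `E_ρᶜ` use `gs_bound` and `phi_integrable`.
-/

open MeasureTheory ProbabilityTheory Filter Topology
open scoped ENNReal

namespace Ein99


/-- polynomial times exponential decay -/
theorem pf_poly_exp (c : ℝ) (k : ℕ) (a : ℝ) (ha : 0 < a) : ∃ A0 : ℝ, 0 < A0 ∧ ∀ ρ : ℕ,
    c * (ρ : ℝ) ^ k * Real.exp (-a * ρ) ≤ A0 * Real.exp (-(a / 2) * ρ) := by
  refine ⟨|c| * ((k.factorial : ℝ) / (a / 2) ^ k) + 1, by positivity, fun ρ => ?_⟩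
  have h1 : ((a / 2) * ρ) ^ k / (k.factorial : ℝ) ≤ Real.exp ((a / 2) * ρ) :=
    Real.pow_div_factorial_le_exp _ (by positivity) k
  have hk : (0 : ℝ) < k.factorial := by positivity
  have h2 : (ρ : ℝ) ^ k ≤ (k.factorial : ℝ) / (a / 2) ^ k * Real.exp ((a / 2) * ρ) := by
    rw [div_le_iff₀ hk, mul_pow] at h1
    rw [div_mul_eq_mul_div, le_div_iff₀ (by positivity)]
    linarith
  have h3 : Real.exp ((a / 2) * ρ) * Real.exp (-a * ρ) = Real.exp (-(a / 2) * ρ) := by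
    rw [← Real.exp_add]; congr 1; ring
  have h4 : c * (ρ : ℝ) ^ k ≤ |c| * ((k.factorial : ℝ) / (a / 2) ^ k * Real.exp ((a / 2) * ρ)) :=
    mul_le_mul (le_abs_self c) h2 (by positivity) (abs_nonneg c)
  calc c * (ρ : ℝ) ^ k * Real.exp (-a * ρ)
      ≤ |c| * ((k.factorial : ℝ) / (a / 2) ^ k * Real.exp ((a / 2) * ρ)) * Real.exp (-a * ρ) :=
        mul_le_mul_of_nonneg_right h4 (Real.exp_pos _).le
    _ = |c| * ((k.factorial : ℝ) / (a / 2) ^ k) * Real.exp (-(a / 2) * ρ) := by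
        rw [← h3]; ring
    _ ≤ (|c| * ((k.factorial : ℝ) / (a / 2) ^ k) + 1) * Real.exp (-(a / 2) * ρ) := by
        refine mul_le_mul_of_nonneg_right (by linarith) (Real.exp_pos _).le

/-- almost sure and `L²` limit of an eventually constant sequence -/
theorem pf_limit {Ω : Type*} [MeasurableSpace Ω] (μ : Measure Ω) [IsProbabilityMeasure μ]
    (f : ℕ → Ω → ℝ) (hf : ∀ n, Measurable (f n)) (B : ℕ → ℝ) (hB : Monotone B)
    (hB1 : ∀ n, 1 ≤ B n) (hfB : ∀ n ω, |f n ω| ≤ B n) (A a : ℝ) (hA : 0 < A) (ha : 0 < a)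
    (h : ∀ n, (2 * B (n + 1)) ^ 2 * μ.real {ω | f n ω ≠ f (n + 1) ω} ≤ A * Real.exp (-a * n)) :
    ∃ g : Ω → ℝ, Measurable g ∧ Integrable (fun ω => g ω ^ 2) μ ∧ ∀ n,
      Integrable (fun ω => (f n ω - g ω) ^ 2) μ ∧
      ∫ ω, (f n ω - g ω) ^ 2 ∂μ ≤ A / (1 - Real.exp (-a)) * Real.exp (-a * n) := by
  set D : ℕ → Set Ω := fun n => {ω | f n ω ≠ f (n + 1) ω} with hD
  have hDm : ∀ n, MeasurableSet (D n) := fun n =>
    (measurableSet_eq_fun (hf n) (hf (n + 1))).compl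
  have he1 : Real.exp (-a) < 1 := by rw [Real.exp_lt_one_iff]; linarith
  have he0 : 0 < 1 - Real.exp (-a) := by linarith
  have hDr : ∀ n, μ.real (D n) ≤ A * Real.exp (-a * n) := by
    intro n
    refine le_trans ?_ (h n)
    have h1 : (1 : ℝ) ≤ (2 * B (n + 1)) ^ 2 := by
      have := hB1 (n + 1)
      nlinarith
    have h2 : 0 ≤ μ.real (D n) := measureReal_nonneg
    calc μ.real (D n) = 1 * μ.real (D n) := (one_mul _).symm
      _ ≤ _ := mul_le_mul_of_nonneg_right h1 h2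
  have hgeo : ∀ m : ℕ, HasSum (fun n : ℕ => A * Real.exp (-a * ((m + n : ℕ) : ℝ)))
      (A / (1 - Real.exp (-a)) * Real.exp (-a * m)) := by
    intro m
    have h1 := (hasSum_geometric_of_lt_one (Real.exp_pos (-a)).le he1).mul_left
      (A * Real.exp (-a * m))
    have h2 : (fun n : ℕ => A * Real.exp (-a * m) * Real.exp (-a) ^ n)
        = fun n : ℕ => A * Real.exp (-a * ((m + n : ℕ) : ℝ)) := by
      funext n
      rw [← Real.exp_nat_mul, mul_assoc, ← Real.exp_add]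
      congr 2
      push_cast
      ring
    rw [h2] at h1
    have h3 : A * Real.exp (-a * m) * (1 - Real.exp (-a))⁻¹
        = A / (1 - Real.exp (-a)) * Real.exp (-a * m) := by
      rw [div_eq_mul_inv]; ring
    rw [h3] at h1
    exact h1
  have hsum : (∑' n, μ (D n)) ≠ ∞ := by
    have h1 : ∀ n, μ (D n) ≤ ENNReal.ofReal (A * Real.exp (-a * ((0 + n : ℕ) : ℝ))) := by
      intro n
      rw [zero_add, ← ENNReal.ofReal_toReal (measure_ne_top μ (D n))]
      exact ENNReal.ofReal_le_ofReal (hDr n)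
    refine ne_top_of_le_ne_top ?_ (ENNReal.tsum_le_tsum h1)
    rw [← ENNReal.ofReal_tsum_of_nonneg (fun n => by positivity) (hgeo 0).summable]
    exact ENNReal.ofReal_ne_top
  have hev := ae_eventually_notMem hsum
  have hae : ∀ᵐ ω ∂μ, ∃ l : ℝ, Tendsto (fun n => f n ω) atTop (𝓝 l) := by
    filter_upwards [hev] with ω hω
    obtain ⟨N, hN⟩ := eventually_atTop.1 hω
    have h1 : ∀ n, N ≤ n → f n ω = f N ω := by
      intro n hn
      induction n, hn using Nat.le_induction with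
      | base => rfl
      | succ m hm ih =>
        have h2 := hN m hm
        simp only [hD, Set.mem_ofPred_eq, not_not] at h2
        rw [← h2, ih]
    refine ⟨f N ω, tendsto_const_nhds.congr' ?_⟩
    filter_upwards [eventually_ge_atTop N] with n hn using (h1 n hn).symm
  obtain ⟨g, hg, hlim⟩ := measurable_limit_of_tendsto_metrizable_ae
    (fun n => (hf n).aemeasurable) hae
  -- the pointwise bound
  have hpt : ∀ n, ∀ᵐ ω ∂μ, ENNReal.ofReal ((f n ω - g ω) ^ 2) ≤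
      ∑' k, (D (n + k)).indicator (fun _ => ENNReal.ofReal ((2 * B (n + k + 1)) ^ 2)) ω := by
    intro n
    filter_upwards [hev, hlim] with ω hω hωl
    have hex : ∃ N, ∀ m, N ≤ m → ω ∉ D m := eventually_atTop.1 hω
    classical
    set N := Nat.find hex with hNdef
    have hN := Nat.find_spec hex
    have hconst : ∀ m, N ≤ m → f m ω = f N ω := by
      intro m hm
      induction m, hm using Nat.le_induction with
      | base => rfl
      | succ m hm ih =>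
        have h2 := hN m hm
        simp only [hD, Set.mem_ofPred_eq, not_not] at h2
        rw [← h2, ih]
    have hgN : g ω = f N ω := by
      refine tendsto_nhds_unique hωl (tendsto_const_nhds.congr' ?_)
      filter_upwards [eventually_ge_atTop N] with m hm using (hconst m hm).symm
    rcases le_or_gt N n with hn | hn
    · rw [hgN, hconst n hn, sub_self]
      simp
    · -- `N = m + 1` with `n ≤ m`
      obtain ⟨m, hm⟩ : ∃ m, N = m + 1 := ⟨N - 1, by omega⟩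
      have hnm : n ≤ m := by omega
      have hmin := Nat.find_min hex (m := m) (by omega)
      have hmD : ω ∈ D m := by
        by_contra hcon
        apply hmin
        intro j hj
        rcases eq_or_lt_of_le hj with h1 | h1
        · rw [← h1]; exact hcon
        · exact hN j (by omega)
      obtain ⟨k, rfl⟩ := Nat.exists_eq_add_of_le hnm
      refine le_trans ?_ (ENNReal.le_tsum k)
      rw [Set.indicator_of_mem hmD]
      apply ENNReal.ofReal_le_ofReal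
      rw [hgN, hm]
      have h1 := hfB n ω
      have h2 := hfB (n + k + 1) ω
      have h3 : B n ≤ B (n + k + 1) := hB (by omega)
      have h4 : |f n ω - f (n + k + 1) ω| ≤ 2 * B (n + k + 1) := by
        calc |f n ω - f (n + k + 1) ω| ≤ |f n ω| + |f (n + k + 1) ω| := abs_sub _ _
          _ ≤ _ := by linarith
      rw [← sq_abs]
      exact pow_le_pow_left₀ (abs_nonneg _) h4 2
  have hlint : ∀ n : ℕ, ∫⁻ ω, ENNReal.ofReal ((f n ω - g ω) ^ 2) ∂μ ≤
      ENNReal.ofReal (A / (1 - Real.exp (-a)) * Real.exp (-a * n)) := by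
    intro n
    calc ∫⁻ ω, ENNReal.ofReal ((f n ω - g ω) ^ 2) ∂μ
        ≤ ∫⁻ ω, ∑' k, (D (n + k)).indicator
            (fun _ => ENNReal.ofReal ((2 * B (n + k + 1)) ^ 2)) ω ∂μ :=
          lintegral_mono_ae (hpt n)
      _ = ∑' k, ∫⁻ ω, (D (n + k)).indicator
            (fun _ => ENNReal.ofReal ((2 * B (n + k + 1)) ^ 2)) ω ∂μ := by
          rw [lintegral_tsum]
          intro k
          exact (measurable_const.indicator (hDm _)).aemeasurable
      _ = ∑' k, ENNReal.ofReal ((2 * B (n + k + 1)) ^ 2) * μ (D (n + k)) := by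
          congr 1
          funext k
          rw [lintegral_indicator_const (hDm _)]
      _ ≤ ∑' k, ENNReal.ofReal (A * Real.exp (-a * ((n + k : ℕ) : ℝ))) := by
          refine ENNReal.tsum_le_tsum fun k => ?_
          rw [← ENNReal.ofReal_toReal (measure_ne_top μ (D (n + k))),
            ← ENNReal.ofReal_mul (sq_nonneg _)]
          exact ENNReal.ofReal_le_ofReal (h (n + k))
      _ = ENNReal.ofReal (A / (1 - Real.exp (-a)) * Real.exp (-a * n)) := by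
          rw [← ENNReal.ofReal_tsum_of_nonneg (fun k => by positivity) (hgeo n).summable,
            (hgeo n).tsum_eq]
  have hint : ∀ n : ℕ, Integrable (fun ω => (f n ω - g ω) ^ 2) μ := by
    intro n
    refine ⟨(((hf n).sub hg).pow_const 2).aestronglyMeasurable, ?_⟩
    rw [hasFiniteIntegral_iff_ofReal (Eventually.of_forall fun ω => sq_nonneg _)]
    exact lt_of_le_of_lt (hlint n) ENNReal.ofReal_lt_top
  have hf0 : Integrable (fun ω => f 0 ω ^ 2) μ := by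
    refine Integrable.of_bound ((hf 0).pow_const 2).aestronglyMeasurable (B 0 ^ 2)
      (Eventually.of_forall fun ω => ?_)
    rw [Real.norm_eq_abs, abs_pow]
    exact pow_le_pow_left₀ (abs_nonneg _) (hfB 0 ω) 2
  refine ⟨g, hg, ?_, fun n => ⟨hint n, ?_⟩⟩
  · refine Integrable.mono' ((hf0.const_mul 2).add ((hint 0).const_mul 2))
      (hg.pow_const 2).aestronglyMeasurable (Eventually.of_forall fun ω => ?_)
    rw [Real.norm_eq_abs, abs_of_nonneg (sq_nonneg _)]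
    show g ω ^ 2 ≤ 2 * f 0 ω ^ 2 + 2 * (f 0 ω - g ω) ^ 2
    nlinarith [sq_nonneg (2 * f 0 ω - g ω), sq_nonneg (f 0 ω - (f 0 ω - g ω) * (-1))]
  · rw [integral_eq_lintegral_of_nonneg_ae (Eventually.of_forall fun ω => sq_nonneg _)
      (hint n).aestronglyMeasurable]
    refine ENNReal.toReal_le_of_le_ofReal ?_ (hlint n)
    have : 0 < A / (1 - Real.exp (-a)) := div_pos hA he0
    positivity


variable {d : ℕ} {p : unitInterval} {K : ℕ} {C c : ℝ}

/-- the local path rule at scale `ρ` -/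
noncomputable def pfγ (K ρ : ℕ) (η : Dir d) (ω : Om d) : List (Dir d) :=
  spl ((2 * K * ρ + 1) ^ d) ω (rl ρ ω) (st η + rl ρ (sh (st η) ω))

/-- its radius -/
def pfR (d K ρ : ℕ) : ℕ := (2 * K * ρ + 1) ^ d + 4 * ρ + 4

theorem pf_st_mem (η : Dir d) : st η ∈ Bx 1 (0 : V d) := by
  have h := add_st_mem_Bx (0 : V d) η
  rwa [zero_add] at h

theorem pf_rule (ρ : ℕ) (η : Dir d) :
    PathRule (pfR d K ρ) 1 (fun _ : Om d => (1 : ℝ)) (rl ρ) (pfγ K ρ η) where
  locb := fun _ _ _ => rfl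
  locs := by
    intro ω ω' h
    refine Loc_rl ρ ω ω' fun e he => h e ?_
    exact EB_mono (by unfold pfR; omega) _ he
  locγ := by
    intro ω ω' h
    have h1 : rl ρ ω = rl ρ ω' := by
      refine Loc_rl ρ ω ω' fun e he => h e ?_
      exact EB_mono (by unfold pfR; omega) _ he
    have h2 : rl ρ (sh (st η) ω) = rl ρ (sh (st η) ω') := by
      refine Loc_sh (2 * ρ) (0 : V d) (st η) (Loc_rl ρ) ω ω' fun e he => h e ?_
      rw [zero_add] at he
      have h3 := EB_subset (r := 2 * ρ) (pf_st_mem η) he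
      exact EB_mono (by unfold pfR; omega) _ h3
    have h3 : spl ((2 * K * ρ + 1) ^ d) ω (rl ρ ω) (st η + rl ρ (sh (st η) ω))
        = spl ((2 * K * ρ + 1) ^ d) ω' (rl ρ ω) (st η + rl ρ (sh (st η) ω)) := by
      refine Loc_spl _ _ _ ω ω' fun e he => h e ?_
      have h4 := EB_subset (r := (2 * K * ρ + 1) ^ d) (rl_mem ρ ω) he
      exact EB_mono (by unfold pfR; omega) _ h4
    show pfγ K ρ η ω = pfγ K ρ η ω'
    unfold pfγ
    rw [h3, h1, h2]
  smem := fun ω => Bx_mono (by unfold pfR; omega) _ (rl_mem ρ ω)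
  len := fun ω => (spl_length _ _ _ _).trans (by unfold pfR; omega)
  op := fun ω => spl_open _ _ _ _
  hB := zero_le_one
  hb := fun ω => by simp

/-- the good event: local and global objects agree -/
def pfE (K ρ : ℕ) (η : Dir d) : Set (Om d) :=
  {ω | rl ρ ω = rg ω ∧ rl ρ (sh (st η) ω) = rg (sh (st η) ω) ∧ InfC ω (rg ω) ∧
    JoinIn ω (Bx (K * ρ) (0 : V d) : Set (V d)) (rg ω) (st η + rg (sh (st η) ω))}

theorem pf_meas_rl (ρ : ℕ) : Measurable (rl ρ : Om d → V d) :=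
  Loc.measurable (EB (2 * ρ) (0 : V d)) (Loc_rl ρ)

/-- a measurable family of sets evaluated at a measurable random vertex -/
theorem pf_meas_comp (Q : V d → Set (Om d)) (hQ : ∀ x, MeasurableSet (Q x)) (f : Om d → V d)
    (hf : Measurable f) : MeasurableSet {ω | ω ∈ Q (f ω)} := by
  have h : {ω | ω ∈ Q (f ω)} = ⋃ x : V d, (f ⁻¹' {x}) ∩ Q x := by
    ext ω
    simp
  rw [h]
  exact MeasurableSet.iUnion fun x => (hf (measurableSet_singleton x)).inter (hQ x)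

theorem pf_meas_eq (f g : Om d → V d) (hf : Measurable f) (hg : Measurable g) :
    MeasurableSet {ω | f ω = g ω} := by
  have h : {ω | f ω = g ω} = ⋃ x : V d, (f ⁻¹' {x}) ∩ (g ⁻¹' {x}) := by
    ext ω
    simp [eq_comm]
  rw [h]
  exact MeasurableSet.iUnion fun x =>
    (hf (measurableSet_singleton x)).inter (hg (measurableSet_singleton x))

theorem pf_measE (K ρ : ℕ) (η : Dir d) : MeasurableSet (pfE K ρ η) := by
  have h1 : MeasurableSet {ω : Om d | rl ρ ω = rg ω} :=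
    pf_meas_eq _ _ (pf_meas_rl ρ) measurable_rg
  have h2 : MeasurableSet {ω : Om d | rl ρ (sh (st η) ω) = rg (sh (st η) ω)} :=
    (measurable_sh (st η)) h1
  have h3 : MeasurableSet {ω : Om d | InfC ω (rg ω)} :=
    pf_meas_comp (fun x => {ω | InfC ω x}) measurableSet_InfC rg measurable_rg
  have hg2 : Measurable (fun ω : Om d => st η + rg (sh (st η) ω)) :=
    (measurable_rg.comp (measurable_sh (st η))).const_add _
  have h4 : MeasurableSet {ω : Om d | JoinIn ω (Bx (K * ρ) (0 : V d) : Set (V d)) (rg ω)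
      (st η + rg (sh (st η) ω))} := by
    have h5 : ∀ x : V d, MeasurableSet {ω : Om d | JoinIn ω (Bx (K * ρ) (0 : V d) : Set (V d)) x
      (st η + rg (sh (st η) ω))} := fun x =>
      pf_meas_comp (fun y => {ω | JoinIn ω (Bx (K * ρ) (0 : V d) : Set (V d)) x y})
        (fun y => measurableSet_JoinIn _ x y) _ hg2
    exact pf_meas_comp (fun x => {ω : Om d | JoinIn ω (Bx (K * ρ) (0 : V d) : Set (V d)) x
      (st η + rg (sh (st η) ω))}) h5 rg measurable_rg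
  exact h1.inter (h2.inter (h3.inter h4))

theorem pfE_prob (hH : HypH d p K C c) (η : Dir d) : ∃ A a : ℝ, 0 < A ∧ 0 < a ∧ ∀ ρ : ℕ,
    (Pr d p).real (pfE K ρ η)ᶜ ≤ A * Real.exp (-a * ρ) := by
  obtain ⟨A1, a1, hA1, ha1, h1⟩ := rl_eq hH
  obtain ⟨A2, a2, hA2, ha2, h2⟩ := roots_joined hH η
  refine ⟨2 * A1 + A2, min a1 a2, by positivity, lt_min ha1 ha2, fun ρ => ?_⟩
  have hm : MeasurableSet {ω : Om d | rl ρ ω ≠ rg ω} :=
    (pf_meas_eq _ _ (pf_meas_rl ρ) measurable_rg).compl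
  have hsub : (pfE K ρ η)ᶜ ⊆ ({ω : Om d | rl ρ ω ≠ rg ω} ∪
      (sh (st η)) ⁻¹' {ω : Om d | rl ρ ω ≠ rg ω}) ∪
      {ω : Om d | ¬ (rg ω ∈ Bx ρ (0 : V d) ∧ InfC ω (rg ω) ∧
        JoinIn ω (Bx (K * ρ) (0 : V d) : Set (V d)) (rg ω) (st η + rg (sh (st η) ω)))} := by
    intro ω hω
    by_contra hcon
    simp only [Set.mem_union, Set.mem_preimage, Set.mem_ofPred_eq, not_or, not_not] at hcon
    exact hω ⟨hcon.1.1, hcon.1.2, hcon.2.2⟩
  have h3 : (Pr d p).real ((sh (st η)) ⁻¹' {ω : Om d | rl ρ ω ≠ rg ω})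
      = (Pr d p).real {ω : Om d | rl ρ ω ≠ rg ω} := by
    rw [measureReal_def, measureReal_def, (mp_sh p (st η)).measure_preimage hm.nullMeasurableSet]
  have e1 : Real.exp (-a1 * ρ) ≤ Real.exp (-(min a1 a2) * ρ) := by
    apply Real.exp_le_exp.2
    have := min_le_left a1 a2
    have h4 : (0 : ℝ) ≤ ρ := Nat.cast_nonneg ρ
    nlinarith
  have e2 : Real.exp (-a2 * ρ) ≤ Real.exp (-(min a1 a2) * ρ) := by
    apply Real.exp_le_exp.2
    have := min_le_right a1 a2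
    have h4 : (0 : ℝ) ≤ ρ := Nat.cast_nonneg ρ
    nlinarith
  calc (Pr d p).real (pfE K ρ η)ᶜ
      ≤ (Pr d p).real (({ω : Om d | rl ρ ω ≠ rg ω} ∪
      (sh (st η)) ⁻¹' {ω : Om d | rl ρ ω ≠ rg ω}) ∪
      {ω : Om d | ¬ (rg ω ∈ Bx ρ (0 : V d) ∧ InfC ω (rg ω) ∧
        JoinIn ω (Bx (K * ρ) (0 : V d) : Set (V d)) (rg ω) (st η + rg (sh (st η) ω)))}) :=
        measureReal_mono hsub (measure_ne_top _ _)
    _ ≤ ((Pr d p).real {ω : Om d | rl ρ ω ≠ rg ω} +
      (Pr d p).real ((sh (st η)) ⁻¹' {ω : Om d | rl ρ ω ≠ rg ω})) +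
      (Pr d p).real {ω : Om d | ¬ (rg ω ∈ Bx ρ (0 : V d) ∧ InfC ω (rg ω) ∧
        JoinIn ω (Bx (K * ρ) (0 : V d) : Set (V d)) (rg ω) (st η + rg (sh (st η) ω)))} :=
        (measureReal_union_le _ _).trans (by gcongr; exact measureReal_union_le _ _)
    _ ≤ (A1 * Real.exp (-a1 * ρ) + A1 * Real.exp (-a1 * ρ)) + A2 * Real.exp (-a2 * ρ) := by
        rw [h3]
        have := h1 ρ
        have := h2 ρ
        gcongr
    _ ≤ (2 * A1 + A2) * Real.exp (-(min a1 a2) * ρ) := by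
        nlinarith

theorem pfE_spec (ρ : ℕ) (η : Dir d) (ω : Om d) (h : ω ∈ pfE K ρ η) :
    pfγ K ρ η ω = sp ω (rg ω) (st η + rg (sh (st η) ω)) ∧
    endp (rl ρ ω) (pfγ K ρ η ω) = st η + rl ρ (sh (st η) ω) := by
  obtain ⟨h1, h2, h3, h4⟩ := h
  have h5 := sp_length_of_joinIn ω (K * ρ) (0 : V d) _ _ h4
  have h6 : pfγ K ρ η ω = sp ω (rg ω) (st η + rg (sh (st η) ω)) := by
    unfold pfγ spl
    rw [h1, h2, if_pos]
    rw [← mul_assoc] at h5
    exact h5
  refine ⟨h6, ?_⟩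
  rw [h6, h1, h2]
  exact (sp_spec ω _ _ (JoinIn.conn ω h4)).2

theorem pf_div (ρ : ℕ) (η : Dir d) (ω : Om d)
    (h : ∀ z ∈ Bx (2 * pfR d K ρ) (0 : V d), sh z ω ∈ pfE K ρ η) :
    ∑ δ, SF (pfR d K ρ) (fun _ => (1 : ℝ)) (rl ρ) (pfγ K ρ η) ω δ = 0 := by
  rw [SF_div]
  set f : V d → ℝ := fun z => if z + rl ρ (sh z ω) = 0 then 1 else 0 with hf
  have hf0 : ∀ z, z ∉ Bx ρ (0 : V d) → f z = 0 := by
    intro z hz
    simp only [hf]
    rw [if_neg]
    intro hcon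
    apply hz
    have h1 := rl_mem ρ (sh z ω)
    rw [mem_Bx] at h1 ⊢
    intro i
    have h2 := h1 i
    have h3 : z i + rl ρ (sh z ω) i = 0 := by
      have := congrFun hcon i
      simpa using this
    have h4 : z i = - rl ρ (sh z ω) i := by linarith
    simp only [Pi.zero_apply, sub_zero] at h2 ⊢
    rw [h4, abs_neg]
    exact h2
  have h1 : ∀ z ∈ Bx (2 * pfR d K ρ) (0 : V d),
      (1 : ℝ) * ((if z + rl ρ (sh z ω) = 0 then 1 else 0)
        - (if endp (z + rl ρ (sh z ω)) (pfγ K ρ η (sh z ω)) = 0 then 1 else 0))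
      = f z - f (z + st η) := by
    intro z hz
    have h2 := (pfE_spec ρ η (sh z ω) (h z hz)).2
    have h3 : endp (z + rl ρ (sh z ω)) (pfγ K ρ η (sh z ω))
        = (z + st η) + rl ρ (sh (z + st η) ω) := by
      rw [add_comm z (rl ρ (sh z ω)), endp_add, h2, sh_sh, add_comm (st η) z]
      abel
    rw [one_mul, h3]
  rw [Finset.sum_congr rfl h1, Finset.sum_sub_distrib, sub_eq_zero]
  have h5 : ∑ z ∈ Bx (2 * pfR d K ρ) (0 : V d), f z = ∑ z ∈ Bx ρ (0 : V d), f z := by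
    symm
    apply Finset.sum_subset (Bx_mono (by unfold pfR; omega) _)
    intro z _ hz
    exact hf0 z hz
  have h6 : ∑ z ∈ Bx (2 * pfR d K ρ) (0 : V d), f (z + st η) = ∑ z ∈ Bx ρ (0 : V d), f z := by
    have h7 : ∑ z ∈ Bx (2 * pfR d K ρ) (0 : V d), f (z + st η)
        = ∑ z ∈ (Bx (2 * pfR d K ρ) (0 : V d)).map (addRightEmbedding (st η)), f z := by
      rw [Finset.sum_map]
      rfl
    rw [h7]
    symm
    apply Finset.sum_subset
    · intro z hz
      rw [Finset.mem_map]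
      refine ⟨z - st η, ?_, by simp⟩
      have h8 := mem_Bx.1 hz
      have h9 := mem_Bx.1 (pf_st_mem η)
      rw [mem_Bx]
      intro i
      have h10 := h8 i
      have h11 := h9 i
      simp only [Pi.zero_apply, sub_zero, Pi.sub_apply] at h10 h11 ⊢
      have h12 : (1 : ℤ) + ρ ≤ ((2 * pfR d K ρ : ℕ) : ℤ) := by
        unfold pfR
        exact_mod_cast (by omega : 1 + ρ ≤ 2 * ((2 * K * ρ + 1) ^ d + 4 * ρ + 4))
      calc |z i - st η i| ≤ |z i| + |st η i| := abs_sub _ _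
        _ ≤ ρ + 1 := add_le_add h10 (by exact_mod_cast h11)
        _ ≤ _ := by linarith
    · intro z _ hz
      exact hf0 z hz
  rw [h5, h6]


/-! ### polynomial bounds -/

/-- `f` is bounded by a polynomial -/
def pfPoly (f : ℕ → ℕ) : Prop := ∃ c k : ℕ, ∀ n, 1 ≤ n → f n ≤ c * n ^ k

theorem pfPoly.const (m : ℕ) : pfPoly (fun _ => m) := ⟨m, 0, fun n _ => by simp⟩

theorem pfPoly.id : pfPoly (fun n => n) := ⟨1, 1, fun n _ => by simp⟩

theorem pfPoly.add {f g : ℕ → ℕ} (hf : pfPoly f) (hg : pfPoly g) :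
    pfPoly (fun n => f n + g n) := by
  obtain ⟨c1, k1, h1⟩ := hf
  obtain ⟨c2, k2, h2⟩ := hg
  refine ⟨c1 + c2, max k1 k2, fun n hn => ?_⟩
  rw [add_mul]
  refine add_le_add ((h1 n hn).trans ?_) ((h2 n hn).trans ?_)
  · exact Nat.mul_le_mul_left _ (Nat.pow_le_pow_right hn (le_max_left _ _))
  · exact Nat.mul_le_mul_left _ (Nat.pow_le_pow_right hn (le_max_right _ _))

theorem pfPoly.mul {f g : ℕ → ℕ} (hf : pfPoly f) (hg : pfPoly g) :
    pfPoly (fun n => f n * g n) := by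
  obtain ⟨c1, k1, h1⟩ := hf
  obtain ⟨c2, k2, h2⟩ := hg
  refine ⟨c1 * c2, k1 + k2, fun n hn => ?_⟩
  calc f n * g n ≤ (c1 * n ^ k1) * (c2 * n ^ k2) := Nat.mul_le_mul (h1 n hn) (h2 n hn)
    _ = c1 * c2 * n ^ (k1 + k2) := by ring

theorem pfPoly.pow {f : ℕ → ℕ} (hf : pfPoly f) (m : ℕ) : pfPoly (fun n => f n ^ m) := by
  induction m with
  | zero => simpa using pfPoly.const 1
  | succ m ih =>
    have := ih.mul hf
    simpa [pow_succ] using this

theorem pfPoly.pfR (d K : ℕ) : pfPoly (fun n => pfR d K n) := by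
  unfold Ein99.pfR
  exact ((((pfPoly.const (2 * K)).mul pfPoly.id).add (pfPoly.const 1)).pow d).add
    ((pfPoly.const 4).mul pfPoly.id) |>.add (pfPoly.const 4)

/-- polynomial bounds and exponential decay in real form -/
theorem pfPoly.decay {f : ℕ → ℕ} (hf : pfPoly f) (A a : ℝ) (hA : 0 ≤ A) (ha : 0 < a) :
    ∃ A0 : ℝ, 0 < A0 ∧ ∀ n : ℕ, 1 ≤ n →
      (f n : ℝ) * (A * Real.exp (-a * n)) ≤ A0 * Real.exp (-(a / 2) * n) := by
  obtain ⟨c, k, h⟩ := hf
  obtain ⟨A0, hA0, h0⟩ := pf_poly_exp (c * A) k a ha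
  refine ⟨A0, hA0, fun n hn => le_trans ?_ (h0 n)⟩
  have h1 : (f n : ℝ) ≤ c * (n : ℝ) ^ k := by exact_mod_cast h n hn
  calc (f n : ℝ) * (A * Real.exp (-a * n))
      ≤ (c * (n : ℝ) ^ k) * (A * Real.exp (-a * n)) :=
        mul_le_mul_of_nonneg_right h1 (mul_nonneg hA (Real.exp_pos _).le)
    _ = c * A * (n : ℝ) ^ k * Real.exp (-a * n) := by ring

theorem pfR_mono {d K : ℕ} : Monotone (pfR d K) := by
  intro m n h
  unfold pfR
  have h1 : (2 * K * m + 1) ^ d ≤ (2 * K * n + 1) ^ d :=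
    Nat.pow_le_pow_left (by nlinarith [Nat.mul_le_mul_left (2 * K) h]) d
  omega

/-! ### the sequence of flows -/

/-- the flow at scale `ρ` -/
noncomputable def pfJ (K ρ : ℕ) (η : Dir d) : Fld d :=
  SF (pfR d K ρ) (fun _ => (1 : ℝ)) (rl ρ) (pfγ K ρ η)

theorem pf_window {R R' : ℕ} {B : ℝ} {b : Om d → ℝ} {s : Om d → V d} {γ : Om d → List (Dir d)}
    (h : PathRule R B b s γ) (hR : R ≤ R') (ω : Om d) (δ : Dir d) :
    SF R b s γ ω δ = ∑ z ∈ Bx (2 * R') (0 : V d),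
      b (sh z ω) * cnt 0 δ (z + s (sh z ω)) (γ (sh z ω)) := by
  unfold SF
  apply Finset.sum_subset (Bx_mono (by omega) _)
  intro z _ hz
  rw [cnt_eq_zero_of_far, mul_zero]
  intro hcon
  apply hz
  have h1 : (0 : V d) ∈ Bx R (z + s (sh z ω)) := Bx_mono (h.len _) _ hcon
  have h2 : z + s (sh z ω) ∈ Bx R z := by
    have h3 := mem_Bx.1 (h.smem (sh z ω))
    rw [mem_Bx]
    intro i
    have h4 := h3 i
    simp only [Pi.zero_apply, sub_zero, Pi.add_apply, add_sub_cancel_left] at h4 ⊢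
    exact h4
  have h5 := Bx_trans h2 h1
  rw [← two_mul] at h5
  exact Bx_comm.1 h5

theorem pf_step (ρ : ℕ) (η : Dir d) (ω : Om d)
    (h : ∀ z ∈ Bx (2 * pfR d K (ρ + 1)) (0 : V d), sh z ω ∈ pfE K ρ η ∩ pfE K (ρ + 1) η)
    (δ : Dir d) : pfJ K ρ η ω δ = pfJ K (ρ + 1) η ω δ := by
  unfold pfJ
  rw [pf_window (pf_rule ρ η) (pfR_mono (Nat.le_succ ρ)) ω δ,
    pf_window (pf_rule (ρ + 1) η) (le_refl _) ω δ]
  refine Finset.sum_congr rfl fun z hz => ?_
  obtain ⟨h1, h2⟩ := h z hz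
  have h3 := (pfE_spec ρ η (sh z ω) h1).1
  have h4 := (pfE_spec (ρ + 1) η (sh z ω) h2).1
  rw [h3, h4, h1.1, h2.1]

theorem pf_box_prob (E : Set (Om d)) (hE : MeasurableSet E) (r : ℕ) :
    (Pr d p).real {ω | ¬ ∀ z ∈ Bx r (0 : V d), sh z ω ∈ E}
      ≤ ((2 * r + 1) ^ d : ℕ) * (Pr d p).real Eᶜ := by
  have h1 : {ω : Om d | ¬ ∀ z ∈ Bx r (0 : V d), sh z ω ∈ E}
      = ⋃ z ∈ Bx r (0 : V d), (sh z) ⁻¹' Eᶜ := by
    ext ω
    simp
  rw [h1]
  refine (measureReal_biUnion_finset_le _ _).trans ?_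
  have h2 : ∀ z ∈ Bx r (0 : V d), (Pr d p).real ((sh z) ⁻¹' Eᶜ) = (Pr d p).real Eᶜ := by
    intro z _
    rw [measureReal_def, measureReal_def, (mp_sh p z).measure_preimage hE.compl.nullMeasurableSet]
  rw [Finset.sum_congr rfl h2, Finset.sum_const, card_Bx, nsmul_eq_mul]

theorem pfJ_meas (ρ : ℕ) (η δ : Dir d) : Measurable (fun ω => pfJ K ρ η ω δ) :=
  Loc.measurable _ (SF_loc (pf_rule ρ η) δ)

/-- the bound of the flow -/
def pfB (d K ρ : ℕ) : ℕ := (4 * pfR d K ρ + 1) ^ d * pfR d K ρ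

theorem pfJ_bound (ρ : ℕ) (η : Dir d) (ω : Om d) (δ : Dir d) :
    |pfJ K ρ η ω δ| ≤ (pfB d K ρ : ℝ) := by
  refine (SF_bound (pf_rule ρ η) ω δ).trans (le_of_eq ?_)
  unfold pfB
  push_cast
  ring

theorem pfB_mono {d K : ℕ} : Monotone (pfB d K) := by
  intro m n h
  unfold pfB
  have h1 := pfR_mono (d := d) (K := K) h
  exact Nat.mul_le_mul (Nat.pow_le_pow_left (by omega) d) h1

theorem one_le_pfB (d K n : ℕ) : 1 ≤ pfB d K n := by
  unfold pfB
  have h1 : 1 ≤ pfR d K n := by unfold pfR; omega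
  exact Nat.mul_pos (Nat.pow_pos (by omega)) h1

theorem pfPoly.shift {f : ℕ → ℕ} (hf : pfPoly f) : pfPoly (fun n => f (n + 1)) := by
  obtain ⟨c, k, h⟩ := hf
  refine ⟨c * 2 ^ k, k, fun n hn => (h (n + 1) (by omega)).trans ?_⟩
  rw [mul_assoc, ← mul_pow]
  exact Nat.mul_le_mul_left _ (Nat.pow_le_pow_left (by omega) k)


theorem pf_step_prob (hH : HypH d p K C c) (η : Dir d) : ∃ A a : ℝ, 0 < A ∧ 0 < a ∧
    ∀ (n : ℕ) (δ : Dir d),
    (2 * (pfB d K (n + 1) : ℝ)) ^ 2 *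
      (Pr d p).real {ω : Om d | pfJ K n η ω δ ≠ pfJ K (n + 1) η ω δ} ≤ A * Real.exp (-a * n) := by
  obtain ⟨A1, a1, hA1, ha1, h1⟩ := pfE_prob (K := K) hH η
  have hpoly : pfPoly (fun n => (2 * pfB d K (n + 1)) ^ 2 * (2 * (2 * pfR d K (n + 1)) + 1) ^ d) := by
    have hR : pfPoly (fun n => pfR d K (n + 1)) := (pfPoly.pfR d K).shift
    have hB : pfPoly (fun n => pfB d K (n + 1)) := by
      unfold pfB
      exact ((((pfPoly.const 4).mul hR).add (pfPoly.const 1)).pow d).mul hR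
    exact (((pfPoly.const 2).mul hB).pow 2).mul
      ((((pfPoly.const 2).mul ((pfPoly.const 2).mul hR)).add (pfPoly.const 1)).pow d)
  obtain ⟨A0, hA0, h0⟩ := hpoly.decay (2 * A1) a1 (by positivity) ha1
  refine ⟨max A0 ((2 * (pfB d K 1 : ℝ)) ^ 2), a1 / 2, lt_max_of_lt_left hA0, by positivity,
    fun n δ => ?_⟩
  rcases Nat.eq_zero_or_pos n with rfl | hn
  · have h2 : (Pr d p).real {ω : Om d | pfJ K 0 η ω δ ≠ pfJ K (0 + 1) η ω δ} ≤ 1 := measureReal_le_one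
    have h3 : Real.exp (-(a1 / 2) * ((0 : ℕ) : ℝ)) = 1 := by simp
    rw [h3, mul_one, zero_add]
    refine le_trans ?_ (le_max_right _ _)
    have h4 : (0 : ℝ) ≤ (2 * (pfB d K 1 : ℝ)) ^ 2 := sq_nonneg _
    calc _ ≤ (2 * (pfB d K 1 : ℝ)) ^ 2 * 1 := mul_le_mul_of_nonneg_left h2 h4
      _ = _ := mul_one _
  · have hE : MeasurableSet (pfE K n η ∩ pfE K (n + 1) η) :=
      (pf_measE K n η).inter (pf_measE K (n + 1) η)
    have h2 : (Pr d p).real {ω : Om d | pfJ K n η ω δ ≠ pfJ K (n + 1) η ω δ} ≤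
        ((2 * (2 * pfR d K (n + 1)) + 1) ^ d : ℕ) * (2 * A1 * Real.exp (-a1 * n)) := by
      calc (Pr d p).real {ω : Om d | pfJ K n η ω δ ≠ pfJ K (n + 1) η ω δ}
          ≤ (Pr d p).real {ω | ¬ ∀ z ∈ Bx (2 * pfR d K (n + 1)) (0 : V d),
              sh z ω ∈ pfE K n η ∩ pfE K (n + 1) η} := by
            refine measureReal_mono ?_ (measure_ne_top _ _)
            intro ω hω hcon
            exact hω (pf_step n η ω hcon δ)
        _ ≤ ((2 * (2 * pfR d K (n + 1)) + 1) ^ d : ℕ) *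
              (Pr d p).real (pfE K n η ∩ pfE K (n + 1) η)ᶜ := pf_box_prob _ hE _
        _ ≤ _ := by
            refine mul_le_mul_of_nonneg_left ?_ (Nat.cast_nonneg _)
            rw [Set.compl_inter]
            refine (measureReal_union_le _ _).trans ?_
            have h3 := h1 n
            have h4 := h1 (n + 1)
            have h5 : Real.exp (-a1 * ((n + 1 : ℕ) : ℝ)) ≤ Real.exp (-a1 * n) := by
              apply Real.exp_le_exp.2
              push_cast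
              nlinarith
            nlinarith
    calc (2 * (pfB d K (n + 1) : ℝ)) ^ 2 *
          (Pr d p).real {ω : Om d | pfJ K n η ω δ ≠ pfJ K (n + 1) η ω δ}
        ≤ (2 * (pfB d K (n + 1) : ℝ)) ^ 2 *
          (((2 * (2 * pfR d K (n + 1)) + 1) ^ d : ℕ) * (2 * A1 * Real.exp (-a1 * n))) :=
          mul_le_mul_of_nonneg_left h2 (sq_nonneg _)
      _ = (((2 * pfB d K (n + 1)) ^ 2 * (2 * (2 * pfR d K (n + 1)) + 1) ^ d : ℕ) : ℝ) *
          (2 * A1 * Real.exp (-a1 * n)) := by push_cast; ring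
      _ ≤ A0 * Real.exp (-(a1 / 2) * n) := h0 n hn
      _ ≤ _ := mul_le_mul_of_nonneg_right (le_max_left _ _) (Real.exp_pos _).le

theorem pf_L2 (hH : HypH d p K C c) (η : Dir d) : ∃ (I : Fld d) (A a : ℝ), 0 < A ∧ 0 < a ∧
    (∀ δ, Measurable (fun ω => I ω δ)) ∧ (∀ δ, Integrable (fun ω => I ω δ ^ 2) (Pr d p)) ∧
    ∀ (n : ℕ) (δ : Dir d), Integrable (fun ω => (pfJ K n η ω δ - I ω δ) ^ 2) (Pr d p) ∧
      ∫ ω, (pfJ K n η ω δ - I ω δ) ^ 2 ∂(Pr d p) ≤ A * Real.exp (-a * n) := by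
  obtain ⟨A, a, hA, ha, h⟩ := pf_step_prob hH η
  have h1 : ∀ δ : Dir d, ∃ g : Om d → ℝ, Measurable g ∧ Integrable (fun ω => g ω ^ 2) (Pr d p) ∧
      ∀ n, Integrable (fun ω => (pfJ K n η ω δ - g ω) ^ 2) (Pr d p) ∧
      ∫ ω, (pfJ K n η ω δ - g ω) ^ 2 ∂(Pr d p) ≤ A / (1 - Real.exp (-a)) * Real.exp (-a * n) := by
    intro δ
    refine pf_limit (Pr d p) (fun n ω => pfJ K n η ω δ) (fun n => pfJ_meas n η δ)
      (fun n => (pfB d K n : ℝ)) ?_ ?_ (fun n ω => pfJ_bound n η ω δ) A a hA ha (fun n => h n δ)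
    · intro m n hmn
      show (pfB d K m : ℝ) ≤ (pfB d K n : ℝ)
      exact_mod_cast pfB_mono hmn
    · intro n
      exact_mod_cast one_le_pfB d K n
  choose g hg1 hg2 hg3 using h1
  have he1 : Real.exp (-a) < 1 := by rw [Real.exp_lt_one_iff]; linarith
  exact ⟨fun ω δ => g δ ω, A / (1 - Real.exp (-a)), a, div_pos hA (by linarith), ha,
    hg1, hg2, fun n δ => hg3 δ n⟩

theorem pf_nu (F : Fld d) (hF : ∀ δ, Measurable (fun ω => F ω δ))
    (hF2 : ∀ δ, Integrable (fun ω => F ω δ ^ 2) (Pr d p)) :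
    Integrable (fun ω => ∑ δ, oo ω δ * F ω δ ^ 2) (nu d p) ∧
    ∫ ω, ∑ δ, oo ω δ * F ω δ ^ 2 ∂(nu d p) ≤ ∑ δ, ∫ ω, F ω δ ^ 2 ∂(Pr d p) := by
  have h1 : ∀ δ, Integrable (fun ω => oo ω δ * F ω δ ^ 2) (Pr d p) := by
    intro δ
    refine Integrable.mono' (hF2 δ) ((measurable_oo δ).mul ((hF δ).pow_const 2)).aestronglyMeasurable
      (Eventually.of_forall fun ω => ?_)
    rw [Real.norm_eq_abs, abs_mul, abs_of_nonneg (sq_nonneg (F ω δ))]
    have h2 : |oo ω δ| ≤ 1 := by unfold oo; split_ifs <;> simp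
    calc |oo ω δ| * F ω δ ^ 2 ≤ 1 * F ω δ ^ 2 := mul_le_mul_of_nonneg_right h2 (sq_nonneg _)
      _ = _ := one_mul _
  have h3 : Integrable (fun ω => ∑ δ, oo ω δ * F ω δ ^ 2) (Pr d p) :=
    integrable_finsetSum _ fun δ _ => h1 δ
  have hoo : ∀ (ω : Om d) (δ : Dir d), 0 ≤ oo ω δ ∧ oo ω δ ≤ 1 := by
    intro ω δ; unfold oo; split_ifs <;> simp
  refine ⟨h3.mono_measure Measure.restrict_le_self, ?_⟩
  calc ∫ ω, ∑ δ, oo ω δ * F ω δ ^ 2 ∂(nu d p)
      ≤ ∫ ω, ∑ δ, oo ω δ * F ω δ ^ 2 ∂(Pr d p) :=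
        setIntegral_le_integral h3 (Eventually.of_forall fun ω =>
          Finset.sum_nonneg fun δ _ => mul_nonneg (hoo ω δ).1 (sq_nonneg _))
    _ = ∑ δ, ∫ ω, oo ω δ * F ω δ ^ 2 ∂(Pr d p) := integral_finsetSum _ fun δ _ => h1 δ
    _ ≤ ∑ δ, ∫ ω, F ω δ ^ 2 ∂(Pr d p) := by
        refine Finset.sum_le_sum fun δ _ => integral_mono (h1 δ) (hF2 δ) fun ω => ?_
        show oo ω δ * F ω δ ^ 2 ≤ F ω δ ^ 2
        calc oo ω δ * F ω δ ^ 2 ≤ 1 * F ω δ ^ 2 :=
              mul_le_mul_of_nonneg_right (hoo ω δ).2 (sq_nonneg _)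
          _ = _ := one_mul _

/-- exponential decays with a common parameter -/
theorem pf_exp_le (A0 a : ℝ) (ha : 0 < a) (A : ℕ) (h1 : A0 ≤ A) (h2 : 1 / a ≤ A) (hA : 1 ≤ A)
    (ρ : ℕ) : A0 * Real.exp (-a * ρ) ≤ A * Real.exp (-(ρ : ℝ) / A) := by
  have hA' : (0 : ℝ) < A := by exact_mod_cast hA
  have h3 : Real.exp (-a * ρ) ≤ Real.exp (-(ρ : ℝ) / A) := by
    apply Real.exp_le_exp.2
    rw [neg_div, neg_mul, neg_le_neg_iff, div_le_iff₀ hA']
    have h4 : 1 ≤ a * A := by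
      rw [div_le_iff₀ ha] at h2
      linarith
    have h5 : (0 : ℝ) ≤ ρ := Nat.cast_nonneg ρ
    nlinarith
  calc A0 * Real.exp (-a * ρ) ≤ A * Real.exp (-a * ρ) :=
        mul_le_mul_of_nonneg_right h1 (Real.exp_pos _).le
    _ ≤ _ := mul_le_mul_of_nonneg_left h3 hA'.le

theorem pf_pow_le {c k A : ℕ} (h1 : c ≤ A) (h2 : k ≤ A) (ρ : ℕ) (hρ : 1 ≤ ρ) :
    c * ρ ^ k ≤ A * ρ ^ A :=
  Nat.mul_le_mul h1 (Nat.pow_le_pow_right hρ h2)

theorem pf_div_prob (hH : HypH d p K C c) (η : Dir d) : ∃ A a : ℝ, 0 < A ∧ 0 < a ∧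
    ∀ n : ℕ, 1 ≤ n →
    (Pr d p).real {ω : Om d | ∑ δ, pfJ K n η ω δ ≠ 0} ≤ A * Real.exp (-a * n) := by
  obtain ⟨A1, a1, hA1, ha1, h1⟩ := pfE_prob (K := K) hH η
  have hpoly : pfPoly (fun n => (2 * (2 * pfR d K n) + 1) ^ d) :=
    (((pfPoly.const 2).mul ((pfPoly.const 2).mul (pfPoly.pfR d K))).add (pfPoly.const 1)).pow d
  obtain ⟨A0, hA0, h0⟩ := hpoly.decay A1 a1 hA1.le ha1
  refine ⟨A0, a1 / 2, hA0, by positivity, fun n hn => ?_⟩
  calc (Pr d p).real {ω : Om d | ∑ δ, pfJ K n η ω δ ≠ 0}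
      ≤ (Pr d p).real {ω | ¬ ∀ z ∈ Bx (2 * pfR d K n) (0 : V d), sh z ω ∈ pfE K n η} := by
        refine measureReal_mono ?_ (measure_ne_top _ _)
        intro ω hω hcon
        exact hω (pf_div n η ω hcon)
    _ ≤ ((2 * (2 * pfR d K n) + 1) ^ d : ℕ) * (Pr d p).real (pfE K n η)ᶜ :=
        pf_box_prob _ (pf_measE K n η) _
    _ ≤ ((2 * (2 * pfR d K n) + 1) ^ d : ℕ) * (A1 * Real.exp (-a1 * n)) :=
        mul_le_mul_of_nonneg_left (h1 n) (Nat.cast_nonneg _)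
    _ ≤ _ := h0 n hn

open Classical in
theorem pf_pair_lim (hH : HypH d p K C c) (η : Dir d) (G : Fld d) (hG : SqI p G)
    (hGa : AntiAE p G) :
    Tendsto (fun n => ∫ ω, (if InfC ω (rl n ω) then (1 : ℝ) * Gs G ω (rl n ω) (pfγ K n η ω) else 0)
      ∂(Pr d p)) atTop (𝓝 (∫ ω, Phi G (st η) ω ∂(Pr d p))) := by
  obtain ⟨A1, a1, hA1, ha1, h1⟩ := pfE_prob (K := K) hH η
  have hPhi := phi_integrable hH G hG η
  have hX : ∀ n, Integrable (fun ω => if InfC ω (rl n ω) then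
      (1 : ℝ) * Gs G ω (rl n ω) (pfγ K n η ω) else 0) (Pr d p) := fun n =>
    (SF_pair (pf_rule n η) G hG hGa).1
  have hEq : ∀ n, ∀ ω ∈ pfE K n η, (if InfC ω (rl n ω) then
      (1 : ℝ) * Gs G ω (rl n ω) (pfγ K n η ω) else 0) = Phi G (st η) ω := by
    intro n ω hω
    have h2 := (pfE_spec n η ω hω).1
    rw [h2, hω.1, if_pos hω.2.2.1, one_mul]
    rfl
  rw [tendsto_iff_dist_tendsto_zero]
  obtain ⟨Ec, hEc⟩ : ∃ Ec : ℕ → Set (Om d), ∀ n, Ec n = (pfE K n η)ᶜ := ⟨fun n => (pfE K n η)ᶜ, fun _ => rfl⟩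
  have hEm : ∀ n, MeasurableSet (Ec n) := fun n => by
    rw [hEc]; exact (pf_measE K n η).compl
  have h1' : ∀ n : ℕ, (Pr d p).real (Ec n) ≤ A1 * Real.exp (-a1 * n) := fun n => by
    rw [hEc]; exact h1 n
  have hmem : ∀ n ω, ω ∈ Ec n ↔ ω ∉ pfE K n η := fun n ω => by rw [hEc]; exact Iff.rfl
  -- the two error terms
  set e1 : ℕ → ℝ := fun n => ∫ ω, (if ω ∈ (Ec n) ∧ InfC ω (rl n ω) then
    |Gs G ω (rl n ω) (pfγ K n η ω)| else 0) ∂(Pr d p) with he1
  set e2 : ℕ → ℝ := fun n => ∫ ω in (Ec n), |Phi G (st η) ω| ∂(Pr d p) with he2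
  have hgs : ∀ n, Integrable (fun ω => if ω ∈ (Ec n) ∧ InfC ω (rl n ω) then
      |Gs G ω (rl n ω) (pfγ K n η ω)| else 0) (Pr d p) ∧
      e1 n ≤ Real.sqrt ((Pr d p).real (Ec n)) *
        (pfR d K n * Real.sqrt ((4 * pfR d K n + 1) ^ d * ip p G G)) := by
    intro n
    have hr := pf_rule (d := d) (K := K) n η
    exact gs_bound G hG (pfR d K n) (rl n) (pf_meas_rl n) (pfγ K n η)
      (Loc.measurable _ hr.locγ) _ (hEm n) (fun ω _ => hr.smem ω) (fun ω _ => hr.len ω)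
      (fun ω _ => hr.op ω)
  have hbound : ∀ n, dist (∫ ω, (if InfC ω (rl n ω) then
      (1 : ℝ) * Gs G ω (rl n ω) (pfγ K n η ω) else 0) ∂(Pr d p))
      (∫ ω, Phi G (st η) ω ∂(Pr d p)) ≤ e1 n + e2 n := by
    intro n
    rw [Real.dist_eq, ← integral_sub (hX n) hPhi]
    refine (abs_integral_le_integral_abs).trans ?_
    have h3 : e2 n = ∫ ω, (Ec n).indicator (fun ω => |Phi G (st η) ω|) ω ∂(Pr d p) := by
      rw [integral_indicator (hEm n)]
    rw [h3, he1, ← integral_add (hgs n).1 (hPhi.abs.indicator (hEm n))]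
    refine integral_mono ((hX n).sub hPhi).abs ((hgs n).1.add (hPhi.abs.indicator (hEm n)))
      fun ω => ?_
    show |(if InfC ω (rl n ω) then (1 : ℝ) * Gs G ω (rl n ω) (pfγ K n η ω) else 0)
      - Phi G (st η) ω| ≤ (if ω ∈ (Ec n) ∧ InfC ω (rl n ω) then
      |Gs G ω (rl n ω) (pfγ K n η ω)| else 0) +
      (Ec n).indicator (fun ω => |Phi G (st η) ω|) ω
    by_cases hω : ω ∈ pfE K n η
    · rw [hEq n ω hω, sub_self, abs_zero, if_neg (fun hc => (hmem n ω).1 hc.1 hω),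
        Set.indicator_of_notMem (fun hc => (hmem n ω).1 hc hω), add_zero]
    · have hω : ω ∈ Ec n := (hmem n ω).2 hω
      rw [Set.indicator_of_mem hω]
      by_cases hI : InfC ω (rl n ω)
      · rw [if_pos hI, if_pos ⟨hω, hI⟩, one_mul]
        exact abs_sub _ _
      · rw [if_neg hI, if_neg (fun hc => hI hc.2), zero_add, zero_sub, abs_neg]
  -- probabilities tend to zero
  have hexp : ∀ b : ℝ, 0 < b → Tendsto (fun n : ℕ => Real.exp (-b * n)) atTop (𝓝 0) := by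
    intro b hb
    have h4 : Tendsto (fun n : ℕ => -b * (n : ℝ)) atTop atBot := by
      refine Tendsto.const_mul_atTop_of_neg (by linarith) tendsto_natCast_atTop_atTop
    exact Real.tendsto_exp_atBot.comp h4
  have hP : Tendsto (fun n => (Pr d p).real (Ec n)) atTop (𝓝 0) := by
    refine squeeze_zero (fun n => measureReal_nonneg) h1' ?_
    have := (hexp a1 ha1).const_mul A1
    rwa [mul_zero] at this
  have hP' : Tendsto ((Pr d p : Measure (Om d)) ∘ fun n => (Ec n)) atTop (𝓝 0) := by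
    have h5 : (Pr d p : Measure (Om d)) ∘ (fun n => (Ec n))
        = fun n => ENNReal.ofReal ((Pr d p).real (Ec n)) := by
      funext n
      simp only [Function.comp_apply, measureReal_def]
      rw [ENNReal.ofReal_toReal (measure_ne_top _ _)]
    rw [h5, ← ENNReal.ofReal_zero]
    exact (ENNReal.continuous_ofReal.tendsto 0).comp hP
  have hE2 : Tendsto e2 atTop (𝓝 0) := hPhi.abs.tendsto_setIntegral_nhds_zero hP'
  have hE1 : Tendsto e1 atTop (𝓝 0) := by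
    have hpoly : pfPoly (fun n => pfR d K n ^ 2 * (4 * pfR d K n + 1) ^ d) :=
      ((pfPoly.pfR d K).pow 2).mul ((((pfPoly.const 4).mul (pfPoly.pfR d K)).add
        (pfPoly.const 1)).pow d)
    obtain ⟨A0, hA0, h0⟩ := hpoly.decay (A1 * ip p G G) a1
      (mul_nonneg hA1.le (ip_self_nonneg G)) ha1
    have h6 : ∀ᶠ n : ℕ in atTop, e1 n ≤ Real.sqrt (A0 * Real.exp (-(a1 / 2) * n)) := by
      filter_upwards [eventually_ge_atTop 1] with n hn
      refine (hgs n).2.trans ?_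
      have h7 : (0 : ℝ) ≤ (Pr d p).real (Ec n) := measureReal_nonneg
      have h8 : (pfR d K n : ℝ) = Real.sqrt ((pfR d K n : ℝ) ^ 2) :=
        (Real.sqrt_sq (Nat.cast_nonneg _)).symm
      rw [h8, ← Real.sqrt_mul (sq_nonneg _), ← Real.sqrt_mul h7]
      apply Real.sqrt_le_sqrt
      rw [← h8]
      have h9 := ip_self_nonneg (p := p) G
      calc (Pr d p).real (Ec n) *
            ((pfR d K n : ℝ) ^ 2 * ((4 * (pfR d K n : ℝ) + 1) ^ d * ip p G G))
          ≤ (A1 * Real.exp (-a1 * n)) *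
            ((pfR d K n : ℝ) ^ 2 * ((4 * (pfR d K n : ℝ) + 1) ^ d * ip p G G)) :=
            mul_le_mul_of_nonneg_right (h1' n) (by positivity)
        _ = ((pfR d K n ^ 2 * (4 * pfR d K n + 1) ^ d : ℕ) : ℝ) *
            (A1 * ip p G G * Real.exp (-a1 * n)) := by push_cast; ring
        _ ≤ _ := h0 n hn
    have h10 : ∀ n, 0 ≤ e1 n := by
      intro n
      refine integral_nonneg fun ω => ?_
      show 0 ≤ (if ω ∈ (Ec n) ∧ InfC ω (rl n ω) then
        |Gs G ω (rl n ω) (pfγ K n η ω)| else 0)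
      split_ifs
      · exact abs_nonneg _
      · exact le_refl _
    refine tendsto_of_tendsto_of_tendsto_of_le_of_le' tendsto_const_nhds ?_
      (Eventually.of_forall h10) h6
    have h11 : Tendsto (fun n : ℕ => Real.sqrt (A0 * Real.exp (-(a1 / 2) * n))) atTop
        (𝓝 (Real.sqrt (A0 * 0))) :=
      (Real.continuous_sqrt.tendsto _).comp ((hexp (a1 / 2) (by positivity)).const_mul A0)
    simpa using h11
  refine squeeze_zero (fun n => dist_nonneg) hbound ?_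
  simpa using hE1.add hE2

theorem path_flow (hH : HypH d p K C c) (η : Dir d) :
    ∃ I : Fld d, Adm p I ∧ ∀ G : Fld d, SqI p G → AntiAE p G →
      ip p G I = 2 * ∫ ω, Phi G (st η) ω ∂(Pr d p) := by
  obtain ⟨I, A1, a1, hA1, ha1, hIm, hI2, hIJ⟩ := pf_L2 hH η
  obtain ⟨A2, a2, hA2, ha2, hdiv⟩ := pf_div_prob hH η
  have hIs : Integrable (fun ω => ∑ δ, oo ω δ * I ω δ ^ 2) (nu d p) := (pf_nu I hIm hI2).1
  have hJI : ∀ n : ℕ, Integrable (fun ω => ∑ δ, oo ω δ * (pfJ K n η ω δ - I ω δ) ^ 2) (nu d p) ∧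
      ∫ ω, ∑ δ, oo ω δ * (pfJ K n η ω δ - I ω δ) ^ 2 ∂(nu d p)
        ≤ (Fintype.card (Dir d) * A1) * Real.exp (-a1 * n) := by
    intro n
    have h1 := pf_nu (p := p) (fun ω δ => pfJ K n η ω δ - I ω δ)
      (fun δ => (pfJ_meas n η δ).sub (hIm δ)) (fun δ => (hIJ n δ).1)
    refine ⟨h1.1, h1.2.trans ?_⟩
    calc ∑ δ, ∫ ω, (pfJ K n η ω δ - I ω δ) ^ 2 ∂(Pr d p)
        ≤ ∑ _δ : Dir d, A1 * Real.exp (-a1 * n) := Finset.sum_le_sum fun δ _ => (hIJ n δ).2
      _ = _ := by rw [Finset.sum_const, nsmul_eq_mul, Finset.card_univ]; ring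
  -- polynomial bounds
  obtain ⟨c1, k1, hc1⟩ := (pfPoly.const 3).mul (pfPoly.pfR d K)
  have hB : pfPoly (fun n => pfB d K n) := by
    unfold pfB
    exact ((((pfPoly.const 4).mul (pfPoly.pfR d K)).add (pfPoly.const 1)).pow d).mul
      (pfPoly.pfR d K)
  obtain ⟨c2, k2, hc2⟩ := hB
  obtain ⟨A, hA⟩ := exists_nat_ge (max (max A2 (1 / a2))
    (max (Fintype.card (Dir d) * A1) (1 / a1)))
  set A' : ℕ := A + c1 + k1 + c2 + k2 + 1 with hA'
  have hAA : (A : ℝ) ≤ A' := by exact_mod_cast (by omega : A ≤ A')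
  have hA'1 : 1 ≤ A' := by omega
  have b1 : A2 ≤ A' := ((le_max_left _ _).trans (le_max_left _ _)).trans (hA.trans hAA)
  have b2 : 1 / a2 ≤ A' := ((le_max_right _ _).trans (le_max_left _ _)).trans (hA.trans hAA)
  have b3 : Fintype.card (Dir d) * A1 ≤ A' :=
    ((le_max_left _ _).trans (le_max_right _ _)).trans (hA.trans hAA)
  have b4 : 1 / a1 ≤ A' := ((le_max_right _ _).trans (le_max_right _ _)).trans (hA.trans hAA)
  refine ⟨I, ⟨A', hA'1, hIm, hIs, fun ρ hρ => ⟨pfJ K ρ η, ?_, ?_, ?_, ?_, ?_, ?_⟩⟩, ?_⟩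
  · intro δ
    refine (SF_loc (pf_rule ρ η) δ).mono ?_
    exact_mod_cast EB_mono ((hc1 ρ hρ).trans (pf_pow_le (by omega) (by omega) ρ hρ)) (0 : V d)
  · intro ω δ
    refine (pfJ_bound ρ η ω δ).trans ?_
    exact_mod_cast (hc2 ρ hρ).trans (pf_pow_le (by omega) (by omega) ρ hρ)
  · exact SF_anti (pf_rule ρ η)
  · exact SF_supp (pf_rule ρ η)
  · exact (hdiv ρ hρ).trans (pf_exp_le A2 a2 ha2 A' b1 b2 hA'1 ρ)
  · exact (hJI ρ).2.trans (pf_exp_le _ a1 ha1 A' b3 b4 hA'1 ρ)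
  · -- the pairing
    intro G hG hGa
    classical
    have hIsq : SqI p I := ⟨hIm, hIs⟩
    have hJsq : ∀ n, SqI p (pfJ K n η : Fld d) := fun n => SF_sqI p (pf_rule n η)
    have hpair : ∀ n, ip p G (pfJ K n η) = 2 * ∫ ω, (if InfC ω (rl n ω) then
        (1 : ℝ) * Gs G ω (rl n ω) (pfγ K n η ω) else 0) ∂(Pr d p) := fun n =>
      (SF_pair (pf_rule n η) G hG hGa).2
    have hlim1 : Tendsto (fun n => ip p G (pfJ K n η)) atTop
        (𝓝 (2 * ∫ ω, Phi G (st η) ω ∂(Pr d p))) := by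
      have h1 := (pf_pair_lim hH η G hG hGa).const_mul 2
      refine h1.congr fun n => (hpair n).symm
    have hlim2 : Tendsto (fun n => ip p G (pfJ K n η)) atTop (𝓝 (ip p G I)) := by
      rw [tendsto_iff_dist_tendsto_zero]
      have h2 : ∀ n, dist (ip p G (pfJ K n η)) (ip p G I) ≤
          Real.sqrt (ip p G G) *
            Real.sqrt ((Fintype.card (Dir d) * A1) * Real.exp (-a1 * n)) := by
        intro n
        rw [Real.dist_eq, ip_comm G, ip_comm G I, ← ip_sub_left (hJsq n) hIsq hG]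
        refine (ip_cs ((hJsq n).sub hIsq) hG).trans ?_
        rw [mul_comm]
        refine mul_le_mul_of_nonneg_left (Real.sqrt_le_sqrt ?_) (Real.sqrt_nonneg _)
        refine le_trans (le_of_eq ?_) (hJI n).2
        unfold ip
        refine integral_congr_ae (Eventually.of_forall fun ω => ?_)
        refine Finset.sum_congr rfl fun δ _ => ?_
        ring
      refine squeeze_zero (fun n => dist_nonneg) h2 ?_
      have h4 : Tendsto (fun n : ℕ => -a1 * (n : ℝ)) atTop atBot :=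
        Tendsto.const_mul_atTop_of_neg (by linarith) tendsto_natCast_atTop_atTop
      have h5 := Real.tendsto_exp_atBot.comp h4
      have h6 : Tendsto (fun n : ℕ => Real.sqrt (ip p G G) *
            Real.sqrt ((Fintype.card (Dir d) * A1) * Real.exp (-a1 * n))) atTop
          (𝓝 (Real.sqrt (ip p G G) * Real.sqrt ((Fintype.card (Dir d) * A1) * 0))) :=
        ((Real.continuous_sqrt.tendsto _).comp (h5.const_mul _)).const_mul _
      simpa using h6
    exact tendsto_nhds_unique hlim2 hlim1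

end Ein99
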