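import Pool.Agent.LibEin99.F_Pair
import Pool.Agent.LibEin99.E_Root

/-!
TASK F_PhiL1. The potential difference between neighbouring roots is integrable.

`gs_bound`: an open walk of length `≤ R` from `s ω ∈ Bx R 0` in the infinite cluster:
`|Gs G ω s γ| ≤ ∑_{steps} |G| ≤ R · (∑_{a ∈ Bx (2R) 0} 1{InfC ω a} ∑_δ 1{opn ω a δ} G(sh a ω)δ²)^{1/2}`
(each `|G|` is at most the square root of the sum); Cauchy-Schwarz in `ω` and invariance:
`E ∑_{a} ... = (4R+1)^d ip p G G`.
`roots_joined`: for `k ≥ 3` suppose `LG K ω m 0` for all `m ≥ k-2` and `LG K ω m (st η)` for all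
`m ≥ k - 2`. Then `rg ω ∈ Bx (k-2) 0` and `rg (sh (st η) ω) ∈ Bx (k-2) 0` (`chain_infC`), so both
points are in `Bx k 0`, in infinite clusters, joined inside `Bx (K k) 0` (`chain_join`). Use
`tail_from` and `ae_exists`.
`phi_integrable`: split according to the smallest `k` for which the event of `roots_joined` holds
(`P(k > j) ≤ A e^{-aj}`; a.s. finite); on `{k}` the path `sp` has length `≤ (2Kk+1)^d`
(`sp_length_of_joinIn`); apply `gs_bound` on each piece (`E = {smallest = k}`,
`s = rg`, replaced by `0` outside `E`) and sum the series.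
-/

open MeasureTheory ProbabilityTheory Filter Topology

namespace Ein99

variable {d : ℕ} {p : unitInterval} {K : ℕ} {C c : ℝ}

private theorem ooN (ω : Om d) (δ : Dir d) : 0 ≤ oo ω δ := by
  unfold oo; split_ifs <;> norm_num

open Classical in
/-- the square of the field at the origin, on the infinite cluster -/
private noncomputable def TT (G : Fld d) (ω : Om d) : ℝ :=
  if InfC ω 0 then ∑ δ, oo ω δ * G ω δ ^ 2 else 0

private theorem TT_nonneg (G : Fld d) (ω : Om d) : 0 ≤ TT G ω := by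
  unfold TT
  split_ifs
  · exact Finset.sum_nonneg fun δ _ => mul_nonneg (ooN ω δ) (sq_nonneg _)
  · exact le_rfl

private theorem TT_eq (G : Fld d) : TT G =
    Set.indicator {ω : Om d | InfC ω 0} (fun ω => ∑ δ, oo ω δ * G ω δ ^ 2) := by
  classical
  funext ω
  unfold TT
  by_cases h : InfC ω 0
  · rw [if_pos h, Set.indicator_of_mem (show ω ∈ {ω : Om d | InfC ω 0} from h)]
  · rw [if_neg h, Set.indicator_of_notMem (show ω ∉ {ω : Om d | InfC ω 0} from h)]

private theorem TT_meas (G : Fld d) (hG : ∀ δ, Measurable (fun ω => G ω δ)) :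
    Measurable (TT G) := by
  rw [TT_eq]
  refine Measurable.indicator ?_ (measurableSet_InfC 0)
  exact Finset.measurable_sum _ fun δ _ => (measurable_oo δ).mul ((hG δ).pow_const 2)

private theorem TT_int (G : Fld d) (hG : SqI p G) :
    Integrable (TT G) (Pr d p) ∧ ∫ ω, TT G ω ∂(Pr d p) = ip p G G := by
  have h := hG.2
  unfold nu at h
  rw [TT_eq]
  refine ⟨(integrable_indicator_iff (measurableSet_InfC 0)).mpr h, ?_⟩
  rw [integral_indicator (measurableSet_InfC 0)]
  unfold ip nu
  refine integral_congr_ae (Eventually.of_forall fun ω => ?_)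
  simp only [sq]

/-- the sum over a box -/
private noncomputable def SS (G : Fld d) (R : ℕ) (ω : Om d) : ℝ :=
  ∑ a ∈ Bx (2 * R) (0 : V d), TT G (sh a ω)

private theorem SS_nonneg (G : Fld d) (R : ℕ) (ω : Om d) : 0 ≤ SS G R ω :=
  Finset.sum_nonneg fun _ _ => TT_nonneg G _

private theorem SS_meas (G : Fld d) (hG : ∀ δ, Measurable (fun ω => G ω δ)) (R : ℕ) :
    Measurable (SS G R) :=
  Finset.measurable_sum _ fun a _ => (TT_meas G hG).comp (measurable_sh a)

private theorem SS_int (G : Fld d) (hG : SqI p G) (R : ℕ) :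
    Integrable (SS G R) (Pr d p) ∧
      ∫ ω, SS G R ω ∂(Pr d p) = (4 * R + 1) ^ d * ip p G G := by
  obtain ⟨h1, h2⟩ := TT_int G hG
  have h3 : ∀ a : V d, Integrable (fun ω => TT G (sh a ω)) (Pr d p) := fun a =>
    (mp_sh p a).integrable_comp_of_integrable h1
  have h4 : ∀ a : V d, ∫ ω, TT G (sh a ω) ∂(Pr d p) = ip p G G := by
    intro a
    rw [← h2]
    conv_rhs => rw [← map_sh p a]
    rw [integral_map (measurable_sh a).aemeasurable
      (TT_meas G hG.1).aestronglyMeasurable]
  refine ⟨integrable_finsetSum _ fun a _ => h3 a, ?_⟩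
  unfold SS
  rw [integral_finsetSum _ fun a _ => h3 a]
  simp_rw [h4]
  rw [Finset.sum_const, card_Bx, nsmul_eq_mul]
  push_cast
  ring

private theorem G_le_SS (G : Fld d) (R : ℕ) (ω : Om d) (x : V d) (δ : Dir d)
    (hx : x ∈ Bx (2 * R) (0 : V d)) (hi : InfC ω x) (ho : opn ω x δ) :
    |G (sh x ω) δ| ≤ Real.sqrt (SS G R ω) := by
  refine Real.le_sqrt_of_sq_le ?_
  rw [sq_abs]
  have h1 : TT G (sh x ω) ≤ SS G R ω :=
    Finset.single_le_sum (f := fun a => TT G (sh a ω)) (fun _ _ => TT_nonneg G _) hx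
  refine le_trans ?_ h1
  have hi' : InfC (sh x ω) 0 := (InfC_sh ω x 0).mpr (by rw [zero_add]; exact hi)
  have ho' : opn (sh x ω) 0 δ := (opn_sh ω x 0 δ).mpr (by rw [zero_add]; exact ho)
  unfold TT
  rw [if_pos hi']
  have h2 : oo (sh x ω) δ * G (sh x ω) δ ^ 2 ≤ ∑ δ, oo (sh x ω) δ * G (sh x ω) δ ^ 2 :=
    Finset.single_le_sum (f := fun δ => oo (sh x ω) δ * G (sh x ω) δ ^ 2)
      (fun δ _ => mul_nonneg (ooN _ δ) (sq_nonneg _)) (Finset.mem_univ δ)
  refine le_trans (le_of_eq ?_) h2
  unfold oo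
  rw [if_pos ho', one_mul]

private theorem Gs_le (G : Fld d) (R : ℕ) (ω : Om d) (L : List (Dir d)) :
    ∀ (x : V d) (r : ℕ), x ∈ Bx r (0 : V d) → r + L.length ≤ 2 * R → InfC ω x → OpenL ω x L →
      |Gs G ω x L| ≤ L.length * Real.sqrt (SS G R ω) := by
  induction L with
  | nil =>
    intro x r _ _ _ _
    simp [Gs]
  | cons δ L ih =>
    intro x r hx hr hi ho
    rw [List.length_cons] at hr ⊢
    have h1 : x + st δ ∈ Bx (r + 1) (0 : V d) := by
      have := Bx_trans hx (add_st_mem_Bx x δ)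
      exact this
    have h2 : InfC ω (x + st δ) :=
      InfC_of_conn ω (Relation.ReflTransGen.single ⟨δ, ho.1, rfl⟩) hi
    have h3 := ih (x + st δ) (r + 1) h1 (by omega) h2 ho.2
    have h4 := G_le_SS G R ω x δ (Bx_mono (by omega) _ hx) hi ho.1
    have h5 : Gs G ω x (δ :: L) = G (sh x ω) δ + Gs G ω (x + st δ) L := rfl
    rw [h5]
    refine (abs_add_le _ _).trans ?_
    push_cast
    linarith

private theorem meas_InfC (s : Om d → V d) (hs : Measurable s) :
    MeasurableSet {ω : Om d | InfC ω (s ω)} := by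
  have h : {ω : Om d | InfC ω (s ω)} = ⋃ x : V d, (s ⁻¹' {x} ∩ {ω : Om d | InfC ω x}) := by
    ext ω
    simp only [Set.mem_ofPred_eq, Set.mem_iUnion, Set.mem_inter_iff, Set.mem_preimage,
      Set.mem_singleton_iff]
    constructor
    · intro h
      exact ⟨s ω, rfl, h⟩
    · rintro ⟨x, rfl, h⟩
      exact h
  rw [h]
  exact MeasurableSet.iUnion fun x => (hs (measurableSet_singleton x)).inter
    (measurableSet_InfC x)

private theorem meas_JoinIn (S : Set (V d)) (s t : Om d → V d) (hs : Measurable s)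
    (ht : Measurable t) : MeasurableSet {ω : Om d | JoinIn ω S (s ω) (t ω)} := by
  have h : {ω : Om d | JoinIn ω S (s ω) (t ω)} =
      ⋃ x : V d, ⋃ y : V d, (s ⁻¹' {x} ∩ (t ⁻¹' {y} ∩ {ω : Om d | JoinIn ω S x y})) := by
    ext ω
    simp only [Set.mem_ofPred_eq, Set.mem_iUnion, Set.mem_inter_iff, Set.mem_preimage,
      Set.mem_singleton_iff]
    constructor
    · intro h
      exact ⟨s ω, t ω, rfl, rfl, h⟩
    · rintro ⟨x, y, rfl, rfl, h⟩
      exact h
  rw [h]
  exact MeasurableSet.iUnion fun x => MeasurableSet.iUnion fun y =>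
    (hs (measurableSet_singleton x)).inter ((ht (measurableSet_singleton y)).inter
    (measurableSet_JoinIn S x y))

private theorem meas_sp (s t : Om d → V d) (hs : Measurable s) (ht : Measurable t) :
    Measurable (fun ω : Om d => sp ω (s ω) (t ω)) := by
  intro W hW
  have h : (fun ω : Om d => sp ω (s ω) (t ω)) ⁻¹' W =
      ⋃ x : V d, ⋃ y : V d, (s ⁻¹' {x} ∩ (t ⁻¹' {y} ∩ (fun ω : Om d => sp ω x y) ⁻¹' W)) := by
    ext ω
    simp only [Set.mem_iUnion, Set.mem_inter_iff, Set.mem_preimage,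
      Set.mem_singleton_iff]
    constructor
    · intro h
      exact ⟨s ω, t ω, rfl, rfl, h⟩
    · rintro ⟨x, y, rfl, rfl, h⟩
      exact h
  rw [h]
  exact MeasurableSet.iUnion fun x => MeasurableSet.iUnion fun y =>
    (hs (measurableSet_singleton x)).inter ((ht (measurableSet_singleton y)).inter
    (measurable_sp x y hW))

open Classical in
theorem gs_bound (G : Fld d) (hG : SqI p G) (R : ℕ) (s : Om d → V d) (hs : Measurable s)
    (γ : Om d → List (Dir d)) (hγ : Measurable γ) (E : Set (Om d)) (hE : MeasurableSet E)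
    (h1 : ∀ ω ∈ E, s ω ∈ Bx R (0 : V d)) (h2 : ∀ ω ∈ E, (γ ω).length ≤ R)
    (h3 : ∀ ω ∈ E, OpenL ω (s ω) (γ ω)) :
    Integrable (fun ω => if ω ∈ E ∧ InfC ω (s ω) then |Gs G ω (s ω) (γ ω)| else 0) (Pr d p) ∧
    ∫ ω, (if ω ∈ E ∧ InfC ω (s ω) then |Gs G ω (s ω) (γ ω)| else 0) ∂(Pr d p)
      ≤ Real.sqrt ((Pr d p).real E) * (R * Real.sqrt ((4 * R + 1) ^ d * ip p G G)) := by
  obtain ⟨hS1, hS2⟩ := SS_int G hG R
  have hSm := SS_meas G hG.1 R
  -- pointwise bound
  have hpt : ∀ ω, (if ω ∈ E ∧ InfC ω (s ω) then |Gs G ω (s ω) (γ ω)| else 0) ≤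
      R * (E.indicator (fun _ => (1 : ℝ)) ω * Real.sqrt (SS G R ω)) := by
    intro ω
    by_cases h : ω ∈ E ∧ InfC ω (s ω)
    · rw [if_pos h, Set.indicator_of_mem h.1, one_mul]
      refine (Gs_le G R ω (γ ω) (s ω) R (h1 ω h.1) (by have := h2 ω h.1; omega) h.2
        (h3 ω h.1)).trans ?_
      exact mul_le_mul_of_nonneg_right (by exact_mod_cast h2 ω h.1) (Real.sqrt_nonneg _)
    · rw [if_neg h]
      refine mul_nonneg (Nat.cast_nonneg _) (mul_nonneg ?_ (Real.sqrt_nonneg _))
      exact Set.indicator_nonneg (fun _ _ => zero_le_one) _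
  have hnn : ∀ ω, 0 ≤ (if ω ∈ E ∧ InfC ω (s ω) then |Gs G ω (s ω) (γ ω)| else 0) := by
    intro ω
    split_ifs
    · exact abs_nonneg _
    · exact le_rfl
  have hmeas : Measurable (fun ω => if ω ∈ E ∧ InfC ω (s ω) then |Gs G ω (s ω) (γ ω)| else 0) :=
    Measurable.ite (hE.inter (meas_InfC s hs))
      (measurable_Gs' G hG.1 s hs γ hγ).abs measurable_const
  -- the two factors
  have hf : MemLp (E.indicator (fun _ => (1 : ℝ))) 2 (Pr d p) :=
    (memLp_const 1).indicator hE
  have hg : MemLp (fun ω => Real.sqrt (SS G R ω)) 2 (Pr d p) := by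
    rw [memLp_two_iff_integrable_sq hSm.sqrt.aestronglyMeasurable]
    refine hS1.congr (Eventually.of_forall fun ω => ?_)
    simp only
    rw [Real.sq_sqrt (SS_nonneg G R ω)]
  have hfg : Integrable (fun ω => E.indicator (fun _ => (1 : ℝ)) ω * Real.sqrt (SS G R ω))
      (Pr d p) := hf.integrable_mul hg
  have hint : Integrable
      (fun ω => if ω ∈ E ∧ InfC ω (s ω) then |Gs G ω (s ω) (γ ω)| else 0) (Pr d p) := by
    refine (hfg.const_mul (R : ℝ)).mono' hmeas.aestronglyMeasurable
      (Eventually.of_forall fun ω => ?_)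
    rw [Real.norm_of_nonneg (hnn ω)]
    exact hpt ω
  refine ⟨hint, ?_⟩
  refine (integral_mono hint (hfg.const_mul (R : ℝ)) hpt).trans ?_
  rw [integral_const_mul]
  have hcs := integral_mul_le_Lp_mul_Lq_of_nonneg (μ := Pr d p) Real.HolderConjugate.two_two
    (f := E.indicator (fun _ => (1 : ℝ))) (g := fun ω => Real.sqrt (SS G R ω))
    (Eventually.of_forall fun ω => Set.indicator_nonneg (fun _ _ => zero_le_one) _)
    (Eventually.of_forall fun ω => Real.sqrt_nonneg _)
    (by rw [show ENNReal.ofReal 2 = 2 by norm_num]; exact hf)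
    (by rw [show ENNReal.ofReal 2 = 2 by norm_num]; exact hg)
  have e1 : ∫ ω, (E.indicator (fun _ => (1 : ℝ)) ω) ^ (2 : ℝ) ∂(Pr d p) = (Pr d p).real E := by
    rw [← integral_indicator_one hE]
    refine integral_congr_ae (Eventually.of_forall fun ω => ?_)
    simp only
    by_cases h : ω ∈ E
    · rw [Set.indicator_of_mem h, Set.indicator_of_mem h, Real.one_rpow]; rfl
    · rw [Set.indicator_of_notMem h, Set.indicator_of_notMem h,
        Real.zero_rpow (by norm_num)]
  have e2 : ∫ ω, (Real.sqrt (SS G R ω)) ^ (2 : ℝ) ∂(Pr d p) = (4 * R + 1) ^ d * ip p G G := by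
    rw [← hS2]
    refine integral_congr_ae (Eventually.of_forall fun ω => ?_)
    simp only
    rw [Real.rpow_two, Real.sq_sqrt (SS_nonneg G R ω)]
  rw [e1, e2, ← Real.sqrt_eq_rpow, ← Real.sqrt_eq_rpow] at hcs
  calc (R : ℝ) * ∫ ω, E.indicator (fun _ => (1 : ℝ)) ω * Real.sqrt (SS G R ω) ∂(Pr d p)
      ≤ R * (Real.sqrt ((Pr d p).real E) * Real.sqrt ((4 * R + 1) ^ d * ip p G G)) :=
        mul_le_mul_of_nonneg_left hcs (Nat.cast_nonneg _)
    _ = _ := by ring

/-- the two roots are joined inside a box with exponential tails -/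
theorem roots_joined (hH : HypH d p K C c) (η : Dir d) : ∃ A a : ℝ, 0 < A ∧ 0 < a ∧ ∀ k : ℕ,
    (Pr d p).real {ω : Om d | ¬ (rg ω ∈ Bx k (0 : V d) ∧ InfC ω (rg ω) ∧
        JoinIn ω (Bx (K * k) (0 : V d) : Set (V d)) (rg ω) (st η + rg (sh (st η) ω)))}
      ≤ A * Real.exp (-a * k) := by
  have hc := hH.hc
  have hC := hH.hC
  have hexp : Real.exp (-c) < 1 := by
    rw [Real.exp_lt_one_iff]; linarith
  have hden : 0 < 1 - Real.exp (-c) := by linarith
  refine ⟨Real.exp (2 * c) * (2 * (C / (1 - Real.exp (-c))) + 1), c, by positivity, hc, ?_⟩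
  intro k
  by_cases hk : k < 3
  · have h1 : (Pr d p).real {ω : Om d | ¬ (rg ω ∈ Bx k (0 : V d) ∧ InfC ω (rg ω) ∧
        JoinIn ω (Bx (K * k) (0 : V d) : Set (V d)) (rg ω) (st η + rg (sh (st η) ω)))} ≤ 1 :=
      measureReal_le_one
    refine h1.trans ?_
    have h2 : (k : ℝ) ≤ 2 := by exact_mod_cast (by omega : k ≤ 2)
    have h3 : 1 ≤ Real.exp (2 * c) * Real.exp (-c * k) := by
      rw [← Real.exp_add, Real.one_le_exp_iff]
      nlinarith
    have h4 : 0 ≤ C / (1 - Real.exp (-c)) := by positivity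
    calc (1 : ℝ) ≤ Real.exp (2 * c) * Real.exp (-c * k) := h3
      _ = Real.exp (2 * c) * 1 * Real.exp (-c * k) := by ring
      _ ≤ _ := by
        refine mul_le_mul_of_nonneg_right ?_ (Real.exp_pos _).le
        exact mul_le_mul_of_nonneg_left (by linarith) (Real.exp_pos _).le
  · rw [not_lt] at hk
    have hroot : ∀ ω : Om d, (∀ m, k - 2 ≤ m → LG K ω m 0) →
        InfC ω (rg ω) ∧ rg ω ∈ Bx (k - 2) (0 : V d) := by
      intro ω h
      obtain ⟨x, hx, hxi⟩ := chain_infC K hH.hK ω 0 (k - 2) (by omega) h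
      obtain ⟨h1, h2⟩ := rg_spec ω ⟨x, hxi⟩
      refine ⟨h1, Bx_mono ?_ _ h2⟩
      exact Nat.sInf_le ⟨x, hx, hxi⟩
    have hsub : {ω : Om d | ¬ (rg ω ∈ Bx k (0 : V d) ∧ InfC ω (rg ω) ∧
        JoinIn ω (Bx (K * k) (0 : V d) : Set (V d)) (rg ω) (st η + rg (sh (st η) ω)))} ⊆
        {ω : Om d | ∃ m, k - 2 ≤ m ∧ ¬ LG K ω m 0} ∪
        {ω : Om d | ∃ m, k - 2 ≤ m ∧ ¬ LG K ω m (st η)} := by
      intro ω hω
      by_contra hcon
      rw [Set.mem_union, not_or] at hcon
      obtain ⟨ha, hb⟩ := hcon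
      apply hω
      have ha' : ∀ m, k - 2 ≤ m → LG K ω m 0 := by
        intro m hm
        by_contra h
        exact ha ⟨m, hm, h⟩
      have hb' : ∀ m, k - 2 ≤ m → LG K (sh (st η) ω) m 0 := by
        intro m hm
        rw [LG_sh, zero_add]
        by_contra h
        exact hb ⟨m, hm, h⟩
      obtain ⟨h1, h2⟩ := hroot ω ha'
      obtain ⟨h3, h4⟩ := hroot _ hb'
      rw [InfC_sh, add_comm] at h3
      have h5 : st η + rg (sh (st η) ω) ∈ Bx k (0 : V d) := by
        have := Bx_trans h4 (add_st_mem_Bx (rg (sh (st η) ω)) η)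
        rw [add_comm (st η)]
        exact Bx_mono (by omega) _ this
      exact ⟨Bx_mono (by omega) _ h2, h1,
        chain_join K hH.hK ω 0 k (ha' k (by omega)) _ _ (Bx_mono (by omega) _ h2) h5 h1 h3⟩
    refine (measureReal_mono hsub).trans ((measureReal_union_le _ _).trans ?_)
    have h1 := tail_from hH (k - 2) (0 : V d)
    have h2 := tail_from hH (k - 2) (st η : V d)
    have h3 : ((k - 2 : ℕ) : ℝ) = k - 2 := by
      rw [Nat.cast_sub (by omega)]; norm_num
    rw [h3] at h1 h2
    have h4 : Real.exp (-c * ((k : ℝ) - 2)) = Real.exp (2 * c) * Real.exp (-c * k) := by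
      rw [← Real.exp_add]
      ring_nf
    rw [h4] at h1 h2
    have h5 : 0 ≤ Real.exp (2 * c) * Real.exp (-c * k) := by positivity
    nlinarith

theorem phi_integrable (hH : HypH d p K C c) (G : Fld d) (hG : SqI p G) (η : Dir d) :
    Integrable (Phi G (st η)) (Pr d p) := by
  classical
  obtain ⟨A, a, hA, ha, hP⟩ := roots_joined hH η
  set t : Om d → V d := fun ω => st η + rg (sh (st η) ω) with ht
  have htm : Measurable t :=
    (measurable_rg.comp (measurable_sh (st η))).const_add _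
  set γ : Om d → List (Dir d) := fun ω => sp ω (rg ω) (t ω) with hγdef
  have hγ : Measurable γ := meas_sp rg t measurable_rg htm
  have hPhi : Phi G (st η) = fun ω => Gs G ω (rg ω) (γ ω) := rfl
  have hPm : Measurable (Phi G (st η) : Om d → ℝ) := by
    rw [hPhi]
    exact measurable_Gs' G hG.1 rg measurable_rg γ hγ
  -- the good events
  set Gd : ℕ → Set (Om d) := fun k => {ω : Om d | rg ω ∈ Bx k (0 : V d) ∧ InfC ω (rg ω) ∧
        JoinIn ω (Bx (K * k) (0 : V d) : Set (V d)) (rg ω) (t ω)} with hGd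
  have hGdm : ∀ k, MeasurableSet (Gd k) := by
    intro k
    have h1 : MeasurableSet {ω : Om d | rg ω ∈ Bx k (0 : V d)} :=
      measurable_rg (Set.to_countable (Bx k (0 : V d) : Set (V d))).measurableSet
    exact h1.inter ((meas_InfC rg measurable_rg).inter (meas_JoinIn _ rg t measurable_rg htm))
  have hGdP : ∀ k, (Pr d p).real (Gd k)ᶜ ≤ A * Real.exp (-a * k) := hP
  -- the pieces
  let E : ℕ → Set (Om d) := fun k => Nat.casesOn k (Gd 0) (fun k => Gd (k + 1) \ Gd k)
  have hE0 : E 0 = Gd 0 := rfl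
  have hEs : ∀ k, E (k + 1) = Gd (k + 1) \ Gd k := fun _ => rfl
  have hEm : ∀ k, MeasurableSet (E k) := by
    intro k
    cases k with
    | zero => exact hGdm 0
    | succ k => exact (hGdm (k + 1)).diff (hGdm k)
  have hEsub : ∀ k, E k ⊆ Gd k := by
    intro k
    cases k with
    | zero => exact subset_rfl
    | succ k => exact Set.sdiff_subset
  have hEP : ∀ k, (Pr d p).real (E k) ≤ (A * Real.exp a + 1) * Real.exp (-a * k) := by
    intro k
    cases k with
    | zero =>
      have h1 : (Pr d p).real (E 0) ≤ 1 := measureReal_le_one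
      have h2 : 0 ≤ A * Real.exp a := by positivity
      simp only [Nat.cast_zero, mul_zero, Real.exp_zero, mul_one]
      linarith
    | succ k =>
      have h1 : (Pr d p).real (E (k + 1)) ≤ (Pr d p).real (Gd k)ᶜ :=
        measureReal_mono (fun ω hω => hω.2)
      refine h1.trans ((hGdP k).trans ?_)
      have h2 : Real.exp (-a * ((k + 1 : ℕ) : ℝ)) = Real.exp (-a) * Real.exp (-a * k) := by
        rw [← Real.exp_add]
        push_cast
        ring_nf
      rw [h2]
      have h3 : A * Real.exp (-a * k) =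
          A * Real.exp a * (Real.exp (-a) * Real.exp (-a * k)) := by
        rw [← mul_assoc, mul_assoc A, ← Real.exp_add, add_neg_cancel, Real.exp_zero, mul_one]
      rw [h3]
      refine mul_le_mul_of_nonneg_right (by linarith) (by positivity)
  have hUnion : ⋃ k, E k = ⋃ k, Gd k := by
    refine Set.Subset.antisymm (Set.iUnion_mono hEsub) ?_
    intro ω hω
    rw [Set.mem_iUnion] at hω
    have hm := Nat.find_spec hω
    have hmin := @Nat.find_min _ _ hω
    rw [Set.mem_iUnion]
    refine ⟨Nat.find hω, ?_⟩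
    rcases Nat.eq_zero_or_pos (Nat.find hω) with h0 | h0
    · rw [h0] at hm ⊢
      exact hm
    · obtain ⟨j, hj⟩ := Nat.exists_eq_succ_of_ne_zero h0.ne'
      rw [hj] at hm ⊢
      exact ⟨hm, hmin (by omega)⟩
  have hae : ∀ᵐ ω ∂(Pr d p), ω ∈ ⋃ k, E k := by
    rw [hUnion, ae_iff]
    have h1 : (Pr d p).real {ω | ω ∉ ⋃ k, Gd k} ≤ 0 := by
      have hlim : Tendsto (fun k : ℕ => A * Real.exp (-a * k)) atTop (𝓝 0) := by
        have h2 : Tendsto (fun k : ℕ => Real.exp (-a * k)) atTop (𝓝 0) := by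
          refine Real.tendsto_exp_atBot.comp ?_
          have h3 : Tendsto (fun k : ℕ => a * (k : ℝ)) atTop atTop :=
            tendsto_natCast_atTop_atTop.const_mul_atTop ha
          have h4 := tendsto_neg_atTop_atBot.comp h3
          refine h4.congr fun k => ?_
          simp only [Function.comp_apply]
          ring
        simpa using h2.const_mul A
      refine ge_of_tendsto hlim (Eventually.of_forall fun k => ?_)
      refine le_trans (measureReal_mono ?_) (hGdP k)
      intro ω hω hk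
      exact hω (Set.mem_iUnion.mpr ⟨k, hk⟩)
    have h2 : (Pr d p).real {ω | ω ∉ ⋃ k, Gd k} = 0 := le_antisymm h1 measureReal_nonneg
    exact (measureReal_eq_zero_iff).mp h2
  -- bounds on the pieces
  set R : ℕ → ℕ := fun k => k + (2 * (K * k) + 1) ^ d with hR
  have hpiece : ∀ k, IntegrableOn (Phi G (st η)) (E k) (Pr d p) ∧
      ∫ ω in E k, ‖Phi G (st η) ω‖ ∂(Pr d p) ≤
        Real.sqrt ((Pr d p).real (E k)) *
          (R k * Real.sqrt ((4 * R k + 1) ^ d * ip p G G)) := by
    intro k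
    obtain ⟨h1, h2⟩ := gs_bound G hG (R k) rg measurable_rg γ hγ (E k) (hEm k)
      (fun ω hω => Bx_mono (by simp only [hR]; omega) _ (hEsub k hω).1)
      (fun ω hω => (sp_length_of_joinIn ω (K * k) 0 (rg ω) (t ω) (hEsub k hω).2.2).trans
        (by simp only [hR]; omega))
      (fun ω _ => sp_open ω (rg ω) (t ω))
    have h1' : Integrable ((E k).indicator (fun ω : Om d => ‖Phi G (st η) ω‖)) (Pr d p) := by
      refine h1.congr (Eventually.of_forall fun ω => ?_)
      rcases Classical.em (ω ∈ E k) with h | h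
      · rw [Set.indicator_of_mem h]
        rw [hPhi, Real.norm_eq_abs]
        exact if_pos ⟨h, (hEsub k h).2.1⟩
      · rw [Set.indicator_of_notMem h]
        exact if_neg (fun h' => h h'.1)
    have h2' : ∫ ω, (E k).indicator (fun ω : Om d => ‖Phi G (st η) ω‖) ω ∂(Pr d p) ≤
        Real.sqrt ((Pr d p).real (E k)) *
          (R k * Real.sqrt ((4 * R k + 1) ^ d * ip p G G)) := by
      refine le_trans (le_of_eq (integral_congr_ae (Eventually.of_forall fun ω => ?_))) h2
      rcases Classical.em (ω ∈ E k) with h | h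
      · show (E k).indicator (fun ω : Om d => ‖Phi G (st η) ω‖) ω = _
        rw [Set.indicator_of_mem h, hPhi, Real.norm_eq_abs]
        exact (if_pos ⟨h, (hEsub k h).2.1⟩).symm
      · show (E k).indicator (fun ω : Om d => ‖Phi G (st η) ω‖) ω = _
        rw [Set.indicator_of_notMem h]
        exact (if_neg (fun h' => h h'.1)).symm
    rw [integrable_indicator_iff (hEm k)] at h1'
    rw [integral_indicator (hEm k)] at h2'
    refine ⟨?_, h2'⟩
    exact (integrable_norm_iff hPm.aestronglyMeasurable.restrict).mp h1'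
  -- summability
  have hsum : Summable fun k => ∫ ω in E k, ‖Phi G (st η) ω‖ ∂(Pr d p) := by
    set B : ℝ := (2 * K + 1) ^ d + 1 with hB
    have hB1 : 1 ≤ B := by rw [hB]; have : (0 : ℝ) ≤ (2 * K + 1) ^ d := by positivity
                           linarith
    have hRk : ∀ k, 4 * (R k : ℝ) + 1 ≤ (4 * B + 1) * ((k : ℝ) + 1) ^ (d + 1) := by
      intro k
      have h1 : ((2 * (K * k) + 1 : ℕ) : ℝ) ≤ (2 * K + 1) * (k + 1) := by
        push_cast
        have : (0 : ℝ) ≤ K := Nat.cast_nonneg _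
        have : (0 : ℝ) ≤ k := Nat.cast_nonneg _
        nlinarith
      have h2 : ((2 * (K * k) + 1 : ℕ) : ℝ) ^ d ≤ (2 * K + 1) ^ d * ((k : ℝ) + 1) ^ (d + 1) := by
        refine (pow_le_pow_left₀ (Nat.cast_nonneg _) h1 d).trans ?_
        rw [mul_pow]
        refine mul_le_mul_of_nonneg_left ?_ (by positivity)
        exact pow_le_pow_right₀ (by have : (0 : ℝ) ≤ k := Nat.cast_nonneg _; linarith)
          (Nat.le_succ d)
      have h3 : (k : ℝ) ≤ ((k : ℝ) + 1) ^ (d + 1) := by
        have h4 : ((k : ℝ) + 1) ^ 1 ≤ ((k : ℝ) + 1) ^ (d + 1) :=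
          pow_le_pow_right₀ (by have : (0 : ℝ) ≤ k := Nat.cast_nonneg _; linarith) (by omega)
        rw [pow_one] at h4
        linarith
      have h5 : (1 : ℝ) ≤ ((k : ℝ) + 1) ^ (d + 1) :=
        one_le_pow₀ (by have : (0 : ℝ) ≤ k := Nat.cast_nonneg _; linarith)
      have h6 : (R k : ℝ) = k + ((2 * (K * k) + 1 : ℕ) : ℝ) ^ d := by
        simp only [hR]; push_cast; ring
      rw [h6, hB]
      nlinarith
    have hip : 0 ≤ ip p G G := ip_self_nonneg G
    set D : ℝ := Real.sqrt (A * Real.exp a + 1) * Real.sqrt (ip p G G) *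
      (4 * B + 1) ^ (d + 1) * Real.exp (a / 2) with hD
    have hbase : Summable fun n : ℕ => ((n : ℝ)) ^ ((d + 1) * (d + 1)) *
        Real.exp (-(a / 2) * n) := Real.summable_pow_mul_exp_neg_nat_mul _ (by positivity)
    have hbase' := ((summable_nat_add_iff 1).mpr hbase).mul_left D
    refine Summable.of_nonneg_of_le (fun k => by positivity) (fun k => ?_) hbase'
    refine (hpiece k).2.trans ?_
    have h1 : Real.sqrt ((Pr d p).real (E k)) ≤
        Real.sqrt (A * Real.exp a + 1) * Real.exp (-(a / 2) * k) := by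
      refine (Real.sqrt_le_sqrt (hEP k)).trans (le_of_eq ?_)
      rw [Real.sqrt_mul (by positivity)]
      congr 1
      rw [Real.sqrt_eq_iff_mul_self_eq (Real.exp_pos _).le (Real.exp_pos _).le,
        ← Real.exp_add]
      ring_nf
    have hq : (0 : ℝ) ≤ 4 * R k + 1 := by positivity
    have hq1 : (1 : ℝ) ≤ (4 * R k + 1) ^ d := one_le_pow₀ (by
      have : (0 : ℝ) ≤ R k := Nat.cast_nonneg _
      linarith)
    have h2 : (R k : ℝ) * Real.sqrt ((4 * R k + 1) ^ d * ip p G G) ≤
        (4 * R k + 1) ^ (d + 1) * Real.sqrt (ip p G G) := by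
      rw [Real.sqrt_mul (by positivity)]
      have h3 : Real.sqrt ((4 * R k + 1) ^ d) ≤ (4 * (R k : ℝ) + 1) ^ d := by
        rw [Real.sqrt_le_left (by positivity)]
        nlinarith
      have h4 : (R k : ℝ) ≤ 4 * R k + 1 := by
        have : (0 : ℝ) ≤ R k := Nat.cast_nonneg _
        linarith
      calc (R k : ℝ) * (Real.sqrt ((4 * R k + 1) ^ d) * Real.sqrt (ip p G G))
          = (R k * Real.sqrt ((4 * R k + 1) ^ d)) * Real.sqrt (ip p G G) := by ring
        _ ≤ ((4 * R k + 1) * (4 * R k + 1) ^ d) * Real.sqrt (ip p G G) := by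
          refine mul_le_mul_of_nonneg_right ?_ (Real.sqrt_nonneg _)
          exact mul_le_mul h4 h3 (Real.sqrt_nonneg _) hq
        _ = _ := by ring
    have h3 : (4 * (R k : ℝ) + 1) ^ (d + 1) ≤
        (4 * B + 1) ^ (d + 1) * ((k : ℝ) + 1) ^ ((d + 1) * (d + 1)) := by
      refine (pow_le_pow_left₀ hq (hRk k) (d + 1)).trans (le_of_eq ?_)
      rw [mul_pow, ← pow_mul]
    calc Real.sqrt ((Pr d p).real (E k)) * (R k * Real.sqrt ((4 * R k + 1) ^ d * ip p G G))
        ≤ (Real.sqrt (A * Real.exp a + 1) * Real.exp (-(a / 2) * k)) *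
          (((4 * B + 1) ^ (d + 1) * ((k : ℝ) + 1) ^ ((d + 1) * (d + 1))) *
            Real.sqrt (ip p G G)) := by
          refine mul_le_mul h1 (h2.trans ?_) (by positivity) (by positivity)
          exact mul_le_mul_of_nonneg_right h3 (Real.sqrt_nonneg _)
      _ = D * ((((k + 1 : ℕ) : ℝ)) ^ ((d + 1) * (d + 1)) *
          Real.exp (-(a / 2) * ((k + 1 : ℕ) : ℝ))) := by
          have h4 : Real.exp (-(a / 2) * ((k + 1 : ℕ) : ℝ)) =
              Real.exp (-(a / 2)) * Real.exp (-(a / 2) * k) := by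
            rw [← Real.exp_add]
            push_cast
            ring_nf
          have h5 : Real.exp (a / 2) * Real.exp (-(a / 2)) = 1 := by
            rw [← Real.exp_add, add_neg_cancel, Real.exp_zero]
          rw [h4, hD]
          push_cast
          linear_combination (-(Real.sqrt (A * Real.exp a + 1) * Real.sqrt (ip p G G) *
            (4 * B + 1) ^ (d + 1) * ((k : ℝ) + 1) ^ ((d + 1) * (d + 1)) *
            Real.exp (-(a / 2) * k))) * h5
  have hfin := integrableOn_iUnion_of_summable_integral_norm (fun k => (hpiece k).1) hsum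
  have hcongr : (⋃ k, E k : Set (Om d)) =ᵐ[Pr d p] Set.univ := by
    rw [eventuallyEq_univ]
    exact hae
  rw [integrableOn_congr_set_ae hcongr, integrableOn_univ] at hfin
  exact hfin

end Ein99
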