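import Pool.Agent.LibEin99.F_Curl
import Pool.Agent.LibEin99.E_Exp
import Pool.Agent.LibEin99.E_U

/-!
TASK F_Sq. First and second moments of the potential along the lazy walk.

`f_n ω = Ln ω n (Pot G ω 0) 0`, `S_n ω = Ln ω n (fun y => Pot G ω 0 y ^ 2) 0`,
`N_n ω = Ln ω n (fun y => dot l y * Pot G ω 0 y) 0`.
For a.e. `ω` with `InfC ω 0`, for `y` in the cluster and an open edge `δ` at `0`:
`Pot G ω 0 y = G ω δ + Pot G (sh (st δ) ω) 0 (y - st δ)` (`pot_list`, `pot_add`, `Pot_sh`). `Ln_first`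
(only vertices `y` connected to the start contribute: `Ln_eq_sum`, `conn_of_Ln`) gives
`dg f_{n+1} = dg Ae f_n + (1/2)∑ oo G`,
`dg S_{n+1} = dg Ae S_n + (1/2)∑ oo (G² + 2 G f_n(sh (st δ) ω))`,
`dg N_{n+1} = dg Ae N_n + (1/2)∑ oo (dt G + dt f_n(sh (st δ) ω) + G chi_n(sh (st δ) ω))`.
With `g = f_1` (`dg g = (1/2) ∑ oo G`, `g ∈ L²(nu)`), `f_n = ∑_{j<n} Ae^[j] g` a.e., in `L²`.
`∫ dg S_{n+1} - ∫ dg S_n = (1/2) ip G G + ∫ ∑ oo G f_n(sh (st δ) ω) = (1/2) ip G G - 2 ∫ dg g f_n`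
(`rev_int`, antisymmetry) `≤ (1/2) ip G G` by `corr_nonneg`. (Prove integrability of `dg S_n`
inductively, e.g. with lintegrals or from `S_{n+1} ≤ 2 Ae S_n + ...`.)
`∫ dg N_{n+1} - ∫ dg N_n = (1/2) ip (Dl l) G - ∫ dg drf f_n - ∫ dg g chi_n`, and
`∫ dg drf f_n = ∫ dg g chi_n` (`Ae_iter_symm`, `chi_eq_sum`), `ip G (gr chi_n) = -4 ∫ dg g chi_n`
(`rev_int`, antisymmetry of `G`), so the increment is `(1/2) ip G (GPsi l n)`.
-/

open MeasureTheory ProbabilityTheory Filter Topology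

namespace Ein99

variable {d : ℕ} {p : unitInterval}

/-- the hypotheses on the curl free field -/
structure Curl (p : unitInterval) (G : Fld d) : Prop where
  sq : SqI p G
  anti : AntiAE p G
  orth : ∀ I, Adm p I → ip p G I = 0

/-- `E_0[(Y_n·l) φ(Y_n)]` -/
noncomputable def Nn (l : Fin d → ℝ) (G : Fld d) (n : ℕ) (ω : Om d) : ℝ :=
  Ln ω n (fun y => dot l y * Pot G ω 0 y) 0

/-! ### auxiliary facts on `Ln` -/

theorem sq_w_nonneg (ω : Om d) (n : ℕ) (x y : V d) :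
    0 ≤ Ln ω n (Set.indicator {y} (fun _ => (1 : ℝ))) x := by
  have h := Ln_mono ω n (g := fun _ => (0 : ℝ)) (h := Set.indicator {y} (fun _ => (1 : ℝ)))
    (fun z => Set.indicator_nonneg (by intros; norm_num) z) x
  rw [Ln_const] at h
  exact h

theorem sq_Ln_le (ω : Om d) (n : ℕ) {g h : V d → ℝ} {x : V d}
    (H : ∀ y ∈ Bx n x, Conn ω x y → g y ≤ h y) : Ln ω n g x ≤ Ln ω n h x := by
  rw [Ln_eq_sum ω n g, Ln_eq_sum ω n h]
  refine Finset.sum_le_sum fun y hy => ?_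
  by_cases h0 : Ln ω n (Set.indicator {y} (fun _ => (1 : ℝ))) x = 0
  · rw [h0]
    simp
  · exact mul_le_mul_of_nonneg_left (H y hy (conn_of_Ln ω n x y h0)) (sq_w_nonneg ω n x y)

theorem sq_Ln_congr (ω : Om d) (n : ℕ) {g h : V d → ℝ} {x : V d}
    (H : ∀ y ∈ Bx n x, Conn ω x y → g y = h y) : Ln ω n g x = Ln ω n h x :=
  le_antisymm (sq_Ln_le ω n fun y hy hc => (H y hy hc).le)
    (sq_Ln_le ω n fun y hy hc => (H y hy hc).ge)

theorem sq_first (ω : Om d) (h : dg ω ≠ 0) (n : ℕ) (H : V d → ℝ) (K : Dir d → V d → ℝ)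
    (hK : ∀ δ, opn ω 0 δ → ∀ y, Conn (sh (st δ) ω) 0 y → H (y + st δ) = K δ y) :
    dg ω * Ln ω (n + 1) H 0
      = (dg ω * Ln ω n H 0 + ∑ δ, oo ω δ * Ln (sh (st δ) ω) n (K δ) 0) / 2 := by
  have e : ∑ δ, oo ω δ * Ln (sh (st δ) ω) n (fun y => H (y + st δ)) 0
      = ∑ δ, oo ω δ * Ln (sh (st δ) ω) n (K δ) 0 := by
    refine Finset.sum_congr rfl fun δ _ => ?_
    by_cases ho : opn ω 0 δ
    · congr 1
      exact sq_Ln_congr _ n fun y _ hc => hK δ ho y hc
    · have : oo ω δ = 0 := by simp [oo, ho]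
      rw [this, zero_mul, zero_mul]
  rw [Ln_first ω n H h, e]
  field_simp

/-! ### auxiliary facts on integrals -/

theorem sq_fin (p : unitInterval) : IsFiniteMeasure (nu d p) := by
  unfold nu
  infer_instance

theorem sq_dg_nonneg (ω : Om d) : 0 ≤ dg ω := by
  unfold dg oo
  refine Finset.sum_nonneg fun δ _ => ?_
  split_ifs <;> norm_num

theorem sq_oo_nonneg (ω : Om d) (δ : Dir d) : 0 ≤ oo ω δ := by
  unfold oo
  split_ifs <;> norm_num

theorem sq_dg_int {f : Om d → ℝ} (hf : Integrable f (nu d p)) :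
    Integrable (fun ω => dg ω * f ω) (nu d p) := by
  refine hf.bdd_mul (c := 2 * (d : ℝ)) measurable_dg.aestronglyMeasurable
    (Eventually.of_forall fun ω => ?_)
  rw [Real.norm_eq_abs, abs_of_nonneg (sq_dg_nonneg ω)]
  exact dg_le ω

theorem sq_int_of_dg {f : Om d → ℝ} (hm : Measurable f)
    (hf : Integrable (fun ω => dg ω * f ω) (nu d p)) : Integrable f (nu d p) := by
  refine hf.mono hm.aestronglyMeasurable ?_
  filter_upwards [ae_one_le_dg p] with ω hω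
  rw [norm_mul, Real.norm_eq_abs (dg ω), abs_of_nonneg (sq_dg_nonneg ω)]
  nlinarith [norm_nonneg (f ω)]

theorem sq_meas_sum {F : Fld d} (hF : ∀ δ, Measurable (fun ω => F ω δ)) :
    Measurable (fun ω => ∑ δ, oo ω δ * F ω δ) :=
  Finset.measurable_sum _ fun δ _ => (measurable_oo δ).mul (hF δ)

theorem sq_int_abs {F : Fld d} (hF : ∀ δ, Measurable (fun ω => F ω δ))
    (h : Integrable (fun ω => ∑ δ, oo ω δ * |F ω δ|) (nu d p)) :
    Integrable (fun ω => ∑ δ, oo ω δ * F ω δ) (nu d p) := by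
  refine h.mono (sq_meas_sum hF).aestronglyMeasurable (Eventually.of_forall fun ω => ?_)
  rw [Real.norm_eq_abs, Real.norm_eq_abs,
    abs_of_nonneg (Finset.sum_nonneg fun δ _ => mul_nonneg (sq_oo_nonneg ω δ) (abs_nonneg _))]
  refine (Finset.abs_sum_le_sum_abs _ _).trans (Finset.sum_le_sum fun δ _ => ?_)
  rw [abs_mul, abs_of_nonneg (sq_oo_nonneg ω δ)]

theorem sq_sum_const (ω : Om d) (c : ℝ) : ∑ δ : Dir d, oo ω δ * c = dg ω * c := by
  rw [← Finset.sum_mul]
  rfl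

theorem sq_shift {f : Om d → ℝ} (hm : Measurable f) (hf : Integrable f (nu d p)) :
    Integrable (fun ω => ∑ δ, oo ω δ * f (sh (st δ) ω)) (nu d p) ∧
    ∫ ω, ∑ δ, oo ω δ * f (sh (st δ) ω) ∂(nu d p) = ∫ ω, dg ω * f ω ∂(nu d p) := by
  have hF : ∀ δ : Dir d, Measurable (fun ω => (fun (ω : Om d) (_ : Dir d) => f ω) ω δ) :=
    fun _ => hm
  have hint : Integrable (fun ω => ∑ δ, oo ω δ * |(fun (ω : Om d) (_ : Dir d) => f ω) ω δ|)
      (nu d p) := by
    have := sq_dg_int hf.abs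
    refine this.congr (Eventually.of_forall fun ω => ?_)
    simp only [sq_sum_const]
  have h1 := rev_integrable p _ hF hint
  have h2 := rev_int p _ hF hint
  refine ⟨sq_int_abs (F := fun ω δ => f (sh (st δ) ω))
    (fun δ => hm.comp (measurable_sh _)) h1, ?_⟩
  have h3 : ∫ ω, ∑ δ, oo ω δ * f ω ∂(nu d p) = ∫ ω, dg ω * f ω ∂(nu d p) := by
    refine integral_congr_ae (Eventually.of_forall fun ω => ?_)
    simp only [sq_sum_const]
  rw [← h3]
  exact h2.symm

theorem sq_st_rv (δ : Dir d) : st (rv δ) + st δ = 0 := by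
  rw [st_rv, neg_add_cancel]

/-- pairing of a square integrable field with a shifted square integrable function -/
theorem sq_anti {I : Fld d} (hI : SqI p I) {f : Om d → ℝ} (hm : Measurable f)
    (hf : MemLp f 2 (nu d p)) :
    Integrable (fun ω => ∑ δ, oo ω δ * |I ω δ * f (sh (st δ) ω)|) (nu d p) := by
  have h1 := (sq_shift (p := p) (hm.pow_const 2) hf.integrable_sq).1
  have h2 := (hI.2.add h1).div_const 2
  refine h2.mono ?_ (Eventually.of_forall fun ω => ?_)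
  · refine (Finset.measurable_sum _ fun δ _ => (measurable_oo δ).mul ?_).aestronglyMeasurable
    exact ((hI.1 δ).mul (hm.comp (measurable_sh _))).abs
  · have hle : ∑ δ, oo ω δ * |I ω δ * f (sh (st δ) ω)| ≤
        (∑ δ, oo ω δ * I ω δ ^ 2 + ∑ δ, oo ω δ * f (sh (st δ) ω) ^ 2) / 2 := by
      rw [← Finset.sum_add_distrib, Finset.sum_div]
      refine Finset.sum_le_sum fun δ _ => ?_
      have h3 : |I ω δ * f (sh (st δ) ω)| ≤ (I ω δ ^ 2 + f (sh (st δ) ω) ^ 2) / 2 := by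
        rw [abs_mul]
        have := sq_nonneg (|I ω δ| - |f (sh (st δ) ω)|)
        have e1 := sq_abs (I ω δ)
        have e2 := sq_abs (f (sh (st δ) ω))
        nlinarith
      have := mul_le_mul_of_nonneg_left h3 (sq_oo_nonneg ω δ)
      linarith
    have hnn : 0 ≤ ∑ δ, oo ω δ * |I ω δ * f (sh (st δ) ω)| :=
      Finset.sum_nonneg fun δ _ => mul_nonneg (sq_oo_nonneg ω δ) (abs_nonneg _)
    rw [Real.norm_eq_abs, abs_of_nonneg hnn, Real.norm_eq_abs]
    exact hle.trans (le_abs_self _)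

theorem sq_anti_int {I : Fld d} (hI : SqI p I) {f : Om d → ℝ} (hm : Measurable f)
    (hf : MemLp f 2 (nu d p)) :
    Integrable (fun ω => ∑ δ, oo ω δ * (I ω δ * f (sh (st δ) ω))) (nu d p) :=
  sq_int_abs (F := fun ω δ => I ω δ * f (sh (st δ) ω))
    (fun δ => (hI.1 δ).mul (hm.comp (measurable_sh _))) (sq_anti hI hm hf)

theorem sq_anti_eq {I : Fld d} (hI : SqI p I) (hIa : AntiAE p I) {f : Om d → ℝ}
    (hm : Measurable f) (hf : MemLp f 2 (nu d p)) :
    ∫ ω, ∑ δ, oo ω δ * (I ω δ * f (sh (st δ) ω)) ∂(nu d p)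
      = - ∫ ω, ∑ δ, oo ω δ * (I ω δ * f ω) ∂(nu d p) := by
  have h := rev_int p (fun ω δ => I ω δ * f (sh (st δ) ω))
    (fun δ => (hI.1 δ).mul (hm.comp (measurable_sh _))) (sq_anti hI hm hf)
  rw [h, ← integral_neg]
  refine integral_congr_ae ?_
  filter_upwards [hIa] with ω hω
  rw [← Finset.sum_neg_distrib]
  refine Finset.sum_congr rfl fun δ _ => ?_
  by_cases ho : opn ω 0 δ
  · rw [hω δ ho, sh_sh, sq_st_rv, sh_zero]
    ring
  · have : oo ω δ = 0 := by simp [oo, ho]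
    rw [this]
    simp

theorem sq_int_same {I : Fld d} (hI : SqI p I) {f : Om d → ℝ} (hm : Measurable f)
    (hf : MemLp f 2 (nu d p)) :
    Integrable (fun ω => ∑ δ, oo ω δ * (I ω δ * f ω)) (nu d p) := by
  have hJ : SqI p (fun ω (_ : Dir d) => f ω) := by
    refine ⟨fun _ => hm, ?_⟩
    refine (sq_dg_int hf.integrable_sq).congr (Eventually.of_forall fun ω => ?_)
    simp only [sq_sum_const]
  exact hI.integrable_mul hJ

theorem sq_lin4 {μ : Measure (Om d)} {a b c e : Om d → ℝ} (ha : Integrable a μ)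
    (hb : Integrable b μ) (hc : Integrable c μ) (he : Integrable e μ) :
    ∫ ω, (a ω + ((b ω + c ω) + e ω)) / 2 ∂μ
      = (∫ ω, a ω ∂μ + ((∫ ω, b ω ∂μ + ∫ ω, c ω ∂μ) + ∫ ω, e ω ∂μ)) / 2 := by
  have h1 : Integrable (fun ω => b ω + c ω) μ := hb.add hc
  have h2 : Integrable (fun ω => b ω + c ω + e ω) μ := h1.add he
  rw [integral_div, integral_add ha h2, integral_add h1 he, integral_add hb hc]

theorem sq_lin5 {μ : Measure (Om d)} {a b c e f : Om d → ℝ} (ha : Integrable a μ)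
    (hb : Integrable b μ) (hc : Integrable c μ) (he : Integrable e μ) (hf : Integrable f μ) :
    ∫ ω, (a ω + (((b ω + c ω) + e ω) + f ω)) / 2 ∂μ
      = (∫ ω, a ω ∂μ + (((∫ ω, b ω ∂μ + ∫ ω, c ω ∂μ) + ∫ ω, e ω ∂μ) + ∫ ω, f ω ∂μ)) / 2 := by
  have h1 : Integrable (fun ω => b ω + c ω) μ := hb.add hc
  have h2 : Integrable (fun ω => b ω + c ω + e ω) μ := h1.add he
  have h3 : Integrable (fun ω => b ω + c ω + e ω + f ω) μ := h2.add hf
  rw [integral_div, integral_add ha h3, integral_add h2 hf, integral_add h1 he,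
    integral_add hb hc]

theorem sq_lin3 {μ : Measure (Om d)} {a b c : Om d → ℝ} (ha : Integrable a μ)
    (hb : Integrable b μ) (hc : Integrable c μ) :
    ∫ ω, ((a ω + b ω) - c ω) ∂μ = (∫ ω, a ω ∂μ + ∫ ω, b ω ∂μ) - ∫ ω, c ω ∂μ := by
  have h1 : Integrable (fun ω => a ω + b ω) μ := ha.add hb
  rw [integral_sub h1 hc, integral_add ha hb]

/-! ### the potential -/

/-- the mean of the potential along the walk -/
noncomputable def sqf (G : Fld d) (n : ℕ) (ω : Om d) : ℝ := Ln ω n (Pot G ω 0) 0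

/-- the second moment of the potential along the walk -/
noncomputable def sqS (G : Fld d) (n : ℕ) (ω : Om d) : ℝ := Ln ω n (fun y => Pot G ω 0 y ^ 2) 0

theorem sq_meas_f {G : Fld d} (hG : ∀ δ, Measurable (fun ω => G ω δ)) (n : ℕ) :
    Measurable (sqf G n) :=
  measurable_Ln n (fun ω => Pot G ω 0) (fun y => measurable_Pot G hG 0 y) 0

theorem sq_meas_S {G : Fld d} (hG : ∀ δ, Measurable (fun ω => G ω δ)) (n : ℕ) :
    Measurable (sqS G n) :=
  measurable_Ln n (fun ω y => Pot G ω 0 y ^ 2) (fun y => (measurable_Pot G hG 0 y).pow_const 2) 0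

theorem sq_meas_N {G : Fld d} (hG : ∀ δ, Measurable (fun ω => G ω δ)) (l : Fin d → ℝ) (n : ℕ) :
    Measurable (Nn l G n) :=
  measurable_Ln n (fun ω y => dot l y * Pot G ω 0 y)
    (fun y => (measurable_Pot G hG 0 y).const_mul _) 0

theorem sq_Pot_self (G : Fld d) (ω : Om d) (x : V d) : Pot G ω x x = 0 := by
  have h : (sp ω x x).length ≤ ([] : List (Dir d)).length :=
    sp_length_le ω x x [] (by simp [OpenL]) rfl
  have h2 : sp ω x x = [] := List.length_eq_zero_iff.1 (Nat.le_zero.1 h)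
  unfold Pot
  rw [h2]
  rfl

/-- the almost sure properties used below -/
structure SqGood (G : Fld d) (ω : Om d) : Prop where
  inf : InfC ω 0
  deg : 1 ≤ dg ω
  add : ∀ x y z : V d, InfC ω x → Conn ω x y → Conn ω y z →
      Pot G ω x y + Pot G ω y z = Pot G ω x z
  list : ∀ x : V d, InfC ω x → ∀ L : List (Dir d), OpenL ω x L →
      Pot G ω x (endp x L) = Gs G ω x L

theorem sq_good {G : Fld d} (hG : Curl p G) : ∀ᵐ ω ∂(nu d p), SqGood G ω := by
  have h1 : ∀ᵐ ω ∂(nu d p), InfC ω 0 := by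
    unfold nu
    exact ae_restrict_mem (measurableSet_InfC 0)
  have h2 : ∀ᵐ ω ∂(nu d p), ∀ x y z : V d, InfC ω x → Conn ω x y → Conn ω y z →
      Pot G ω x y + Pot G ω y z = Pot G ω x z := by
    unfold nu
    exact ae_restrict_of_ae (pot_add G hG.sq hG.anti hG.orth)
  have h3 : ∀ᵐ ω ∂(nu d p), ∀ x : V d, InfC ω x → ∀ L : List (Dir d), OpenL ω x L →
      Pot G ω x (endp x L) = Gs G ω x L := by
    unfold nu
    exact ae_restrict_of_ae (pot_list G hG.sq hG.anti hG.orth)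
  filter_upwards [h1, ae_one_le_dg p, h2, h3] with ω a b c e
  exact ⟨a, b, c, e⟩

theorem sq_step {G : Fld d} {ω : Om d} (hω : SqGood G ω) (δ : Dir d) (ho : opn ω 0 δ) (y : V d)
    (hc : Conn (sh (st δ) ω) 0 y) :
    Pot G ω 0 (y + st δ) = G ω δ + Pot G (sh (st δ) ω) 0 y := by
  obtain ⟨h1, h2⟩ := sp_spec (sh (st δ) ω) 0 y hc
  set L := sp (sh (st δ) ω) 0 y with hL
  have h3 : OpenL ω 0 (δ :: L) := by
    rw [OpenL_sh] at h1
    exact ⟨ho, h1⟩
  have h4 : endp 0 (δ :: L) = y + st δ := by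
    have : endp (0 : V d) (δ :: L) = endp (0 + st δ) L := rfl
    rw [this, endp_add, h2]
  have h5 := hω.list 0 hω.inf (δ :: L) h3
  rw [h4] at h5
  rw [h5]
  have h6 : Gs G ω 0 (δ :: L) = G (sh 0 ω) δ + Gs G ω (0 + st δ) L := rfl
  rw [h6, sh_zero]
  congr 1
  unfold Pot
  rw [Gs_sh]

theorem sq_S_succ {G : Fld d} {ω : Om d} (hω : SqGood G ω) (n : ℕ) :
    dg ω * sqS G (n + 1) ω = (dg ω * sqS G n ω + ∑ δ, oo ω δ *
      (G ω δ ^ 2 + 2 * (G ω δ * sqf G n (sh (st δ) ω)) + sqS G n (sh (st δ) ω))) / 2 := by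
  unfold sqS
  rw [sq_first ω (by have := hω.deg; linarith) n (fun y => Pot G ω 0 y ^ 2)
    (fun δ => (fun _ => G ω δ ^ 2) + (2 * G ω δ) • (Pot G (sh (st δ) ω) 0) +
      (fun y => Pot G (sh (st δ) ω) 0 y ^ 2))
    (fun δ ho y hc => by
      simp only [Pi.add_apply, Pi.smul_apply, smul_eq_mul]
      rw [sq_step hω δ ho y hc]
      ring)]
  congr 2
  refine Finset.sum_congr rfl fun δ _ => ?_
  rw [Ln_add, Ln_add, Ln_const, Ln_smul]
  simp only [Pi.add_apply, Pi.smul_apply, smul_eq_mul, sqf]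
  ring

theorem sq_f_one {G : Fld d} {ω : Om d} (hω : SqGood G ω) :
    ∑ δ, oo ω δ * G ω δ = 2 * (dg ω * sqf G 1 ω) := by
  unfold sqf
  rw [sq_first ω (by have := hω.deg; linarith) 0 (Pot G ω 0)
    (fun δ => (fun _ => G ω δ) + (Pot G (sh (st δ) ω) 0))
    (fun δ ho y hc => by
      simp only [Pi.add_apply]
      rw [sq_step hω δ ho y hc])]
  simp only [Ln_zero, Pi.add_apply, sq_Pot_self]
  simp only [mul_zero, add_zero, zero_add]
  ring

theorem sq_N_succ {G : Fld d} {ω : Om d} (hω : SqGood G ω) (l : Fin d → ℝ) (n : ℕ) :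
    dg ω * Nn l G (n + 1) ω = (dg ω * Nn l G n ω + ∑ δ, oo ω δ *
      (dt l δ * G ω δ + dt l δ * sqf G n (sh (st δ) ω) + G ω δ * chi l n (sh (st δ) ω) +
        Nn l G n (sh (st δ) ω))) / 2 := by
  unfold Nn
  rw [sq_first ω (by have := hω.deg; linarith) n (fun y => dot l y * Pot G ω 0 y)
    (fun δ => (fun _ => dt l δ * G ω δ) + (dt l δ) • (Pot G (sh (st δ) ω) 0) +
      (G ω δ) • (dot l) + (fun y => dot l y * Pot G (sh (st δ) ω) 0 y))
    (fun δ ho y hc => by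
      simp only [Pi.add_apply, Pi.smul_apply, smul_eq_mul]
      rw [sq_step hω δ ho y hc, dot_add, dot_st]
      ring)]
  congr 2
  refine Finset.sum_congr rfl fun δ _ => ?_
  rw [Ln_add, Ln_add, Ln_add, Ln_const, Ln_smul, Ln_smul]
  simp only [Pi.add_apply, Pi.smul_apply, smul_eq_mul, sqf, chi]

theorem sq_f_succ {G : Fld d} {ω : Om d} (hω : SqGood G ω) (n : ℕ) :
    sqf G (n + 1) ω = sqf G n ω + (Ae^[n] (sqf G 1)) ω := by
  rw [Ae_iter]
  unfold sqf
  rw [Ln_succ']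
  have h1 : Ln ω n (Lz ω (Pot G ω 0)) 0 = Ln ω n (Pot G ω 0 +
      fun x => Ln (sh x ω) 1 (Pot G (sh x ω) 0) 0) 0 := by
    refine sq_Ln_congr ω n fun y _ hc => ?_
    have h2 : Ln (sh y ω) 1 (Pot G (sh y ω) 0) 0 = Ln ω 1 (Pot G ω y) y := by
      rw [Ln_sh, zero_add]
      congr 1
      funext z
      rw [Pot_sh, zero_add, sub_add_cancel]
    have h3 : Lz ω (Pot G ω 0) y = Ln ω 1 (Pot G ω 0) y := by
      rw [Ln_succ, Ln_zero]
    rw [Pi.add_apply, h2, h3]
    have h4 : Ln ω 1 (Pot G ω 0) y = Ln ω 1 ((fun _ => Pot G ω 0 y) + Pot G ω y) y := by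
      refine sq_Ln_congr ω 1 fun z _ hz => ?_
      rw [Pi.add_apply]
      exact (hω.add 0 y z hω.inf hc hz).symm
    rw [h4, Ln_add, Ln_const, Pi.add_apply]
  rw [h1, Ln_add, Pi.add_apply]

theorem sq_f_sum {G : Fld d} {ω : Om d} (hω : SqGood G ω) (n : ℕ) :
    sqf G n ω = ∑ j ∈ Finset.range n, (Ae^[j] (sqf G 1)) ω := by
  induction n with
  | zero =>
    simp only [Finset.range_zero, Finset.sum_empty, sqf, Ln_zero]
    exact sq_Pot_self G ω 0
  | succ n ih => rw [Finset.sum_range_succ, ← ih, sq_f_succ hω]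

theorem sq_mem {G : Fld d} (hG : Curl p G) (n : ℕ) :
    MemLp (sqf G n) 2 (nu d p) ∧ Integrable (sqS G n) (nu d p) := by
  have hGm := hG.sq.1
  have key : ∀ n, Integrable (sqS G n) (nu d p) → MemLp (sqf G n) 2 (nu d p) := by
    intro n hS
    rw [memLp_two_iff_integrable_sq (sq_meas_f hGm n).aestronglyMeasurable]
    refine hS.mono ((sq_meas_f hGm n).pow_const 2).aestronglyMeasurable
      (Eventually.of_forall fun ω => ?_)
    rw [Real.norm_eq_abs, Real.norm_eq_abs, abs_of_nonneg (sq_nonneg _)]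
    exact (Ln_sq_le ω n (Pot G ω 0) 0).trans (le_abs_self _)
  induction n with
  | zero =>
    have h : Integrable (sqS G 0) (nu d p) := by
      have e : sqS G 0 = fun _ => 0 := by
        funext ω
        simp only [sqS, Ln_zero, sq_Pot_self]
        norm_num
      rw [e]
      exact integrable_zero _ _ _
    exact ⟨key 0 h, h⟩
  | succ n ih =>
    obtain ⟨hf, hS⟩ := ih
    have h1 := hG.sq.2
    have h2 := sq_anti_int hG.sq (sq_meas_f hGm n) hf
    have h3 := (sq_shift (sq_meas_S hGm n) hS).1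
    have h4 := sq_dg_int hS
    have h5 : Integrable (sqS G (n + 1)) (nu d p) := by
      refine sq_int_of_dg (sq_meas_S hGm (n + 1)) ?_
      have h6 := (h4.add ((h1.add (h2.const_mul 2)).add h3)).div_const 2
      refine h6.congr ?_
      filter_upwards [sq_good hG] with ω hω
      rw [sq_S_succ hω]
      simp only [Pi.add_apply]
      congr 2
      rw [Finset.mul_sum, ← Finset.sum_add_distrib, ← Finset.sum_add_distrib]
      refine Finset.sum_congr rfl fun δ _ => ?_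
      ring
    exact ⟨key (n + 1) h5, h5⟩

theorem sq_iter_mem {g : Om d → ℝ} (hm : Measurable g) (hg : MemLp g 2 (nu d p)) (j : ℕ) :
    Measurable (Ae^[j] g) ∧ MemLp (Ae^[j] g) 2 (nu d p) := by
  induction j with
  | zero => exact ⟨hm, hg⟩
  | succ j ih =>
    rw [Function.iterate_succ_apply']
    exact ⟨measurable_Ae ih.1, memLp_Ae p ih.1 ih.2⟩

theorem sq_pair {G : Fld d} (hG : Curl p G) {h : Om d → ℝ} (hh : MemLp h 2 (nu d p)) (n : ℕ) :
    ∫ ω, dg ω * (h ω * sqf G n ω) ∂(nu d p)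
      = ∑ j ∈ Finset.range n, ∫ ω, dg ω * (h ω * (Ae^[j] (sqf G 1)) ω) ∂(nu d p) := by
  have hg := (sq_mem hG 1).1
  rw [← integral_finsetSum]
  · refine integral_congr_ae ?_
    filter_upwards [sq_good hG] with ω hω
    rw [sq_f_sum hω, Finset.mul_sum, Finset.mul_sum]
  · intro j _
    exact sq_dg_int (hh.integrable_mul (sq_iter_mem (sq_meas_f hG.sq.1 1) hg j).2)

theorem sq_G_pair {G : Fld d} (hG : Curl p G) (f : Om d → ℝ) :
    ∫ ω, ∑ δ, oo ω δ * (G ω δ * f ω) ∂(nu d p)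
      = 2 * ∫ ω, dg ω * (sqf G 1 ω * f ω) ∂(nu d p) := by
  rw [← integral_const_mul]
  refine integral_congr_ae ?_
  filter_upwards [sq_good hG] with ω hω
  have h := sq_f_one hω
  calc ∑ δ, oo ω δ * (G ω δ * f ω) = (∑ δ, oo ω δ * G ω δ) * f ω := by
        rw [Finset.sum_mul]
        refine Finset.sum_congr rfl fun δ _ => ?_
        ring
    _ = 2 * (dg ω * (sqf G 1 ω * f ω)) := by rw [h]; ring

theorem pot_second_moment (G : Fld d) (hG : Curl p G) (n : ℕ) :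
    Integrable (fun ω => dg ω * Ln ω n (fun y => Pot G ω 0 y ^ 2) 0) (nu d p) ∧
    ∫ ω, dg ω * Ln ω n (fun y => Pot G ω 0 y ^ 2) 0 ∂(nu d p) ≤ n / 2 * ip p G G := by
  have hGm := hG.sq.1
  refine ⟨sq_dg_int (sq_mem hG n).2, ?_⟩
  show ∫ ω, dg ω * sqS G n ω ∂(nu d p) ≤ n / 2 * ip p G G
  induction n with
  | zero =>
    have e : (fun ω => dg ω * sqS G 0 ω) = fun _ => (0 : ℝ) := by
      funext ω
      simp only [sqS, Ln_zero, sq_Pot_self]
      norm_num
    rw [e]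
    simp
  | succ n ih =>
    obtain ⟨hf, hS⟩ := sq_mem hG n
    have h1 := hG.sq.2
    have h2 := sq_anti_int hG.sq (sq_meas_f hGm n) hf
    have h3 := sq_shift (sq_meas_S hGm n) hS
    have h4 := sq_dg_int hS
    have hcorr : 0 ≤ ∫ ω, ∑ δ, oo ω δ * (G ω δ * sqf G n ω) ∂(nu d p) := by
      rw [sq_G_pair hG, sq_pair hG (sq_mem hG 1).1]
      refine mul_nonneg (by norm_num) (Finset.sum_nonneg fun j _ => ?_)
      exact corr_nonneg p (sq_meas_f hGm 1) (sq_mem hG 1).1 j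
    have e : ∫ ω, dg ω * sqS G (n + 1) ω ∂(nu d p)
        = (∫ ω, dg ω * sqS G n ω ∂(nu d p) + ((∫ ω, ∑ δ, oo ω δ * G ω δ ^ 2 ∂(nu d p)
          + 2 * ∫ ω, ∑ δ, oo ω δ * (G ω δ * sqf G n (sh (st δ) ω)) ∂(nu d p))
          + ∫ ω, ∑ δ, oo ω δ * sqS G n (sh (st δ) ω) ∂(nu d p))) / 2 := by
      rw [← integral_const_mul, ← sq_lin4 h4 h1 (h2.const_mul 2) h3.1]
      refine integral_congr_ae ?_
      filter_upwards [sq_good hG] with ω hω
      rw [sq_S_succ hω]
      congr 2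
      rw [Finset.mul_sum, ← Finset.sum_add_distrib, ← Finset.sum_add_distrib]
      refine Finset.sum_congr rfl fun δ _ => ?_
      ring
    have hip : ∫ ω, ∑ δ, oo ω δ * G ω δ ^ 2 ∂(nu d p) = ip p G G := by
      unfold ip
      refine integral_congr_ae (Eventually.of_forall fun ω => ?_)
      refine Finset.sum_congr rfl fun δ _ => ?_
      ring
    rw [e, h3.2, sq_anti_eq hG.sq hG.anti (sq_meas_f hGm n) hf, hip]
    push_cast
    have : ((n : ℝ) + 1) / 2 * ip p G G = n / 2 * ip p G G + ip p G G / 2 := by ring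
    rw [this]
    linarith

theorem sq_N_int (l : Fin d → ℝ) (hl : ∑ i, l i ^ 2 = 1) {G : Fld d} (hG : Curl p G) (n : ℕ) :
    Integrable (Nn l G n) (nu d p) := by
  have := sq_fin (d := d) p
  have hS := (sq_mem hG n).2
  set c : ℝ := Real.sqrt d * n with hc
  have h1 : Integrable (fun ω => (c ^ 2 + sqS G n ω) / 2) (nu d p) :=
    ((integrable_const _).add hS).div_const 2
  refine h1.mono (sq_meas_N hG.sq.1 l n).aestronglyMeasurable (Eventually.of_forall fun ω => ?_)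
  have hfun : (fun y => (c ^ 2 + Pot G ω 0 y ^ 2) / 2)
      = (1 / 2 : ℝ) • ((fun _ => c ^ 2) + fun y => Pot G ω 0 y ^ 2) := by
    funext y
    simp only [Pi.smul_apply, Pi.add_apply, smul_eq_mul]
    ring
  have hval : Ln ω n (fun y => (c ^ 2 + Pot G ω 0 y ^ 2) / 2) 0 = (c ^ 2 + sqS G n ω) / 2 := by
    rw [hfun, Ln_smul, Ln_add, Ln_const]
    simp only [Pi.smul_apply, Pi.add_apply, smul_eq_mul, sqS]
    ring
  have hbd : ∀ y ∈ Bx n (0 : V d), |dot l y * Pot G ω 0 y| ≤ (c ^ 2 + Pot G ω 0 y ^ 2) / 2 := by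
    intro y hy
    have h2 := abs_dot_sub_le l hl hy
    have h3 : dot l (0 : V d) = 0 := by simp [dot]
    rw [h3, sub_zero] at h2
    rw [abs_mul]
    have h4 : |dot l y| ^ 2 ≤ c ^ 2 := pow_le_pow_left₀ (abs_nonneg _) h2 2
    have h5 := sq_nonneg (|dot l y| - |Pot G ω 0 y|)
    have h6 := sq_abs (Pot G ω 0 y)
    nlinarith
  have hup : Nn l G n ω ≤ (c ^ 2 + sqS G n ω) / 2 := by
    rw [← hval]
    exact sq_Ln_le ω n fun y hy _ => (le_abs_self _).trans (hbd y hy)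
  have hlo : -((c ^ 2 + sqS G n ω) / 2) ≤ Nn l G n ω := by
    rw [← hval]
    have h7 : -Ln ω n (fun y => (c ^ 2 + Pot G ω 0 y ^ 2) / 2) 0
        = Ln ω n ((-1 : ℝ) • fun y => (c ^ 2 + Pot G ω 0 y ^ 2) / 2) 0 := by
      rw [Ln_smul]
      simp
    rw [h7]
    refine sq_Ln_le ω n fun y hy _ => ?_
    have h8 := (abs_le.1 (hbd y hy)).1
    simp only [Pi.smul_apply, smul_eq_mul]
    linarith
  rw [Real.norm_eq_abs, Real.norm_eq_abs]
  exact (abs_le.2 ⟨hlo, hup⟩).trans (le_abs_self _)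

theorem sq_chi_mem (l : Fin d → ℝ) (hl : ∑ i, l i ^ 2 = 1) (n : ℕ) :
    MemLp (chi l n : Om d → ℝ) 2 (nu d p) := by
  have := sq_fin (d := d) p
  refine MemLp.of_bound (measurable_chi l n).aestronglyMeasurable n
    (Eventually.of_forall fun ω => ?_)
  rw [Real.norm_eq_abs]
  exact abs_chi_le l hl n ω

theorem Nn_step (l : Fin d → ℝ) (hl : ∑ i, l i ^ 2 = 1) (G : Fld d) (hG : Curl p G) (n : ℕ) :
    Integrable (fun ω => dg ω * Nn l G n ω) (nu d p) ∧
    ∫ ω, dg ω * Nn l G (n + 1) ω ∂(nu d p) - ∫ ω, dg ω * Nn l G n ω ∂(nu d p)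
      = (1 / 2) * ip p G (GPsi l n) := by
  have hGm := hG.sq.1
  have hN := sq_N_int l hl hG n
  have hNd := sq_dg_int hN
  refine ⟨hNd, ?_⟩
  obtain ⟨hf, hS⟩ := sq_mem hG n
  have hDl : SqI p (Dl l : Fld d) := SqI.Dl l
  have hDa : AntiAE p (Dl l : Fld d) := by
    refine Eventually.of_forall fun ω δ _ => ?_
    simp only [Dl]
    exact dt_rv l δ
  have hchi := sq_chi_mem (p := p) l hl n
  have hchim : Measurable (chi l n : Om d → ℝ) := measurable_chi l n
  have hdrf : MemLp (drf l : Om d → ℝ) 2 (nu d p) := sq_chi_mem l hl 1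
  have hdrfm : Measurable (drf l : Om d → ℝ) := measurable_chi l 1
  have i1 : Integrable (fun ω => ∑ δ, oo ω δ * (Dl l ω δ * G ω δ)) (nu d p) :=
    hDl.integrable_mul hG.sq
  have i2 := sq_anti_int hDl (sq_meas_f hGm n) hf
  have i3 := sq_anti_int hG.sq hchim hchi
  have i4 := sq_shift (sq_meas_N hGm l n) hN
  have i5 := sq_int_same hG.sq hchim hchi
  have e : ∫ ω, dg ω * Nn l G (n + 1) ω ∂(nu d p)
      = (∫ ω, dg ω * Nn l G n ω ∂(nu d p) +
        (((∫ ω, ∑ δ, oo ω δ * (Dl l ω δ * G ω δ) ∂(nu d p)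
        + ∫ ω, ∑ δ, oo ω δ * (Dl l ω δ * sqf G n (sh (st δ) ω)) ∂(nu d p))
        + ∫ ω, ∑ δ, oo ω δ * (G ω δ * chi l n (sh (st δ) ω)) ∂(nu d p))
        + ∫ ω, ∑ δ, oo ω δ * Nn l G n (sh (st δ) ω) ∂(nu d p))) / 2 := by
    rw [← sq_lin5 hNd i1 i2 i3 i4.1]
    refine integral_congr_ae ?_
    filter_upwards [sq_good hG] with ω hω
    rw [sq_N_succ hω]
    simp only [Dl]
    congr 2
    rw [← Finset.sum_add_distrib, ← Finset.sum_add_distrib, ← Finset.sum_add_distrib]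
    refine Finset.sum_congr rfl fun δ _ => ?_
    ring
  -- the two correlations agree
  have hcor : ∫ ω, ∑ δ, oo ω δ * (Dl l ω δ * sqf G n ω) ∂(nu d p)
      = ∫ ω, ∑ δ, oo ω δ * (G ω δ * chi l n ω) ∂(nu d p) := by
    have a1 : ∫ ω, ∑ δ, oo ω δ * (Dl l ω δ * sqf G n ω) ∂(nu d p)
        = 2 * ∫ ω, dg ω * (drf l ω * sqf G n ω) ∂(nu d p) := by
      rw [← integral_const_mul]
      refine integral_congr_ae (Eventually.of_forall fun ω => ?_)
      have h := dg_mul_drf l ω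
      calc ∑ δ, oo ω δ * (Dl l ω δ * sqf G n ω) = (∑ δ, oo ω δ * dt l δ) * sqf G n ω := by
            rw [Finset.sum_mul]
            refine Finset.sum_congr rfl fun δ _ => ?_
            simp only [Dl]
            ring
        _ = 2 * (dg ω * (drf l ω * sqf G n ω)) := by
            rw [← mul_assoc (dg ω), h]
            ring
    rw [a1, sq_pair hG hdrf, sq_G_pair hG]
    congr 1
    have a2 : ∫ ω, dg ω * (sqf G 1 ω * chi l n ω) ∂(nu d p)
        = ∑ j ∈ Finset.range n, ∫ ω, dg ω * (sqf G 1 ω * (Ae^[j] (drf l)) ω) ∂(nu d p) := by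
      rw [← integral_finsetSum]
      · refine integral_congr_ae (Eventually.of_forall fun ω => ?_)
        simp only [chi_eq_sum, Finset.mul_sum]
      · intro j _
        exact sq_dg_int ((sq_mem hG 1).1.integrable_mul (sq_iter_mem hdrfm hdrf j).2)
    rw [a2]
    refine Finset.sum_congr rfl fun j _ => ?_
    rw [Ae_iter_symm p hdrfm (sq_meas_f hGm 1) hdrf (sq_mem hG 1).1 j]
    refine integral_congr_ae (Eventually.of_forall fun ω => ?_)
    simp only
    ring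
  have hip : ip p G (GPsi l n) = ∫ ω, ∑ δ, oo ω δ * (Dl l ω δ * G ω δ) ∂(nu d p)
      + ∫ ω, ∑ δ, oo ω δ * (G ω δ * chi l n (sh (st δ) ω)) ∂(nu d p)
      - ∫ ω, ∑ δ, oo ω δ * (G ω δ * chi l n ω) ∂(nu d p) := by
    rw [← sq_lin3 i1 i3 i5]
    unfold ip
    refine integral_congr_ae (Eventually.of_forall fun ω => ?_)
    show ∑ δ, oo ω δ * (G ω δ * GPsi l n ω δ) = ∑ δ, oo ω δ * (Dl l ω δ * G ω δ)
      + ∑ δ, oo ω δ * (G ω δ * chi l n (sh (st δ) ω)) - ∑ δ, oo ω δ * (G ω δ * chi l n ω)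
    rw [← Finset.sum_add_distrib, ← Finset.sum_sub_distrib]
    refine Finset.sum_congr rfl fun δ _ => ?_
    simp only [GPsi, gr, Dl]
    ring
  rw [hip, e, i4.2, sq_anti_eq hDl hDa (sq_meas_f hGm n) hf, sq_anti_eq hG.sq hG.anti hchim hchi,
    hcor]
  ring

end Ein99
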