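import Pool.Agent.LibEin99.F_Sub
import Pool.Agent.LibEin99.F_Sq

/-!
TASK F_Prob. The potential along the lazy walk is `o(√n)` in probability.

Fix `η, κ' > 0`; `L = ⌈T √n⌉`. Let `q(x,y) = 1{η √n ≤ |Pot G ω x y|}`. By translation invariance
`∫ dg(ω) ∑_y Ln ω n 1_y 0 q(0,y) d(nu) = (1/|Bx L 0|) E ∑_{x ∈ Bx L 0} 1{InfC ω x} dg(sh x ω)
∑_y Ln ω n 1_y x q(x,y)` (for each `x` substitute `ω ↦ sh x ω`; `Ln_sh`, `Pot_sh`, `mp_sh`).
For `x, y` in the cluster, `q(x,y) ≤ 1{η√n/2 ≤ |Phi G x ω|} + 1{η√n/2 ≤ |Phi G y ω|}` (a.s.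
`Pot G ω x y = Phi G y ω - Phi G x ω` as `rg (sh x ω) = 0` for `x` in the cluster: `rg_eq_zero`,
`pot_add`).
First term: `≤ (1/|B_L|) ∑_{x ∈ B_L} 2d P(η√n/2 ≤ |Phi G x|) ≤ 2d · ε L/(η√n/2)` by Markov and
`phi_sublinear`.
Second term, `y ∈ Bx (2L) 0`: `∑_x dg(sh x ω) Ln ω n 1_y x ≤ dg(sh y ω)` (`Ln_rev`, total mass one), so it
is `≤ (1/|B_L|) ∑_{y ∈ B_{2L}} 2d P(..) ≤ 2d 4^d ε 2L/(η√n/2)`.
Second term, `y ∉ Bx (2L) 0`: then `|y_i - x_i| > L` for some `i`; the probability of a displacement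
`> L` in direction `e_i` is at most `uu p e_i n / L² ≤ C n/L² ≤ C/T²` (`uu` for the unit vector
`Pi.single i 1`; `uu n ≤ n uu 1`).
Let `n → ∞` (`ε → 0`), then `T → ∞`.
-/

open MeasureTheory ProbabilityTheory Filter Topology

namespace Ein99

variable {d : ℕ} {p : unitInterval} {K : ℕ} {C c : ℝ}

theorem pb_shift {f : Om d → ℝ} (hf : Measurable f) (x : V d) :
    ∫ ω, f (sh x ω) ∂(Pr d p) = ∫ ω, f ω ∂(Pr d p) := by
  conv_rhs => rw [← map_sh p x]
  rw [integral_map (measurable_sh x).aemeasurable hf.aestronglyMeasurable]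

/-- the integrand at the origin, restricted to the infinite cluster -/
noncomputable def pbA (n : ℕ) (H : Om d → V d → ℝ) (ω : Om d) : ℝ :=
  Set.indicator {ω : Om d | InfC ω 0} (fun ω => dg ω * Ln ω n (H ω) 0) ω

theorem pbA_meas (n : ℕ) {H : Om d → V d → ℝ} (hH : ∀ y, Measurable (fun ω => H ω y)) :
    Measurable (pbA n H) :=
  (measurable_dg.mul (measurable_Ln n H hH 0)).indicator (measurableSet_InfC 0)

theorem pbA_int (n : ℕ) {H : Om d → V d → ℝ} (hH : ∀ y, Measurable (fun ω => H ω y)) (x : V d) :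
    ∫ ω, pbA n H (sh x ω) ∂(Pr d p) = ∫ ω, dg ω * Ln ω n (H ω) 0 ∂(nu d p) := by
  rw [pb_shift (pbA_meas n hH) x]
  unfold nu pbA
  rw [integral_indicator (measurableSet_InfC 0)]

theorem pb_abs_Ln (ω : Om d) (n : ℕ) {g : V d → ℝ} {B : ℝ} {x : V d}
    (h : ∀ y ∈ Bx n x, |g y| ≤ B) : |Ln ω n g x| ≤ B := by
  rw [abs_le]
  constructor
  · have h1 := sq_Ln_le ω n (g := fun _ => -B) (h := g) (x := x)
      (fun y hy _ => (abs_le.1 (h y hy)).1)
    rw [Ln_const] at h1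
    exact h1
  · have h1 := sq_Ln_le ω n (g := g) (h := fun _ => B) (x := x)
      (fun y hy _ => (abs_le.1 (h y hy)).2)
    rw [Ln_const] at h1
    exact h1

theorem pbA_bound (n : ℕ) {H : Om d → V d → ℝ} {B : ℝ} (hB : 0 ≤ B)
    (h : ∀ ω, ∀ y ∈ Bx n (0 : V d), |H ω y| ≤ B) (ω : Om d) : |pbA n H ω| ≤ 2 * d * B := by
  unfold pbA
  by_cases hω : InfC ω 0
  · rw [Set.indicator_of_mem (show ω ∈ {ω : Om d | InfC ω 0} from hω), abs_mul,
      abs_of_nonneg (sq_dg_nonneg ω)]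
    exact mul_le_mul (dg_le ω) (pb_abs_Ln ω n (h ω)) (abs_nonneg _) (by positivity)
  · rw [Set.indicator_of_notMem (show ω ∉ {ω : Om d | InfC ω 0} from hω), abs_zero]
    positivity

theorem pb_intg {f : Om d → ℝ} (hf : Measurable f) {B : ℝ} (h : ∀ ω, |f ω| ≤ B) :
    Integrable f (Pr d p) :=
  Integrable.of_bound hf.aestronglyMeasurable B (Eventually.of_forall h)

/-- the weights -/
noncomputable def pbw (ω : Om d) (n : ℕ) (x y : V d) : ℝ :=
  Ln ω n (Set.indicator {y} (fun _ => (1 : ℝ))) x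

theorem pbw_nonneg (ω : Om d) (n : ℕ) (x y : V d) : 0 ≤ pbw ω n x y := sq_w_nonneg ω n x y

theorem pbw_sum (ω : Om d) (n : ℕ) (x : V d) : ∑ y ∈ Bx n x, pbw ω n x y = 1 := by
  have h := Ln_eq_sum ω n (fun _ => (1 : ℝ)) x
  rw [Ln_const] at h
  simp only [mul_one] at h
  exact h.symm

theorem pbw_zero (ω : Om d) (n : ℕ) (x y : V d) (hy : y ∉ Bx n x) : pbw ω n x y = 0 := by
  unfold pbw
  rw [Ln_eq_sum]
  refine Finset.sum_eq_zero fun z hz => ?_
  have : z ≠ y := fun e => hy (e ▸ hz)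
  rw [Set.indicator_of_notMem (by simpa using this), mul_zero]

theorem pbw_sum_le (ω : Om d) (n : ℕ) (x : V d) (S : Finset (V d)) :
    ∑ y ∈ S, pbw ω n x y ≤ 1 := by
  classical
  calc ∑ y ∈ S, pbw ω n x y = ∑ y ∈ S.filter (fun y => y ∈ Bx n x), pbw ω n x y := by
        rw [Finset.sum_filter]
        refine Finset.sum_congr rfl fun y _ => ?_
        split_ifs with h
        · rfl
        · exact pbw_zero ω n x y h
    _ ≤ ∑ y ∈ Bx n x, pbw ω n x y := by
        refine Finset.sum_le_sum_of_subset_of_nonneg ?_ fun y _ _ => pbw_nonneg ω n x y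
        intro y hy
        exact (Finset.mem_filter.1 hy).2
    _ = 1 := pbw_sum ω n x

open Classical in
/-- the indicator that the potential at `y` is large -/
noncomputable def pbb (G : Fld d) (θ : ℝ) (y : V d) (ω : Om d) : ℝ :=
  if θ / 2 ≤ |Phi G y ω| then 1 else 0

theorem pbb_nonneg (G : Fld d) (θ : ℝ) (y : V d) (ω : Om d) : 0 ≤ pbb G θ y ω := by
  unfold pbb
  split_ifs <;> norm_num

theorem pbb_le_one (G : Fld d) (θ : ℝ) (y : V d) (ω : Om d) : pbb G θ y ω ≤ 1 := by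
  unfold pbb
  split_ifs <;> norm_num

/-- the indicator that the potential difference is large -/
noncomputable def pbQ (G : Fld d) (θ : ℝ) (ω : Om d) (y : V d) : ℝ :=
  Set.indicator {y : V d | θ ≤ |Pot G ω 0 y|} (fun _ => (1 : ℝ)) y

theorem pbQ_nonneg (G : Fld d) (θ : ℝ) (ω : Om d) (y : V d) : 0 ≤ pbQ G θ ω y :=
  Set.indicator_nonneg (by intros; norm_num) y

theorem pbQ_le_one (G : Fld d) (θ : ℝ) (ω : Om d) (y : V d) : pbQ G θ ω y ≤ 1 :=
  Set.indicator_le_self' (by intros; norm_num) y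

theorem pbQ_meas {G : Fld d} (hG : ∀ δ, Measurable (fun ω => G ω δ)) (θ : ℝ) (y : V d) :
    Measurable (fun ω => pbQ G θ ω y) := by
  classical
  have h : (fun ω => pbQ G θ ω y) = Set.indicator {ω | θ ≤ |Pot G ω 0 y|} (fun _ => (1 : ℝ)) := by
    funext ω
    unfold pbQ Set.indicator
    simp only [Set.mem_ofPred_eq]
  rw [h]
  exact measurable_const.indicator
    (measurableSet_le measurable_const (measurable_Pot G hG 0 y).abs)

/-- unit vectors -/
noncomputable def pbe (i : Fin d) : Fin d → ℝ := Pi.single i 1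

theorem pbe_sq (i : Fin d) : ∑ j, (pbe i j) ^ 2 = 1 := by
  unfold pbe
  rw [Finset.sum_eq_single i]
  · simp
  · intro j _ hj
    simp [hj]
  · intro h
    exact absurd (Finset.mem_univ i) h

theorem pb_dot (i : Fin d) (y : V d) : dot (pbe i) y = y i := by
  unfold dot pbe
  rw [Finset.sum_eq_single i]
  · simp
  · intro j _ hj
    simp [hj]
  · intro h
    exact absurd (Finset.mem_univ i) h

/-- almost sure properties -/
structure PbGood (G : Fld d) (ω : Om d) : Prop where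
  uniq : ∀ x y : V d, InfC ω x → InfC ω y → Conn ω x y
  add : ∀ x y z : V d, InfC ω x → Conn ω x y → Conn ω y z →
      Pot G ω x y + Pot G ω y z = Pot G ω x z

theorem pb_good (hH : HypH d p K C c) {G : Fld d} (hG : Curl p G) :
    ∀ᵐ ω ∂(Pr d p), PbGood G ω := by
  filter_upwards [ae_unique hH, pot_add G hG.sq hG.anti hG.orth] with ω h1 h2
  exact ⟨h1, h2⟩

theorem pb_Phi {G : Fld d} {ω : Om d} (hω : PbGood G ω) {x y : V d} (hx : InfC ω x)
    (hc : Conn ω x y) : Pot G ω x y = Phi G y ω - Phi G x ω := by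
  have hroot : ∀ z : V d, InfC ω z → Phi G z ω = Pot G ω (rg ω) z := by
    intro z hz
    have h1 : rg (sh z ω) = 0 := by
      refine rg_eq_zero _ ?_
      rw [InfC_sh, zero_add]
      exact hz
    unfold Phi
    rw [h1, add_zero]
  have hy : InfC ω y := InfC_of_conn ω hc hx
  have hr : InfC ω (rg ω) := (rg_spec ω ⟨x, hx⟩).1
  have h2 := hω.add (rg ω) x y hr (hω.uniq _ _ hr hx) hc
  rw [hroot y hy, hroot x hx, ← h2]
  ring

theorem pb_ind {G : Fld d} {ω : Om d} (hω : PbGood G ω) (θ : ℝ) {x y : V d} (hx : InfC ω x)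
    (hc : Conn ω x y) : pbQ G θ (sh x ω) (y - x) ≤ pbb G θ x ω + pbb G θ y ω := by
  classical
  have h1 : Pot G (sh x ω) 0 (y - x) = Pot G ω x y := by
    rw [Pot_sh, zero_add, sub_add_cancel]
  by_cases h : θ ≤ |Pot G ω x y|
  · have h0 : pbQ G θ (sh x ω) (y - x) = 1 := by
      unfold pbQ
      have hm : (y - x) ∈ {y : V d | θ ≤ |Pot G (sh x ω) 0 y|} := by
        show θ ≤ |Pot G (sh x ω) 0 (y - x)|
        rw [h1]
        exact h
      rw [Set.indicator_of_mem hm]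
    rw [h0]
    rw [pb_Phi hω hx hc] at h
    by_contra hcon
    push Not at hcon
    have h2 : pbb G θ x ω = 0 := by
      have a := pbb_nonneg G θ y ω
      unfold pbb at hcon ⊢
      split_ifs at hcon ⊢ <;> first | rfl | (exfalso; linarith)
    have h3 : pbb G θ y ω = 0 := by
      have a := pbb_nonneg G θ x ω
      unfold pbb at hcon ⊢
      split_ifs at hcon ⊢ <;> first | rfl | (exfalso; linarith)
    have h4 : |Phi G x ω| < θ / 2 := by
      unfold pbb at h2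
      split_ifs at h2 with h5
      · norm_num at h2
      · exact not_le.1 h5
    have h5 : |Phi G y ω| < θ / 2 := by
      unfold pbb at h3
      split_ifs at h3 with h6
      · norm_num at h3
      · exact not_le.1 h6
    have h6 := abs_sub (Phi G y ω) (Phi G x ω)
    linarith
  · have h0 : pbQ G θ (sh x ω) (y - x) = 0 := by
      unfold pbQ
      refine Set.indicator_of_notMem (fun hm => h ?_) _
      have hm' : θ ≤ |Pot G (sh x ω) 0 (y - x)| := hm
      rwa [h1] at hm'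
    rw [h0]
    exact add_nonneg (pbb_nonneg _ _ _ _) (pbb_nonneg _ _ _ _)

theorem pb_far (L : ℕ) (hL : 1 ≤ L) {x y : V d} (hx : x ∈ Bx L (0 : V d))
    (hy : y ∉ Bx (2 * L) (0 : V d)) :
    1 ≤ ∑ i, dot (pbe i) (y - x) ^ 2 / (L : ℝ) ^ 2 := by
  rw [mem_Bx] at hx hy
  push Not at hy
  obtain ⟨i, hi⟩ := hy
  have hL0 : (0 : ℝ) < L := by exact_mod_cast hL
  have h1 : (L : ℤ) < |y i - x i| := by
    have h2 := hx i
    simp only [Pi.zero_apply, sub_zero] at hi h2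
    push_cast at hi
    have h3 := abs_sub_abs_le_abs_sub (y i) (x i)
    linarith
  have h2 : (L : ℝ) < |dot (pbe i) (y - x)| := by
    rw [pb_dot]
    have h3 : ((L : ℤ) : ℝ) < ((|y i - x i| : ℤ) : ℝ) := by exact_mod_cast h1
    simpa using h3
  have h3 : 1 ≤ dot (pbe i) (y - x) ^ 2 / (L : ℝ) ^ 2 := by
    rw [le_div_iff₀ (by positivity), one_mul, ← sq_abs (dot (pbe i) (y - x))]
    exact pow_le_pow_left₀ hL0.le h2.le 2
  refine h3.trans ?_
  exact Finset.single_le_sum (f := fun i => dot (pbe i) (y - x) ^ 2 / (L : ℝ) ^ 2)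
    (fun j _ => by positivity) (Finset.mem_univ i)

theorem pb_point {G : Fld d} {ω : Om d} (hω : PbGood G ω) (θ : ℝ) (n L : ℕ) (hL : 1 ≤ L)
    {x : V d} (hxL : x ∈ Bx L (0 : V d)) (hx : InfC ω x) :
    Ln ω n (fun y => pbQ G θ (sh x ω) (y - x)) x ≤ pbb G θ x ω
      + ∑ y ∈ Bx (2 * L) (0 : V d), pbw ω n x y * pbb G θ y ω
      + ∑ i, Ln ω n (fun y => dot (pbe i) (y - x) ^ 2) x / (L : ℝ) ^ 2 := by
  classical
  have hL0 : (0 : ℝ) < L := by exact_mod_cast hL
  set D : V d → ℝ := fun y => ∑ i, dot (pbe i) (y - x) ^ 2 / (L : ℝ) ^ 2 with hD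
  set b' : V d → ℝ := fun y => if y ∈ Bx (2 * L) (0 : V d) then pbb G θ y ω else 0 with hb'
  have h1 : Ln ω n (fun y => pbQ G θ (sh x ω) (y - x)) x ≤
      Ln ω n ((fun _ => pbb G θ x ω) + b' + D) x := by
    refine sq_Ln_le ω n fun y _ hc => ?_
    have h2 := pb_ind hω θ hx hc
    simp only [Pi.add_apply]
    by_cases hy : y ∈ Bx (2 * L) (0 : V d)
    · have h3 : b' y = pbb G θ y ω := by simp [hb', hy]
      have h4 : 0 ≤ D y := Finset.sum_nonneg fun i _ => by positivity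
      rw [h3]
      linarith
    · have h3 : b' y = 0 := by simp [hb', hy]
      have h4 : 1 ≤ D y := pb_far L hL hxL hy
      have h5 := pbb_le_one G θ y ω
      rw [h3]
      linarith
  refine h1.trans ?_
  rw [Ln_add, Ln_add, Ln_const]
  simp only [Pi.add_apply]
  have h6 : Ln ω n b' x ≤ ∑ y ∈ Bx (2 * L) (0 : V d), pbw ω n x y * pbb G θ y ω := by
    rw [Ln_eq_sum]
    calc ∑ y ∈ Bx n x, Ln ω n (Set.indicator {y} (fun _ => (1 : ℝ))) x * b' y
        = ∑ y ∈ (Bx n x).filter (fun y => y ∈ Bx (2 * L) (0 : V d)),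
            pbw ω n x y * pbb G θ y ω := by
          rw [Finset.sum_filter]
          refine Finset.sum_congr rfl fun y _ => ?_
          simp only [hb', pbw]
          split_ifs
          · rfl
          · rw [mul_zero]
      _ ≤ ∑ y ∈ Bx (2 * L) (0 : V d), pbw ω n x y * pbb G θ y ω := by
          refine Finset.sum_le_sum_of_subset_of_nonneg ?_ fun y _ _ =>
            mul_nonneg (pbw_nonneg ω n x y) (pbb_nonneg G θ y ω)
          intro y hy
          exact (Finset.mem_filter.1 hy).2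
  have h7 : Ln ω n D x = ∑ i, Ln ω n (fun y => dot (pbe i) (y - x) ^ 2) x / (L : ℝ) ^ 2 := by
    rw [Ln_eq_sum]
    have h8 : ∀ i, Ln ω n (fun y => dot (pbe i) (y - x) ^ 2) x
        = ∑ y ∈ Bx n x, Ln ω n (Set.indicator {y} (fun _ => (1 : ℝ))) x *
          dot (pbe i) (y - x) ^ 2 := fun i => Ln_eq_sum ω n _ x
    simp only [h8, hD, Finset.mul_sum, Finset.sum_div]
    rw [Finset.sum_comm]
    refine Finset.sum_congr rfl fun i _ => Finset.sum_congr rfl fun y _ => ?_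
    ring
  rw [h7]
  linarith

theorem pbA_sh_of {n : ℕ} {H : Om d → V d → ℝ} {ω : Om d} {x : V d} (hx : InfC ω x) :
    pbA n H (sh x ω) = dg (sh x ω) * Ln ω n (fun y => H (sh x ω) (y - x)) x := by
  unfold pbA
  have h : sh x ω ∈ {ω : Om d | InfC ω 0} := by
    show InfC (sh x ω) 0
    rw [InfC_sh, zero_add]
    exact hx
  rw [Set.indicator_of_mem h, Ln_sh, zero_add]

theorem pbA_sh_not {n : ℕ} {H : Om d → V d → ℝ} {ω : Om d} {x : V d} (hx : ¬ InfC ω x) :
    pbA n H (sh x ω) = 0 := by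
  unfold pbA
  have h : sh x ω ∉ {ω : Om d | InfC ω 0} := by
    intro h
    have h2 : InfC (sh x ω) 0 := h
    rw [InfC_sh, zero_add] at h2
    exact hx h2
  rw [Set.indicator_of_notMem h]

theorem pb_sum {G : Fld d} {ω : Om d} (hω : PbGood G ω) (θ : ℝ) (n L : ℕ) (hL : 1 ≤ L) :
    ∑ x ∈ Bx L (0 : V d), pbA n (pbQ G θ) (sh x ω) ≤
      2 * d * ∑ x ∈ Bx L (0 : V d), pbb G θ x ω
      + 2 * d * ∑ y ∈ Bx (2 * L) (0 : V d), pbb G θ y ω
      + ∑ x ∈ Bx L (0 : V d), ∑ i, pbA n (fun _ y => dot (pbe i) y ^ 2) (sh x ω) / (L : ℝ) ^ 2 := by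
  have hterm : ∀ x ∈ Bx L (0 : V d), pbA n (pbQ G θ) (sh x ω) ≤ 2 * d * pbb G θ x ω
      + ∑ y ∈ Bx (2 * L) (0 : V d), (dg (sh x ω) * pbw ω n x y) * pbb G θ y ω
      + ∑ i, pbA n (fun _ y => dot (pbe i) y ^ 2) (sh x ω) / (L : ℝ) ^ 2 := by
    intro x hxL
    by_cases hx : InfC ω x
    · have h1 := pb_point hω θ n L hL hxL hx
      have h2 := mul_le_mul_of_nonneg_left h1 (sq_dg_nonneg (sh x ω))
      rw [pbA_sh_of hx]
      refine h2.trans ?_
      rw [mul_add, mul_add]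
      refine add_le_add (add_le_add ?_ (le_of_eq ?_)) (le_of_eq ?_)
      · exact mul_le_mul_of_nonneg_right (dg_le _) (pbb_nonneg _ _ _ _)
      · rw [Finset.mul_sum]
        refine Finset.sum_congr rfl fun y _ => ?_
        ring
      · rw [Finset.mul_sum]
        refine Finset.sum_congr rfl fun i _ => ?_
        rw [pbA_sh_of hx]
        ring
    · rw [pbA_sh_not hx]
      have h3 : 0 ≤ 2 * d * pbb G θ x ω := by
        have := pbb_nonneg G θ x ω
        positivity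
      have h4 : 0 ≤ ∑ y ∈ Bx (2 * L) (0 : V d), (dg (sh x ω) * pbw ω n x y) * pbb G θ y ω :=
        Finset.sum_nonneg fun y _ => mul_nonneg (mul_nonneg (sq_dg_nonneg _)
          (pbw_nonneg ω n x y)) (pbb_nonneg _ _ _ _)
      have h5 : 0 ≤ ∑ i, pbA n (fun _ y => dot (pbe i) y ^ 2) (sh x ω) / (L : ℝ) ^ 2 := by
        refine Finset.sum_nonneg fun i _ => ?_
        rw [pbA_sh_not hx]
        simp
      linarith
  refine (Finset.sum_le_sum hterm).trans ?_
  rw [Finset.sum_add_distrib, Finset.sum_add_distrib]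
  refine add_le_add (add_le_add (le_of_eq ?_) ?_) le_rfl
  · rw [Finset.mul_sum]
  · rw [Finset.sum_comm, Finset.mul_sum]
    refine Finset.sum_le_sum fun y _ => ?_
    rw [← Finset.sum_mul]
    refine mul_le_mul_of_nonneg_right ?_ (pbb_nonneg _ _ _ _)
    calc ∑ x ∈ Bx L (0 : V d), dg (sh x ω) * pbw ω n x y
        = ∑ x ∈ Bx L (0 : V d), dg (sh y ω) * pbw ω n y x :=
          Finset.sum_congr rfl fun x _ => Ln_rev ω n x y
      _ = dg (sh y ω) * ∑ x ∈ Bx L (0 : V d), pbw ω n y x := by rw [Finset.mul_sum]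
      _ ≤ (2 * d) * 1 := mul_le_mul (dg_le _) (pbw_sum_le ω n y _)
          (Finset.sum_nonneg fun x _ => pbw_nonneg ω n y x) (by positivity)
      _ = 2 * d := mul_one _

theorem pbb_int {G : Fld d} {y : V d} (hP : Integrable (Phi G y) (Pr d p)) (θ : ℝ) :
    Integrable (pbb G θ y) (Pr d p) := by
  classical
  have hg : Measurable (fun t : ℝ => if θ / 2 ≤ |t| then (1 : ℝ) else 0) :=
    Measurable.ite (measurableSet_le measurable_const measurable_id.abs) measurable_const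
      measurable_const
  have hm : AEStronglyMeasurable (pbb G θ y) (Pr d p) := by
    have h := (hg.comp_aemeasurable hP.aestronglyMeasurable.aemeasurable)
    refine AEMeasurable.aestronglyMeasurable ?_
    refine h.congr (Eventually.of_forall fun ω => ?_)
    simp only [Function.comp, pbb]
  refine Integrable.of_bound hm 1 (Eventually.of_forall fun ω => ?_)
  rw [Real.norm_eq_abs, abs_of_nonneg (pbb_nonneg _ _ _ _)]
  exact pbb_le_one _ _ _ _

theorem pbb_le {G : Fld d} {y : V d} (hP : Integrable (Phi G y) (Pr d p)) {θ : ℝ} (hθ : 0 < θ) :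
    ∫ ω, pbb G θ y ω ∂(Pr d p) ≤ 2 / θ * ∫ ω, |Phi G y ω| ∂(Pr d p) := by
  rw [← integral_const_mul]
  refine integral_mono (pbb_int hP θ) (hP.abs.const_mul _) fun ω => ?_
  show pbb G θ y ω ≤ 2 / θ * |Phi G y ω|
  unfold pbb
  split_ifs with h
  · rw [div_mul_eq_mul_div, le_div_iff₀ hθ]
    linarith
  · positivity

theorem pb_uu_le (l : Fin d → ℝ) (hl : ∑ i, l i ^ 2 = 1) (n : ℕ) :
    uu p l n ≤ n * uu p l 1 := by
  induction n with
  | zero => rw [uu_zero]; simp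
  | succ n ih =>
    have h := uu_antitone p l hl (Nat.zero_le n)
    simp only [zero_add, uu_zero, sub_zero] at h
    push_cast
    linarith

/-- the basic estimate -/
theorem pb_main (hH : HypH d p K C c) (G : Fld d) (hG : Curl p G)
    (n L : ℕ) (hL : 1 ≤ L) (θ : ℝ) (hθ : 0 < θ) (β : ℝ)
    (hβ : ∀ y ∈ Bx (2 * L) (0 : V d), ∫ ω, |Phi G y ω| ∂(Pr d p) ≤ β) :
    ∫ ω, dg ω * Ln ω n (pbQ G θ ω) 0 ∂(nu d p) ≤
      2 * d * (1 + 2 ^ d) * (2 / θ * β) + (∑ i : Fin d, uu p (pbe i) n) / (L : ℝ) ^ 2 := by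
  have hPhi := (phi_sublinear hH G hG.sq hG.anti hG.orth).1
  have hGm := hG.sq.1
  have hL0 : (0 : ℝ) < L := by exact_mod_cast hL
  set a := ∫ ω, dg ω * Ln ω n (pbQ G θ ω) 0 ∂(nu d p) with ha
  -- integrability
  have iQ : ∀ x : V d, Integrable (fun ω => pbA n (pbQ G θ) (sh x ω)) (Pr d p) := fun x =>
    pb_intg ((pbA_meas n (pbQ_meas hGm θ)).comp (measurable_sh x))
      (B := 2 * d * 1) (fun ω => pbA_bound n zero_le_one (fun ω y _ => by
        rw [abs_of_nonneg (pbQ_nonneg G θ ω y)]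
        exact pbQ_le_one G θ ω y) _)
  have iD : ∀ (x : V d) (i : Fin d), Integrable
      (fun ω => pbA n (fun (_ : Om d) y => dot (pbe i) y ^ 2) (sh x ω) / (L : ℝ) ^ 2)
      (Pr d p) := by
    intro x i
    refine Integrable.div_const ?_ _
    refine pb_intg ((pbA_meas n (H := fun (_ : Om d) y => dot (pbe i) y ^ 2)
      (fun y => measurable_const)).comp (measurable_sh x))
      (B := 2 * d * (Real.sqrt d * n) ^ 2) (fun ω => pbA_bound n (sq_nonneg _)
        (fun ω y hy => ?_) _)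
    have h2 := abs_dot_sub_le (pbe i) (pbe_sq i) hy
    have h3 : dot (pbe i) (0 : V d) = 0 := by simp [dot]
    rw [h3, sub_zero] at h2
    rw [abs_of_nonneg (sq_nonneg _), ← sq_abs]
    exact pow_le_pow_left₀ (abs_nonneg _) h2 2
  have ib : ∀ y : V d, Integrable (pbb G θ y) (Pr d p) := fun y => pbb_int (hPhi y) θ
  have hint : ∫ ω, ∑ x ∈ Bx L (0 : V d), pbA n (pbQ G θ) (sh x ω) ∂(Pr d p) ≤
      ∫ ω, (2 * d * ∑ x ∈ Bx L (0 : V d), pbb G θ x ω
      + 2 * d * ∑ y ∈ Bx (2 * L) (0 : V d), pbb G θ y ω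
      + ∑ x ∈ Bx L (0 : V d), ∑ i, pbA n (fun _ y => dot (pbe i) y ^ 2) (sh x ω) / (L : ℝ) ^ 2)
        ∂(Pr d p) := by
    refine integral_mono_ae (integrable_finsetSum _ fun x _ => iQ x) ?_ ?_
    · refine Integrable.add (Integrable.add ?_ ?_) ?_
      · exact (integrable_finsetSum _ fun x _ => ib x).const_mul _
      · exact (integrable_finsetSum _ fun x _ => ib x).const_mul _
      · exact integrable_finsetSum _ fun x _ => integrable_finsetSum _ fun i _ => iD x i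
    · filter_upwards [pb_good hH hG] with ω hω
      exact pb_sum hω θ n L hL
  have hlhs : ∫ ω, ∑ x ∈ Bx L (0 : V d), pbA n (pbQ G θ) (sh x ω) ∂(Pr d p)
      = ((Bx L (0 : V d)).card : ℝ) * a := by
    rw [integral_finsetSum _ fun x _ => iQ x]
    simp only [pbA_int n (pbQ_meas hGm θ)]
    rw [Finset.sum_const, nsmul_eq_mul]
  have hbsum : ∀ S : Finset (V d), S ⊆ Bx (2 * L) (0 : V d) →
      ∫ ω, 2 * d * ∑ x ∈ S, pbb G θ x ω ∂(Pr d p) ≤ 2 * d * (S.card * (2 / θ * β)) := by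
    intro S hS
    rw [integral_const_mul, integral_finsetSum _ fun x _ => ib x]
    refine mul_le_mul_of_nonneg_left ?_ (by positivity)
    calc ∑ x ∈ S, ∫ ω, pbb G θ x ω ∂(Pr d p) ≤ ∑ _x ∈ S, 2 / θ * β := by
          refine Finset.sum_le_sum fun x hx => ?_
          refine (pbb_le (hPhi x) hθ).trans ?_
          exact mul_le_mul_of_nonneg_left (hβ x (hS hx)) (by positivity)
      _ = S.card * (2 / θ * β) := by rw [Finset.sum_const, nsmul_eq_mul]
  have hDsum : ∫ ω, ∑ x ∈ Bx L (0 : V d), ∑ i,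
      pbA n (fun _ y => dot (pbe i) y ^ 2) (sh x ω) / (L : ℝ) ^ 2 ∂(Pr d p)
      = ((Bx L (0 : V d)).card : ℝ) * ((∑ i : Fin d, uu p (pbe i) n) / (L : ℝ) ^ 2) := by
    rw [integral_finsetSum _ fun x _ => integrable_finsetSum _ fun i _ => iD x i]
    have h9 : ∀ x ∈ Bx L (0 : V d), ∫ ω, ∑ i,
        pbA n (fun _ y => dot (pbe i) y ^ 2) (sh x ω) / (L : ℝ) ^ 2 ∂(Pr d p)
        = (∑ i : Fin d, uu p (pbe i) n) / (L : ℝ) ^ 2 := by
      intro x _
      rw [integral_finsetSum _ fun i _ => iD x i, Finset.sum_div]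
      refine Finset.sum_congr rfl fun i _ => ?_
      rw [integral_div, pbA_int n (H := fun (_ : Om d) y => dot (pbe i) y ^ 2)
        (fun y => measurable_const)]
      rfl
    rw [Finset.sum_congr rfl h9, Finset.sum_const, nsmul_eq_mul]
  have hsplit : ∫ ω, (2 * d * ∑ x ∈ Bx L (0 : V d), pbb G θ x ω
      + 2 * d * ∑ y ∈ Bx (2 * L) (0 : V d), pbb G θ y ω
      + ∑ x ∈ Bx L (0 : V d), ∑ i, pbA n (fun _ y => dot (pbe i) y ^ 2) (sh x ω) / (L : ℝ) ^ 2)
        ∂(Pr d p) = (∫ ω, 2 * d * ∑ x ∈ Bx L (0 : V d), pbb G θ x ω ∂(Pr d p)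
      + ∫ ω, 2 * d * ∑ y ∈ Bx (2 * L) (0 : V d), pbb G θ y ω ∂(Pr d p))
      + ∫ ω, ∑ x ∈ Bx L (0 : V d), ∑ i,
      pbA n (fun _ y => dot (pbe i) y ^ 2) (sh x ω) / (L : ℝ) ^ 2 ∂(Pr d p) := by
    have j1 : Integrable (fun ω => 2 * d * ∑ x ∈ Bx L (0 : V d), pbb G θ x ω) (Pr d p) :=
      (integrable_finsetSum _ fun x _ => ib x).const_mul _
    have j2 : Integrable (fun ω => 2 * d * ∑ x ∈ Bx (2 * L) (0 : V d), pbb G θ x ω) (Pr d p) :=
      (integrable_finsetSum _ fun x _ => ib x).const_mul _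
    have j3 : Integrable (fun ω => ∑ x ∈ Bx L (0 : V d), ∑ i,
      pbA n (fun (_ : Om d) y => dot (pbe i) y ^ 2) (sh x ω) / (L : ℝ) ^ 2) (Pr d p) :=
      integrable_finsetSum _ fun x _ => integrable_finsetSum _ fun i _ => iD x i
    have j12 : Integrable (fun ω => 2 * d * ∑ x ∈ Bx L (0 : V d), pbb G θ x ω
      + 2 * d * ∑ y ∈ Bx (2 * L) (0 : V d), pbb G θ y ω) (Pr d p) := j1.add j2
    rw [integral_add j12 j3, integral_add j1 j2]
  have hsub : Bx L (0 : V d) ⊆ Bx (2 * L) (0 : V d) := Bx_mono (by omega) 0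
  have hb1 := hbsum _ hsub
  have hb2 := hbsum _ (Finset.Subset.refl (Bx (2 * L) (0 : V d)))
  rw [hlhs, hsplit, hDsum] at hint
  have hβ0 : 0 ≤ β := by
    have h0 : (0 : V d) ∈ Bx (2 * L) (0 : V d) := self_mem_Bx _ _
    exact (integral_nonneg fun ω => abs_nonneg _).trans (hβ 0 h0)
  have hc1 : ((Bx L (0 : V d)).card : ℝ) = (2 * L + 1) ^ d := by
    rw [card_Bx]; push_cast; ring
  have hc2 : ((Bx (2 * L) (0 : V d)).card : ℝ) ≤ 2 ^ d * (2 * L + 1) ^ d := by
    rw [card_Bx, ← mul_pow]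
    push_cast
    refine pow_le_pow_left₀ (by positivity) ?_ d
    linarith
  have hc0 : (0 : ℝ) < (2 * L + 1) ^ d := by positivity
  have hθβ : 0 ≤ 2 / θ * β := by positivity
  rw [hc1] at hint hb1
  have hb3 : 2 * (d : ℝ) * (((Bx (2 * L) (0 : V d)).card : ℝ) * (2 / θ * β)) ≤
      2 * d * ((2 ^ d * (2 * L + 1) ^ d) * (2 / θ * β)) := by
    refine mul_le_mul_of_nonneg_left ?_ (by positivity)
    exact mul_le_mul_of_nonneg_right hc2 hθβ
  have hfin : ((2 * (L : ℝ) + 1) ^ d) * a ≤ ((2 * (L : ℝ) + 1) ^ d) *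
      (2 * d * (1 + 2 ^ d) * (2 / θ * β) + (∑ i : Fin d, uu p (pbe i) n) / (L : ℝ) ^ 2) := by
    have e : ((2 * (L : ℝ) + 1) ^ d) *
      (2 * d * (1 + 2 ^ d) * (2 / θ * β) + (∑ i : Fin d, uu p (pbe i) n) / (L : ℝ) ^ 2)
      = 2 * d * ((2 * (L : ℝ) + 1) ^ d * (2 / θ * β))
        + 2 * d * ((2 ^ d * (2 * L + 1) ^ d) * (2 / θ * β))
        + (2 * (L : ℝ) + 1) ^ d * ((∑ i : Fin d, uu p (pbe i) n) / (L : ℝ) ^ 2) := by ring
    rw [e]
    linarith
  exact le_of_mul_le_mul_left hfin hc0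

theorem pot_in_prob (hd : 1 ≤ d) (hH : HypH d p K C c) (G : Fld d) (hG : Curl p G) (η : ℝ)
    (hη : 0 < η) :
    Tendsto (fun n : ℕ => ∫ ω, dg ω * Ln ω n
      (Set.indicator {y : V d | η * Real.sqrt n ≤ |Pot G ω 0 y|} (fun _ => (1 : ℝ))) 0 ∂(nu d p))
      atTop (𝓝 0) := by
  have hsub := (phi_sublinear hH G hG.sq hG.anti hG.orth).2
  rw [Metric.tendsto_atTop]
  intro κ' hκ'
  set κ := κ' / 2 with hκ
  have hκ0 : 0 < κ := by positivity
  set U := ∑ i : Fin d, uu p (pbe i) 1 with hU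
  have hU0 : 0 ≤ U := by
    refine Finset.sum_nonneg fun i _ => ?_
    have h := uu_incr_nonneg p (pbe i) (pbe_sq i) 0
    simp only [zero_add, uu_zero, sub_zero] at h
    exact h
  set T := Real.sqrt (2 * U / κ) + 1 with hT
  have hT1 : 1 ≤ T := by
    have := Real.sqrt_nonneg (2 * U / κ)
    linarith
  have hTU : U / T ^ 2 ≤ κ / 2 := by
    have h1 : 2 * U / κ ≤ T ^ 2 := by
      have h2 := Real.sq_sqrt (show 0 ≤ 2 * U / κ by positivity)
      have h3 := Real.sqrt_nonneg (2 * U / κ)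
      rw [hT]
      nlinarith
    rw [div_le_iff₀ (by positivity)]
    rw [div_le_iff₀ hκ0] at h1
    linarith
  set ε := κ * η / (32 * d * (1 + 2 ^ d) * T) with hε
  have hd0 : (0 : ℝ) < d := by exact_mod_cast hd
  have hT0 : 0 < T := by linarith
  have hε0 : 0 < ε := by positivity
  obtain ⟨r0, hr0⟩ := hsub ε hε0
  refine ⟨max 1 (r0 ^ 2), fun n hn => ?_⟩
  have hn1 : 1 ≤ n := (le_max_left _ _).trans hn
  have hnr : r0 ^ 2 ≤ n := (le_max_right _ _).trans hn
  have hn0 : (0 : ℝ) < n := by exact_mod_cast hn1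
  have hs0 : 0 < Real.sqrt n := Real.sqrt_pos.2 hn0
  have hs1 : 1 ≤ Real.sqrt n := by
    rw [Real.one_le_sqrt]
    exact_mod_cast hn1
  have hss : Real.sqrt n ^ 2 = n := Real.sq_sqrt hn0.le
  set L := ⌈T * Real.sqrt n⌉₊ with hL
  have hL1 : T * Real.sqrt n ≤ L := Nat.le_ceil _
  have hL2 : (L : ℝ) ≤ 2 * (T * Real.sqrt n) := by
    have h1 := Nat.ceil_lt_add_one (show 0 ≤ T * Real.sqrt n by positivity)
    have h2 : 1 ≤ T * Real.sqrt n := by nlinarith
    linarith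
  have hL3 : 1 ≤ L := by
    have : (0 : ℝ) < L := lt_of_lt_of_le (by positivity) hL1
    exact_mod_cast this
  have hrL : r0 ≤ 2 * L := by
    have h1 : (r0 : ℝ) ≤ Real.sqrt n := by
      refine Real.le_sqrt_of_sq_le ?_
      exact_mod_cast hnr
    have h2 : (r0 : ℝ) ≤ 2 * L := by nlinarith
    exact_mod_cast h2
  have hθ : 0 < η * Real.sqrt n := by positivity
  have hmain := pb_main hH G hG n L hL3 (η * Real.sqrt n) hθ (ε * (2 * L : ℕ))
    (fun y hy => hr0 (2 * L) hrL y hy)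
  have hfun : ∀ ω : Om d, (Set.indicator {y : V d | η * Real.sqrt n ≤ |Pot G ω 0 y|}
      (fun _ => (1 : ℝ))) = pbQ G (η * Real.sqrt n) ω := fun ω => rfl
  simp only [hfun]
  have hnn : 0 ≤ ∫ ω, dg ω * Ln ω n (pbQ G (η * Real.sqrt n) ω) 0 ∂(nu d p) := by
    refine integral_nonneg fun ω => mul_nonneg (sq_dg_nonneg ω) ?_
    have h1 := Ln_mono ω n (g := fun _ => (0 : ℝ)) (h := pbQ G (η * Real.sqrt n) ω)
      (fun y => pbQ_nonneg G _ ω y) 0
    rw [Ln_const] at h1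
    exact h1
  rw [Real.dist_eq, sub_zero, abs_of_nonneg hnn]
  refine lt_of_le_of_lt hmain ?_
  have hA : 2 * d * (1 + 2 ^ d) * (2 / (η * Real.sqrt n) * (ε * (2 * L : ℕ))) ≤ κ / 2 := by
    push_cast
    have h1 : 2 / (η * Real.sqrt n) * (ε * (2 * L)) ≤ 8 * ε * T / η := by
      rw [div_mul_eq_mul_div, div_le_div_iff₀ hθ hη]
      have h2 := mul_le_mul_of_nonneg_left hL2 (show 0 ≤ 4 * ε * η by positivity)
      nlinarith
    calc 2 * (d : ℝ) * (1 + 2 ^ d) * (2 / (η * Real.sqrt n) * (ε * (2 * L)))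
        ≤ 2 * d * (1 + 2 ^ d) * (8 * ε * T / η) :=
          mul_le_mul_of_nonneg_left h1 (by positivity)
      _ = κ / 2 := by
          rw [hε]
          field_simp
          ring
  have hB : (∑ i : Fin d, uu p (pbe i) n) / (L : ℝ) ^ 2 ≤ κ / 2 := by
    have h1 : ∑ i : Fin d, uu p (pbe i) n ≤ n * U := by
      rw [hU, Finset.mul_sum]
      exact Finset.sum_le_sum fun i _ => pb_uu_le (pbe i) (pbe_sq i) n
    have h2 : (T * Real.sqrt n) ^ 2 ≤ (L : ℝ) ^ 2 := pow_le_pow_left₀ (by positivity) hL1 2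
    have h3 : (T * Real.sqrt n) ^ 2 = T ^ 2 * n := by rw [mul_pow, hss]
    rw [h3] at h2
    calc (∑ i : Fin d, uu p (pbe i) n) / (L : ℝ) ^ 2 ≤ n * U / (L : ℝ) ^ 2 :=
          div_le_div_of_nonneg_right h1 (by positivity)
      _ ≤ n * U / (T ^ 2 * n) := div_le_div_of_nonneg_left (by positivity) (by positivity) h2
      _ = U / T ^ 2 := by field_simp
      _ ≤ κ / 2 := hTU
  linarith

end Ein99
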