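import Pool.Agent.LibEin99.F_Walk
import Pool.Agent.LibEin99.F_Ip

/-!
TASK F_SF. Stationarised path flows.

For a local rule (`b` a weight, `s` a starting vertex, `γ` an open walk from `s`) the field
`SF R b s γ ω δ = ∑_{z ∈ Bx (2R) 0} b(sh z ω) cnt 0 δ (z + s(sh z ω)) (γ(sh z ω))`
adds the flows of all translates. The walk attached to `z` stays in `Bx (2R) z`, so `z ∉ Bx (2R) 0`
would not contribute at the vertex `0` (`cnt_eq_zero_of_far`).
`SF_anti`: `SF (sh (st δ) ω) (rv δ) = ∑_z b(sh (z + st δ) ω) cnt 0 (rv δ) (z + s(..)) (..)`; substitute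
`z' = z + st δ`, use `cnt_add`, `cnt_rv`; terms in the symmetric difference of the two windows vanish.
`SF_supp`: `cnt_eq_zero` with the walk translated: `OpenL (sh z ω) (s(sh z ω)) γ` gives
`OpenL ω (z + s) γ` (`OpenL_sh`).
`SF_div`: `sum_cnt`.
-/

open MeasureTheory ProbabilityTheory Filter Topology

namespace Ein99

variable {d : ℕ}

/-- local path rules -/
structure PathRule (R : ℕ) (B : ℝ) (b : Om d → ℝ) (s : Om d → V d) (γ : Om d → List (Dir d)) :
    Prop where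
  locb : Loc (EB R (0 : V d) : Set (Ed d)) b
  locs : Loc (EB R (0 : V d) : Set (Ed d)) s
  locγ : Loc (EB R (0 : V d) : Set (Ed d)) γ
  smem : ∀ ω, s ω ∈ Bx R (0 : V d)
  len : ∀ ω, (γ ω).length ≤ R
  op : ∀ ω, OpenL ω (s ω) (γ ω)
  hB : 0 ≤ B
  hb : ∀ ω, |b ω| ≤ B

/-- the stationarised flow -/
noncomputable def SF (R : ℕ) (b : Om d → ℝ) (s : Om d → V d) (γ : Om d → List (Dir d)) : Fld d :=
  fun ω δ => ∑ z ∈ Bx (2 * R) (0 : V d),
    b (sh z ω) * cnt 0 δ (z + s (sh z ω)) (γ (sh z ω))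

variable {R : ℕ} {B : ℝ} {b : Om d → ℝ} {s : Om d → V d} {γ : Om d → List (Dir d)}

theorem SF_loc (h : PathRule R B b s γ) (δ : Dir d) :
    Loc (EB (3 * R) (0 : V d) : Set (Ed d)) (fun ω => SF R b s γ ω δ) := by
  intro ω ω' hω
  show SF R b s γ ω δ = SF R b s γ ω' δ
  unfold SF
  refine Finset.sum_congr rfl fun z hz => ?_
  have hsub : ∀ e ∈ (EB R (0 + z) : Set (Ed d)), ω e = ω' e := by
    intro e he
    refine hω e ?_
    rw [Finset.mem_coe] at he ⊢
    rw [zero_add] at he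
    have := EB_subset (r := R) hz he
    rwa [show R + 2 * R = 3 * R by ring] at this
  have e1 : b (sh z ω) = b (sh z ω') := Loc_sh R 0 z h.locb ω ω' hsub
  have e2 : s (sh z ω) = s (sh z ω') := Loc_sh R 0 z h.locs ω ω' hsub
  have e3 : γ (sh z ω) = γ (sh z ω') := Loc_sh R 0 z h.locγ ω ω' hsub
  rw [e1, e2, e3]

theorem SF_bound (h : PathRule R B b s γ) (ω : Om d) (δ : Dir d) :
    |SF R b s γ ω δ| ≤ (4 * R + 1) ^ d * (B * R) := by
  unfold SF
  refine (Finset.abs_sum_le_sum_abs _ _).trans ?_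
  have h1 : ∀ z ∈ Bx (2 * R) (0 : V d),
      |b (sh z ω) * cnt 0 δ (z + s (sh z ω)) (γ (sh z ω))| ≤ B * R := by
    intro z _
    rw [abs_mul]
    refine mul_le_mul (h.hb _) ?_ (abs_nonneg _) h.hB
    refine (abs_cnt_le _ _ _ _).trans ?_
    exact_mod_cast h.len _
  refine (Finset.sum_le_sum h1).trans ?_
  rw [Finset.sum_const, card_Bx, nsmul_eq_mul]
  push_cast
  rw [show (2 * (2 * (R : ℝ)) + 1) = 4 * R + 1 by ring]

/-- a translate which contributes at the origin is based in the window -/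
theorem mem_window_of_ne (h : PathRule R B b s γ) (ω : Om d) (δ : Dir d) (w w' : V d)
    (hne : cnt 0 δ (w + s (sh w' ω)) (γ (sh w' ω)) ≠ 0) : w ∈ Bx (2 * R) (0 : V d) := by
  have h1 : (0 : V d) ∈ Bx (γ (sh w' ω)).length (w + s (sh w' ω)) := by
    by_contra hcon
    exact hne (cnt_eq_zero_of_far _ _ _ _ hcon)
  have h2 : (0 : V d) ∈ Bx R (w + s (sh w' ω)) := Bx_mono (h.len _) _ h1
  have h3 := h.smem (sh w' ω)
  rw [mem_Bx] at h2 h3 ⊢
  intro i
  have a := h2 i
  have c := h3 i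
  simp only [Pi.zero_apply, Pi.add_apply] at a c ⊢
  push_cast
  rw [abs_le] at a c ⊢
  constructor <;> linarith [a.1, a.2, c.1, c.2]

theorem SF_anti (h : PathRule R B b s γ) : Anti (SF R b s γ) := by
  intro ω δ _
  set f : V d → ℝ := fun w => b (sh w ω) * cnt 0 δ (w + s (sh w ω)) (γ (sh w ω)) with hf
  have hterm : ∀ w : V d, b (sh w ω) * cnt 0 (rv δ) (w - st δ + s (sh w ω)) (γ (sh w ω))
      = - f w := by
    intro w
    have e1 : cnt 0 (rv δ) (w - st δ + s (sh w ω)) (γ (sh w ω))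
        = cnt (0 + st δ) (rv δ) (w + s (sh w ω)) (γ (sh w ω)) := by
      rw [← cnt_add 0 (st δ) (rv δ) (w - st δ + s (sh w ω))]
      congr 1
      abel
    rw [e1, cnt_rv, hf]
    ring
  have e1 : SF R b s γ (sh (st δ) ω) (rv δ)
      = ∑ z ∈ Bx (2 * R) (0 : V d), - f (z + st δ) := by
    unfold SF
    refine Finset.sum_congr rfl fun z _ => ?_
    rw [← hterm (z + st δ), sh_sh, add_sub_cancel_right]
  have e2 : SF R b s γ ω δ = ∑ z ∈ Bx (2 * R) (0 : V d), f z := rfl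
  rw [e1, e2, Finset.sum_neg_distrib]
  congr 1
  have e3 : ∑ z ∈ Bx (2 * R) (0 : V d), f (z + st δ)
      = ∑ w ∈ (Bx (2 * R) (0 : V d)).map (addRightEmbedding (st δ)), f w := by
    rw [Finset.sum_map]
    rfl
  rw [e3]
  have s1 : ∑ w ∈ (Bx (2 * R) (0 : V d)).map (addRightEmbedding (st δ)), f w
      = ∑ w ∈ (Bx (2 * R) (0 : V d)).map (addRightEmbedding (st δ)) ∪ Bx (2 * R) (0 : V d), f w := by
    refine Finset.sum_subset Finset.subset_union_left fun w _ hw => ?_
    by_contra hne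
    refine hw ?_
    have hne' : - f w ≠ 0 := by simpa using hne
    rw [← hterm w] at hne'
    have := mem_window_of_ne h ω (rv δ) (w - st δ) w (right_ne_zero_of_mul hne')
    rw [Finset.mem_map]
    exact ⟨w - st δ, this, by simp [addRightEmbedding]⟩
  have s2 : ∑ w ∈ Bx (2 * R) (0 : V d), f w
      = ∑ w ∈ (Bx (2 * R) (0 : V d)).map (addRightEmbedding (st δ)) ∪ Bx (2 * R) (0 : V d), f w := by
    refine Finset.sum_subset Finset.subset_union_right fun w _ hw => ?_
    by_contra hne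
    exact hw (mem_window_of_ne h ω δ w w (right_ne_zero_of_mul hne))
  rw [s1, s2]

theorem SF_supp (h : PathRule R B b s γ) : Supp (SF R b s γ) := by
  intro ω δ hδ
  unfold SF
  refine Finset.sum_eq_zero fun z _ => ?_
  have ho := (OpenL_sh ω z _ _).1 (h.op (sh z ω))
  rw [add_comm (s (sh z ω)) z] at ho
  rw [cnt_eq_zero ω 0 δ _ _ ho hδ, mul_zero]

theorem SF_div (R : ℕ) (b : Om d → ℝ) (s : Om d → V d) (γ : Om d → List (Dir d)) (ω : Om d) :
    ∑ δ, SF R b s γ ω δ = ∑ z ∈ Bx (2 * R) (0 : V d), b (sh z ω) *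
      ((if z + s (sh z ω) = 0 then 1 else 0)
        - (if endp (z + s (sh z ω)) (γ (sh z ω)) = 0 then 1 else 0)) := by
  unfold SF
  rw [Finset.sum_comm]
  refine Finset.sum_congr rfl fun z _ => ?_
  rw [← Finset.mul_sum, sum_cnt]

theorem SF_sqI (p : unitInterval) (h : PathRule R B b s γ) : SqI p (SF R b s γ) :=
  SqI.of_bounded (fun δ => Loc.measurable (EB (3 * R) (0 : V d)) (SF_loc h δ)) _
    (fun ω δ => SF_bound h ω δ)

end Ein99
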