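import Pool.Agent.LibEin99.F_PathFlow
import Pool.Agent.LibEin99.F_Curl
import Pool.Agent.LibEin99.E_Lln

/-!
TASK F_Sub. The potential is sublinear in mean.

`∫ Phi G (st η) = 0` (`path_flow`, orthogonality). A.s. `Phi G (y + y') ω = Phi G y ω +
Phi G y' (sh y ω)` (`pot_add`, `Pot_sh`, uniqueness of the cluster `ae_unique`, `rg_sh_spec`). So
`Phi G (k • st η) = ∑_{j<k} Phi G (st η) ∘ sh (j • st η)`, and `lln_shift` gives
`E|Phi G (k • st η)| = o(k)`. For `y = ∑ y_i e_i` write `Phi G y` as a sum of `d` such terms (shifted):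
`E|Phi G y| ≤ ∑_i E|Phi G (|y_i| • st (i, ±))| ≤ d max_{k ≤ r} o(k)`, and
`max_{k ≤ r} o(k) = o(r)`.
-/

open MeasureTheory ProbabilityTheory Filter Topology

namespace Ein99

variable {d : ℕ} {p : unitInterval} {K : ℕ} {C c : ℝ}

theorem phi_cocycle (hH : HypH d p K C c) (G : Fld d) (hG : SqI p G) (hGa : AntiAE p G)
    (h : ∀ I, Adm p I → ip p G I = 0) :
    ∀ᵐ ω ∂(Pr d p), ∀ y z : V d, Phi G (y + z) ω = Phi G y ω + Phi G z (sh y ω) := by
  filter_upwards [pot_add G hG hGa h, ae_exists hH, ae_unique hH] with ω h1 h2 h3 y z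
  have e1 : Phi G z (sh y ω) = Pot G ω (y + rg (sh y ω)) (y + z + rg (sh (y + z) ω)) := by
    unfold Phi
    rw [Pot_sh, sh_sh, add_comm z y, add_comm (rg (sh y ω)) y]
    congr 1
    abel
  rw [e1]
  unfold Phi
  have i1 := (rg_spec ω h2).1
  have i2 := rg_sh_spec ω h2 y
  have i3 := rg_sh_spec ω h2 (y + z)
  exact (h1 _ _ _ i1 (h3 _ _ i1 i2) (h3 _ _ i2 i3)).symm

theorem sub_iter (G : Fld d) (ω : Om d)
    (hc : ∀ y z : V d, Phi G (y + z) ω = Phi G y ω + Phi G z (sh y ω)) (s : V d) (k : ℕ) :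
    Phi G ((k : ℤ) • s) ω = ∑ j ∈ Finset.range k, Phi G s (sh ((j : ℤ) • s) ω) := by
  induction k with
  | zero =>
    have h0 := hc 0 0
    rw [add_zero, sh_zero] at h0
    simp only [Nat.cast_zero, zero_smul, Finset.range_zero, Finset.sum_empty]
    linarith
  | succ k ih =>
    rw [Finset.sum_range_succ, ← ih, ← hc]
    congr 1
    push_cast
    rw [add_smul, one_smul]

theorem st_ne_zero (η : Dir d) : (st η : V d) ≠ 0 := by
  intro h
  have h1 := congrFun h η.1
  unfold st at h1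
  rw [Pi.single_eq_same] at h1
  split_ifs at h1
  · simp at h1

theorem single_eq_smul_st (i : Fin d) (m : ℤ) :
    ∃ η : Dir d, (Pi.single i m : V d) = ((m.natAbs : ℕ) : ℤ) • st η := by
  rcases le_total 0 m with h | h
  · refine ⟨(i, true), ?_⟩
    unfold st
    simp only [if_true]
    rw [← Pi.single_smul]
    congr 1
    rw [smul_eq_mul, mul_one]
    exact (Int.natAbs_of_nonneg h).symm
  · refine ⟨(i, false), ?_⟩
    unfold st
    simp only [Bool.false_eq_true, if_false]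
    rw [← Pi.single_smul]
    congr 1
    rw [smul_eq_mul]
    have := Int.ofNat_natAbs_of_nonpos h
    rw [this]
    ring

theorem int_comp_sh {f : Om d → ℝ} (hf : Integrable f (Pr d p)) (y : V d) :
    Integrable (fun ω => f (sh y ω)) (Pr d p) :=
  ((mp_sh p y).integrable_comp hf.aestronglyMeasurable).2 hf

theorem integral_abs_sh {f : Om d → ℝ} (hf : Integrable f (Pr d p)) (y : V d) :
    ∫ ω, |f (sh y ω)| ∂(Pr d p) = ∫ ω, |f ω| ∂(Pr d p) := by
  have h1 : AEStronglyMeasurable (fun ω => |f ω|) ((Pr d p).map (sh y)) := by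
    rw [map_sh]
    exact hf.abs.aestronglyMeasurable
  have h2 := integral_map (measurable_sh y).aemeasurable h1
  rw [map_sh] at h2
  exact h2.symm

theorem phi_int_add (G : Fld d)
    (hc : ∀ᵐ ω ∂(Pr d p), ∀ y z : V d, Phi G (y + z) ω = Phi G y ω + Phi G z (sh y ω))
    (y z : V d) (hy : Integrable (Phi G y) (Pr d p)) (hz : Integrable (Phi G z) (Pr d p)) :
    Integrable (Phi G (y + z)) (Pr d p) := by
  refine (hy.add (int_comp_sh hz y)).congr ?_
  filter_upwards [hc] with ω h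
  exact (h y z).symm

theorem phi_int_zero (G : Fld d)
    (hc : ∀ᵐ ω ∂(Pr d p), ∀ y z : V d, Phi G (y + z) ω = Phi G y ω + Phi G z (sh y ω)) :
    ∀ᵐ ω ∂(Pr d p), Phi G 0 ω = 0 := by
  filter_upwards [hc] with ω h
  have h0 := h 0 0
  rw [add_zero, sh_zero] at h0
  linarith

theorem phi_int_all (hH : HypH d p K C c) (G : Fld d) (hG : SqI p G)
    (hc : ∀ᵐ ω ∂(Pr d p), ∀ y z : V d, Phi G (y + z) ω = Phi G y ω + Phi G z (sh y ω))
    (y : V d) : Integrable (Phi G y) (Pr d p) := by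
  have h0 : Integrable (Phi G 0) (Pr d p) :=
    (integrable_zero _ _ _).congr (by
      filter_upwards [phi_int_zero G hc] with ω h
      exact h.symm)
  have h1 : ∀ (η : Dir d) (k : ℕ), Integrable (Phi G ((k : ℤ) • st η)) (Pr d p) := by
    intro η k
    induction k with
    | zero => simpa using h0
    | succ k ih =>
      have h2 := phi_int_add G hc _ _ ih (phi_integrable hH G hG η)
      have h3 : (((k + 1 : ℕ) : ℤ) • st η : V d) = (k : ℤ) • st η + st η := by
        push_cast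
        rw [add_smul, one_smul]
      rw [h3]
      exact h2
  have h4 : ∀ i : Fin d, Integrable (Phi G (Pi.single i (y i) : V d)) (Pr d p) := by
    intro i
    obtain ⟨η, hη⟩ := single_eq_smul_st i (y i)
    rw [hη]
    exact h1 η _
  have h5 : Integrable (Phi G (∑ i, (Pi.single i (y i) : V d))) (Pr d p) :=
    Finset.sum_induction (fun i => (Pi.single i (y i) : V d))
      (fun y => Integrable (Phi G y) (Pr d p)) (fun a b ha hb => phi_int_add G hc a b ha hb)
      h0 (fun i _ => h4 i)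
  rwa [Finset.univ_sum_single] at h5

theorem phi_norm_add (G : Fld d)
    (hc : ∀ᵐ ω ∂(Pr d p), ∀ y z : V d, Phi G (y + z) ω = Phi G y ω + Phi G z (sh y ω))
    (hi : ∀ y, Integrable (Phi G y) (Pr d p)) (y z : V d) :
    ∫ ω, |Phi G (y + z) ω| ∂(Pr d p) ≤
      ∫ ω, |Phi G y ω| ∂(Pr d p) + ∫ ω, |Phi G z ω| ∂(Pr d p) := by
  rw [← integral_abs_sh (hi z) y, ← integral_add (hi y).abs (int_comp_sh (hi z) y).abs]
  refine integral_mono_ae (hi (y + z)).abs ((hi y).abs.add (int_comp_sh (hi z) y).abs) ?_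
  filter_upwards [hc] with ω h
  rw [h y z]
  exact abs_add_le _ _

theorem phi_dir (hH : HypH d p K C c) (G : Fld d) (hG : SqI p G) (hGa : AntiAE p G)
    (h : ∀ I, Adm p I → ip p G I = 0)
    (hc : ∀ᵐ ω ∂(Pr d p), ∀ y z : V d, Phi G (y + z) ω = Phi G y ω + Phi G z (sh y ω))
    (η : Dir d) (ε : ℝ) (hε : 0 < ε) :
    ∃ r0 : ℕ, ∀ r : ℕ, r0 ≤ r → ∀ k : ℕ, k ≤ r →
      ∫ ω, |Phi G ((k : ℤ) • st η) ω| ∂(Pr d p) ≤ ε * r := by
  have hmean : ∫ ω, Phi G (st η) ω ∂(Pr d p) = 0 := by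
    obtain ⟨I, hI, hI2⟩ := path_flow hH η
    have h1 := hI2 G hG hGa
    rw [h I hI] at h1
    linarith
  have hl := lln_shift p (Phi G (st η)) (phi_integrable hH G hG η) (st η) (st_ne_zero η)
  rw [hmean] at hl
  have hev := hl.eventually (gt_mem_nhds hε)
  rw [eventually_atTop] at hev
  obtain ⟨n, hn⟩ := hev
  have hbig : ∀ k : ℕ, n ≤ k → ∫ ω, |Phi G ((k : ℤ) • st η) ω| ∂(Pr d p) ≤ ε * k := by
    intro k hk
    rcases Nat.eq_zero_or_pos k with h0 | hpos
    · subst h0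
      have h2 : ∫ ω, |Phi G (((0 : ℕ) : ℤ) • st η) ω| ∂(Pr d p) = 0 := by
        rw [integral_eq_zero_of_ae]
        filter_upwards [phi_int_zero G hc] with ω h3
        simp only [Nat.cast_zero, zero_smul, h3, abs_zero, Pi.zero_apply]
      rw [h2]
      simp
    · have hk0 : (0 : ℝ) < k := by exact_mod_cast hpos
      have h1 := (hn k hk).le
      have h2 : ∫ ω, |1 / (k : ℝ) * ∑ j ∈ Finset.range k, Phi G (st η) (sh ((j : ℤ) • st η) ω)
          - 0| ∂(Pr d p) = 1 / (k : ℝ) * ∫ ω, |Phi G ((k : ℤ) • st η) ω| ∂(Pr d p) := by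
        rw [← integral_const_mul]
        refine integral_congr_ae ?_
        filter_upwards [hc] with ω h3
        rw [sub_iter G ω h3 (st η) k, sub_zero, abs_mul, abs_of_pos (by positivity)]
      rw [h2] at h1
      rw [one_div, inv_mul_le_iff₀ hk0] at h1
      linarith
  obtain ⟨r0, hr0⟩ := exists_nat_ge
    ((∑ k ∈ Finset.range n, ∫ ω, |Phi G ((k : ℤ) • st η) ω| ∂(Pr d p)) / ε)
  refine ⟨r0, ?_⟩
  intro r hr k hk
  rcases Nat.lt_or_ge k n with h1 | h1
  · have h2 : ∫ ω, |Phi G ((k : ℤ) • st η) ω| ∂(Pr d p) ≤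
        ∑ k ∈ Finset.range n, ∫ ω, |Phi G ((k : ℤ) • st η) ω| ∂(Pr d p) :=
      Finset.single_le_sum (f := fun k : ℕ => ∫ ω, |Phi G ((k : ℤ) • st η) ω| ∂(Pr d p))
        (fun i _ => integral_nonneg (fun ω => abs_nonneg _)) (Finset.mem_range.2 h1)
    rw [div_le_iff₀ hε] at hr0
    have h3 : (r0 : ℝ) ≤ r := by exact_mod_cast hr
    nlinarith
  · have h2 := hbig k h1
    have h3 : (k : ℝ) ≤ r := by exact_mod_cast hk
    nlinarith

theorem phi_sublinear (hH : HypH d p K C c) (G : Fld d) (hG : SqI p G) (hGa : AntiAE p G)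
    (h : ∀ I, Adm p I → ip p G I = 0) :
    (∀ y : V d, Integrable (Phi G y) (Pr d p)) ∧
    ∀ ε : ℝ, 0 < ε → ∃ r0 : ℕ, ∀ r : ℕ, r0 ≤ r → ∀ y ∈ Bx r (0 : V d),
      ∫ ω, |Phi G y ω| ∂(Pr d p) ≤ ε * r := by
  have hc := phi_cocycle hH G hG hGa h
  have hi := phi_int_all hH G hG hc
  refine ⟨hi, ?_⟩
  intro ε hε
  have hε' : 0 < ε / (d + 1) := by positivity
  choose r0 hr0 using fun η : Dir d => phi_dir hH G hG hGa h hc η (ε / (d + 1)) hε'
  refine ⟨∑ η, r0 η, ?_⟩
  intro r hr y hy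
  have hz : ∫ ω, |Phi G (0 : V d) ω| ∂(Pr d p) = 0 := by
    rw [integral_eq_zero_of_ae]
    filter_upwards [phi_int_zero G hc] with ω h3
    simp [h3]
  have h1 := Finset.le_sum_of_subadditive (fun y : V d => ∫ ω, |Phi G y ω| ∂(Pr d p)) hz.le
    (fun a b => phi_norm_add G hc hi a b) Finset.univ (fun i => (Pi.single i (y i) : V d))
  rw [Finset.univ_sum_single] at h1
  refine h1.trans ?_
  have h2 : ∀ i ∈ (Finset.univ : Finset (Fin d)),
      ∫ ω, |Phi G (Pi.single i (y i) : V d) ω| ∂(Pr d p) ≤ ε / (d + 1) * r := by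
    intro i _
    obtain ⟨η, hη⟩ := single_eq_smul_st i (y i)
    rw [hη]
    refine hr0 η r (le_trans ?_ hr) _ ?_
    · exact Finset.single_le_sum (f := r0) (fun i _ => Nat.zero_le _) (Finset.mem_univ η)
    · unfold Bx at hy
      rw [Finset.mem_Icc] at hy
      have h3 := hy.1 i
      have h4 := hy.2 i
      simp only [Pi.zero_apply, zero_sub, zero_add] at h3 h4
      omega
  refine (Finset.sum_le_sum h2).trans ?_
  rw [Finset.sum_const, Finset.card_univ, Fintype.card_fin, nsmul_eq_mul]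
  have h5 : (d : ℝ) * (ε / (d + 1)) ≤ ε := by
    rw [mul_div_assoc', div_le_iff₀ (by positivity)]
    nlinarith
  have h6 : (0 : ℝ) ≤ r := Nat.cast_nonneg r
  nlinarith

end Ein99
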