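import Pool.Agent.LibEin99.Defs3
import Pool.Agent.LibEin99.C_Shift
import Pool.Agent.LibEin99.C_Loc2
import Pool.Agent.LibEin99.C_Chain

/-!
TASK F_Walk. Walks given by lists of directions: `OpenL`, `endp`, `Gs`, `cnt`.

All by induction on the list.
`exists_list_of_joinIn`: a path inside a box can be shortened to a path with distinct vertices, so of
length less than the number `(2r+1)^d` of vertices of the box. (Minimal length argument: a walk of
minimal length visits distinct vertices.)
`sum_cnt_mul`: `∑_{y} ∑_δ oo(sh y ω) δ * G(sh y ω) δ * cnt y δ x L = 2 Gs G ω x L` for an open walk,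
`G` antisymmetric along its steps, and `y` ranging over a box containing all vertices of the walk.
-/

open MeasureTheory ProbabilityTheory Filter Topology

namespace Ein99

variable {d : ℕ}

theorem endp_append (x : V d) (L M : List (Dir d)) : endp x (L ++ M) = endp (endp x L) M := by
  induction L generalizing x with
  | nil => rfl
  | cons δ L ih => simp only [List.cons_append, endp, ih]

theorem OpenL_append (ω : Om d) (x : V d) (L M : List (Dir d)) :
    OpenL ω x (L ++ M) ↔ OpenL ω x L ∧ OpenL ω (endp x L) M := by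
  induction L generalizing x with
  | nil => simp [OpenL, endp]
  | cons δ L ih => simp only [List.cons_append, OpenL, endp, ih, and_assoc]

theorem Gs_append (G : Fld d) (ω : Om d) (x : V d) (L M : List (Dir d)) :
    Gs G ω x (L ++ M) = Gs G ω x L + Gs G ω (endp x L) M := by
  induction L generalizing x with
  | nil => simp [Gs, endp]
  | cons δ L ih => simp only [List.cons_append, Gs, endp, ih, add_assoc]

/-- the reversed walk -/
def revL (L : List (Dir d)) : List (Dir d) := (L.map rv).reverse

theorem revL_cons (δ : Dir d) (L : List (Dir d)) : revL (δ :: L) = revL L ++ [rv δ] := by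
  simp [revL]

theorem add_st_add_st_rv (x : V d) (δ : Dir d) : x + st δ + st (rv δ) = x := by
  rw [st_rv, add_neg_cancel_right]

theorem endp_revL (x : V d) (L : List (Dir d)) : endp (endp x L) (revL L) = x := by
  induction L generalizing x with
  | nil => rfl
  | cons δ L ih =>
    rw [revL_cons, endp_append]
    simp only [endp]
    rw [ih, add_st_add_st_rv]

theorem OpenL_revL (ω : Om d) (x : V d) (L : List (Dir d)) (h : OpenL ω x L) :
    OpenL ω (endp x L) (revL L) := by
  induction L generalizing x with
  | nil => trivial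
  | cons δ L ih =>
    rw [revL_cons, OpenL_append]
    simp only [endp]
    refine ⟨ih _ h.2, ?_⟩
    rw [endp_revL]
    exact ⟨(opn_rv ω x δ).2 h.1, trivial⟩

theorem conn_step (ω : Om d) (x : V d) (δ : Dir d) (h : opn ω x δ) : Conn ω x (x + st δ) :=
  Relation.ReflTransGen.single ⟨δ, h, rfl⟩

theorem Gs_revL (G : Fld d) (ω : Om d) (x : V d) (L : List (Dir d)) (h : OpenL ω x L)
    (hG : ∀ y, Conn ω x y → ∀ δ, opn ω y δ → G (sh (y + st δ) ω) (rv δ) = - G (sh y ω) δ) :
    Gs G ω (endp x L) (revL L) = - Gs G ω x L := by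
  induction L generalizing x with
  | nil => simp [Gs, revL]
  | cons δ L ih =>
    have h1 : opn ω x δ := h.1
    rw [revL_cons, Gs_append]
    simp only [endp]
    rw [ih _ h.2 (fun y hy => hG y ((conn_step ω x δ h1).trans hy)), endp_revL]
    simp only [Gs]
    rw [hG x Relation.ReflTransGen.refl δ h1]
    ring

theorem OpenL_sh (ω : Om d) (z x : V d) (L : List (Dir d)) :
    OpenL (sh z ω) x L ↔ OpenL ω (x + z) L := by
  induction L generalizing x with
  | nil => simp [OpenL]
  | cons δ L ih => simp only [OpenL, opn_sh, ih, add_right_comm x z (st δ)]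

theorem endp_add (x z : V d) (L : List (Dir d)) : endp (x + z) L = endp x L + z := by
  induction L generalizing x with
  | nil => rfl
  | cons δ L ih => simp only [endp, add_right_comm x z (st δ), ih]

theorem Gs_sh (G : Fld d) (ω : Om d) (z x : V d) (L : List (Dir d)) :
    Gs G (sh z ω) x L = Gs G ω (x + z) L := by
  induction L generalizing x with
  | nil => rfl
  | cons δ L ih => simp only [Gs, sh_sh, ih, add_right_comm x z (st δ)]

theorem cnt_add (y z : V d) (η : Dir d) (x : V d) (L : List (Dir d)) :
    cnt (y + z) η (x + z) L = cnt y η x L := by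
  induction L generalizing x with
  | nil => rfl
  | cons δ L ih =>
    have e1 : (x + z = y + z) = (x = y) := by simp
    have e2 : (x + z = y + z + st η) = (x = y + st η) := by
      rw [add_right_comm y z (st η)]; simp
    simp only [cnt, add_right_comm x z (st δ), ih, e1, e2]

theorem endp_mem_Bx (x : V d) (L : List (Dir d)) : endp x L ∈ Bx L.length x := by
  induction L generalizing x with
  | nil => exact self_mem_Bx 0 x
  | cons δ L ih => exact Bx_subset (add_st_mem_Bx x δ) (ih (x + st δ))

theorem conn_of_OpenL (ω : Om d) (x : V d) (L : List (Dir d)) (h : OpenL ω x L) :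
    Conn ω x (endp x L) := by
  induction L generalizing x with
  | nil => exact Relation.ReflTransGen.refl
  | cons δ L ih => exact (conn_step ω x δ h.1).trans (ih _ h.2)

theorem exists_list_of_conn (ω : Om d) (x y : V d) (h : Conn ω x y) :
    ∃ L, OpenL ω x L ∧ endp x L = y := by
  induction h with
  | refl => exact ⟨[], trivial, rfl⟩
  | tail _ hbc ih =>
    obtain ⟨L, h1, h2⟩ := ih
    obtain ⟨δ, hδ, rfl⟩ := hbc
    refine ⟨L ++ [δ], (OpenL_append ω x L [δ]).2 ⟨h1, ?_⟩, ?_⟩
    · rw [h2]; exact ⟨hδ, trivial⟩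
    · rw [endp_append, h2]; rfl

/-- last exit decomposition -/
theorem joinIn_last_exit (ω : Om d) (S : Set (V d)) (x y : V d) (h : JoinIn ω S x y) :
    x = y ∨ (x ∈ S ∧ ∃ δ, opn ω x δ ∧ JoinIn ω (S \ {x}) (x + st δ) y) := by
  induction h with
  | refl => exact Or.inl rfl
  | @tail b c _ hbc ih =>
    obtain ⟨hb, hc, δ, hδ, hcd⟩ := hbc
    by_cases hcx : x = c
    · exact Or.inl hcx
    · right
      by_cases hbx : x = b
      · subst hbx
        exact ⟨hb, δ, hδ, hcd ▸ Relation.ReflTransGen.refl⟩
      · rcases ih with ih | ⟨hx, δ', hδ', hj⟩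
        · exact absurd ih hbx
        · refine ⟨hx, δ', hδ', hj.tail ⟨⟨hb, fun e => hbx e.symm⟩, ⟨hc, fun e => hcx e.symm⟩,
            δ, hδ, hcd⟩⟩

theorem exists_list_aux (ω : Om d) (n : ℕ) : ∀ (S : Finset (V d)), S.card ≤ n → ∀ x y : V d,
    JoinIn ω (S : Set (V d)) x y → ∃ L, OpenL ω x L ∧ endp x L = y ∧ L.length ≤ n := by
  induction n with
  | zero =>
    intro S hS x y h
    rcases joinIn_last_exit ω _ x y h with h | ⟨hx, -⟩
    · exact ⟨[], trivial, h, le_refl _⟩
    · rw [Finset.card_eq_zero.1 (Nat.le_zero.1 hS)] at hx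
      simp at hx
  | succ n ih =>
    intro S hS x y h
    rcases joinIn_last_exit ω _ x y h with h | ⟨hx, δ, hδ, hj⟩
    · exact ⟨[], trivial, h, Nat.zero_le _⟩
    · have hx' : x ∈ S := by simpa using hx
      have e : ((S : Set (V d)) \ {x}) = ((S.erase x : Finset (V d)) : Set (V d)) := by
        rw [Finset.coe_erase]
      rw [e] at hj
      obtain ⟨L, h1, h2, h3⟩ := ih (S.erase x) (by rw [Finset.card_erase_of_mem hx']; omega) _ _ hj
      exact ⟨δ :: L, ⟨hδ, h1⟩, h2, by simpa using h3⟩

theorem exists_list_of_joinIn (ω : Om d) (r : ℕ) (z x y : V d)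
    (h : JoinIn ω (Bx r z : Set (V d)) x y) :
    ∃ L, OpenL ω x L ∧ endp x L = y ∧ L.length ≤ (2 * r + 1) ^ d :=
  exists_list_aux ω _ (Bx r z) (card_Bx r z).le x y h

theorem Loc_OpenL (x : V d) (L : List (Dir d)) :
    Loc (EB L.length x : Set (Ed d)) (fun ω : Om d => OpenL ω x L) := by
  intro ω ω' h
  show OpenL ω x L = OpenL ω' x L
  induction L generalizing x with
  | nil => rfl
  | cons δ L ih =>
    have h1 : opn ω x δ = opn ω' x δ := by
      unfold opn
      rw [h (ed x δ) (by
        rw [Finset.mem_coe, ed_mem_EB]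
        exact ⟨self_mem_Bx _ x, Bx_mono (by simp) x (add_st_mem_Bx x δ)⟩)]
    have h2 : OpenL ω (x + st δ) L = OpenL ω' (x + st δ) L := by
      refine ih (x + st δ) fun e he => h e ?_
      rw [Finset.mem_coe] at he ⊢
      exact EB_subset (add_st_mem_Bx x δ) he
    simp only [OpenL, h1, h2]

theorem abs_cnt_le (y : V d) (η : Dir d) (x : V d) (L : List (Dir d)) :
    |cnt y η x L| ≤ L.length := by
  induction L generalizing x with
  | nil => simp [cnt]
  | cons δ L ih =>
    simp only [cnt, List.length_cons, Nat.cast_add, Nat.cast_one]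
    have h := ih (x + st δ)
    rw [abs_le] at h ⊢
    split_ifs <;> constructor <;> linarith [h.1, h.2]

/-- antisymmetry -/
theorem cnt_rv (y : V d) (η : Dir d) (x : V d) (L : List (Dir d)) :
    cnt (y + st η) (rv η) x L = - cnt y η x L := by
  induction L generalizing x with
  | nil => simp [cnt]
  | cons δ L ih =>
    simp only [cnt, ih, add_st_add_st_rv, rv_rv]
    ring

/-- no passage through closed edges, and none outside the range of the walk -/
theorem cnt_eq_zero (ω : Om d) (y : V d) (η : Dir d) (x : V d) (L : List (Dir d))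
    (h : OpenL ω x L) (hc : ¬ opn ω y η) : cnt y η x L = 0 := by
  induction L generalizing x with
  | nil => rfl
  | cons δ L ih =>
    have h1 : opn ω x δ := h.1
    have e1 : ¬ (x = y ∧ δ = η) := by
      rintro ⟨rfl, rfl⟩
      exact hc h1
    have e2 : ¬ (x = y + st η ∧ δ = rv η) := by
      rintro ⟨rfl, rfl⟩
      exact hc ((opn_rv ω y η).1 h1)
    simp only [cnt, if_neg e1, if_neg e2, ih _ h.2, sub_self, add_zero]

theorem cnt_eq_zero_of_far (y : V d) (η : Dir d) (x : V d) (L : List (Dir d))
    (h : y ∉ Bx L.length x) : cnt y η x L = 0 := by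
  induction L generalizing x with
  | nil => rfl
  | cons δ L ih =>
    have e1 : ¬ (x = y ∧ δ = η) := by
      rintro ⟨rfl, -⟩
      exact h (self_mem_Bx _ x)
    have e2 : ¬ (x = y + st η ∧ δ = rv η) := by
      rintro ⟨rfl, -⟩
      exact h (Bx_mono (by simp) _ (Bx_comm.1 (add_st_mem_Bx y η)))
    have e3 : y ∉ Bx L.length (x + st δ) := fun hy => h (Bx_subset (add_st_mem_Bx x δ) hy)
    simp only [cnt, if_neg e1, if_neg e2, ih _ e3, sub_self, add_zero]

theorem rv_eq_iff (δ η : Dir d) : δ = rv η ↔ η = rv δ := by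
  constructor
  · rintro rfl; rw [rv_rv]
  · rintro rfl; rw [rv_rv]

theorem eq_add_st_rv_iff (x y : V d) (δ : Dir d) : x = y + st (rv δ) ↔ y = x + st δ := by
  rw [st_rv]
  constructor
  · rintro rfl; rw [neg_add_cancel_right]
  · rintro rfl; rw [add_neg_cancel_right]

/-- divergence of the flow of a walk -/
theorem sum_cnt (y : V d) (x : V d) (L : List (Dir d)) :
    ∑ η, cnt y η x L = (if x = y then 1 else 0) - (if endp x L = y then 1 else 0) := by
  induction L generalizing x with
  | nil =>
    rw [show endp x ([] : List (Dir d)) = x from rfl]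
    simp [cnt]
  | cons δ L ih =>
    rw [show endp x (δ :: L) = endp (x + st δ) L from rfl]
    simp only [cnt, Finset.sum_add_distrib, Finset.sum_sub_distrib, ih]
    have e1 : (∑ η : Dir d, if x = y ∧ δ = η then (1 : ℝ) else 0) = if x = y then 1 else 0 := by
      rw [Finset.sum_eq_single δ]
      · simp
      · intro η _ hη
        rw [if_neg]
        rintro ⟨-, h⟩
        exact hη h.symm
      · intro h; exact absurd (Finset.mem_univ _) h
    have e2 : (∑ η : Dir d, if x = y + st η ∧ δ = rv η then (1 : ℝ) else 0)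
        = if x + st δ = y then 1 else 0 := by
      rw [Finset.sum_eq_single (rv δ)]
      · simp only [rv_rv, and_true, eq_add_st_rv_iff]
        by_cases h : y = x + st δ
        · rw [if_pos h, if_pos h.symm]
        · rw [if_neg h, if_neg fun e => h e.symm]
      · intro η _ hη
        rw [if_neg]
        rintro ⟨-, h⟩
        exact hη ((rv_eq_iff δ η).1 h)
      · intro h; exact absurd (Finset.mem_univ _) h
    rw [e1, e2]
    ring

theorem sum_cnt_mul (G : Fld d) (ω : Om d) (x : V d) (L : List (Dir d)) (h : OpenL ω x L)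
    (hG : ∀ y, Conn ω x y → ∀ δ, opn ω y δ → G (sh (y + st δ) ω) (rv δ) = - G (sh y ω) δ)
    (T : Finset (V d)) (hT : Bx L.length x ⊆ T) :
    ∑ y ∈ T, ∑ δ, (if opn ω y δ then 1 else 0) * (G (sh y ω) δ * cnt y δ x L)
      = 2 * Gs G ω x L := by
  induction L generalizing x with
  | nil => simp [cnt, Gs]
  | cons δ L ih =>
    have h1 : opn ω x δ := h.1
    have hT' : Bx L.length (x + st δ) ⊆ T :=
      fun y hy => hT (Bx_subset (add_st_mem_Bx x δ) hy)
    have ih' := ih (x + st δ) h.2 (fun y hy => hG y ((conn_step ω x δ h1).trans hy)) hT'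
    have hx : x ∈ T := hT (self_mem_Bx _ x)
    have hx' : x + st δ ∈ T := hT' (self_mem_Bx _ _)
    have split : ∀ y η, (if opn ω y η then (1 : ℝ) else 0) * (G (sh y ω) η * cnt y η x (δ :: L))
        = (if x = y ∧ δ = η then (if opn ω y η then (1 : ℝ) else 0) * G (sh y ω) η else 0)
          - (if x = y + st η ∧ δ = rv η then
              (if opn ω y η then (1 : ℝ) else 0) * G (sh y ω) η else 0)
          + (if opn ω y η then (1 : ℝ) else 0) * (G (sh y ω) η * cnt y η (x + st δ) L) := by
      intro y η
      simp only [cnt]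
      split_ifs <;> ring
    simp only [split, Finset.sum_add_distrib, Finset.sum_sub_distrib]
    rw [ih']
    have e1 : ∑ y ∈ T, ∑ η : Dir d, (if x = y ∧ δ = η then
        (if opn ω y η then (1 : ℝ) else 0) * G (sh y ω) η else 0) = G (sh x ω) δ := by
      rw [Finset.sum_eq_single_of_mem x hx, Finset.sum_eq_single_of_mem δ (Finset.mem_univ _)]
      · simp [h1]
      · intro η _ hη
        rw [if_neg]
        rintro ⟨-, h⟩
        exact hη h.symm
      · intro y _ hy
        refine Finset.sum_eq_zero fun η _ => ?_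
        rw [if_neg]
        rintro ⟨h, -⟩
        exact hy h.symm
    have e2 : ∑ y ∈ T, ∑ η : Dir d, (if x = y + st η ∧ δ = rv η then
        (if opn ω y η then (1 : ℝ) else 0) * G (sh y ω) η else 0) = - G (sh x ω) δ := by
      rw [Finset.sum_eq_single_of_mem (x + st δ) hx',
        Finset.sum_eq_single_of_mem (rv δ) (Finset.mem_univ _)]
      · rw [if_pos ⟨(eq_add_st_rv_iff x _ δ).2 rfl, (rv_rv δ).symm⟩,
          if_pos ((opn_rv ω x δ).2 h1), one_mul]
        exact hG x Relation.ReflTransGen.refl δ h1
      · intro η _ hη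
        rw [if_neg]
        rintro ⟨-, h⟩
        exact hη ((rv_eq_iff δ η).1 h)
      · intro y _ hy
        refine Finset.sum_eq_zero fun η _ => ?_
        rw [if_neg]
        rintro ⟨h, h'⟩
        rw [(rv_eq_iff δ η).1 h', eq_add_st_rv_iff] at h
        exact hy h
    rw [e1, e2]
    simp only [Gs]
    ring

end Ein99
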