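import Pool.Agent.LibEin99.A_Edge
import Pool.Agent.LibEin99.G_Diff

/-!
TASK G_Energy. The Dirichlet energy of the Green function and the resistance bound.

Let `u y = Occ n y x` (expected visits to `x` before `n` from `y`); `u` vanishes outside `Bx n x`
(`Occ_eq_zero`, `Bx_comm`).
Conductances `cd y δ = exp(lam (y·l + (y+st δ)·l))` on open edges, symmetric: `cd (y+st δ) (rv δ) =
cd y δ`. `cd y δ = exp(2 lam y·l) * wt y δ` on open edges.
`(u - Pop u)(y) = 1_{y=x} - Pn n 1_x y` (telescoping, `Pn_succ`).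
`green_energy`: by `edge_sum` applied to `f y δ = cd y δ * u y * (u y - u (y + st δ))`,
`∑_edges cd (u y - u y')² = ∑_y u y exp(2 lam y·l) Zw y (u - Pop u)(y)
  ≤ exp(2 lam x·l) Zw x u x`  (the term with `Pn n 1_x y ≥ 0` is nonpositive).
`green_bound`: let `S` be a finite set of open edges joining `x` to `y ∉ Bx n x`, so `u y = 0`;
`u x ^2 = (u x - u y)² ≤ (∑_S 1/w)(∑_S w (∇u)²)` (`diff_sq_le_weight` with
`w e = exp(lam (e.1·l + (e.1+st (e.2,true))·l))`), and `∑_S w (∇u)² ≤ green_energy`
(edges outside the region of `esum` have `∇u = 0`). Divide by `u x` (if `u x = 0` trivial) and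
normalise the exponents.
-/

open MeasureTheory ProbabilityTheory Filter Topology

namespace Ein99

variable {d : ℕ} (lam : ℝ) (l : Fin d → ℝ) (ω : Om d)

theorem G_Energy_Pop_sum (n : ℕ) (x y : V d) :
    Pop lam l ω (fun z => Occ lam l ω n z x) y
      = ∑ k ∈ Finset.range n, Pn lam l ω (k + 1) (Set.indicator {x} (fun _ => (1 : ℝ))) y := by
  have h1 : (fun z => Occ lam l ω n z x) =
      ∑ k ∈ Finset.range n, Pn lam l ω k (Set.indicator {x} (fun _ => (1 : ℝ))) := by
    funext z
    unfold Occ
    rw [Finset.sum_apply]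
  have h2 : Pop lam l ω (fun z => Occ lam l ω n z x) =
      Pn lam l ω 1 (fun z => Occ lam l ω n z x) := rfl
  rw [h2, h1, Pn_sum, Finset.sum_apply]
  apply Finset.sum_congr rfl
  intro k _
  rw [Pn_succ lam l ω k]
  rfl

theorem Occ_gen (n : ℕ) (x y : V d) :
    Occ lam l ω n y x - Pop lam l ω (fun z => Occ lam l ω n z x) y
      = (Set.indicator {x} (fun _ => (1 : ℝ)) y)
        - Pn lam l ω n (Set.indicator {x} (fun _ => (1 : ℝ))) y := by
  rw [G_Energy_Pop_sum]
  unfold Occ
  rw [← Finset.sum_sub_distrib, Finset.sum_range_sub', Pn_zero]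

theorem G_Energy_Occ_zero (n : ℕ) (x y : V d) (h : y ∉ Bx n x) : Occ lam l ω n y x = 0 :=
  Occ_eq_zero lam l ω n y x (fun h' => h (Bx_comm.1 h'))

/-- the sum at one vertex -/
theorem G_Energy_vertex (u : V d → ℝ) (y : V d) :
    ∑ δ, (if opn ω y δ then
        Real.exp (lam * (dot l y + dot l (y + st δ))) * u y * (u y - u (y + st δ)) else 0)
      = u y * Real.exp (2 * lam * dot l y) * Zw lam l ω y * (u y - Pop lam l ω u y) := by
  have h1 : ∀ δ : Dir d, (if opn ω y δ then
        Real.exp (lam * (dot l y + dot l (y + st δ))) * u y * (u y - u (y + st δ)) else 0)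
      = u y * Real.exp (2 * lam * dot l y) * (wt lam l ω y δ * (u y - u (y + st δ))) := by
    intro δ
    unfold wt
    split_ifs
    · have h2 : Real.exp (lam * (dot l y + dot l (y + st δ)))
          = Real.exp (2 * lam * dot l y) * Real.exp (lam * dt l δ) := by
        rw [← Real.exp_add, dot_add, dot_st]
        congr 1
        ring
      rw [h2]
      ring
    · ring
  rw [Finset.sum_congr rfl (fun δ _ => h1 δ), ← Finset.mul_sum]
  unfold Pop
  by_cases hZ : Zw lam l ω y = 0
  · rw [if_pos hZ, hZ, mul_zero, zero_mul]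
    have h3 : ∀ δ ∈ (Finset.univ : Finset (Dir d)),
        wt lam l ω y δ * (u y - u (y + st δ)) = 0 := by
      intro δ _
      have h4 := (Zw_eq_zero_iff lam l ω y).1 hZ δ
      unfold wt
      rw [if_neg h4, zero_mul]
    rw [Finset.sum_eq_zero h3, mul_zero]
  · rw [if_neg hZ]
    have h3 : ∑ δ, wt lam l ω y δ * (u y - u (y + st δ)) =
        Zw lam l ω y * u y - ∑ δ, wt lam l ω y δ * u (y + st δ) := by
      unfold Zw
      rw [Finset.sum_mul, ← Finset.sum_sub_distrib]
      apply Finset.sum_congr rfl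
      intro δ _
      ring
    rw [h3]
    field_simp

theorem green_energy (n : ℕ) (x : V d) :
    esum ω (n + 1) x (fun y i => Real.exp (lam * (dot l y + dot l (y + st (i, true))))
        * (Occ lam l ω n y x - Occ lam l ω n (y + st (i, true)) x) ^ 2)
      ≤ Real.exp (2 * lam * dot l x) * Zw lam l ω x * Occ lam l ω n x x := by
  have h1 := edge_sum ω n (n + 1) le_rfl x
    (fun y δ => Real.exp (lam * (dot l y + dot l (y + st δ))) * Occ lam l ω n y x *
      (Occ lam l ω n y x - Occ lam l ω n (y + st δ) x)) (by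
      intro y hy δ
      have h2 := G_Energy_Occ_zero lam l ω n x y hy
      simp only [h2, mul_zero, zero_mul])
  have h2 : (fun (y : V d) (i : Fin d) =>
      Real.exp (lam * (dot l y + dot l (y + st (i, true))))
        * (Occ lam l ω n y x - Occ lam l ω n (y + st (i, true)) x) ^ 2) =
      fun y i => Real.exp (lam * (dot l y + dot l (y + st (i, true)))) * Occ lam l ω n y x *
        (Occ lam l ω n y x - Occ lam l ω n (y + st (i, true)) x) +
        Real.exp (lam * (dot l (y + st (i, true)) + dot l (y + st (i, true) + st (i, false)))) *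
        Occ lam l ω n (y + st (i, true)) x *
        (Occ lam l ω n (y + st (i, true)) x -
          Occ lam l ω n (y + st (i, true) + st (i, false)) x) := by
    funext y i
    have e3 : y + st (i, true) + st (i, false) = y := by
      have h4 : (st (i, false) : V d) = -st (i, true) := st_rv (i, true)
      rw [h4, add_neg_cancel_right]
    rw [e3, add_comm (dot l (y + st (i, true))) (dot l y)]
    ring
  rw [h2, ← h1]
  have h3 : ∀ y ∈ Bx n x, (∑ δ, (if opn ω y δ then
        Real.exp (lam * (dot l y + dot l (y + st δ))) * Occ lam l ω n y x *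
          (Occ lam l ω n y x - Occ lam l ω n (y + st δ) x) else 0))
      ≤ if y = x then Real.exp (2 * lam * dot l x) * Zw lam l ω x * Occ lam l ω n x x else 0 := by
    intro y _
    have h4 := G_Energy_vertex lam l ω (fun z => Occ lam l ω n z x) y
    rw [h4, Occ_gen]
    have h5 : 0 ≤ Pn lam l ω n (Set.indicator {x} (fun _ => (1 : ℝ))) y :=
      Pn_nonneg lam l ω n (fun z => Set.indicator_nonneg (fun _ _ => zero_le_one) z) y
    have h6 : 0 ≤ Occ lam l ω n y x * Real.exp (2 * lam * dot l y) * Zw lam l ω y :=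
      mul_nonneg (mul_nonneg (Occ_nonneg lam l ω n y x) (Real.exp_pos _).le)
        (Zw_nonneg lam l ω y)
    by_cases hyx : y = x
    · subst hyx
      rw [if_pos rfl, Set.indicator_of_mem (Set.mem_singleton y)]
      have h7 := mul_nonneg h6 h5
      nlinarith
    · rw [if_neg hyx, Set.indicator_of_notMem (fun h => hyx (Set.mem_singleton_iff.1 h))]
      have h7 := mul_nonneg h6 h5
      nlinarith
  refine (Finset.sum_le_sum h3).trans (le_of_eq ?_)
  rw [Finset.sum_ite_eq' (Bx n x) x, if_pos (self_mem_Bx n x)]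

theorem G_Energy_sum_le (n : ℕ) (x : V d) (S : Finset (Ed d)) (hS : ∀ e ∈ S, ω e = true) :
    ∑ e ∈ S, Real.exp (lam * (dot l e.1 + dot l (e.1 + st (e.2, true))))
        * (Occ lam l ω n e.1 x - Occ lam l ω n (e.1 + st (e.2, true)) x) ^ 2
      ≤ esum ω (n + 1) x (fun y i => Real.exp (lam * (dot l y + dot l (y + st (i, true))))
        * (Occ lam l ω n y x - Occ lam l ω n (y + st (i, true)) x) ^ 2) := by
  classical
  rw [A_Edge_esum_eq]
  have h1 : ∑ e ∈ S, Real.exp (lam * (dot l e.1 + dot l (e.1 + st (e.2, true))))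
        * (Occ lam l ω n e.1 x - Occ lam l ω n (e.1 + st (e.2, true)) x) ^ 2 =
      ∑ e ∈ S.filter (fun e => e.1 ∈ Bx (n + 1) x),
        Real.exp (lam * (dot l e.1 + dot l (e.1 + st (e.2, true))))
        * (Occ lam l ω n e.1 x - Occ lam l ω n (e.1 + st (e.2, true)) x) ^ 2 := by
    symm
    apply Finset.sum_subset (Finset.filter_subset _ _)
    intro e he he'
    have h2 : e.1 ∉ Bx (n + 1) x := fun h => he' (Finset.mem_filter.2 ⟨he, h⟩)
    have h3 : e.1 ∉ Bx n x := fun h => h2 (Bx_mono (by omega) x h)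
    have h4 : e.1 + st (e.2, true) ∉ Bx n x := by
      intro h
      apply h2
      have h5 : e.1 ∈ Bx 1 (e.1 + st (e.2, true)) := Bx_comm.1 (add_st_mem_Bx e.1 (e.2, true))
      exact Bx_trans h h5
    rw [G_Energy_Occ_zero lam l ω n x _ h3, G_Energy_Occ_zero lam l ω n x _ h4]
    ring
  rw [h1]
  apply Finset.sum_le_sum_of_subset_of_nonneg
  · intro e he
    rw [Finset.mem_filter] at he
    rw [Finset.mem_filter, Finset.mem_product]
    refine ⟨⟨he.2, Finset.mem_univ _⟩, ?_⟩
    exact hS e he.1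
  · intro e _ _
    exact mul_nonneg (Real.exp_pos _).le (sq_nonneg _)

theorem green_bound (n : ℕ) (x y : V d) (hy : y ∉ Bx n x) (S : Finset (Ed d))
    (hS : ∀ e ∈ S, ω e = true) (hxy : ConnS S x y) :
    Occ lam l ω n x x ≤ Zw lam l ω x * ∑ e ∈ S,
      Real.exp (-(lam * ((dot l e.1 - dot l x) + (dot l (e.1 + st (e.2, true)) - dot l x)))) := by
  have h1 := diff_sq_le_weight S (fun z => Occ lam l ω n z x)
    (fun e => Real.exp (lam * (dot l e.1 + dot l (e.1 + st (e.2, true)))))
    (fun e => Real.exp_pos _) x y hxy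
  rw [G_Energy_Occ_zero lam l ω n x y hy, sub_zero] at h1
  have h2 := (G_Energy_sum_le lam l ω n x S hS).trans (green_energy lam l ω n x)
  have h3 : ∑ e ∈ S, Real.exp (-(lam * ((dot l e.1 - dot l x)
      + (dot l (e.1 + st (e.2, true)) - dot l x)))) =
      Real.exp (2 * lam * dot l x) *
        ∑ e ∈ S, 1 / Real.exp (lam * (dot l e.1 + dot l (e.1 + st (e.2, true)))) := by
    rw [Finset.mul_sum]
    apply Finset.sum_congr rfl
    intro e _
    rw [one_div, ← Real.exp_neg, ← Real.exp_add]
    congr 1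
    ring
  have h4 : 0 ≤ ∑ e ∈ S, 1 / Real.exp (lam * (dot l e.1 + dot l (e.1 + st (e.2, true)))) :=
    Finset.sum_nonneg fun e _ => one_div_nonneg.2 (Real.exp_pos _).le
  rw [h3]
  set A := ∑ e ∈ S, 1 / Real.exp (lam * (dot l e.1 + dot l (e.1 + st (e.2, true)))) with hA
  have h5 : Occ lam l ω n x x ^ 2 ≤
      A * (Real.exp (2 * lam * dot l x) * Zw lam l ω x * Occ lam l ω n x x) :=
    h1.trans (mul_le_mul_of_nonneg_left h2 h4)
  have h6 := Occ_nonneg lam l ω n x x
  rcases h6.eq_or_lt with h7 | h7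
  · rw [← h7]
    exact mul_nonneg (Zw_nonneg lam l ω x) (mul_nonneg (Real.exp_pos _).le h4)
  · have h8 : Occ lam l ω n x x * Occ lam l ω n x x ≤
        (Zw lam l ω x * (Real.exp (2 * lam * dot l x) * A)) * Occ lam l ω n x x := by
      calc Occ lam l ω n x x * Occ lam l ω n x x = Occ lam l ω n x x ^ 2 := by ring
        _ ≤ _ := h5
        _ = _ := by ring
    exact le_of_mul_le_mul_right h8 h7

end Ein99
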