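import Pool.Agent.LibEin99.Defs4
import Pool.Agent.LibEin99.C_Chain

/-!
TASK H_Block. Paths of good blocks carry connections.

Let `Xb b ω z` be a vertex of `Bx b (b•z)` with `ToBd ω (4b) (b•z)` (for good `z`).
`good_step`: `z' = z + st δ` both good. `X z' ∈ Bx b (b•z') ⊆ Bx (2b) (b•z)`, and
`Bx (3b) (b•z) ⊆ Bx (4b) (b•z')`, so `ToBd ω (3b) (b•z) (X z')` (`ToBd_mono`); also
`ToBd ω (3b) (b•z) (X z)`; part (ii) of `GoodB b ω z` joins them inside `Bx (3b) (b•z)`.
`good_path`: induction along the path. `good_attach`: part (ii) directly.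
-/

namespace Ein99

variable {d : ℕ}

private theorem hb_mem {r : ℕ} {z x : V d} : x ∈ Bx r z ↔ ∀ i, z i - r ≤ x i ∧ x i ≤ z i + r := by
  unfold Bx
  rw [Finset.mem_Icc]
  exact ⟨fun h i => ⟨h.1 i, h.2 i⟩, fun h => ⟨fun i => (h i).1, fun i => (h i).2⟩⟩

private theorem hb_st (δ : Dir d) (i : Fin d) : -1 ≤ st δ i ∧ st δ i ≤ 1 := by
  unfold st
  by_cases h : i = δ.1
  · subst h
    rw [Pi.single_eq_same]
    split <;> norm_num
  · rw [Pi.single_eq_of_ne h]
    norm_num

open Classical in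
/-- the representative of a good block -/
noncomputable def Xb (b : ℕ) (ω : Om d) (z : V d) : V d :=
  if h : ∃ x ∈ Bx b ((b : ℤ) • z), ToBd ω (4 * b) ((b : ℤ) • z) x then h.choose else 0

theorem Xb_mem (b : ℕ) (ω : Om d) (z : V d) (h : GoodB b ω z) :
    Xb b ω z ∈ Bx b ((b : ℤ) • z) ∧ ToBd ω (4 * b) ((b : ℤ) • z) (Xb b ω z) := by
  unfold Xb
  rw [dif_pos h.1]
  exact ⟨h.1.choose_spec.1, h.1.choose_spec.2⟩

private theorem hb_sub {r s : ℕ} {z y : V d} (h : ∀ i, z i - r ≤ y i - s ∧ y i + s ≤ z i + r) :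
    Bx s y ⊆ Bx r z := by
  intro x hx
  rw [hb_mem] at hx ⊢
  intro i
  have := hx i
  have := h i
  constructor <;> omega

private theorem hb_X (b : ℕ) (ω : Om d) (z : V d) (h : GoodB b ω z) :
    Xb b ω z ∈ Bx (2 * b) ((b : ℤ) • z) ∧ ToBd ω (3 * b) ((b : ℤ) • z) (Xb b ω z) := by
  obtain ⟨h1, h2⟩ := Xb_mem b ω z h
  refine ⟨hb_sub (fun i => ?_) h1, ToBd_mono ω (hb_sub fun i => ?_) (hb_sub (fun i => ?_) h1) h2⟩ <;>
  · push_cast
    constructor <;> omega

theorem good_step (b : ℕ) (ω : Om d) (z : V d) (δ : Dir d) (h : GoodB b ω z)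
    (h' : GoodB b ω (z + st δ)) :
    JoinIn ω (Bx (3 * b) ((b : ℤ) • z) : Set (V d)) (Xb b ω z) (Xb b ω (z + st δ)) := by
  obtain ⟨h1, h2⟩ := hb_X b ω z h
  obtain ⟨h3, h4⟩ := Xb_mem b ω _ h'
  have key : ∀ i, ((b : ℤ) • (z + st δ)) i - ((b : ℤ) • z) i ≤ b ∧
      -(b : ℤ) ≤ ((b : ℤ) • (z + st δ)) i - ((b : ℤ) • z) i := by
    intro i
    have e : ((b : ℤ) • (z + st δ)) i - ((b : ℤ) • z) i = b * st δ i := by
      simp only [Pi.smul_apply, Pi.add_apply, smul_eq_mul]
      ring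
    rw [e]
    have := hb_st δ i
    have hb : (0 : ℤ) ≤ b := Int.natCast_nonneg b
    constructor <;> nlinarith
  refine h.2 _ h1 _ (hb_sub (fun i => ?_) h3) h2 (ToBd_mono ω (hb_sub fun i => ?_)
    (hb_sub (fun i => ?_) h3) h4) <;>
  · have := key i
    push_cast
    constructor <;> omega

theorem good_path (b : ℕ) (ω : Om d) (ρ : ℕ) (z z' : V d) (hz : z ∈ Bx ρ (0 : V d))
    (h : GoodB b ω z)
    (hzz : NJoin ({w | GoodB b ω w} ∩ (Bx ρ (0 : V d) : Set (V d))) z z') :
    JoinIn ω (Bx (b * ρ + 3 * b) (0 : V d) : Set (V d)) (Xb b ω z) (Xb b ω z') := by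
  unfold NJoin at hzz
  induction hzz with
  | refl => exact Relation.ReflTransGen.refl
  | @tail y w _ hyw ih =>
    obtain ⟨hy, hw, δ, rfl⟩ := hyw
    refine Relation.ReflTransGen.trans ih ?_
    refine JoinIn_mono ω ?_ (good_step b ω y δ hy.1 hw.1)
    intro x hx
    have hy2 : y ∈ Bx ρ (0 : V d) := hy.2
    rw [hb_mem] at hy2
    have hx' : x ∈ Bx (3 * b) ((b : ℤ) • y) := hx
    rw [hb_mem] at hx'
    change x ∈ Bx (b * ρ + 3 * b) (0 : V d)
    rw [hb_mem]
    intro i
    have h1 := hy2 i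
    have h2 := hx' i
    simp only [Pi.zero_apply, Pi.smul_apply, smul_eq_mul] at h1 h2 ⊢
    push_cast at h2 ⊢
    have hb : (0 : ℤ) ≤ b := Int.natCast_nonneg b
    constructor <;> nlinarith

theorem good_attach (b : ℕ) (ω : Om d) (z v : V d) (h : GoodB b ω z)
    (hv : v ∈ Bx (2 * b) ((b : ℤ) • z)) (hv2 : ToBd ω (3 * b) ((b : ℤ) • z) v) :
    JoinIn ω (Bx (3 * b) ((b : ℤ) • z) : Set (V d)) v (Xb b ω z) := by
  obtain ⟨h1, h2⟩ := hb_X b ω z h
  exact h.2 _ hv _ h1 hv2 h2

/-- The block containing a vertex; steps of the lattice move it by at most one step. -/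
def blk (b : ℕ) (v : V d) : V d := fun i => v i / (b : ℤ)

theorem mem_blk (b : ℕ) (hb : 1 ≤ b) (v : V d) : v ∈ Bx b ((b : ℤ) • blk b v) := by
  rw [hb_mem]
  intro i
  have hb0 : (0 : ℤ) < b := by exact_mod_cast hb
  have h1 := Int.emod_add_mul_ediv (v i) b
  have h2 := Int.emod_nonneg (v i) hb0.ne'
  have h3 := Int.emod_lt_of_pos (v i) hb0
  simp only [Pi.smul_apply, smul_eq_mul, blk]
  constructor <;> linarith

theorem blk_step (b : ℕ) (hb : 1 ≤ b) (v : V d) (δ : Dir d) :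
    blk b (v + st δ) = blk b v ∨ ∃ η : Dir d, blk b (v + st δ) = blk b v + st η := by
  have hb0 : (0 : ℤ) < b := by exact_mod_cast hb
  have hone : ∀ (m e : ℤ), (e = 1 ∨ e = -1) → (m + e) / b = m / b ∨ (m + e) / b = m / b + e := by
    intro m e he
    have h1 := Int.emod_add_mul_ediv m b
    have h2 := Int.emod_nonneg m hb0.ne'
    have h3 := Int.emod_lt_of_pos m hb0
    have h1' := Int.emod_add_mul_ediv (m + e) b
    have h2' := Int.emod_nonneg (m + e) hb0.ne'
    have h3' := Int.emod_lt_of_pos (m + e) hb0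
    set q := m / (b : ℤ)
    set q' := (m + e) / (b : ℤ)
    have h4 : (b : ℤ) * (q' - q) < b * 2 := by
      rcases he with rfl | rfl <;> nlinarith
    have h5 : (b : ℤ) * (-2) < b * (q' - q) := by
      rcases he with rfl | rfl <;> nlinarith
    have h6 := lt_of_mul_lt_mul_left h4 hb0.le
    have h7 := lt_of_mul_lt_mul_left h5 hb0.le
    rcases he with rfl | rfl
    · have h8 : q' - q ≠ -1 := by
        intro h
        have h9 : q' = q - 1 := by linarith
        rw [h9] at h1'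
        nlinarith
      omega
    · have h8 : q' - q ≠ 1 := by
        intro h
        have h9 : q' = q + 1 := by linarith
        rw [h9] at h1'
        nlinarith
      omega
  have hst : st δ δ.1 = 1 ∨ st δ δ.1 = -1 := by
    unfold st
    rw [Pi.single_eq_same]
    cases δ.2 <;> simp
  have hst0 : ∀ i, i ≠ δ.1 → st δ i = 0 := by
    intro i hi
    unfold st
    rw [Pi.single_eq_of_ne hi]
  rcases hone (v δ.1) (st δ δ.1) hst with h | h
  · left
    funext i
    by_cases hi : i = δ.1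
    · subst hi
      exact h
    · change (v i + st δ i) / (b : ℤ) = v i / b
      rw [hst0 i hi, add_zero]
  · right
    refine ⟨δ, ?_⟩
    funext i
    by_cases hi : i = δ.1
    · subst hi
      exact h
    · change (v i + st δ i) / (b : ℤ) = v i / b + st δ i
      rw [hst0 i hi, add_zero, add_zero]

/-- the blocks visited by an open path form a nearest neighbour path -/
theorem blk_path (b : ℕ) (hb : 1 ≤ b) (ω : Om d) (S : Set (V d)) (x y : V d)
    (h : JoinIn ω S x y) :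
    NJoin {z | ∃ v, JoinIn ω S x v ∧ blk b v = z} (blk b x) (blk b y) := by
  unfold JoinIn at h
  induction h with
  | refl => exact Relation.ReflTransGen.refl
  | @tail v w hv hvw ih =>
    obtain ⟨δ, -, rfl⟩ := hvw.2.2
    rcases blk_step b hb v δ with h1 | ⟨η, h1⟩
    · rw [h1]
      exact ih
    · refine Relation.ReflTransGen.tail ih ⟨⟨v, hv, rfl⟩, ⟨v + st δ, ?_, rfl⟩, η, h1⟩
      exact Relation.ReflTransGen.tail hv hvw

end Ein99
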