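import Pool.Agent.LibEin99.H_Star
import Pool.Agent.LibEin99.C_Shift
import Pool.Agent.LibEin99.C_Loc2
import Pool.Agent.LibEin99.C_Meas

/-!
TASK H_Prob. Large clusters of bad blocks are exponentially unlikely.

`GoodB b ω z` is local on `EB (4b) (b•z)`, and has the same probability for every `z`
(`sh`-covariance: `GoodB b ω z ↔ GoodB b (sh (b•z) ω) 0`).
`all_bad`: for a finite set `s` of distinct blocks take the sparse subset `t` (`sparse_subset`): the
boxes `Bx (4b) (b•z)`, `z ∈ t`, are pairwise disjoint, the events are independent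
(`Loc.iIndepFun`), so `P(all of s bad) ≤ δ^{card t} ≤ δ^{⌈card s/9^d⌉}`; we state it with a real
exponent: `δ ^ ((card s : ℝ)/9^d)` for `0 < δ ≤ 1`.
`cluster_prob`: union over the starting vertex `u ∈ Bx R 0` and the `*`-paths (`star_path`,
`star_count`).
-/

open MeasureTheory ProbabilityTheory Filter Topology

namespace Ein99

variable {d : ℕ} {p : unitInterval}

theorem Loc_GoodB (b : ℕ) (z : V d) :
    Loc (EB (4 * b) ((b : ℤ) • z) : Set (Ed d)) (fun ω : Om d => GoodB b ω z) := by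
  intro ω ω' h
  have h3 : ∀ e ∈ (EB (3 * b) ((b : ℤ) • z) : Set (Ed d)), ω e = ω' e := fun e he =>
    h e (EB_mono (by omega : 3 * b ≤ 4 * b) _ he)
  have e4 : ∀ x, ToBd ω (4 * b) ((b : ℤ) • z) x = ToBd ω' (4 * b) ((b : ℤ) • z) x := fun x =>
    Loc_ToBd (4 * b) ((b : ℤ) • z) x ω ω' h
  have e3 : ∀ x, ToBd ω (3 * b) ((b : ℤ) • z) x = ToBd ω' (3 * b) ((b : ℤ) • z) x := fun x =>
    Loc_ToBd (3 * b) ((b : ℤ) • z) x ω ω' h3
  have ej : ∀ x y, JoinIn ω (Bx (3 * b) ((b : ℤ) • z) : Set (V d)) x y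
      = JoinIn ω' (Bx (3 * b) ((b : ℤ) • z) : Set (V d)) x y := fun x y =>
    Loc_JoinIn (3 * b) ((b : ℤ) • z) x y ω ω' h3
  simp only [GoodB, e4, e3, ej]

theorem measurableSet_GoodB (b : ℕ) (z : V d) : MeasurableSet {ω : Om d | GoodB b ω z} :=
  Loc.measurableSet (EB (4 * b) ((b : ℤ) • z)) (Loc_GoodB b z)

theorem H_Prob_sh (b : ℕ) (z : V d) (ω : Om d) :
    GoodB b (sh ((b : ℤ) • z) ω) 0 ↔ GoodB b ω z := by
  set w : V d := (b : ℤ) • z with hw
  have hB : ∀ (r : ℕ) (x : V d), x ∈ Bx r ((b : ℤ) • (0 : V d)) ↔ x + w ∈ Bx r w := by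
    intro r x
    simp only [mem_Bx, smul_zero, Pi.add_apply, Pi.zero_apply, add_sub_cancel_right, sub_zero]
  have h0 : (b : ℤ) • (0 : V d) + w = w := by simp
  unfold GoodB
  rw [← hw]
  simp only [ToBd_sh, JoinIn_sh, hB, h0]
  constructor
  · rintro ⟨⟨x, hx, hx'⟩, h2⟩
    refine ⟨⟨x + w, hx, hx'⟩, ?_⟩
    intro x hx y hy h3 h4
    have := h2 (x - w) (by simpa using hx) (y - w) (by simpa using hy) (by simpa using h3)
      (by simpa using h4)
    simpa using this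
  · rintro ⟨⟨x, hx, hx'⟩, h2⟩
    refine ⟨⟨x - w, by simpa using hx, by simpa using hx'⟩, ?_⟩
    intro x hx y hy h3 h4
    exact h2 (x + w) hx (y + w) hy h3 h4

theorem GoodB_prob (b : ℕ) (z : V d) :
    (Pr d p).real {ω : Om d | ¬ GoodB b ω z} = (Pr d p).real {ω : Om d | ¬ GoodB b ω 0} := by
  have h1 : {ω : Om d | ¬ GoodB b ω z} = sh ((b : ℤ) • z) ⁻¹' {ω : Om d | ¬ GoodB b ω 0} := by
    ext ω
    simp only [Set.mem_ofPred_eq, Set.mem_preimage, H_Prob_sh]
  rw [h1]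
  exact (mp_sh p ((b : ℤ) • z)).measureReal_preimage
    (measurableSet_GoodB b 0).compl.nullMeasurableSet

theorem all_bad (b : ℕ) (hb : 1 ≤ b) (δ : ℝ) (hδ : 0 < δ) (hδ1 : δ ≤ 1)
    (h : (Pr d p).real {ω : Om d | ¬ GoodB b ω 0} ≤ δ) (s : Finset (V d)) :
    (Pr d p).real {ω : Om d | ∀ z ∈ s, ¬ GoodB b ω z} ≤ δ ^ ((s.card : ℝ) / 9 ^ d) := by
  classical
  obtain ⟨t, hts, hcard, hsp⟩ := sparse_subset s
  have hmono : (Pr d p).real {ω : Om d | ∀ z ∈ s, ¬ GoodB b ω z} ≤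
      (Pr d p).real {ω : Om d | ∀ z ∈ t, ¬ GoodB b ω z} :=
    measureReal_mono (fun ω hω z hz => hω z (hts hz))
  refine hmono.trans ?_
  -- independence
  let g : t → Om d → ℝ := fun z ω => if GoodB b ω z.1 then 0 else 1
  have hgloc : ∀ i : t, Loc ((EB (4 * b) ((b : ℤ) • i.1) : Finset (Ed d)) : Set (Ed d)) (g i) := by
    intro i ω ω' hω
    have := Loc_GoodB b i.1 ω ω' hω
    simp only [g]
    simp only [this]
  have hdis : Pairwise (fun i j : t => Disjoint (EB (4 * b) ((b : ℤ) • i.1))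
      (EB (4 * b) ((b : ℤ) • j.1))) := by
    intro i j hij
    rw [Finset.disjoint_left]
    intro e he he'
    have hne : (i.1 : V d) ≠ j.1 := fun h => hij (Subtype.ext h)
    obtain ⟨k, hk⟩ := hsp i.1 i.2 j.1 j.2 hne
    have h1 := mem_Bx.1 (mem_EB.1 he).1 k
    have h2 := mem_Bx.1 (mem_EB.1 he').1 k
    simp only [Pi.smul_apply, smul_eq_mul] at h1 h2
    have h3 : |(b : ℤ) * i.1 k - (b : ℤ) * j.1 k| ≤ ((4 * b : ℕ) : ℤ) + ((4 * b : ℕ) : ℤ) := by
      have : (b : ℤ) * i.1 k - (b : ℤ) * j.1 k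
          = (e.1 k - (b : ℤ) * j.1 k) - (e.1 k - (b : ℤ) * i.1 k) := by ring
      rw [this]
      exact (abs_sub _ _).trans (by linarith)
    rw [← mul_sub, abs_mul] at h3
    have hb0 : |(b : ℤ)| = b := abs_of_nonneg (by positivity)
    rw [hb0] at h3
    push_cast at h3
    have hbZ : (1 : ℤ) ≤ b := by exact_mod_cast hb
    nlinarith
  have hind := Loc.iIndepFun p (fun i : t => EB (4 * b) ((b : ℤ) • i.1)) hdis g hgloc
  have hprod := hind.measure_inter_preimage_eq_mul (S := Finset.univ) (sets := fun _ => {1})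
    (fun i _ => measurableSet_singleton _)
  have hpre : ∀ i : t, g i ⁻¹' {1} = {ω : Om d | ¬ GoodB b ω i.1} := by
    intro i
    ext ω
    simp only [g, Set.mem_preimage, Set.mem_singleton_iff, Set.mem_ofPred_eq]
    split_ifs with h1 <;> simp [h1]
  have hinter : (⋂ i ∈ (Finset.univ : Finset t), g i ⁻¹' {1})
      = {ω : Om d | ∀ z ∈ t, ¬ GoodB b ω z} := by
    ext ω
    simp only [Set.mem_iInter, hpre, Set.mem_ofPred_eq, Finset.mem_univ, true_implies,
      Subtype.forall]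
  rw [hinter] at hprod
  have hreal : (Pr d p).real {ω : Om d | ∀ z ∈ t, ¬ GoodB b ω z}
      = ∏ i : t, (Pr d p).real {ω : Om d | ¬ GoodB b ω i.1} := by
    rw [Measure.real, hprod, ENNReal.toReal_prod]
    refine Finset.prod_congr rfl (fun i _ => ?_)
    rw [hpre]; rfl
  rw [hreal]
  have hle : ∏ i : t, (Pr d p).real {ω : Om d | ¬ GoodB b ω i.1} ≤ ∏ _i : t, δ :=
    Finset.prod_le_prod (fun i _ => measureReal_nonneg) (fun i _ => by rw [GoodB_prob]; exact h)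
  refine hle.trans ?_
  rw [Finset.prod_const, Finset.card_univ, Fintype.card_coe]
  rw [← Real.rpow_natCast]
  refine Real.rpow_le_rpow_of_exponent_ge hδ hδ1 ?_
  rw [div_le_iff₀ (by positivity)]
  have : (s.card : ℝ) ≤ ((9 ^ d * t.card : ℕ) : ℝ) := by exact_mod_cast hcard
  push_cast at this
  linarith

theorem cluster_prob (b : ℕ) (hb : 1 ≤ b) (δ : ℝ) (hδ : 0 < δ) (hδ1 : δ ≤ 1)
    (h : (Pr d p).real {ω : Om d | ¬ GoodB b ω 0} ≤ δ) (R k : ℕ) :
    (Pr d p).real {ω : Om d | ∃ u v, u ∈ Bx R (0 : V d) ∧ ¬ GoodB b ω u ∧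
        SJoin {z : V d | z ∈ Bx R (0 : V d) ∧ ¬ GoodB b ω z} u v ∧ v ∉ Bx k u}
      ≤ (2 * R + 1) ^ d * (3 ^ d) ^ k * δ ^ (((k : ℝ) + 1) / 9 ^ d) := by
  classical
  have hfin : ∀ u : V d, {f : Fin (k + 1) → V d | f 0 = u ∧
      ∀ i : Fin k, f i.succ ∈ Bx 1 (f i.castSucc)}.Finite := fun u => (star_count k u).1
  have hcnt : ∀ u : V d, ((hfin u).toFinset.card : ℝ) ≤ (3 ^ d) ^ k := by
    intro u
    have h1 := (star_count k u).2
    rw [Set.ncard_eq_toFinset_card _ (hfin u)] at h1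
    exact_mod_cast h1
  let F : V d → Finset (Fin (k + 1) → V d) := fun u =>
    (hfin u).toFinset.filter (fun f => Function.Injective f)
  have hsub : {ω : Om d | ∃ u v, u ∈ Bx R (0 : V d) ∧ ¬ GoodB b ω u ∧
        SJoin {z : V d | z ∈ Bx R (0 : V d) ∧ ¬ GoodB b ω z} u v ∧ v ∉ Bx k u} ⊆
      ⋃ u ∈ Bx R (0 : V d), ⋃ f ∈ F u,
        {ω : Om d | ∀ z ∈ Finset.univ.image f, ¬ GoodB b ω z} := by
    rintro ω ⟨u, v, hu, hbad, hj, hv⟩
    obtain ⟨f, hf0, hfi, hfB, hfs⟩ := star_path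
      {z : V d | z ∈ Bx R (0 : V d) ∧ ¬ GoodB b ω z} k u v ⟨hu, hbad⟩ hj hv
    simp only [Set.mem_iUnion]
    refine ⟨u, hu, f, ?_, ?_⟩
    · simp only [F, Finset.mem_filter, Set.Finite.mem_toFinset, Set.mem_ofPred_eq]
      exact ⟨⟨hf0, hfs⟩, hfi⟩
    · intro z hz
      obtain ⟨i, _, rfl⟩ := Finset.mem_image.1 hz
      exact (hfB i).2
  refine (measureReal_mono hsub (measure_ne_top _ _)).trans ?_
  refine (measureReal_biUnion_finset_le _ _).trans ?_
  have hone : ∀ u ∈ Bx R (0 : V d), (Pr d p).real (⋃ f ∈ F u,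
      {ω : Om d | ∀ z ∈ Finset.univ.image f, ¬ GoodB b ω z}) ≤
      (3 ^ d) ^ k * δ ^ (((k : ℝ) + 1) / 9 ^ d) := by
    intro u _
    refine (measureReal_biUnion_finset_le _ _).trans ?_
    have h2 : ∀ f ∈ F u, (Pr d p).real
        {ω : Om d | ∀ z ∈ Finset.univ.image f, ¬ GoodB b ω z}
        ≤ δ ^ (((k : ℝ) + 1) / 9 ^ d) := by
      intro f hf
      have hinj : Function.Injective f := (Finset.mem_filter.1 hf).2
      have h3 := all_bad b hb δ hδ hδ1 h (Finset.univ.image f)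
      rw [Finset.card_image_of_injective _ hinj, Finset.card_univ, Fintype.card_fin] at h3
      push_cast at h3
      exact h3
    refine (Finset.sum_le_sum h2).trans ?_
    rw [Finset.sum_const, nsmul_eq_mul]
    refine mul_le_mul_of_nonneg_right ?_ (by positivity)
    refine le_trans ?_ (hcnt u)
    exact_mod_cast Finset.card_filter_le _ _
  refine (Finset.sum_le_sum hone).trans ?_
  rw [Finset.sum_const, nsmul_eq_mul, card_Bx]
  push_cast
  rw [mul_assoc]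

end Ein99
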