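import Pool.Agent.LibEin99.H_Main
import Pool.Agent.LibEin99.H_Prob

/-!
TASK H_Crit. The finite size criterion, and its verification for `p` close to one.

`hypH_of_crit`: `del0 d = (2 * 3^d)^{-9^d}`; by `LG_of_small` and `cluster_prob` with `R = 20 m`,
`k = m/(16b)`: `P(¬ LG 4 ω m 0) ≤ (40m+1)^d (3^d del0^{1/9^d})^k ≤ (40m+1)^d 2^{-k}` for `m ≥ 64 b`, and
`≤ 1` for smaller `m`; the polynomial is absorbed in the constant and half of the exponential rate.
`near_one`: if all edges of `EB 4 0` are open then `GoodB 1 ω 0` (paths inside boxes: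
`box_connected`); the probability that some edge of `EB 4 0` is closed is at most
`card (EB 4 0) * (1-p) ≤ d 9^d (1-p)`.
-/

open MeasureTheory ProbabilityTheory Filter Topology

namespace Ein99

/-- the threshold of the finite size criterion -/
noncomputable def del0 (d : ℕ) : ℝ := 1 / (2 * (3 : ℝ) ^ d) ^ (9 ^ d)

theorem H_Crit_del0_pos (d : ℕ) : 0 < del0 d := by unfold del0; positivity

theorem H_Crit_del0_le (d : ℕ) : del0 d ≤ 1 := by
  unfold del0
  rw [div_le_one (by positivity)]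
  refine one_le_pow₀ ?_
  have : (1 : ℝ) ≤ 3 ^ d := one_le_pow₀ (by norm_num)
  linarith

theorem H_Crit_pow (d k : ℕ) :
    (3 ^ d : ℝ) ^ k * (del0 d) ^ (((k : ℝ) + 1) / 9 ^ d) ≤ (1 / 2 : ℝ) ^ k := by
  have hB : (0 : ℝ) < 2 * (3 : ℝ) ^ d := by positivity
  have h1 : (1 : ℝ) ≤ 3 ^ d := one_le_pow₀ (by norm_num)
  have hdel : (del0 d) ^ (((k : ℝ) + 1) / 9 ^ d) = 1 / (2 * (3 : ℝ) ^ d) ^ (k + 1) := by
    unfold del0
    rw [Real.div_rpow (by norm_num) (by positivity), Real.one_rpow]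
    congr 1
    rw [← Real.rpow_natCast (2 * (3 : ℝ) ^ d) (9 ^ d), ← Real.rpow_mul hB.le,
      ← Real.rpow_natCast (2 * (3 : ℝ) ^ d) (k + 1)]
    congr 1
    push_cast
    field_simp
  rw [hdel, pow_succ, mul_pow, one_div_pow]
  rw [mul_one_div, div_le_div_iff₀ (by positivity) (by positivity)]
  have h2 : (0 : ℝ) < (3 ^ d) ^ k * 2 ^ k := by positivity
  nlinarith

theorem H_Crit_sub (d : ℕ) (hd : 2 ≤ d) (b m : ℕ) (hb : 1 ≤ b) (hm : 64 * b ≤ m) :
    {ω : Om d | ¬ LG 4 ω m 0} ⊆ {ω : Om d | ∃ u v, u ∈ Bx (20 * m) (0 : V d) ∧ ¬ GoodB b ω u ∧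
        SJoin {z : V d | z ∈ Bx (20 * m) (0 : V d) ∧ ¬ GoodB b ω z} u v ∧
          v ∉ Bx (m / (16 * b)) u} := by
  intro ω hω
  by_contra hcon
  apply hω
  refine LG_of_small hd b m hb hm ω ?_
  intro u v hu hbad hj
  by_contra hv
  exact hcon ⟨u, v, hu, hbad, hj, hv⟩

theorem hypH_of_crit (d : ℕ) (hd : 2 ≤ d) (p : unitInterval) (b : ℕ) (hb : 1 ≤ b)
    (h : (Pr d p).real {ω : Om d | ¬ GoodB b ω 0} ≤ del0 d) :
    ∃ C c : ℝ, HypH d p 4 C c := by
  have hb0 : (0 : ℝ) < b := by exact_mod_cast hb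
  have hd0 : (0 : ℝ) < d := by
    have : 0 < d := by omega
    exact_mod_cast this
  have hl2 : 0 < Real.log 2 := Real.log_pos (by norm_num)
  set κ : ℝ := Real.log 2 / (16 * b) with hκ
  have hκ0 : 0 < κ := by positivity
  set a : ℝ := κ / (2 * d) with ha
  have ha0 : 0 < a := by positivity
  set A : ℝ := max 1 (40 / a) with hA
  have hA1 : 1 ≤ A := le_max_left _ _
  have hA2 : 40 ≤ A * a := by
    have := le_max_right 1 (40 / a)
    rw [← hA, div_le_iff₀ ha0] at this
    exact this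
  refine ⟨2 * A ^ d + Real.exp (32 * b * κ), κ / 2, ⟨by norm_num, by positivity, by positivity, ?_⟩⟩
  intro m
  have hexp0 : 0 < Real.exp (-(κ / 2) * m) := Real.exp_pos _
  rcases le_or_gt (64 * b) m with hm | hm
  · have hprob : (Pr d p).real {ω : Om d | ¬ LG 4 ω m 0} ≤
        (2 * (20 * m : ℕ) + 1) ^ d * (3 ^ d) ^ (m / (16 * b)) *
          (del0 d) ^ ((((m / (16 * b) : ℕ) : ℝ) + 1) / 9 ^ d) :=
      (measureReal_mono (H_Crit_sub d hd b m hb hm) (measure_ne_top _ _)).trans
        (cluster_prob b hb (del0 d) (H_Crit_del0_pos d) (H_Crit_del0_le d) h (20 * m)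
          (m / (16 * b)))
    have h1 := H_Crit_pow d (m / (16 * b))
    have hpoly : ((2 * (20 * m : ℕ) + 1 : ℝ)) ^ d ≤ A ^ d * Real.exp (κ / 2 * m) := by
      have h2 : ((2 * (20 * m : ℕ) + 1 : ℝ)) ≤ A * Real.exp (a * m) := by
        have h3 : a * m + 1 ≤ Real.exp (a * m) := Real.add_one_le_exp _
        have hm0 : (0 : ℝ) ≤ m := Nat.cast_nonneg m
        push_cast
        calc (2 * (20 * (m : ℝ)) + 1) = 40 * m + 1 := by ring
          _ ≤ (A * a) * m + A := by
              have := mul_le_mul_of_nonneg_right hA2 hm0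
              linarith
          _ = A * (a * m + 1) := by ring
          _ ≤ A * Real.exp (a * m) := mul_le_mul_of_nonneg_left h3 (by linarith)
      calc ((2 * (20 * m : ℕ) + 1 : ℝ)) ^ d ≤ (A * Real.exp (a * m)) ^ d :=
            pow_le_pow_left₀ (by positivity) h2 d
        _ = A ^ d * Real.exp (κ / 2 * m) := by
            rw [mul_pow, ← Real.exp_nat_mul]
            congr 2
            rw [ha]
            field_simp
    have hhalf : (1 / 2 : ℝ) ^ (m / (16 * b)) ≤ 2 * Real.exp (-κ * m) := by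
      have h4 : (m : ℝ) / (16 * b) ≤ ((m / (16 * b) : ℕ) : ℝ) + 1 := by
        have h5 : m < (m / (16 * b) + 1) * (16 * b) := by
          have := Nat.lt_div_mul_add (a := m) (b := 16 * b) (by omega)
          calc m < m / (16 * b) * (16 * b) + 16 * b := this
            _ = (m / (16 * b) + 1) * (16 * b) := by ring
        have h6 : (m : ℝ) < (((m / (16 * b) : ℕ) : ℝ) + 1) * (16 * b) := by
          have := (Nat.cast_lt (α := ℝ)).2 h5
          push_cast at this
          exact this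
        rw [div_le_iff₀ (by positivity)]
        exact h6.le
      have h7 : (1 / 2 : ℝ) ^ (m / (16 * b))
          = Real.exp (-(Real.log 2 * ((m / (16 * b) : ℕ) : ℝ))) := by
        rw [one_div_pow, one_div, ← Real.exp_log (show (0 : ℝ) < 2 by norm_num),
          ← Real.exp_nat_mul, ← Real.exp_neg, Real.exp_log (show (0 : ℝ) < 2 by norm_num)]
        congr 1
        ring
      have h8 : (2 : ℝ) = Real.exp (Real.log 2) := (Real.exp_log (by norm_num)).symm
      rw [h7]
      calc Real.exp (-(Real.log 2 * ((m / (16 * b) : ℕ) : ℝ)))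
          ≤ Real.exp (Real.log 2 + -κ * m) := by
            apply Real.exp_le_exp.2
            have h9 : κ * m = Real.log 2 * ((m : ℝ) / (16 * b)) := by
              rw [hκ]; ring
            have := mul_le_mul_of_nonneg_left h4 hl2.le
            linarith
        _ = 2 * Real.exp (-κ * m) := by rw [Real.exp_add, Real.exp_log (by norm_num)]
    have hnn : (0 : ℝ) ≤ (2 * (20 * m : ℕ) + 1) ^ d := by positivity
    calc (Pr d p).real {ω : Om d | ¬ LG 4 ω m 0}
        ≤ (2 * (20 * m : ℕ) + 1) ^ d * (3 ^ d) ^ (m / (16 * b)) *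
          (del0 d) ^ ((((m / (16 * b) : ℕ) : ℝ) + 1) / 9 ^ d) := hprob
      _ = (2 * (20 * m : ℕ) + 1) ^ d * ((3 ^ d) ^ (m / (16 * b)) *
          (del0 d) ^ ((((m / (16 * b) : ℕ) : ℝ) + 1) / 9 ^ d)) := by ring
      _ ≤ (2 * (20 * m : ℕ) + 1) ^ d * (1 / 2 : ℝ) ^ (m / (16 * b)) :=
          mul_le_mul_of_nonneg_left h1 hnn
      _ ≤ (A ^ d * Real.exp (κ / 2 * m)) * (2 * Real.exp (-κ * m)) :=
          mul_le_mul hpoly hhalf (by positivity) (by positivity)
      _ = 2 * A ^ d * Real.exp (-(κ / 2) * m) := by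
          have : Real.exp (κ / 2 * m) * Real.exp (-κ * m) = Real.exp (-(κ / 2) * m) := by
            rw [← Real.exp_add]; congr 1; ring
          rw [← this]; ring
      _ ≤ (2 * A ^ d + Real.exp (32 * b * κ)) * Real.exp (-(κ / 2) * m) :=
          mul_le_mul_of_nonneg_right (by linarith [Real.exp_pos (32 * b * κ)]) hexp0.le
  · have hm' : (m : ℝ) ≤ 64 * b := by exact_mod_cast hm.le
    calc (Pr d p).real {ω : Om d | ¬ LG 4 ω m 0} ≤ 1 := measureReal_le_one
      _ ≤ Real.exp (32 * b * κ) * Real.exp (-(κ / 2) * m) := by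
          rw [← Real.exp_add]
          apply Real.one_le_exp
          nlinarith
      _ ≤ (2 * A ^ d + Real.exp (32 * b * κ)) * Real.exp (-(κ / 2) * m) :=
          mul_le_mul_of_nonneg_right (by
            have : (0 : ℝ) ≤ 2 * A ^ d := by positivity
            linarith) hexp0.le

theorem H_Crit_join (d : ℕ) (ω : Om d) (h : ∀ e ∈ EB 4 (0 : V d), ω e = true) (r : ℕ)
    (hr : r ≤ 4) (x y : V d) (hx : x ∈ Bx r (0 : V d)) (hy : y ∈ Bx r (0 : V d)) :
    JoinIn ω (Bx r (0 : V d) : Set (V d)) x y := by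
  have h1 := box_connected r 0 x y hx hy
  clear hx hy
  unfold NJoin at h1
  unfold JoinIn
  induction h1 with
  | refl => exact Relation.ReflTransGen.refl
  | tail _ hstep ih =>
    obtain ⟨ha, hc, δ, rfl⟩ := hstep
    exact ih.tail ⟨ha, hc, δ, h _ (EB_mono hr 0 (ed_mem_EB.2 ⟨ha, hc⟩)), rfl⟩

theorem H_Crit_good (d : ℕ) (hd : 1 ≤ d) (ω : Om d) (h : ∀ e ∈ EB 4 (0 : V d), ω e = true) :
    GoodB 1 ω 0 := by
  unfold GoodB
  simp only [smul_zero]
  refine ⟨⟨0, self_mem_Bx _ _, ?_⟩, ?_⟩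
  · have hy : (fun i : Fin d => if i = ⟨0, hd⟩ then (4 : ℤ) else 0) ∈ Bx (4 * 1) (0 : V d) := by
      rw [mem_Bx]
      intro i
      simp only [Pi.zero_apply, sub_zero]
      split_ifs <;> simp
    refine ⟨_, ⟨hy, ⟨0, hd⟩, ?_⟩, H_Crit_join d ω h (4 * 1) (by norm_num) 0 _
      (self_mem_Bx _ _) hy⟩
    simp
  · intro x hx y hy _ _
    exact H_Crit_join d ω h (3 * 1) (by norm_num) x y (Bx_mono (by norm_num) 0 hx)
      (Bx_mono (by norm_num) 0 hy)

theorem H_Crit_edge (d : ℕ) (p : unitInterval) (e : Ed d) :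
    (Pr d p).real {ω : Om d | ω e = false} = 1 - p := by
  have h1 : {ω : Om d | ω e = false} = (Function.eval e : Om d → Bool) ⁻¹' ({false} : Set Bool) := by
    ext ω
    simp [Function.eval]
  rw [h1]
  have h2 := (measurePreserving_eval_infinitePi
    (fun _ : Ed d => bernoulliMeasure true false p) e).measureReal_preimage
    (s := {false}) (measurableSet_singleton _).nullMeasurableSet
  unfold Pr
  rw [h2]
  exact bernoulliMeasure_real_apply_of_notMem_of_mem p (measurableSet_singleton _)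
    (by simp) (by simp)

theorem near_one (d : ℕ) (hd : 1 ≤ d) (p : unitInterval)
    (hp : (1 : ℝ) - del0 d / (d * 9 ^ d) ≤ p) :
    (Pr d p).real {ω : Om d | ¬ GoodB 1 ω 0} ≤ del0 d := by
  have hd0 : (0 : ℝ) < d := by exact_mod_cast hd
  have hsub : {ω : Om d | ¬ GoodB 1 ω 0} ⊆ ⋃ e ∈ EB 4 (0 : V d), {ω : Om d | ω e = false} := by
    intro ω hω
    by_contra hcon
    apply hω
    refine H_Crit_good d hd ω ?_
    intro e he
    by_contra hne
    apply hcon
    simp only [Set.mem_iUnion]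
    exact ⟨e, he, by simpa using hne⟩
  refine (measureReal_mono hsub (measure_ne_top _ _)).trans ?_
  refine (measureReal_biUnion_finset_le _ _).trans ?_
  simp only [H_Crit_edge]
  rw [Finset.sum_const, nsmul_eq_mul]
  have h1 := card_EB_le 4 (0 : V d)
  have h2 : (0 : ℝ) ≤ 1 - p := by
    have := p.2.2
    linarith
  have h3 : (1 : ℝ) - p ≤ del0 d / (d * 9 ^ d) := by linarith
  calc ((EB 4 (0 : V d)).card : ℝ) * (1 - p) ≤ (d * (2 * (4 : ℕ) + 1) ^ d) * (1 - p) :=
        mul_le_mul_of_nonneg_right h1 h2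
    _ ≤ (d * (2 * (4 : ℕ) + 1) ^ d) * (del0 d / (d * 9 ^ d)) :=
        mul_le_mul_of_nonneg_left h3 (by positivity)
    _ = del0 d := by
        norm_num
        field_simp

end Ein99
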