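import Pool.Agent.LibEin99.Defs4
import Pool.Agent.LibEin99.A_Box

/-!
TASK H_Outside. Boxes and complements of boxes are connected by nearest neighbour paths.

`box_connected`: change the coordinates one after the other (the box is a product of intervals).
`outside_connected` (`d ≥ 2`): from `x ∉ Bx k c` some coordinate `i` has `|x i - c i| > k`. Keeping it
fixed, move all other coordinates to `c j + k + 1`; then (as `d ≥ 2` there is `j ≠ i` with
`|x j - c j| > k`) move coordinate `i` to `c i + k + 1`. So every `x` outside is joined to the corner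
`c + (k+1,...,k+1)`.
`NJoin_symm`, `NJoin_mono` etc.
-/

namespace Ein99

variable {d : ℕ}

theorem NJoin_symm {S : Set (V d)} {x y : V d} (h : NJoin S x y) : NJoin S y x := by
  induction h with
  | refl => exact Relation.ReflTransGen.refl
  | tail _ hbc ih =>
    obtain ⟨ha, hb, δ, rfl⟩ := hbc
    refine Relation.ReflTransGen.head ⟨hb, ha, rv δ, ?_⟩ ih
    rw [st_rv, add_neg_cancel_right]

theorem SJoin_symm {S : Set (V d)} {x y : V d} (h : SJoin S x y) : SJoin S y x := by
  induction h with
  | refl => exact Relation.ReflTransGen.refl
  | tail _ hbc ih =>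
    obtain ⟨ha, hb, h⟩ := hbc
    exact Relation.ReflTransGen.head ⟨hb, ha, Bx_comm.1 h⟩ ih

theorem NJoin_mono {S T : Set (V d)} (hST : S ⊆ T) {x y : V d} (h : NJoin S x y) :
    NJoin T x y := by
  induction h with
  | refl => exact Relation.ReflTransGen.refl
  | tail _ hbc ih =>
    obtain ⟨ha, hb, hd⟩ := hbc
    exact ih.tail ⟨hST ha, hST hb, hd⟩

theorem H_Outside_up {S : Set (V d)} (x : V d) (i : Fin d) (n : ℕ)
    (h : ∀ m : ℕ, m ≤ n → Function.update x i (x i + m) ∈ S) :
    NJoin S x (Function.update x i (x i + n)) := by
  induction n with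
  | zero =>
    rw [Nat.cast_zero, add_zero, Function.update_eq_self]
    exact Relation.ReflTransGen.refl
  | succ n ih =>
    refine (ih fun m hm => h m (hm.trans n.le_succ)).tail
      ⟨h n n.le_succ, h (n + 1) le_rfl, (i, true), ?_⟩
    funext j
    by_cases hj : j = i
    · subst hj
      simp [st]
      ring
    · simp [st, Function.update_of_ne hj, Pi.single_eq_of_ne hj]

theorem H_Outside_down {S : Set (V d)} (x : V d) (i : Fin d) (n : ℕ)
    (h : ∀ m : ℕ, m ≤ n → Function.update x i (x i - m) ∈ S) :
    NJoin S x (Function.update x i (x i - n)) := by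
  induction n with
  | zero =>
    rw [Nat.cast_zero, sub_zero, Function.update_eq_self]
    exact Relation.ReflTransGen.refl
  | succ n ih =>
    refine (ih fun m hm => h m (hm.trans n.le_succ)).tail
      ⟨h n n.le_succ, h (n + 1) le_rfl, (i, false), ?_⟩
    funext j
    by_cases hj : j = i
    · subst hj
      simp [st]
      ring
    · simp [st, Function.update_of_ne hj, Pi.single_eq_of_ne hj]

theorem H_Outside_line {S : Set (V d)} (x : V d) (i : Fin d) (t : ℤ)
    (h : ∀ s : ℤ, min (x i) t ≤ s → s ≤ max (x i) t → Function.update x i s ∈ S) :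
    NJoin S x (Function.update x i t) := by
  rcases le_total (x i) t with hle | hle
  · obtain ⟨n, hn⟩ := Int.eq_ofNat_of_zero_le (sub_nonneg.2 hle)
    have ht : t = x i + n := by omega
    subst ht
    refine H_Outside_up x i n fun m hm => h _ ?_ ?_
    · rw [min_eq_left hle]
      omega
    · rw [max_eq_right hle]
      omega
  · obtain ⟨n, hn⟩ := Int.eq_ofNat_of_zero_le (sub_nonneg.2 hle)
    have ht : t = x i - n := by omega
    subst ht
    refine H_Outside_down x i n fun m hm => h _ ?_ ?_
    · rw [min_eq_right hle]
      omega
    · rw [max_eq_left hle]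
      omega

/-- change the coordinates in `s` one after the other -/
theorem H_Outside_multi {S : Set (V d)} (x t : V d) (s : Finset (Fin d))
    (h : ∀ w : V d, (∀ j, j ∉ s → w j = x j) →
      (∀ j ∈ s, min (x j) (t j) ≤ w j ∧ w j ≤ max (x j) (t j)) → w ∈ S) :
    NJoin S x (fun j => if j ∈ s then t j else x j) := by
  classical
  induction s using Finset.induction_on with
  | empty =>
    simp only [Finset.notMem_empty, if_false]
    exact Relation.ReflTransGen.refl
  | insert i s hi ih =>
    have h1 : NJoin S x (fun j => if j ∈ s then t j else x j) := by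
      refine ih fun w h1 h2 => h w (fun j hj => h1 j fun hjs => hj (Finset.mem_insert_of_mem hjs)) ?_
      intro j hj
      rcases Finset.mem_insert.1 hj with rfl | hj
      · rw [h1 j hi]
        exact ⟨min_le_left _ _, le_max_left _ _⟩
      · exact h2 j hj
    have h2 : NJoin S (fun j => if j ∈ s then t j else x j)
        (Function.update (fun j => if j ∈ s then t j else x j) i (t i)) := by
      refine H_Outside_line _ i (t i) fun r hr1 hr2 => h _ ?_ ?_
      · intro j hj
        rw [Finset.mem_insert, not_or] at hj
        rw [Function.update_of_ne hj.1, if_neg hj.2]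
      · intro j hj
        by_cases hji : j = i
        · subst hji
          rw [Function.update_self]
          simp only [hi, if_false] at hr1 hr2
          exact ⟨hr1, hr2⟩
        · rw [Function.update_of_ne hji]
          rcases Finset.mem_insert.1 hj with rfl | hj
          · exact absurd rfl hji
          · rw [if_pos hj]
            exact ⟨min_le_right _ _, le_max_right _ _⟩
    have h3 : (fun j => if j ∈ insert i s then t j else x j) =
        Function.update (fun j => if j ∈ s then t j else x j) i (t i) := by
      funext j
      by_cases hji : j = i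
      · subst hji
        simp
      · rw [Function.update_of_ne hji]
        simp [Finset.mem_insert, hji]
    rw [h3]
    exact h1.trans h2

theorem box_connected (r : ℕ) (c x y : V d) (hx : x ∈ Bx r c) (hy : y ∈ Bx r c) :
    NJoin (Bx r c : Set (V d)) x y := by
  rw [mem_Bx] at hx hy
  have h := H_Outside_multi (S := (Bx r c : Set (V d))) x y Finset.univ ?_
  · simpa using h
  · intro w _ hw
    rw [Finset.mem_coe, mem_Bx]
    intro j
    have h1 := hw j (Finset.mem_univ j)
    have h2 := abs_le.1 (hx j)
    have h3 := abs_le.1 (hy j)
    rw [abs_le]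
    rcases le_total (x j) (y j) with h | h
    · rw [min_eq_left h, max_eq_right h] at h1
      constructor <;> omega
    · rw [min_eq_right h, max_eq_left h] at h1
      constructor <;> omega

theorem H_Outside_corner (hd : 2 ≤ d) (k : ℕ) (c x : V d) (hx : x ∉ Bx k c) :
    NJoin ((Bx k c : Set (V d))ᶜ) x (fun j => c j + k + 1) := by
  classical
  rw [mem_Bx] at hx
  push Not at hx
  obtain ⟨i, hi⟩ := hx
  have h1 := H_Outside_multi (S := ((Bx k c : Set (V d))ᶜ)) x (fun j => c j + k + 1)
    (Finset.univ.erase i) ?_
  · refine h1.trans ?_
    have h2 := H_Outside_line (S := ((Bx k c : Set (V d))ᶜ))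
      (fun j => if j ∈ Finset.univ.erase i then c j + k + 1 else x j) i (c i + k + 1) ?_
    · have h3 : Function.update
          (fun j => if j ∈ Finset.univ.erase i then c j + k + 1 else x j) i (c i + k + 1) =
          fun j => c j + k + 1 := by
        funext j
        by_cases hji : j = i
        · subst hji
          simp
        · rw [Function.update_of_ne hji]
          simp [hji]
      rw [h3] at h2
      exact h2
    · intro r _ _
      rw [Set.mem_compl_iff, Finset.mem_coe, mem_Bx]
      push Not
      obtain ⟨j, hj⟩ : ∃ j : Fin d, j ≠ i := by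
        by_contra hcon
        push Not at hcon
        have h0 := hcon ⟨0, by omega⟩
        have h1 := hcon ⟨1, by omega⟩
        rw [← h1] at h0
        simp [Fin.ext_iff] at h0
      refine ⟨j, ?_⟩
      rw [Function.update_of_ne hj]
      simp only [Finset.mem_erase, hj, ne_eq, not_false_eq_true, Finset.mem_univ, and_self, if_true]
      have : c j + (k : ℤ) + 1 - c j = k + 1 := by ring
      rw [this, abs_of_nonneg (by positivity)]
      omega
  · intro w hw _
    rw [Set.mem_compl_iff, Finset.mem_coe, mem_Bx]
    push Not
    refine ⟨i, ?_⟩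
    rw [hw i (by simp)]
    exact hi

theorem outside_connected (hd : 2 ≤ d) (k : ℕ) (c x y : V d) (hx : x ∉ Bx k c) (hy : y ∉ Bx k c) :
    NJoin ((Bx k c : Set (V d))ᶜ) x y :=
  (H_Outside_corner hd k c x hx).trans (NJoin_symm (H_Outside_corner hd k c y hy))

/-- The coordinatewise path between two `*`-adjacent vertices stays at sup-distance at most one from
both. -/
theorem cube_path (u v : V d) (h : v ∈ Bx 1 u) :
    NJoin {w : V d | w ∈ Bx 1 u ∧ w ∈ Bx 1 v} u v := by
  rw [mem_Bx] at h
  have h1 := H_Outside_multi (S := {w : V d | w ∈ Bx 1 u ∧ w ∈ Bx 1 v}) u v Finset.univ ?_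
  · simpa using h1
  · intro w _ hw
    change w ∈ Bx 1 u ∧ w ∈ Bx 1 v
    rw [mem_Bx, mem_Bx]
    refine ⟨fun j => ?_, fun j => ?_⟩ <;>
    · have h1 := hw j (Finset.mem_univ j)
      have h2 := abs_le.1 (h j)
      rw [abs_le]
      push_cast at h2 ⊢
      rcases le_total (u j) (v j) with h | h
      · rw [min_eq_left h, max_eq_right h] at h1
        constructor <;> omega
      · rw [min_eq_right h, max_eq_left h] at h1
        constructor <;> omega

end Ein99
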