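import Pool.Agent.LibEin99.H_Top
import Pool.Agent.LibEin99.H_Outside

/-!
TASK H_Detour. Detours around bad clusters.

Induction on the length of the nearest neighbour path `γ` from `x` to `y` in `R` (for all `x`). If all
its vertices are outside `B`: done. Otherwise let `u` be its first vertex in `B`, `D = cl B u`, `a` the
vertex before `u` (`x ∉ B`), `v` the last vertex of `γ` in `D`, `b` the vertex after `v` (`y ∉ B`).
The part from `x` to `a` avoids `B`; the part from `b` to `y` avoids `D`; so with the hypothesis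
`NJoin Dᶜ x y` we get `NJoin Dᶜ a b`, and `top_lemma` gives `NJoin (bdS D) a b`. `bdS D ∩ B = ∅`
because `D` is a full `*`-cluster, and `D` is `*`-connected (`SJoin` symmetric). `b ∈ bdS D`, so
`b ∉ B`; `NJoin Bᶜ x b`, so for each cluster `D'`, `NJoin D'ᶜ x b`, hence `NJoin D'ᶜ b y`; apply the
induction hypothesis to the part from `b` to `y`.
-/

namespace Ein99

variable {d : ℕ}

private theorem hd_path {S : Set (V d)} {x y : V d} (h : NJoin S x y) :
    ∃ (n : ℕ) (γ : ℕ → V d), γ 0 = x ∧ γ n = y ∧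
      ∀ i < n, γ i ∈ S ∧ γ (i + 1) ∈ S ∧ ∃ δ : Dir d, γ (i + 1) = γ i + st δ := by
  unfold NJoin at h
  induction h with
  | refl => exact ⟨0, fun _ => x, rfl, rfl, fun i hi => absurd hi (Nat.not_lt_zero i)⟩
  | @tail v w _ hvw ih =>
    obtain ⟨n, γ, h0, hn, hs⟩ := ih
    refine ⟨n + 1, fun i => if i ≤ n then γ i else w, ?_, ?_, ?_⟩
    · simp [h0]
    · simp
    · intro i hi
      rcases Nat.lt_or_ge i n with h1 | h1
      · have h2 : i ≤ n := h1.le
        have h3 : i + 1 ≤ n := h1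
        simp only [h2, h3, if_true]
        exact hs i h1
      · have h2 : i = n := by omega
        subst h2
        simp only [le_refl, if_true, Nat.not_succ_le_self, if_false, hn]
        exact hvw

private theorem hd_sub {S : Set (V d)} (γ : ℕ → V d) {i j : ℕ} (hij : i ≤ j)
    (h : ∀ k, i ≤ k → k < j → γ k ∈ S ∧ γ (k + 1) ∈ S ∧ ∃ δ : Dir d, γ (k + 1) = γ k + st δ) :
    NJoin S (γ i) (γ j) := by
  induction j, hij using Nat.le_induction with
  | base => exact Relation.ReflTransGen.refl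
  | succ j hj ih =>
    refine Relation.ReflTransGen.tail (ih fun k h1 h2 => h k h1 (h2.trans (Nat.lt_succ_self j))) ?_
    exact h j hj (Nat.lt_succ_self j)

private theorem hd_clB {B : Set (V d)} {u v : V d} (hu : u ∈ B) (hv : v ∈ cl B u) : v ∈ B := by
  have hv' : SJoin B u v := hv
  unfold SJoin at hv'
  rcases Relation.ReflTransGen.cases_tail hv' with h | ⟨w, -, h⟩
  · rw [h]; exact hu
  · exact h.2.1

private theorem hd_clconn {B : Set (V d)} {u v : V d} (h : SJoin B u v) : SJoin (cl B u) u v := by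
  unfold SJoin at h
  induction h with
  | refl => exact Relation.ReflTransGen.refl
  | @tail v w hv hvw ih =>
    refine Relation.ReflTransGen.tail ih ⟨hv, ?_, hvw.2.2⟩
    exact Relation.ReflTransGen.tail hv hvw

private theorem hd_bd {B : Set (V d)} {u z : V d} (hu : u ∈ B) (hz : z ∈ bdS (cl B u)) : z ∉ B := by
  intro hzB
  obtain ⟨h1, y, hy, hyz⟩ := hz
  apply h1
  exact Relation.ReflTransGen.tail hy ⟨hd_clB hu hy, hzB, Bx_comm.1 hyz⟩

private theorem hd_ind (B R : Set (V d)) (y : V d) (hy : y ∉ B) (n : ℕ) : ∀ (x : V d) (γ : ℕ → V d)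
    (_ : γ 0 = x) (_ : γ n = y)
    (_ : ∀ i < n, γ i ∈ R ∧ γ (i + 1) ∈ R ∧ ∃ δ : Dir d, γ (i + 1) = γ i + st δ)
    (_ : x ∉ B) (_ : ∀ u ∈ B, NJoin (cl B u)ᶜ x y),
    NJoin (Bᶜ ∩ (R ∪ {z | ∃ u ∈ R ∩ B, ∃ v ∈ cl B u, v ∈ Bx 1 z})) x y := by
  classical
  induction n using Nat.strong_induction_on with
  | _ n ih =>
    intro x γ h0 hn hs hx h
    set T : Set (V d) := Bᶜ ∩ (R ∪ {z | ∃ u ∈ R ∩ B, ∃ v ∈ cl B u, v ∈ Bx 1 z}) with hT
    by_cases hall : ∃ i, i ≤ n ∧ γ i ∈ B
    · set i₀ := Nat.find hall with hi₀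
      obtain ⟨hi₀n, hi₀B⟩ : i₀ ≤ n ∧ γ i₀ ∈ B := Nat.find_spec hall
      have hmin : ∀ k, k < i₀ → γ k ∉ B := by
        intro k hk hkB
        exact Nat.find_min hall hk ⟨hk.le.trans hi₀n, hkB⟩
      have hi₀0 : 0 < i₀ := by
        rcases Nat.eq_zero_or_pos i₀ with h1 | h1
        · rw [h1, h0] at hi₀B
          exact absurd hi₀B hx
        · exact h1
      have hi₀lt : i₀ < n := by
        rcases Nat.lt_or_ge i₀ n with h1 | h1
        · exact h1
        · have : i₀ = n := le_antisymm hi₀n h1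
          rw [this, hn] at hi₀B
          exact absurd hi₀B hy
      set u := γ i₀ with hu
      set D := cl B u with hD
      have huD : u ∈ D := Relation.ReflTransGen.refl
      have hDB : ∀ v ∈ D, v ∈ B := fun v hv => hd_clB hi₀B hv
      set j := Nat.findGreatest (fun i => γ i ∈ D) n with hj
      have hjD : γ j ∈ D := Nat.findGreatest_spec (P := fun i => γ i ∈ D) hi₀n huD
      have hij : i₀ ≤ j := Nat.le_findGreatest hi₀n huD
      have hjn : j ≤ n := Nat.findGreatest_le n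
      have hjlt : j < n := by
        rcases Nat.lt_or_ge j n with h1 | h1
        · exact h1
        · have : j = n := le_antisymm hjn h1
          rw [this, hn] at hjD
          exact absurd (hDB _ hjD) hy
      have hmax : ∀ k, j < k → k ≤ n → γ k ∉ D := fun k h1 h2 =>
        Nat.findGreatest_is_greatest (P := fun i => γ i ∈ D) h1 h2
      obtain ⟨m, hm⟩ : ∃ m, i₀ = m + 1 := ⟨i₀ - 1, by omega⟩
      have haB : γ m ∉ B := hmin m (by omega)
      have hxa : NJoin (Bᶜ ∩ R) x (γ m) := by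
        rw [← h0]
        refine hd_sub γ (Nat.zero_le m) fun k _ hk => ?_
        obtain ⟨h1, h2, h3⟩ := hs k (by omega)
        exact ⟨⟨hmin k (by omega), h1⟩, ⟨hmin (k + 1) (by omega), h2⟩, h3⟩
      have hby : NJoin Dᶜ (γ (j + 1)) (γ n) := by
        refine hd_sub γ hjlt fun k hk1 hk2 => ?_
        obtain ⟨h1, h2, h3⟩ := hs k hk2
        exact ⟨hmax k (by omega) (by omega), hmax (k + 1) (by omega) (by omega), h3⟩
      rw [hn] at hby
      have hxaD : NJoin Dᶜ x (γ m) :=
        NJoin_mono (fun v hv hvD => hv.1 (hDB v hvD)) hxa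
      have hab : NJoin Dᶜ (γ m) (γ (j + 1)) :=
        ((NJoin_symm hxaD).trans (h u hi₀B)).trans (NJoin_symm hby)
      obtain ⟨δ, hδ⟩ := (hs m (by omega)).2.2
      obtain ⟨η, hη⟩ := (hs j hjlt).2.2
      have hbv : γ (j + 1) + st (rv η) = γ j := by
        rw [hη, st_rv]
        abel
      have hbD : γ (j + 1) ∉ D := hmax _ (Nat.lt_succ_self j) hjlt
      have hDD : ∀ a ∈ D, ∀ b ∈ D, SJoin D a b := by
        intro a ha b hb
        have h1 : SJoin D u a := hd_clconn ha
        have h2 : SJoin D u b := hd_clconn hb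
        exact (SJoin_symm h1).trans h2
      have htop := top_lemma D hDD (γ m) (γ (j + 1)) (fun h1 => haB (hDB _ h1)) hbD
        ⟨δ, by rw [← hδ, ← hm]; exact huD⟩ ⟨rv η, by rw [hbv]; exact hjD⟩ hab
      have hbdT : bdS D ⊆ T := by
        intro z hz
        refine ⟨hd_bd hi₀B hz, Or.inr ⟨u, ⟨?_, hi₀B⟩, ?_⟩⟩
        · exact (hs i₀ hi₀lt).1
        · obtain ⟨-, y', hy', hyz⟩ := hz
          exact ⟨y', hy', hyz⟩
      have hbbd : γ (j + 1) ∈ bdS D := by
        refine ⟨hbD, γ j, hjD, ?_⟩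
        rw [← hbv]
        exact add_st_mem_Bx _ _
      have hbB : γ (j + 1) ∉ B := hd_bd hi₀B hbbd
      have hxb : NJoin T x (γ (j + 1)) :=
        (NJoin_mono (show Bᶜ ∩ R ⊆ T from fun v hv => ⟨hv.1, Or.inl hv.2⟩) hxa).trans
          (NJoin_mono hbdT htop)
      refine hxb.trans ?_
      refine ih (n - (j + 1)) (by omega) (γ (j + 1)) (fun i => γ (j + 1 + i)) rfl ?_ ?_ hbB ?_
      · change γ (j + 1 + (n - (j + 1))) = y
        rw [← hn]
        congr 1
        omega
      · intro i hi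
        exact hs (j + 1 + i) (by omega)
      · intro u' hu'
        have h1 : NJoin (cl B u')ᶜ x (γ (j + 1)) :=
          NJoin_mono (fun v hv hvD => hv.1 (hd_clB hu' hvD)) hxb
        exact (NJoin_symm h1).trans (h u' hu')
    · push Not at hall
      rw [← h0, ← hn]
      refine hd_sub γ (Nat.zero_le n) fun k _ hk => ?_
      obtain ⟨h1, h2, h3⟩ := hs k hk
      exact ⟨⟨hall k hk.le, Or.inl h1⟩, ⟨hall (k + 1) hk, Or.inl h2⟩, h3⟩

theorem detour (B R : Set (V d)) (x y : V d) (hx : x ∉ B) (hy : y ∉ B) (hxy : NJoin R x y)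
    (h : ∀ u ∈ B, NJoin (cl B u)ᶜ x y) :
    NJoin (Bᶜ ∩ (R ∪ {z | ∃ u ∈ R ∩ B, ∃ v ∈ cl B u, v ∈ Bx 1 z})) x y := by
  obtain ⟨n, γ, h0, hn, hs⟩ := hd_path hxy
  exact hd_ind B R y hy n x γ h0 hn hs hx h

end Ein99
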