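import Pool.Agent.LibEin99.H_Outside

/-!
TASK H_Free. A long path contains a vertex which is not enclosed by any cluster of `B`.

For a cluster `D = cl B u` (`u ∈ B`) say `z` is enclosed by `D` if `¬ NJoin Dᶜ z w0`.
(1) If `z ∉ Bx k u` then `NJoin (cl B u)ᶜ z w0`: `cl B u ⊆ Bx k u` and `outside_connected`.
    So if `z0` and `z` are enclosed by the same cluster then `z ∈ Bx (2k) z0`.
(2) Two different clusters `D ≠ D'` are disjoint and for `u, v ∈ D`: `NJoin D'ᶜ u v` (`cube_path`: the
    vertices of the cube path between `*`-adjacent `u, v ∈ D` are `*`-adjacent to `u ∈ B`, so cannot be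
    in another cluster).
(3) Let `z_0, ..., z_N` be the path in `S`, `z_N ∉ Bx (2k) z_0`. If `z_0` is free, done. Otherwise
    (if `z_0 ∈ B` it is enclosed by its own cluster) let `t` be maximal such that some cluster `D`
    encloses both `z_0` and `z_t`. `t < N` by (1). Put `z = z_{t+1}`: not enclosed by `D`. If
    `z_t ∉ D` then `z_t` and `z` are adjacent in `Dᶜ` (`z ∉ D` since `z` is not enclosed), so `z_t`
    would not be enclosed. So `z_t ∈ D`; `z ∉ B` (otherwise `z ∈ D`). Suppose `z` is enclosed by a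
    cluster `D'`; `D' ≠ D`, `z ∉ D'`, `z_t ∉ D'` are adjacent, so `z_t` is enclosed by `D'`. Claim:
    `z_0` is enclosed by `D'` (contradiction with the maximality of `t`): otherwise there is a path
    from `z_0` to `w0` in `D'ᶜ`; since `z_0` is enclosed by `D` this path meets `D` in a vertex `v`;
    then `NJoin D'ᶜ v w0`, and `NJoin D'ᶜ z_t v` by (2), so `z_t` is not enclosed by `D'`.
    Hence `z` is free.
It may be convenient to index the path by `ℕ` (a function `γ : ℕ → V d` with `γ 0 = z0`, `γ N = zN`).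
-/

namespace Ein99

variable {d : ℕ}

private theorem hf_path {S : Set (V d)} {x y : V d} (h : NJoin S x y) :
    ∃ (n : ℕ) (γ : ℕ → V d), γ 0 = x ∧ γ n = y ∧
      ∀ i < n, γ i ∈ S ∧ γ (i + 1) ∈ S ∧ ∃ δ : Dir d, γ (i + 1) = γ i + st δ := by
  unfold NJoin at h
  induction h with
  | refl => exact ⟨0, fun _ => x, rfl, rfl, fun i hi => absurd hi (Nat.not_lt_zero i)⟩
  | @tail v w _ hvw ih =>
    obtain ⟨n, γ, h0, hn, hs⟩ := ih
    refine ⟨n + 1, fun i => if i ≤ n then γ i else w, ?_, ?_, ?_⟩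
    · simp [h0]
    · simp
    · intro i hi
      rcases Nat.lt_or_ge i n with h1 | h1
      · have h2 : i ≤ n := h1.le
        have h3 : i + 1 ≤ n := h1
        simp only [h2, h3, if_true]
        exact hs i h1
      · have h2 : i = n := by omega
        subst h2
        simp only [le_refl, if_true, Nat.not_succ_le_self, if_false, hn]
        exact hvw

private theorem hf_clB {B : Set (V d)} {u v : V d} (hu : u ∈ B) (hv : v ∈ cl B u) : v ∈ B := by
  have hv' : SJoin B u v := hv
  unfold SJoin at hv'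
  rcases Relation.ReflTransGen.cases_tail hv' with h | ⟨w, -, h⟩
  · rw [h]; exact hu
  · exact h.2.1

private theorem hf_clconn {B : Set (V d)} {u v : V d} (h : SJoin B u v) : SJoin (cl B u) u v := by
  unfold SJoin at h
  induction h with
  | refl => exact Relation.ReflTransGen.refl
  | @tail v w hv hvw ih =>
    refine Relation.ReflTransGen.tail ih ⟨hv, ?_, hvw.2.2⟩
    exact Relation.ReflTransGen.tail hv hvw

private theorem hf_eq {B : Set (V d)} {u u' : V d} (h : u' ∈ cl B u) : cl B u' = cl B u := by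
  have h1 : SJoin B u u' := h
  ext v
  constructor
  · intro hv
    exact Relation.ReflTransGen.trans h1 hv
  · intro hv
    exact Relation.ReflTransGen.trans (SJoin_symm h1) hv

/-- a vertex in both clusters -/
private theorem hf_both {B : Set (V d)} {u u' v : V d} (h : v ∈ cl B u) (h' : v ∈ cl B u') :
    cl B u = cl B u' := by
  rw [← hf_eq h, ← hf_eq h']

/-- paths from `z` in the complement of a set containing `z` -/
private theorem hf_self {D : Set (V d)} {z w : V d} (hz : z ∈ D) (hw : w ∉ D) : ¬ NJoin Dᶜ z w := by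
  intro h
  unfold NJoin at h
  rcases Relation.ReflTransGen.cases_head h with h1 | ⟨c, h1, -⟩
  · rw [h1] at hz
    exact hw hz
  · exact h1.1 hz

private theorem hf_meet {S D : Set (V d)} {z w : V d} (h : NJoin S z w) :
    ¬ NJoin Dᶜ z w → ∃ v ∈ D, NJoin S v w := by
  unfold NJoin at h
  induction h using Relation.ReflTransGen.head_induction_on with
  | refl => exact fun h1 => absurd Relation.ReflTransGen.refl h1
  | @head a c hac hcw ih =>
    intro h1
    by_cases ha : a ∈ D
    · exact ⟨a, ha, Relation.ReflTransGen.head hac hcw⟩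
    · by_cases hc : c ∈ D
      · exact ⟨c, hc, hcw⟩
      · exact ih fun h2 => h1 (Relation.ReflTransGen.head ⟨ha, hc, hac.2.2⟩ h2)

private theorem hf_inner {B : Set (V d)} {u u' : V d} (hu : u ∈ B) (hne : cl B u ≠ cl B u')
    (hu' : u' ∈ B) {v w : V d} (hv : v ∈ cl B u) (hw : w ∈ cl B u) : NJoin (cl B u')ᶜ v w := by
  have h1 : SJoin (cl B u) v w :=
    (SJoin_symm (hf_clconn (show SJoin B u v from hv))).trans (hf_clconn (show SJoin B u w from hw))
  clear hw
  unfold SJoin at h1
  induction h1 with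
  | refl => exact Relation.ReflTransGen.refl
  | @tail a b _ hab ih =>
    refine Relation.ReflTransGen.trans ih ?_
    refine NJoin_mono ?_ (cube_path a b hab.2.2)
    intro c hc hcD
    have hcB : c ∈ B := hf_clB hu' hcD
    have haB : a ∈ B := hf_clB hu hab.1
    have hcu : c ∈ cl B u := Relation.ReflTransGen.tail (show SJoin B u a from hab.1)
      ⟨haB, hcB, hc.1⟩
    exact hne (hf_both hcu hcD)

theorem exists_free (hd : 2 ≤ d) (B : Set (V d)) (k : ℕ) (w0 : V d) (hB : Small B k w0)
    (S : Set (V d)) (z0 zN : V d) (hS : NJoin S z0 zN) (hz : z0 ∈ S) (hN : zN ∉ Bx (2 * k) z0) :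
    ∃ z ∈ S, Free B w0 z := by
  classical
  obtain ⟨N, γ, h0, hNz, hs⟩ := hf_path hS
  by_contra hcon
  push Not at hcon
  have hSγ : ∀ i, i ≤ N → γ i ∈ S := by
    intro i hi
    rcases Nat.eq_zero_or_pos i with rfl | h1
    · rw [h0]; exact hz
    · obtain ⟨j, rfl⟩ : ∃ j, i = j + 1 := ⟨i - 1, by omega⟩
      exact (hs j (by omega)).2.1
  have hcl : ∀ u ∈ B, ∀ v ∈ cl B u, v ∈ Bx k u := fun u hu v hv => hB.small u hu v hv
  have hw0 : ∀ u ∈ B, w0 ∉ cl B u := fun u hu h => hB.far u hu (hcl u hu _ h)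
  -- a vertex which is not free is enclosed
  have henc : ∀ z ∈ S, ∃ u ∈ B, ¬ NJoin (cl B u)ᶜ z w0 := by
    intro z hzS
    by_cases hzB : z ∈ B
    · exact ⟨z, hzB, hf_self (show z ∈ cl B z from Relation.ReflTransGen.refl) (hw0 z hzB)⟩
    · have h1 := hcon z hzS
      unfold Free at h1
      push Not at h1
      exact h1 hzB
  have hbox : ∀ u ∈ B, ∀ z, ¬ NJoin (cl B u)ᶜ z w0 → z ∈ Bx k u := by
    intro u hu z h1
    by_contra h2
    exact h1 (NJoin_mono (Set.compl_subset_compl.2 fun v hv => hcl u hu v hv)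
      (outside_connected hd k u z w0 h2 (hB.far u hu)))
  set P : ℕ → Prop := fun t => ∃ u ∈ B, ¬ NJoin (cl B u)ᶜ z0 w0 ∧ ¬ NJoin (cl B u)ᶜ (γ t) w0 with hP
  have hP0 : P 0 := by
    obtain ⟨u, hu, h1⟩ := henc z0 hz
    exact ⟨u, hu, h1, by rw [h0]; exact h1⟩
  set t := Nat.findGreatest P N with ht
  have hPt : P t := Nat.findGreatest_spec (P := P) (Nat.zero_le N) hP0
  have htN : t ≤ N := Nat.findGreatest_le N
  have htlt : t < N := by
    rcases Nat.lt_or_ge t N with h1 | h1
    · exact h1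
    · exfalso
      have h2 : t = N := le_antisymm htN h1
      rw [h2] at hPt
      obtain ⟨u, hu, h3, h4⟩ := hPt
      rw [hNz] at h4
      apply hN
      have h5 := hbox u hu _ h3
      have h6 := hbox u hu _ h4
      have h7 := Bx_trans (Bx_comm.1 h5) h6
      rw [two_mul]
      exact h7
  obtain ⟨u, hu, hz0u, hγu⟩ := hPt
  have hnP : ¬ P (t + 1) := Nat.findGreatest_is_greatest (P := P) (Nat.lt_succ_self t) htlt
  have hnot : ∀ u' ∈ B, ¬ NJoin (cl B u')ᶜ z0 w0 → NJoin (cl B u')ᶜ (γ (t + 1)) w0 := by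
    intro u' hu' h1
    by_contra h2
    exact hnP ⟨u', hu', h1, h2⟩
  have hzD := hnot u hu hz0u
  have hzD' : γ (t + 1) ∉ cl B u := fun h1 => hf_self h1 (hw0 u hu) hzD
  obtain ⟨δ, hδ⟩ := (hs t htlt).2.2
  have hγD : γ t ∈ cl B u := by
    by_contra h1
    exact hγu (Relation.ReflTransGen.head ⟨h1, hzD', δ, hδ⟩ hzD)
  have hγB : γ t ∈ B := hf_clB hu hγD
  have hzB : γ (t + 1) ∉ B := by
    intro h1
    apply hzD'
    refine Relation.ReflTransGen.tail (show SJoin B u (γ t) from hγD) ⟨hγB, h1, ?_⟩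
    rw [hδ]
    exact add_st_mem_Bx _ _
  obtain ⟨u', hu', hz'⟩ := henc (γ (t + 1)) (hSγ (t + 1) htlt)
  have hne : cl B u ≠ cl B u' := by
    intro h1
    rw [← h1] at hz'
    exact hz' hzD
  have hzD2 : γ (t + 1) ∉ cl B u' := fun h1 => hzB (hf_clB hu' h1)
  have hγD2 : γ t ∉ cl B u' := fun h1 => hne (hf_both hγD h1)
  have hγe : ¬ NJoin (cl B u')ᶜ (γ t) w0 := by
    intro h1
    apply hz'
    refine Relation.ReflTransGen.head ⟨hzD2, hγD2, rv δ, ?_⟩ h1
    rw [hδ, st_rv]
    abel
  have hz0e : ¬ NJoin (cl B u')ᶜ z0 w0 := by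
    intro h1
    obtain ⟨v, hvD, hvw⟩ := hf_meet h1 hz0u
    exact hγe ((hf_inner hu hne hu' hγD hvD).trans hvw)
  exact hz' (hnot u' hu' hz0e)

end Ein99
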