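import Pool.Agent.LibEin99.H_Detour
import Pool.Agent.LibEin99.H_Outside

/-!
TASK H_Link. Free vertices are joined by paths avoiding `B`.

`NJoin (Bx ρ 0) z z'` by `box_connected`; for each `u ∈ B`, `NJoin (cl B u)ᶜ z z'` through `w0`
(`NJoin_symm`, transitivity); apply `detour` with `R = Bx ρ 0`. The set `{z | ∃ u ∈ R ∩ B, ∃ v ∈ cl B u,
v ∈ Bx 1 z}` is contained in `Bx (ρ + k + 1) 0` by `Small`.
-/

namespace Ein99

variable {d : ℕ}

theorem free_link (B : Set (V d)) (k : ℕ) (w0 : V d) (hB : Small B k w0)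
    (ρ : ℕ) (z z' : V d) (hz : z ∈ Bx ρ (0 : V d)) (hz' : z' ∈ Bx ρ (0 : V d))
    (h : Free B w0 z) (h' : Free B w0 z') :
    NJoin (Bᶜ ∩ (Bx (ρ + k + 1) (0 : V d) : Set (V d))) z z' := by
  have h1 := detour B (Bx ρ (0 : V d) : Set (V d)) z z' h.1 h'.1 (box_connected ρ 0 z z' hz hz')
    fun u hu => (h.2 u hu).trans (NJoin_symm (h'.2 u hu))
  refine NJoin_mono (Set.inter_subset_inter_right _ ?_) h1
  rintro w (hw | ⟨u, ⟨hu, huB⟩, v, hv, hvw⟩)
  · exact Bx_mono (by omega) 0 hw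
  · have h2 : v ∈ Bx (ρ + k) (0 : V d) := Bx_trans hu (hB.small u huB v hv)
    exact Bx_trans h2 (Bx_comm.1 hvw)

end Ein99
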