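import Pool.Agent.LibEin99.H_Free
import Pool.Agent.LibEin99.H_Link
import Pool.Agent.LibEin99.H_Block

/-!
TASK H_Main. Deterministic part of the renormalisation: if all clusters of bad blocks are small then
local uniqueness holds at the large scale.

`16 b ≤ m` ..., `k = m / (16 b)`, `B = {z ∈ Bx (20 m) 0 | ¬ GoodB b ω z}`, and all `*`-clusters of `B`
have radius at most `k`; `w0 = (20 m + k + 2, ..., 20 m + k + 2)` gives `Small B k w0`.
(i) of `LG 4 ω m 0`: straight path of blocks `0, e_1, ..., N e_1`, `N = m/(2b) > 2k`: `exists_free`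
gives a free block `z` on it; straight path `M e_1, ..., (M+N) e_1`, `M = 8m/b + 4`: free `z'`. Both are
good (they are in `Bx (20 m) 0` and not in `B`). `free_link` with `ρ = M + N` and `good_path`:
`Xb z` and `Xb z'` are joined; `Xb z ∈ Bx m 0` and `Xb z' ∉ Bx (8m) 0`, so `toBd_of_conn`.
(ii): let `x ∈ Bx m 0` with `ToBd ω (4m) 0 x`, `x_end` the end point (`OnBd (4m) 0`). By `ToBd_mono`
there is `x'` with `OnBd (2m) 0 x'`, `JoinIn ω (Bx (2m) 0) x x'`. The blocks visited form a path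
(`blk_path` with `S = Bx (2m) 0`) from `blk x` to `blk x'`, with `blk x' ∉ Bx (2k) (blk x)` (the sup
distance of `x, x'` is at least `m`). `exists_free`: a vertex `v`, `JoinIn ω (Bx (2m) 0) x v`, with
`z = blk v` free, hence good. `v ∈ Bx b (b•z)` (`mem_blk`). `v` is connected to `x_end ∉ Bx (3b) (b•z)`
(`3b + b + 2m < 4m`), so `ToBd ω (3b) (b•z) v` (`toBd_of_conn`), so `v` is joined to `Xb z`
(`good_attach`). Same for `y`. `free_link` with `ρ = 2m/b + 1` and `good_path` join `Xb z` and `Xb z'`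
inside `Bx (b (ρ + k + 1) + 3b) 0 ⊆ Bx (4m) 0`. Everything is inside `Bx (4m) 0`.
Assume `m ≥ 64 b` to have enough room.
-/

namespace Ein99

variable {d : ℕ}


/-- the set of bad blocks in the big box -/
def BadS (b R : ℕ) (ω : Om d) : Set (V d) := {z : V d | z ∈ Bx R (0 : V d) ∧ ¬ GoodB b ω z}

theorem good_of_free {b R : ℕ} {ω : Om d} {w0 z : V d} (hz : z ∈ Bx R (0 : V d))
    (h : Free (BadS b R ω) w0 z) : GoodB b ω z := by
  by_contra hg
  exact h.1 ⟨hz, hg⟩

/-- two free blocks are joined through good blocks -/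
theorem free_join (b m k : ℕ) (ω : Om d) (w0 : V d)
    (hB : Small (BadS b (20 * m) ω) k w0) (ρ : ℕ) (hρ : ρ + k + 1 ≤ 20 * m) (z z' : V d)
    (hz : z ∈ Bx ρ (0 : V d)) (hz' : z' ∈ Bx ρ (0 : V d))
    (h : Free (BadS b (20 * m) ω) w0 z) (h' : Free (BadS b (20 * m) ω) w0 z') :
    JoinIn ω (Bx (b * (ρ + k + 1) + 3 * b) (0 : V d) : Set (V d)) (Xb b ω z) (Xb b ω z') := by
  have hl := free_link (BadS b (20 * m) ω) k w0 hB ρ z z' hz hz' h h'
  have hzg : GoodB b ω z := good_of_free (Bx_mono (by omega) _ hz) h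
  refine good_path b ω (ρ + k + 1) z z' (Bx_mono (by omega) _ hz) hzg ?_
  refine NJoin_mono ?_ hl
  rintro w ⟨hw1, hw2⟩
  refine ⟨?_, hw2⟩
  by_contra hg
  exact hw1 ⟨Bx_mono hρ _ hw2, hg⟩

/-- membership in boxes around the origin -/
theorem mem_Bx0 {r : ℕ} {y : V d} : y ∈ Bx r (0 : V d) ↔ ∀ i, |y i| ≤ (r : ℤ) := by
  rw [mem_Bx]
  simp

theorem attach_free (hd : 2 ≤ d) (b m : ℕ) (hb : 1 ≤ b) (hm : 64 * b ≤ m) (ω : Om d) (w0 : V d)
    (hB : Small (BadS b (20 * m) ω) (m / (16 * b)) w0) (x : V d) (hx : x ∈ Bx m (0 : V d))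
    (hx2 : ToBd ω (4 * m) (0 : V d) x) :
    ∃ z ∈ Bx (2 * m / b + 1) (0 : V d), Free (BadS b (20 * m) ω) w0 z ∧
      JoinIn ω (Bx (4 * m) (0 : V d) : Set (V d)) x (Xb b ω z) := by
  set k := m / (16 * b) with hk
  have hk1 : 16 * b * k ≤ m := Nat.mul_div_le m (16 * b)
  have hQ1 : 2 * m < b * (2 * m / b + 1) := Nat.lt_mul_div_succ _ (by omega)
  have hQ2 : b * (2 * m / b) ≤ 2 * m := Nat.mul_div_le _ _
  set Q := 2 * m / b with hQ
  have hbz : (1 : ℤ) ≤ (b : ℤ) := by exact_mod_cast hb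
  have hmz : 64 * (b : ℤ) ≤ (m : ℤ) := by exact_mod_cast hm
  have hk1z : 16 * (b : ℤ) * (k : ℤ) ≤ (m : ℤ) := by exact_mod_cast hk1
  have hQ1z : 2 * (m : ℤ) < (b : ℤ) * ((Q : ℤ) + 1) := by exact_mod_cast hQ1
  obtain ⟨xe, hxe, hxe2⟩ := hx2
  have hxm := mem_Bx0.1 hx
  -- the exit point of the middle box
  have hx2m : x ∈ Bx (2 * m) (0 : V d) := Bx_mono (by omega) _ hx
  obtain ⟨x', hx', hx'2⟩ := ToBd_mono ω (r := 4 * m) (s := 2 * m) (z := 0) (y := 0) (x := x)
    (Bx_mono (by omega) _) hx2m ⟨xe, hxe, hxe2⟩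
  have hpath := blk_path b hb ω (Bx (2 * m) (0 : V d) : Set (V d)) x x' hx'2
  have hfar : blk b x' ∉ Bx (2 * k) (blk b x) := by
    intro hc
    rw [mem_Bx] at hc
    obtain ⟨i, hi⟩ := hx'.2
    have h1 := hc i
    have h2 := hxm i
    have h3 : |x' i| = 2 * (m : ℤ) := by
      have : ((x' i - (0 : V d) i).natAbs : ℤ) = ((2 * m : ℕ) : ℤ) := by exact_mod_cast hi
      simpa using this
    simp only [blk] at h1
    have e1 := Int.mul_ediv_add_emod (x' i) b
    have e2 := Int.mul_ediv_add_emod (x i) b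
    have f1 := Int.emod_nonneg (x' i) (show (b : ℤ) ≠ 0 by omega)
    have f2 := Int.emod_nonneg (x i) (show (b : ℤ) ≠ 0 by omega)
    have g1 := Int.emod_lt_of_pos (x' i) (show (0 : ℤ) < b by omega)
    have g2 := Int.emod_lt_of_pos (x i) (show (0 : ℤ) < b by omega)
    set q' := x' i / (b : ℤ)
    set q := x i / (b : ℤ)
    have h4 : |(b : ℤ) * (q' - q)| ≤ (b : ℤ) * (2 * k) := by
      rw [abs_mul, abs_of_nonneg (show (0 : ℤ) ≤ b by omega)]
      refine mul_le_mul_of_nonneg_left ?_ (by omega)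
      exact_mod_cast h1
    have h5 : |x' i - x i| < (b : ℤ) * (2 * k) + b := by
      have : x' i - x i = (b : ℤ) * (q' - q) + (x' i % b - x i % b) := by linarith
      rw [this]
      refine lt_of_le_of_lt (abs_add_le _ _) ?_
      have : |x' i % b - x i % b| < (b : ℤ) := by
        rw [abs_lt]
        constructor <;> linarith
      linarith
    have h6 : |x' i| ≤ |x' i - x i| + |x i| := by
      have := abs_add_le (x' i - x i) (x i)
      simpa using this
    nlinarith
  obtain ⟨z, ⟨v, hv, hvz⟩, hzf⟩ := exists_free hd (BadS b (20 * m) ω) k w0 hB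
    {z | ∃ v, JoinIn ω (Bx (2 * m) (0 : V d) : Set (V d)) x v ∧ blk b v = z}
    (blk b x) (blk b x') hpath ⟨x, Relation.ReflTransGen.refl, rfl⟩ hfar
  -- `v` is in the middle box
  have hv2 : v ∈ Bx (2 * m) (0 : V d) := by
    rcases Relation.ReflTransGen.cases_tail hv with h | ⟨w, _, h⟩
    · rw [h]; exact hx2m
    · exact h.2.1
  have hvm := mem_Bx0.1 hv2
  have hvb : v ∈ Bx b ((b : ℤ) • z) := by
    rw [← hvz]
    exact mem_blk b hb v
  have hvbi := mem_Bx.1 hvb
  have hvbi' : ∀ i, |v i - (b : ℤ) * z i| ≤ b := by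
    intro i
    have := hvbi i
    simpa using this
  have hzQ : z ∈ Bx (Q + 1) (0 : V d) := by
    rw [mem_Bx0]
    intro i
    have h1 := abs_le.1 (hvm i)
    have h2 : z i = v i / (b : ℤ) := by rw [← hvz]; rfl
    have e1 := Int.mul_ediv_add_emod (v i) b
    have f1 := Int.emod_nonneg (v i) (show (b : ℤ) ≠ 0 by omega)
    have g1 := Int.emod_lt_of_pos (v i) (show (0 : ℤ) < b by omega)
    rw [← h2] at e1
    push_cast at h1
    rw [abs_le]
    push_cast
    constructor
    · by_contra hc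
      push Not at hc
      have : (b : ℤ) * z i ≤ (b : ℤ) * (-((Q : ℤ) + 1) - 1) :=
        mul_le_mul_of_nonneg_left (by omega) (by omega)
      nlinarith
    · by_contra hc
      push Not at hc
      have : (b : ℤ) * ((Q : ℤ) + 1 + 1) ≤ (b : ℤ) * z i :=
        mul_le_mul_of_nonneg_left (by omega) (by omega)
      nlinarith
  have hQm : Q + 1 ≤ 20 * m := by
    have : Q ≤ b * Q := Nat.le_mul_of_pos_left Q (by omega)
    omega
  have hzg : GoodB b ω z := good_of_free (Bx_mono hQm _ hzQ) hzf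
  -- `v` is joined to the boundary of the `3b` box
  have hsub : (Bx (3 * b) ((b : ℤ) • z) : Set (V d)) ⊆ (Bx (4 * m) (0 : V d) : Set (V d)) := by
    intro y hy
    have hy' := mem_Bx.1 (Finset.mem_coe.1 hy)
    refine Finset.mem_coe.2 (mem_Bx0.2 (fun i => ?_))
    have h1 := abs_le.1 (hvm i)
    have h2 := abs_le.1 (hvbi' i)
    have h3 := abs_le.1 (hy' i)
    simp only [Pi.smul_apply, smul_eq_mul] at h3
    push_cast at h1 h3 ⊢
    rw [abs_le]
    constructor <;> linarith [h1.1, h1.2, h2.1, h2.2, h3.1, h3.2]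
  have hv3 : ToBd ω (3 * b) ((b : ℤ) • z) v := by
    refine toBd_of_conn ω (3 * b) (y := xe) (Bx_mono (by omega) _ hvb) ?_ ?_
    · intro hc
      have hc' := mem_Bx.1 hc
      obtain ⟨i, hi⟩ := hxe.2
      have h3 : |xe i| = 4 * (m : ℤ) := by
        have : ((xe i - (0 : V d) i).natAbs : ℤ) = ((4 * m : ℕ) : ℤ) := by exact_mod_cast hi
        simpa using this
      have h1 := abs_le.1 (hvm i)
      have h2 := abs_le.1 (hvbi' i)
      have h4 := abs_le.1 (hc' i)
      simp only [Pi.smul_apply, smul_eq_mul] at h4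
      push_cast at h1 h4
      have h5 : |xe i| ≤ 2 * (m : ℤ) + 4 * b := by
        rw [abs_le]
        constructor <;> linarith [h1.1, h1.2, h2.1, h2.2, h4.1, h4.2]
      linarith
    · exact (Conn_symm ω (JoinIn.conn ω hv)).trans (JoinIn.conn ω hxe2)
  have hva := good_attach b ω z v hzg (Bx_mono (by omega) _ hvb) hv3
  refine ⟨z, hzQ, hzf, ?_⟩
  refine Relation.ReflTransGen.trans (JoinIn_mono ω ?_ hv) (JoinIn_mono ω hsub hva)
  exact_mod_cast Bx_mono (by omega) (0 : V d)

theorem LG_of_small (hd : 2 ≤ d) (b m : ℕ) (hb : 1 ≤ b) (hm : 64 * b ≤ m) (ω : Om d)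
    (h : ∀ u v : V d, u ∈ Bx (20 * m) (0 : V d) → ¬ GoodB b ω u →
      SJoin {z : V d | z ∈ Bx (20 * m) (0 : V d) ∧ ¬ GoodB b ω z} u v → v ∈ Bx (m / (16 * b)) u) :
    LG 4 ω m 0 := by
  have hk1 : 16 * b * (m / (16 * b)) ≤ m := Nat.mul_div_le m (16 * b)
  have hi0 : 0 < d := by omega
  let i0 : Fin d := ⟨0, hi0⟩
  let w0 : V d := fun _ => ((20 * m + m / (16 * b) + 2 : ℕ) : ℤ)
  have hB : Small (BadS b (20 * m) ω) (m / (16 * b)) w0 := by
    refine ⟨fun u hu v huv => h u v hu.1 hu.2 huv, fun u hu hc => ?_⟩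
    have h1 := abs_le.1 (mem_Bx0.1 hu.1 i0)
    have h2 := abs_le.1 (mem_Bx.1 hc i0)
    simp only [w0] at h2
    push_cast at h1 h2
    linarith [h1.1, h1.2, h2.1, h2.2]
  have hN1 : 2 * b * (m / (2 * b)) ≤ m := Nat.mul_div_le m (2 * b)
  have hN2 : m < 2 * b * (m / (2 * b) + 1) := Nat.lt_mul_div_succ _ (by omega)
  have hE1 : b * (8 * m / b) ≤ 8 * m := Nat.mul_div_le _ _
  have hE2 : 8 * m < b * (8 * m / b + 1) := Nat.lt_mul_div_succ _ (by omega)
  have hQ1 : b * (2 * m / b) ≤ 2 * m := Nat.mul_div_le _ _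
  set k := m / (16 * b) with hk
  set N := m / (2 * b) with hN
  set E := 8 * m / b with hE
  set Q := 2 * m / b with hQ
  have hbz : (1 : ℤ) ≤ (b : ℤ) := by exact_mod_cast hb
  have hkk : k ≤ b * k := Nat.le_mul_of_pos_left k (by omega)
  have hNN : N ≤ b * N := Nat.le_mul_of_pos_left N (by omega)
  have hEE : E ≤ b * E := Nat.le_mul_of_pos_left E (by omega)
  have hQQ : Q ≤ b * Q := Nat.le_mul_of_pos_left Q (by omega)
  have hk1' : 16 * (b * k) ≤ m := by nlinarith
  have hN1' : 2 * (b * N) ≤ m := by nlinarith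
  have hN2' : m < 2 * (b * N) + 2 * b := by nlinarith
  have hE2' : 8 * m < b * E + b := by nlinarith
  have hkN : 2 * k < N := by
    by_contra hc
    push Not at hc
    have : b * N ≤ b * (2 * k) := Nat.mul_le_mul_left b hc
    nlinarith
  constructor
  · -- existence
    clear_value N E Q
    have hzN : ((N : ℤ) • (Pi.single i0 1 : V d)) ∈ Bx N (0 : V d) := by
      rw [mem_Bx0]
      intro i
      by_cases hi : i = i0
      · subst hi; simp
      · simp [Pi.single_eq_of_ne hi]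
    obtain ⟨z, hz, hzf⟩ := exists_free hd (BadS b (20 * m) ω) k w0 hB (Bx N (0 : V d) : Set (V d))
      0 ((N : ℤ) • (Pi.single i0 1 : V d))
      (box_connected N 0 _ _ (self_mem_Bx _ _) hzN) (Finset.mem_coe.2 (self_mem_Bx _ _)) (by
        intro hc
        have := mem_Bx0.1 hc i0
        simp at this
        omega)
    let c : V d := ((N + E + 3 : ℕ) : ℤ) • (Pi.single i0 1 : V d)
    have hc0 : c i0 = N + E + 3 := by simp [c]
    have hcN : c + (N : ℤ) • (Pi.single i0 1 : V d) ∈ Bx N c := by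
      rw [mem_Bx]
      intro i
      have := mem_Bx0.1 hzN i
      simpa using this
    obtain ⟨z', hz', hzf'⟩ := exists_free hd (BadS b (20 * m) ω) k w0 hB (Bx N c : Set (V d))
      c (c + (N : ℤ) • (Pi.single i0 1 : V d))
      (box_connected N c _ _ (self_mem_Bx _ _) hcN) (Finset.mem_coe.2 (self_mem_Bx _ _)) (by
        intro hc
        have := mem_Bx.1 hc i0
        simp at this
        omega)
    have hz1 := mem_Bx0.1 (Finset.mem_coe.1 hz)
    have hz1' := mem_Bx.1 (Finset.mem_coe.1 hz')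
    have hz2 : z ∈ Bx (2 * N + E + 3) (0 : V d) := Bx_mono (by omega) _ hz
    have hz2' : z' ∈ Bx (2 * N + E + 3) (0 : V d) := by
      rw [mem_Bx0]
      intro i
      have h1 := abs_le.1 (hz1' i)
      have h2 : 0 ≤ c i ∧ c i ≤ N + E + 3 := by
        by_cases hi : i = i0
        · subst hi
          rw [hc0]
          exact ⟨by positivity, le_rfl⟩
        · have : c i = 0 := by simp [c, Pi.single_eq_of_ne hi]
          rw [this]
          exact ⟨le_rfl, by positivity⟩
      rw [abs_le]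
      push_cast
      constructor <;> linarith [h1.1, h1.2, h2.1, h2.2]
    have hj := free_join b m k ω w0 hB (2 * N + E + 3) (by omega) z z' hz2 hz2' hzf hzf'
    have hzg : GoodB b ω z := good_of_free (Bx_mono (by omega) _ hz2) hzf
    have hzg' : GoodB b ω z' := good_of_free (Bx_mono (by omega) _ hz2') hzf'
    have hX := mem_Bx.1 (Xb_mem b ω z hzg).1
    have hX' := mem_Bx.1 (Xb_mem b ω z' hzg').1
    have hXm : Xb b ω z ∈ Bx m (0 : V d) := by
      rw [mem_Bx0]
      intro i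
      have h1 := abs_le.1 (hX i)
      have h2 := hz1 i
      simp only [Pi.smul_apply, smul_eq_mul] at h1
      have h3 : |(b : ℤ) * z i| ≤ (b : ℤ) * N := by
        rw [abs_mul, abs_of_nonneg (show (0 : ℤ) ≤ b by omega)]
        exact mul_le_mul_of_nonneg_left h2 (by omega)
      have h3' := abs_le.1 h3
      have h4 : 2 * ((b : ℤ) * N) ≤ m := by exact_mod_cast hN1'
      have h5 : 64 * (b : ℤ) ≤ m := by exact_mod_cast hm
      rw [abs_le]
      constructor <;> linarith [h1.1, h1.2, h3'.1, h3'.2]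
    refine ⟨Xb b ω z, hXm, ?_⟩
    refine toBd_of_conn ω (2 * 4 * m) (y := Xb b ω z') (Bx_mono (by omega) _ hXm) ?_
      (JoinIn.conn ω hj)
    intro hc
    have h1 := abs_le.1 (hX' i0)
    have h2 := abs_le.1 (hz1' i0)
    have h3 := abs_le.1 (mem_Bx0.1 hc i0)
    simp only [Pi.smul_apply, smul_eq_mul] at h1
    rw [hc0] at h2
    push_cast at h3
    have h4 : (b : ℤ) * (E + 3) ≤ (b : ℤ) * z' i0 :=
      mul_le_mul_of_nonneg_left (by linarith [h2.1]) (by omega)
    have h5 : 8 * (m : ℤ) < b * E + b := by exact_mod_cast hE2'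
    nlinarith [h1.1, h3.2]
  · intro x hx y hy hx2 hy2
    obtain ⟨z, hz, hzf, hzj⟩ := attach_free hd b m hb hm ω w0 hB x hx hx2
    obtain ⟨z', hz', hzf', hzj'⟩ := attach_free hd b m hb hm ω w0 hB y hy hy2
    have hj := free_join b m k ω w0 hB (Q + 1) (by omega) z z' hz hz' hzf hzf'
    refine hzj.trans (Relation.ReflTransGen.trans ?_ (JoinIn_symm ω _ hzj'))
    refine JoinIn_mono ω ?_ hj
    have : b * (Q + 1 + k + 1) + 3 * b ≤ 4 * m := by nlinarith
    exact_mod_cast Bx_mono this (0 : V d)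

end Ein99
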