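import Pool.Agent.LibEin99.Defs4

/-!
TASK H_Poincare. Discrete Poincare lemma on `ℤ^d`: a closed 1-cochain is exact.

`c x i` is the value on the edge from `x` to `x + e_i`; closedness on every plaquette.
-/

namespace Ein99

variable {d : ℕ}

/-- Integer indexed primitive of a function `ℤ → ℤ`. -/
noncomputable def zprim (φ : ℤ → ℤ) (t : ℤ) : ℤ := ∑ s ∈ Finset.Ico 0 t, φ s - ∑ s ∈ Finset.Ico t 0, φ s

theorem zprim_succ (φ : ℤ → ℤ) (t : ℤ) : zprim φ (t + 1) - zprim φ t = φ t := by
  unfold zprim
  rcases le_or_gt 0 t with h | h
  · have h1 : Finset.Ico (0 : ℤ) (t + 1) = insert t (Finset.Ico 0 t) := by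
      ext s; simp only [Finset.mem_Ico, Finset.mem_insert]; omega
    have h2 : Finset.Ico (t + 1) (0 : ℤ) = ∅ := by
      ext s; simp only [Finset.mem_Ico, Finset.notMem_empty, iff_false]; omega
    have h3 : Finset.Ico t (0 : ℤ) = ∅ := by
      ext s; simp only [Finset.mem_Ico, Finset.notMem_empty, iff_false]; omega
    rw [h1, h2, h3, Finset.sum_insert (by simp)]
    simp
  · have h1 : Finset.Ico t (0 : ℤ) = insert t (Finset.Ico (t + 1) 0) := by
      ext s; simp only [Finset.mem_Ico, Finset.mem_insert]; omega
    have h2 : Finset.Ico (0 : ℤ) (t + 1) = ∅ := by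
      ext s; simp only [Finset.mem_Ico, Finset.notMem_empty, iff_false]; omega
    have h3 : Finset.Ico (0 : ℤ) t = ∅ := by
      ext s; simp only [Finset.mem_Ico, Finset.notMem_empty, iff_false]; omega
    rw [h1, h2, h3, Finset.sum_insert (by simp)]
    simp

theorem poincare_aux (c : V d → Fin d → ℤ)
    (hc : ∀ (x : V d) (i j : Fin d),
      c x i + c (x + Pi.single i 1) j = c x j + c (x + Pi.single j 1) i) (S : Finset (Fin d)) :
    ∃ h : V d → ℤ, ∀ (x : V d), ∀ i ∈ S, h (x + Pi.single i 1) - h x = c x i := by
  classical
  induction S using Finset.induction_on with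
  | empty => exact ⟨fun _ => 0, fun x i hi => absurd hi (by simp)⟩
  | @insert j S hj ih =>
    obtain ⟨h, hh⟩ := ih
    set c' : V d → Fin d → ℤ := fun x i => c x i - (h (x + Pi.single i 1) - h x) with hc'
    have hcl : ∀ (x : V d) (i k : Fin d),
        c' x i + c' (x + Pi.single i 1) k = c' x k + c' (x + Pi.single k 1) i := by
      intro x i k
      have e := hc x i k
      have e2 : x + Pi.single k 1 + Pi.single i 1 = x + Pi.single i 1 + (Pi.single k 1 : V d) := by
        abel
      simp only [hc']
      rw [e2]
      linarith
    have hinv : ∀ (x : V d), ∀ i ∈ S, c' (x + Pi.single i 1) j = c' x j := by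
      intro x i hi
      have e := hcl x i j
      have z1 : c' x i = 0 := by simp only [hc']; rw [hh x i hi]; ring
      have z2 : c' (x + Pi.single j 1) i = 0 := by simp only [hc']; rw [hh _ i hi]; ring
      linarith
    refine ⟨fun x => h x + zprim (fun s => c' (Function.update x j s) j) (x j), ?_⟩
    intro x i hi
    rcases Finset.mem_insert.1 hi with rfl | hi
    · have u1 : ∀ s : ℤ, Function.update (x + Pi.single i 1) i s = Function.update x i s := by
        intro s
        ext k
        rcases eq_or_ne k i with rfl | hk
        · simp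
        · simp [Function.update_of_ne hk, hk]
      have u2 : (x + Pi.single i 1 : V d) i = x i + 1 := by simp
      have key := zprim_succ (fun s => c' (Function.update x i s) i) (x i)
      simp only [u1, u2, Function.update_eq_self] at key ⊢
      simp only [hc'] at key ⊢
      linarith
    · have hij : j ≠ i := fun e => hj (e ▸ hi)
      have u1 : ∀ s : ℤ, Function.update (x + Pi.single i 1) j s
          = Function.update x j s + Pi.single i 1 := by
        intro s
        ext k
        rcases eq_or_ne k j with rfl | hk
        · simp [hij]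
        · simp [Function.update_of_ne hk]
      have u2 : (x + Pi.single i 1 : V d) j = x j := by simp [hij]
      have u3 : (fun s => c' (Function.update (x + Pi.single i 1) j s) j)
          = fun s => c' (Function.update x j s) j := by
        funext s
        rw [u1, hinv _ i hi]
      show h (x + Pi.single i 1)
          + zprim (fun s => c' (Function.update (x + Pi.single i 1) j s) j)
            ((x + Pi.single i 1 : V d) j)
          - (h x + zprim (fun s => c' (Function.update x j s) j) (x j)) = c x i
      rw [u3, u2]
      have := hh x i hi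
      linarith

theorem poincare (c : V d → Fin d → ℤ)
    (hc : ∀ (x : V d) (i j : Fin d),
      c x i + c (x + Pi.single i 1) j = c x j + c (x + Pi.single j 1) i) :
    ∃ h : V d → ℤ, ∀ (x : V d) (i : Fin d), h (x + Pi.single i 1) - h x = c x i := by
  obtain ⟨h, hh⟩ := poincare_aux c hc Finset.univ
  exact ⟨h, fun x i => hh x i (Finset.mem_univ i)⟩

end Ein99
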