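import Pool.Agent.LibEin99.H_Outside

/-!
TASK H_Star. A large `*`-cluster contains a long self-avoiding `*`-path.

`star_path`: `u` and `v ∉ Bx k u` are joined by a `*`-path in `B`; take one of minimal length (or
`SimpleGraph.Walk.toPath` for the graph of `*`-adjacency on `B`): its vertices are distinct and, since
each step moves by at most one in sup-norm, it has more than `k` steps. Take its first `k+1` vertices.
-/

namespace Ein99

variable {d : ℕ}

/-- the graph of `*`-adjacency on `B` -/
def H_Star_G (B : Set (V d)) : SimpleGraph (V d) where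
  Adj a b := a ≠ b ∧ a ∈ B ∧ b ∈ B ∧ b ∈ Bx 1 a
  symm := ⟨fun _ _ ⟨h1, h2, h3, h4⟩ => ⟨h1.symm, h3, h2, Bx_comm.1 h4⟩⟩
  loopless := ⟨fun _ h => h.1 rfl⟩

theorem H_Star_reach {B : Set (V d)} {u v : V d} (h : SJoin B u v) :
    (H_Star_G B).Reachable u v := by
  induction h with
  | refl => exact SimpleGraph.Reachable.refl u
  | @tail b c _ hbc ih =>
    by_cases hb : b = c
    · exact hb ▸ ih
    · exact ih.trans (SimpleGraph.Adj.reachable (show (H_Star_G B).Adj b c from
        ⟨hb, hbc.1, hbc.2.1, hbc.2.2⟩))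

theorem H_Star_getVert {B : Set (V d)} {u v : V d} (p : (H_Star_G B).Walk u v) (n : ℕ) :
    p.getVert n ∈ Bx n u := by
  induction n with
  | zero =>
    rw [SimpleGraph.Walk.getVert_zero]
    exact self_mem_Bx 0 u
  | succ n ih =>
    by_cases hn : n < p.length
    · exact Bx_trans ih (p.adj_getVert_succ hn).2.2.2
    · rw [p.getVert_of_length_le (by omega)]
      rw [p.getVert_of_length_le (by omega)] at ih
      exact Bx_mono (Nat.le_succ n) u ih

theorem star_path (B : Set (V d)) (k : ℕ) (u v : V d) (hu : u ∈ B) (h : SJoin B u v)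
    (hv : v ∉ Bx k u) :
    ∃ f : Fin (k + 1) → V d, f 0 = u ∧ Function.Injective f ∧ (∀ i, f i ∈ B) ∧
      ∀ i : Fin k, f i.succ ∈ Bx 1 (f i.castSucc) := by
  classical
  obtain ⟨q⟩ := H_Star_reach h
  have hp : q.bypass.IsPath := q.bypass_isPath
  set p := q.bypass with hpdef
  have hlen : k < p.length := by
    by_contra hcon
    apply hv
    have h1 := H_Star_getVert p k
    rwa [p.getVert_of_length_le (by omega)] at h1
  refine ⟨fun i => p.getVert i, ?_, ?_, ?_, ?_⟩
  · exact p.getVert_zero
  · intro i j hij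
    have h1 := hp.getVert_injOn (show (i : ℕ) ∈ {n : ℕ | n ≤ p.length} by
      change (i : ℕ) ≤ p.length
      omega) (show (j : ℕ) ∈ {n : ℕ | n ≤ p.length} by
      change (j : ℕ) ≤ p.length
      omega) hij
    exact Fin.ext h1
  · intro i
    exact (p.adj_getVert_succ (show (i : ℕ) < p.length by omega)).2.1
  · intro i
    exact (p.adj_getVert_succ (show (i : ℕ) < p.length by omega)).2.2.2

/-- The number of `*`-paths with `k` steps from `u` is at most `(3^d)^k`. -/
theorem star_count (k : ℕ) (u : V d) :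
    {f : Fin (k + 1) → V d | f 0 = u ∧ ∀ i : Fin k, f i.succ ∈ Bx 1 (f i.castSucc)}.Finite ∧
    {f : Fin (k + 1) → V d | f 0 = u ∧ ∀ i : Fin k, f i.succ ∈ Bx 1 (f i.castSucc)}.ncard
      ≤ (3 ^ d) ^ k := by
  classical
  set A : Set (Fin (k + 1) → V d) :=
    {f : Fin (k + 1) → V d | f 0 = u ∧ ∀ i : Fin k, f i.succ ∈ Bx 1 (f i.castSucc)} with hA
  let T : Finset (Fin k → V d) := Fintype.piFinset fun _ => Bx 1 (0 : V d)
  have hT : T.card = (3 ^ d) ^ k := by
    rw [Fintype.card_piFinset]
    simp [card_Bx]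
  let φ : (Fin (k + 1) → V d) → (Fin k → V d) := fun f i => f i.succ - f i.castSucc
  have hmap : Set.MapsTo φ A (T : Set (Fin k → V d)) := by
    intro f hf
    rw [Finset.mem_coe, Fintype.mem_piFinset]
    intro i
    have h1 := hf.2 i
    rw [mem_Bx] at h1 ⊢
    intro j
    simpa [φ] using h1 j
  have hinj : Set.InjOn φ A := by
    intro f hf g hg hfg
    have key : ∀ n : ℕ, ∀ hn : n < k + 1, f ⟨n, hn⟩ = g ⟨n, hn⟩ := by
      intro n
      induction n with
      | zero =>
        intro hn
        have h1 : f 0 = g 0 := hf.1.trans hg.1.symm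
        exact h1
      | succ n ih =>
        intro hn
        have h1 := congrFun hfg ⟨n, by omega⟩
        have h2 := ih (by omega)
        have h3 : f (Fin.succ ⟨n, by omega⟩) - f (Fin.castSucc ⟨n, by omega⟩) =
            g (Fin.succ ⟨n, by omega⟩) - g (Fin.castSucc ⟨n, by omega⟩) := h1
        have h4 : f (Fin.castSucc ⟨n, by omega⟩) = g (Fin.castSucc ⟨n, by omega⟩) := h2
        rw [h4] at h3
        exact sub_left_injective h3
    funext i
    exact key i i.2
  constructor
  · exact Set.Finite.of_injOn hmap hinj T.finite_toSet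
  · have h1 := Set.ncard_le_ncard_of_injOn φ hmap hinj T.finite_toSet
    rw [Set.ncard_coe_finset, hT] at h1
    exact h1

/-- Among finitely many distinct vertices, a proportion `9^{-d}` is pairwise at distance at least `9`
(same residues modulo `9`). -/
theorem sparse_subset (s : Finset (V d)) :
    ∃ t ⊆ s, s.card ≤ 9 ^ d * t.card ∧ ∀ x ∈ t, ∀ y ∈ t, x ≠ y → ∃ i, 9 ≤ |x i - y i| := by
  classical
  let φ : V d → (Fin d → ZMod 9) := fun x i => (x i : ZMod 9)
  obtain ⟨b, _, hb⟩ := Finset.exists_max_image (Finset.univ : Finset (Fin d → ZMod 9))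
    (fun b => (s.filter fun x => φ x = b).card) ⟨fun _ => 0, Finset.mem_univ _⟩
  refine ⟨s.filter fun x => φ x = b, Finset.filter_subset _ _, ?_, ?_⟩
  · have h1 : s.card = ∑ c : Fin d → ZMod 9, (s.filter fun x => φ x = c).card :=
      Finset.card_eq_sum_card_fiberwise fun x _ => Finset.mem_coe.2 (Finset.mem_univ _)
    rw [h1]
    refine (Finset.sum_le_card_nsmul _ _ _ hb).trans ?_
    rw [Finset.card_univ, Fintype.card_fun, ZMod.card, Fintype.card_fin, smul_eq_mul]
  · intro x hx y hy hxy
    rw [Finset.mem_filter] at hx hy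
    obtain ⟨i, hi⟩ := Function.ne_iff.1 hxy
    refine ⟨i, ?_⟩
    have h1 : ((x i : ℤ) : ZMod 9) = ((y i : ℤ) : ZMod 9) := by
      have := hx.2.trans hy.2.symm
      exact congrFun this i
    have h2 : ((9 : ℕ) : ℤ) ∣ y i - x i := (ZMod.intCast_eq_intCast_iff_dvd_sub _ _ _).1 h1
    obtain ⟨c, hc⟩ := h2
    have hc0 : c ≠ 0 := by
      rintro rfl
      apply hi
      push_cast at hc
      omega
    have h3 : |x i - y i| = 9 * |c| := by
      rw [abs_sub_comm, hc, abs_mul]
      norm_num
    rw [h3]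
    have := Int.one_le_abs hc0
    omega

end Ein99
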