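import Pool.Agent.LibEin99.H_Poincare
import Pool.Agent.LibEin99.A_Box

/-!
TASK H_Top. The topological lemma: the outer `*`-boundary of a `*`-connected set is connected as seen
from outside.
-/

namespace Ein99

variable {d : ℕ}

/-- A nearest neighbour step is a step `+e_i` or its reverse. -/
theorem step_cases {x y : V d} (h : ∃ δ : Dir d, y = x + st δ) :
    ∃ i : Fin d, y = x + Pi.single i 1 ∨ x = y + Pi.single i 1 := by
  obtain ⟨⟨i, s⟩, rfl⟩ := h
  refine ⟨i, ?_⟩
  cases s
  · right
    ext k
    rcases eq_or_ne k i with rfl | hk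
    · simp [st]
    · simp [st, hk]
  · left
    simp [st]

theorem step_pos (x : V d) (i : Fin d) : ∃ δ : Dir d, x + Pi.single i 1 = x + st δ :=
  ⟨(i, true), by simp [st]⟩

theorem step_neg (x : V d) (i : Fin d) : ∃ δ : Dir d, x = (x + Pi.single i 1) + st δ := by
  refine ⟨(i, false), ?_⟩
  ext k
  rcases eq_or_ne k i with rfl | hk
  · simp [st]
  · simp [st, hk]

/-- A function invariant under the steps inside the unit cube around `u` is constant there. -/
theorem cube_const (f : V d → ℤ) (u : V d)
    (hf : ∀ (x : V d) (i : Fin d), x ∈ Bx 1 u → x + Pi.single i 1 ∈ Bx 1 u →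
      f (x + Pi.single i 1) = f x) (w : V d) (hw : w ∈ Bx 1 u) : f w = f u := by
  classical
  have key : ∀ S : Finset (Fin d), f (fun i => if i ∈ S then w i else u i) = f u := by
    intro S
    induction S using Finset.induction_on with
    | empty => simp
    | @insert j S hj ih =>
      rw [← ih]
      have hw' := mem_Bx.1 hw
      have m1 : (fun i => if i ∈ S then w i else u i) ∈ Bx 1 u := by
        rw [mem_Bx]
        intro i
        by_cases hi : i ∈ S
        · simpa [hi] using hw' i
        · simp [hi]
      have m2 : (fun i => if i ∈ insert j S then w i else u i) ∈ Bx 1 u := by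
        rw [mem_Bx]
        intro i
        by_cases hi : i ∈ insert j S
        · simp only [hi, if_true]; simpa using hw' i
        · simp only [hi, if_false]; simp
      have hj1 := hw' j
      have hj2 : w j = u j ∨ w j = u j + 1 ∨ u j = w j + 1 := by
        rw [abs_le] at hj1
        push_cast at hj1
        omega
      rcases hj2 with e | e | e
      · congr 1
        funext i
        rcases eq_or_ne i j with rfl | hi
        · simp [hj, e]
        · simp [Finset.mem_insert, hi]
      · have e2 : (fun i => if i ∈ insert j S then w i else u i)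
            = (fun i => if i ∈ S then w i else u i) + Pi.single j 1 := by
          funext i
          rcases eq_or_ne i j with rfl | hi
          · simp [hj, e]
          · simp [Finset.mem_insert, hi]
        rw [e2] at m2 ⊢
        exact hf _ j m1 m2
      · have e2 : (fun i => if i ∈ S then w i else u i)
            = (fun i => if i ∈ insert j S then w i else u i) + Pi.single j 1 := by
          funext i
          rcases eq_or_ne i j with rfl | hi
          · simp [hj, e]
          · simp [Finset.mem_insert, hi]
        rw [e2] at m1 ⊢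
        exact (hf _ j m2 m1).symm
  have := key Finset.univ
  simpa using this

theorem mem_D_or_bdS {D : Set (V d)} {u x : V d} (hu : u ∈ D) (hx : x ∈ Bx 1 u) :
    x ∈ D ∨ x ∈ bdS D := by
  by_cases h : x ∈ D
  · exact Or.inl h
  · exact Or.inr ⟨h, u, hu, Bx_comm.1 hx⟩

theorem single_mem_Bx (x : V d) (i : Fin d) : x + Pi.single i 1 ∈ Bx 1 x := by
  obtain ⟨δ, h⟩ := step_pos x i
  rw [h]
  exact add_st_mem_Bx x δ

theorem top_lemma (D : Set (V d)) (hD : ∀ u ∈ D, ∀ v ∈ D, SJoin D u v) (a b : V d)
    (ha : a ∉ D) (hb : b ∉ D) (ha' : ∃ δ : Dir d, a + st δ ∈ D) (hb' : ∃ δ : Dir d, b + st δ ∈ D)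
    (hab : NJoin Dᶜ a b) : NJoin (bdS D) a b := by
  classical
  by_contra hnot
  obtain ⟨δa, hδa⟩ := ha'
  obtain ⟨δb, hδb⟩ := hb'
  have habd : a ∈ bdS D := ⟨ha, _, hδa, add_st_mem_Bx a δa⟩
  -- the component of `a`
  set A : Set (V d) := {z | NJoin (bdS D) a z} with hA
  have hAb : ∀ z ∈ A, z ∈ bdS D := by
    intro z hz
    have hz' : NJoin (bdS D) a z := hz
    unfold NJoin at hz'
    rcases Relation.ReflTransGen.cases_tail hz' with h | ⟨w, _, hw⟩
    · rw [h]; exact habd
    · exact hw.2.1
  have hAD : ∀ z ∈ A, z ∉ D := fun z hz => (hAb z hz).1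
  have hAstep : ∀ z ∈ A, ∀ w ∈ bdS D, (∃ δ : Dir d, w = z + st δ) → w ∈ A := by
    intro z hz w hw hδ
    exact Relation.ReflTransGen.tail hz ⟨hAb z hz, hw, hδ⟩
  -- adjacency transfers membership
  have hiff : ∀ (x : V d) (i : Fin d), x ∈ bdS D → x + Pi.single i 1 ∈ bdS D →
      (x ∈ A ↔ x + Pi.single i 1 ∈ A) := by
    intro x i h1 h2
    constructor
    · intro h; exact hAstep x h _ h2 (step_pos x i)
    · intro h; exact hAstep _ h x h1 (step_neg x i)
  set g : V d → ℤ := fun x => if x ∈ A then 1 else 0 with hg
  set c : V d → Fin d → ℤ := fun x i =>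
    if x ∈ D ∨ x + Pi.single i 1 ∈ D then g x - g (x + Pi.single i 1) else 0 with hc
  -- `c` is the difference of `g` on edges of `D ∪ bdS D`
  have hK : ∀ (x : V d) (i : Fin d), (x ∈ D ∨ x ∈ bdS D) →
      (x + Pi.single i 1 ∈ D ∨ x + Pi.single i 1 ∈ bdS D) →
      c x i = g x - g (x + Pi.single i 1) := by
    intro x i h1 h2
    simp only [hc]
    by_cases h : x ∈ D ∨ x + Pi.single i 1 ∈ D
    · rw [if_pos h]
    · rw [if_neg h]
      push Not at h
      have h1' : x ∈ bdS D := h1.resolve_left h.1
      have h2' : x + Pi.single i 1 ∈ bdS D := h2.resolve_left h.2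
      have := hiff x i h1' h2'
      simp only [hg]
      by_cases hx : x ∈ A
      · rw [if_pos hx, if_pos (this.1 hx)]; ring
      · rw [if_neg hx, if_neg (fun h => hx (this.2 h))]; ring
  have hcl : ∀ (x : V d) (i j : Fin d),
      c x i + c (x + Pi.single i 1) j = c x j + c (x + Pi.single j 1) i := by
    intro x i j
    have e2 : x + Pi.single j 1 + Pi.single i 1 = x + Pi.single i 1 + (Pi.single j 1 : V d) := by
      abel
    rcases eq_or_ne i j with rfl | hij
    · rfl
    by_cases hex : x ∈ D ∨ x + Pi.single i 1 ∈ D ∨ x + Pi.single j 1 ∈ D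
        ∨ x + Pi.single i 1 + Pi.single j 1 ∈ D
    · have bx : ∀ y z : V d, (∀ k, |y k - x k| ≤ 1 ∧ |z k - x k| ≤ 1 ∧ |z k - y k| ≤ 1) →
          z ∈ Bx 1 y := by
        intro y z h
        rw [mem_Bx]
        intro k
        simpa using (h k).2.2
      -- all vertices of the plaquette are in the unit box of each other
      have all : ∀ u ∈ ({x, x + Pi.single i 1, x + Pi.single j 1,
          x + Pi.single i 1 + Pi.single j 1} : Set (V d)),
          ∀ v ∈ ({x, x + Pi.single i 1, x + Pi.single j 1,
          x + Pi.single i 1 + Pi.single j 1} : Set (V d)), v ∈ Bx 1 u := by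
        have coord : ∀ w ∈ ({x, x + Pi.single i 1, x + Pi.single j 1,
            x + Pi.single i 1 + Pi.single j 1} : Set (V d)), ∀ k, x k ≤ w k ∧ w k ≤ x k + 1 := by
          intro w hw k
          simp only [Set.mem_insert_iff, Set.mem_singleton_iff] at hw
          rcases hw with rfl | rfl | rfl | rfl
          · omega
          · simp only [Pi.add_apply, Pi.single_apply]; split_ifs <;> omega
          · simp only [Pi.add_apply, Pi.single_apply]; split_ifs <;> omega
          · simp only [Pi.add_apply, Pi.single_apply]
            split_ifs with h1 h2 h3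
            · exact absurd (h1.symm.trans h2) hij
            all_goals omega
        intro u hu v hv
        rw [mem_Bx]
        intro k
        have h1 := coord u hu k
        have h2 := coord v hv k
        rw [abs_le]
        push_cast
        omega
      obtain ⟨u, hu, huD⟩ : ∃ u ∈ ({x, x + Pi.single i 1, x + Pi.single j 1,
          x + Pi.single i 1 + Pi.single j 1} : Set (V d)), u ∈ D := by
        rcases hex with h | h | h | h
        · exact ⟨_, by simp, h⟩
        · exact ⟨_, by simp, h⟩
        · exact ⟨_, by simp, h⟩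
        · exact ⟨_, by simp, h⟩
      have m0 := mem_D_or_bdS huD (all u hu x (by simp))
      have m1 := mem_D_or_bdS huD (all u hu (x + Pi.single i 1) (by simp))
      have m2 := mem_D_or_bdS huD (all u hu (x + Pi.single j 1) (by simp))
      have m3 := mem_D_or_bdS huD (all u hu (x + Pi.single i 1 + Pi.single j 1) (by simp))
      rw [hK x i m0 m1, hK _ j m1 m3, hK x j m0 m2, hK (x + Pi.single j 1) i m2 (by rw [e2]; exact m3),
        e2]
      ring
    · push Not at hex
      obtain ⟨h0, h1, h2, h3⟩ := hex
      simp only [hc]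
      rw [if_neg (by push Not; exact ⟨h0, h1⟩), if_neg (by push Not; exact ⟨h1, h3⟩),
        if_neg (by push Not; exact ⟨h0, h2⟩), if_neg (by rw [e2]; push Not; exact ⟨h2, h3⟩)]
  obtain ⟨h, hh⟩ := poincare c hcl
  -- the invariant function
  set f : V d → ℤ := fun x => h x + g x with hf
  have hinv : ∀ (x : V d) (i : Fin d), (x ∈ D ∨ x ∈ bdS D) →
      (x + Pi.single i 1 ∈ D ∨ x + Pi.single i 1 ∈ bdS D) →
      f (x + Pi.single i 1) = f x := by
    intro x i h1 h2
    have e1 := hh x i
    have e2 := hK x i h1 h2
    simp only [hf]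
    linarith
  have hcube : ∀ u ∈ D, ∀ w ∈ Bx 1 u, f w = f u := by
    intro u hu w hw
    exact cube_const f u (fun x i h1 h2 => hinv x i (mem_D_or_bdS hu h1) (mem_D_or_bdS hu h2)) w hw
  have hfD : ∀ u v : V d, u ∈ D → SJoin D u v → f v = f u := by
    intro u v hu huv
    unfold SJoin at huv
    induction huv with
    | refl => rfl
    | tail _ hstep ih =>
      rw [← ih]
      exact hcube _ hstep.1 _ hstep.2.2
  have fa : f a = f (a + st δa) := hcube _ hδa a (Bx_comm.1 (add_st_mem_Bx a δa))
  have fb : f b = f (b + st δb) := hcube _ hδb b (Bx_comm.1 (add_st_mem_Bx b δb))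
  have fab : f (b + st δb) = f (a + st δa) := hfD _ _ hδa (hD _ hδa _ hδb)
  have hga : g a = 1 := by
    simp only [hg]
    rw [if_pos]
    exact Relation.ReflTransGen.refl
  have hgb : g b = 0 := by
    simp only [hg]
    rw [if_neg]
    exact hnot
  -- along a path outside `D` the function `h` is constant
  have hout : ∀ v : V d, NJoin Dᶜ a v → h v = h a := by
    intro v hv
    unfold NJoin at hv
    induction hv with
    | refl => rfl
    | @tail y z _ hstep ih =>
      rw [← ih]
      obtain ⟨i, hi⟩ := step_cases hstep.2.2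
      have hy : y ∉ D := hstep.1
      have hz : z ∉ D := hstep.2.1
      rcases hi with rfl | hi
      · have e := hh y i
        have : c y i = 0 := by
          simp only [hc]
          rw [if_neg (by push Not; exact ⟨hy, hz⟩)]
        linarith
      · have e := hh z i
        rw [← hi] at e
        have : c z i = 0 := by
          simp only [hc]
          rw [if_neg (by rw [← hi]; push Not; exact ⟨hz, hy⟩)]
        linarith
  have hab' := hout b hab
  have fab' : f b = f a := by rw [fb, fab, ← fa]
  simp only [hf] at fab'
  rw [hga, hgb, hab'] at fab'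
  omega

end Ein99
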