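import Pool.Agent.LibEin99.B_Lower
import Pool.Agent.LibEin99.F_Final
import Pool.Agent.LibEin99.E_Sig
import Pool.Agent.LibEin99.H_Crit

/-!
TASK I_Main. Assembly.

`einstein_of_hyp`: let `S` be given by `uu_lim`, so `2(uu (n+1) - uu n) → S`, `2 uu n/n → S`.
`ip_GPsi`: `ip (GPsi k)(GPsi k) → S`, so `upper` gives `limsup v/lam ≤ S/kap`. `exists_adm` and `lower`:
`((S-ε)/kap)² ≤ (v/lam) (S+ε)/kap + ε` for small `lam` (if `S > 0`), and `v/lam ≥ 0` (`speed_le`) if
`S = 0`; so `v/lam → S/kap`. With `IsDiff`: `sigma_eq` gives `S = kap s`.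
The speed is only needed for small `lam`.
-/

open MeasureTheory ProbabilityTheory Filter Topology

namespace Ein99

theorem I_Main_tha_pos {d : ℕ} {p : unitInterval} (h : 0 < kap d p) : 0 < tha d p := by
  have h0 : 0 ≤ tha d p := measureReal_nonneg
  rcases h0.lt_or_eq with h1 | h1
  · exact h1
  · exfalso
    have : IsFiniteMeasure (nu d p) := by unfold nu; infer_instance
    have h2 : nu d p = 0 := by
      rw [← Measure.measure_univ_eq_zero]
      unfold tha at h1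
      rwa [eq_comm, measureReal_eq_zero_iff] at h1
    unfold kap at h
    rw [h2, integral_zero_measure] at h
    exact lt_irrefl _ h

theorem einstein_of_hyp {d : ℕ} {p : unitInterval} {K : ℕ} {C c : ℝ} (hd : 1 ≤ d)
    (hH : HypH d p K C c) (l : Fin d → ℝ) (hl : ∑ i, l i ^ 2 = 1) (v : ℝ → ℝ)
    (hv : ∀ᶠ lam in 𝓝[>] (0 : ℝ), IsSpeed d p lam l (v lam)) (s : NNReal)
    (hs : IsDiff d p l s) :
    Tendsto (fun lam : ℝ => v lam / lam) (𝓝[>] 0) (𝓝 (s : ℝ)) := by
  have hκ : 0 < kap d p := kap_pos hH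
  have ht : 0 < tha d p := I_Main_tha_pos hκ
  obtain ⟨S, hS0, hS1, hS2⟩ := uu_lim p l hl
  have hSs : S = kap d p * s := tendsto_nhds_unique hS2 (sigma_eq hd hH l hl s hs)
  have hSκ : S / kap d p = s := by rw [hSs]; field_simp
  have hs0 : (0 : ℝ) ≤ s := s.2
  rw [Metric.tendsto_nhds]
  intro ε₀ hε₀
  obtain ⟨ε, hε, hεε⟩ : ∃ ε : ℝ, 0 < ε ∧ ε < ε₀ := exists_between hε₀
  -- upper bound
  have hU : ∀ᶠ lam in 𝓝[>] (0 : ℝ), v lam / lam ≤ s + ε := by
    have h2k : Tendsto (fun k : ℕ => 2 * (uu p l (2 * k + 1) - uu p l (2 * k))) atTop (𝓝 S) :=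
      hS1.comp (tendsto_id.const_mul_atTop' (by norm_num : 0 < 2))
    have hlt : S < S + kap d p * (ε / 2) := by
      have : 0 < kap d p * (ε / 2) := by positivity
      linarith
    obtain ⟨k, hk⟩ := (h2k.eventually (gt_mem_nhds hlt)).exists
    obtain ⟨lam1, hl1, H⟩ := upper hd hH l hl k (ε / 2) (by positivity)
    have hlam : ∀ᶠ lam in 𝓝[>] (0 : ℝ), 0 < lam ∧ lam ≤ lam1 := by
      filter_upwards [Ioc_mem_nhdsGT hl1] with x hx
      exact hx
    filter_upwards [hv, hlam] with lam hvl hlam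
    have h1 := H lam hlam.1 hlam.2 (v lam) hvl
    rw [ip_GPsi p l hl k] at h1
    have h2 : 2 * (uu p l (2 * k + 1) - uu p l (2 * k)) / kap d p ≤ s + ε / 2 := by
      rw [div_le_iff₀ hκ]
      have : (s + ε / 2) * kap d p = S + kap d p * (ε / 2) := by rw [hSs]; ring
      rw [this]
      exact hk.le
    linarith
  -- lower bound
  have hL : ∀ᶠ lam in 𝓝[>] (0 : ℝ), (s : ℝ) - ε ≤ v lam / lam := by
    have hnn : ∀ᶠ lam in 𝓝[>] (0 : ℝ), 0 ≤ v lam / lam := by
      have hlam : ∀ᶠ lam in 𝓝[>] (0 : ℝ), 0 < lam ∧ lam ≤ 1 := by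
        filter_upwards [Ioc_mem_nhdsGT (zero_lt_one' ℝ)] with x hx
        exact hx
      filter_upwards [hv, hlam] with lam hvl hlam
      exact div_nonneg (speed_le lam hlam.1 hlam.2 l hl ht (v lam) hvl).1 hlam.1.le
    rcases hs0.lt_or_eq with hs1 | hs1
    · obtain ⟨η, hη0, hη1, hη2⟩ : ∃ η : ℝ, 0 < η ∧ η ≤ s ∧ η ≤ ε / 6 :=
        ⟨min s (ε / 6), lt_min hs1 (by positivity), min_le_left _ _, min_le_right _ _⟩
      obtain ⟨I, hI, hI1, hI2⟩ := exists_adm hd hH l hl S hS1 (kap d p * η) (by positivity)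
      obtain ⟨lam1, hl1, H⟩ := lower hd hH l hl I hI (ε * s / 2) (by positivity)
      have hlam : ∀ᶠ lam in 𝓝[>] (0 : ℝ), 0 < lam ∧ lam ≤ lam1 := by
        filter_upwards [Ioc_mem_nhdsGT hl1] with x hx
        exact hx
      have a1 : s - η ≤ ip p (Dl l) I / kap d p := by
        rw [le_div_iff₀ hκ]
        have := (abs_le.1 hI1).1
        rw [hSs] at this
        nlinarith
      have a2 : ip p I I / kap d p ≤ s + η := by
        rw [div_le_iff₀ hκ]
        have := (abs_le.1 hI2).2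
        rw [hSs] at this
        nlinarith
      filter_upwards [hv, hlam, hnn] with lam hvl hlam hn
      have h1 := H lam hlam.1 hlam.2 (v lam) hvl
      have h2 : (s - η) ^ 2 ≤ (ip p (Dl l) I / kap d p) ^ 2 :=
        pow_le_pow_left₀ (by linarith) a1 2
      have h3 : v lam / lam * (ip p I I / kap d p) ≤ v lam / lam * (s + η) :=
        mul_le_mul_of_nonneg_left a2 hn
      have h4 : (s - η) ^ 2 - ε * s / 2 ≤ v lam / lam * (s + η) := by linarith
      have h5 : (s - ε) * (s + η) ≤ (s - η) ^ 2 - ε * s / 2 := by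
        have h6 : 3 * s * η ≤ 3 * s * (ε / 6) := mul_le_mul_of_nonneg_left hη2 (by positivity)
        have h7 : 0 ≤ ε * η := by positivity
        have h8 : 0 ≤ η ^ 2 := by positivity
        nlinarith
      exact le_of_mul_le_mul_right (h5.trans h4) (by linarith)
    · filter_upwards [hnn] with lam hn
      rw [← hs1]
      linarith
  filter_upwards [hU, hL] with lam h1 h2
  rw [Real.dist_eq, abs_lt]
  constructor <;> linarith

theorem einstein (d : ℕ) (hd : 2 ≤ d) (p : unitInterval)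
    (hp : ∃ b : ℕ, 1 ≤ b ∧ (Pr d p).real {ω : Om d | ¬ GoodB b ω 0} ≤ del0 d)
    (l : Fin d → ℝ) (hl : ∑ i, l i ^ 2 = 1) (v : ℝ → ℝ)
    (hv : ∀ᶠ lam in 𝓝[>] (0 : ℝ), IsSpeed d p lam l (v lam)) (s : NNReal)
    (hs : IsDiff d p l s) :
    Tendsto (fun lam : ℝ => v lam / lam) (𝓝[>] 0) (𝓝 (s : ℝ)) := by
  obtain ⟨b, hb, h⟩ := hp
  obtain ⟨C, c, hH⟩ := hypH_of_crit d hd p b hb h
  exact einstein_of_hyp (by omega) hH l hl v hv s hs

end Ein99
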